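import Mathlib

/-!
Translation surfaces given by an atlas, saddle connections and their counts.
-/

set_option autoImplicit false

namespace Pool.Agent.MP_16ecd2_an.H18

open MeasureTheory Set Filter Topology

/-- A translation structure on `X`: away from the finite non-empty set `Sig` there is an atlas
whose transition maps are translations, and at `σ ∈ Sig` there is a chart `χ` such that the flat
coordinate is `χ ^ ord σ` (cone angle `2π · ord σ`; a marked point has `ord σ = 1`). -/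
structure TSurf (X : Type) [TopologicalSpace X] where
  Sig : Finset X
  ne : Sig.Nonempty
  atlas : Set (OpenPartialHomeomorph X ℂ)
  cover : ∀ x, x ∉ Sig → ∃ φ ∈ atlas, x ∈ φ.source
  avoid : ∀ φ ∈ atlas, ∀ x ∈ φ.source, x ∉ Sig
  trans : ∀ φ ∈ atlas, ∀ ψ ∈ atlas, ∀ x ∈ φ.source, x ∈ ψ.source →
    ∀ᶠ y in 𝓝 x, ψ y - ψ x = φ y - φ x
  ord : X → ℕ
  cone : ∀ σ ∈ Sig, 0 < ord σ ∧ ∃ χ : OpenPartialHomeomorph X ℂ, σ ∈ χ.source ∧ χ σ = 0 ∧
    ∀ φ ∈ atlas, ∀ x ∈ φ.source, x ∈ χ.source →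
      ∀ᶠ y in 𝓝 x, φ y - φ x = χ y ^ ord σ - χ x ^ ord σ

variable {X : Type} [TopologicalSpace X]

/-- `μ` is the flat area: a finite measure, Lebesgue measure in every chart, zero on `Sig`. -/
structure TSurf.IsArea [MeasurableSpace X] (S : TSurf X) (μ : Measure X) : Prop where
  fin : IsFiniteMeasure μ
  sig : μ S.Sig = 0
  chart : ∀ φ ∈ S.atlas, ∀ A, MeasurableSet A → A ⊆ φ.source → μ A = volume (φ '' A)

/-- The path `γ` is a straight segment with holonomy `v`: at all interior times it lies outside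
`Sig` and moves with constant velocity `v` in the charts. -/
def TSurf.Straight (S : TSurf X) (γ : C(unitInterval, X)) (v : ℂ) : Prop :=
  ∀ t : unitInterval, 0 < t → t < 1 → ∃ φ ∈ S.atlas, γ t ∈ φ.source ∧
    ∀ᶠ s in 𝓝 t, φ (γ s) - φ (γ t) = ((s : ℝ) - (t : ℝ)) • v

/-- Straight segments from `q` to `p`, with their holonomy. -/
def TSurf.Seg (S : TSurf X) (q p : X) : Set (C(unitInterval, X) × ℂ) :=
  {c | S.Straight c.1 c.2 ∧ c.1 0 = q ∧ c.1 1 = p}

/-- Oriented saddle connections, with their holonomy, when `P` is the set of all singular and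
marked points. -/
def TSurf.Conn (S : TSurf X) (P : Set X) : Set (C(unitInterval, X) × ℂ) :=
  {c | c.2 ≠ 0 ∧ S.Straight c.1 c.2 ∧ c.1 0 ∈ P ∧ c.1 1 ∈ P ∧
    ∀ t : unitInterval, 0 < t → t < 1 → c.1 t ∉ P}

/-- Vectors of length in `(0, R]` with an argument in `[α, β)`. -/
def Sect (α β R : ℝ) : Set ℂ :=
  {v | ∃ r ∈ Ioc (0 : ℝ) R, ∃ θ ∈ Ico α β, v = (r : ℂ) * Complex.exp (θ * Complex.I)}

/-- The number of segments in `Γ` of length at most `R` with angle in `[α, β)`. -/
noncomputable def cnt (Γ : Set (C(unitInterval, X) × ℂ)) (α β R : ℝ) : ℝ :=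
  ({c ∈ Γ | c.2 ∈ Sect α β R}.ncard : ℝ)

/-- `AE μ k P`: for almost every `q₁`, for almost every `q₂`, …, for almost every `q_k`, the set
`{q₁, …, q_k}` has property `P`. -/
def AE {Z : Type} [MeasurableSpace Z] (μ : Measure Z) : ℕ → (Set Z → Prop) → Prop
  | 0, P => P ∅
  | k + 1, P => AE μ k fun Q => ∀ᵐ q ∂μ, P (insert q Q)

end Pool.Agent.MP_16ecd2_an.H18
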