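import Pool.Agent.MP_16ecd2_an.H18.Kit

/-! Straight segments on a translation surface: restriction, gluing, uniqueness. -/

set_option autoImplicit false

namespace Pool.Agent.MP_16ecd2_an.H18

open Set Filter Topology

namespace A2X

variable {X : Type} [TopologicalSpace X] {S : TSurf X} {x y z σ σ' : X} {v : ℂ} {t : ℝ}

theorem sub (H : A1 S) (γ : ℝ → X) (v : ℂ) (a b : ℝ) (h : ∀ t ∈ uIcc a b, S.Lin γ v t) :
    S.RegX (γ a) ((b - a) • v) (γ b) := by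
  refine ⟨fun s => γ (a + (b - a) * s), by simp, by simp, fun s hs => H.rep γ v a _ s (h _ ?_)⟩
  rcases le_total a b with hab | hab
  · rw [uIcc_of_le hab]
    constructor <;> nlinarith [hs.1, hs.2]
  · rw [uIcc_of_ge hab]
    constructor <;> nlinarith [hs.1, hs.2]

theorem uniq (H : A1 S) {z' : X} (h : S.RegX x v z) (h' : S.RegX x v z') : z = z' := by
  obtain ⟨γ, a, rfl, c⟩ := h
  obtain ⟨γ', a', rfl, c'⟩ := h'
  exact H.uniq γ γ' v _ (convex_Icc 0 1) c c' 0 (by simp) (a.trans a'.symm) 1 (by simp)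

theorem exq (H : A1 S) (h : S.RegX x v z) : S.exX x v = z := by
  have e : ∃ z, S.RegX x v z := ⟨z, h⟩
  rw [TSurf.exX, dif_pos e]
  exact uniq H e.choose_spec h

theorem reg_nsig (H : A1 S) (h : S.RegX x v z) : x ∉ S.Sig ∧ z ∉ S.Sig := by
  obtain ⟨γ, rfl, rfl, c⟩ := h
  exact ⟨H.nsig γ v 0 (c 0 (by simp)), H.nsig γ v 1 (c 1 (by simp))⟩

theorem inch (H : A1 S) {φ : OpenPartialHomeomorph X ℂ} (hφ : φ ∈ S.atlas) (hx : x ∈ φ.source)
    (h : ∀ t ∈ Icc (0 : ℝ) 1, φ x + t • v ∈ φ.target) : S.RegX x v (φ.symm (φ x + v)) :=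
  ⟨fun s => φ.symm (φ x + s • v), by simp [φ.left_inv hx], by simp,
    fun t ht => H.chart φ hφ _ v t (h t ht)⟩

theorem zero (H : A1 S) (hx : x ∉ S.Sig) : S.RegX x 0 x := by
  obtain ⟨φ, hφ, h⟩ := S.cover x hx
  simpa [φ.left_inv h] using inch H (v := 0) hφ h fun t _ => by simpa using φ.map_source h

theorem eq_of_zero (H : A1 S) (h : S.RegX x 0 y) : y = x := uniq H h (zero H (reg_nsig H h).1)

theorem lim [T2Space X] (H : A1 S) {γ γ' : ℝ → X} (e : γ 0 = γ' 0)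
    (c : ∀ t ∈ Ico (0 : ℝ) 1, S.Lin γ v t) (c' : ∀ t ∈ Ico (0 : ℝ) 1, S.Lin γ' v t)
    (l : Tendsto γ (𝓝[<] 1) (𝓝 σ)) (l' : Tendsto γ' (𝓝[<] 1) (𝓝 σ')) : σ = σ' := by
  refine tendsto_nhds_unique_of_eventuallyEq l l' ?_
  filter_upwards [Ico_mem_nhdsLT (zero_lt_one' ℝ)] with t ht
  exact H.uniq γ γ' v _ (convex_Ico 0 1) c c' 0 (by simp) e t ht

theorem vis_reg [T2Space X] (H : A1 S) (h : S.Vis x v σ) (h' : S.RegX x v z) : False := by
  have hz := (reg_nsig H h').2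
  obtain ⟨hσ, γ, a, c, l⟩ := h
  obtain ⟨γ', a', rfl, c'⟩ := h'
  exact hz (lim H (a.trans a'.symm) c (fun t ht => c' t (Ico_subset_Icc_self ht)) l
    ((c' 1 (by simp)).1.tendsto.mono_left nhdsWithin_le_nhds) ▸ hσ)

theorem resc (H : A1 S) {γ : ℝ → X} {c : ℝ} (hc : c ≠ 0) (a s : ℝ)
    (h : S.Lin γ (c • v) ((s - a) / c)) : S.Lin (fun s => γ ((s - a) / c)) v s := by
  have e : ∀ s : ℝ, (s - a) / c = -a / c + c⁻¹ * s := fun s => by ring
  simp only [e] at h ⊢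
  simpa only [inv_smul_smul₀ hc] using H.rep γ _ _ _ s h

theorem first (H : A1 S) (ht : 0 < t) (h : S.RegX x (t • v) y) :
    ∃ γ : ℝ → X, γ 0 = x ∧ γ t = y ∧ ∀ s ∈ Icc 0 t, S.Lin γ v s := by
  obtain ⟨γ, a, b, c⟩ := h
  refine ⟨fun s => γ ((s - 0) / t), by simpa using a, by simpa [ht.ne'] using b,
    fun s hs => resc H ht.ne' 0 s (c _ ?_)⟩
  rw [sub_zero]
  exact ⟨div_nonneg hs.1 ht.le, (div_le_one ht).2 hs.2⟩

theorem join (H : A1 S) {γ₁ γ₂ : ℝ → X} (h1 : S.Lin γ₁ v t) (h2 : S.Lin γ₂ v t)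
    (e : γ₁ t = γ₂ t) :
    ∃ γ : ℝ → X, (∀ s ≤ t, γ =ᶠ[𝓝 s] γ₁) ∧ ∀ s, t ≤ s → γ =ᶠ[𝓝 s] γ₂ := by
  obtain ⟨r, r0, hr⟩ := Metric.eventually_nhds_iff_ball.1 ((H.nhd _ _ _ h1).and (H.nhd _ _ _ h2))
  have k : γ₁ =ᶠ[𝓝 t] γ₂ := Filter.mem_of_superset (Metric.ball_mem_nhds t r0) fun s hs =>
    H.uniq γ₁ γ₂ v _ (convex_ball t r) (fun s hs => (hr s hs).1) (fun s hs => (hr s hs).2) t
      (Metric.mem_ball_self r0) e s hs
  refine ⟨fun s => if s ≤ t then γ₁ s else γ₂ s, fun s hs => ?_, fun s hs => ?_⟩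
  · rcases hs.eq_or_lt with rfl | hs
    · filter_upwards [k] with u hu
      rw [← hu, ite_self]
    · filter_upwards [Iio_mem_nhds hs] with u hu using if_pos (le_of_lt hu)
  · rcases hs.eq_or_lt with rfl | hs
    · filter_upwards [k] with u hu
      rw [hu, ite_self]
    · filter_upwards [Ioi_mem_nhds hs] with u hu using if_neg (not_le.2 hu)

theorem glue (H : A1 S) (ht : t ∈ Icc (0 : ℝ) 1) (h : S.RegX x (t • v) y)
    (h' : S.RegX y ((1 - t) • v) z) : S.RegX x v z := by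
  rcases ht.1.eq_or_lt with rfl | h0
  · rw [zero_smul] at h
    simpa [eq_of_zero H h] using h'
  rcases ht.2.eq_or_lt with rfl | h1
  · rw [sub_self, zero_smul] at h'
    simpa [eq_of_zero H h'] using h
  obtain ⟨γ₁, a, b, c⟩ := first H h0 h
  obtain ⟨γ₂, a', b', c'⟩ := h'
  have h2 : 0 < 1 - t := sub_pos.2 h1
  have d : ∀ s ∈ Icc t 1, S.Lin (fun s => γ₂ ((s - t) / (1 - t))) v s := fun s hs =>
    resc H h2.ne' t s (c' _ ⟨div_nonneg (sub_nonneg.2 hs.1) h2.le,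
      (div_le_one h2).2 (by linarith [hs.2])⟩)
  obtain ⟨γ, e1, e2⟩ := join H (c t ⟨h0.le, le_rfl⟩) (d t ⟨le_rfl, h1.le⟩) (by simp [a', b])
  refine ⟨γ, (e1 0 h0.le).self_of_nhds.trans a, (e2 1 h1.le).self_of_nhds.trans
    (by simp [h2.ne', b']), fun s hs => ?_⟩
  rcases le_total s t with hst | hst
  · exact H.congr _ _ _ _ (c s ⟨hs.1, hst⟩) (e1 s hst)
  · exact H.congr _ _ _ _ (d s ⟨hst, hs.2⟩) (e2 s hst)

theorem vglue (H : A1 S) (ht : t ∈ Ico (0 : ℝ) 1) (h : S.RegX x (t • v) y)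
    (h' : S.Vis y ((1 - t) • v) σ) : S.Vis x v σ := by
  rcases ht.1.eq_or_lt with rfl | h0
  · rw [zero_smul] at h
    simpa [eq_of_zero H h] using h'
  obtain ⟨γ₁, a, b, c⟩ := first H h0 h
  obtain ⟨hσ, γ₂, a', c', l⟩ := h'
  have h2 : 0 < 1 - t := sub_pos.2 ht.2
  have d : ∀ s ∈ Ico t 1, S.Lin (fun s => γ₂ ((s - t) / (1 - t))) v s := fun s hs =>
    resc H h2.ne' t s (c' _ ⟨div_nonneg (sub_nonneg.2 hs.1) h2.le,
      (div_lt_one h2).2 (by linarith [hs.2])⟩)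
  obtain ⟨γ, e1, e2⟩ := join H (c t ⟨h0.le, le_rfl⟩) (d t ⟨le_rfl, ht.2⟩) (by simp [a', b])
  refine ⟨hσ, γ, (e1 0 h0.le).self_of_nhds.trans a, fun s hs => ?_, ?_⟩
  · rcases le_total s t with hst | hst
    · exact H.congr _ _ _ _ (c s ⟨hs.1, hst⟩) (e1 s hst)
    · exact H.congr _ _ _ _ (d s ⟨hst, hs.2⟩) (e2 s hst)
  · refine Tendsto.congr' ((e2 1 ht.2.le).symm.filter_mono nhdsWithin_le_nhds) (l.comp ?_)
    refine tendsto_nhdsWithin_iff.2 ⟨Tendsto.mono_left ?_ nhdsWithin_le_nhds, ?_⟩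
    · exact Continuous.tendsto' (by fun_prop) _ _ (div_self h2.ne')
    · filter_upwards [self_mem_nhdsWithin] with s hs
      exact (div_lt_one h2).2 (sub_lt_sub_right hs t)

theorem vsplit (H : A1 S) (h : S.Vis x v σ) (ht : t ∈ Ico (0 : ℝ) 1) :
    ∃ y, S.RegX x (t • v) y ∧ S.Vis y ((1 - t) • v) σ := by
  obtain ⟨hσ, γ, rfl, c, l⟩ := h
  have h2 : 0 < 1 - t := sub_pos.2 ht.2
  refine ⟨γ t, ?_, hσ, fun s => γ (t + (1 - t) * s), by simp, fun s hs =>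
    H.rep γ v t _ s (c _ ⟨by nlinarith [hs.1, ht.1], by nlinarith [hs.2]⟩), l.comp ?_⟩
  · simpa using sub H γ v 0 t fun s hs => by
      rw [uIcc_of_le ht.1] at hs
      exact c s ⟨hs.1, hs.2.trans_lt ht.2⟩
  · refine tendsto_nhdsWithin_iff.2 ⟨Tendsto.mono_left ?_ nhdsWithin_le_nhds, ?_⟩
    · exact Continuous.tendsto' (by fun_prop) _ _ (by ring)
    · filter_upwards [self_mem_nhdsWithin] with s hs
      have : s < 1 := hs
      show t + (1 - t) * s < 1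
      nlinarith

theorem path (H : A1 S) (h : ∀ t ∈ Ico (0 : ℝ) 1, ∃ z, S.RegX x (t • v) z)
    (ht : t ∈ Ioo (0 : ℝ) 1) : S.Lin (fun s => S.exX x (s • v)) v t := by
  obtain ⟨z, hz⟩ := h ((t + 1) / 2) ⟨by linarith [ht.1], by linarith [ht.2]⟩
  obtain ⟨γ, rfl, -, c⟩ := first H (by linarith [ht.1]) hz
  refine H.congr γ _ v t (c t ⟨ht.1.le, by linarith [ht.2]⟩) ?_
  filter_upwards [Icc_mem_nhds ht.1 (show t < (t + 1) / 2 by linarith [ht.2])] with s hs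
  refine exq H ?_
  simpa using sub H γ v 0 s fun u hu => by
    rw [uIcc_of_le hs.1] at hu
    exact c u ⟨hu.1, hu.2.trans hs.2⟩

end A2X

open A2X in
theorem a2 (h1 : RA1) : RA2 := by
  intro X _ _ S
  have H := h1 X S
  refine ⟨fun _ _ _ => reg_nsig H, fun x v σ h => ?_, fun x v hx => ?_, fun _ _ _ => exq H,
    fun _ => zero H, fun _ hφ _ hx _ => inch H hφ hx, fun x v z h => ?_,
    fun _ _ _ _ => vis_reg H, fun x v σ σ' h h' => ?_, sub H, fun x v z h t ht => ?_,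
    fun _ _ _ h _ ht => vsplit H h ht, fun _ _ _ _ _ ht => glue H ht,
    fun _ _ _ _ _ ht => vglue H ht, fun _ _ h _ ht => path H h ht⟩
  · have hx : x ∉ S.Sig := by
      obtain ⟨-, γ, rfl, c, -⟩ := h
      exact H.nsig γ v 0 (c 0 (by simp))
    exact ⟨hx, fun e => vis_reg H h (e ▸ zero H hx)⟩
  · by_cases e : ∃ z, S.RegX x v z
    · obtain ⟨z, hz⟩ := e
      rw [exq H hz]
      exact (reg_nsig H hz).2
    · rwa [TSurf.exX, dif_neg e]
  · obtain ⟨γ, rfl, rfl, c⟩ := h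
    simpa using sub H γ v 1 0 fun t ht => c t (by simpa using ht)
  · obtain ⟨-, γ, a, c, l⟩ := h
    obtain ⟨-, γ', a', c', l'⟩ := h'
    exact lim H (a.trans a'.symm) c c' l l'
  · obtain ⟨γ, rfl, rfl, c⟩ := h
    refine ⟨γ t, ?_, sub H γ v t 1 fun s hs => ?_⟩
    · simpa using sub H γ v 0 t fun s hs => by
        rw [uIcc_of_le ht.1] at hs
        exact c s ⟨hs.1, hs.2.trans ht.2⟩
    · rw [uIcc_of_le ht.2] at hs
      exact c s ⟨ht.1.trans hs.1, hs.2⟩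

end Pool.Agent.MP_16ecd2_an.H18
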