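import Pool.Agent.MP_16ecd2_an.H18.Kit

/-!
Cone charts.
-/

set_option autoImplicit false

namespace Pool.Agent.MP_16ecd2_an.H18

open MeasureTheory Set Filter Topology Metric

namespace A3X

variable {X : Type} [TopologicalSpace X] {S : TSurf X} {σ : X} {χ : OpenPartialHomeomorph X ℂ}
  {r : ℝ}

theorem closed_disc [T2Space X] (h : ConeAt S σ χ r) :
    IsClosed {y | y ∈ χ.source ∧ ‖χ y‖ ≤ r} := by
  have e : {y | y ∈ χ.source ∧ ‖χ y‖ ≤ r} = χ.symm '' closedBall 0 r := by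
    ext y
    refine ⟨fun hy => ⟨χ y, mem_closedBall_zero_iff.2 hy.2, χ.left_inv hy.1⟩, ?_⟩
    rintro ⟨w, hw, rfl⟩
    exact ⟨χ.map_target (h.ball hw), by
      rw [χ.right_inv (h.ball hw)]; exact mem_closedBall_zero_iff.1 hw⟩
  rw [e]
  exact ((isCompact_closedBall 0 r).image_of_continuousOn
    (χ.continuousOn_symm.mono h.ball)).isClosed

theorem ex (hσ : σ ∈ S.Sig) : ∃ χ r, ConeAt S σ χ r := by
  obtain ⟨h0, χ, h1, h2, h3⟩ := S.cone σ hσ
  have hf : (χ '' {y | y ∈ S.Sig ∧ y ∈ χ.source ∧ y ≠ σ}).Finite :=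
    (S.Sig.finite_toSet.subset fun y hy => hy.1).image _
  have hn : χ.target ∩ (χ '' {y | y ∈ S.Sig ∧ y ∈ χ.source ∧ y ≠ σ})ᶜ ∈ 𝓝 (0 : ℂ) := by
    refine (χ.open_target.inter hf.isClosed.isOpen_compl).mem_nhds ⟨h2 ▸ χ.map_source h1, ?_⟩
    rintro ⟨y, hy, e⟩
    exact hy.2.2 (χ.injOn hy.2.1 h1 (e.trans h2.symm))
  obtain ⟨r, r0, hr⟩ := nhds_basis_closedBall.mem_iff.1 hn
  refine ⟨χ, r, hσ, h0, h1, h2, r0, fun w hw => (hr hw).1, fun y a b c => ?_, h3⟩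
  by_contra hy
  exact (hr (mem_closedBall_zero_iff.2 b)).2 ⟨y, ⟨c, a, hy⟩, rfl⟩

theorem stay [T2Space X] (h : ConeAt S σ χ r) {γ : ℝ → X} {v : ℂ} {a b : ℝ} (hab : a ≤ b)
    (hl : ∀ t ∈ Icc a b, S.Lin γ v t) (ha : γ a ∈ χ.source)
    (hr : ‖χ (γ a)‖ ^ S.ord σ + (b - a) * ‖v‖ < r ^ S.ord σ) :
    γ b ∈ χ.source ∧ ‖χ (γ b)‖ < r ∧ χ (γ b) ^ S.ord σ = χ (γ a) ^ S.ord σ + (b - a) • v := by
  have lt : ∀ t ∈ Icc a b, ∀ w : ℂ, w ^ S.ord σ = χ (γ a) ^ S.ord σ + (t - a) • v → ‖w‖ < r := by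
    intro t ht w hw
    refine lt_of_pow_lt_pow_left₀ (S.ord σ) h.pos.le (lt_of_le_of_lt ?_ hr)
    rw [← norm_pow, hw, ← norm_pow]
    refine (norm_add_le _ _).trans (add_le_add le_rfl ?_)
    rw [norm_smul, Real.norm_eq_abs, abs_of_nonneg (sub_nonneg.2 ht.1)]
    exact mul_le_mul_of_nonneg_right (by linarith [ht.2]) (norm_nonneg _)
  have hc : ContinuousOn γ (Icc a b) := fun t ht => (hl t ht).1.continuousWithinAt
  have c1 := hc.preimage_isClosed_of_isClosed isClosed_Icc (closed_disc h)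
  have c2 : ContinuousOn (fun t => χ (γ t) ^ S.ord σ - (t - a) • v)
      (Icc a b ∩ γ ⁻¹' {y | y ∈ χ.source ∧ ‖χ y‖ ≤ r}) :=
    ((χ.continuousOn.comp (hc.mono inter_subset_left) fun t ht => ht.2.1).pow _).sub (by fun_prop)
  have c3 := c2.preimage_isClosed_of_isClosed c1 (isClosed_singleton (x := χ (γ a) ^ S.ord σ))
  have key : Icc a b ⊆ {t | (γ t ∈ χ.source ∧ ‖χ (γ t)‖ ≤ r) ∧
      χ (γ t) ^ S.ord σ = χ (γ a) ^ S.ord σ + (t - a) • v} := by
    refine IsClosed.Icc_subset_of_forall_mem_nhdsWithin ?_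
      ⟨⟨ha, (lt a (left_mem_Icc.2 hab) _ (by simp)).le⟩, by simp⟩ fun t ht => ?_
    · convert c3 using 1
      ext t
      simp only [mem_inter_iff, mem_ofPred_eq, mem_preimage, mem_singleton_iff,
        sub_eq_iff_eq_add]
      tauto
    · obtain ⟨⟨⟨t1, -⟩, t2⟩, t3⟩ := ht
      obtain ⟨l1, φ, l2, l3, l4⟩ := hl t (Ico_subset_Icc_self t3)
      have n1 : ∀ᶠ s in 𝓝 t, ‖χ (γ s)‖ < r :=
        ((χ.continuousAt t1).comp l1).norm.eventually_lt continuousAt_const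
          (lt t (Ico_subset_Icc_self t3) _ t2)
      refine mem_nhdsWithin_of_mem_nhds ?_
      filter_upwards [l1.eventually (χ.open_source.mem_nhds t1), n1, l4,
        l1.eventually (h.trans φ l2 _ l3 t1)] with s s1 s2 s3 s4
      refine ⟨⟨s1, s2.le⟩, ?_⟩
      rw [eq_add_of_sub_eq (s4.symm.trans s3), t2, add_left_comm, ← add_smul]
      congr 2
      ring
  obtain ⟨⟨k1, -⟩, k2⟩ := key (right_mem_Icc.2 hab)
  exact ⟨k1, lt b (right_mem_Icc.2 hab) _ k2, k2⟩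

theorem prong (h : ConeAt S σ χ r) {y : X} (hy : y ∈ χ.source) (hr : ‖χ y‖ ≤ r) (hσ : y ≠ σ) :
    S.Vis y (-(χ y ^ S.ord σ)) σ := by
  have n0 : (0 : ℝ) < (S.ord σ : ℝ)⁻¹ := inv_pos.2 (by exact_mod_cast h.ord)
  have cc : Continuous fun t : ℝ => ((1 - t) ^ (S.ord σ : ℝ)⁻¹) • χ y :=
    ((continuous_const.sub continuous_id).rpow_const fun _ => Or.inr n0.le).smul continuous_const
  refine ⟨h.sig, fun t => χ.symm (((1 - t) ^ (S.ord σ : ℝ)⁻¹) • χ y), by simp [χ.left_inv hy],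
    fun t ht => ?_, ?_⟩
  · have t0 : 0 < 1 - t := sub_pos.2 ht.2
    have c0 := Real.rpow_pos_of_pos t0 (S.ord σ : ℝ)⁻¹
    have nb : ‖((1 - t) ^ (S.ord σ : ℝ)⁻¹) • χ y‖ ≤ r := by
      rw [norm_smul, Real.norm_eq_abs, abs_of_pos c0]
      exact (mul_le_of_le_one_left (norm_nonneg _)
        (Real.rpow_le_one t0.le (by linarith [ht.1]) n0.le)).trans hr
    have tg := h.ball (mem_closedBall_zero_iff.2 nb)
    have c1 : ContinuousAt (fun t : ℝ => χ.symm (((1 - t) ^ (S.ord σ : ℝ)⁻¹) • χ y)) t :=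
      ContinuousAt.comp (f := fun t : ℝ => ((1 - t) ^ (S.ord σ : ℝ)⁻¹) • χ y)
        (χ.continuousAt_symm tg) cc.continuousAt
    obtain ⟨φ, p1, p2⟩ := S.cover (χ.symm (((1 - t) ^ (S.ord σ : ℝ)⁻¹) • χ y)) fun hs => by
      have e := congrArg χ (h.only _ (χ.map_target tg) (by rw [χ.right_inv tg]; exact nb) hs)
      rw [χ.right_inv tg, h.zero, smul_eq_zero] at e
      exact hσ (χ.injOn hy h.mem ((e.resolve_left c0.ne').trans h.zero.symm))
    have pw : ∀ s : ℝ, s < 1 → (((1 - s) ^ (S.ord σ : ℝ)⁻¹) • χ y) ^ S.ord σ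
        = (1 - s) • χ y ^ S.ord σ := fun s hs => by
      rw [smul_pow, Real.rpow_inv_natCast_pow (sub_pos.2 hs).le h.ord.ne']
    refine ⟨c1, φ, p1, p2, ?_⟩
    filter_upwards [c1.eventually (h.trans φ p1 _ p2 (χ.map_target tg)),
      cc.continuousAt.eventually (χ.open_target.mem_nhds tg), Iio_mem_nhds ht.2] with s s1 s2 s3
    rw [s1, χ.right_inv s2, χ.right_inv tg, pw s s3, pw t ht.2, ← sub_smul, smul_neg, ← neg_smul]
    congr 1
    ring
  · have z : (0 : ℂ) ∈ χ.target := h.zero ▸ χ.map_source h.mem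
    have e : χ.symm 0 = σ := by rw [← h.zero, χ.left_inv h.mem]
    have c2 := cc.tendsto 1
    rw [sub_self, Real.zero_rpow n0.ne', zero_smul] at c2
    have c3 := ((χ.continuousAt_symm z).tendsto.comp c2).mono_left (nhdsWithin_le_nhds (s := Iio 1))
    rwa [e] at c3

end A3X

theorem a3 (h1 : RA1) (h2 : RA2) : RA3 := by
  intro X _ _ S
  refine ⟨fun σ => A3X.ex, fun σ χ r h γ v a b => A3X.stay h, fun σ χ r h y => A3X.prong h,
    fun σ χ r h y v ⟨_, γ, g0, gl, gt⟩ hv => ?_, fun σ χ r h y hy v σ' ⟨s, γ, g0, gl, gt⟩ hv => ?_⟩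
  · have c0 : Tendsto (fun t => χ (γ t)) (𝓝[<] 1) (𝓝 0) :=
      h.zero ▸ (χ.continuousAt h.mem).tendsto.comp gt
    have c1 : Tendsto (fun t => χ (γ t) ^ S.ord σ + (t - 0) • (-1 : ℝ) • v) (𝓝[<] 1) (𝓝 (-v)) := by
      have : Tendsto (fun t : ℝ => (t - 0) • (-1 : ℝ) • v) (𝓝[<] 1) (𝓝 ((1 - 0 : ℝ) • (-1 : ℝ) • v)) :=
        (Continuous.tendsto (by fun_prop) 1).mono_left nhdsWithin_le_nhds
      simpa [h.ord.ne'] using (c0.pow (S.ord σ)).add this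
    have c2 : ∀ᶠ t in 𝓝[<] (1 : ℝ), ‖χ (γ t)‖ ^ S.ord σ + ‖v‖ < r ^ S.ord σ :=
      ((c0.norm.pow (S.ord σ)).add_const ‖v‖).eventually_lt_const (by simpa [h.ord.ne'] using hv)
    have key : ∀ᶠ t in 𝓝[<] (1 : ℝ), y ∈ χ.source ∧ ‖χ y‖ < r ∧
        χ y ^ S.ord σ = χ (γ t) ^ S.ord σ + (t - 0) • (-1 : ℝ) • v := by
      filter_upwards [c2, gt.eventually (χ.open_source.mem_nhds h.mem),
        Ioo_mem_nhdsLT zero_lt_one] with t t1 t2 t3
      have := A3X.stay h (γ := fun s => γ (t + -1 * s)) (v := (-1 : ℝ) • v) t3.1.le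
        (fun s hs => (h1 X S).rep γ v t (-1) s
          (gl _ ⟨by linarith [hs.2], by linarith [hs.1, t3.2]⟩))
        (by rw [mul_zero, add_zero]; exact t2) (by
          simp only [mul_zero, add_zero, sub_zero, neg_smul, one_smul, norm_neg]
          nlinarith [norm_nonneg v, t3.2])
      simpa only [neg_one_mul, add_neg_cancel, g0, neg_zero, add_zero] using this
    obtain ⟨t, k1, k2, -⟩ := key.exists
    exact ⟨k1, k2, tendsto_nhds_unique (tendsto_const_nhds.congr' (key.mono fun _ a => a.2.2)) c1⟩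
  · have : σ' ∈ {y | y ∈ χ.source ∧ ‖χ y‖ ≤ r} := by
      refine (A3X.closed_disc h).mem_of_tendsto gt ?_
      filter_upwards [Ioo_mem_nhdsLT zero_lt_one] with t t3
      have := A3X.stay h t3.1.le (fun s hs => gl s ⟨hs.1, hs.2.trans_lt t3.2⟩) (g0 ▸ hy) (by
        rw [g0]; nlinarith [norm_nonneg v, t3.2])
      exact ⟨this.1, this.2.1.le⟩
    exact h.only _ this.1 this.2 s

end Pool.Agent.MP_16ecd2_an.H18
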