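import Pool.Agent.MP_16ecd2_an.H18.Kit

/-!
Completeness of the straight line flow up to the first singular point.
-/

set_option autoImplicit false

namespace Pool.Agent.MP_16ecd2_an.H18

open Set Filter Topology Metric

namespace A4X

variable {X : Type} [TopologicalSpace X] {S : TSurf X}

theorem ext (h2 : A2 S) {x y : X} {v : ℂ} {a b ρ : ℝ} (ha : 0 ≤ a) (hab : a < b)
    (h : S.RegX x (a • v) y) {φ : OpenPartialHomeomorph X ℂ} (hφ : φ ∈ S.atlas)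
    (hy : y ∈ φ.source) (hρ : ball (φ y) ρ ⊆ φ.target) (hv : (b - a) * ‖v‖ < ρ) :
    ∃ z, S.RegX x (b • v) z := by
  have hb : 0 < b := ha.trans_lt hab
  have h1 := h2.inch φ hφ y hy ((b - a) • v) fun t ht => hρ (by
    rw [mem_ball_iff_norm, add_sub_cancel_left, norm_smul, norm_smul, Real.norm_of_nonneg ht.1,
      Real.norm_of_nonneg (by linarith)]
    exact (mul_le_of_le_one_left (mul_nonneg (by linarith) (norm_nonneg v)) ht.2).trans_lt hv)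
  refine ⟨_, h2.glue x (b • v) y (φ.symm (φ y + (b - a) • v)) (a / b)
    ⟨by positivity, (div_le_one hb).2 hab.le⟩ ?_ ?_⟩
  · rwa [smul_smul, div_mul_cancel₀ _ hb.ne']
  · rwa [smul_smul, sub_mul, one_mul, div_mul_cancel₀ _ hb.ne']

theorem ev (w : ℂ) {ε : ℝ} (hε : 0 < ε) :
    ∀ᶠ s in 𝓝[<] (1 : ℝ), s ∈ Ioo (0 : ℝ) 1 ∧ (1 - s) * ‖w‖ < ε := by
  refine (show ∀ᶠ s in 𝓝[<] (1 : ℝ), s ∈ Ioo (0 : ℝ) 1 from Ioo_mem_nhdsLT one_pos).and
    (mem_nhdsWithin_of_mem_nhds ?_)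
  exact (isOpen_lt (by fun_prop) continuous_const).mem_nhds (by simpa using hε)

theorem tend (h3 : A3 S) {γ : ℝ → X} {w : ℂ} (hγ : ∀ t ∈ Ioo (0 : ℝ) 1, S.Lin γ w t) {σ : X}
    (hσ : σ ∈ S.Sig) (hc : MapClusterPt σ (𝓝[<] 1) γ) : Tendsto γ (𝓝[<] 1) (𝓝 σ) := by
  obtain ⟨χ, r, hC⟩ := h3.ex σ hσ
  intro U hU
  have c1 : ContinuousAt χ.symm (χ σ) := χ.continuousAt_symm (χ.map_source hC.mem)
  rw [ContinuousAt, χ.left_inv hC.mem, hC.zero] at c1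
  obtain ⟨δ, hδ, hb⟩ := Metric.mem_nhds_iff.1 (c1 hU)
  have hε : 0 < min δ r := lt_min hδ hC.pos
  have hC' : ConeAt S σ χ (min δ r) := ⟨hC.sig, hC.ord, hC.mem, hC.zero, hε,
    (closedBall_subset_closedBall (min_le_right _ _)).trans hC.ball,
    fun y hy h => hC.only y hy (h.trans (min_le_right _ _)), hC.trans⟩
  have hp : 0 < min δ r ^ S.ord σ / 2 := by positivity
  have c2 : ContinuousAt (fun y => ‖χ y‖ ^ S.ord σ) σ := (χ.continuousAt hC.mem).norm.pow _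
  have hN : ∀ᶠ y in 𝓝 σ, y ∈ χ.source ∧ ‖χ y‖ ^ S.ord σ < min δ r ^ S.ord σ / 2 :=
    (show ∀ᶠ y in 𝓝 σ, y ∈ χ.source from χ.open_source.mem_nhds hC.mem).and
      (c2.eventually_lt continuousAt_const (by
        simpa only [hC.zero, norm_zero, zero_pow hC.ord.ne'] using hp))
  obtain ⟨s, ⟨s1, s2⟩, s3, s4⟩ := ((mapClusterPt_iff_frequently.1 hc _ hN).and_eventually
    (ev w hp)).exists
  refine mem_map.2 (mem_of_superset (Ioo_mem_nhdsLT s3.2) fun t ht => ?_)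
  obtain ⟨t1, t2, -⟩ := h3.stay σ χ _ hC' γ w s t ht.1.le
    (fun u hu => hγ u ⟨s3.1.trans_le hu.1, hu.2.trans_lt ht.2⟩) s1 (by
      have := mul_le_mul_of_nonneg_right (show t - s ≤ 1 - s by linarith [ht.2]) (norm_nonneg w)
      linarith)
  have := hb (mem_ball_zero_iff.2 (t2.trans_le (min_le_left _ _)))
  rwa [mem_preimage, χ.left_inv t1] at this

theorem lim [CompactSpace X] (h1 : A1 S) (h2 : A2 S) (h3 : A3 S) {x : X} {w : ℂ}
    (h : ∀ t ∈ Ico (0 : ℝ) 1, ∃ z, S.RegX x (t • w) z) :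
    (∃ z, S.RegX x w z) ∨ ∃ σ, S.Vis x w σ := by
  have hγ := h2.path x w h
  have hr : ∀ t ∈ Ioo (0 : ℝ) 1, S.RegX x (t • w) (S.exX x (t • w)) := fun t ht => by
    obtain ⟨z, hz⟩ := h t ⟨ht.1.le, ht.2⟩
    rwa [h2.exq _ _ _ hz]
  obtain ⟨z, hz⟩ : ∃ z, MapClusterPt z (𝓝[<] (1 : ℝ)) fun s => S.exX x (s • w) :=
    exists_clusterPt_of_compactSpace _
  by_cases hs : z ∈ S.Sig
  · refine Or.inr ⟨z, h2.vglue x w _ z (1 / 2) ⟨by norm_num, by norm_num⟩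
      (hr _ ⟨by norm_num, by norm_num⟩) ⟨hs, fun s => S.exX x ((1 / 2 + (1 - 1 / 2) * s) • w),
        by simp, fun t ht => h1.rep (fun s => S.exX x (s • w)) w (1 / 2) (1 - 1 / 2) t
          (hγ _ ⟨by linarith [ht.1], by linarith [ht.2]⟩), (tend h3 hγ hs hz).comp ?_⟩⟩
    refine tendsto_nhdsWithin_iff.2 ⟨tendsto_nhdsWithin_of_tendsto_nhds
      (Continuous.tendsto' (by fun_prop) _ _ (by norm_num)), ?_⟩
    filter_upwards [self_mem_nhdsWithin] with t ht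
    rw [mem_Iio] at ht ⊢
    linarith
  · obtain ⟨φ, hφ, hzφ⟩ := S.cover z hs
    obtain ⟨ρ, hρ, hb⟩ := Metric.isOpen_iff.1 φ.open_target _ (φ.map_source hzφ)
    have hN : ∀ᶠ y in 𝓝 z, y ∈ φ.source ∧ φ y ∈ ball (φ z) (ρ / 2) :=
      (show ∀ᶠ y in 𝓝 z, y ∈ φ.source from φ.open_source.mem_nhds hzφ).and
        (φ.continuousAt hzφ (ball_mem_nhds _ (half_pos hρ)))
    obtain ⟨s, ⟨s1, s2⟩, s3, s4⟩ := ((mapClusterPt_iff_frequently.1 hz _ hN).and_eventually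
      (ev w (half_pos hρ))).exists
    have := ext h2 s3.1.le s3.2 (hr s s3) hφ s1
      ((ball_subset_ball' (by linarith [mem_ball.1 s2])).trans hb) s4
    exact Or.inl (by rwa [one_smul] at this)

end A4X

open A4X

theorem a4 (h1 : RA1) (h2 : RA2) (h3 : RA3) : RA4 := by
  intro X _ _ _ S x v hx
  replace h1 := h1 X S
  replace h2 := h2 X S
  replace h3 := h3 X S
  refine or_iff_not_imp_right.2 fun hn => ?_
  have down : ∀ s t : ℝ, 0 ≤ s → s < t → (∃ z, S.RegX x (t • v) z) → ∃ z, S.RegX x (s • v) z := by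
    rintro s t s0 st ⟨z, hz⟩
    have t0 : 0 < t := s0.trans_lt st
    obtain ⟨y, hy, -⟩ := h2.split x _ z hz (s / t) ⟨by positivity, (div_le_one t0).2 st.le⟩
    exact ⟨y, by rwa [smul_smul, div_mul_cancel₀ _ t0.ne'] at hy⟩
  set A := {t ∈ Icc (0 : ℝ) 1 | ∃ z, S.RegX x (t • v) z} with hA
  have h0 : (0 : ℝ) ∈ A := ⟨⟨le_rfl, zero_le_one⟩, x, by rw [zero_smul]; exact h2.zero x hx⟩
  have hb : BddAbove A := ⟨1, fun t ht => ht.1.2⟩
  have τ0 : 0 ≤ sSup A := le_csSup hb h0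
  have τ1 : sSup A ≤ 1 := csSup_le ⟨0, h0⟩ fun t ht => ht.1.2
  obtain ⟨z, hz⟩ : ∃ z, S.RegX x (sSup A • v) z := by
    rcases τ0.eq_or_lt with h | h
    · exact h ▸ h0.2
    refine (lim h1 h2 h3 fun t ht => ?_).resolve_right fun hv => hn ⟨_, ⟨h, τ1⟩, hv⟩
    obtain ⟨s, hs, hts⟩ := exists_lt_of_lt_csSup ⟨0, h0⟩ (mul_lt_of_lt_one_left h ht.2)
    rw [smul_smul]
    exact down _ s (mul_nonneg ht.1 τ0) hts hs.2
  rcases τ1.eq_or_lt with h | h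
  · exact ⟨z, by rwa [h, one_smul] at hz⟩
  obtain ⟨φ, hφ, hzφ⟩ := S.cover z (h2.reg_nsig _ _ _ hz).2
  obtain ⟨ρ, hρ, hB⟩ := Metric.isOpen_iff.1 φ.open_target _ (φ.map_source hzφ)
  have hN : ∀ᶠ b in 𝓝[>] (sSup A), b ∈ Ioo (sSup A) 1 ∧ (b - sSup A) * ‖v‖ < ρ :=
    (show ∀ᶠ b in 𝓝[>] (sSup A), b ∈ Ioo (sSup A) 1 from Ioo_mem_nhdsGT h).and
      (mem_nhdsWithin_of_mem_nhds
        ((isOpen_lt (by fun_prop) continuous_const).mem_nhds (by simpa using hρ)))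
  obtain ⟨b, b1, b2⟩ := hN.exists
  exact absurd (le_csSup hb ⟨⟨τ0.trans b1.1.le, b1.2.le⟩, ext h2 τ0 b1.1 hz hφ hzφ hB b2⟩)
    (not_le.2 b1.1)

end Pool.Agent.MP_16ecd2_an.H18
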