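import Pool.Agent.MP_16ecd2_an.H18.Kit

/-!
The exponential map is a translation in the charts.
-/

set_option autoImplicit false

namespace Pool.Agent.MP_16ecd2_an.H18

open MeasureTheory Set Filter Topology Metric

namespace A5X

/-- Induction along the unit interval from a local step. -/
theorem ind {P : ℝ → Prop} (h0 : P 0) (h : ∀ c ∈ Icc (0 : ℝ) 1, ∃ δ > 0, ∀ t t' : ℝ, 0 ≤ t →
    t ≤ t' → t' ≤ 1 → |t - c| < δ → |t' - c| < δ → P t → P t') : P 1 := by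
  have hn : {t ∈ Icc (0 : ℝ) 1 | P t}.Nonempty := ⟨0, by simp, h0⟩
  have hb : BddAbove {t ∈ Icc (0 : ℝ) 1 | P t} := ⟨1, fun t ht => ht.1.2⟩
  have h1 : 0 ≤ sSup {t ∈ Icc (0 : ℝ) 1 | P t} := le_csSup hb ⟨by simp, h0⟩
  have h2 : sSup {t ∈ Icc (0 : ℝ) 1 | P t} ≤ 1 := csSup_le hn fun t ht => ht.1.2
  obtain ⟨δ, hδ, H⟩ := h _ ⟨h1, h2⟩
  obtain ⟨t, ht, h3⟩ := exists_lt_of_lt_csSup hn (sub_lt_self _ hδ)
  have h4 := le_csSup hb ht
  have h6 := fun t' (ht' : t' ∈ {t ∈ Icc (0 : ℝ) 1 | P t}) => le_csSup hb ht'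
  generalize sSup {t ∈ Icc (0 : ℝ) 1 | P t} = c at *
  by_cases hc : 1 ≤ c + δ / 2
  · exact H t 1 ht.1.1 ht.1.2 le_rfl (abs_lt.2 ⟨by linarith, by linarith⟩)
      (abs_lt.2 ⟨by linarith, by linarith⟩) ht.2
  · have := h6 (c + δ / 2) ⟨⟨by linarith, by linarith⟩, H t _ ht.1.1 (by linarith) (by linarith)
      (abs_lt.2 ⟨by linarith, by linarith⟩) (abs_lt.2 ⟨by linarith, by linarith⟩) ht.2⟩
    linarith

variable {X : Type} [TopologicalSpace X] {S : TSurf X}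

/-- The statement at time `t` in the chart `φ`. -/
def Q (S : TSurf X) (x : X) (v : ℂ) (t : ℝ) (z : X) (φ : OpenPartialHomeomorph X ℂ) : Prop :=
  ∀ᶠ u in 𝓝 v, ∃ z', S.RegX x (t • u) z' ∧ z' ∈ φ.source ∧ φ z' - φ z = t • (u - v)

theorem Q.chg {x z : X} {v : ℂ} {t : ℝ} {φ ψ : OpenPartialHomeomorph X ℂ} (h : Q S x v t z φ)
    (hφ : φ ∈ S.atlas) (hψ : ψ ∈ S.atlas) (h1 : z ∈ φ.source) (h2 : z ∈ ψ.source) :
    Q S x v t z ψ := by
  have h3 : Tendsto (fun u : ℂ => φ z + t • (u - v)) (𝓝 v) (𝓝 (φ z)) :=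
    Continuous.tendsto' (by fun_prop) _ _ (by simp)
  have h4 : Tendsto (fun u : ℂ => φ.symm (φ z + t • (u - v))) (𝓝 v) (𝓝 z) :=
    (φ.tendsto_symm h1).comp h3
  filter_upwards [h, h4.eventually (S.trans φ hφ ψ hψ z h1 h2),
    h4.eventually (ψ.open_source.mem_nhds h2)] with u ⟨z', h5, h6, h7⟩ h8 h9
  rw [← h7, add_sub_cancel, φ.left_inv h6] at h8 h9
  exact ⟨z', h5, h9, h8.trans h7⟩

theorem step (a2 : A2 S) {x : X} {v : ℂ} {γ : ℝ → X} {c : ℝ} (hc : S.Lin γ v c) :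
    ∃ δ > 0, ∀ t t' : ℝ, 0 ≤ t → t ≤ t' → t' ≤ 1 → |t - c| < δ → |t' - c| < δ →
      (∀ φ ∈ S.atlas, γ t ∈ φ.source → Q S x v t (γ t) φ) →
      ∀ φ ∈ S.atlas, γ t' ∈ φ.source → Q S x v t' (γ t') φ := by
  obtain ⟨h1, φ, hφ, h2, h3⟩ := hc
  have h4 : Tendsto (fun p : ℝ × ℂ => φ (γ c) + (p.1 - c) • v + p.1 • (p.2 - v)) (𝓝 (c, v))
      (𝓝 (φ (γ c))) := Continuous.tendsto' (by fun_prop) _ _ (by simp)
  have h5 := h4.eventually (φ.open_target.mem_nhds (φ.map_source h2))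
  rw [nhds_prod_eq] at h5
  obtain ⟨pa, ha, pb, hb, h6⟩ := eventually_prod_iff.1 h5
  obtain ⟨δ, hδ, H⟩ := Metric.eventually_nhds_iff.1
    (ha.and (h3.and (h1.eventually (φ.open_source.mem_nhds h2))))
  simp only [Real.dist_eq] at H
  refine ⟨δ, hδ, fun t t' t0 tt t1 ht ht' hq ψ hψ hz => ?_⟩
  rcases tt.eq_or_lt with rfl | tt'
  · exact hq ψ hψ hz
  refine Q.chg ?_ hφ hψ (H ht').2.2 hz
  have tp : 0 < t' := t0.trans_lt tt'
  filter_upwards [hq φ hφ (H ht).2.2, hb] with u ⟨z', h7, h8, h9⟩ hu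
  have e : ∀ s : ℝ, φ z' + s • (t' - t) • u =
      φ (γ c) + (t + s * (t' - t) - c) • v + (t + s * (t' - t)) • (u - v) := fun s => by
    rw [eq_add_of_sub_eq h9, eq_add_of_sub_eq (H ht).2.1]
    module
  have hin : ∀ s ∈ Icc (0 : ℝ) 1, φ z' + s • (t' - t) • u ∈ φ.target := fun s hs => by
    rw [e]
    refine h6 (H (abs_lt.2 ⟨?_, ?_⟩)).1 hu
    · nlinarith [abs_lt.1 ht, hs.1]
    · nlinarith [abs_lt.1 ht', hs.2]
  have h10 := hin 1 (by simp)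
  rw [one_smul] at h10
  refine ⟨φ.symm (φ z' + (t' - t) • u), a2.glue x _ z' _ (t / t')
    ⟨div_nonneg t0 tp.le, (div_le_one tp).2 tt⟩ ?_ ?_, φ.map_target h10, ?_⟩
  · rwa [smul_smul, div_mul_cancel₀ _ tp.ne']
  · rw [smul_smul, sub_mul, div_mul_cancel₀ _ tp.ne', one_mul]
    exact a2.inch φ hφ z' h8 _ hin
  · rw [φ.right_inv h10, eq_add_of_sub_eq h9, eq_add_of_sub_eq (H ht).2.1,
      eq_add_of_sub_eq (H ht').2.1]
    module

end A5X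

theorem a5 (_h1 : RA1) (h2 : RA2) : RA5 := fun X _ _ S x v z hz φ hφ hs => by
  have a2 := h2 X S
  have hx := (a2.reg_nsig x v z hz).1
  obtain ⟨γ, rfl, rfl, hγ⟩ := hz
  have := A5X.ind (P := fun t => ∀ φ ∈ S.atlas, γ t ∈ φ.source → A5X.Q S (γ 0) v t (γ t) φ)
    (fun ψ _ h => Eventually.of_forall fun u => ⟨γ 0, by simpa using a2.zero _ hx, h, by simp⟩)
    (fun c hc => A5X.step a2 (hγ c hc)) φ hφ hs
  simpa only [A5X.Q, one_smul] using this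

end Pool.Agent.MP_16ecd2_an.H18
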