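import Pool.Agent.MP_16ecd2_an.H18.Kit

/-!
Consistency of the exponential map on convex sets, and transport of visible singular points.
-/

set_option autoImplicit false

namespace Pool.Agent.MP_16ecd2_an.H18

open MeasureTheory Set Filter Topology Metric
open scoped ENNReal

namespace A6X

variable {X : Type} [TopologicalSpace X] {S : TSurf X}

theorem cons (h1 : A1 S) (h2 : A2 S) (h4 : A4 S) (h5 : A5 S) (x : X) (C : Set ℂ) (hx : x ∉ S.Sig)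
    (hC : Convex ℝ C) (h0 : 0 ∈ C) (hv : ∀ u ∈ C, ∀ σ, ¬ S.Vis x u σ) (u : ℂ) (hu : u ∈ C) (w : ℂ)
    (hw : u + w ∈ C) : S.RegX x u (S.exX x u) ∧ S.RegX (S.exX x u) w (S.exX x (u + w)) := by
  have reg : ∀ v ∈ C, S.RegX x v (S.exX x v) := fun v hv' => by
    rcases h4 x v hx with ⟨z, hz⟩ | ⟨t, ht, σ, hσ⟩
    · rwa [h2.exq x v z hz]
    · exact absurd hσ (hv _ (hC.smul_mem_of_zero_mem h0 hv' ⟨ht.1.le, ht.2⟩) σ)
  refine ⟨reg u hu, fun s => S.exX x (u + s • w), by simp, by simp, fun t ht => ?_⟩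
  have r := reg _ (hC.add_smul_mem hu hw ht)
  obtain ⟨φ, hφ, hz⟩ := S.cover _ (h2.reg_nsig _ _ _ r).2
  refine h1.congr _ _ _ _ (h1.chart φ hφ (φ (S.exX x (u + t • w)) - t • w) w t
    (by rw [sub_add_cancel]; exact φ.map_source hz)) ?_
  have c : ContinuousAt (fun s : ℝ => u + s • w) t := by fun_prop
  filter_upwards [c.eventually (h5 x _ _ r φ hφ hz)] with s ⟨z', a1, a2, a3⟩
  rw [h2.exq _ _ _ a1, ← φ.left_inv a2]
  congr 1
  linear_combination a3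

end A6X

theorem a6 (h1 : RA1) (h2 : RA2) (h3 : RA3) (h4 : RA4) (h5 : RA5) : RA6 := by
  intro X _ _ _ S
  have b2 := h2 X S
  have b3 := h3 X S
  have co := A6X.cons (h1 X S) b2 (h4 X S) (h5 X S)
  refine ⟨co, fun x u a σ hv hf => ?_⟩
  let C : Set ℂ := {c | ∃ α β : ℝ, 0 ≤ α ∧ 0 ≤ β ∧ α + β ≤ 1 ∧ β < 1 ∧ c = α • u + β • a}
  have c1 : Convex ℝ C := by
    rintro _ ⟨α, β, a1, a2, a3, a4, rfl⟩ _ ⟨α', β', a1', a2', a3', a4', rfl⟩ p q hp hq hpq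
    refine ⟨p * α + q * α', p * β + q * β', by positivity, by positivity, by nlinarith, ?_, by module⟩
    exact (convex_Iio (1 : ℝ)) a4 a4' hp hq hpq
  have co' := co x C (b2.vis_nsig _ _ _ hv).1 c1 ⟨0, 0, le_rfl, le_rfl, by norm_num, one_pos, by simp⟩
    (by
      rintro _ ⟨α, β, a1, a2, a3, a4, rfl⟩
      exact hf α β a1 a2 a3 a4)
  obtain ⟨χ, r, hc⟩ := b3.ex σ hv.1
  have r0 : 0 < r ^ S.ord σ := pow_pos hc.pos _
  obtain ⟨η, η0, η1, η2⟩ : ∃ η : ℝ, 0 < η ∧ η ≤ 1 ∧ η * (‖a‖ + ‖u‖) < r ^ S.ord σ := by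
    have p : 0 < ‖a‖ + ‖u‖ + 1 := by positivity
    refine ⟨min 1 (r ^ S.ord σ / (‖a‖ + ‖u‖ + 1)), lt_min one_pos (div_pos r0 p), min_le_left _ _,
      lt_of_le_of_lt (mul_le_mul_of_nonneg_right (min_le_right _ _) (by positivity)) ?_⟩
    rw [div_mul_eq_mul_div, div_lt_iff₀ p]
    nlinarith
  have ht : 1 - η ∈ Ico (0 : ℝ) 1 := ⟨by linarith, by linarith⟩
  have n1 : ‖η • a‖ = η * ‖a‖ := by rw [norm_smul, Real.norm_of_nonneg η0.le]
  have n2 : ‖η • u‖ = η * ‖u‖ := by rw [norm_smul, Real.norm_of_nonneg η0.le]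
  obtain ⟨y, y1, y2⟩ := b2.vsplit x a σ hv _ ht
  rw [sub_sub_cancel] at y2
  obtain ⟨y3, -, y4⟩ := b3.near σ χ r hc y _ y2 (by
    have := mul_nonneg η0.le (norm_nonneg u)
    rw [n1]
    linarith)
  have m : (1 - η) • a + η • u ∈ C := ⟨η, 1 - η, η0.le, ht.1, by linarith, ht.2, add_comm _ _⟩
  have g := (co' ((1 - η) • a) ⟨0, 1 - η, le_rfl, ht.1, by linarith, ht.2, by simp⟩ (η • u) m).2
  rw [b2.exq _ _ _ y1] at g
  have ns := (b2.reg_nsig _ _ _ g).2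
  obtain ⟨γ, g0, g1, g2⟩ := g
  obtain ⟨s1, s2, s3⟩ := b3.stay σ χ r hc γ _ 0 1 zero_le_one g2 (by rwa [g0]) (by
    rw [g0, ← norm_pow, y4, norm_neg, n1, n2]
    linarith)
  rw [g1] at s1 s2 s3
  have pr := b3.prong σ χ r hc _ s1 s2.le fun e => ns (e ▸ hv.1)
  have e1 : -(χ (S.exX x ((1 - η) • a + η • u)) ^ S.ord σ) = (1 - (1 - η)) • (a - u) := by
    rw [s3, g0, y4]
    module
  have e2 : u + (1 - η) • (a - u) = (1 - η) • a + η • u := by module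
  have g' := (co' u ⟨1, 0, zero_le_one, le_rfl, by norm_num, one_pos, by simp⟩ ((1 - η) • (a - u))
    (e2 ▸ m)).2
  rw [e2] at g'
  rw [e1] at pr
  exact b2.vglue _ _ _ _ _ ht g' pr

end Pool.Agent.MP_16ecd2_an.H18
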