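import Pool.Agent.MP_16ecd2_an.H18.Kit

/-!
Short segments to singular points.
-/

set_option autoImplicit false

namespace Pool.Agent.MP_16ecd2_an.H18

open MeasureTheory Set Filter Topology Metric

namespace A7X

theorem lower {ι : Type} (t : Finset ι) (r : ι → ℝ) (h : ∀ i ∈ t, 0 < r i) :
    ∃ δ > 0, ∀ i ∈ t, δ ≤ r i := by
  rcases t.eq_empty_or_nonempty with rfl | ht
  · exact ⟨1, one_pos, by simp⟩
  · obtain ⟨i, hi, h1⟩ := t.exists_min_image r ht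
    exact ⟨r i, h i hi, h1⟩

theorem roots {n : ℕ} (hn : 0 < n) {a : ℂ} (ha : a ≠ 0) :
    {w : ℂ | w ^ n = a}.Finite ∧ {w : ℂ | w ^ n = a}.ncard = n := by
  classical
  have hζ := Complex.isPrimitiveRoot_exp n hn.ne'
  have e : {w : ℂ | w ^ n = a} = (Polynomial.nthRoots n a).toFinset := by
    ext w
    simp [Polynomial.mem_nthRoots hn]
  rw [e, ncard_coe_finset, Multiset.toFinset_card_of_nodup (hζ.nthRoots_nodup ha),
    hζ.card_nthRoots, if_pos (IsAlgClosed.exists_pow_nat_eq a hn)]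
  exact ⟨Finset.finite_toSet _, rfl⟩

variable {X : Type} [TopologicalSpace X] {S : TSurf X}

theorem loc (h2 : A2 S) (h3 : A3 S) (z : X) : ∃ U ∈ 𝓝 z, ∃ r > 0, ∀ x ∈ U, ∀ v v' σ σ',
    S.Vis x v σ → S.Vis x v' σ' → ‖v‖ < r → ‖v'‖ < r → v = v' := by
  by_cases hz : z ∈ S.Sig
  · obtain ⟨χ, r, H⟩ := h3.ex z hz
    have hr : 0 < r ^ S.ord z / 2 := by have := H.pos; positivity
    have hc : ContinuousAt (fun x => ‖χ x‖ ^ S.ord z) z := (χ.continuousAt H.mem).norm.pow _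
    have h0 : ‖χ z‖ ^ S.ord z < r ^ S.ord z / 2 := by
      rwa [H.zero, norm_zero, zero_pow H.ord.ne']
    refine ⟨_, inter_mem (χ.open_source.mem_nhds H.mem) (hc.eventually_lt_const h0), _, hr, ?_⟩
    rintro x ⟨hx, hx'⟩ v v' σ σ' hv hv' n1 n2
    have hx'' : ‖χ x‖ ^ S.ord z < r ^ S.ord z / 2 := hx'
    obtain rfl := h3.into z χ r H x hx v σ hv (by linarith)
    obtain rfl := h3.into _ χ r H x hx v' σ' hv' (by linarith)
    have e1 := (h3.near _ χ r H x v hv (by linarith)).2.2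
    have e2 := (h3.near _ χ r H x v' hv' (by linarith)).2.2
    exact neg_injective (e1.symm.trans e2)
  · obtain ⟨φ, hφ, hs⟩ := S.cover z hz
    obtain ⟨ε, hε, hb⟩ := Metric.isOpen_iff.1 φ.open_target _ (φ.map_source hs)
    refine ⟨_, inter_mem (φ.open_source.mem_nhds hs)
      ((φ.continuousAt hs).preimage_mem_nhds (ball_mem_nhds _ (half_pos hε))), _, half_pos hε, ?_⟩
    rintro x ⟨hx, hx'⟩ v v' σ σ' hv _ n1 _
    refine absurd (h2.inch φ hφ x hx v fun t ht => hb ?_) (h2.vis_reg x v σ _ hv)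
    have h4 : ‖φ x - φ z‖ < ε / 2 := mem_ball_iff_norm.1 hx'
    have h5 : ‖t • v‖ ≤ ‖v‖ := by
      rw [norm_smul, Real.norm_of_nonneg ht.1]
      exact mul_le_of_le_one_left (norm_nonneg _) ht.2
    rw [mem_ball_iff_norm, add_sub_right_comm]
    linarith [norm_add_le (φ x - φ z) (t • v)]

theorem card (h3 : A3 S) {σ : X} (hσ : σ ∈ S.Sig) : ∃ δ > 0, ∀ v : ℂ, v ≠ 0 → ‖v‖ ≤ δ →
    {y | S.Vis y v σ}.Finite ∧ {y | S.Vis y v σ}.ncard = S.ord σ := by
  obtain ⟨χ, r, H⟩ := h3.ex σ hσ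
  have hr : 0 < r ^ S.ord σ / 2 := by have := H.pos; positivity
  refine ⟨_, hr, fun v h0 hv => ?_⟩
  have h4 : ∀ w : ℂ, w ^ S.ord σ = -v → ‖w‖ ≤ r := fun w hw => by
    refine (lt_of_pow_lt_pow_left₀ (S.ord σ) H.pos.le ?_).le
    rw [← norm_pow, hw, norm_neg]
    linarith
  have h5 : {w : ℂ | w ^ S.ord σ = -v} ⊆ χ.target := fun w hw =>
    H.ball (mem_closedBall_zero_iff.2 (h4 w hw))
  have e : {y | S.Vis y v σ} = χ.symm '' {w : ℂ | w ^ S.ord σ = -v} := by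
    ext y
    constructor
    · intro hy
      obtain ⟨a, -, c⟩ := h3.near σ χ r H y v hy (by linarith)
      exact ⟨χ y, c, χ.left_inv a⟩
    · rintro ⟨w, hw, rfl⟩
      have e1 : χ (χ.symm w) = w := χ.right_inv (h5 hw)
      have hw' : w ^ S.ord σ = -v := hw
      have := h3.prong σ χ r H _ (χ.map_target (h5 hw)) (by rw [e1]; exact h4 w hw) fun e2 => by
        rw [e2, H.zero] at e1
        rw [← e1, zero_pow H.ord.ne'] at hw'
        exact h0 (neg_eq_zero.1 hw'.symm)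
      rwa [e1, hw', neg_neg] at this
  obtain ⟨f1, f2⟩ := roots H.ord (neg_ne_zero.2 h0)
  rw [e, InjOn.ncard_image (χ.symm.injOn.mono h5)]
  exact ⟨f1.image _, f2⟩

end A7X

theorem a7 (_h1 : RA1) (h2 : RA2) (h3 : RA3) : RA7 := by
  intro X _ _ _ S
  constructor
  · choose U hU r hr h using A7X.loc (h2 X S) (h3 X S)
    obtain ⟨t, ht⟩ := CompactSpace.elim_nhds_subcover U hU
    obtain ⟨δ, hδ, hd⟩ := A7X.lower t r fun i _ => hr i
    refine ⟨δ, hδ, fun x v v' σ σ' hv hv' n1 n2 => ?_⟩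
    obtain ⟨z, hz, hx⟩ := mem_iUnion₂.1 (show x ∈ ⋃ z ∈ t, U z from ht ▸ mem_univ x)
    exact h z x hx v v' σ σ' hv hv' (n1.trans_le (hd z hz)) (n2.trans_le (hd z hz))
  · choose! r hr h using fun σ (hσ : σ ∈ S.Sig) => A7X.card (h3 X S) hσ
    obtain ⟨δ, hδ, hd⟩ := A7X.lower S.Sig r hr
    exact ⟨δ, hδ, fun v h0 hv σ hσ => h σ hσ v h0 (hv.trans (hd σ hσ))⟩

end Pool.Agent.MP_16ecd2_an.H18
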