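import Pool.Agent.MP_16ecd2_an.H18.Kit

/-!
Row A8: the regular part is connected by segments, and singular points are visible at a bounded
distance.
-/

set_option autoImplicit false

namespace Pool.Agent.MP_16ecd2_an.H18

open MeasureTheory Set Filter Topology Metric

namespace A8X

variable {X : Type} [TopologicalSpace X]

/-- Joined by a chain of segments. -/
abbrev E (S : TSurf X) : X → X → Prop := Relation.ReflTransGen fun a b => ∃ u, S.RegX a u b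

theorem E_symm {S : TSurf X} (a2 : A2 S) {x y : X} (h : E S x y) : E S y x := by
  induction h with
  | refl => exact Relation.ReflTransGen.refl
  | tail _ hb ih =>
    obtain ⟨u, hu⟩ := hb
    exact Relation.ReflTransGen.head ⟨-u, a2.back _ _ _ hu⟩ ih

theorem loc {S : TSurf X} (a2 : A2 S) {x : X} (hx : x ∉ S.Sig) :
    ∀ᶠ y in 𝓝 x, ∃ u : ℂ, ‖u‖ < 1 ∧ S.RegX x u y := by
  obtain ⟨φ, hφ, hs⟩ := S.cover x hx
  obtain ⟨r, hr, hb⟩ := Metric.isOpen_iff.1 φ.open_target _ (φ.map_source hs)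
  have h1 : ∀ᶠ y in 𝓝 x, y ∈ φ.source := φ.open_source.mem_nhds hs
  have h2 : ∀ᶠ y in 𝓝 x, φ y ∈ ball (φ x) (min r 1) :=
    (φ.continuousAt hs).eventually (ball_mem_nhds _ (lt_min hr one_pos))
  filter_upwards [h1, h2] with y hy hy2
  rw [mem_ball, dist_eq_norm, lt_min_iff] at hy2
  refine ⟨φ y - φ x, hy2.2, ?_⟩
  have := a2.inch φ hφ x hs (φ y - φ x) fun t ht => hb (by
    rw [mem_ball, dist_eq_norm, add_sub_cancel_left, norm_smul, Real.norm_eq_abs,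
      abs_of_nonneg ht.1]
    nlinarith [ht.1, ht.2, norm_nonneg (φ y - φ x), hy2.1])
  rwa [add_sub_cancel, φ.left_inv hy] at this

theorem punct {r : ℝ} : IsPreconnected (ball (0 : ℂ) r \ {0}) := by
  have h : IsPreconnected (Ioo (0 : ℝ) r ×ˢ (univ : Set ℝ)) :=
    isPreconnected_Ioo.prod isPreconnected_univ
  have hc : Continuous fun p : ℝ × ℝ => (p.1 : ℂ) * Complex.exp (p.2 * Complex.I) := by fun_prop
  convert h.image _ hc.continuousOn using 1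
  ext w
  constructor
  · rintro ⟨h1, h2⟩
    rw [mem_ball_zero_iff] at h1
    exact ⟨(‖w‖, w.arg), ⟨⟨norm_pos_iff.2 h2, h1⟩, mem_univ _⟩, Complex.norm_mul_exp_arg_mul_I w⟩
  · rintro ⟨p, ⟨⟨h1, h2⟩, -⟩, rfl⟩
    have e : ‖(p.1 : ℂ) * Complex.exp (p.2 * Complex.I)‖ = p.1 := by
      rw [norm_mul, Complex.norm_exp_ofReal_mul_I, mul_one, Complex.norm_real, Real.norm_eq_abs,
        abs_of_pos h1]
    refine ⟨by rw [mem_ball_zero_iff, e]; exact h2, fun h0 => ?_⟩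
    rw [mem_singleton_iff] at h0
    simp only at h0
    rw [h0, norm_zero] at e
    exact h1.ne e

theorem cone_reg {S : TSurf X} {σ : X} {χ : OpenPartialHomeomorph X ℂ} {r : ℝ}
    (h : ConeAt S σ χ r) {w : ℂ} (hw : ‖w‖ ≤ r) (h0 : w ≠ 0) : χ.symm w ∉ S.Sig := by
  have ht : w ∈ χ.target := h.ball (mem_closedBall_zero_iff.2 hw)
  intro hs
  have := h.only _ (χ.map_target ht) (by rwa [χ.right_inv ht]) hs
  apply h0
  rw [← χ.right_inv ht, this, h.zero]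

theorem cone_nhds {S : TSurf X} {σ : X} {χ : OpenPartialHomeomorph X ℂ} {r : ℝ}
    (h : ConeAt S σ χ r) : ∀ᶠ y in 𝓝 σ, y ∈ χ.source ∧ ‖χ y‖ < r := by
  have h1 : ∀ᶠ y in 𝓝 σ, y ∈ χ.source := χ.open_source.mem_nhds h.mem
  have h2 : ∀ᶠ y in 𝓝 σ, χ y ∈ ball (χ σ) r :=
    (χ.continuousAt h.mem).eventually (ball_mem_nhds _ h.pos)
  filter_upwards [h1, h2] with y hy hy2
  rw [h.zero, mem_ball_zero_iff] at hy2
  exact ⟨hy, hy2⟩

/-- Regular points are dense. -/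
theorem dense {S : TSurf X} (a3 : A3 S) (x : X) : ∃ᶠ y in 𝓝 x, y ∉ S.Sig := by
  by_cases hx : x ∈ S.Sig
  · obtain ⟨χ, r, h⟩ := a3.ex x hx
    have h0 : (0 : ℂ) ∈ χ.target := h.ball (mem_closedBall_self h.pos.le)
    have hc : Tendsto χ.symm (𝓝 0) (𝓝 x) := by
      have := χ.continuousAt_symm h0
      rwa [ContinuousAt, ← h.zero, χ.left_inv h.mem, h.zero] at this
    refine hc.frequently ?_
    have h1 : ∀ᶠ w in 𝓝 (0 : ℂ), w ∈ closedBall (0 : ℂ) r := closedBall_mem_nhds _ h.pos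
    have h2 : ∃ᶠ w in 𝓝 (0 : ℂ), w ≠ 0 := by
      have : ∃ᶠ w in 𝓝[≠] (0 : ℂ), w ≠ 0 :=
        Eventually.frequently (p := fun w : ℂ => w ≠ 0) self_mem_nhdsWithin
      exact this.filter_mono nhdsWithin_le_nhds
    exact (h2.and_eventually h1).mono fun w hw =>
      cone_reg h (mem_closedBall_zero_iff.1 hw.2) hw.1
  · exact (Frequently.of_forall (p := fun _ => True) (f := pure x) fun _ => trivial).mp
      (by simpa using hx) |>.filter_mono (pure_le_nhds x)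

/-- Every point has a neighbourhood whose regular points are joined by chains. -/
theorem nbhd {S : TSurf X} (a2 : A2 S) (a3 : A3 S) (x : X) :
    ∃ N ∈ 𝓝 x, ∀ y ∈ N, ∀ y' ∈ N, y ∉ S.Sig → y' ∉ S.Sig → E S y y' := by
  by_cases hx : x ∈ S.Sig
  · obtain ⟨χ, r, h⟩ := a3.ex x hx
    refine ⟨_, cone_nhds h, fun y hy y' hy' hs hs' => ?_⟩
    have hsub : ball (0 : ℂ) r \ {0} ⊆ χ.target := fun w hw => h.ball (ball_subset_closedBall hw.1)
    have hp : IsPreconnected (χ.symm '' (ball (0 : ℂ) r \ {0})) :=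
      punct.image _ (χ.continuousOn_symm.mono hsub)
    have hm : ∀ z, z ∈ χ.source ∧ ‖χ z‖ < r → z ∉ S.Sig → z ∈ χ.symm '' (ball (0 : ℂ) r \ {0}) := by
      intro z hz hzs
      refine ⟨χ z, ⟨mem_ball_zero_iff.2 hz.2, fun h0 => hzs ?_⟩, χ.left_inv hz.1⟩
      rw [mem_singleton_iff, ← h.zero] at h0
      rw [χ.injOn hz.1 h.mem h0]
      exact hx
    refine hp.induction₂' (E S) ?_ (fun _ _ _ _ _ _ h1 h2 => h1.trans h2) (hm y hy hs) (hm y' hy' hs')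
    rintro _ ⟨w, hw, rfl⟩
    have hr := cone_reg h (mem_ball_zero_iff.1 hw.1).le hw.2
    refine ((loc a2 hr).filter_mono nhdsWithin_le_nhds).mono ?_
    rintro z ⟨u, -, hu⟩
    have : E S (χ.symm w) z := Relation.ReflTransGen.single ⟨u, hu⟩
    exact ⟨this, E_symm a2 this⟩
  · refine ⟨_, loc a2 hx, ?_⟩
    rintro y ⟨u, -, hu⟩ y' ⟨u', -, hu'⟩ - -
    exact Relation.ReflTransGen.head ⟨-u, a2.back _ _ _ hu⟩ (Relation.ReflTransGen.single ⟨u', hu'⟩)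

theorem conn [ConnectedSpace X] {S : TSurf X} (a2 : A2 S) (a3 : A3 S) (x a : X) (hx : x ∉ S.Sig)
    (ha : a ∉ S.Sig) : E S x a := by
  have hcl : IsClopen {z | ∀ᶠ y in 𝓝 z, y ∉ S.Sig → E S y a} := by
    refine ⟨isClosed_of_closure_subset fun z hz => ?_, isOpen_setOfPred_eventually_nhds⟩
    obtain ⟨N, hN, h⟩ := nbhd a2 a3 z
    obtain ⟨z', h1, h2⟩ := mem_closure_iff_nhds.1 hz _ (interior_mem_nhds.2 hN)
    have h3 : ∀ᶠ y in 𝓝 z', y ∈ N := mem_interior_iff_mem_nhds.1 h1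
    obtain ⟨y, hy, hy1, hy2⟩ := ((dense a3 z').and_eventually (h3.and h2)).exists
    exact mem_of_superset hN fun y' hy' hs => (h y' hy' y hy1 hs hy).trans (hy2 hy)
  have hne : a ∈ {z | ∀ᶠ y in 𝓝 z, y ∉ S.Sig → E S y a} :=
    (loc a2 ha).mono fun y ⟨u, _, hu⟩ _ => Relation.ReflTransGen.single ⟨-u, a2.back _ _ _ hu⟩
  have : x ∈ {z | ∀ᶠ y in 𝓝 z, y ∉ S.Sig → E S y a} := by
    rw [hcl.eq_univ ⟨a, hne⟩]; trivial
  exact Eventually.self_of_nhds this hx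

theorem step {S : TSurf X} (a2 : A2 S) (a6 : A6 S) {x y σ : X} {u a : ℂ} (hu : S.RegX x u y)
    (ha : S.Vis y a σ) : ∃ b σ', S.Vis x b σ' ∧ ‖b‖ ≤ ‖u‖ + ‖a‖ := by
  by_contra hn
  push Not at hn
  have := (a6.cons x (closedBall 0 (‖u‖ + ‖a‖)) (a2.reg_nsig _ _ _ hu).1 (convex_closedBall _ _)
    (mem_closedBall_self (by positivity))
    (fun b hb σ' hv => (hn b σ' hv).not_ge (mem_closedBall_zero_iff.1 hb)) u
    (mem_closedBall_zero_iff.2 (le_add_of_nonneg_right (norm_nonneg _))) a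
    (mem_closedBall_zero_iff.2 (norm_add_le _ _))).2
  rw [a2.exq _ _ _ hu] at this
  exact a2.vis_reg _ _ _ _ ha this

theorem one {S : TSurf X} (a3 : A3 S) : ∃ y, y ∉ S.Sig ∧ ∃ a σ, S.Vis y a σ := by
  obtain ⟨σ, hσ⟩ := S.ne
  obtain ⟨χ, r, h⟩ := a3.ex σ hσ
  obtain ⟨y, hy, h1, h2⟩ := ((dense a3 σ).and_eventually (cone_nhds h)).exists
  exact ⟨y, hy, _, σ, a3.prong σ χ r h y h1 h2.le fun e => hy (e ▸ hσ)⟩

theorem sees [ConnectedSpace X] {S : TSurf X} (a2 : A2 S) (a3 : A3 S) (a6 : A6 S) (x : X)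
    (hx : x ∉ S.Sig) : ∃ a σ, S.Vis x a σ := by
  obtain ⟨y, hy, h⟩ := one a3
  have := conn a2 a3 x y hx hy
  clear hx
  induction this using Relation.ReflTransGen.head_induction_on with
  | refl => exact h
  | head h1 _ ih =>
    obtain ⟨u, hu⟩ := h1
    obtain ⟨a, σ, ha⟩ := ih
    obtain ⟨b, σ', hb, -⟩ := step a2 a6 hu ha
    exact ⟨b, σ', hb⟩

theorem bound [ConnectedSpace X] {S : TSurf X} (a2 : A2 S) (a3 : A3 S) (a6 : A6 S) (x : X) :
    ∃ R : ℝ, ∀ᶠ y in 𝓝 x, y ∉ S.Sig → ∃ a σ, S.Vis y a σ ∧ ‖a‖ ≤ R := by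
  by_cases hx : x ∈ S.Sig
  · obtain ⟨χ, r, h⟩ := a3.ex x hx
    refine ⟨r ^ S.ord x, (cone_nhds h).mono fun y hy hs =>
      ⟨_, x, a3.prong x χ r h y hy.1 hy.2.le fun e => hs (e ▸ hx), ?_⟩⟩
    rw [norm_neg, norm_pow]
    exact pow_le_pow_left₀ (norm_nonneg _) hy.2.le _
  · obtain ⟨a, σ, ha⟩ := sees a2 a3 a6 x hx
    refine ⟨1 + ‖a‖, (loc a2 hx).mono ?_⟩
    rintro y ⟨u, h1, hu⟩ -
    obtain ⟨b, σ', hb, h2⟩ := step a2 a6 (a2.back _ _ _ hu) ha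
    rw [norm_neg] at h2
    exact ⟨b, σ', hb, by linarith⟩

end A8X

theorem a8 (h1 : RA1) (h2 : RA2) (h3 : RA3) (h6 : RA6) : RA8 := by
  intro X _ _ _ _ S
  have _ := h1
  have a2 := h2 X S
  have a3 := h3 X S
  have a6 := h6 X S
  refine ⟨fun x y hx hy => A8X.conn a2 a3 x y hx hy, ?_, ?_⟩
  · have := isCompact_univ.induction_on
      (p := fun s : Set X => ∃ R : ℝ, ∀ x ∈ s, x ∉ S.Sig → ∃ a σ, S.Vis x a σ ∧ ‖a‖ ≤ R)
      ⟨0, fun _ h => h.elim⟩ (fun _ _ hst ⟨R, h⟩ => ⟨R, fun x hx => h x (hst hx)⟩)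
      (by
        rintro s t ⟨R, hR⟩ ⟨R', hR'⟩
        refine ⟨max R R', ?_⟩
        rintro x (hx | hx) hs
        · obtain ⟨a, σ, h, h'⟩ := hR x hx hs
          exact ⟨a, σ, h, h'.trans (le_max_left _ _)⟩
        · obtain ⟨a, σ, h, h'⟩ := hR' x hx hs
          exact ⟨a, σ, h, h'.trans (le_max_right _ _)⟩)
      (fun x _ => by
        obtain ⟨R, hR⟩ := A8X.bound a2 a3 a6 x
        exact ⟨_, mem_nhdsWithin_of_mem_nhds hR, R, fun _ h => h⟩)
    obtain ⟨R, hR⟩ := this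
    exact ⟨R, fun x hx => hR x (mem_univ _) hx⟩
  · obtain ⟨y, hy, -⟩ := A8X.one a3
    exact ⟨y, hy⟩

end Pool.Agent.MP_16ecd2_an.H18
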