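import Pool.Agent.MP_16ecd2_an.H18.Kit

/-!
The area formula for developing maps.
-/

set_option autoImplicit false

namespace Pool.Agent.MP_16ecd2_an.H18

open MeasureTheory Set Filter Topology Metric Function
open scoped ENNReal

namespace AFX

variable {Y : Type} [MeasurableSpace Y] {μ : Measure Y} {D : Set ℂ} {Φ : ℂ → Y}

/-- On `D` the map `Φ` is a measure preserving embedding. -/
structure Pc (μ : Measure Y) (D : Set ℂ) (Φ : ℂ → Y) : Prop where
  meas : MeasurableSet D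
  inj : InjOn Φ D
  pre : ∀ A, MeasurableSet A → MeasurableSet (D ∩ Φ ⁻¹' A)
  img : ∀ B ⊆ D, MeasurableSet B → MeasurableSet (Φ '' B) ∧ μ (Φ '' B) = volume B

theorem Pc.mono (h : Pc μ D Φ) {E : Set ℂ} (hE : E ⊆ D) (hm : MeasurableSet E) : Pc μ E Φ where
  meas := hm
  inj := h.inj.mono hE
  pre A hA := by
    have := hm.inter (h.pre A hA)
    rwa [← inter_assoc, inter_eq_left.2 hE] at this
  img B hB := h.img B (hB.trans hE)

theorem pc_empty : Pc μ ∅ Φ where
  meas := MeasurableSet.empty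
  inj := injOn_empty _
  pre A _ := by simp
  img B hB _ := by simp [subset_empty_iff.1 hB]

theorem loc (T : TS Y) (h : T.Dev D Φ) (hD : MeasurableSet D) {v : ℂ} (hv : v ∈ D) :
    ∃ r > 0, Pc T.μ (D ∩ ball v r) Φ := by
  obtain ⟨r₁, h1, -, h2⟩ := h v hv
  obtain ⟨r₂, h3, h4, h5, h6⟩ := T.loc (Φ v)
  have e : ∀ w ∈ D ∩ ball v (min r₁ r₂), Φ w = T.ex (Φ v) (w - v) ∧ w - v ∈ ball (0 : ℂ) r₂ :=
    fun w hw => by
      have h7 : ‖w - v‖ < min r₁ r₂ := mem_ball_iff_norm.1 hw.2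
      have h8 := h2 (w - v) (h7.trans_le (min_le_left _ _)) (by simpa using hw.1)
      rw [add_sub_cancel] at h8
      exact ⟨h8, mem_ball_zero_iff.2 (h7.trans_le (min_le_right _ _))⟩
  have hm : MeasurableSet (D ∩ ball v (min r₁ r₂)) := hD.inter measurableSet_ball
  refine ⟨min r₁ r₂, lt_min h1 h3, hm, fun w hw w' hw' e' => ?_, fun A hA => ?_, fun B hB hBm => ?_⟩
  · rw [(e w hw).1, (e w' hw').1] at e'
    exact sub_left_injective (h4 (e w hw).2 (e w' hw').2 e')
  · have : D ∩ ball v (min r₁ r₂) ∩ Φ ⁻¹' A = D ∩ ball v (min r₁ r₂) ∩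
        (fun w => w - v) ⁻¹' (ball 0 r₂ ∩ T.ex (Φ v) ⁻¹' A) := by
      ext w
      refine and_congr_right fun hw => ?_
      rw [mem_preimage, (e w hw).1]
      exact ⟨fun h7 => ⟨(e w hw).2, h7⟩, fun h7 => h7.2⟩
    rw [this]
    exact hm.inter (measurable_sub_const v (h5 A hA))
  · have : Φ '' B = T.ex (Φ v) '' ((fun w => w + v) ⁻¹' B) := by
      ext q
      constructor
      · rintro ⟨w, hw, rfl⟩
        exact ⟨w - v, by simpa using hw, (e w (hB hw)).1.symm⟩
      · rintro ⟨w, hw, rfl⟩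
        exact ⟨w + v, hw, by rw [(e _ (hB hw)).1, add_sub_cancel_right]⟩
    rw [this, ← measure_preimage_add_right volume v B]
    exact h6 _ (fun w hw => by simpa using (e _ (hB hw)).2) (measurable_add_const v hBm)

theorem dec (T : TS Y) (h : T.Dev D Φ) (hD : MeasurableSet D) : ∃ P : ℕ → Set ℂ,
    Pairwise (Disjoint on P) ∧ ⋃ n, P n = D ∧ ∀ n, Pc T.μ (P n) Φ := by
  choose! r hr hp using fun v (hv : v ∈ D) => loc T h hD hv
  obtain ⟨t, h1, h2, h3⟩ := TopologicalSpace.countable_cover_nhdsWithin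
    (f := fun v => D ∩ ball v (r v)) (s := D)
    fun v hv => inter_mem_nhdsWithin _ (ball_mem_nhds v (hr v hv))
  obtain ⟨Q, hQ⟩ := ((h2.image fun v => D ∩ ball v (r v)).insert ∅).exists_eq_range
    (insert_nonempty _ _)
  have h4 : ∀ n, Pc T.μ (Q n) Φ ∧ Q n ⊆ D := fun n => by
    have : Q n ∈ insert ∅ ((fun v => D ∩ ball v (r v)) '' t) := hQ ▸ mem_range_self n
    rcases this with e | ⟨v, hv, e⟩
    · rw [e]; exact ⟨pc_empty, empty_subset _⟩
    · rw [← e]; exact ⟨hp v (h1 hv), inter_subset_left⟩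
  refine ⟨disjointed Q, disjoint_disjointed Q, ?_, fun n => (h4 n).1.mono (disjointed_subset Q n)
    (MeasurableSet.disjointed (fun n => (h4 n).1.meas) n)⟩
  rw [iUnion_disjointed]
  refine subset_antisymm (iUnion_subset fun n => (h4 n).2) fun w hw => ?_
  obtain ⟨v, hv, hw'⟩ := mem_iUnion₂.1 (h3 hw)
  obtain ⟨n, hn⟩ : D ∩ ball v (r v) ∈ range Q := hQ ▸ Or.inr ⟨v, hv, rfl⟩
  exact mem_iUnion.2 ⟨n, hn ▸ hw'⟩

theorem meas_res (h : ∀ A, MeasurableSet A → MeasurableSet (D ∩ Φ ⁻¹' A)) :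
    Measurable fun v : D => Φ v := fun A hA => by
  have : (fun v : D => Φ v) ⁻¹' A = Subtype.val ⁻¹' (D ∩ Φ ⁻¹' A) := by
    ext v; simp
  rw [this]
  exact measurable_subtype_coe (h A hA)

theorem Pc.emb (h : Pc μ D Φ) : MeasurableEmbedding fun v : D => Φ v where
  injective v w e := Subtype.ext (h.inj v.2 w.2 e)
  measurable := meas_res h.pre
  measurableSet_image' s hs := by
    rw [← image_image Φ Subtype.val]
    exact (h.img _ (Subtype.coe_image_subset _ _)
      ((MeasurableEmbedding.subtype_coe h.meas).measurableSet_image' hs)).1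

omit [MeasurableSpace Y] in
theorem wt_in (h : InjOn Φ D) (ρ : ℂ → ℝ≥0∞) {v : ℂ} (hv : v ∈ D) : wt Φ D ρ (Φ v) = ρ v := by
  rw [wt, tsum_eq_single v fun w hw => indicator_of_notMem (fun e => hw (h e.1 hv e.2)) _]
  exact indicator_of_mem (show v ∈ D ∩ Φ ⁻¹' {Φ v} from ⟨hv, rfl⟩) ρ

omit [MeasurableSpace Y] in
theorem wt_out (ρ : ℂ → ℝ≥0∞) {q : Y} (hq : q ∉ Φ '' D) : wt Φ D ρ q = 0 :=
  ENNReal.tsum_eq_zero.2 fun w => indicator_of_notMem (fun e => hq ⟨w, e.1, e.2⟩) _

theorem Pc.wt_meas (h : Pc μ D Φ) {ρ : ℂ → ℝ≥0∞} (hρ : Measurable ρ) : Measurable (wt Φ D ρ) := by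
  have : wt Φ D ρ = extend (fun v : D => Φ v) (fun v => ρ v) fun _ => 0 := by
    ext q
    by_cases hq : q ∈ Φ '' D
    · obtain ⟨v, hv, rfl⟩ := hq
      rw [wt_in h.inj ρ hv]
      exact (h.emb.injective.extend_apply (fun v => ρ v) _ ⟨v, hv⟩).symm
    · rw [wt_out ρ hq, extend_apply' _ _ _ fun ⟨(v : D), e⟩ => hq ⟨v, v.2, e⟩]
  rw [this]
  exact h.emb.measurable_extend (hρ.comp measurable_subtype_coe) measurable_const

theorem Pc.map (h : Pc μ D Φ) :
    Measure.map (fun v : D => Φ v) (Measure.comap Subtype.val volume) = μ.restrict (Φ '' D) := by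
  ext A hA
  rw [Measure.map_apply h.emb.measurable hA, comap_subtype_coe_apply h.meas,
    Measure.restrict_apply hA, inter_comm, ← image_inter_preimage,
    (h.img _ inter_subset_left (h.pre A hA)).2]
  congr 1
  ext v
  simp [and_comm]

theorem Pc.int (h : Pc μ D Φ) (ρ : ℂ → ℝ≥0∞) (f : Y → ℝ≥0∞) :
    ∫⁻ q, f q * wt Φ D ρ q ∂μ = ∫⁻ v in D, f (Φ v) * ρ v := by
  rw [← lintegral_subtype_comap h.meas, ← setLIntegral_eq_of_support_subset (s := Φ '' D)
    (fun q hq => by_contra fun e => hq (by simp [wt_out ρ e])), ← h.map, h.emb.lintegral_map]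
  refine lintegral_congr fun v => ?_
  rw [wt_in h.inj ρ v.2]

omit [MeasurableSpace Y] in
theorem wt_iUnion {P : ℕ → Set ℂ} (hP : Pairwise (Disjoint on P)) (ρ : ℂ → ℝ≥0∞) :
    wt Φ (⋃ n, P n) ρ = fun q => ∑' n, wt Φ (P n) ρ q := by
  ext q
  simp only [wt]
  rw [ENNReal.tsum_comm, iUnion_inter, indicator_iUnion_of_pairwise_disjoint _
    (pairwise_disjoint_mono hP fun _ => inter_subset_left)]

end AFX

open AFX in
theorem af (_hb : RB) : RAF := fun Y _ T D Φ h hD => by
  obtain ⟨P, hP, rfl, hc⟩ := dec T h hD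
  have hm : ∀ n, MeasurableSet (P n) := fun n => (hc n).meas
  have hi := fun n => (hc n).img _ subset_rfl (hm n)
  refine ⟨fun ρ hρ => ?_, fun f hf => ?_, fun ρ f hρ hf => ?_, ?_, ?_, fun hj => ?_⟩
  · rw [wt_iUnion hP]
    exact Measurable.tsum fun n => (hc n).wt_meas hρ
  · refine measurable_of_restrict_of_restrict_compl hD ?_ ?_
    · have := hf.comp (meas_res (D := ⋃ n, P n) (Φ := Φ) fun A hA => by
        rw [iUnion_inter]; exact MeasurableSet.iUnion fun n => (hc n).pre A hA)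
      convert this using 1
      exact funext fun v => indicator_of_mem v.2 _
    · convert measurable_const (a := (0 : ℝ≥0∞)) using 1
      exact funext fun v => indicator_of_notMem v.2 _
  · rw [wt_iUnion hP, lintegral_iUnion hm hP]
    simp only [← ENNReal.tsum_mul_left]
    rw [lintegral_tsum fun n => (hf.fun_mul ((hc n).wt_meas hρ)).aemeasurable]
    exact tsum_congr fun n => (hc n).int ρ f
  · rw [image_iUnion]
    exact MeasurableSet.iUnion fun n => (hi n).1
  · rw [image_iUnion, measure_iUnion hP hm]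
    exact (measure_iUnion_le _).trans_eq (tsum_congr fun n => (hi n).2)
  · rw [image_iUnion, measure_iUnion hP hm, measure_iUnion (fun m n hmn =>
      (hP hmn).image hj (subset_iUnion P m) (subset_iUnion P n)) fun n => (hi n).1]
    exact tsum_congr fun n => (hi n).2

end Pool.Agent.MP_16ecd2_an.H18
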