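import Pool.Agent.MP_16ecd2_an.H18.Kit

/-!
From the two-sided estimate to the normalised counting measures.
-/

set_option autoImplicit false

namespace Pool.Agent.MP_16ecd2_an.H18

open MeasureTheory Set Filter Topology Metric

namespace AriX

theorem ratio {x y θ P B E : ℝ} (hP : 0 < P) (hB : 0 ≤ B) (h0 : 0 ≤ θ) (h1 : θ ≤ 1)
    (x1 : 2 * P * θ - B ≤ x) (x2 : x ≤ 2 * P * θ + 2 * B) (y0 : P ≤ y) (y1 : 2 * P - B ≤ y)
    (y2 : y ≤ 2 * P + 2 * B) (hE : 3 * B ≤ E * P) : |x / y - θ| ≤ E := by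
  have hy : 0 < y := hP.trans_le y0
  have hE0 : 0 ≤ E := by
    by_contra h
    push Not at h
    nlinarith
  have e : x / y - θ = (x - θ * y) / y := by field_simp
  have a1 := mul_le_mul_of_nonneg_left y1 h0
  have a2 := mul_le_mul_of_nonneg_left y2 h0
  have a3 := mul_le_mul_of_nonneg_right h1 hB
  have a4 := mul_le_mul_of_nonneg_left y0 hE0
  rw [e, abs_div, abs_of_pos hy, div_le_iff₀ hy, abs_le]
  constructor <;> nlinarith

theorem small {κ η : ℝ} (C : ℝ) (hκ : 0 < κ) (hη : 0 < η) :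
    ∀ᶠ R : ℝ in atTop, 1 ≤ R ∧ C * R ^ (2 - κ) ≤ η * R ^ 2 := by
  have h := (tendsto_rpow_neg_atTop hκ).const_mul C
  rw [mul_zero] at h
  filter_upwards [eventually_ge_atTop 1, h.eventually (gt_mem_nhds hη)] with R h1 h2
  refine ⟨h1, ?_⟩
  have hR : 0 < R := by linarith
  have e : R ^ (2 - κ) = R ^ (-κ) * R ^ 2 := by
    rw [sub_eq_neg_add, Real.rpow_add hR, Real.rpow_two]
  rw [e, ← mul_assoc]
  exact mul_le_mul_of_nonneg_right h2.le (by positivity)

end AriX

open AriX in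
theorem ari : RAri := by
  intro a A m ha hA hm
  have hπ := Real.pi_pos
  have hm' : (1 : ℝ) ≤ m := by exact_mod_cast hm
  obtain ⟨D, hD⟩ : ∃ D : ℝ, D = 4 * Real.pi * m / a := ⟨_, rfl⟩
  have hD0 : 0 < D := by rw [hD]; positivity
  refine ⟨6 * a * (A + D) / Real.pi, fun X _ Γ k hk hE => ?_⟩
  rw [← hD] at hE
  have hk' : (1 : ℝ) ≤ k := by exact_mod_cast hk
  obtain ⟨c, hc⟩ : ∃ c : ℝ, c = (2 * k * m + k * (k - 1)) / (2 * a) := ⟨_, rfl⟩
  rw [← hc] at hE
  have hc1 : (k : ℝ) ^ 2 ≤ 2 * a * c := by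
    rw [hc, mul_div_cancel₀ _ (by positivity)]
    nlinarith
  have hc0 : 0 < c := by
    by_contra h
    push Not at h
    nlinarith
  have hb0 : 0 < A + k * D := by positivity
  obtain ⟨κ, hκ, C, hC⟩ := hE
  have s1 := small C hκ hb0
  have s2 := small C hκ (mul_pos hπ hc0)
  filter_upwards [s1, s2] with R ⟨hR, e1⟩ ⟨_, e2⟩
  have hR2 : 0 < R ^ 2 := by positivity
  have hP : 0 < Real.pi * c * R ^ 2 := by positivity
  obtain ⟨y1, y2⟩ := hC R 0 (2 * Real.pi) hR (by linarith) (by linarith)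
  refine ⟨by nlinarith, fun α β h1 h2 => ?_⟩
  obtain ⟨x1, x2⟩ := hC R α β hR h1 h2
  have e : 2 * (Real.pi * c * R ^ 2) * ((β - α) / (2 * Real.pi)) = c * (β - α) * R ^ 2 := by
    field_simp
  refine ratio (P := Real.pi * c * R ^ 2) (B := (A + k * D) * R ^ 2) hP (by positivity)
    (div_nonneg (by linarith) (by positivity)) (by rw [div_le_one (by positivity)]; linarith)
    (by rw [e]; linarith) (by rw [e]; linarith) (by linarith) (by linarith) (by linarith) ?_
  have e' : 6 * a * (A + D) / Real.pi / k * (Real.pi * c * R ^ 2) =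
      3 * ((A + D) * (2 * a * c) / k * R ^ 2) := by
    field_simp
    ring
  rw [e']
  have h3 : A + k * D ≤ (A + D) * (2 * a * c) / k := by
    rw [le_div_iff₀ (by linarith)]
    have h4 := mul_le_mul_of_nonneg_left hc1 (by linarith : 0 ≤ A + D)
    have h5 : A * k ≤ A * k ^ 2 := mul_le_mul_of_nonneg_left (by nlinarith) hA
    nlinarith
  have := mul_le_mul_of_nonneg_right h3 hR2.le
  linarith

end Pool.Agent.MP_16ecd2_an.H18
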