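import Pool.Agent.MP_16ecd2_an.H18.Kit

/-!
The abstract model of a translation surface given by an atlas.
-/

set_option autoImplicit false

namespace Pool.Agent.MP_16ecd2_an.H18

open MeasureTheory Set Filter Topology Metric

namespace AtlX

variable {X : Type} [TopologicalSpace X] {S : TSurf X}

/-- Vectors to the visible singular points. -/
def vs (S : TSurf X) (x : {x // x ∉ S.Sig}) : Set ℂ := {v | ∃ σ, S.Vis x v σ}

/-- The exponential map of the regular part. -/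
noncomputable def ex (a : A2 S) (x : {x // x ∉ S.Sig}) (v : ℂ) : {x // x ∉ S.Sig} :=
  ⟨S.exX x v, a.ex_nsig x v x.2⟩

theorem ex0 (a : A2 S) (x : {x // x ∉ S.Sig}) : ex a x 0 = x :=
  Subtype.ext (a.exq _ _ _ (a.zero x x.2))

theorem star (a : A2 S) (x : {x // x ∉ S.Sig}) :
    ∀ v ∈ vs S x, ∀ t : ℝ, 0 ≤ t → t < 1 → t • v ∉ vs S x := by
  rintro v ⟨σ, h⟩ t h0 h1 ⟨σ', h'⟩
  obtain ⟨y, hy, -⟩ := a.vsplit _ _ _ h t ⟨h0, h1⟩
  exact a.vis_reg _ _ _ _ h' hy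

theorem cons (a : A2 S) (b : A6 S) (x : {x // x ∉ S.Sig}) (C : Set ℂ) (hC : Convex ℝ C)
    (h0 : 0 ∈ C) (hd : Disjoint C (vs S x)) : ∀ u ∈ C, ∀ w, u + w ∈ C →
      w ∉ vs S (ex a x u) ∧ ex a (ex a x u) w = ex a x (u + w) := by
  intro u hu w hw
  have h := (b.cons x C x.2 hC h0 (fun u hu σ h => disjoint_left.1 hd hu ⟨σ, h⟩) u hu w hw).2
  exact ⟨fun ⟨_, e⟩ => a.vis_reg _ _ _ _ e h, Subtype.ext (a.exq _ _ _ h)⟩

theorem reg (a : A2 S) (b : A4 S) (x : {x // x ∉ S.Sig}) (v : ℂ) :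
    (∀ t ∈ Icc (0 : ℝ) 1, t • v ∉ vs S x) ↔ ∃ z, S.RegX x v z := by
  refine ⟨fun h => (b x v x.2).resolve_right ?_, ?_⟩
  · rintro ⟨t, ht, σ, e⟩
    exact h t ⟨ht.1.le, ht.2⟩ ⟨σ, e⟩
  · rintro ⟨z, hz⟩ t ht ⟨σ, e⟩
    obtain ⟨y, hy, -⟩ := a.split _ _ _ hz t ht
    exact a.vis_reg _ _ _ _ e hy

theorem card (a : A2 S) (b : A7 S) : ∃ δ > 0, ∀ v : ℂ, v ≠ 0 → ‖v‖ ≤ δ →
    (∀ σ ∈ S.Sig, {y : {x // x ∉ S.Sig} | S.Vis y v σ}.ncard = S.ord σ) ∧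
    {y | v ∈ vs S y}.Finite ∧ {y | v ∈ vs S y}.ncard = S.tot := by
  obtain ⟨δ, hδ, h⟩ := b.card
  refine ⟨δ, hδ, fun v h0 hv => ?_⟩
  have e : ∀ σ, Subtype.val '' {y : {x // x ∉ S.Sig} | S.Vis y v σ} = {y | S.Vis y v σ} := by
    intro σ
    ext y
    exact ⟨by rintro ⟨y, hy, rfl⟩; exact hy, fun hy => ⟨⟨y, (a.vis_nsig _ _ _ hy).1⟩, hy, rfl⟩⟩
  have f : ∀ σ ∈ (S.Sig : Set X), {y : {x // x ∉ S.Sig} | S.Vis y v σ}.Finite := fun σ hσ =>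
    Finite.of_finite_image (e σ ▸ (h v h0 hv σ hσ).1) Subtype.val_injective.injOn
  have c : ∀ σ ∈ S.Sig, {y : {x // x ∉ S.Sig} | S.Vis y v σ}.ncard = S.ord σ := fun σ hσ => by
    rw [← ncard_image_of_injective _ Subtype.val_injective, e, (h v h0 hv σ hσ).2]
  have u : {y | v ∈ vs S y} = ⋃ σ ∈ (S.Sig : Set X), {y : {x // x ∉ S.Sig} | S.Vis y v σ} := by
    ext y
    simp only [mem_iUnion]
    exact ⟨fun ⟨σ, hσ⟩ => ⟨σ, hσ.1, hσ⟩, fun ⟨σ, _, hσ⟩ => ⟨σ, hσ⟩⟩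
  refine ⟨c, u ▸ S.Sig.finite_toSet.biUnion f, ?_⟩
  rw [u, S.Sig.finite_toSet.ncard_biUnion f fun σ _ σ' _ hne =>
    disjoint_left.2 fun y h1 h2 => hne (a.vis_uniq _ _ _ _ h1 h2), finsum_mem_coe_finset]
  exact Finset.sum_congr rfl c

theorem conn (a : A2 S) (b : A4 S) (c : A8 S) (x y : {x // x ∉ S.Sig}) : Relation.ReflTransGen
    (fun p q => ∃ u : ℂ, (∀ t ∈ Icc (0 : ℝ) 1, t • u ∉ vs S p) ∧ q = ex a p u) x y := by
  obtain ⟨y, hy⟩ := y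
  have h := c.conn x y x.2 hy
  induction h with
  | refl => exact .refl
  | tail _ h ih =>
    obtain ⟨u, hu⟩ := h
    exact (ih (a.reg_nsig _ _ _ hu).1).tail
      ⟨u, (reg a b _ u).2 ⟨_, hu⟩, Subtype.ext (a.exq _ _ _ hu).symm⟩

theorem emb [T2Space X] [MeasurableSpace X] [BorelSpace X] (S : TSurf X) :
    MeasurableSet {x | x ∉ S.Sig} := S.Sig.finite_toSet.measurableSet.compl

end AtlX

open AtlX in
theorem atl (h2 : RA2) (h4 : RA4) (h6 : RA6) (h7 : RA7) (h8 : RA8) (hf : RFin) (hl : RLocX) :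
    RAtl := by
  intro X _ _ _ _ _ _ S μ hμ
  have a2 := h2 X S
  have a4 := h4 X S
  have a6 := h6 X S
  have a7 := h7 X S
  have a8 := h8 X S
  have F := hf _ (vs S) (ex a2) (ex0 a2) (star a2) (cons a2 a6)
  have E : MeasurableEmbedding (Subtype.val : {x // x ∉ S.Sig} → X) :=
    MeasurableEmbedding.subtype_coe (emb S)
  obtain ⟨δ, hδ, hc⟩ := card a2 a7
  obtain ⟨r, hr, ho⟩ := a7.one
  have := hμ.fin
  have ae : ∀ᵐ x ∂μ, x ∈ {x | x ∉ S.Sig} := by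
    rw [ae_iff]
    simpa using hμ.sig
  refine ⟨{
    S := vs S
    ex := ex a2
    μ := μ.comap Subtype.val
    n := S.tot
    ne := a8.ne.elim fun x hx => ⟨⟨x, hx⟩⟩
    ex0 := ex0 a2
    star := star a2
    cons := cons a2 a6
    fin := F.1 ⟨r, hr, fun x v ⟨_, h⟩ v' ⟨_, h'⟩ => ho _ _ _ _ _ h h'⟩
    sys := ⟨r, hr, fun x v ⟨_, h⟩ ⟨_, h'⟩ => not_lt.1 fun hv => ?_⟩
    dens := a8.dens.imp fun R hR x =>
      let ⟨v, σ, h, h'⟩ := hR x x.2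
      ⟨v, ⟨σ, h⟩, h'⟩
    conn := conn a2 a4 a8
    prong := F.2 _ ⟨δ, hδ, fun v h0 hv => ⟨(hc v h0 hv).2.1, (hc v h0 hv).2.2.le⟩⟩
    fm := ⟨by rw [E.comap_apply]; exact measure_lt_top _ _⟩
    loc := fun y => ?_ }, fun _ _ => Iff.rfl, fun _ _ => rfl, reg a2 a4, ?_, fun P hP => ?_,
    fun σ hσ => ⟨fun x v h => ⟨σ, h⟩, fun x u v h H => ?_,
      δ, hδ, fun v h0 hv => (hc v h0 hv).1 σ hσ⟩,
    ⟨fun x => Subset.rfl, fun x u v ⟨σ, h⟩ H => ⟨σ, ?_⟩, δ, hδ, fun v h0 hv => (hc v h0 hv).2.2⟩⟩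
  · have e := ho _ _ _ _ _ h h' hv (by rwa [norm_neg])
    exact (a2.vis_nsig _ _ _ h).2 (by linear_combination e / 2)
  · obtain ⟨ρ, hρ, l1, l2, l3⟩ := hl X S μ hμ y y.2
    refine ⟨ρ, hρ, fun u hu v hv e => l1 hu hv (congrArg Subtype.val e), fun A hA => ?_,
      fun B hB hm => ?_⟩
    · have e : ex a2 y ⁻¹' A = S.exX y ⁻¹' (Subtype.val '' A) := by
        ext u
        exact Subtype.val_injective.mem_set_image.symm
      rw [e]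
      exact l2 _ (E.measurableSet_image.2 hA)
    · have e : Subtype.val '' (ex a2 y '' B) = S.exX y '' B := by
        rw [image_image]
        rfl
      exact ⟨E.measurableSet_image.1 (e ▸ (l3 B hB hm).1), by
        rw [E.comap_apply, e, (l3 B hB hm).2]⟩
  · change ((μ.comap Subtype.val) univ).toReal = _
    rw [E.comap_apply, image_univ, Subtype.range_coe_subtype,
      measure_of_measure_compl_eq_zero (ae_iff.1 ae)]
  · rw [← Measure.restrict_eq_self_of_ae_mem ae]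
    exact (ae_restrict_iff_subtype (emb S)).2 hP
  · exact a6.tr _ _ _ _ h fun α β h1 h2 h3 h4 σ' e => H α β h1 h2 h3 h4 ⟨σ', e⟩
  · exact a6.tr _ _ _ _ h fun α β h1 h2 h3 h4 σ' e => H α β h1 h2 h3 h4 ⟨σ', e⟩

end Pool.Agent.MP_16ecd2_an.H18
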