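import Pool.Agent.MP_16ecd2_an.H18.Kit

/-!
Basic facts on saddle connections.
-/

set_option autoImplicit false

namespace Pool.Agent.MP_16ecd2_an.H18

open MeasureTheory Set Filter Topology Metric

namespace B2X

variable {Y : Type} [MeasurableSpace Y] {T : TS Y} {c c' : Y × ℂ}

theorem free (hc : c ∈ T.SC) (t : ℝ) (ht : |t| < 1) : t • c.2 ∉ T.S c.1 := by
  rcases le_total 0 t with h | h
  · exact T.star _ _ hc.1 t h (abs_lt.1 ht).2
  · have := T.star _ _ hc.2 (-t) (neg_nonneg.2 h) (by linarith [(abs_lt.1 ht).1])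
    rwa [neg_smul_neg] at this

theorem sopp (hc : c ∈ T.SC) : opp c ∈ T.SC := ⟨hc.2, by simpa [opp] using hc.1⟩

theorem popp (c : Y × ℂ) : T.pts (opp c) = T.pts c :=
  Set.ext fun _ => ⟨fun ⟨t, h, e⟩ => ⟨-t, by rwa [abs_neg], by simpa [opp] using e⟩,
    fun ⟨t, h, e⟩ => ⟨-t, by rwa [abs_neg], by simpa [opp] using e⟩⟩

theorem end1 (B : B1 T) (hc : c ∈ T.SC) (t : ℝ) (ht : |t| < 1) :
    (1 - t) • c.2 ∈ T.S (T.ex c.1 (t • c.2)) := by
  rw [sub_smul, one_smul]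
  refine B.tr _ _ _ hc.1 fun α β h1 h2 h3 h4 => ?_
  rw [smul_smul, ← add_smul]
  obtain ⟨k1, k2⟩ := abs_lt.1 ht
  refine free hc _ (abs_lt.2 ⟨by nlinarith, ?_⟩)
  rcases h1.eq_or_lt with rfl | h1
  · linarith
  · nlinarith

theorem end2 (B : B1 T) (hc : c ∈ T.SC) (t : ℝ) (ht : |t| < 1) :
    (-1 - t) • c.2 ∈ T.S (T.ex c.1 (t • c.2)) := by
  have := end1 B (sopp hc) (-t) (by rwa [abs_neg])
  simp only [opp, neg_smul_neg] at this
  rwa [smul_neg, ← neg_smul, show -(1 - -t) = -1 - t by ring] at this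

theorem sline (B : B1 T) (hc : c ∈ T.SC) (s t : ℝ) (hs : |s| < 1) (ht : |t| < 1) :
    T.Reg (T.ex c.1 (s • c.2)) ((t - s) • c.2) ∧
      T.ex (T.ex c.1 (s • c.2)) ((t - s) • c.2) = T.ex c.1 (t • c.2) :=
  B.line c.1 c.2 (Ioo (-1) 1) (convex_Ioo _ _) ⟨by norm_num, one_pos⟩
    (fun r hr => free hc r (abs_lt.2 hr)) s (abs_lt.1 hs) t (abs_lt.1 ht)

theorem uniq {z : Y} {w : ℂ} {a b : ℝ} (ha : 0 < a) (hb : 0 < b) (h : a • w ∈ T.S z)
    (h' : b • w ∈ T.S z) : a = b := by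
  have k : ∀ {a b : ℝ}, 0 < a → a • w ∈ T.S z → b • w ∈ T.S z → ¬ a < b := fun {a b} ha h h' l =>
    T.star z _ h' (a / b) (div_pos ha (ha.trans l)).le ((div_lt_one (ha.trans l)).2 l)
      (by rwa [smul_smul, div_mul_cancel₀ _ (ha.trans l).ne'])
  exact le_antisymm (not_lt.1 (k hb h' h)) (not_lt.1 (k ha h h'))

theorem par_pos (B : B1 T) (hc : c ∈ T.SC) (hc' : c' ∈ T.SC) {k : ℝ} (hk : 0 < k)
    (e : c'.2 = k • c.2) (h : ¬ T.Dis c c') : c' = c := by
  obtain ⟨z, ⟨t, ht, e1⟩, t', ht', e2⟩ := not_disjoint_iff.1 h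
  obtain ⟨k1, k2⟩ := abs_lt.1 ht
  obtain ⟨k1', k2'⟩ := abs_lt.1 ht'
  have a1 := end1 B hc t ht
  have a2 := end2 B hc t ht
  have b1 := end1 B hc' t' ht'
  have b2 := end2 B hc' t' ht'
  rw [← e1] at a1 a2
  rw [← e2, e, smul_smul] at b1 b2
  rw [← neg_smul_neg] at a2 b2
  have u1 := uniq (by linarith) (mul_pos (by linarith) hk) a1 b1
  have u2 := uniq (by linarith) (by nlinarith) a2 b2
  obtain rfl : k = 1 := by linarith
  obtain rfl : t = t' := by linarith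
  rw [one_smul] at e
  have l1 := (sline B hc t 0 ht (by simp)).2
  have l2 := (sline B hc' t 0 ht (by simp)).2
  rw [← e1, zero_smul, T.ex0] at l1
  rw [← e2, zero_smul, T.ex0, e] at l2
  exact Prod.ext (l2.symm.trans l1) e

end B2X

open B2X in
theorem b2 (h1 : RB1) : RB2 := by
  intro Y _ T
  have B := h1 Y T
  have ne : ∀ c ∈ T.SC, c.2 ≠ 0 := fun c hc h => B.zero c.1 (h ▸ hc.1)
  refine ⟨ne, fun _ => free, fun c hc t ht => ⟨end1 B hc t ht, end2 B hc t ht⟩,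
    fun _ => sline B, ?_, fun _ => sopp, popp, fun c => ⟨0, by simp, by rw [zero_smul, T.ex0]⟩,
    ?_, ?_, fun y p c hp hc hf => ⟨⟨?_, ?_⟩, fun t ht => ?_⟩, fun c hc c' hc' hd hn => ?_⟩
  · rintro c hc _ ⟨s, hs, rfl⟩ t ht
    obtain ⟨k1, k2⟩ := abs_lt.1 hs
    have h : |s + t| < 1 := by
      refine abs_lt.2 ⟨not_le.1 fun h => ?_, not_le.1 fun h => ?_⟩
      · have t0 : t < 0 := by linarith
        refine ht ((-1 - s) / t) ⟨div_nonneg_of_nonpos (by linarith) t0.le,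
          (div_le_one_of_neg t0).2 (by linarith)⟩ ?_
        rw [smul_smul, div_mul_cancel₀ _ t0.ne]
        exact end2 B hc s hs
      · have t0 : 0 < t := by linarith
        refine ht ((1 - s) / t) ⟨div_nonneg (by linarith) t0.le,
          (div_le_one t0).2 (by linarith)⟩ ?_
        rw [smul_smul, div_mul_cancel₀ _ t0.ne']
        exact end1 B hc s hs
    exact ⟨s + t, h, by rw [← (sline B hc s _ hs h).2, add_sub_cancel_left]⟩
  · rintro _ ⟨c, hc, rfl⟩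
    exact ⟨opp c, sopp hc, (smul_neg _ _).symm⟩
  · obtain ⟨δ, δ0, hδ⟩ := T.sys
    refine ⟨δ, δ0, ?_⟩
    rintro _ ⟨c, hc, rfl⟩
    rw [norm_smul, Real.norm_two]
    linarith [hδ _ _ hc.1 hc.2]
  · rw [show (1 / 2 : ℝ) • (c - p) = c - (1 / 2 : ℝ) • (p + c) by module]
    refine B.tr _ _ _ hc fun α β h1 h2 h3 h4 => ?_
    rw [show α • (1 / 2 : ℝ) • (p + c) + β • c = (α / 2) • p + (α / 2 + β) • c by module]
    exact hf _ _ (by linarith) (by linarith) (by linarith) (by linarith) (by linarith)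
  · rw [show -((1 / 2 : ℝ) • (c - p)) = p - (1 / 2 : ℝ) • (p + c) by module]
    refine B.tr _ _ _ hp fun α β h1 h2 h3 h4 => ?_
    rw [show α • (1 / 2 : ℝ) • (p + c) + β • p = (α / 2 + β) • p + (α / 2) • c by module]
    exact hf _ _ (by linarith) (by linarith) (by linarith) (by linarith) (by linarith)
  · obtain ⟨k1, k2⟩ := abs_lt.1 ht
    refine (T.cons y {u | ∃ α β : ℝ, 0 ≤ α ∧ 0 ≤ β ∧ α + β ≤ 1 ∧ α < 1 ∧ β < 1 ∧
      u = α • p + β • c} ?_ ⟨0, 0, by simp⟩ (disjoint_left.2 ?_) _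
      ⟨1 / 2, 1 / 2, by norm_num, by norm_num, by norm_num, by norm_num, by norm_num, by module⟩ _
      ⟨(1 - t) / 2, (1 + t) / 2, by linarith, by linarith, by linarith, by linarith, by linarith,
        by module⟩).2
    · rintro _ ⟨α, β, a1, a2, a3, a4, a5, rfl⟩ _ ⟨α', β', b1, b2, b3, b4, b5, rfl⟩ a b ha hb hab
      exact ⟨a * α + b * α', a * β + b * β', by positivity, by positivity, by nlinarith,
        convex_Iio (1 : ℝ) a4 b4 ha hb hab, convex_Iio (1 : ℝ) a5 b5 ha hb hab, by module⟩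
    · rintro _ ⟨α, β, a1, a2, a3, a4, a5, rfl⟩
      exact hf α β a1 a2 a3 a4 a5
  · obtain ⟨k, e⟩ := par_of_det (ne c hc) hd
    rcases lt_trichotomy k 0 with h | rfl | h
    · have := par_pos B hc (sopp hc') (neg_pos.2 h) (by rw [neg_smul, ← e]; rfl)
        (by rwa [TS.Dis, popp])
      exact Or.inr (by rw [← this]; simp [opp])
    · exact absurd (e.trans (zero_smul _ _)) (ne c' hc')
    · exact Or.inl (par_pos B hc hc' h e hn)

end Pool.Agent.MP_16ecd2_an.H18
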