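import Pool.Agent.MP_16ecd2_an.H18.Kit

/-!
Row B3: pairs of visible singular points, large free discs, and periodic directions.
-/

set_option autoImplicit false

namespace Pool.Agent.MP_16ecd2_an.H18

open MeasureTheory Set Filter Topology Metric

namespace B3X

variable {Y : Type} [MeasurableSpace Y] {T : TS Y}

theorem det_zero_right (u : ℂ) : det u 0 = 0 := by simp [det]

theorem abs_det_le (u v : ℂ) : |det u v| ≤ ‖u‖ * ‖v‖ := by
  have h : det u v = ((starRingEnd ℂ) u * v).im := by simp [det]; ring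
  rw [h]
  refine (Complex.abs_im_le_norm _).trans ?_
  rw [norm_mul, Complex.norm_conj]

theorem det_I (l : ℂ) : det l (Complex.I * l) = ‖l‖ * ‖l‖ := by
  rw [← sq, ← Complex.normSq_eq_norm_sq, Complex.normSq_apply]
  simp [det]

theorem hol_of (b2 : B2 T) {y : Y} {p c : ℂ} (hp : p ∈ T.S y) (hc : c ∈ T.S y)
    (h : ∀ α β : ℝ, 0 ≤ α → 0 ≤ β → α + β ≤ 1 → α < 1 → β < 1 → α • p + β • c ∉ T.S y) :
    c - p ∈ T.Hol :=
  ⟨_, (b2.mk_sc y p c hp hc h).1, by rw [smul_smul]; norm_num⟩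

theorem pair_gen (b2 : B2 T) {x : Y} {H : Set ℂ} (hc : Convex ℝ H) (h0 : (0 : ℂ) ∈ H)
    (hb : Bornology.IsBounded H) {a a' : ℂ} (ha : a ∈ T.S x) (ha' : a' ∈ T.S x) (hH : a ∈ H)
    (hH' : a' ∈ H) (hd : 0 < det a a') :
    ∃ c ∈ T.S x, ∃ c' ∈ T.S x, c ∈ H ∧ c' ∈ H ∧ c ≠ c' ∧ c - c' ∈ T.Hol := by
  obtain ⟨R, hR⟩ := hb.subset_closedBall 0
  have hF : (T.S x ∩ H).Finite := (T.fin x R).subset fun u hu => ⟨hu.1, hR hu.2⟩
  obtain ⟨⟨c, c'⟩, ⟨⟨⟨h1, h2⟩, h3, h4⟩, h5⟩, hm⟩ := Set.exists_min_image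
    {q ∈ (T.S x ∩ H) ×ˢ (T.S x ∩ H) | 0 < det q.1 q.2} (fun q => det q.1 q.2)
    ((hF.prod hF).subset fun _ hq => hq.1) ⟨(a, a'), ⟨⟨ha, hH⟩, ha', hH'⟩, hd⟩
  refine ⟨c', h3, c, h1, h4, h2, fun e => ?_, hol_of b2 h1 h3 fun α β hα hβ hs hα1 hβ1 he => ?_⟩
  · simp only at h5 e
    rw [e, det_self] at h5
    exact lt_irrefl _ h5
  · rcases hβ.eq_or_lt with rfl | hβ0
    · rw [zero_smul, add_zero] at he
      exact T.star x c h1 α hα hα1 he
    · have hH2 : α • c + β • c' ∈ H := by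
        have := hc.sum_mem (t := Finset.univ) (w := ![1 - α - β, α, β]) (z := ![0, c, c'])
          (fun i _ => by fin_cases i <;> simp <;> linarith) (by simp [Fin.sum_univ_three]; ring)
          (fun i _ => by fin_cases i <;> simpa)
        simpa only [Fin.sum_univ_three, Matrix.cons_val_zero, Matrix.cons_val_one,
          Matrix.cons_val, smul_zero, zero_add] using this
      have e : det c (α • c + β • c') = β * det c c' := by
        rw [det_add_right, det_smul_right, det_smul_right, det_self, mul_zero, zero_add]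
      simp only at h5
      have := hm (c, α • c + β • c') ⟨⟨⟨h1, h2⟩, he, hH2⟩, by
        simp only; rw [e]; exact mul_pos hβ0 h5⟩
      simp only at this
      rw [e] at this
      nlinarith

theorem pair (b1 : B1 T) (b2 : B2 T) (x : Y) (a a' : ℂ) (ha : a ∈ T.S x) (ha' : a' ∈ T.S x)
    (hne : a ≠ a') : ∃ c ∈ T.S x, ∃ c' ∈ T.S x, c ∈ convexHull ℝ {0, a, a'} ∧
      c' ∈ convexHull ℝ {0, a, a'} ∧ c ≠ c' ∧ c - c' ∈ T.Hol := by
  have h0 : (0 : ℂ) ∈ convexHull ℝ {0, a, a'} := subset_convexHull ℝ _ (by simp)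
  have h1 : a ∈ convexHull ℝ {0, a, a'} := subset_convexHull ℝ _ (by simp)
  have h2 : a' ∈ convexHull ℝ {0, a, a'} := subset_convexHull ℝ _ (by simp)
  have hb : Bornology.IsBounded (convexHull ℝ ({0, a, a'} : Set ℂ)) :=
    isBounded_convexHull.2 (Set.toFinite _).isBounded
  rcases lt_trichotomy 0 (det a a') with h | h | h
  · exact pair_gen b2 (convex_convexHull ℝ _) h0 hb ha ha' h1 h2 h
  · have ha0 : a ≠ 0 := fun e => b1.zero x (e ▸ ha)
    obtain ⟨k, rfl⟩ := par_of_det ha0 h.symm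
    have hk : k < 0 := by
      by_contra hk
      rcases lt_trichotomy k 1 with h3 | h3 | h3
      · exact T.star x a ha k (not_lt.1 hk) h3 ha'
      · exact hne (by rw [h3, one_smul])
      · refine T.star x _ ha' k⁻¹ (by positivity) (inv_lt_one_of_one_lt₀ h3) ?_
        rwa [smul_smul, inv_mul_cancel₀ (by linarith), one_smul]
    refine ⟨a, ha, _, ha', h1, h2, hne, hol_of b2 ha' ha fun α β hα hβ _ hα1 hβ1 he => ?_⟩
    rw [smul_smul, ← add_smul] at he
    by_cases h3 : 0 ≤ α * k + β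
    · exact T.star x a ha _ h3 (by nlinarith) he
    · refine T.star x _ ha' ((α * k + β) / k) (div_nonneg_of_nonpos (not_le.1 h3).le hk.le) ?_ ?_
      · rw [div_lt_one_of_neg hk]; nlinarith
      · rwa [smul_smul, div_mul_cancel₀ _ hk.ne]
  · exact pair_gen b2 (convex_convexHull ℝ _) h0 hb ha' ha h2 h1 (by rw [det_comm]; linarith)

theorem half (T : TS Y) : ∃ R > 0, ∀ (x : Y) (C : Set ℂ) (u : ℂ), Convex ℝ C → 0 ∈ C →
    Disjoint C (T.S x) → ¬ closedBall u R ⊆ C := by
  obtain ⟨R, hR⟩ := T.dens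
  refine ⟨max R 1, lt_max_of_lt_right one_pos, fun x C u hc h0 hd hs => ?_⟩
  obtain ⟨a, ha, h1⟩ := hR (T.ex x u)
  refine (T.cons x C hc h0 hd u (hs (mem_closedBall_self (by positivity))) a (hs ?_)).1 ha
  rw [mem_closedBall, dist_eq_norm, add_sub_cancel_left]
  exact h1.trans (le_max_left _ _)

theorem ray (b1 : B1 T) {x : Y} {l : ℂ} (hr : T.Reg x l) (he : T.ex x l = x) (n : ℕ) :
    ∀ t : ℝ, 0 ≤ t → t ≤ n → t • l ∉ T.S x := by
  induction n with
  | zero => exact fun t h0 h1 => hr t ⟨h0, h1.trans (by simp)⟩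
  | succ n ih =>
    intro t h0 h1 ht
    by_cases h2 : t ≤ 1
    · exact hr t ⟨h0, h2⟩ ht
    · push_cast at h1
      have h3 := b1.tr x l _ ht fun α β hα hβ hs hβ1 h => by
        refine T.star x _ ht ((α + β * t) / t) (by positivity) ?_ ?_
        · rw [div_lt_one (by linarith)]; nlinarith
        · rwa [smul_smul, div_mul_cancel₀ _ (by linarith), add_smul, ← smul_smul]
      rw [he] at h3
      refine ih (t - 1) (by linarith) (by linarith) ?_
      rwa [sub_smul, one_smul]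

theorem line (b1 : B1 T) {x : Y} {l : ℂ} (hr : T.Reg x l) (he : T.ex x l = x) (t : ℝ) :
    t • l ∉ T.S x := by
  rcases le_total 0 t with h | h
  · exact ray b1 hr he _ t h (Nat.le_ceil t)
  · have h1 := b1.back x l hr
    rw [he] at h1
    have := ray b1 h1.1 h1.2 _ (-t) (by linarith) (Nat.le_ceil _)
    rwa [neg_smul_neg] at this

theorem ex_int (b1 : B1 T) {x : Y} {l : ℂ} (hr : T.Reg x l) (he : T.ex x l = x) (j : ℤ) :
    T.ex x ((j : ℝ) • l) = x := by
  have h := fun s t => (b1.line x l univ convex_univ trivial (fun t _ => line b1 hr he t) s trivial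
    t trivial).2
  have h1 := b1.back x l hr
  rw [he] at h1
  induction j using Int.induction_on with
  | zero => simpa using T.ex0 x
  | succ i ih =>
    rw [← h ((i : ℤ) : ℝ), ih]
    simpa using he
  | pred i ih =>
    rw [← h ((-i : ℤ) : ℝ), ih, show ((-i - 1 : ℤ) : ℝ) - ((-i : ℤ) : ℝ) = -1 by push_cast; ring,
      neg_one_smul]
    exact h1.2

theorem box (T : TS Y) (x : Y) {l : ℂ} (hl : l ≠ 0) (n h : ℝ) :
    {u ∈ T.S x | |det u (Complex.I * l)| ≤ n ∧ 0 < det l u ∧ det l u ≤ h}.Finite := by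
  have hN : 0 < det l (Complex.I * l) := by
    rw [det_I]; exact mul_pos (norm_pos_iff.2 hl) (norm_pos_iff.2 hl)
  refine (T.fin x (n / det l (Complex.I * l) * ‖l‖ +
    h / det l (Complex.I * l) * ‖Complex.I * l‖)).subset fun u ⟨hu, h1, h2, h3⟩ => ⟨hu, ?_⟩
  rw [mem_closedBall_zero_iff, coord hN.ne' u]
  refine (norm_add_le _ _).trans (add_le_add ?_ ?_)
  · rw [norm_smul, Real.norm_eq_abs, abs_div, abs_of_pos hN]
    gcongr
  · rw [norm_smul, Real.norm_eq_abs, abs_div, abs_of_pos hN, abs_of_pos h2]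
    gcongr

theorem key (b1 : B1 T) {x : Y} {l : ℂ} (hr : T.Reg x l) (he : T.ex x l = x) (hl : l ≠ 0) {c : ℂ}
    (hc : c ∈ T.S x) (h0 : 0 < det l c) : ∃ c' ∈ T.S x,
      |det c' (Complex.I * l)| ≤ det l (Complex.I * l) ∧ 0 < det l c' ∧ det l c' ≤ det l c := by
  have hN : 0 < det l (Complex.I * l) := by
    rw [det_I]; exact mul_pos (norm_pos_iff.2 hl) (norm_pos_iff.2 hl)
  set m := Complex.I * l
  set N := det l m
  obtain ⟨n, hn⟩ := exists_nat_ge (|det c m| / N)
  rw [div_le_iff₀ hN] at hn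
  obtain ⟨a, ⟨ha, h1, h2, h3⟩, hm⟩ := Set.exists_min_image _ (fun u => det l u)
    (box T x hl (n * N) (det l c)) ⟨c, hc, hn, h0, le_rfl⟩
  set j := ⌊det a m / N⌋
  have j1 : (j : ℝ) * N ≤ det a m := (le_div_iff₀ hN).1 (Int.floor_le _)
  have j2 : det a m < ((j : ℝ) + 1) * N := (div_lt_iff₀ hN).1 (Int.lt_floor_add_one _)
  obtain ⟨h4, h5⟩ := abs_le.1 h1
  have j3 : -(n : ℝ) ≤ j := by
    have : (-n : ℤ) ≤ j := Int.le_floor.2 (by
      rw [le_div_iff₀ hN]; push_cast; linarith)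
    exact_mod_cast this
  have j4 : -(n * N) ≤ j * N := by nlinarith
  have hnN : 0 ≤ n * N := by positivity
  have h6 := b1.tr x ((j : ℝ) • l) a ha fun α β hα hβ hs hβ1 h => by
    rcases hβ.eq_or_lt with rfl | hβ0
    · rw [zero_smul, add_zero, smul_smul] at h
      exact line b1 hr he _ h
    · have e1 : det l (α • (j : ℝ) • l + β • a) = β * det l a := by
        rw [det_add_right, det_smul_right, det_smul_right, det_smul_right, det_self]; ring
      have e2 : det (α • (j : ℝ) • l + β • a) m = α * (j * N) + β * det a m := by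
        rw [det_add_left, det_smul_left, det_smul_left, det_smul_left]
      have := hm _ ⟨h, by rw [e2, abs_le]; constructor <;> nlinarith,
        by rw [e1]; positivity, by rw [e1]; nlinarith⟩
      simp only [e1] at this
      nlinarith
  rw [ex_int b1 hr he] at h6
  have e1 : det l (a - (j : ℝ) • l) = det l a := by
    rw [det_sub_right, det_smul_right, det_self]; ring
  refine ⟨_, h6, ?_, e1 ▸ h2, e1 ▸ h3⟩
  rw [det_sub_left, det_smul_left, abs_le]
  constructor <;> linarith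

theorem strip (b1 : B1 T) (x : Y) (l : ℂ) (hr : T.Reg x l) (he : T.ex x l = x) (hl : l ≠ 0) :
    ∃ a ∈ T.S x, 0 < det l a ∧ (∀ u, 0 ≤ det l u → det l u < det l a → u ∉ T.S x) ∧
      ∀ j : ℤ, a + (j : ℝ) • l ∈ T.S x := by
  have hpos : ∀ u ∈ T.S x, 0 ≤ det l u → 0 < det l u := fun u hu h => h.lt_of_ne fun e => by
    obtain ⟨t, rfl⟩ := par_of_det hl e.symm
    exact line b1 hr he t hu
  obtain ⟨a₀, h₀, ha₀⟩ : ∃ a ∈ {u | 0 ≤ det l u}, a ∈ T.S x :=
    Set.not_disjoint_iff.1 <| fun hd => by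
      obtain ⟨R, hR, h⟩ := half T
      refine h x _ ((R / ‖l‖) • (Complex.I * l)) (fun u hu v hv α β hα hβ _ => ?_)
        (det_zero_right l).ge hd fun v hv => ?_
      · show 0 ≤ det l _
        rw [det_add_right, det_smul_right, det_smul_right]
        exact add_nonneg (mul_nonneg hα hu) (mul_nonneg hβ hv)
      · rw [mem_closedBall, dist_eq_norm] at hv
        have h1 := (abs_le.1 ((abs_det_le l _).trans
          (mul_le_mul_of_nonneg_left hv (norm_nonneg l)))).1
        rw [det_sub_right, det_smul_right, det_I, ← mul_assoc,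
          div_mul_cancel₀ _ (norm_ne_zero_iff.2 hl)] at h1
        show 0 ≤ det l v
        linarith
  obtain ⟨c, hc⟩ := key b1 hr he hl ha₀ (hpos _ ha₀ h₀)
  obtain ⟨a, ⟨ha, -, h2, h3⟩, hm⟩ := Set.exists_min_image _ (fun u => det l u)
    (box T x hl (det l (Complex.I * l)) (det l a₀)) ⟨c, hc⟩
  have hfree : ∀ u, 0 ≤ det l u → det l u < det l a → u ∉ T.S x := fun u h4 h5 hu => by
    obtain ⟨c', k1, k2, k3, k4⟩ := key b1 hr he hl hu (hpos u hu h4)
    have := hm c' ⟨k1, k2, k3, by linarith⟩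
    linarith
  refine ⟨a, ha, h2, hfree, fun j => ?_⟩
  have h6 := b1.tr x (((-j : ℤ) : ℝ) • l) a ha fun α β hα hβ hs hβ1 => by
    have e1 : det l (α • ((-j : ℤ) : ℝ) • l + β • a) = β * det l a := by
      rw [det_add_right, det_smul_right, det_smul_right, det_smul_right, det_self]; ring
    exact hfree _ (by rw [e1]; positivity) (by rw [e1]; nlinarith)
  rw [ex_int b1 hr he] at h6
  simpa using h6

theorem per (b1 : B1 T) (b2 : B2 T) (x : Y) (l : ℂ) (hr : T.Reg x l) (he : T.ex x l = x)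
    (hl : l ≠ 0) : ∃ t ∈ Ioc (0 : ℝ) 1, t • l ∈ T.Hol := by
  obtain ⟨a, ha, h0, hf, hj⟩ := strip b1 x l hr he hl
  have h1 : a - l ∈ T.S x := by simpa [sub_eq_add_neg] using hj (-1)
  have hal : det a l = -det l a := det_comm a l
  have hK : convexHull ℝ {0, a, a - l} ⊆
      {u | 0 ≤ det a u ∧ det a u ≤ det l u ∧ det l u ≤ det l a} := by
    refine convexHull_min ?_ fun u hu v hv α β hα hβ hs => ?_
    · rintro u (rfl | rfl | rfl)
      · simp only [mem_ofPred_eq, det_zero_right]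
        exact ⟨le_rfl, le_rfl, h0.le⟩
      · simp only [mem_ofPred_eq, det_self]
        exact ⟨le_rfl, h0.le, le_rfl⟩
      · simp only [mem_ofPred_eq, det_sub_right, det_self, hal]
        refine ⟨?_, ?_, ?_⟩ <;> linarith
    · obtain ⟨u1, u2, u3⟩ := hu
      obtain ⟨v1, v2, v3⟩ := hv
      simp only [mem_ofPred_eq, det_add_right, det_smul_right]
      refine ⟨by positivity, by nlinarith, ?_⟩
      have : det l a = α * det l a + β * det l a := by rw [← add_mul, hs, one_mul]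
      nlinarith
  obtain ⟨c, hc, c', hc', k1, k2, k3, k4⟩ := pair b1 b2 x a (a - l) ha h1
    (fun e => hl (by simpa [eq_sub_iff_add_eq] using e))
  obtain ⟨u1, u2, u3⟩ := hK k1
  obtain ⟨v1, v2, v3⟩ := hK k2
  have e1 : det l c = det l a := u3.antisymm (not_lt.1 fun h => hf c (u1.trans u2) h hc)
  have e2 : det l c' = det l a := v3.antisymm (not_lt.1 fun h => hf c' (v1.trans v2) h hc')
  obtain ⟨t, ht⟩ := par_of_det hl (show det l (c - c') = 0 by rw [det_sub_right, e1, e2, sub_self])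
  have e3 : det a c - det a c' = -(t * det l a) := by
    rw [← det_sub_right, ht, det_smul_right, hal, mul_neg]
  rcases lt_trichotomy t 0 with h | h | h
  · refine ⟨-t, ⟨by linarith, by nlinarith⟩, ?_⟩
    rw [neg_smul, ← ht]
    exact b2.hol_neg _ k4
  · rw [h, zero_smul, sub_eq_zero] at ht
    exact absurd ht k3
  · exact ⟨t, ⟨h, by nlinarith⟩, ht ▸ k4⟩

end B3X

theorem b3 (h1 : RB1) (h2 : RB2) : RB3 := fun Y _ T =>
  ⟨B3X.pair (h1 Y T) (h2 Y T), B3X.half T, B3X.strip (h1 Y T), B3X.per (h1 Y T) (h2 Y T)⟩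

end Pool.Agent.MP_16ecd2_an.H18
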