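import Pool.Agent.MP_16ecd2_an.H18.Kit

/-!
Injectivity of the exponential map up to saddle connections, and finiteness of crossings.
-/

namespace Pool.Agent.MP_16ecd2_an.H18

open Set Metric

namespace B4X

variable {Y : Type} [MeasurableSpace Y] {T : TS Y}

theorem hull (N : Seminorm ℝ ℂ) {M : ℝ} {a b : ℂ} (ha : N a ≤ M) (hb : N b ≤ M)
    (hab : N (a - b) ≤ M) {p q : ℂ} (hp : p ∈ convexHull ℝ ({0, a, b} : Set ℂ))
    (hq : q ∈ convexHull ℝ ({0, a, b} : Set ℂ)) : N (p - q) ≤ M := by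
  have h0 : 0 ≤ M := (apply_nonneg N a).trans ha
  refine (N.mem_closedBall (y := p)).1 (convexHull_min (fun p hp => ?_) (N.convex_closedBall q M) hp)
  rw [N.mem_closedBall, map_sub_rev]
  refine (N.mem_closedBall (y := q)).1 (convexHull_min (fun q hq => ?_) (N.convex_closedBall p M) hq)
  rw [N.mem_closedBall]
  have hba := map_sub_rev N a b ▸ hab
  rcases hp with rfl | rfl | rfl <;> rcases hq with rfl | rfl | rfl <;> simp [*]

theorem inj (h1 : B1 T) (h3 : B3 T) (x : Y) (C : Set ℂ) (hC : Convex ℝ C) (h0 : 0 ∈ C)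
    (hd : Disjoint C (T.S x)) (u : ℂ) (hu : u ∈ C) (u' : ℂ) (hu' : u' ∈ C) (hne : u ≠ u')
    (e : T.ex x u = T.ex x u') : ∃ t ∈ Ioc (0 : ℝ) 1, t • (u - u') ∈ T.Hol := by
  have h : u' + (u - u') ∈ C := by simpa using hu
  refine h3.per _ _ (h1.reg x C hC h0 hd u' hu' _ h) ?_ (sub_ne_zero.2 hne)
  rw [(T.cons x C hC h0 hd u' hu' _ h).2, add_sub_cancel, e]

theorem two (h1 : B1 T) (h3 : B3 T) (N : Seminorm ℝ ℂ) (x : Y) (u u' : ℂ) (hu : T.Reg x u)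
    (hu' : T.Reg x u') (hne : u ≠ u') (e : T.ex x u = T.ex x u') :
    ∃ h ∈ T.Hol, N h ≤ N u + N u' := by
  have hK : ∀ {p q : ℂ}, p ∈ convexHull ℝ ({0, u, u'} : Set ℂ) →
      q ∈ convexHull ℝ ({0, u, u'} : Set ℂ) → N (p - q) ≤ N u + N u' :=
    hull N (le_add_of_nonneg_right (apply_nonneg N _)) (le_add_of_nonneg_left (apply_nonneg N _))
      (map_sub_le_add N u u')
  have hC := convex_convexHull ℝ ({0, u, u'} : Set ℂ)
  have m0 : (0 : ℂ) ∈ convexHull ℝ ({0, u, u'} : Set ℂ) := subset_convexHull _ _ (by simp)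
  have m1 : u ∈ convexHull ℝ ({0, u, u'} : Set ℂ) := subset_convexHull _ _ (by simp)
  have m2 : u' ∈ convexHull ℝ ({0, u, u'} : Set ℂ) := subset_convexHull _ _ (by simp)
  have key : ∀ y a b, a ∈ T.S y → b ∈ T.S y → a ≠ b → N a ≤ N u + N u' → N b ≤ N u + N u' →
      N (a - b) ≤ N u + N u' → ∃ h ∈ T.Hol, N h ≤ N u + N u' := by
    intro y a b ha hb hab e1 e2 e3
    obtain ⟨c, -, c', -, k1, k2, -, k3⟩ := h3.pair y a b ha hb hab
    exact ⟨_, k3, hull N e1 e2 e3 k1 k2⟩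
  by_cases hd : Disjoint (convexHull ℝ ({0, u, u'} : Set ℂ)) (T.S x)
  · obtain ⟨t, ht, h⟩ := inj h1 h3 x _ hC m0 hd u m1 u' m2 hne e
    refine ⟨_, h, ?_⟩
    rw [map_smul_eq_mul, Real.norm_of_nonneg ht.1.le]
    exact (mul_le_of_le_one_left (apply_nonneg N _) ht.2).trans (hK m1 m2)
  · obtain ⟨a, ha, hS⟩ := not_disjoint_iff.1 hd
    by_cases hz : ∀ z ∈ convexHull ℝ ({0, u, u'} : Set ℂ), z ∈ T.S x → z = a
    · refine key (T.ex x u) (a - u) (a - u') (h1.trC x _ u a hC m0 m1 ha hS hz hu)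
        (e ▸ h1.trC x _ u' a hC m0 m2 ha hS hz hu') (fun h => hne (sub_right_injective h))
        (hK ha m1) (hK ha m2) ?_
      rw [sub_sub_sub_cancel_left]
      exact hK m2 m1
    · push Not at hz
      obtain ⟨z, k1, k2, k3⟩ := hz
      exact key x z a k2 hS k3 (by simpa using hK k1 m0) (by simpa using hK ha m0) (hK k1 ha)

theorem cross (h1 : B1 T) (h2 : B2 T) (h3 : B3 T) (x : Y) (u : ℂ)
    (hu : ∀ t ∈ Ico (0 : ℝ) 1, t • u ∉ T.S x) (c : Y × ℂ) (hc : c ∈ T.SC) (hd : det u c.2 ≠ 0) :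
    {t ∈ Ico (0 : ℝ) 1 | T.ex x (t • u) ∈ T.pts c}.Finite := by
  obtain ⟨δ, hδ, hs⟩ := h2.hol_sys
  have h : ∀ t ∈ {t ∈ Ico (0 : ℝ) 1 | T.ex x (t • u) ∈ T.pts c},
      ∃ τ : ℝ, |τ| < 1 ∧ T.ex x (t • u) = T.ex c.1 (τ • c.2) := fun t ht => ht.2
  choose! τ k1 k2 using h
  obtain ⟨F, hF, hcov⟩ := totallyBounded_iff.1
    (isCompact_closedBall (0 : ℂ × ℂ) (‖u‖ + ‖c.2‖)).totallyBounded (δ / 4) (by positivity)
  have h : ∀ t ∈ {t ∈ Ico (0 : ℝ) 1 | T.ex x (t • u) ∈ T.pts c},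
      ∃ y ∈ F, (t • u, τ t • c.2) ∈ ball y (δ / 4) := fun t ht => by
    have : (t • u, τ t • c.2) ∈ closedBall (0 : ℂ × ℂ) (‖u‖ + ‖c.2‖) := by
      rw [mem_closedBall_zero_iff, Prod.norm_mk, norm_smul, norm_smul, Real.norm_of_nonneg ht.1.1,
        Real.norm_eq_abs]
      exact max_le (by nlinarith [norm_nonneg u, norm_nonneg c.2, ht.1.2])
        (by nlinarith [norm_nonneg u, norm_nonneg c.2, k1 t ht])
    simpa using hcov this
  choose! f f1 f2 using h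
  refine Finite.of_injOn (f := f) f1 (fun s hs' t ht e => by_contra fun hne => ?_) hF
  obtain ⟨a1, a2⟩ := h1.line x u _ (convex_Ico 0 1) ⟨le_rfl, one_pos⟩ hu s hs'.1 t ht.1
  obtain ⟨b1, b2⟩ := h2.sc_line c hc _ _ (k1 s hs') (k1 t ht)
  rw [← k2 s hs'] at b1 b2
  obtain ⟨g, hg, hle⟩ := two h1 h3 (normSeminorm ℝ ℂ) _ _ _ a1 b1 (fun e' => by
    have := congrArg (fun v => det v c.2) e'
    simp only [det_smul_left, det_self, mul_zero, mul_eq_zero, hd, or_false] at this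
    exact hne (sub_eq_zero.1 this).symm) (by rw [a2, b2, k2 t ht])
  have h4 := dist_triangle_right (t • u, τ t • c.2) (s • u, τ s • c.2) (f t)
  have h5 := mem_ball.1 (f2 s hs')
  have h6 := mem_ball.1 (f2 t ht)
  rw [e] at h5
  rw [Prod.dist_eq, max_le_iff, dist_eq_norm (t • u), dist_eq_norm (τ t • c.2), ← sub_smul,
    ← sub_smul] at h4
  simp only [coe_normSeminorm] at hle
  linarith [hs g hg, h4.1, h4.2]

end B4X

theorem b4 (h1 : RB1) (h2 : RB2) (h3 : RB3) : RB4 := fun Y _ T =>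
  ⟨B4X.inj (h1 Y T) (h3 Y T), B4X.two (h1 Y T) (h3 Y T), B4X.cross (h1 Y T) (h2 Y T) (h3 Y T)⟩

end Pool.Agent.MP_16ecd2_an.H18
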