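import Pool.Agent.MP_16ecd2_an.H18.Kit

/-!
Row Br: straight segments given as paths on the unit interval, and the relations `RegX`, `Vis`.
-/

set_option autoImplicit false

namespace Pool.Agent.MP_16ecd2_an.H18

open MeasureTheory Set Filter Topology Metric

namespace BrX

variable {X : Type} [TopologicalSpace X] {S : TSurf X}

/-- The extension of a path by constants. -/
noncomputable def ext (γ : C(unitInterval, X)) (s : ℝ) : X := γ (projIcc 0 1 zero_le_one s)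

theorem ext_cont (γ : C(unitInterval, X)) : Continuous (ext γ) :=
  γ.continuous.comp continuous_projIcc

theorem ext_val (γ : C(unitInterval, X)) (t : unitInterval) : ext γ t = γ t := by
  simp only [ext, projIcc_val]

theorem ext_zero (γ : C(unitInterval, X)) : ext γ 0 = γ 0 := ext_val γ 0

theorem ext_one (γ : C(unitInterval, X)) : ext γ 1 = γ 1 := ext_val γ 1

theorem lin_of {γ : C(unitInterval, X)} {v : ℂ} (h : S.Straight γ v) :
    ∀ t ∈ Ioo (0 : ℝ) 1, S.Lin (ext γ) v t := by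
  intro t ht
  let t' : unitInterval := ⟨t, Ioo_subset_Icc_self ht⟩
  obtain ⟨φ, hφ, hs, he⟩ := h t' ht.1 ht.2
  have e : ext γ t = γ t' := ext_val γ t'
  refine ⟨(ext_cont γ).continuousAt, φ, hφ, e ▸ hs, ?_⟩
  have h1 : Tendsto (projIcc (0 : ℝ) 1 zero_le_one) (𝓝 t) (𝓝 t') :=
    continuous_projIcc.tendsto' t t' (projIcc_val zero_le_one t')
  filter_upwards [h1.eventually he, Ioo_mem_nhds ht.1 ht.2] with s h2 h3
  rw [projIcc_of_mem _ (Ioo_subset_Icc_self h3)] at h2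
  rw [e, ext, projIcc_of_mem _ (Ioo_subset_Icc_self h3)]
  exact h2

theorem straight_of {γ : C(unitInterval, X)} {g : ℝ → X} {v : ℂ}
    (he : ∀ t : unitInterval, t < 1 → γ t = g t) (h : ∀ t ∈ Ioo (0 : ℝ) 1, S.Lin g v t) :
    S.Straight γ v := by
  intro t h0 h1
  obtain ⟨-, φ, hφ, hs, h2⟩ := h t ⟨h0, h1⟩
  refine ⟨φ, hφ, (he t h1).symm ▸ hs, ?_⟩
  filter_upwards [(continuous_subtype_val.tendsto t).eventually h2, Iio_mem_nhds h1] with s h3 h4
  rw [he s h4, he t h1]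
  exact h3

section

variable (a1 : A1 S) (a2 : A2 S) {G : ℝ → X} {v : ℂ} (hG : Continuous G)
  (hL : ∀ t ∈ Ioo (0 : ℝ) 1, S.Lin G v t)

include a1 a2 hG hL in
theorem start (h0 : G 0 ∉ S.Sig) :
    ∃ ε ∈ Ioo (0 : ℝ) 1, ∀ s ∈ Icc 0 ε, S.RegX (G 0) (s • v) (G s) := by
  obtain ⟨φ, hφ, hs⟩ := S.cover _ h0
  have h1 : ∀ᶠ s in 𝓝 (0 : ℝ), G s ∈ φ.source ∧ s < 1 :=
    ((hG.tendsto 0).eventually (φ.open_source.mem_nhds hs)).and (Iio_mem_nhds one_pos)
  obtain ⟨δ, hδ, h2⟩ := Metric.eventually_nhds_iff.1 h1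
  have h3 : ∀ s ∈ Icc 0 (δ / 2), G s ∈ φ.source ∧ s < 1 := fun s hs' =>
    h2 (by rw [Real.dist_eq, sub_zero, abs_of_nonneg hs'.1]; linarith [hs'.2])
  have h4 : ∀ s ∈ Icc 0 (δ / 2), φ (G s) = φ (G 0) + s • v := by
    intro s hs'
    rcases hs'.1.eq_or_lt with rfl | hp
    · simp
    have h5 := a1.aff φ hφ G v (Ioc 0 (δ / 2)) (convex_Ioc _ _) (fun t ht =>
      ⟨hL t ⟨ht.1, (h3 t (Ioc_subset_Icc_self ht)).2⟩, (h3 t (Ioc_subset_Icc_self ht)).1⟩)
      s ⟨hp, hs'.2⟩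
    have h6 : Tendsto (fun t => φ (G s) - φ (G t)) (𝓝[>] 0) (𝓝 (φ (G s) - φ (G 0))) :=
      (tendsto_const_nhds.sub ((φ.continuousAt hs).tendsto.comp (hG.tendsto 0))).mono_left
        nhdsWithin_le_nhds
    have h7 : Tendsto (fun t : ℝ => (s - t) • v) (𝓝[>] 0) (𝓝 (s • v)) :=
      (Continuous.tendsto' (by fun_prop) 0 _ (by simp)).mono_left nhdsWithin_le_nhds
    have h8 := tendsto_nhds_unique_of_eventuallyEq h6 h7
      (mem_of_superset (Ioc_mem_nhdsGT (half_pos hδ)) h5)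
    rw [← h8, add_sub_cancel]
  refine ⟨δ / 2, ⟨half_pos hδ, (h3 _ ⟨(half_pos hδ).le, le_rfl⟩).2⟩, fun s hs' => ?_⟩
  have h9 := a2.inch φ hφ (G 0) hs (s • v) fun t ht => by
    have hm : t * s ∈ Icc 0 (δ / 2) :=
      ⟨mul_nonneg ht.1 hs'.1, (mul_le_of_le_one_left hs'.1 ht.2).trans hs'.2⟩
    rw [smul_smul, ← h4 _ hm]
    exact φ.map_source (h3 _ hm).1
  rwa [← h4 s hs', φ.left_inv (h3 s hs').1] at h9

include a1 a2 hG hL in
theorem intG (h0 : G 0 ∉ S.Sig) : ∀ t ∈ Ico (0 : ℝ) 1, S.RegX (G 0) (t • v) (G t) := by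
  intro t ht
  obtain ⟨ε, hε, h1⟩ := start a1 a2 hG hL h0
  rcases le_or_gt t ε with h | h
  · exact h1 t ⟨ht.1, h⟩
  have hp : 0 < t := hε.1.trans h
  have h2 := a2.sub G v ε t fun s hs => by
    rw [uIcc_of_le h.le] at hs
    exact hL s ⟨hε.1.trans_le hs.1, hs.2.trans_lt ht.2⟩
  refine a2.glue _ _ (G ε) _ (ε / t) ⟨div_nonneg hε.1.le hp.le, (div_le_one hp).2 h.le⟩ ?_ ?_
  · rw [smul_smul, div_mul_cancel₀ _ hp.ne']
    exact h1 ε ⟨hε.1.le, le_rfl⟩
  · rwa [smul_smul, sub_mul, one_mul, div_mul_cancel₀ _ hp.ne']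

include a1 hG hL in
theorem visG (h1 : G 1 ∈ S.Sig) : ∀ t ∈ Ioo (0 : ℝ) 1, S.Vis (G t) ((1 - t) • v) (G 1) := by
  intro t ht
  refine ⟨h1, fun s => G (t + (1 - t) * s), by simp, fun s hs => a1.rep G v t (1 - t) s
    (hL _ ⟨?_, ?_⟩), ?_⟩
  · nlinarith [ht.1, ht.2, hs.1]
  · nlinarith [ht.1, ht.2, hs.2]
  · exact (Continuous.tendsto' (by fun_prop) 1 _ (by simp)).mono_left nhdsWithin_le_nhds

include a1 hL in
theorem revG : ∀ t ∈ Ioo (0 : ℝ) 1, S.Lin (fun s => G (1 - s)) (-v) t := by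
  intro t ht
  have := a1.rep G v 1 (-1) t (hL _ ⟨by linarith [ht.2], by linarith [ht.1]⟩)
  simpa only [neg_mul, one_mul, neg_smul, one_smul, ← sub_eq_add_neg] using this

include a1 a2 hG hL in
theorem vis0 (h0 : G 0 ∉ S.Sig) (h1 : G 1 ∈ S.Sig) : S.Vis (G 0) v (G 1) :=
  a2.vglue _ _ (G (1 / 2)) _ (1 / 2) (by norm_num) (intG a1 a2 hG hL h0 _ (by norm_num))
    (visG a1 hG hL h1 _ (by norm_num))

include a1 a2 hG hL in
theorem reg0 (h0 : G 0 ∉ S.Sig) (h1 : G 1 ∉ S.Sig) : S.RegX (G 0) v (G 1) := by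
  refine a2.glue _ _ (G (1 / 2)) _ (1 / 2) (by norm_num)
    (intG a1 a2 hG hL h0 _ (by norm_num)) ?_
  have h2 := a2.back _ _ _ (intG a1 a2 (G := fun s => G (1 - s)) (by fun_prop) (revG a1 hL)
    (by simpa using h1) (1 / 2) (by norm_num))
  have e : (1 : ℝ) - 1 / 2 = 1 / 2 := by norm_num
  simpa only [e, sub_zero, smul_neg, neg_neg] using h2

end

theorem seg_of_vis {q σ : X} {v : ℂ} (h : S.Vis q v σ) : ∃ γ, (γ, v) ∈ S.Seg q σ := by
  classical
  obtain ⟨-, g, h0, hl, ht⟩ := h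
  have hc : ContinuousOn (Function.update g 1 σ) (Icc 0 1) := by
    intro t ht'
    rcases ht'.2.eq_or_lt with rfl | h1
    · exact continuousWithinAt_update_same.2
        (ht.mono_left (nhdsWithin_mono _ fun s hs => lt_of_le_of_ne hs.1.2 hs.2))
    · exact ((continuousAt_update_of_ne h1.ne).2 (hl t ⟨ht'.1, h1⟩).1).continuousWithinAt
  refine ⟨⟨_, hc.domRestrict⟩, straight_of (g := g) (fun t h1 => ?_)
    fun t ht' => hl t (Ioo_subset_Ico_self ht'), ?_, ?_⟩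
  · exact Function.update_of_ne (show (t : ℝ) < 1 from h1).ne _ _
  · exact (Function.update_of_ne zero_ne_one _ _).trans h0
  · exact Function.update_self _ _ _

end BrX

open BrX in
theorem br (h1 : RA1) (h2 : RA2) : RBr := by
  intro X _ _ S
  have a1 := h1 X S
  have a2 := h2 X S
  have int : ∀ q (γ : C(unitInterval, X)) v, q ∉ S.Sig → S.Straight γ v → γ 0 = q →
      ∀ t : unitInterval, t < 1 → S.RegX q ((t : ℝ) • v) (γ t) := by
    rintro _ γ v hq h rfl t ht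
    have := intG a1 a2 (ext_cont γ) (lin_of h) (by rwa [ext_zero]) t ⟨t.2.1, ht⟩
    rwa [ext_zero, ext_val] at this
  have vis : ∀ q σ, q ∉ S.Sig → σ ∈ S.Sig → ∀ c ∈ S.Seg q σ, S.Vis q c.2 σ := by
    rintro _ _ hq hσ c ⟨h, rfl, rfl⟩
    have := vis0 a1 a2 (ext_cont c.1) (lin_of h) (by rwa [ext_zero]) (by rwa [ext_one])
    rwa [ext_zero, ext_one] at this
  refine ⟨int, ?_, ?_, ?_, ?_, ?_⟩
  · intro q p hq c hc c' hc' e
    refine Prod.ext (ContinuousMap.ext fun t => ?_) e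
    rcases (unitInterval.le_one' (t := t)).eq_or_lt with rfl | ht
    · rw [hc.2.2, hc'.2.2]
    · rw [← a2.exq _ _ _ (int q _ _ hq hc.1 hc.2.1 t ht),
        ← a2.exq _ _ _ (int q _ _ hq hc'.1 hc'.2.1 t ht), e]
  · intro q σ hq hσ
    refine Subset.antisymm ?_ fun v hv => ?_
    · rintro _ ⟨c, hc, rfl⟩
      exact vis q σ hq hσ c hc
    · obtain ⟨γ, hγ⟩ := seg_of_vis hv
      exact ⟨_, hγ, rfl⟩
  · rintro _ _ hq hp c ⟨h, rfl, rfl⟩
    have := reg0 a1 a2 (ext_cont c.1) (lin_of h) (by rwa [ext_zero]) (by rwa [ext_one])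
    rwa [ext_zero, ext_one] at this
  · intro q σ hq hσ c hc
    have hv := vis q σ hq hσ c hc
    refine ⟨(a2.vis_nsig _ _ _ hv).2, fun t t0 t1 e => ?_⟩
    have h3 := visG a1 (ext_cont c.1) (lin_of hc.1) (by rwa [ext_one, hc.2.2]) t ⟨t0, t1⟩
    rw [ext_val, e] at h3
    obtain ⟨y, hy, -⟩ := a2.vsplit _ _ _ hv (1 - t)
      ⟨sub_nonneg.2 t.2.2, sub_lt_self _ (show (0 : ℝ) < t from t0)⟩
    exact a2.vis_reg _ _ _ _ h3 hy
  · rintro c ⟨-, h, c0, c1, -⟩ m hm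
    have e : (1 : ℝ) - 1 / 2 = 1 / 2 := by norm_num
    have em : ext c.1 (1 / 2) = c.1 m := by rw [← hm, ext_val]
    refine ⟨?_, ?_, fun t t0 t1 => ?_⟩
    · have := visG a1 (ext_cont c.1) (lin_of h) (by rwa [ext_one]) (1 / 2) (by norm_num)
      rwa [e, em, ext_one] at this
    · have := visG a1 (G := fun s => ext c.1 (1 - s)) ((ext_cont c.1).comp (by fun_prop))
        (revG a1 (lin_of h)) (by simpa only [sub_self, ext_zero] using Finset.mem_coe.1 c0) (1 / 2)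
        (by norm_num)
      simpa only [e, em, sub_self, ext_zero, smul_neg] using this
    · have := a2.sub (ext c.1) c.2 (1 / 2) t fun s hs => lin_of h s
        (ordConnected_Ioo.uIcc_subset (x := (1 / 2 : ℝ)) (y := t) (by norm_num) ⟨t0, t1⟩ hs)
      rwa [em, ext_val] at this

end Pool.Agent.MP_16ecd2_an.H18
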