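import Pool.Agent.MP_16ecd2_an.H18.Kit

/-!
A bound for the number of pairwise disjoint saddle connections.
-/

set_option autoImplicit false

namespace Pool.Agent.MP_16ecd2_an.H18

open MeasureTheory Set Filter Topology Metric

namespace CardX

def sg : Bool → ℝ
  | true => 1
  | false => -1

/-- The three vertices. -/
def vx : Option Bool → ℂ → ℂ → ℂ
  | none, _, c => c
  | some true, v, _ => v
  | some false, v, _ => -v

/-- After matching the vertices `V` and `V'`, the first base meets the second base or the second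
open triangle. -/
def Pm (V v V' v' c' : ℂ) : Prop :=
  ∃ (g : ℂ) (t : ℝ), |t| < 1 ∧ V + g = t • v ∧
    (V' + g ∈ itri v' c' ∨ ∃ t' : ℝ, |t'| < 1 ∧ V' + g = t' • v')

theorem Pm.neg (hk : TK0) {V v V' v' c' : ℂ} (h : Pm V (-v) V' (-v') c') : Pm V v V' v' c' := by
  obtain ⟨g, t, h1, h2, h3⟩ := h
  refine ⟨g, -t, by rwa [abs_neg], by rw [h2, smul_neg, neg_smul], h3.imp (fun h => by rwa [hk.ineg] at h) ?_⟩
  rintro ⟨t', h4, h5⟩
  exact ⟨-t', by rwa [abs_neg], by rw [h5, smul_neg, neg_smul]⟩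

theorem mk_or {v c u : ℂ} {a γ : ℝ} (h0 : 0 ≤ γ) (h1 : |a| + γ < 1) (e : u = a • v + γ • c) :
    u ∈ itri v c ∨ ∃ t : ℝ, |t| < 1 ∧ u = t • v := by
  rcases h0.eq_or_lt with rfl | h
  · exact .inr ⟨a, by simpa using h1, by simpa using e⟩
  · exact .inl ⟨a, γ, h, h1, e⟩

theorem meet_c1 {v c v' c' p : ℂ} {a γ a' γ' : ℝ} (h1 : |a| + γ < 1) (h2 : |a'| + γ' < 1)
    (e : c + p = a • v + γ • c) (e' : c' + p = a' • v' + γ' • c') (h : γ ≤ γ') :
    Pm c v c' v' c' := by
  have h3 : 0 < 1 - γ := by linarith [abs_nonneg a]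
  obtain ⟨l, hl, h4⟩ : ∃ l : ℝ, 0 < l ∧ l * (1 - γ) = 1 :=
    ⟨_, inv_pos.2 h3, inv_mul_cancel₀ h3.ne'⟩
  refine ⟨l • p, l * a, ?_, ?_, mk_or (a := l * a') (γ := 1 - l * (1 - γ')) ?_ ?_ ?_⟩
  · rw [abs_mul, abs_of_pos hl]
    nlinarith
  · have : (1 : ℝ) • c = (l * (1 - γ)) • c := by rw [h4]
    linear_combination (norm := module) l • e + this
  · nlinarith
  · rw [abs_mul, abs_of_pos hl]
    nlinarith
  · linear_combination (norm := module) l • e'

theorem meet_v1 {w w' c' p : ℂ} (h : w' + p ∈ itri w' c') (h1 : 0 < det w p * det w' p)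
    (h2 : 0 ≤ det w w' * det w' p) : Pm w w w' w' c' := by
  obtain ⟨a, γ, h3, h4, e⟩ := h
  have h5 : det w' p ≠ 0 := fun h => by simp [h] at h1
  have h6 := mul_self_pos.2 h5
  obtain ⟨α, β, hα, hβ, e'⟩ : ∃ α β : ℝ, 0 ≤ α ∧ 0 < β ∧ w = β • w' - α • p := by
    refine ⟨det w w' / det w' p, det w p / det w' p, ?_, ?_, ?_⟩
    · rw [← mul_div_mul_right _ _ h5]
      exact div_nonneg h2 h6.le
    · rw [← mul_div_mul_right _ _ h5]
      exact div_pos h1 h6
    · have := coord h5 w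
      rw [det_comm w' w, neg_div, neg_smul] at this
      rw [sub_eq_add_neg]
      exact this
  have ha := le_abs_self a
  have h7 : 0 ≤ α * (1 - a - γ) := mul_nonneg hα (by linarith)
  have h8 : 0 ≤ α * γ := mul_nonneg hα h3.le
  have hK : 0 < α * (1 - a) + β := by nlinarith
  obtain ⟨ε, hε, h9⟩ : ∃ ε : ℝ, 0 < ε ∧ ε * (α * (1 - a) + β + 1) = 1 :=
    ⟨_, inv_pos.2 (by linarith), inv_mul_cancel₀ (by linarith)⟩
  have h10 := mul_pos hε hK
  refine ⟨-(ε • w), 1 - ε, abs_lt.2 ⟨by nlinarith, by linarith⟩, by module,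
    mk_or (a := 1 - ε * (α * (1 - a) + β)) (γ := ε * (α * γ)) (by positivity) ?_ ?_⟩
  · rw [abs_of_nonneg (by nlinarith)]
    nlinarith [mul_nonneg hε.le h7, mul_pos hε hβ]
  · linear_combination (norm := module) (ε * α) • e - ε • e'

theorem det_in {w c p : ℂ} (h : w + p ∈ itri w c) : ∃ γ : ℝ, 0 < γ ∧ det w p = γ * det w c := by
  obtain ⟨a, γ, h1, -, e⟩ := h
  have := congrArg (det w) e
  simp only [det_add_right, det_smul_right, det_self, mul_zero, zero_add] at this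
  exact ⟨γ, h1, this⟩

theorem meet_v {w c w' c' p : ℂ} (h : w + p ∈ itri w c) (h' : w' + p ∈ itri w' c')
    (hd : 0 < det w c * det w' c') : Pm w w w' w' c' ∨ Pm w' w' w w c := by
  obtain ⟨γ, h1, e⟩ := det_in h
  obtain ⟨γ', h2, e'⟩ := det_in h'
  have h3 : 0 < det w p * det w' p := by
    rw [e, e', mul_mul_mul_comm]
    positivity
  by_cases h4 : 0 ≤ det w w' * det w' p
  · exact .inl (meet_v1 h' h3 h4)
  · refine .inr (meet_v1 h (by rwa [mul_comm]) ?_)
    rw [det_comm w' w]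
    by_contra h5
    have := mul_pos_of_neg_of_neg (not_le.1 h4) (not_le.1 h5)
    nlinarith [mul_nonneg (mul_self_nonneg (det w w')) h3.le]

theorem meet (hk : TK0) {v c v' c' p : ℂ} (o : Option Bool) (h : vx o v c + p ∈ itri v c)
    (h' : vx o v' c' + p ∈ itri v' c') (hd : 0 < det v c * det v' c') :
    Pm (vx o v c) v (vx o v' c') v' c' ∨ Pm (vx o v' c') v' (vx o v c) v c := by
  rcases o with _ | _ | _
  · obtain ⟨a, γ, -, h1, e⟩ := h
    obtain ⟨a', γ', -, h2, e'⟩ := h'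
    exact (le_total γ γ').imp (meet_c1 h1 h2 e e') (meet_c1 h2 h1 e' e)
  · rw [← hk.ineg] at h h'
    exact (meet_v h h' (by simpa [det_neg_left] using hd)).imp (Pm.neg hk) (Pm.neg hk)
  · exact meet_v h h' hd

theorem small (K : ℝ) : ∀ᶠ η in 𝓝[>] (0 : ℝ), 0 < η ∧ η * K < 1 := by
  have h : ∀ᶠ η in 𝓝 (0 : ℝ), η * K < 1 :=
    (by fun_prop : Continuous fun η : ℝ => η * K).continuousAt.eventually_lt continuousAt_const
      (by simp)
  exact eventually_mem_nhdsWithin.and (h.filter_mono nhdsWithin_le_nhds)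

theorem enter1 (v c : ℂ) {A B : ℝ} (hB : 0 < B) (h : |A| ≠ B) : ∃ k : Bool × Option Bool,
    ∀ᶠ η in 𝓝[>] (0 : ℝ), vx k.2 v c + (sg k.1 * η) • (A • v + B • c) ∈ itri v c := by
  rcases lt_or_gt_of_ne h with h | h
  · refine ⟨(false, none), (small B).mono fun η ⟨h1, h2⟩ =>
      ⟨-(η * A), 1 - η * B, by linarith, ?_, by simp only [vx, sg]; module⟩⟩
    rw [abs_neg, abs_mul, abs_of_pos h1]
    nlinarith
  · rcases le_total 0 A with hA | hA
    · rw [abs_of_nonneg hA] at h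
      refine ⟨(true, some false), (small A).mono fun η ⟨h1, h2⟩ =>
        ⟨η * A - 1, η * B, by positivity, ?_, by simp only [vx, sg]; module⟩⟩
      rw [abs_of_neg (by linarith)]
      nlinarith
    · rw [abs_of_nonpos hA] at h
      refine ⟨(true, some true), (small (-A)).mono fun η ⟨h1, h2⟩ =>
        ⟨1 + η * A, η * B, by positivity, ?_, by simp only [vx, sg]; module⟩⟩
      rw [abs_of_pos (by linarith)]
      nlinarith

theorem enter {v c d : ℂ} (h : det v c ≠ 0) (h1 : det v d ≠ 0) (h2 : det (c - v) d ≠ 0)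
    (h3 : det (c + v) d ≠ 0) : ∃ k : Bool × Option Bool,
    ∀ᶠ η in 𝓝[>] (0 : ℝ), vx k.2 v c + (sg k.1 * η) • d ∈ itri v c := by
  obtain ⟨A, B, rfl⟩ : ∃ A B : ℝ, d = A • v + B • c := ⟨_, _, coord h d⟩
  simp only [det_add_right, det_add_left, det_sub_left, det_smul_right, det_self,
    det_comm c v] at h1 h2 h3
  have hB : B ≠ 0 := fun e => h1 (by simp [e])
  have hA : |A| ≠ |B| := fun e => by
    rcases abs_eq_abs.1 e with e | e
    · exact h3 (by rw [e]; ring)
    · exact h2 (by rw [e]; ring)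
  rcases lt_or_gt_of_ne hB with h4 | h4
  · obtain ⟨k, hk⟩ := enter1 v c (A := -A) (neg_pos.2 h4) (by rwa [abs_neg, ← abs_of_neg h4])
    refine ⟨(!k.1, k.2), hk.mono fun η hη => ?_⟩
    have : (sg (!k.1) * η) • (A • v + B • c) = (sg k.1 * η) • ((-A) • v + (-B) • c) := by
      cases k.1 <;> simp only [sg, Bool.not_true, Bool.not_false] <;> module
    rwa [this]
  · exact enter1 v c h4 (by rwa [← abs_of_pos h4])

theorem generic {F : Set ℂ} (hF : F.Finite) : ∃ d : ℂ, ∀ w ∈ F, w ≠ 0 → det w d ≠ 0 := by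
  obtain ⟨s, hs⟩ := (hF.image fun w => w.re / w.im).exists_notMem
  refine ⟨⟨s, 1⟩, fun w hw h0 e => ?_⟩
  simp only [det, mul_one] at e
  by_cases h : w.im = 0
  · exact h0 (Complex.ext (by simpa [h] using e) h)
  · exact hs ⟨w, hw, by rw [div_eq_iff h]; linarith⟩

theorem comb {v c u : ℂ} (hu : u ∈ itri v c) {α β : ℝ} (h1 : 0 ≤ α) (h2 : 0 ≤ β)
    (h3 : α + β ≤ 1) (h4 : β < 1) : α • u + β • v ∈ tri v c ∧ α • u + β • c ∈ tri v c := by
  obtain ⟨a, γ, hγ, h5, rfl⟩ := hu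
  have h6 := mul_nonneg h1 hγ.le
  have h7 := mul_nonneg h1 (abs_nonneg a)
  have h8 : α * |a| + α * γ + β < 1 := by
    rcases h1.eq_or_lt with rfl | h
    · simpa using h4
    · nlinarith
  have h9 : |α * a| = α * |a| := by rw [abs_mul, abs_of_nonneg h1]
  have h10 : |α * a + β| ≤ α * |a| + β := by
    refine (abs_add_le _ _).trans ?_
    rw [h9, abs_of_nonneg h2]
  exact ⟨⟨α * a + β, α * γ, h6, by linarith, by linarith, by linarith, by module⟩,
    ⟨α * a, α * γ + β, by linarith, by linarith, by linarith, by linarith, by module⟩⟩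

variable {Y : Type} [MeasurableSpace Y] {T : TS Y}

theorem prong (hk : TK0) (hb : Base T) {x : Y} {v c p : ℂ} (h : (x, v) ∈ T.SC) (ht : T.Tri x v c)
    (o : Option Bool) (hu : vx o v c + p ∈ itri v c) : -p ∈ T.S (T.ex x (vx o v c + p)) := by
  have h1 : vx o v c ∈ T.S x := by
    rcases o with _ | _ | _
    exacts [ht.1, h.2, h.1]
  have := hb.tr x (vx o v c + p) _ h1 fun α β a1 a2 a3 a4 => disjoint_left.1 ht.2.2 (by
    rcases o with _ | _ | _
    · exact (comb hu a1 a2 a3 a4).2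
    · exact hk.neg v c ▸ (comb (hk.ineg v c ▸ hu) a1 a2 a3 a4).1
    · exact (comb hu a1 a2 a3 a4).1)
  rwa [sub_add_cancel_left] at this

theorem key (hk : TK0) {W : Set (Y × ℂ)} (hW : T.PW W) {e e' : Y × ℂ} {c c' V V' p : ℂ}
    (he : e ∈ W) (he' : e' ∈ W) (ht : T.Tri e.1 e.2 c) (ht' : T.Tri e'.1 e'.2 c')
    (hf : T.WFree W e'.1 e'.2 c') (hu : V + p ∈ itri e.2 c) (hu' : V' + p ∈ itri e'.2 c')
    (hz : T.ex e.1 (V + p) = T.ex e'.1 (V' + p)) (h : Pm V e.2 V' e'.2 c') : e = e' := by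
  obtain ⟨g, t, h1, h2, h3⟩ := h
  have hb : ∀ (v c u : ℂ) (t : ℝ), |t| < 1 → u = t • v → u ∈ tri v c := fun v c u t a b =>
    ⟨t, 0, le_rfl, by linarith, a, one_pos, by simpa using b⟩
  have dv : ∀ (x : Y) (v c V : ℂ), T.Tri x v c → V + p ∈ itri v c → V + g ∈ tri v c →
      T.ex (T.ex x (V + p)) (g - p) = T.ex x (V + g) := fun x v c V a b d => by
    have e1 : V + p + (g - p) = V + g := by ring
    rw [← e1] at d ⊢
    exact (T.cons x _ (hk.conv v c) (hk.zero v c) a.2.2 _ (hk.sub v c b) _ d).2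
  have h4 : V' + g ∈ tri e'.2 c' := h3.elim (hk.sub _ _ ·) fun ⟨t', a, b⟩ => hb _ _ _ t' a b
  have h5 : T.ex e'.1 (V' + g) ∈ T.pts e := by
    rw [← dv _ _ _ _ ht' hu' h4, ← hz, dv _ _ _ _ ht hu (hb _ _ _ t h1 h2), h2]
    exact ⟨t, h1, rfl⟩
  rcases h3 with h3 | ⟨t', a, b⟩
  · exact absurd h5 (hf _ h3 e he)
  · by_contra hne
    exact disjoint_left.1 (hW.2 he he' hne) h5 ⟨t', a, by rw [b]⟩

theorem upper (hb : Base T) (x : Y) {v : ℂ} (hv : v ≠ 0) : ∃ d ∈ T.S x, 0 < det v d := by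
  obtain ⟨R, hR, h⟩ := hb.half
  by_contra hn
  push Not at hn
  have hp := norm_pos_iff.2 hv
  refine h x (insert 0 {u | 0 < det v u}) ((2 * R / ‖v‖ + 1) • (Complex.I * v)) ?_
    (mem_insert _ _) ?_ fun w hw => .inr ?_
  · rintro a ha b hb s t hs ht hst
    rcases hs.eq_or_lt with rfl | hs
    · obtain rfl : t = 1 := by linarith
      simpa using hb
    rcases ht.eq_or_lt with rfl | ht
    · obtain rfl : s = 1 := by linarith
      simpa using ha
    rcases ha with rfl | ha <;> rcases hb with rfl | hb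
    · simp
    all_goals
      refine .inr ?_
      simp only [mem_ofPred_eq, smul_zero, zero_add, add_zero, det_add_right,
        det_smul_right] at *
      positivity
  · rw [disjoint_left]
    rintro a (rfl | ha) h1
    · exact hb.zero x h1
    · exact absurd ha (not_lt.2 (hn a h1))
  · rw [mem_closedBall, dist_eq_norm] at hw
    obtain ⟨q, rfl⟩ : ∃ q, w = (2 * R / ‖v‖ + 1) • (Complex.I * v) + q :=
      ⟨_, (add_sub_cancel _ _).symm⟩
    rw [add_sub_cancel_left] at hw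
    have e1 : det v (Complex.I * v) = ‖v‖ ^ 2 := by
      rw [← Complex.normSq_eq_norm_sq, Complex.normSq_apply]
      simp [det]
    have e2 : (2 * R / ‖v‖ + 1) * ‖v‖ ^ 2 = 2 * (‖v‖ * R) + ‖v‖ ^ 2 := by field_simp
    have b1 : |v.re * q.im| ≤ ‖v‖ * R := by
      rw [abs_mul]
      exact mul_le_mul (Complex.abs_re_le_norm v) ((Complex.abs_im_le_norm q).trans hw)
        (abs_nonneg _) hp.le
    have b2 : |v.im * q.re| ≤ ‖v‖ * R := by
      rw [abs_mul]
      exact mul_le_mul (Complex.abs_im_le_norm v) ((Complex.abs_re_le_norm q).trans hw)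
        (abs_nonneg _) hp.le
    rw [mem_ofPred_eq, det_add_right, det_smul_right, e1, e2, det]
    linarith [(abs_le.1 b1).1, (abs_le.1 b2).2, pow_pos hp 2]

end CardX

open CardX in
theorem card (hb : RB) (hk : RTK) (ht : RTL) : RCard := by
  classical
  intro Y _ T
  have hB := hb Y T
  refine ⟨6 * (T.n + T.n), fun W hW => ?_⟩
  have h1 : ∀ e : W, ∃ c, T.Tri e.1.1 e.1.2 c ∧ T.WFree W e.1.1 e.1.2 c ∧ 0 < det e.1.2 c := by
    intro e
    obtain ⟨d, hd, h0⟩ := upper hB e.1.1 (hB.sc_ne _ (hW.1 e.2))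
    obtain ⟨c, a1, a2, a3, -⟩ := ht Y T W W.finite_toSet hW e.1.1 e.1.2 e.2 0 (by simp) d
      (by rwa [zero_smul, T.ex0]) h0.ne'
    exact ⟨c, a1, a2, (mul_pos_iff_of_pos_right h0).1 a3⟩
  choose c c1 c2 c3 using h1
  obtain ⟨d, hd⟩ := generic (((finite_range fun e : W => e.1.2).union
    (finite_range fun e : W => c e - e.1.2)).union (finite_range fun e : W => c e + e.1.2))
  have h2 : ∀ e : W, ∃ k : Bool × Option Bool, ∀ᶠ η in 𝓝[>] (0 : ℝ),
      vx k.2 e.1.2 (c e) + (sg k.1 * η) • d ∈ itri e.1.2 (c e) := fun e => by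
    refine enter (c3 e).ne' (hd _ (.inl (.inl ⟨e, rfl⟩)) (hB.sc_ne _ (hW.1 e.2)))
      (hd _ (.inl (.inr ⟨e, rfl⟩)) fun h => (c3 e).ne' ?_)
      (hd _ (.inr ⟨e, rfl⟩) fun h => (c3 e).ne' ?_)
    · rw [sub_eq_zero.1 h, det_self]
    · rw [eq_neg_of_add_eq_zero_left h, det_neg_right, det_self, neg_zero]
  choose k hk' using h2
  obtain ⟨η, hη⟩ := (eventually_all.2 hk').exists
  let Z : Bool → Finset Y := fun b => (T.prong (-((sg b * η) • d))).1.toFinset
  have hZ : ∀ b, (Z b).card ≤ T.n := fun b => by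
    rw [← ncard_eq_toFinset_card _ (T.prong _).1]
    exact (T.prong _).2
  let f : W → (Bool × Option Bool) × Y := fun e =>
    (k e, T.ex e.1.1 (vx (k e).2 e.1.2 (c e) + (sg (k e).1 * η) • d))
  have h3 : (Finset.univ : Finset W).card ≤
      ((Finset.univ : Finset (Bool × Option Bool)) ×ˢ (Z true ∪ Z false)).card := by
    refine Finset.card_le_card_of_injOn f (fun e _ => ?_) fun e _ e' _ h => ?_
    · have : (f e).2 ∈ Z (k e).1 :=
        (Finite.mem_toFinset _).2 (prong hk.1 hB (hW.1 e.2) (c1 e) _ (hη e))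
      refine Finset.mem_coe.2 (Finset.mem_product.2 ⟨Finset.mem_univ _, Finset.mem_union.2 ?_⟩)
      revert this
      cases (k e).1
      exacts [.inr, .inl]
    · obtain ⟨a1, a2⟩ := Prod.ext_iff.1 h
      have a3 := hη e'
      simp only [f] at a1 a2
      rw [← a1] at a2 a3
      refine Subtype.ext ((meet hk.1 _ (hη e) a3 (mul_pos (c3 e) (c3 e'))).elim (fun m => ?_)
        fun m => Eq.symm ?_)
      · exact key hk.1 hW e.2 e'.2 (c1 e) (c1 e') (c2 e') (hη e) a3 a2 m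
      · exact key hk.1 hW e'.2 e.2 (c1 e') (c1 e) (c2 e) a3 (hη e) a2.symm m
  rw [Finset.card_univ, Fintype.card_coe, Finset.card_product, Finset.card_univ] at h3
  refine h3.trans (Nat.mul_le_mul (by simp) ((Finset.card_union_le _ _).trans ?_))
  exact add_le_add (hZ _) (hZ _)

end Pool.Agent.MP_16ecd2_an.H18
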