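import Pool.Agent.MP_16ecd2_an.H18.Kit

/-!
A saddle connection that cannot cross two sides of a free triangle misses its interior.
-/

set_option autoImplicit false

namespace Pool.Agent.MP_16ecd2_an.H18

open MeasureTheory Set Filter Topology Metric

namespace ChordX

theorem conv (P Z : ℂ) :
    Convex ℝ {u : ℂ | ∃ b g : ℝ, 0 ≤ b ∧ 0 ≤ g ∧ b + g < 1 ∧ u = b • P + g • Z} := by
  rintro _ ⟨b, g, hb, hg, h, rfl⟩ _ ⟨b', g', hb', hg', h', rfl⟩ s t hs ht hst
  refine ⟨s * b + t * b', s * g + t * g', by positivity, by positivity, ?_, by module⟩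
  rcases hs.eq_or_lt with rfl | hs'
  · rw [zero_add] at hst; subst hst; linarith
  · nlinarith [mul_pos hs' (sub_pos.2 h), mul_nonneg ht (sub_pos.2 h').le]

theorem core (hb : RB) (Y : Type) [MeasurableSpace Y] (T : TS Y) (y : Y) (P Z : ℂ)
    (hd : det P Z ≠ 0) (f : Y × ℂ) (hf : f ∈ T.SC) (p q : ℝ) (e : f.2 = p • P + q • Z)
    (hpq : p + q ≤ 0)
    (hC : ∀ β γ : ℝ, 0 ≤ β → 0 ≤ γ → β + γ < 1 → β • P + γ • Z ∉ T.S y)
    (h1 : ∀ β ∈ Ico (0 : ℝ) 1, T.ex y (β • P) ∈ T.pts f →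
      det P f.2 = 0 ∨ (β = 0 ∧ det Z f.2 = 0))
    (h2 : ∀ γ ∈ Ioo (0 : ℝ) 1, T.ex y (γ • Z) ∈ T.pts f → det Z f.2 = 0)
    (β γ : ℝ) (hβ : 0 < β) (hγ : 0 < γ) (hs : β + γ < 1) :
    T.ex y (β • P + γ • Z) ∉ T.pts f := by
  intro hz
  have B := hb Y T
  have dP : det P f.2 = q * det P Z := by
    rw [e, det_add_right, det_smul_right, det_smul_right, det_self]; ring
  have dZ : det Z f.2 = -p * det P Z := by
    rw [e, det_add_right, det_smul_right, det_smul_right, det_self, det_comm Z P]; ring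
  have run : ∀ t : ℝ, 0 ≤ t → 0 ≤ β + t * p → 0 ≤ γ + t * q →
      β + t * p + (γ + t * q) < 1 ∧
        T.ex y ((β + t * p) • P + (γ + t * q) • Z) ∈ T.pts f := by
    intro t ht a1 a2
    have a3 : β + t * p + (γ + t * q) < 1 := by nlinarith [mul_nonneg ht (neg_nonneg.2 hpq)]
    have e' : β • P + γ • Z + t • f.2 = (β + t * p) • P + (γ + t * q) • Z := by rw [e]; module
    have c0 : (0 : ℂ) ∈ {u : ℂ | ∃ b g : ℝ, 0 ≤ b ∧ 0 ≤ g ∧ b + g < 1 ∧ u = b • P + g • Z} :=
      ⟨0, 0, le_rfl, le_rfl, by norm_num, by simp⟩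
    have cd : Disjoint {u : ℂ | ∃ b g : ℝ, 0 ≤ b ∧ 0 ≤ g ∧ b + g < 1 ∧ u = b • P + g • Z}
        (T.S y) := by
      rw [Set.disjoint_left]
      rintro _ ⟨b, g, hb, hg, h, rfl⟩
      exact hC b g hb hg h
    have r := B.reg y _ (conv P Z) c0 cd _ ⟨β, γ, hβ.le, hγ.le, hs, rfl⟩ (t • f.2)
      ⟨_, _, a1, a2, a3, e'⟩
    have x := (T.cons y _ (conv P Z) c0 cd _ ⟨β, γ, hβ.le, hγ.le, hs, rfl⟩ (t • f.2)
      ⟨_, _, a1, a2, a3, e'⟩).2
    refine ⟨a3, ?_⟩
    rw [← e', ← x]
    exact B.sc_run f hf _ hz t r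
  by_cases hA : p < 0 ∧ 0 < γ + β / -p * q
  · obtain ⟨hp, hg⟩ := hA
    have z : β + β / -p * p = 0 := by field_simp [hp.ne]; ring
    obtain ⟨a3, a4⟩ := run (β / -p) (div_pos hβ (neg_pos.2 hp)).le z.ge hg.le
    rw [z, zero_smul, zero_add] at a4
    rw [z, zero_add] at a3
    have := h2 _ ⟨hg, a3⟩ a4
    rw [dZ] at this
    exact mul_ne_zero (neg_pos.2 hp).ne' hd this
  · have hq : q < 0 := by
      by_contra hq
      push Not at hq
      have hp : p < 0 := by
        rcases (show p ≤ 0 by linarith).eq_or_lt with rfl | hp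
        · have : q = 0 := by linarith
          subst this
          exact absurd (by rw [e]; simp) (B.sc_ne f hf)
        · exact hp
      exact hA ⟨hp, add_pos_of_pos_of_nonneg hγ
        (mul_nonneg (div_pos hβ (neg_pos.2 hp)).le hq)⟩
    have ht : 0 < γ / -q := div_pos hγ (neg_pos.2 hq)
    have z : γ + γ / -q * q = 0 := by field_simp [hq.ne]; ring
    have hb0 : 0 ≤ β + γ / -q * p := by
      rcases lt_or_ge p 0 with hp | hp
      · have h3 : γ + β / -p * q ≤ 0 := not_lt.1 fun h => hA ⟨hp, h⟩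
        have h4 : β / -p * -p = β := div_mul_cancel₀ _ (neg_pos.2 hp).ne'
        have h5 : γ / -q * -q = γ := div_mul_cancel₀ _ (neg_pos.2 hq).ne'
        have h6 : γ / -q ≤ β / -p := by
          by_contra h
          push Not at h
          nlinarith
        nlinarith
      · positivity
    obtain ⟨a3, a4⟩ := run (γ / -q) ht.le hb0 z.ge
    rw [z, zero_smul, add_zero] at a4
    rw [z, add_zero] at a3
    rcases h1 _ ⟨hb0, a3⟩ a4 with h | ⟨h, h'⟩
    · rw [dP] at h
      exact mul_ne_zero hq.ne hd h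
    · rw [dZ] at h'
      have : p = 0 := by simpa [hd] using h'
      subst this
      linarith

end ChordX

theorem chord (hb : RB) : RChord := by
  intro Y _ T y P Z hd f hf hC h1 h2 β γ hβ hγ hs
  have B := hb Y T
  have e := coord hd f.2
  rcases le_total (det f.2 Z / det P Z + det P f.2 / det P Z) 0 with h | h
  · exact ChordX.core hb Y T y P Z hd f hf _ _ e h hC h1 h2 β γ hβ hγ hs
  · rw [← B.pts_opp f]
    refine ChordX.core hb Y T y P Z hd (opp f) (B.sc_opp f hf) (-(det f.2 Z / det P Z))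
      (-(det P f.2 / det P Z)) ?_ (by linarith) hC ?_ ?_ β γ hβ hγ hs
    · show -f.2 = _
      rw [neg_smul, neg_smul, ← neg_add, ← e]
    · intro b hb' hz
      rw [B.pts_opp] at hz
      simpa only [opp, det_neg_right, neg_eq_zero] using h1 b hb' hz
    · intro g hg hz
      rw [B.pts_opp] at hz
      simpa only [opp, det_neg_right, neg_eq_zero] using h2 g hg hz

end Pool.Agent.MP_16ecd2_an.H18
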