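import Pool.Agent.MP_16ecd2_an.H18.Kit

/-!
The contraction step for the discrepancy of the vertical flow.
-/

set_option autoImplicit false

namespace Pool.Agent.MP_16ecd2_an.H18

open MeasureTheory Set Filter Topology Metric
open scoped ENNReal

namespace ContrX

variable {Y : Type} [MeasurableSpace Y]

theorem seq (A : Set ℕ) (hA : A.Finite) (m : ℕ) (hm : m ≤ A.ncard) :
    ∃ j : ℕ → ℕ, (∀ k, 1 ≤ k → k ≤ m → j k ∈ A) ∧ ∀ k, 1 ≤ k → k < m → j (k + 1) < j k := by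
  have hf : {n | n ∈ A}.Finite := hA
  have hc : m ≤ hf.toFinset.card := by
    rw [← Set.ncard_eq_toFinset_card _ hf]; exact hm
  refine ⟨fun k => Nat.nth (fun n => n ∈ A) (m - k), fun k h1 h2 => ?_, fun k h1 h2 => ?_⟩
  · exact Nat.nth_mem_of_lt_card hf (lt_of_lt_of_le (by omega) hc)
  · exact Nat.nth_lt_nth_of_lt_card hf (by omega) (lt_of_lt_of_le (by omega) hc)

theorem free {T : TS Y} {x : Y} {t : ℝ} (ht : 0 < t) (hx : T.Reg x (t • Complex.I)) :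
    ∀ s ∈ Icc (0 : ℝ) t, s • Complex.I ∉ T.S x := by
  intro s hs
  have := hx (s / t) ⟨div_nonneg hs.1 ht.le, (div_le_one ht).2 hs.2⟩
  rwa [smul_smul, div_mul_cancel₀ _ ht.ne'] at this

theorem reg_sub {T : TS Y} (hb : B1 T) {x : Y} {t : ℝ} (ht : 0 < t)
    (hx : T.Reg x (t • Complex.I)) {a b : ℝ} (ha : 0 ≤ a) (hb' : 0 ≤ b) (hab : a + b ≤ t) :
    T.Reg (T.ex x (a • Complex.I)) (b • Complex.I) ∧
      T.ex (T.ex x (a • Complex.I)) (b • Complex.I) = T.ex x ((a + b) • Complex.I) := by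
  have := hb.line x Complex.I (Icc 0 t) (convex_Icc 0 t) ⟨le_rfl, ht.le⟩ (free ht hx)
    a ⟨ha, by linarith⟩ (a + b) ⟨by linarith, hab⟩
  rwa [add_sub_cancel_left] at this

theorem reg_le {T : TS Y} {x : Y} {t : ℝ} (ht : 0 < t) (hx : T.Reg x (t • Complex.I)) {a : ℝ}
    (ha : 0 ≤ a) (hat : a ≤ t) : T.Reg x (a • Complex.I) := by
  intro s hs
  rw [smul_smul]
  exact free ht hx _ ⟨mul_nonneg hs.1 ha, by nlinarith [hs.1, hs.2]⟩

theorem iter (h3 : RE3) {T : TS Y} {δ : ℝ} (hδ : 0 < δ) (hs : T.Sys0 (2 * δ)) {y : Y} {w : ℂ}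
    {H : ℝ} (hy : T.Reg y w) (hw : ‖w‖ ≤ δ) (hr : w.re ≠ 0) (hH : 0 ≤ H) (z' : Y) :
    ∀ (k : ℕ) (z : Y), T.SlN H k z' z →
      (T.cr y w z' H).ncard ≤ (T.cr y w z H).ncard + 4 * k := by
  intro k
  induction k with
  | zero => intro z hz; rw [show z = z' from hz]; omega
  | succ k ih =>
    rintro z ⟨z'', h1, h2⟩
    have := ih z'' h1
    have := h3 Y T δ hδ hs y w H z'' z hy hw hr hH h2
    omega

theorem piece {T : TS Y} {δ L E : ℝ} (e : E0 T δ) (hL : 0 < L) (hE : 0 ≤ E) (hD : T.Disc δ L E)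
    {y : Y} {w : ℂ} (hy : T.Reg y w) (hw : ‖w‖ ≤ δ) (hr : w.re ≠ 0) {x : Y} {t : ℝ} (ht : 0 ≤ t)
    (hx : T.Reg x (t • Complex.I)) :
    ((T.cr y w x t).ncard : ℝ) ≤ t * |w.re| / T.area + (⌈t / L⌉₊ : ℕ) * E :=
  e.mul L E ⌈t / L⌉₊ hL hE hD y w x t hy hw hr ht
    ((div_le_iff₀ hL).1 (Nat.le_ceil _)) hx

theorem pow_gap {a b : ℕ} (h : a < b) : (8 : ℝ) * 8 ^ a ≤ 8 ^ b := by
  rw [← pow_succ']
  exact pow_le_pow_right₀ (by norm_num) h

/-- The sequence of thick scales. -/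
theorem scales {T : TS Y} {x : Y} {ε : ℝ} {N m : ℕ} {j : ℕ → ℕ} (hε : 0 < ε) (hε' : ε ≤ 3 / 4)
    (hj : ∀ k, 1 ≤ k → k ≤ m → j k < N ∧ T.Thick 0 (8 ^ j k) ε)
    (hd : ∀ k, 1 ≤ k → k < m → j (k + 1) < j k)
    (hx : T.Reg x ((2 * ((8 : ℝ) ^ N / 4)) • Complex.I)) :
    HS T x (fun k => if k = 0 then 8 ^ N / 4 else ε * 8 ^ j k / 3)
      (fun k => ε / (3 * 8 ^ j k)) m where
  hpos k _ := by
    split_ifs <;> positivity
  wpos k _ _ := by positivity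
  hgap k hk := by
    rw [if_neg (Nat.succ_ne_zero k)]
    split_ifs with h0
    · subst h0
      have h1 := pow_gap (hj 1 le_rfl hk).1
      have h2 : (0 : ℝ) < 8 ^ j 1 := by positivity
      rw [zero_add]
      nlinarith
    · have h1 := pow_gap (hd k (Nat.one_le_iff_ne_zero.2 h0) hk)
      nlinarith
  wgap k h1 hk := by
    have h2 := pow_gap (hd k h1 hk)
    have h3 : (0 : ℝ) < 8 ^ j (k + 1) := by positivity
    have h4 : (0 : ℝ) < 8 ^ j k := by positivity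
    rw [← mul_div_assoc, div_le_div_iff₀ (by positivity) (by positivity)]
    nlinarith
  box k h1 hk v hv := by
    rintro ⟨ha, hb⟩
    rw [if_neg (Nat.one_le_iff_ne_zero.1 h1)] at hb
    have h4 : (0 : ℝ) < 8 ^ j k := by positivity
    have h5 := (hj k h1 hk).2 v hv
    rw [zero_mul, sub_zero] at h5
    rw [← mul_div_assoc, le_div_iff₀ (by positivity)] at ha
    rcases le_max_iff.1 h5 with h | h
    · nlinarith
    · rw [le_div_iff₀ h4] at h
      nlinarith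
  reg := by simpa using hx

end ContrX

open ContrX in
theorem contr (hb : RB) (h0 : RE0) (h2 : RE2) (h3 : RE3) (hh : RHit) : RContr := by
  intro Y _ T δ ε E g m i w hδ hs hε hε' hg hm hc hE hD y v x t hy hv hr ht htL hx
  have B := hb Y T
  have e := h0 Y T δ hδ hs
  have hA := B.area_pos
  have hT : (0 : ℝ) < 8 ^ i := by positivity
  have hm1 : 1 ≤ m := by
    have : (0 : ℝ) ≤ 144 * T.area / ε ^ 2 := by positivity
    exact_mod_cast (show (1 : ℝ) ≤ m by linarith)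
  obtain ⟨j, hj, hd⟩ := seq _ ((Set.finite_lt_nat (i + w)).subset fun j hj => hj.2.1) m hc
  have hw : 0 < w := by have := hj 1 le_rfl hm1; have := this.1; have := (hj 1 le_rfl hm1).2.1; omega
  have hK : (8 : ℝ) ≤ 8 ^ w := by simpa using pow_gap hw
  have hcast : ((8 ^ w - 1 : ℕ) : ℝ) = 8 ^ w - 1 := by
    rw [Nat.cast_sub (Nat.one_le_pow _ _ (by norm_num))]; simp
  rw [pow_add] at htL
  have hm0 : (0 : ℝ) ≤ 4 * m := by positivity
  by_cases hc1 : t ≤ (8 ^ w - 1) * 8 ^ i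
  · have := e.mul _ E (8 ^ w - 1) hT hE hD y v x t hy hv hr ht (by rwa [hcast]) hx
    rw [hcast] at this
    linarith
  push Not at hc1
  have ht0 : 0 < t := by nlinarith
  have H := scales (x := x) (N := i + w) hε hε' (fun k h1 h2 => (hj k h1 h2).2) hd
    (reg_le ht0 hx (by positivity) (by rw [pow_add]; nlinarith))
  obtain ⟨Z, hZ, hZ'⟩ := hh Y T x _ _ m (ε ^ 2 / 9) (2 * 8 ^ i) H (by positivity)
    (fun k h1 _ => by
      rw [if_neg (Nat.one_le_iff_ne_zero.1 h1)]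
      apply le_of_eq
      field_simp
      norm_num)
    (by rw [show 16 * T.area / (ε ^ 2 / 9) = 144 * T.area / ε ^ 2 by field_simp; norm_num]; exact hm)
    (by positivity)
    (by
      rw [if_neg (Nat.one_le_iff_ne_zero.1 hm1)]
      have h1 : (8 : ℝ) ^ (i + g) ≤ 8 ^ j m :=
        pow_le_pow_right₀ (by norm_num) (hj m hm1 le_rfl).1
      rw [pow_add] at h1
      nlinarith [mul_le_mul_of_nonneg_left h1 hε.le, mul_le_mul_of_nonneg_left hg hT.le])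
  obtain ⟨z, hz, -, hz2⟩ := h2 Y T y v (2 * 8 ^ i) Z hy hr (by positivity) hZ
  obtain ⟨a, ⟨ha1, ha2⟩, hS⟩ := hZ' z hz
  simp only [if_true, pow_add] at ha1 ha2
  have ha0 : 0 ≤ a := le_trans (by positivity) ha1
  have hb0 : 0 ≤ t - a - 2 * 8 ^ i := by nlinarith
  have i1 := iter h3 hδ hs hy hv hr (by positivity) _ m z hS
  have r1 := reg_sub B.toB1 ht0 hx ha0 (b := 2 * 8 ^ i + (t - a - 2 * 8 ^ i)) (by linarith)
    (by linarith)
  have r2 := reg_sub B.toB1 ht0 hx ha0 (b := 2 * 8 ^ i) (by positivity) (by linarith)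
  have r3 := reg_sub B.toB1 ht0 hx (a := a + 2 * 8 ^ i) (b := t - a - 2 * 8 ^ i) (by positivity)
    hb0 (by linarith)
  have et : t = a + (2 * 8 ^ i + (t - a - 2 * 8 ^ i)) := by ring
  have a1 := e.add y v x a (2 * 8 ^ i + (t - a - 2 * 8 ^ i)) hy hv hr ha0 (by linarith)
    (by rwa [← et])
  rw [← et] at a1
  have a2 := e.add y v _ (2 * 8 ^ i) (t - a - 2 * 8 ^ i) hy hv hr (by positivity) hb0 r1.1
  rw [r2.2] at a2
  have p1 := piece e hT hE hD hy hv hr ha0 (reg_le ht0 hx ha0 (by linarith))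
  have p2 := piece e hT hE hD hy hv hr hb0 r3.1
  have c1 := Nat.ceil_lt_add_one (div_nonneg ha0 hT.le)
  have c2 := Nat.ceil_lt_add_one (div_nonneg hb0 hT.le)
  have c3 : a / 8 ^ i + (t - a - 2 * 8 ^ i) / 8 ^ i + 2 ≤ 8 ^ w := by
    rw [← add_div, ← le_sub_iff_add_le, div_le_iff₀ hT]
    linarith
  have c4 : ⌈a / 8 ^ i⌉₊ + ⌈(t - a - 2 * 8 ^ i) / 8 ^ i⌉₊ < 8 ^ w := by
    have : ((⌈a / 8 ^ i⌉₊ + ⌈(t - a - 2 * 8 ^ i) / 8 ^ i⌉₊ : ℕ) : ℝ) < ((8 ^ w : ℕ) : ℝ) := by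
      push_cast; linarith
    exact_mod_cast this
  have c5 : ((⌈a / 8 ^ i⌉₊ + ⌈(t - a - 2 * 8 ^ i) / 8 ^ i⌉₊ : ℕ) : ℝ) ≤ 8 ^ w - 1 := by
    rw [← hcast]; exact_mod_cast Nat.le_sub_one_of_lt c4
  have c6 := mul_le_mul_of_nonneg_right c5 hE
  have a3 : ((T.cr y v x t).ncard : ℝ) ≤ (T.cr y v x a).ncard + ((T.cr y v z (2 * 8 ^ i)).ncard +
      4 * m) + (T.cr y v (T.ex x ((a + 2 * 8 ^ i) • Complex.I)) (t - a - 2 * 8 ^ i)).ncard := by
    exact_mod_cast (show (T.cr y v x t).ncard ≤ (T.cr y v x a).ncard +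
      ((T.cr y v z (2 * 8 ^ i)).ncard + 4 * m) +
      (T.cr y v (T.ex x ((a + 2 * 8 ^ i) • Complex.I)) (t - a - 2 * 8 ^ i)).ncard by omega)
  have et2 : t * |v.re| / T.area = a * |v.re| / T.area + 2 * 8 ^ i * |v.re| / T.area +
      (t - a - 2 * 8 ^ i) * |v.re| / T.area := by ring
  push_cast at c6
  linarith

end Pool.Agent.MP_16ecd2_an.H18
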