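import Pool.Agent.MP_16ecd2_an.H18.Kit

/-!
Covering the slopes by classes.
-/

set_option autoImplicit false

namespace Pool.Agent.MP_16ecd2_an.H18

open MeasureTheory Set Filter Topology Metric

namespace CovX

theorem step (N : ℕ → Prop) (h : N 0) (I : ℕ) : ∃ i ≤ I, N i ∧ (i < I → ¬N (i + 1)) := by
  induction I with
  | zero => exact ⟨0, le_rfl, h, fun a => a.false.elim⟩
  | succ I ih =>
    obtain ⟨i, a, b, c⟩ := ih
    rcases a.eq_or_lt with rfl | a'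
    · by_cases hN : N (i + 1)
      · exact ⟨i + 1, le_rfl, hN, fun a => a.false.elim⟩
      · exact ⟨i, by omega, b, fun _ => hN⟩
    · exact ⟨i, by omega, b, fun _ => c a'⟩

theorem exists_pow {x : ℝ} (hx : 1 ≤ x) : ∃ I : ℕ, x ≤ 2 ^ I ∧ (I : ℝ) ≤ 2 * Real.log x + 1 := by
  have l0 := Real.log_nonneg hx
  refine ⟨⌈2 * Real.log x⌉₊, ?_, (Nat.ceil_lt_add_one (by positivity)).le⟩
  rw [← Real.log_le_log_iff (by positivity) (by positivity), Real.log_pow]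
  have := Nat.le_ceil (2 * Real.log x)
  nlinarith [Real.log_two_gt_d9]

theorem centre (w : ℂ) {φ : ℝ} (hw : w ≠ 0) (hφ : 0 < φ) : ∃ m : ℝ, ∀ t : ℝ, |t| ≤ 1 →
    |w.re - t * w.im| ≤ φ * ‖w‖ → |t - m| ≤ 4 * φ := by
  rcases le_or_gt (1 / 4) φ with h | h
  · exact ⟨0, fun t ht _ => by rw [sub_zero]; linarith⟩
  refine ⟨w.re / w.im, fun t ht h1 => ?_⟩
  have n := norm_pos_iff.2 hw
  have a1 := norm_le_re_im w
  have a2 : |w.re| ≤ φ * ‖w‖ + |w.im| := by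
    have := abs_add_le (w.re - t * w.im) (t * w.im)
    rw [sub_add_cancel, abs_mul] at this
    nlinarith [abs_nonneg w.im]
  have a3 : ‖w‖ ≤ 4 * |w.im| := by nlinarith
  have a4 : 0 < |w.im| := by linarith
  have e : t - w.re / w.im = -(w.re - t * w.im) / w.im := by
    field_simp [abs_pos.1 a4]
    ring
  rw [e, abs_div, abs_neg, div_le_iff₀ a4]
  nlinarith

theorem card_floor (w : ℂ) {φ : ℝ} (hw : w ≠ 0) (hφ : 0 < φ) (L : ℝ) : ∃ J : Finset ℤ,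
    (J.card : ℝ) ≤ 8 * (φ * L ^ 2) + 2 ∧ ∀ t : ℝ, |t| ≤ 1 → |w.re - t * w.im| ≤ φ * ‖w‖ →
      ⌊t * L ^ 2⌋ ∈ J := by
  obtain ⟨m, hm⟩ := centre w hw hφ
  have l0 := sq_nonneg L
  refine ⟨Finset.Icc ⌊(m - 4 * φ) * L ^ 2⌋ ⌊(m + 4 * φ) * L ^ 2⌋, ?_, fun t a b => ?_⟩
  · have : ⌊(m - 4 * φ) * L ^ 2⌋ ≤ ⌊(m + 4 * φ) * L ^ 2⌋ + 1 :=
      (Int.floor_le_floor (by nlinarith)).trans (Int.le_add_one le_rfl)
    rw [← Int.cast_natCast, Int.card_Icc_of_le _ _ this]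
    push_cast
    linarith [Int.floor_le ((m + 4 * φ) * L ^ 2), Int.lt_floor_add_one ((m - 4 * φ) * L ^ 2)]
  · have := abs_le.1 (hm t a b)
    exact Finset.mem_Icc.2 ⟨Int.floor_le_floor (by nlinarith [this.1]),
      Int.floor_le_floor (by nlinarith [this.2])⟩

variable {Y : Type} [MeasurableSpace Y] {T : TS Y} {g : ℂ →ₗ[ℝ] ℂ} {B : Finset (Y × ℂ)}
  {s R L₀ n Q : ℝ}

/-- The slope. -/
noncomputable def sl (g : ℂ →ₗ[ℝ] ℂ) (γ : Y × ℂ) : ℝ := (g γ.2).re / (g γ.2).im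

/-- The slope is close to the slope of an element of `B`. -/
def Near (g : ℂ →ₗ[ℝ] ℂ) (B : Finset (Y × ℂ)) (φ : ℝ) (γ : Y × ℂ) : Prop :=
  ∃ b ∈ B, |(g b.2).re - sl g γ * (g b.2).im| ≤ φ * ‖g b.2‖

theorem abs_sl {γ : Y × ℂ} (h : |(g γ.2).re| ≤ |(g γ.2).im|) : |sl g γ| ≤ 1 := by
  rw [sl, abs_div]
  exact div_le_one_of_le₀ h (abs_nonneg _)

theorem cls (hB : T.PW B) (hs : 0 < s) (hS : T.Sys g s) (hJ : T.JB g B R L₀ n Q) {φ L : ℝ}
    (hφ : 0 < φ) (h0 : L₀ ≤ L) (h1 : 1 ≤ L) (hn : B.card * (8 * (φ * L ^ 2) + 2) ≤ n)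
    (Γ : Finset (Y × ℂ)) (h : ∀ γ ∈ Γ, (γ ∈ T.SC ∧ (∀ b ∈ (B : Set (Y × ℂ)), T.Dis γ b) ∧
      |(g γ.2).re| ≤ |(g γ.2).im| ∧ |(g γ.2).im| ≤ R) ∧ Near g B φ γ ∧ ∀ σ : ℝ, |σ| ≤ 3 →
        |sl g γ - σ| ≤ 1 / L ^ 2 → T.Out (ng (ds L σ ∘ₗ g)) B (2 * R / L)) :
    (Γ.card : ℝ) ≤ Q := by
  classical
  have l1 : 1 ≤ L ^ 2 := one_le_pow₀ h1
  have l0 : 0 < L ^ 2 := by positivity
  have fl : ∀ t : ℝ, |t - ⌊t * L ^ 2⌋ / L ^ 2| ≤ 1 / L ^ 2 := fun t => by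
    have e : t - ⌊t * L ^ 2⌋ / L ^ 2 = (t * L ^ 2 - ⌊t * L ^ 2⌋) / L ^ 2 := by field_simp
    rw [e, abs_div, abs_of_pos l0]
    refine div_le_div_of_nonneg_right (abs_le.2 ⟨?_, ?_⟩) l0.le
    · linarith [Int.floor_le (t * L ^ 2)]
    · linarith [Int.lt_floor_add_one (t * L ^ 2)]
  have nz : ∀ c ∈ T.SC, g c.2 ≠ 0 := fun c hc => norm_pos_iff.1 (hs.trans_le (hS c hc))
  choose! J j1 j2 using fun b (hb : b ∈ B) => card_floor (g b.2) (nz b (hB.1 hb)) hφ L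
  refine hJ L h0 (Γ.image fun γ => ⌊sl g γ * L ^ 2⌋) ?_ (fun a ha => ?_) Γ fun γ hγ => ?_
  · have : (Γ.image fun γ => ⌊sl g γ * L ^ 2⌋) ⊆ B.biUnion J := fun a ha => by
      obtain ⟨γ, hγ, rfl⟩ := Finset.mem_image.1 ha
      obtain ⟨b, b1, b2⟩ := (h γ hγ).2.1
      exact Finset.mem_biUnion.2 ⟨b, b1, j2 b b1 _ (abs_sl (h γ hγ).1.2.2.1) b2⟩
    refine le_trans ?_ hn
    rw [← nsmul_eq_mul]
    refine le_trans ?_ (Finset.sum_le_card_nsmul B _ _ j1)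
    exact_mod_cast (Finset.card_le_card this).trans Finset.card_biUnion_le
  · obtain ⟨γ, hγ, rfl⟩ := Finset.mem_image.1 ha
    have a1 : |(⌊sl g γ * L ^ 2⌋ : ℝ) / L ^ 2| ≤ 3 := by
      have a2 := abs_le.1 (fl (sl g γ))
      have a3 := abs_le.1 (abs_sl (h γ hγ).1.2.2.1)
      have a4 : 1 / L ^ 2 ≤ 1 := div_le_one_of_le₀ l1 l0.le
      exact abs_le.2 ⟨by linarith [a2.2, a3.1], by linarith [a2.1, a3.2]⟩
    exact ⟨a1, (h γ hγ).2.2 _ a1 (fl _)⟩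
  · obtain ⟨⟨a1, a2, a3, a4⟩, -⟩ := h γ hγ
    refine ⟨a1, a2, a4, _, Finset.mem_image_of_mem _ hγ, ?_⟩
    have i0 : (g γ.2).im ≠ 0 := fun e => nz γ a1 (Complex.ext (by simpa [e] using a3) e)
    have e : (g γ.2).re = sl g γ * (g γ.2).im := (div_mul_cancel₀ _ i0).symm
    rw [e, ← sub_mul, abs_mul, div_eq_mul_one_div |_|, mul_comm]
    exact mul_le_mul_of_nonneg_left (fl _) (abs_nonneg _)

end CovX

open CovX in
theorem cov (hb : RB) (hc : RCard) (hn : RNew) : RCov := by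
  classical
  intro Y _ T
  obtain ⟨M, hM⟩ := hc Y T
  obtain ⟨K, r₀, c, K1, -, c0, c1, hN⟩ := hn Y T
  have x1 : 1 ≤ 12 / c := by rw [le_div_iff₀ c0]; linarith
  have x0 := Real.log_nonneg x1
  have m0 : 0 ≤ M * (32 * K + 34) := by positivity
  refine ⟨M * (32 * K + 34) + 2 * Real.log (12 / c) + 4, by positivity,
    fun g B s l Q hg hB ⟨b₀, hb₀⟩ hs hS hl hQ hW hJ Γ hΓ => ?_⟩
  have l0 : 0 < l := by linarith
  have l2 : 1 ≤ l ^ 2 := one_le_pow₀ hl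
  have ll := Real.log_nonneg hl
  obtain ⟨I, i1, i2⟩ := exists_pow (x := 12 / c * l ^ 2) (by nlinarith)
  rw [Real.log_mul (by positivity) (by positivity), Real.log_pow] at i2
  have bM : (B.card : ℝ) ≤ M := by exact_mod_cast hM B hB
  have cn : ∀ x : ℝ, 0 ≤ x → x ≤ (4 * K + 4) * l → B.card * (8 * x + 2)
      ≤ (M * (32 * K + 34) + 2 * Real.log (12 / c) + 4) * l := fun x h0 hx => by
    refine (mul_le_mul bM (show 8 * x + 2 ≤ (32 * K + 34) * l by nlinarith) (by positivity)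
      (by positivity)).trans ?_
    nlinarith
  let P : ℕ → Y × ℂ → Prop := fun i γ =>
    Near g B (2 / 2 ^ i) γ ∧ (i < I → ¬Near g B (2 / 2 ^ (i + 1)) γ)
  have key : ∀ i ∈ Finset.range (I + 1), ((Γ.filter (P i)).card : ℝ) ≤ Q := by
    intro i hi
    have p1 : (1 : ℝ) ≤ 2 ^ i := one_le_pow₀ one_le_two
    obtain ⟨φ, hφ⟩ : ∃ φ : ℝ, φ = 2 / 2 ^ i := ⟨_, rfl⟩
    have φ0 : 0 < φ := by rw [hφ]; positivity
    have φ2 : φ ≤ 2 := by rw [hφ]; exact div_le_self zero_le_two p1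
    rcases (Nat.lt_succ_iff.1 (Finset.mem_range.1 hi)).eq_or_lt with rfl | hi'
    · have φ3 : φ * (6 * l ^ 2) ≤ c := by
        rw [hφ, div_mul_eq_mul_div, div_le_iff₀ (by positivity)]
        rw [div_mul_eq_mul_div, div_le_iff₀ c0] at i1
        linarith
      have q : l ≤ 1 / φ := by rw [le_div_iff₀ φ0]; nlinarith
      have L2 : √(1 / φ) ^ 2 = 1 / φ := Real.sq_sqrt (by positivity)
      have L1 : 1 ≤ √(1 / φ) := Real.one_le_sqrt.2 (hl.trans q)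
      refine cls hB hs hS hJ φ0 (Real.sqrt_le_sqrt q) L1 (cn _ (by positivity) (by
        rw [L2, mul_one_div_cancel φ0.ne']; nlinarith)) _ fun γ hγ => ?_
      obtain ⟨a1, a2⟩ := Finset.mem_filter.1 hγ
      refine ⟨hΓ γ a1, hφ ▸ a2.1, fun σ h3 _ => (hN g B _ hg B.finite_toSet hB
        (by positivity)).2.2 s _ σ hs hS L1 h3 (hW σ h3) ?_⟩
      have e : (2 * (l * s) / √(1 / φ)) ^ 2 + 2 * (l * s) / √(1 / φ) * s / √(1 / φ)
          = (4 * l ^ 2 + 2 * l) * s ^ 2 / √(1 / φ) ^ 2 := by field_simp; ring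
      rw [e, L2, div_div_eq_mul_div, div_one, mul_right_comm]
      exact mul_le_mul_of_nonneg_right (by nlinarith) (sq_nonneg s)
    · have q : l ≤ (4 * K + 4) * l / φ := by rw [le_div_iff₀ φ0]; nlinarith
      obtain ⟨L, hL⟩ : ∃ L, L = √((4 * K + 4) * l / φ) := ⟨_, rfl⟩
      have L2 : φ * L ^ 2 = (4 * K + 4) * l := by
        rw [hL, Real.sq_sqrt (by positivity), mul_div_cancel₀ _ φ0.ne']
      have L1 : 1 ≤ L := hL ▸ Real.one_le_sqrt.2 (hl.trans q)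
      have L0 : 0 < L := by linarith
      refine cls hB hs hS hJ φ0 (hL ▸ Real.sqrt_le_sqrt q) L1 (cn _ (by positivity) L2.le) _
        fun γ hγ => ?_
      obtain ⟨a1, a2⟩ := Finset.mem_filter.1 hγ
      refine ⟨hΓ γ a1, hφ ▸ a2.1, fun σ h3 h4 => (hN _ B _ ((sl_ds L0.ne' σ).comp hg)
        B.finite_toSet hB (by positivity)).2.1 ⟨b₀, hb₀⟩ fun b hb => ?_⟩
      have a3 : φ / 2 * ‖g b.2‖ < |(g b.2).re - sl g γ * (g b.2).im| := by
        rw [hφ, div_div, ← pow_succ]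
        exact not_le.1 fun h => a2.2 hi' ⟨b, hb, h⟩
      have a4 := hS b (hB.1 hb)
      have a5 : |(g b.2).re - sl g γ * (g b.2).im|
          ≤ |(g b.2).re - σ * (g b.2).im| + 1 / L ^ 2 * ‖g b.2‖ := by
        have := abs_sub (((g b.2).re - σ * (g b.2).im)) ((sl g γ - σ) * (g b.2).im)
        rw [abs_mul, show (g b.2).re - σ * (g b.2).im - (sl g γ - σ) * (g b.2).im
          = (g b.2).re - sl g γ * (g b.2).im by ring] at this
        exact this.trans (add_le_add le_rfl (mul_le_mul h4 (Complex.abs_im_le_norm _)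
          (abs_nonneg _) (by positivity)))
      refine lt_of_lt_of_le ?_ (Complex.abs_re_le_norm _)
      rw [LinearMap.comp_apply, ds_re, abs_mul, abs_of_pos L0, ← mul_div_assoc, div_lt_iff₀ L0]
      have a6 : L ^ 2 * (φ / 2 * ‖g b.2‖)
          < L ^ 2 * (|(g b.2).re - σ * (g b.2).im| + 1 / L ^ 2 * ‖g b.2‖) :=
        mul_lt_mul_of_pos_left (a3.trans_le a5) (by positivity)
      rw [mul_add, ← mul_assoc _ (1 / L ^ 2), mul_one_div_cancel (by positivity), one_mul,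
        show L ^ 2 * (φ / 2 * ‖g b.2‖) = φ * L ^ 2 / 2 * ‖g b.2‖ by ring, L2] at a6
      have a7 : K * l * s ≤ K * l * ‖g b.2‖ := mul_le_mul_of_nonneg_left a4 (by positivity)
      nlinarith [norm_nonneg (g b.2)]
  have sub : Γ ⊆ (Finset.range (I + 1)).biUnion fun i => Γ.filter (P i) := fun γ hγ => by
    obtain ⟨i, a1, a2⟩ := step (fun i => Near g B (2 / 2 ^ i) γ) ⟨b₀, hb₀, by
      refine (abs_sub _ _).trans ?_
      rw [abs_mul]
      nlinarith [abs_sl (hΓ γ hγ).2.2.1, Complex.abs_re_le_norm (g b₀.2),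
        Complex.abs_im_le_norm (g b₀.2), abs_nonneg (g b₀.2).im]⟩ I
    exact Finset.mem_biUnion.2 ⟨i, Finset.mem_range.2 (Nat.lt_succ_of_le a1),
      Finset.mem_filter.2 ⟨hγ, a2⟩⟩
  have fin : (Γ.card : ℝ) ≤ (I + 1) * Q := by
    have := Finset.sum_le_card_nsmul _ _ _ key
    rw [Finset.card_range, nsmul_eq_mul, Nat.cast_succ] at this
    refine le_trans ?_ this
    exact_mod_cast (Finset.card_le_card sub).trans Finset.card_biUnion_le
  refine fin.trans (mul_le_mul_of_nonneg_right ?_ hQ)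
  push_cast at i2
  nlinarith [mul_nonneg m0 ll, mul_nonneg x0 ll]

end Pool.Agent.MP_16ecd2_an.H18
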