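import Pool.Agent.MP_16ecd2_an.H18.Kit

set_option autoImplicit false

namespace Pool.Agent.MP_16ecd2_an.H18

open MeasureTheory Set Filter Topology Metric

namespace Cov0X

theorem slope {L x y : ℝ} (hL : 1 ≤ L) (hy : y ≠ 0) (h : |x| ≤ |y|) :
    ⌊x / y * L ^ 2⌋ ∈ Finset.Icc (-⌊L ^ 2⌋ - 1) ⌊L ^ 2⌋ ∧
      |x - ⌊x / y * L ^ 2⌋ / L ^ 2 * y| ≤ |y| / L ^ 2 := by
  have h2 : 0 < L ^ 2 := by positivity
  have hs : |x / y| ≤ 1 := by rw [abs_div, div_le_one (abs_pos.2 hy)]; exact h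
  obtain ⟨h3, h4⟩ := abs_le.1 hs
  constructor
  · rw [Finset.mem_Icc]
    refine ⟨Int.le_floor.2 ?_, Int.floor_mono (by nlinarith)⟩
    have := Int.lt_floor_add_one (L ^ 2)
    push_cast
    nlinarith
  · have e : x - ⌊x / y * L ^ 2⌋ / L ^ 2 * y = (x / y * L ^ 2 - ⌊x / y * L ^ 2⌋) * (y / L ^ 2) := by
      field_simp
    have h5 := Int.floor_le (x / y * L ^ 2)
    have h6 := Int.lt_floor_add_one (x / y * L ^ 2)
    rw [e, abs_mul, abs_div, abs_of_pos h2, abs_of_nonneg (sub_nonneg.2 h5)]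
    exact mul_le_of_le_one_left (by positivity) (by linarith)

end Cov0X

theorem cov0 (hb : RB) (hn : RNew) : RCov0 := by
  intro Y _ T
  refine ⟨?_, fun g B R Q Q' h1 h2 Γ hΓ => ?_⟩
  · obtain ⟨K, r₀, c₀, -, hr, -, -, h⟩ := hn Y T
    refine ⟨r₀, hr, fun g R L Q hg hR hL hRL hJ Γ hΓ => ?_⟩
    have hL0 : 0 < L := by linarith
    have h2 : 1 ≤ L ^ 2 := one_le_pow₀ hL
    have h3 := Int.floor_le (L ^ 2)
    have h4 : (0 : ℤ) ≤ ⌊L ^ 2⌋ := Int.floor_nonneg.2 (by linarith)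
    refine hJ L le_rfl (Finset.Icc (-⌊L ^ 2⌋ - 1) ⌊L ^ 2⌋) ?_ (fun a ha => ⟨?_, ?_⟩) Γ
      fun γ hγ => ?_
    · have e : ((Finset.Icc (-⌊L ^ 2⌋ - 1) ⌊L ^ 2⌋).card : ℤ) = 2 * ⌊L ^ 2⌋ + 2 := by
        rw [Int.card_Icc, Int.toNat_of_nonneg (by omega)]
        ring
      have e' : ((Finset.Icc (-⌊L ^ 2⌋ - 1) ⌊L ^ 2⌋).card : ℝ) = 2 * ⌊L ^ 2⌋ + 2 := by
        exact_mod_cast e
      rw [e']
      linarith
    · obtain ⟨h5, h6⟩ := Finset.mem_Icc.1 ha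
      have h5' : (-⌊L ^ 2⌋ - 1 : ℝ) ≤ a := by exact_mod_cast h5
      have h6' : (a : ℝ) ≤ ⌊L ^ 2⌋ := by exact_mod_cast h6
      rw [abs_div, abs_of_pos (by positivity : 0 < L ^ 2), div_le_iff₀ (by positivity), abs_le]
      constructor <;> linarith
    · exact (h _ ∅ (2 * R / L) ((sl_ds hL0.ne' _).comp hg) finite_empty
        ⟨empty_subset _, pairwise_empty _⟩ (by positivity)).1 rfl ((div_le_iff₀ hL0).2 hRL)
    · obtain ⟨k1, k2, k3, k4⟩ := hΓ γ hγ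
      have hy : (g γ.2).im ≠ 0 := fun e => hg.inj ((hb Y T).sc_ne γ k1) (Complex.ext (by
        rw [e, abs_zero] at k3
        exact abs_nonpos_iff.1 k3) e)
      exact ⟨k1, k2, k4, _, (Cov0X.slope hL hy k3).1, (Cov0X.slope hL hy k3).2⟩
  · classical
    have e := Finset.card_filter_add_card_filter_not (s := Γ)
      fun γ => |(g γ.2).re| ≤ |(g γ.2).im|
    rw [← e, Nat.cast_add]
    refine add_le_add (h1 _ fun γ hγ => ?_) (h2 _ fun γ hγ => ?_)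
    · obtain ⟨k1, k2⟩ := Finset.mem_filter.1 hγ
      obtain ⟨m1, m2, m3⟩ := hΓ k1
      exact ⟨m1, m2, k2, (Complex.abs_im_le_norm _).trans m3⟩
    · obtain ⟨k1, k2⟩ := Finset.mem_filter.1 hγ
      obtain ⟨m1, m2, m3⟩ := hΓ k1
      have e1 : ((rot Complex.I ∘ₗ g) γ.2).re = -(g γ.2).im := by simp
      have e2 : ((rot Complex.I ∘ₗ g) γ.2).im = (g γ.2).re := by simp
      rw [e1, e2, abs_neg]
      exact ⟨m1, m2, (not_le.1 k2).le, (Complex.abs_re_le_norm _).trans m3⟩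

end Pool.Agent.MP_16ecd2_an.H18
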