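import Pool.Agent.MP_16ecd2_an.H18.Kit

/-!
Thin sectors that are cut by a saddle connection.
-/

set_option autoImplicit false

namespace Pool.Agent.MP_16ecd2_an.H18

open MeasureTheory Set Filter Topology Metric

namespace CutX

variable {Y : Type} [MeasurableSpace Y] {T : TS Y}

theorem cut_of {σ η L t : ℝ} {w : ℂ} (ht : t ∈ Ioc (0 : ℝ) 1) (h : t • w ∈ T.Hol)
    (h1 : |w.im| ≤ L) (h2 : |w.re - σ * w.im| ≤ L * η) : T.Cut σ η L := by
  obtain ⟨c, hc, e⟩ := h
  have e1 : c.2.im = t / 2 * w.im := by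
    have := congrArg Complex.im e
    simp only [Complex.smul_im, smul_eq_mul] at this
    linarith
  have e2 : c.2.re = t / 2 * w.re := by
    have := congrArg Complex.re e
    simp only [Complex.smul_re, smul_eq_mul] at this
    linarith
  have h0 : 0 ≤ t / 2 := by linarith [ht.1]
  refine ⟨c, hc, ?_, ?_⟩
  · rw [e1, abs_mul, abs_of_nonneg h0]
    nlinarith [abs_nonneg w.im, ht.2]
  · rw [e1, e2, show t / 2 * w.re - σ * (t / 2 * w.im) = t / 2 * (w.re - σ * w.im) by ring,
      abs_mul, abs_of_nonneg h0]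
    nlinarith [abs_nonneg (w.re - σ * w.im), ht.2]

theorem th_conv (σ η L : ℝ) : Convex ℝ (Th σ η L) := by
  rintro u ⟨h1, h2, h3, h4⟩ w ⟨k1, k2, k3, k4⟩ a b ha hb hab
  obtain rfl : b = 1 - a := by linarith
  simp only [Th, mem_ofPred_eq, Complex.add_im, Complex.add_re, Complex.smul_im, Complex.smul_re,
    smul_eq_mul]
  refine ⟨?_, by nlinarith, by nlinarith [mul_nonneg ha h3, mul_nonneg hb k3], by
    nlinarith [mul_le_mul_of_nonneg_left h4 ha, mul_le_mul_of_nonneg_left k4 hb]⟩
  rcases ha.eq_or_lt with rfl | ha'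
  · simpa using k1
  · positivity

end CutX

open CutX in
theorem cut (hb : RB) (hg : RGc) (hm : RMas) : RCut := by
  intro Y _ T
  have hB := hb Y T
  constructor
  · obtain ⟨A, β, hA, hβ1, hβ2, hM⟩ := hm Y T
    obtain ⟨C, hC, hG⟩ := hg 2 β one_lt_two hβ1
    obtain ⟨δ, hδ, hsys⟩ := T.sys
    set s := min 1 δ with hs
    have hs0 : 0 < s := lt_min one_pos hδ
    have hS : T.Sys LinearMap.id s := fun c hc => (min_le_right _ _).trans (hsys c.1 c.2 hc.1 hc.2)
    have hA2 : 0 ≤ A / s ^ β := div_nonneg hA (Real.rpow_nonneg hs0.le _)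
    refine ⟨C * (A + A / s ^ β) + 1, by positivity, fun L η J hL h0 h1 hJ => ?_⟩
    have hL0 : 0 < L := by linarith
    have := hG Y T LinearMap.id A (A / s ^ β) L η J sl_id hA hA2 hL0 h0 h1 (fun y hy _ => by
      have := hM LinearMap.id sl_id s hs0 (min_le_left _ _) hS y hy
      rwa [Real.div_rpow hy.le hs0.le, ← Real.rpow_two, ← mul_div_assoc, mul_div_right_comm] at this)
      (fun a ha => hJ a ha)
    have hLβ : L ^ β ≤ L ^ 2 := by
      rw [← Real.rpow_two]
      exact Real.rpow_le_rpow_of_exponent_le hL hβ2.le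
    rw [Real.rpow_two] at this
    refine this.trans ?_
    have h3 := mul_le_mul_of_nonneg_left (mul_le_mul_of_nonneg_left hLβ hA2) hC.le
    nlinarith [sq_nonneg L]
  · intro S' k Ω Φ hF σ η L hη hcut i
    have hsub : Th σ η L ⊆ Ω i := by
      rintro v ⟨h1, h2, h3, h4⟩
      by_contra hv
      obtain ⟨t, ht, h⟩ := hF.cut i v h1 hv
      exact hcut (cut_of ht h (by rwa [abs_of_pos h1]) (by rw [abs_of_nonneg h3]; nlinarith))
    refine ⟨hsub, fun v hv v' hv' e => ?_⟩
    by_contra hne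
    have hdev := hB.devc _ _ _ (hF.dev i) (th_conv σ η L) hsub v hv
    have hconv : Convex ℝ {h | v + h ∈ Th σ η L} := (th_conv σ η L).translate_preimage_right v
    obtain ⟨t, ht, h⟩ := hB.inj (Φ i v) _ hconv (by simpa using hv)
      (Set.disjoint_left.2 fun h hh hS => (hdev h hh).1 1 ⟨zero_le_one, le_rfl⟩ (by simpa using hS))
      (v' - v) (by simpa using hv') 0 (by simpa using hv) (sub_ne_zero.2 (Ne.symm hne))
      (by rw [T.ex0, ← (hdev (v' - v) (by simpa using hv')).2, add_sub_cancel, e])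
    obtain ⟨h1, h2, h3, h4⟩ := hv
    obtain ⟨k1, k2, k3, k4⟩ := hv'
    refine hcut (cut_of ht h ?_ ?_)
    · simp only [sub_zero, Complex.sub_im]
      rw [abs_le]; constructor <;> linarith
    · simp only [sub_zero, Complex.sub_im, Complex.sub_re]
      rw [abs_le]; constructor <;> nlinarith

end Pool.Agent.MP_16ecd2_an.H18
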