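import Pool.Agent.MP_16ecd2_an.H18.Kit

/-!
Dyadic summation.
-/

set_option autoImplicit false

namespace Pool.Agent.MP_16ecd2_an.H18

open MeasureTheory Set Filter Topology Metric
open scoped ENNReal

namespace DyX

theorem half {x e q : ℝ} (hx : 0 < x) (hq : (2 : ℝ) ^ (-e) ≤ q) : (x / 2) ^ e ≤ q * x ^ e := by
  rw [Real.div_rpow hx.le zero_le_two, div_eq_mul_inv, ← Real.rpow_neg zero_le_two, mul_comm]
  exact mul_le_mul_of_nonneg_right hq (Real.rpow_nonneg hx.le _)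

theorem step {β p₁ p₂ q C : ℝ} (hβ : 0 ≤ β) (h1 : (2 : ℝ) ^ (-(p₁ - β)) ≤ q)
    (h2 : (2 : ℝ) ^ (-(p₂ - β)) ≤ q) (hC : 0 ≤ C) (hq : C * q + 2 ^ β ≤ C) {ι : Type} (u : ι → ℝ)
    {A₁ A₂ : ℝ} (a1 : 0 ≤ A₁) (a2 : 0 ≤ A₂) (n : ℕ) : ∀ (J : Finset ι) (x : ℝ), 0 < x →
    (∀ a ∈ J, x / 2 ^ n < u a ∧ u a ≤ x) →
    (∀ y, 0 < y → y ≤ x → ((J.filter fun a => u a ≤ y).card : ℝ) ≤ A₁ * y ^ p₁ + A₂ * y ^ p₂) →
    ∑ a ∈ J, u a ^ (-β) ≤ C * (A₁ * x ^ (p₁ - β) + A₂ * x ^ (p₂ - β)) := by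
  induction n with
  | zero =>
    intro J x hx hu _
    have : J = ∅ := Finset.eq_empty_of_forall_notMem fun a ha => by
      have := hu a ha
      simp only [pow_zero, div_one] at this
      linarith [this.1, this.2]
    rw [this, Finset.sum_empty]
    positivity
  | succ n ih =>
    intro J x hx hu hc
    have hx2 : 0 < x / 2 := by linarith
    have i1 := ih (J.filter fun a => u a ≤ x / 2) (x / 2) hx2
      (fun a ha => by
        obtain ⟨ha1, ha2⟩ := Finset.mem_filter.1 ha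
        refine ⟨?_, ha2⟩
        have := (hu a ha1).1
        rwa [pow_succ', ← div_div] at this)
      (fun y hy hy' => by
        refine le_trans ?_ (hc y hy (by linarith))
        exact_mod_cast Finset.card_le_card
          (Finset.filter_subset_filter _ (Finset.filter_subset _ _)))
    have i2 : ∑ a ∈ J.filter (fun a => ¬ u a ≤ x / 2), u a ^ (-β) ≤
        (A₁ * x ^ p₁ + A₂ * x ^ p₂) * (x / 2) ^ (-β) := by
      refine (Finset.sum_le_card_nsmul _ _ ((x / 2) ^ (-β)) fun a ha => ?_).trans ?_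
      · exact Real.rpow_le_rpow_of_nonpos hx2 (not_le.1 (Finset.mem_filter.1 ha).2).le
          (neg_nonpos.2 hβ)
      · rw [nsmul_eq_mul]
        refine mul_le_mul_of_nonneg_right (le_trans ?_ (hc x hx le_rfl)) (by positivity)
        exact_mod_cast Finset.card_le_card fun a ha =>
          Finset.mem_filter.2 ⟨(Finset.mem_filter.1 ha).1, (hu a (Finset.mem_filter.1 ha).1).2⟩
    have e : (A₁ * x ^ p₁ + A₂ * x ^ p₂) * (x / 2) ^ (-β) =
        2 ^ β * (A₁ * x ^ (p₁ - β) + A₂ * x ^ (p₂ - β)) := by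
      rw [Real.div_rpow hx.le zero_le_two, Real.rpow_neg zero_le_two, div_inv_eq_mul,
        sub_eq_add_neg, sub_eq_add_neg, Real.rpow_add hx, Real.rpow_add hx]
      ring
    have i3 : A₁ * (x / 2) ^ (p₁ - β) + A₂ * (x / 2) ^ (p₂ - β) ≤
        q * (A₁ * x ^ (p₁ - β) + A₂ * x ^ (p₂ - β)) := by
      have b1 := mul_le_mul_of_nonneg_left (half hx h1) a1
      have b2 := mul_le_mul_of_nonneg_left (half hx h2) a2
      linarith
    have hS : 0 ≤ A₁ * x ^ (p₁ - β) + A₂ * x ^ (p₂ - β) := by positivity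
    rw [← Finset.sum_filter_add_sum_filter_not J fun a => u a ≤ x / 2]
    have i4 := mul_le_mul_of_nonneg_left i3 hC
    have i5 := mul_le_mul_of_nonneg_right hq hS
    linarith

end DyX

theorem dy : RDy := by
  intro β p₁ p₂ hβ h1 h2
  set q : ℝ := max ((2 : ℝ) ^ (-(p₁ - β))) ((2 : ℝ) ^ (-(p₂ - β))) with hq
  have q1 : q < 1 := max_lt (Real.rpow_lt_one_of_one_lt_of_neg one_lt_two (by linarith))
    (Real.rpow_lt_one_of_one_lt_of_neg one_lt_two (by linarith))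
  have q2 : 0 < 1 - q := by linarith
  have hC : 0 < (2 : ℝ) ^ β / (1 - q) := by positivity
  refine ⟨2 ^ β / (1 - q), hC, fun ι J u x A₁ A₂ hx a1 a2 hu hc => ?_⟩
  have t : Tendsto (fun n : ℕ => x / 2 ^ n) atTop (𝓝 0) :=
    tendsto_const_nhds.div_atTop (tendsto_pow_atTop_atTop_of_one_lt one_lt_two)
  obtain ⟨n, hn⟩ := ((Filter.eventually_all_finset J).2 fun a ha =>
    t.eventually (gt_mem_nhds (hu a ha).1)).exists
  refine DyX.step hβ (le_max_left _ _) (le_max_right _ _) hC.le (le_of_eq ?_) u a1 a2 n J x hx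
    (fun a ha => ⟨hn a ha, (hu a ha).2⟩) hc
  rw [← hq]
  field_simp
  ring

end Pool.Agent.MP_16ecd2_an.H18
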