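import Pool.Agent.MP_16ecd2_an.H18.Kit

/-!
Elementary facts on the crossings of a vertical orbit with a short segment.
-/

set_option autoImplicit false

namespace Pool.Agent.MP_16ecd2_an.H18

open MeasureTheory Set Filter Topology Metric

namespace E0X

variable {Y : Type} [MeasurableSpace Y] {T : TS Y} {δ : ℝ}

theorem free {x : Y} {u : ℂ} {t : ℝ} (h : T.Reg x (t • u)) : ∀ s ∈ Icc 0 t, s • u ∉ T.S x := by
  intro s hs
  rcases (hs.1.trans hs.2).eq_or_lt with rfl | ht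
  · have := h 0 ⟨le_rfl, zero_le_one⟩
    rwa [le_antisymm hs.2 hs.1, ← zero_mul (0 : ℝ), mul_smul]
  · have := h (s / t) ⟨div_nonneg hs.1 ht.le, (div_le_one ht).2 hs.2⟩
    rwa [smul_smul, div_mul_cancel₀ _ ht.ne'] at this

theorem sub {x : Y} {u : ℂ} (h : T.Reg x u) {s : ℝ} (hs : s ∈ Icc (0 : ℝ) 1) :
    T.Reg x (s • u) := fun r hr => by
  rw [smul_smul]
  exact h _ ⟨mul_nonneg hr.1 hs.1, mul_le_one₀ hr.2 hs.1 hs.2⟩

theorem line (b : Base T) {x : Y} {u : ℂ} {t : ℝ} (h : T.Reg x (t • u)) {r s : ℝ}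
    (hr : r ∈ Icc 0 t) (hs : s ∈ Icc 0 t) : T.Reg (T.ex x (r • u)) ((s - r) • u) ∧
      T.ex (T.ex x (r • u)) ((s - r) • u) = T.ex x (s • u) :=
  b.line x u (Icc 0 t) (convex_Icc _ _) ⟨le_rfl, hr.1.trans hr.2⟩ (free h) r hr s hs

theorem inj (b : Base T) (hs : T.Sys0 (2 * δ)) (y : Y) (w : ℂ) (hy : T.Reg y w) (hw : ‖w‖ ≤ δ)
    (h0 : w ≠ 0) : InjOn (fun τ : ℝ => T.ex y (τ • w)) (Icc 0 1) := by
  intro s h1 t h2 e
  by_contra hn
  obtain ⟨h, hh, l⟩ := b.two (normSeminorm ℝ ℂ) y _ _ (sub hy h1) (sub hy h2)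
    (fun e => hn (smul_left_injective ℝ h0 e)) e
  simp only [coe_normSeminorm, norm_smul, Real.norm_eq_abs, abs_of_nonneg h1.1,
    abs_of_nonneg h2.1] at l
  have h3 := hs h hh
  have h4 := norm_pos_iff.2 h0
  have h5 : s + t < 2 := by
    rcases lt_or_gt_of_ne hn with c | c <;> linarith [h1.2, h2.2]
  nlinarith

theorem sep (b : Base T) (hs : T.Sys0 (2 * δ)) (y : Y) (w : ℂ) (x : Y) (t : ℝ) (hy : T.Reg y w)
    (hw : ‖w‖ ≤ δ) (h0 : w.re ≠ 0) (hx : T.Reg x (t • Complex.I)) :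
    ∀ p ∈ T.cr y w x t, ∀ q ∈ T.cr y w x t, p ≠ q → δ ≤ |p - q| := by
  rintro p ⟨hp, τ, h1, e1⟩ q ⟨hq, τ', h2, e2⟩ hn
  obtain ⟨r1, r2⟩ := line b hx (Ico_subset_Icc_self hp) (Ico_subset_Icc_self hq)
  obtain ⟨r3, r4⟩ := line b (t := 1) ((one_smul ℝ w).symm ▸ hy) (Ico_subset_Icc_self h1)
    (Ico_subset_Icc_self h2)
  rw [← e1] at r3 r4
  obtain ⟨h, hh, l⟩ := b.two (normSeminorm ℝ ℂ) _ _ _ r1 r3 (fun e => by
    have a1 := congrArg Complex.re e
    have a2 := congrArg Complex.im e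
    simp only [Complex.smul_re, Complex.smul_im, smul_eq_mul, Complex.I_re, Complex.I_im,
      mul_zero, mul_one] at a1 a2
    rw [(mul_eq_zero.1 a1.symm).resolve_right h0, zero_mul] at a2
    exact hn (by linarith)) (by rw [r2, r4, e2])
  simp only [coe_normSeminorm, norm_smul, Real.norm_eq_abs, Complex.norm_I, mul_one] at l
  have h3 := hs h hh
  have h4 : |τ' - τ| ≤ 1 := abs_le.2 ⟨by linarith [h1.2, h2.1], by linarith [h1.1, h2.2]⟩
  rw [abs_sub_comm]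
  nlinarith [norm_nonneg w, abs_nonneg (τ' - τ)]

theorem card (hδ : 0 < δ) {s : Set ℝ} {t : ℝ} (ht : 0 ≤ t) (h : s ⊆ Ico 0 t)
    (hs : ∀ p ∈ s, ∀ q ∈ s, p ≠ q → δ ≤ |p - q|) : s.Finite ∧ (s.ncard : ℝ) ≤ t / δ + 1 := by
  have i : InjOn (fun p => ⌊p / δ⌋₊) s := fun p hp q hq e => by
    by_contra hn
    have h1 := hs p hp q hq hn
    have h2 := Nat.floor_le (div_nonneg (h hp).1 hδ.le)
    have h3 := Nat.floor_le (div_nonneg (h hq).1 hδ.le)
    have h4 := Nat.lt_floor_add_one (p / δ)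
    have h5 := Nat.lt_floor_add_one (q / δ)
    simp only at e
    rw [e] at h2 h4
    have h6 : |p / δ - q / δ| < 1 := abs_lt.2 ⟨by linarith, by linarith⟩
    rw [← sub_div, abs_div, abs_of_pos hδ, div_lt_one hδ] at h6
    linarith
  have m : MapsTo (fun p => ⌊p / δ⌋₊) s (Finset.range (⌊t / δ⌋₊ + 1) : Set ℕ) := fun p hp => by
    simp only [Finset.coe_range, mem_Iio, Nat.lt_succ_iff]
    exact Nat.floor_mono (div_le_div_of_nonneg_right (h hp).2.le hδ.le)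
  refine ⟨Finite.of_injOn m i (Finset.finite_toSet _), ?_⟩
  have c := ncard_le_ncard_of_injOn _ m i (Finset.finite_toSet _)
  rw [ncard_coe_finset, Finset.card_range] at c
  have c' : (s.ncard : ℝ) ≤ (⌊t / δ⌋₊ : ℝ) + 1 := by exact_mod_cast c
  linarith [Nat.floor_le (div_nonneg ht hδ.le)]

theorem fin (b : Base T) (hδ : 0 < δ) (hs : T.Sys0 (2 * δ)) (y : Y) (w : ℂ) (x : Y) (t : ℝ)
    (hy : T.Reg y w) (hw : ‖w‖ ≤ δ) (h0 : w.re ≠ 0) (hx : T.Reg x (t • Complex.I)) :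
    (T.cr y w x t).Finite :=
  (card hδ (le_max_right t 0) (fun _ h => ⟨h.1.1, lt_max_of_lt_left h.1.2⟩)
    (sep b hs y w x t hy hw h0 hx)).1

theorem cut (b : Base T) {x : Y} {p q : ℝ} (hp : 0 ≤ p) (hq : 0 ≤ q)
    (hx : T.Reg x ((p + q) • Complex.I)) :
    T.Reg x (p • Complex.I) ∧ T.Reg (T.ex x (p • Complex.I)) (q • Complex.I) := by
  have m : p ∈ Icc 0 (p + q) := ⟨hp, by linarith⟩
  constructor
  · simpa [T.ex0] using (line b hx ⟨le_rfl, by linarith⟩ m).1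
  · simpa using (line b hx m ⟨by linarith, le_rfl⟩).1

theorem add (b : Base T) (hδ : 0 < δ) (hs : T.Sys0 (2 * δ)) (y : Y) (w : ℂ) (x : Y) (p q : ℝ)
    (hy : T.Reg y w) (hw : ‖w‖ ≤ δ) (h0 : w.re ≠ 0) (hp : 0 ≤ p) (hq : 0 ≤ q)
    (hx : T.Reg x ((p + q) • Complex.I)) : (T.cr y w x (p + q)).ncard ≤
      (T.cr y w x p).ncard + (T.cr y w (T.ex x (p • Complex.I)) q).ncard := by
  obtain ⟨r1, r2⟩ := cut b hp hq hx
  have f1 := fin b hδ hs y w x p hy hw h0 r1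
  have f2 := fin b hδ hs y w _ q hy hw h0 r2
  refine (ncard_le_ncard (t := T.cr y w x p ∪ (· + p) '' T.cr y w (T.ex x (p • Complex.I)) q) ?_
    (f1.union (f2.image _))).trans ((ncard_union_le _ _).trans
      (Nat.add_le_add_left (ncard_image_le f2) _))
  rintro c ⟨hc, τ, h1, e⟩
  rcases lt_or_ge c p with l | l
  · exact Or.inl ⟨⟨hc.1, l⟩, τ, h1, e⟩
  · exact Or.inr ⟨c - p, ⟨⟨by linarith, by linarith [hc.2]⟩, τ, h1,
      (line b hx ⟨hp, by linarith⟩ (Ico_subset_Icc_self hc)).2.trans e⟩, sub_add_cancel _ _⟩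

end E0X

open E0X in
theorem e0 (hb : RB) : RE0 := by
  intro Y _ T δ hδ hs
  have b := hb Y T
  have hA := b.area_pos
  refine ⟨inj b hs, sep b hs, fin b hδ hs, add b hδ hs, fun y w x t hy hw h0 t0 t1 hx => ?_,
    fun L E k hL hE hD => ?_⟩
  · have h1 := (card hδ t0 (fun _ h => h.1) (sep b hs y w x t hy hw h0 hx)).2
    have h2 : t / δ ≤ 1 / δ := div_le_div_of_nonneg_right t1 hδ.le
    have h3 : 0 ≤ t * |w.re| / T.area := by positivity
    linarith
  · induction k with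
    | zero =>
      intro y w x t hy hw h0 t0 t1 hx
      obtain rfl : t = 0 := le_antisymm (by simpa using t1) t0
      simp [TS.cr]
    | succ k ih =>
      intro y w x t hy hw h0 t0 t1 hx
      push_cast at t1 ⊢
      rcases le_or_gt t L with l | l
      · have := hD y w x t hy hw h0 t0 l hx
        have : 0 ≤ k * E := by positivity
        linarith
      · obtain ⟨q, rfl⟩ : ∃ q, t = L + q := ⟨t - L, by ring⟩
        have hq : 0 ≤ q := by linarith
        obtain ⟨r1, r2⟩ := cut b hL.le hq hx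
        have h1 : ((T.cr y w x (L + q)).ncard : ℝ) ≤ (T.cr y w x L).ncard +
            (T.cr y w (T.ex x (L • Complex.I)) q).ncard := by
          exact_mod_cast add b hδ hs y w x L q hy hw h0 hL.le hq hx
        have h2 := hD y w x L hy hw h0 hL.le le_rfl r1
        have h3 := ih y w _ q hy hw h0 hq (by linarith) r2
        rw [add_mul, add_div]
        linarith

end Pool.Agent.MP_16ecd2_an.H18
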