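import Pool.Agent.MP_16ecd2_an.H18.Kit

/-!
A point whose vertical orbit meets a segment at most as often as the mean.
-/

set_option autoImplicit false

namespace Pool.Agent.MP_16ecd2_an.H18

open MeasureTheory Set Filter Topology Metric
open scoped ENNReal

namespace E2X

variable {Y : Type} [MeasurableSpace Y]

/-- Coordinates along `w` and along `-I`. -/
noncomputable def co (w : ℂ) : ℂ →ₗ[ℝ] ℂ where
  toFun u := ⟨u.re / w.re, u.re / w.re * w.im - u.im⟩
  map_add' u v := by apply Complex.ext <;> simp <;> ring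
  map_smul' a v := by apply Complex.ext <;> simp <;> ring

/-- The parallelogram below the segment. -/
def par (w : ℂ) (H : ℝ) : Set ℂ := co w ⁻¹' {v | v.re ∈ Ico (0 : ℝ) 1 ∧ v.im ∈ Ico 0 H}

theorem meas_par (w : ℂ) (H : ℝ) : MeasurableSet (par w H) :=
  (co w).continuous_of_finiteDimensional.measurable
    ((Complex.measurable_re measurableSet_Ico).inter (Complex.measurable_im measurableSet_Ico))

theorem vol_par {w : ℂ} (hw : w.re ≠ 0) (H : ℝ) :
    volume (par w H) = ENNReal.ofReal (|w.re| * H) := by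
  have h1 : LinearMap.det (co w) = -(w.re)⁻¹ := by
    rw [det_eq]
    simp [det, co]
  have h2 : volume {v : ℂ | v.re ∈ Ico (0 : ℝ) 1 ∧ v.im ∈ Ico 0 H} = ENNReal.ofReal H := by
    have := Complex.volume_preserving_equiv_real_prod.measure_preimage
      (s := Ico (0 : ℝ) 1 ×ˢ Ico 0 H) (measurableSet_Ico.prod measurableSet_Ico).nullMeasurableSet
    rw [Measure.volume_eq_prod, Measure.prod_prod, Real.volume_Ico, Real.volume_Ico] at this
    simp only [sub_zero, ENNReal.ofReal_one, one_mul] at this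
    exact this
  rw [par, Measure.addHaar_preimage_linearMap _ (by rw [h1]; simpa using hw), h1, h2,
    ENNReal.ofReal_mul (abs_nonneg _)]
  simp

/-- Go along the segment, then vertically. -/
noncomputable def dv (T : TS Y) (y : Y) (w u : ℂ) : Y :=
  T.ex (T.ex y ((u.re / w.re) • w)) (u - (u.re / w.re) • w)

def dom (T : TS Y) (y : Y) (w : ℂ) (H : ℝ) : Set ℂ :=
  {u | u ∈ par w H ∧ T.Reg (T.ex y ((u.re / w.re) • w)) (u - (u.re / w.re) • w)}

theorem loc {T : TS Y} (hb : Base T) {y : Y} {w : ℂ} {H : ℝ} (hy : T.Reg y w) {u₀ : ℂ}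
    (h : u₀ ∈ dom T y w H) : ∃ r > 0, Disjoint (ball (0 : ℂ) r) (T.S (dv T y w u₀)) ∧
      ∀ k : ℂ, ‖k‖ < r → u₀ + k ∈ par w H →
        u₀ + k ∈ dom T y w H ∧ dv T y w (u₀ + k) = T.ex (dv T y w u₀) k := by
  obtain ⟨r₀, r0, hd⟩ := hb.tube _ _ h.2
  set τ₀ := u₀.re / w.re with hτ
  set y₀ := T.ex y (τ₀ • w) with hy₀
  set C := thickening r₀ (segment ℝ 0 (u₀ - τ₀ • w)) with hC
  have c1 : Convex ℝ C := (convex_segment _ _).thickening _
  have c2 : (0 : ℂ) ∈ C := self_subset_thickening r0 _ (left_mem_segment _ _ _)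
  have c3 : u₀ - τ₀ • w ∈ C := self_subset_thickening r0 _ (right_mem_segment _ _ _)
  have e1 : ∀ᶠ k in 𝓝 (0 : ℂ), ((u₀ + k).re / w.re - τ₀) • w ∈ C := by
    have : Continuous fun k : ℂ => ((u₀ + k).re / w.re - τ₀) • w := by fun_prop
    refine this.continuousAt.eventually_mem (isOpen_thickening.mem_nhds ?_)
    rwa [add_zero, sub_self, zero_smul]
  have e2 : ∀ᶠ k in 𝓝 (0 : ℂ), u₀ - τ₀ • w + k ∈ C := by
    have : Continuous fun k : ℂ => u₀ - τ₀ • w + k := by fun_prop
    refine this.continuousAt.eventually_mem (isOpen_thickening.mem_nhds ?_)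
    rwa [add_zero]
  obtain ⟨r, r1, hr⟩ := Metric.eventually_nhds_iff_ball.1 (e1.and e2)
  refine ⟨r, r1, disjoint_left.2 fun k hk => (T.cons y₀ C c1 c2 hd _ c3 k (hr k hk).2).1,
    fun k hk hp => ?_⟩
  obtain ⟨a1, a2⟩ := hr k (mem_ball_zero_iff.2 hk)
  have l := (hb.line y w (Icc 0 1) (convex_Icc 0 1) ⟨le_rfl, zero_le_one⟩ hy τ₀
    (Ico_subset_Icc_self h.1.1) ((u₀ + k).re / w.re) (Ico_subset_Icc_self hp.1)).2
  have e : ((u₀ + k).re / w.re - τ₀) • w + (u₀ + k - ((u₀ + k).re / w.re) • w) =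
      u₀ - τ₀ • w + k := by
    rw [sub_smul]
    ring
  refine ⟨⟨hp, ?_⟩, ?_⟩
  · rw [← l]
    exact hb.reg y₀ C c1 c2 hd _ a1 _ (e ▸ a2)
  · unfold dv
    rw [← l, (T.cons y₀ C c1 c2 hd _ a1 _ (e ▸ a2)).2, e,
      (T.cons y₀ C c1 c2 hd _ c3 k a2).2]

theorem dev {T : TS Y} (hb : Base T) {y : Y} {w : ℂ} (H : ℝ) (hy : T.Reg y w) :
    T.Dev (dom T y w H) (dv T y w) := fun _ hv => by
  obtain ⟨r, r0, h1, h2⟩ := loc hb hy hv
  exact ⟨r, r0, h1, fun k hk hp => (h2 k hk hp.1).2⟩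

theorem meas_dom {T : TS Y} (hb : Base T) {y : Y} {w : ℂ} (H : ℝ) (hy : T.Reg y w) :
    MeasurableSet (dom T y w H) := by
  have : dom T y w H = par w H ∩ interior {u | u ∈ par w H → u ∈ dom T y w H} := by
    refine Subset.antisymm (fun u hu => ⟨hu.1, ?_⟩) fun u hu => interior_subset hu.2 hu.1
    obtain ⟨r, r0, -, h2⟩ := loc hb hy hu
    refine mem_interior_iff_mem_nhds.2 (mem_of_superset (ball_mem_nhds u r0) fun v hv hp => ?_)
    have := h2 (v - u) (mem_ball_iff_norm.1 hv)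
    rw [add_sub_cancel] at this
    exact (this hp).1
  rw [this]
  exact (meas_par w H).inter isOpen_interior.measurableSet

theorem cr_sub {T : TS Y} (hb : Base T) {y z : Y} {w : ℂ} {H : ℝ} (hw : w.re ≠ 0) (hH : 0 < H)
    (hz : T.Reg z (H • Complex.I)) :
    T.cr y w z H ⊆ (fun u => (co w u).im) '' (dom T y w H ∩ dv T y w ⁻¹' {z}) := by
  rintro a ⟨ha, τ, hτ, e⟩
  have r1 : T.Reg z (a • Complex.I) := fun t ht => by
    have := hz (t * a / H) ⟨div_nonneg (mul_nonneg ht.1 ha.1) hH.le, by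
      rw [div_le_one hH]
      nlinarith [ht.1, ht.2, ha.1, ha.2]⟩
    rwa [smul_smul, div_mul_cancel₀ _ hH.ne', ← smul_smul] at this
  obtain ⟨b1, b2⟩ := hb.back z _ r1
  have e1 : (τ • w - a • Complex.I).re / w.re = τ := by
    simp
    field_simp
  have e2 : (co w (τ • w - a • Complex.I)).im = a := by
    change (τ • w - a • Complex.I).re / w.re * w.im - (τ • w - a • Complex.I).im = a
    rw [e1]
    simp
  have e3 : τ • w - a • Complex.I - τ • w = -(a • Complex.I) := by ring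
  refine ⟨τ • w - a • Complex.I, ⟨⟨⟨?_, ?_⟩, ?_⟩, ?_⟩, e2⟩
  · change (τ • w - a • Complex.I).re / w.re ∈ _
    rwa [e1]
  · rwa [e2]
  · rwa [e1, e3, ← e]
  · change dv T y w _ = z
    unfold dv
    rwa [e1, e3, ← e]

theorem wt_one {Z : Type} (Φ : ℂ → Z) (D : Set ℂ) (q : Z) :
    wt Φ D (fun _ => 1) q = (D ∩ Φ ⁻¹' {q}).encard := by
  rw [wt, ← tsum_subtype, ENNReal.tsum_set_one]

end E2X

open E2X

theorem e2 (hb : RB) (ha : RAF) (hn : RNull) : RE2 := by
  intro Y _ T y w H Z hy hw hH hZ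
  have B := hb Y T
  obtain ⟨a1, -, a3, -⟩ := ha Y T _ _ (dev B H hy) (meas_dom B H hy)
  have := T.fm
  have hμ : T.μ univ ≠ 0 := fun h => by
    have := B.area_pos
    rw [TS.area, h] at this
    simp at this
  obtain ⟨z, z1, z2⟩ := exists_notMem_null_le_laverage (μ := T.μ) (Measure.measure_univ_ne_zero.1 hμ)
    (a1 (fun _ => 1) measurable_const).aemeasurable
    (measure_union_null hZ ((hn Y T).1 Complex.I))
  have hz : T.Reg z (H • Complex.I) := fun t _ h => z1 (Or.inr ⟨t * H, by rwa [← smul_smul]⟩)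
  refine ⟨z, fun h => z1 (Or.inl h), hz, ?_⟩
  have h1 := a3 (fun _ => 1) (fun _ => 1) measurable_const measurable_const
  simp only [one_mul, lintegral_const, Measure.restrict_apply_univ] at h1
  have h2 : volume (dom T y w H) ≤ ENNReal.ofReal (|w.re| * H) := by
    rw [← vol_par hw]
    exact measure_mono fun u hu => hu.1
  have h3 : ((T.cr y w z H).ncard : ℝ≥0∞) ≤ ENNReal.ofReal (|w.re| * H) / T.μ univ := by
    rw [laverage_eq, h1, wt_one] at z2
    refine le_trans ?_ (z2.trans (ENNReal.div_le_div_right h2 _))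
    have := (Set.ncard_le_encard _).trans
      ((encard_le_encard (cr_sub (y := y) B hw hH hz)).trans (encard_image_le _ _))
    exact_mod_cast ENat.toENNReal_le.2 this
  have h4 := ENNReal.toReal_mono (ENNReal.div_ne_top ENNReal.ofReal_ne_top hμ) h3
  rw [ENNReal.toReal_div, ENNReal.toReal_ofReal (by positivity), ENNReal.toReal_natCast,
    mul_comm] at h4
  exact h4

end Pool.Agent.MP_16ecd2_an.H18
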