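import Pool.Agent.MP_16ecd2_an.H18.Kit

/-!
A horizontal move below an embedded rectangle changes the number of crossings by at most four.
-/

set_option autoImplicit false

namespace Pool.Agent.MP_16ecd2_an.H18

open MeasureTheory Set Filter Topology Metric

namespace E3X

theorem convex_rect (a H : ℝ) : Convex ℝ (Rect a H) :=
  ((convex_uIcc 0 a).linear_preimage Complex.reLm).inter
    ((convex_Icc 0 H).linear_preimage Complex.imLm)

theorem mul_mem {σ D c : ℝ} (h : σ ∈ uIcc 0 D) : σ * c ∈ uIcc 0 (D * c) := by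
  rw [mem_uIcc] at h ⊢
  rcases le_total 0 c with hc | hc <;> rcases h with ⟨h1, h2⟩ | ⟨h1, h2⟩
  · exact Or.inl ⟨mul_nonneg h1 hc, mul_le_mul_of_nonneg_right h2 hc⟩
  · exact Or.inr ⟨mul_le_mul_of_nonneg_right h1 hc, mul_nonpos_of_nonpos_of_nonneg h2 hc⟩
  · exact Or.inr ⟨mul_le_mul_of_nonpos_right h2 hc, mul_nonpos_of_nonneg_of_nonpos h1 hc⟩
  · exact Or.inl ⟨mul_nonneg_of_nonpos_of_nonpos h2 hc, mul_le_mul_of_nonpos_right h1 hc⟩

theorem count {A B A₁ A₂ A₃ A₄ : Set ℝ} (hB : B.Finite) (h₁ : A₁.Subsingleton)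
    (h₂ : A₂.Subsingleton) (h₃ : A₃.Subsingleton) (h₄ : A₄.Subsingleton) (f : ℝ → ℝ)
    (h : A ⊆ f '' B ∪ A₁ ∪ A₂ ∪ A₃ ∪ A₄) : A.ncard ≤ B.ncard + 4 := by
  have k : ∀ {C : Set ℝ}, C.Subsingleton → C.ncard ≤ 1 := fun hC =>
    (ncard_le_one hC.finite).2 fun _ a _ b => hC a b
  have a := ncard_le_ncard h (((((hB.image f).union h₁.finite).union h₂.finite).union
    h₃.finite).union h₄.finite)
  have b := ncard_image_le (f := f) hB
  have c1 := ncard_union_le (f '' B) A₁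
  have c2 := ncard_union_le (f '' B ∪ A₁) A₂
  have c3 := ncard_union_le (f '' B ∪ A₁ ∪ A₂) A₃
  have c4 := ncard_union_le (f '' B ∪ A₁ ∪ A₂ ∪ A₃) A₄
  have := k h₁
  have := k h₂
  have := k h₃
  have := k h₄
  omega

end E3X

theorem e3 (hb : RB) (h0 : RE0) : RE3 := by
  rintro Y _ T δ hδ hs y w H z' _ hy hw hre hH ⟨a, rfl, hd, hi⟩
  have B := hb Y T
  have E := h0 Y T δ hδ hs
  obtain ⟨D, rfl⟩ : ∃ D, a = D * w.re := ⟨a / w.re, (div_mul_cancel₀ a hre).symm⟩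
  have cv := E3X.convex_rect (D * w.re) H
  have r0 : (0 : ℂ) ∈ Rect (D * w.re) H := ⟨left_mem_uIcc, le_rfl, hH⟩
  have ra : ((D * w.re : ℝ) : ℂ) ∈ Rect (D * w.re) H := ⟨right_mem_uIcc, le_rfl, hH⟩
  have rv : ∀ t ∈ Icc 0 H, ((D * w.re : ℝ) : ℂ) + t • Complex.I ∈ Rect (D * w.re) H :=
    fun t ht => ⟨by simp, by simpa using ht⟩
  have rI : ∀ t ∈ Icc 0 H, t • Complex.I ∈ Rect (D * w.re) H :=
    fun t ht => ⟨by simp, by simpa using ht⟩
  have g1 : T.Reg z' (H • Complex.I) := by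
    have := B.reg z' _ cv r0 hd 0 r0 (H • Complex.I) (by rw [zero_add]; exact rI H ⟨hH, le_rfl⟩)
    rwa [T.ex0] at this
  have g2 := B.reg z' _ cv r0 hd _ ra (H • Complex.I) (rv H ⟨hH, le_rfl⟩)
  have hI : |w.im| ≤ δ := (Complex.abs_im_le_norm w).trans hw
  have mv : ∀ t τ σ : ℝ, δ ≤ t → t < H - δ → τ ∈ Ico (0 : ℝ) 1 → τ + σ ∈ Icc (0 : ℝ) 1 →
      σ ∈ uIcc 0 D → T.ex z' (t • Complex.I) = T.ex y (τ • w) →
      t + σ * w.im ∈ Ico 0 H ∧ t • Complex.I + σ • w ∈ Rect (D * w.re) H ∧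
        T.ex z' (t • Complex.I + σ • w) = T.ex y ((τ + σ) • w) := by
    intro t τ σ h1 h2 h3 h4 h5 h6
    have k1 : |σ * w.im| ≤ δ := by
      rw [abs_mul]
      exact (mul_le_of_le_one_left (abs_nonneg _)
        (abs_le.2 ⟨by linarith [h3.2, h4.1], by linarith [h3.1, h4.2]⟩)).trans hI
    have k2 : t + σ * w.im ∈ Ico 0 H :=
      ⟨by linarith [(abs_le.1 k1).1], by linarith [(abs_le.1 k1).2]⟩
    have k3 : t • Complex.I + σ • w ∈ Rect (D * w.re) H :=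
      ⟨by simpa using E3X.mul_mem h5, by simpa using Ico_subset_Icc_self k2⟩
    refine ⟨k2, k3, ?_⟩
    rw [← (T.cons z' _ cv r0 hd _ (rI t ⟨by linarith, by linarith⟩) _ k3).2, h6,
      ← (B.line y w (Icc 0 1) (convex_Icc 0 1) (left_mem_Icc.2 zero_le_one) hy τ
        (Ico_subset_Icc_self h3) _ h4).2, add_sub_cancel_left]
  have sub : ∀ c : ℝ, {t : ℝ | ∃ σ : ℝ, t • Complex.I + σ • w ∈ Rect (D * w.re) H ∧
      T.ex z' (t • Complex.I + σ • w) = T.ex y (c • w)}.Subsingleton := by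
    rintro c t ⟨σ, h1, h2⟩ t' ⟨σ', h1', h2'⟩
    have e := hi h1 h1' (h2.trans h2'.symm)
    have e1 := congrArg Complex.re e
    have e2 := congrArg Complex.im e
    simp only [Complex.add_re, Complex.add_im, Complex.smul_re, Complex.smul_im, Complex.I_re,
      Complex.I_im, smul_eq_mul, mul_zero, zero_add, mul_one] at e1 e2
    rw [mul_right_cancel₀ hre e1] at e2
    exact add_right_cancel e2
  refine E3X.count (E.fin y w _ H hy hw hre g2) (A₁ := {t ∈ T.cr y w z' H | t < δ})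
    (A₂ := {t ∈ T.cr y w z' H | H - δ ≤ t}) (fun s h t h' => by_contra fun n => ?_)
    (fun s h t h' => by_contra fun n => ?_) (sub 0) (sub 1) (fun s => s - D * w.im) fun t ht => ?_
  · refine (E.sep y w z' H hy hw hre g1 s h.1 t h'.1 n).not_gt (abs_lt.2 ⟨?_, ?_⟩) <;>
      linarith [h.1.1.1, h'.1.1.1, h.2, h'.2]
  · refine (E.sep y w z' H hy hw hre g1 s h.1 t h'.1 n).not_gt (abs_lt.2 ⟨?_, ?_⟩) <;>
      linarith [h.1.1.2, h'.1.1.2, h.2, h'.2]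
  rcases lt_or_ge t δ with h1 | h1
  · exact Or.inl (Or.inl (Or.inl (Or.inr ⟨ht, h1⟩)))
  rcases le_or_gt (H - δ) t with h2 | h2
  · exact Or.inl (Or.inl (Or.inr ⟨ht, h2⟩))
  obtain ⟨-, τ, h3, h4⟩ := ht
  rcases lt_or_ge (τ + D) 0 with h5 | h5
  · obtain ⟨-, k1, k2⟩ := mv t τ (-τ) h1 h2 h3 (by simp)
      (mem_uIcc.2 (Or.inr ⟨by linarith, by linarith [h3.1]⟩)) h4
    rw [add_neg_cancel] at k2
    exact Or.inl (Or.inr ⟨_, k1, k2⟩)
  rcases le_or_gt 1 (τ + D) with h6 | h6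
  · obtain ⟨-, k1, k2⟩ := mv t τ (1 - τ) h1 h2 h3 (by simp)
      (mem_uIcc.2 (Or.inl ⟨by linarith [h3.2], by linarith⟩)) h4
    rw [add_sub_cancel] at k2
    exact Or.inr ⟨_, k1, k2⟩
  obtain ⟨k0, -, k2⟩ := mv t τ D h1 h2 h3 ⟨h5, h6.le⟩ right_mem_uIcc h4
  refine Or.inl (Or.inl (Or.inl (Or.inl ⟨t + D * w.im, ⟨k0, τ + D, ⟨h5, h6⟩, ?_⟩,
    add_sub_cancel_right _ _⟩)))
  rw [(T.cons z' _ cv r0 hd _ ra _ (rv _ (Ico_subset_Icc_self k0))).2, ← k2]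
  congr 1
  apply Complex.ext <;> simp

end Pool.Agent.MP_16ecd2_an.H18
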