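import Pool.Agent.MP_16ecd2_an.H18.Kit

/-!
Developing maps along the separatrices.
-/

set_option autoImplicit false

namespace Pool.Agent.MP_16ecd2_an.H18

open MeasureTheory Set Filter Topology Metric

namespace FamX

variable {Y : Type} [MeasurableSpace Y] {T : TS Y} {S' : Y → Set ℂ} {k : ℕ} {d : ℝ} {x : Y}
  {e a b v : ℂ}

/-- At most one singular point is visible at distance at most `3 d`. -/
def Loc (T : TS Y) (d : ℝ) : Prop :=
  ∀ y, ∀ a ∈ T.S y, ∀ a' ∈ T.S y, ‖a‖ ≤ 3 * d → ‖a'‖ ≤ 3 * d → a = a'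

theorem exists_loc (hb : Base T) : ∃ δ > 0, ∀ d ≤ δ, Loc T d := by
  obtain ⟨δ, δ0, h⟩ := hb.hol_sys
  refine ⟨δ / 8, by positivity, fun d hd y a ha a' ha' n n' => ?_⟩
  by_contra hne
  obtain ⟨c, -, c', -, h1, h2, -, h3⟩ := hb.pair y a a' ha ha' hne
  have s : convexHull ℝ {0, a, a'} ⊆ closedBall (0 : ℂ) (3 * d) :=
    convexHull_min (by
      rintro z (rfl | rfl | rfl) <;> rw [mem_closedBall_zero_iff]
      · rw [norm_zero]; exact (norm_nonneg _).trans n
      · exact n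
      · exact n') (convex_closedBall _ _)
  have := (h _ h3).trans (norm_sub_le _ _)
  linarith [mem_closedBall_zero_iff.1 (s h1), mem_closedBall_zero_iff.1 (s h2)]

theorem star' (h : -e ∈ T.S x) {c : ℝ} (h1 : -1 < c) (h2 : c ≤ 0) : c • e ∉ T.S x := by
  have := T.star x _ h (-c) (by linarith) (by linarith)
  rwa [smul_neg, neg_smul, neg_neg] at this

theorem ray (hm : Marked T S' k) (h : -e ∈ S' x) {l : ℝ} (hl : 0 < l)
    (hr : T.Reg x ((l - 1) • e)) : -(l • e) ∈ S' (T.ex x ((l - 1) • e)) := by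
  have := hm.tr x ((l - 1) • e) _ h fun α β a0 b0 ab b1 => by
    have q : α • (l - 1) • e + β • -e = (α * (l - 1) - β) • e := by module
    rw [q]
    rcases le_or_gt (α * (l - 1) - β) 0 with hc | hc
    · refine star' (hm.sub x h) ?_ hc
      rcases a0.eq_or_lt with rfl | a0
      · linarith
      · nlinarith [mul_pos a0 hl]
    · have l1 : 0 < l - 1 := by
        by_contra hn
        nlinarith [mul_nonneg a0 (neg_nonneg.2 (not_lt.1 hn))]
      have := hr ((α * (l - 1) - β) / (l - 1)) ⟨by positivity, by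
        rw [div_le_one l1]; nlinarith⟩
      rwa [smul_smul, div_mul_cancel₀ _ l1.ne'] at this
  convert this using 1
  module

/-- The half disc seen from a point at distance `d` from its centre. -/
def Hd (d : ℝ) (a : ℂ) : Set ℂ := {u | 0 < (u + a).im ∧ ‖u + a‖ ≤ d}

theorem conv_Hd (d : ℝ) (a : ℂ) : Convex ℝ (Hd d a) := by
  have : Convex ℝ ({u : ℂ | 0 < u.im} ∩ closedBall 0 d) :=
    (convex_halfSpace_im_gt 0).inter (convex_closedBall _ _)
  have e : Hd d a = (fun x => x + a) ⁻¹' ({u : ℂ | 0 < u.im} ∩ closedBall 0 d) := by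
    ext u
    simp only [Hd, mem_ofPred_eq, mem_preimage, mem_inter_iff, mem_closedBall_zero_iff]
  exact e ▸ this.translate_preimage_left a

theorem disj_Hd (hL : Loc T d) (h : -a ∈ T.S x) (ha : ‖a‖ = d) : Disjoint (Hd d a) (T.S x) := by
  refine disjoint_left.2 fun u hu hs => ?_
  have d0 : 0 ≤ d := ha ▸ norm_nonneg a
  have n : ‖u‖ ≤ 3 * d := by
    have := norm_sub_le (u + a) a
    rw [add_sub_cancel_right] at this
    linarith [hu.2]
  have := hL x u hs _ h n (by rw [norm_neg]; linarith)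
  simpa [this] using hu.1

theorem move (hm : Marked T S' k) (hL : Loc T d) (h : -a ∈ S' x) (ha : ‖a‖ = d) (hb : ‖b‖ = d)
    (a0 : 0 < a.im) (b0 : 0 < b.im) : T.Reg x (b - a) ∧ -b ∈ S' (T.ex x (b - a)) := by
  have d0 : 0 ≤ d := ha ▸ norm_nonneg a
  have key : ∀ α β : ℝ, 0 ≤ α → 0 ≤ β → α + β ≤ 1 → β < 1 → α • (b - a) + β • -a ∉ T.S x := by
    intro α β h1 h2 h3 h4 hs
    have n : ‖α • (b - a) + β • -a‖ ≤ 3 * d := by
      refine (norm_add_le _ _).trans ?_
      rw [norm_smul, norm_smul, norm_neg, Real.norm_eq_abs, Real.norm_eq_abs, abs_of_nonneg h1,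
        abs_of_nonneg h2, ha]
      have := norm_sub_le b a
      nlinarith [norm_nonneg (b - a)]
    have := congrArg Complex.im (hL x _ hs _ (hm.sub x h) n (by rw [norm_neg]; linarith))
    simp only [Complex.add_im, Complex.smul_im, Complex.sub_im, Complex.neg_im, smul_eq_mul] at this
    rcases h1.eq_or_lt with rfl | h1
    · nlinarith
    · nlinarith [mul_pos h1 b0]
  refine ⟨fun t ht => by simpa using key t 0 ht.1 le_rfl (by linarith [ht.2]) zero_lt_one, ?_⟩
  convert hm.tr x _ _ h key using 1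
  ring

/-- The vector of length `d` in the direction of `v`. -/
noncomputable def un (d : ℝ) (v : ℂ) : ℂ := (d / ‖v‖) • v

theorem un_spec (d0 : 0 < d) (hv : 0 < v.im) :
    ‖un d v‖ = d ∧ 0 < (un d v).im ∧ ∃ l : ℝ, 0 < l ∧ v = l • un d v := by
  have n : 0 < ‖v‖ := norm_pos_iff.2 fun h => by simp [h] at hv
  refine ⟨?_, ?_, ‖v‖ / d, by positivity, ?_⟩
  · rw [un, norm_smul, Real.norm_eq_abs, abs_of_pos (by positivity), div_mul_cancel₀ _ n.ne']
  · rw [un, Complex.smul_im, smul_eq_mul]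
    positivity
  · rw [un, smul_smul, show ‖v‖ / d * (d / ‖v‖) = 1 by field_simp, one_smul]

theorem cont_un (hv : 0 < v.im) : ContinuousAt (un d) v :=
  (continuousAt_const.div continuous_norm.continuousAt
    (norm_ne_zero_iff.2 fun h => by simp [h] at hv)).smul continuousAt_id

theorem cut (hb : Base T) (h : -e ∈ T.S x) {l : ℝ} (hl : 0 < l) (hr : ¬T.Reg x ((l - 1) • e)) :
    ∃ t ∈ Ioc (0 : ℝ) 1, t • l • e ∈ T.Hol := by
  simp only [TS.Reg, not_forall, not_not, smul_smul] at hr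
  obtain ⟨s, hs, hc⟩ := hr
  have c0 : 0 < s * (l - 1) := by
    by_contra hn
    refine star' h ?_ (not_lt.1 hn) hc
    rcases hs.1.eq_or_lt with rfl | s0
    · simp
    · nlinarith [mul_pos s0 hl, hs.2]
  have := (hb.mk_sc x _ _ h hc fun α β a0 b0 _ a1 b1 => by
    have q : α • -e + β • (s * (l - 1)) • e = (β * (s * (l - 1)) - α) • e := by module
    rw [q]
    rcases le_or_gt (β * (s * (l - 1)) - α) 0 with h1 | h1
    · exact star' h (by nlinarith) h1
    · have := T.star x _ hc ((β * (s * (l - 1)) - α) / (s * (l - 1))) (by positivity) (by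
        rw [div_lt_one c0]; nlinarith)
      rwa [smul_smul, div_mul_cancel₀ _ c0.ne'] at this).1
  have l1 : 0 < l - 1 := (pos_iff_pos_of_mul_pos c0).1 (lt_of_le_of_ne hs.1 fun h => by simp [← h] at c0)
  refine ⟨(s * (l - 1) + 1) / l, ⟨by positivity, by rw [div_le_one hl]; nlinarith [hs.2]⟩, _, this,
    ?_⟩
  rw [smul_smul, div_mul_cancel₀ _ hl.ne']
  module

theorem back_reg (hL : Loc T d) (h : -v ∈ T.S x) (he : ‖e‖ = d) {l : ℝ} (hl : 0 < l)
    (hv : v = l • e) : T.Reg x ((l⁻¹ - 1) • v) := by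
  intro t ht hs
  have d0 : 0 ≤ d := he ▸ norm_nonneg e
  have li := inv_pos.2 hl
  rw [smul_smul] at hs
  rcases le_or_gt (t * (l⁻¹ - 1)) 0 with hc | hc
  · refine star' h ?_ hc hs
    rcases ht.1.eq_or_lt with rfl | t0
    · simp
    · nlinarith [mul_pos t0 li, ht.2]
  · have l1 : 0 < l⁻¹ - 1 := 
      (pos_iff_pos_of_mul_pos hc).1 (lt_of_le_of_ne ht.1 fun h => by simp [← h] at hc)
    have l2 : l < 1 := (one_lt_inv₀ hl).1 (by linarith)
    have nv : ‖v‖ = l * d := by rw [hv, norm_smul, Real.norm_eq_abs, abs_of_pos hl, he]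
    have q : l⁻¹ * l = 1 := inv_mul_cancel₀ hl.ne'
    have := hL x _ hs _ h (by
      rw [norm_smul, Real.norm_eq_abs, abs_of_pos hc, nv]
      have : t * (l⁻¹ - 1) * l ≤ 1 := by nlinarith [ht.2, mul_pos l1 hl]
      nlinarith) (by rw [norm_neg, nv]; nlinarith)
    rw [← neg_one_smul ℝ v, ← sub_eq_zero, ← sub_smul, smul_eq_zero] at this
    rcases this with h1 | h1
    · linarith
    · exact T.star x _ h 0 le_rfl zero_lt_one (by simpa [h1] using h)

end FamX

open FamX in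
theorem fam (hb : RB) : RFam := by
  intro Y _ T S' k hm
  have hB := hb Y T
  obtain ⟨δ, δ0, hδ⟩ := hm.card
  obtain ⟨δ', δ1, hδ'⟩ := exists_loc hB
  obtain ⟨d, d0, d1, hL⟩ : ∃ d, 0 < d ∧ d ≤ δ ∧ Loc T d :=
    ⟨min δ δ', lt_min δ0 δ1, min_le_left _ _, hδ' _ (min_le_right _ _)⟩
  obtain ⟨a, na, ia⟩ : ∃ a : ℂ, ‖a‖ = d ∧ 0 < a.im :=
    ⟨_, (un_spec d0 (v := Complex.I) (by simp)).1, (un_spec d0 (by simp)).2.1⟩
  have hf : Finite {y | -a ∈ S' y} := ((T.prong (-a)).1.subset fun y hy => hm.sub y hy).to_subtype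
  let ι : {y | -a ∈ S' y} ≃ Fin k := Finite.equivFinOfCardEq
    (hδ (-a) (neg_ne_zero.2 fun h => by simp [h] at ia) (by rw [norm_neg, na]; exact d1))
  let y : Fin k → Y := fun i => ι.symm i
  have hy : ∀ i, -a ∈ S' (y i) := fun i => (ι.symm i).2
  let b : Fin k → ℂ → Y := fun i v => T.ex (y i) (un d v - a)
  have mv : ∀ i {v : ℂ}, 0 < v.im → T.Reg (y i) (un d v - a) ∧ -un d v ∈ S' (b i v) :=
    fun i v hv => move hm hL (hy i) na (un_spec d0 hv).1 ia (un_spec d0 hv).2.1
  have bb : ∀ i {v w : ℂ}, 0 < v.im → 0 < w.im → T.ex (b i v) (un d w - un d v) = b i w := by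
    intro i v w hv hw
    have := T.cons (y i) _ (conv_Hd d a) ⟨by simpa using ia, by simp [na]⟩
      (disj_Hd hL (hm.sub _ (hy i)) na) (un d v - a)
      ⟨by simpa using (un_spec d0 hv).2.1, by simp [(un_spec d0 hv).1]⟩ (un d w - un d v)
      ⟨by simpa using (un_spec d0 hw).2.1, by simp [(un_spec d0 hw).1]⟩
    rw [this.2]
    congr 1
    ring
  have loc : ∀ i (v : ℂ), 0 < v.im → T.Reg (b i v) (v - un d v) → ∃ r > 0,
      (∀ h : ℂ, ‖h‖ < r → h ∉ T.S (T.ex (b i v) (v - un d v)) ∧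
        T.ex (T.ex (b i v) (v - un d v)) h = T.ex (b i v) (v - un d v + h)) ∧
      ∀ᶠ w in 𝓝 v, (0 < w.im ∧ T.Reg (b i w) (w - un d w)) ∧
        T.ex (b i w) (w - un d w) = T.ex (b i v) (w - un d v) := by
    intro i v hv hr
    obtain ⟨r, r0, hd⟩ := hB.tube _ _ hr
    have hc := (convex_segment (𝕜 := ℝ) (0 : ℂ) (v - un d v)).thickening r
    have m0 := self_subset_thickening r0 _ (left_mem_segment ℝ (0 : ℂ) (v - un d v))
    have m1 := self_subset_thickening r0 _ (right_mem_segment ℝ (0 : ℂ) (v - un d v))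
    refine ⟨r, r0, fun h hh => T.cons _ _ hc m0 hd _ m1 h (mem_thickening_iff.2
      ⟨_, right_mem_segment ℝ _ _, by rwa [dist_self_add_left]⟩), ?_⟩
    have c1 : ContinuousAt (fun w => un d w - un d v) v := (cont_un hv).sub continuousAt_const
    have c2 : ContinuousAt (fun w => w - un d v) v := by fun_prop
    filter_upwards [(isOpen_lt continuous_const Complex.continuous_im).mem_nhds hv,
      c1.eventually (isOpen_thickening.mem_nhds (by simpa using m0)),
      c2.eventually (isOpen_thickening.mem_nhds m1)] with w w0 w1 w2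
    have q : un d w - un d v + (w - un d w) = w - un d v := by ring
    rw [← bb i hv w0]
    exact ⟨⟨w0, hB.reg _ _ hc m0 hd _ w1 _ (q ▸ w2)⟩,
      (T.cons _ _ hc m0 hd _ w1 _ (q ▸ w2)).2.trans (by rw [q])⟩
  refine ⟨fun i => {v | 0 < v.im ∧ T.Reg (b i v) (v - un d v)},
    fun i v => T.ex (b i v) (v - un d v), fun i => IsOpen.measurableSet ?_, fun i v hv => ?_,
    fun i v hv => ?_, fun z v hv hq => ?_, fun i j v hi hj e => ?_, fun i v hv hn => ?_⟩
  · refine isOpen_iff_mem_nhds.2 fun v hv => ?_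
    obtain ⟨r, -, -, h⟩ := loc i v hv.1 hv.2
    exact h.mono fun w hw => hw.1
  · obtain ⟨r, r0, h1, h2⟩ := loc i v hv.1 hv.2
    obtain ⟨ρ, ρ0, h3⟩ := Metric.eventually_nhds_iff.1 h2
    refine ⟨min r ρ, lt_min r0 ρ0, disjoint_left.2 fun h hh =>
      (h1 h ((mem_ball_zero_iff.1 hh).trans_le (min_le_left _ _))).1, fun h hh _ => ?_⟩
    rw [(h1 h (hh.trans_le (min_le_left _ _))).2]
    refine (h3 (by simpa using hh.trans_le (min_le_right _ _))).2.trans ?_
    congr 1
    ring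
  · obtain ⟨-, -, l, l0, hl⟩ := un_spec d0 hv.1
    have q : v - un d v = (l - 1) • un d v := by rw [sub_smul, one_smul, ← hl]
    have := ray hm (mv i hv.1).2 l0 (q ▸ hv.2)
    rwa [← q, ← hl] at this
  · obtain ⟨n1, n2, l, l0, hl⟩ := un_spec d0 hv
    have q : l⁻¹ • v = un d v := by
      conv_lhs => rw [hl]
      rw [smul_smul, inv_mul_cancel₀ l0.ne', one_smul]
    have r1 := back_reg hL (hm.sub _ hq) n1 l0 hl
    have r2 := ray hm hq (inv_pos.2 l0) r1
    rw [sub_smul, one_smul, q] at r1 r2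
    obtain ⟨r3, r4⟩ := move hm hL r2 n1 na n2 ia
    have e1 : b (ι ⟨_, r4⟩) v = T.ex z (un d v - v) := by
      have := (hB.back _ _ r3).2
      rw [neg_sub] at this
      simp only [b, y, Equiv.symm_apply_apply, this]
    have := hB.back _ _ r1
    rw [neg_sub, ← e1] at this
    exact ⟨_, ⟨hv, this.1⟩, this.2⟩
  · have e1 : b i v = b j v := by
      rw [← (hB.back _ _ hi.2).2, ← (hB.back _ _ hj.2).2]
      exact congrArg (T.ex · _) e
    have e2 : y i = y j := by
      rw [← (hB.back _ _ (mv i hi.1).1).2, ← (hB.back _ _ (mv j hi.1).1).2]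
      exact congrArg (T.ex · _) e1
    exact ι.symm.injective (Subtype.ext e2)
  · obtain ⟨-, -, l, l0, hl⟩ := un_spec d0 hv
    have q : v - un d v = (l - 1) • un d v := by rw [sub_smul, one_smul, ← hl]
    have := cut hB (hm.sub _ (mv i hv).2) l0 fun h => hn ⟨hv, q ▸ h⟩
    rwa [← hl] at this

end Pool.Agent.MP_16ecd2_an.H18
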