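import Pool.Agent.MP_16ecd2_an.H18.Kit

/-!
Finiteness from the local structure.
-/

set_option autoImplicit false

namespace Pool.Agent.MP_16ecd2_an.H18

open Set Metric

namespace FinX

variable {Y : Type} {S : Y → Set ℂ} {ex : Y → ℂ → Y}

/-- The consistency hypothesis. -/
def Cons (S : Y → Set ℂ) (ex : Y → ℂ → Y) : Prop :=
  ∀ (x : Y) (C : Set ℂ), Convex ℝ C → 0 ∈ C → Disjoint C (S x) → ∀ u ∈ C, ∀ w, u + w ∈ C →
    w ∉ S (ex x u) ∧ ex (ex x u) w = ex x (u + w)

/-- The star hypothesis. -/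
def Star (S : Y → Set ℂ) : Prop := ∀ x, ∀ a ∈ S x, ∀ t : ℝ, 0 ≤ t → t < 1 → t • a ∉ S x

theorem back (h0 : ∀ x, ex x 0 = x) (hc : Cons S ex) {x : Y} {C : Set ℂ} (hC : Convex ℝ C)
    (hz : 0 ∈ C) (hd : Disjoint C (S x)) {u : ℂ} (hu : u ∈ C) : ex (ex x u) (-u) = x := by
  have := (hc x C hC hz hd u hu (-u) (by simpa using hz)).2
  rw [this, add_neg_cancel, h0]

theorem bf (h0 : ∀ x, ex x 0 = x) (hc : Cons S ex) {x : Y} {C₀ C : Set ℂ} (hC₀ : Convex ℝ C₀)
    (hz₀ : 0 ∈ C₀) (hd : Disjoint C₀ (S x)) {u : ℂ} (hu₀ : u ∈ C₀) (hC : Convex ℝ C)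
    (hz : 0 ∈ C) (hu : u ∈ C) (h : ∀ w ∈ C, w ∉ C₀ → w - u ∉ S (ex x u)) :
    ∀ w ∈ C, w ∉ S x := by
  intro w hw
  have hv : Convex ℝ ((fun z => u + z) ⁻¹' C) := hC.translate_preimage_right u
  have hd' : Disjoint ((fun z => u + z) ⁻¹' C) (S (ex x u)) := by
    rw [Set.disjoint_left]
    intro z hz'
    by_cases hq : u + z ∈ C₀
    · exact (hc x C₀ hC₀ hz₀ hd u hu₀ z hq).1
    · simpa using h (u + z) hz' hq
  have := (hc (ex x u) _ hv (by simpa using hu) hd' (-u) (by simpa using hz) w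
    (by simpa using hw)).1
  rwa [back h0 hc hC₀ hz₀ hd hu₀] at this

theorem conv_ray (a : ℂ) {I : Set ℝ} (hI : Convex ℝ I) :
    Convex ℝ ((fun s : ℝ => s • a) '' I) :=
  hI.linear_image (LinearMap.toSpanSingleton ℝ ℂ a)

theorem ray_free (hs : Star S) {x : Y} {a : ℂ} (ha : a ∈ S x) :
    Disjoint ((fun s : ℝ => s • a) '' Ico 0 1) (S x) := by
  rw [Set.disjoint_left]
  rintro _ ⟨s, hs', rfl⟩
  exact hs x a ha s hs'.1 hs'.2

theorem tr (h0 : ∀ x, ex x 0 = x) (hs : Star S) (hc : Cons S ex) {x : Y} {a : ℂ} (ha : a ∈ S x)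
    {t : ℝ} (ht0 : 0 ≤ t) (ht1 : t < 1) : a - t • a ∈ S (ex x (t • a)) := by
  by_contra hn
  refine bf h0 hc (conv_ray a (convex_Ico 0 1)) ⟨0, by simp, by simp⟩ (ray_free hs ha)
    ⟨t, ⟨ht0, ht1⟩, rfl⟩ (conv_ray a (convex_Icc 0 1)) ⟨0, by simp, by simp⟩
    ⟨t, ⟨ht0, ht1.le⟩, rfl⟩ ?_ a ⟨1, by simp, by simp⟩ ha
  rintro _ ⟨s, hs', rfl⟩ hw
  have e : s = 1 := by
    by_contra hne
    exact hw ⟨s, ⟨hs'.1, lt_of_le_of_ne hs'.2 hne⟩, rfl⟩
  simpa only [e, one_smul] using hn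

theorem zero (hs : Star S) (x : Y) : (0 : ℂ) ∉ S x := fun h => by
  simpa [h] using hs x 0 h 0 le_rfl one_pos

/-- The triangle with vertices `0`, `u`, `v`. -/
def Tri (u v : ℂ) : Set ℂ := {w | ∃ α β : ℝ, 0 ≤ α ∧ 0 ≤ β ∧ α + β ≤ 1 ∧ w = α • u + β • v}

theorem conv_tri (u v : ℂ) : Convex ℝ (Tri u v) := by
  rintro _ ⟨α, β, h1, h2, h3, rfl⟩ _ ⟨α', β', h1', h2', h3', rfl⟩ p q hp hq hpq
  refine ⟨p * α + q * α', p * β + q * β', by positivity, by positivity, by nlinarith, ?_⟩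
  module

theorem det_ne (hs : Star S) {r : ℝ}
    (h1 : ∀ x, ∀ v ∈ S x, ∀ v' ∈ S x, ‖v‖ < r → ‖v'‖ < r → v = v') {x : Y} {a b : ℂ}
    (ha : a ∈ S x) (hb : b ∈ S x) (hab : ‖a - b‖ < r) (hne : a ≠ b) : det a b ≠ 0 := by
  intro hd
  have ha0 : a ≠ 0 := fun h => zero hs x (h ▸ ha)
  obtain ⟨s, rfl⟩ := par_of_det ha0 hd
  rcases lt_or_ge s 0 with h | h
  · have e : a - s • a = (1 - s) • a := by module
    rw [e, norm_smul, Real.norm_eq_abs, abs_of_pos (by linarith)] at hab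
    have hn := norm_nonneg a
    refine hne (h1 x a ha _ hb (by nlinarith) ?_)
    rw [norm_smul, Real.norm_eq_abs, abs_of_neg h]
    nlinarith
  · rcases lt_trichotomy s 1 with h' | h' | h'
    · exact hs x a ha s h h' hb
    · exact hne (by rw [h', one_smul])
    · have := hs x _ hb s⁻¹ (by positivity) (inv_lt_one_of_one_lt₀ h')
      rw [smul_smul, inv_mul_cancel₀ (by positivity), one_smul] at this
      exact this ha

theorem key (h0 : ∀ x, ex x 0 = x) (hs : Star S) (hc : Cons S ex) {r : ℝ}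
    (h1 : ∀ x, ∀ v ∈ S x, ∀ v' ∈ S x, ‖v‖ < r → ‖v'‖ < r → v = v') {x : Y} {R : ℝ} (hR : 0 ≤ R)
    {a b : ℂ} (ha : a ∈ S x) (hb : b ∈ S x) (haR : R < ‖a‖) (haR' : ‖a‖ ≤ R + r / 4)
    (hab : ‖a - b‖ < r / 4)
    (hsg : ∀ f ∈ S x, ‖f‖ ≤ R → SignType.sign (det f a) = SignType.sign (det f b)) : a = b := by
  by_contra hne
  have hr : 0 < r := by linarith [norm_nonneg (a - b)]
  have hD := det_ne hs h1 ha hb (by linarith) hne
  have hap : 0 < ‖a‖ := hR.trans_lt haR
  set t := R / ‖a‖ with ht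
  have ht0 : 0 ≤ t := by positivity
  have ht1 : t < 1 := (div_lt_one hap).2 haR
  have hta : t * ‖a‖ = R := div_mul_cancel₀ _ hap.ne'
  have hu : ‖t • a‖ = R := by rw [norm_smul, Real.norm_eq_abs, abs_of_nonneg ht0, hta]
  have hau : ‖a - t • a‖ ≤ r / 4 := by
    have e : a - t • a = (1 - t) • a := by module
    rw [e, norm_smul, Real.norm_eq_abs, abs_of_pos (by linarith)]
    nlinarith
  have hbu : ‖b - t • a‖ < r / 2 := by
    have e : b - t • a = (a - t • a) - (a - b) := by ring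
    rw [e]
    linarith [norm_sub_le (a - t • a) (a - b)]
  have hz : (0 : ℂ) ∈ Tri (t • a) b := ⟨0, 0, le_rfl, le_rfl, by norm_num, by simp⟩
  have hum : t • a ∈ Tri (t • a) b := ⟨1, 0, zero_le_one, le_rfl, by norm_num, by simp⟩
  have hd : Disjoint (Tri (t • a) b ∩ closedBall 0 R) (S x) := by
    rw [Set.disjoint_left]
    rintro f ⟨⟨α, β, h2, h3, h4, e⟩, hf⟩ hfS
    have h5 := hsg f hfS (mem_closedBall_zero_iff.1 hf)
    have e1 : det f a = -(β * det a b) := by
      rw [e, det_add_left, det_smul_left, det_smul_left, det_smul_left, det_self, det_comm b a]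
      ring
    have e2 : det f b = α * t * det a b := by
      rw [e, det_add_left, det_smul_left, det_smul_left, det_smul_left, det_self]
      ring
    rw [e1, e2, Left.sign_neg, sign_mul, sign_mul (α * t)] at h5
    have h6 : SignType.sign (det a b) ≠ 0 := sign_ne_zero.2 hD
    have h7 : -SignType.sign β = SignType.sign (α * t) :=
      mul_right_cancel₀ h6 (by rw [← h5, neg_mul])
    have h8 : 0 ≤ α * t := by positivity
    have hβ : β = 0 := by
      by_contra hβ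
      rw [sign_pos (lt_of_le_of_ne h3 (Ne.symm hβ))] at h7
      have := sign_nonneg_iff.2 h8
      rw [← h7] at this
      exact absurd this (by decide)
    rw [hβ, zero_smul, add_zero, smul_smul] at e
    exact hs x a ha (α * t) h8 (by nlinarith) (e ▸ hfS)
  refine bf h0 hc ((conv_tri _ _).inter (convex_closedBall 0 R)) ⟨hz, by simpa using hR⟩ hd
    ⟨hum, mem_closedBall_zero_iff.2 hu.le⟩ (conv_tri _ _) hz hum ?_ b
    ⟨0, 1, le_rfl, zero_le_one, by norm_num, by simp⟩ hb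
  intro w hw hw' hwS
  have hwR : R < ‖w‖ := by
    by_contra hn
    exact hw' ⟨hw, mem_closedBall_zero_iff.2 (not_lt.1 hn)⟩
  obtain ⟨α, β, h2, h3, h4, e⟩ := hw
  have hq : ‖β • (b - t • a)‖ < r / 2 := by
    rw [norm_smul, Real.norm_eq_abs, abs_of_nonneg h3]
    nlinarith [norm_nonneg (b - t • a)]
  have hw1 : ‖w‖ ≤ (α + β) * R + ‖β • (b - t • a)‖ := by
    have e' : w = (α + β) • (t • a) + β • (b - t • a) := by rw [e]; module
    rw [e']
    refine (norm_add_le _ _).trans ?_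
    rw [norm_smul (α + β), hu, Real.norm_eq_abs, abs_of_nonneg (by linarith)]
  have hw2 : ‖w - t • a‖ ≤ ‖β • (b - t • a)‖ + (1 - α - β) * R := by
    have e' : w - t • a = β • (b - t • a) - (1 - α - β) • (t • a) := by rw [e]; module
    rw [e']
    refine (norm_sub_le _ _).trans ?_
    rw [norm_smul (1 - α - β), hu, Real.norm_eq_abs, abs_of_nonneg (by linarith)]
  have h5 := h1 _ _ hwS _ (tr h0 hs hc ha ht0 ht1) (by nlinarith) (by linarith)
  have h6 : w = a := sub_left_injective h5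
  have h7 : det a w = β * det a b := by
    rw [e, det_add_right, det_smul_right, det_smul_right, det_smul_right, det_self]
    ring
  rw [h6, det_self] at h7
  have hβ : β = 0 := (mul_eq_zero.1 h7.symm).resolve_right hD
  rw [hβ, zero_smul, add_zero, smul_smul, h6] at e
  exact hs x a ha (α * t) (by positivity) (by nlinarith) (e ▸ ha)

theorem step (h0 : ∀ x, ex x 0 = x) (hs : Star S) (hc : Cons S ex) {r : ℝ} (hr : 0 < r)
    (h1 : ∀ x, ∀ v ∈ S x, ∀ v' ∈ S x, ‖v‖ < r → ‖v'‖ < r → v = v') {x : Y} {R : ℝ} (hR : 0 ≤ R)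
    (hF : (S x ∩ closedBall 0 R).Finite) : (S x ∩ closedBall 0 (R + r / 4)).Finite := by
  obtain ⟨T, -, hT, hcov⟩ := (isCompact_closedBall (0 : ℂ) (R + r / 4)).finite_cover_balls
    (by positivity : 0 < r / 8)
  have hy : ∀ a : ℂ, ∃ y : ℂ, a ∈ closedBall (0 : ℂ) (R + r / 4) → y ∈ T ∧ a ∈ ball y (r / 8) := by
    intro a
    by_cases h : a ∈ closedBall (0 : ℂ) (R + r / 4)
    · obtain ⟨y, h2, h3⟩ := mem_iUnion₂.1 (hcov h)
      exact ⟨y, fun _ => ⟨h2, h3⟩⟩
    · exact ⟨0, fun h' => absurd h' h⟩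
  choose y hy using hy
  have := hF.to_subtype
  have hG : ((S x ∩ closedBall 0 (R + r / 4)) \ closedBall 0 R).Finite := by
    refine Set.Finite.of_injOn (f := fun a => (y a,
      fun f : ↥(S x ∩ closedBall 0 R) => SignType.sign (det f a))) (t := T ×ˢ univ)
      (fun a ha => ⟨(hy a ha.1.2).1, mem_univ _⟩) (fun a ha b hb e => ?_) (hT.prod finite_univ)
    obtain ⟨e1, e2⟩ := Prod.ext_iff.1 e
    have h2 := (hy a ha.1.2).2
    have h3 := (hy b hb.1.2).2
    simp only at e1 e2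
    rw [← e1] at h3
    refine key h0 hs hc h1 hR ha.1.1 hb.1.1
      (not_le.1 fun h => ha.2 (mem_closedBall_zero_iff.2 h)) (mem_closedBall_zero_iff.1 ha.1.2) ?_
      fun f hf hf' => congrFun e2 ⟨f, hf, mem_closedBall_zero_iff.2 hf'⟩
    rw [← dist_eq_norm]
    linarith [dist_triangle_right a b (y a), mem_ball.1 h2, mem_ball.1 h3]
  refine (hF.union hG).subset fun a ha => ?_
  by_cases h : a ∈ closedBall (0 : ℂ) R
  · exact Or.inl ⟨ha.1, h⟩
  · exact Or.inr ⟨ha, h⟩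

end FinX

theorem rfin : RFin := by
  intro Y S ex h0 hs hc
  refine ⟨fun ⟨r, hr, h1⟩ x R => ?_, fun n ⟨δ, hδ, h1⟩ v => ?_⟩
  · have h : ∀ k : ℕ, (S x ∩ closedBall 0 (k * (r / 4))).Finite := by
      intro k
      induction k with
      | zero => exact (finite_singleton (0 : ℂ)).subset fun a ha => by simpa using ha.2
      | succ k ih =>
        have := FinX.step h0 hs hc hr h1 (by positivity) ih
        rwa [← add_one_mul, ← Nat.cast_succ] at this
    obtain ⟨k, hk⟩ := exists_nat_ge (R / (r / 4))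
    exact (h k).subset (inter_subset_inter_right _ (closedBall_subset_closedBall
      ((div_le_iff₀ (by positivity)).1 hk)))
  · by_cases hv : v = 0
    · have e : {y | v ∈ S y} = ∅ := eq_empty_of_forall_notMem fun y hy => FinX.zero hs y (hv ▸ hy)
      rw [e]
      simp
    · have hp : 0 < ‖v‖ := norm_pos_iff.2 hv
      set t := min 1 (δ / ‖v‖) with ht
      have ht0 : 0 < t := lt_min one_pos (by positivity)
      have ht1 : t ≤ 1 := min_le_left _ _
      have ht2 : t * ‖v‖ ≤ δ := (le_div_iff₀ hp).1 (min_le_right _ _)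
      obtain ⟨h2, h3⟩ := h1 (t • v) (smul_ne_zero ht0.ne' hv)
        (by rwa [norm_smul, Real.norm_eq_abs, abs_of_pos ht0])
      have hm : MapsTo (fun y => ex y ((1 - t) • v)) {y | v ∈ S y} {y | t • v ∈ S y} := by
        intro y hy
        have := FinX.tr h0 hs hc hy (t := 1 - t) (by linarith) (by linarith)
        rwa [show v - (1 - t) • v = t • v by module] at this
      have hi : InjOn (fun y => ex y ((1 - t) • v)) {y | v ∈ S y} := by
        have hb : ∀ y ∈ {y | v ∈ S y}, ex (ex y ((1 - t) • v)) (-((1 - t) • v)) = y := fun y hy =>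
          FinX.back h0 hc (FinX.conv_ray v (convex_Ico 0 1)) ⟨0, by simp, by simp⟩
            (FinX.ray_free hs hy) ⟨1 - t, ⟨by linarith, by linarith⟩, rfl⟩
        intro y hy y' hy' e
        rw [← hb y hy, ← hb y' hy']
        exact congrArg (fun z => ex z (-((1 - t) • v))) e
      exact ⟨Set.Finite.of_injOn hm hi h2, (ncard_le_ncard_of_injOn _ hm hi h2).trans h3⟩

end Pool.Agent.MP_16ecd2_an.H18
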