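import Pool.Agent.MP_16ecd2_an.H18.Kit

/-!
Almost every point has good cells at all large scales.
-/

set_option autoImplicit false

namespace Pool.Agent.MP_16ecd2_an.H18

open MeasureTheory Set Filter Topology Metric
open scoped ENNReal

namespace GAX

theorem decay {r : ℝ} {D : ℕ} (h0 : 0 ≤ r) (h1 : r ≤ 1) (h : r ^ D * 256 ≤ 1) (N : ℕ) :
    r ^ N * ((2 ^ (N / D) : ℕ) : ℝ) ^ 8 ≤ 1 := by
  have e : ((2 ^ (N / D) : ℕ) : ℝ) ^ 8 = 256 ^ (N / D) := by
    rw [Nat.cast_pow, ← pow_mul, mul_comm, pow_mul]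
    norm_num
  have h2 : r ^ N ≤ (r ^ D) ^ (N / D) := by
    rw [← pow_mul]
    exact pow_le_pow_of_le_one h0 h1 (Nat.mul_div_le N D)
  rw [e]
  refine (mul_le_mul_of_nonneg_right h2 (by positivity)).trans ?_
  rw [← mul_pow]
  exact pow_le_one₀ (by positivity) h

end GAX

open GAX

theorem ga (hv : RVar) : RGA := by
  intro Y _ T S' k hM
  obtain ⟨C, γ, hC, γ0, γ1, H⟩ := hv Y T S' k hM
  set r := √γ with hr
  have r0 : 0 ≤ r := Real.sqrt_nonneg _
  have r1 : r < 1 := (Real.sqrt_lt' one_pos).2 (by simpa using γ1)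
  have r2 : γ = r * r := (Real.mul_self_sqrt γ0.le).symm
  obtain ⟨D₀, hD₀⟩ := exists_pow_lt_of_lt_one (show (0 : ℝ) < 1 / 256 by norm_num) r1
  refine ⟨D₀, fun D hD _ => ?_⟩
  have hD' : r ^ D * 256 ≤ 1 := by linarith [pow_le_pow_of_le_one r0 r1.le hD]
  have key : ∀ N : ℕ, T.μ {q | 1 ≤ N ∧ ¬ Cells (nS S' q) (k / T.area) (8 ^ N) (2 ^ (N / D))} ≤
      ENNReal.ofReal (2 * C * r ^ N) := by
    intro N
    by_cases hN : 1 ≤ N
    swap
    · simp [hN]
    have dc := decay r0 r1.le hD' N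
    have n1 : (1 : ℝ) ≤ ((2 ^ (N / D) : ℕ) : ℝ) := by exact_mod_cast Nat.one_le_two_pow
    have n2 : ((2 ^ (N / D) : ℕ) : ℝ) ≤ 2 ^ N := by
      exact_mod_cast Nat.pow_le_pow_right (by norm_num) (Nat.div_le_self N D)
    generalize 2 ^ (N / D) = n at dc n1 n2
    have n0 : (0 : ℝ) < n := by linarith
    have p1 : (1 : ℝ) ≤ 2 ^ N := one_le_pow₀ (by norm_num)
    have L1 : (2 : ℝ) ^ N * n ≤ 8 ^ N := by
      have e : (8 : ℝ) ^ N = 2 ^ N * (2 ^ N * 2 ^ N) := by rw [← mul_pow, ← mul_pow]; norm_num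
      rw [e]
      exact mul_le_mul_of_nonneg_left (by nlinarith) (by positivity)
    have L0 : (0 : ℝ) < 8 ^ N := by positivity
    let B : ℕ × ℕ → Set Y := fun p => {q | 8 ^ N / (n : ℝ) ^ 3 ≤ |(ws (nS S' q)
      (Cone (Ico ((p.1 : ℝ) / n) ((p.1 + 1) / n)) (p.2 * 8 ^ N / n) ((p.2 + 1) * 8 ^ N / n))).toReal -
        k / T.area * 8 ^ N / n ^ 2|}
    let I : Finset (ℕ × ℕ) := (Finset.range n ×ˢ Finset.range n).filter fun p =>
      1 ≤ p.2 ∧ p.2 + 2 ≤ n
    have hs : {q | 1 ≤ N ∧ ¬ Cells (nS S' q) (k / T.area) (8 ^ N) n} ⊆ ⋃ p ∈ I, B p := by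
      intro q hq
      by_contra hn
      refine hq.2 fun a b ha hb hb' => le_of_lt (not_le.1 fun h => hn ?_)
      exact mem_biUnion (x := (a, b)) (Finset.mem_filter.2 ⟨Finset.mem_product.2
        ⟨Finset.mem_range.2 ha, Finset.mem_range.2 (by omega)⟩, hb, hb'⟩) h
    have hB : ∀ p ∈ I, T.μ (B p) ≤ ENNReal.ofReal (2 * C * γ ^ N * n ^ 6) := by
      rintro ⟨a, b⟩ hp
      obtain ⟨h1, h2, h3⟩ := Finset.mem_filter.1 hp
      have a1 : (a : ℝ) + 1 ≤ n := by
        exact_mod_cast Finset.mem_range.1 (Finset.mem_product.1 h1).1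
      have b1 : (1 : ℝ) ≤ b := by exact_mod_cast h2
      have b2 : (b : ℝ) + 2 ≤ n := by exact_mod_cast h3
      have h4 := H N (a / n) ((a + 1) / n) (b * 8 ^ N / n) ((b + 1) * 8 ^ N / n) (8 ^ N / n ^ 3) hN
        (by positivity) (by gcongr; linarith) ((div_le_one n0).2 a1)
        (by rw [le_div_iff₀ n0]; nlinarith) (by gcongr; linarith)
        (by rw [div_add_one n0.ne', div_le_iff₀ n0]; nlinarith) (by positivity)
      have e1 : (k : ℝ) * ((a + 1) / n - a / n) * ((b + 1) * 8 ^ N / n - b * 8 ^ N / n) / T.area =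
          k / T.area * 8 ^ N / n ^ 2 := by
        rw [div_mul_eq_mul_div, div_right_comm]
        congr 1
        field_simp
        ring
      have e2 : ((8 : ℝ) ^ N) ^ 2 / (8 ^ N / n ^ 3) ^ 2 + 8 ^ N / (8 ^ N / n ^ 3) = n ^ 6 + n ^ 3 := by
        field_simp
      rw [e1, e2] at h4
      refine h4.trans (ENNReal.ofReal_le_ofReal ?_)
      have h5 : (n : ℝ) ^ 3 ≤ n ^ 6 := pow_le_pow_right₀ n1 (by norm_num)
      have h6 : 0 ≤ C * γ ^ N := by positivity
      nlinarith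
    have hI : (I.card : ℝ) ≤ n ^ 2 := by
      have := Finset.card_filter_le (Finset.range n ×ˢ Finset.range n) fun p =>
        1 ≤ p.2 ∧ p.2 + 2 ≤ n
      rw [Finset.card_product, Finset.card_range, ← sq] at this
      exact_mod_cast this
    refine (measure_mono hs).trans ((measure_biUnion_finset_le I B).trans
      ((Finset.sum_le_sum hB).trans ?_))
    rw [← ENNReal.ofReal_sum_of_nonneg fun _ _ => by positivity, Finset.sum_const, nsmul_eq_mul]
    refine ENNReal.ofReal_le_ofReal ((mul_le_mul_of_nonneg_right hI (by positivity)).trans ?_)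
    have e3 : (n : ℝ) ^ 2 * (2 * C * γ ^ N * n ^ 6) = 2 * C * r ^ N * (r ^ N * n ^ 8) := by
      rw [r2, mul_pow]; ring
    rw [e3]
    exact mul_le_of_le_one_right (by positivity) dc
  have hsum : Summable fun N : ℕ => 2 * C * r ^ N := (summable_geometric_of_lt_one r0 r1).mul_left _
  filter_upwards [ae_eventually_notMem (ne_top_of_le_ne_top hsum.tsum_ofReal_ne_top
    (ENNReal.tsum_le_tsum key))] with q hq
  obtain ⟨N₀, h⟩ := eventually_atTop.1 hq
  exact ⟨max N₀ 1, fun N hN => not_not.1 fun hn =>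
    h N ((le_max_left _ _).trans hN) ⟨(le_max_right _ _).trans hN, hn⟩⟩

end Pool.Agent.MP_16ecd2_an.H18
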