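import Pool.Agent.MP_16ecd2_an.H18.Kit

/-!
From weighted counts in small cells to the number of points in a sector.
-/

set_option autoImplicit false

namespace Pool.Agent.MP_16ecd2_an.H18

open MeasureTheory Set Filter Topology Metric
open scoped ENNReal

namespace GBX

theorem fin {P : Set ℂ} (hP : LocFin P) {G : Set ℝ} (hG : G ⊆ Icc 0 1) {y₁ : ℝ} (h : 0 < y₁)
    (y₂ : ℝ) : (Cone G y₁ y₂ ∩ P).Finite := by
  refine (hP (2 * y₂)).subset fun v hv => ⟨hv.2, ?_⟩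
  obtain ⟨⟨⟨h1, h2⟩, h3⟩, -⟩ := hv
  have h0 : 0 < v.im := h.trans_le h1
  obtain ⟨h4, h5⟩ := hG h3
  rw [le_div_iff₀ h0] at h4
  rw [div_le_iff₀ h0] at h5
  have := norm_le_re_im v
  rw [abs_of_nonneg (by linarith), abs_of_pos h0] at this
  rw [mem_closedBall_zero_iff]
  linarith

theorem card_ws {P : Set ℂ} {G : Set ℝ} {y₁ y₂ : ℝ} (h : 0 < y₁)
    (hf : (Cone G y₁ y₂ ∩ P).Finite) :
    y₁ * (ws P (Cone G y₁ y₂)).toReal ≤ (Cone G y₁ y₂ ∩ P).ncard ∧
      ((Cone G y₁ y₂ ∩ P).ncard : ℝ) ≤ y₂ * (ws P (Cone G y₁ y₂)).toReal := by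
  have hm : ∀ v ∈ hf.toFinset, y₁ ≤ v.im ∧ v.im < y₂ := fun v hv => (hf.mem_toFinset.1 hv).1.1
  have e : (ws P (Cone G y₁ y₂)).toReal = ∑ v ∈ hf.toFinset, 1 / v.im := by
    rw [ws, tsum_eq_sum (s := hf.toFinset)
      fun v hv => indicator_of_notMem (fun e => hv (hf.mem_toFinset.2 e)) _,
      Finset.sum_congr rfl fun v hv => indicator_of_mem (hf.mem_toFinset.1 hv) _,
      ENNReal.toReal_sum (f := rho) fun v _ => ENNReal.ofReal_ne_top]
    exact Finset.sum_congr rfl fun v hv =>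
      ENNReal.toReal_ofReal (one_div_pos.2 (h.trans_le (hm v hv).1)).le
  rw [e, ncard_eq_toFinset_card _ hf, Finset.card_eq_sum_ones, Nat.cast_sum, Finset.mul_sum,
    Finset.mul_sum]
  refine ⟨Finset.sum_le_sum fun v hv => ?_, Finset.sum_le_sum fun v hv => ?_⟩
  · rw [mul_one_div, div_le_iff₀ (h.trans_le (hm v hv).1)]
    simpa using (hm v hv).1
  · rw [mul_one_div, le_div_iff₀ (h.trans_le (hm v hv).1)]
    simpa using (hm v hv).2.le

/-- The slopes of a column. -/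
def col (n a : ℕ) : Set ℝ := Ico ((a : ℝ) / n) ((a + 1) / n)

theorem col_sub {n a : ℕ} (ha : a < n) : col n a ⊆ Icc 0 1 := fun s hs => by
  have h0 : (0 : ℝ) < n := Nat.cast_pos.2 (by omega)
  have h1 : (a : ℝ) + 1 ≤ n := by exact_mod_cast ha
  exact ⟨le_trans (by positivity) hs.1, hs.2.le.trans ((div_le_one h0).2 h1)⟩

variable {P : Set ℂ} {c h : ℝ} {n : ℕ}

theorem cell (hP : LocFin P) (hh : 0 < h) (H : Cells P c (n * h) n) {a b : ℕ}
    (ha : a < n) (hb : 1 ≤ b) (hb' : b + 2 ≤ n) :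
    (c * b - 1) * (h ^ 2 / n) ≤ (Cone (col n a) (b * h) ((b + 1) * h) ∩ P).ncard ∧
      ((Cone (col n a) (b * h) ((b + 1) * h) ∩ P).ncard : ℝ) ≤ (c * (b + 1) + 1) * (h ^ 2 / n) := by
  have h0 : (0 : ℝ) < n := Nat.cast_pos.2 (by omega)
  have h1 : (b : ℝ) + 2 ≤ n := by exact_mod_cast hb'
  have h2 : (1 : ℝ) ≤ b := by exact_mod_cast hb
  have h3 : 0 < b * h := by positivity
  have H1 := H a b ha hb hb'
  rw [show b * (n * h) / n = b * h by field_simp,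
    show (b + 1) * (n * h) / n = (b + 1) * h by field_simp,
    show c * (n * h) / n ^ 2 = c * (h / n) by field_simp,
    show n * h / n ^ 3 = h / n / n by field_simp, abs_le] at H1
  obtain ⟨k1, k2⟩ := card_ws h3 (fin hP (col_sub ha) h3 ((b + 1) * h))
  change _ ≤ (ws P (Cone (col n a) _ _)).toReal - _ ∧ (ws P (Cone (col n a) _ _)).toReal - _ ≤ _
    at H1
  generalize (ws P (Cone (col n a) (b * h) ((b + 1) * h))).toReal = W at *
  have e1 : h ^ 2 / n = h * (h / n) := by ring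
  have e2 : h / n = n * (h / n / n) := by field_simp
  have e3 : 0 < h / n / n := by positivity
  generalize h / n / n = z at *
  rw [e1]
  generalize h / n = w at *
  constructor
  · refine le_trans ?_ k1
    have : b * h * (c * w - z) ≤ b * h * W := mul_le_mul_of_nonneg_left (by linarith) h3.le
    have : 0 ≤ h * z * (n - b) := mul_nonneg (by positivity) (by linarith)
    rw [e2] at *
    nlinarith
  · refine k2.trans ?_
    have : (b + 1) * h * W ≤ (b + 1) * h * (c * w + z) :=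
      mul_le_mul_of_nonneg_left (by linarith) (by positivity)
    have : 0 ≤ h * z * (n - (b + 1)) := mul_nonneg (by positivity) (by linarith)
    rw [e2] at *
    nlinarith

theorem column (hc : 0 ≤ c) (hP : LocFin P) (hh : 0 < h) (H : Cells P c (n * h) n) {a : ℕ}
    (ha : a < n) {j : ℕ} (hj : 1 ≤ j) (hj' : j + 1 ≤ n) :
    (c * j ^ 2 / 2 - (c + 1) * j) * (h ^ 2 / n) ≤ (Cone (col n a) h (j * h) ∩ P).ncard ∧
      ((Cone (col n a) h (j * h) ∩ P).ncard : ℝ) ≤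
        (c * j ^ 2 / 2 + (c + 1) * j) * (h ^ 2 / n) := by
  have h0 : 0 ≤ h ^ 2 / n := by positivity
  induction j, hj using Nat.le_induction with
  | base =>
    have e : Cone (col n a) h (((1 : ℕ) : ℝ) * h) ∩ P = ∅ := by
      refine eq_empty_of_forall_notMem fun v hv => ?_
      have := hv.1.1
      simp at this
    rw [e, ncard_empty, Nat.cast_zero, Nat.cast_one]
    exact ⟨mul_nonpos_of_nonpos_of_nonneg (by linarith) h0, by positivity⟩
  | succ j hj ih =>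
    obtain ⟨k1, k2⟩ := ih (by omega)
    obtain ⟨k3, k4⟩ := cell hP hh H ha hj hj'
    have h2 : (1 : ℝ) ≤ j := by exact_mod_cast hj
    have e : Cone (col n a) h (((j + 1 : ℕ) : ℝ) * h) ∩ P =
        Cone (col n a) h (j * h) ∩ P ∪ Cone (col n a) (j * h) ((j + 1) * h) ∩ P := by
      rw [← union_inter_distrib_right, Nat.cast_succ]
      congr 1
      ext v
      rw [Cone, ← Ico_union_Ico_eq_Ico (b := j * h) (by nlinarith) (by nlinarith)]
      exact or_and_right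
    rw [e, ncard_union_eq (Set.disjoint_left.2 fun v hv hv' => hv.1.1.2.not_ge hv'.1.1.1)
      (fin hP (col_sub ha) hh _) (fin hP (col_sub ha) (by positivity) _)]
    push_cast
    have := mul_nonneg hc h0
    constructor <;> nlinarith

theorem colU (hc : 0 ≤ c) (hP : LocFin P) (hh : 0 < h) (hn : 8 ≤ n) (H : Cells P c (n * h) n)
    {a : ℕ} (ha : a < n) {y : ℝ} (hy : 0 ≤ y) (hy' : y ≤ n * h / 2) {S : Set ℂ}
    (hS : ∀ v ∈ S, v ∈ P ∧ h ≤ v.im ∧ v.im ≤ y ∧ v.re / v.im ∈ col n a) :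
    (S.ncard : ℝ) ≤ c * y ^ 2 / 2 / n + (2 * c + 1) * h ^ 2 := by
  have h0 : (8 : ℝ) ≤ n := by exact_mod_cast hn
  have h1 := (div_lt_iff₀ hh).1 (Nat.lt_floor_add_one (y / h))
  have h2 := (le_div_iff₀ hh).1 (Nat.floor_le (div_nonneg hy hh.le))
  generalize ⌊y / h⌋₊ = j at *
  have h3 : (j : ℝ) ≤ n / 2 := le_of_mul_le_mul_right (by linarith) hh
  have h4 : j + 1 + 1 ≤ n := by
    have : (j : ℝ) + 1 + 1 ≤ n := by linarith
    exact_mod_cast this
  have k := (column hc hP hh H ha (Nat.le_add_left 1 j) h4).2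
  rw [Nat.cast_succ] at k
  have k' : (S.ncard : ℝ) ≤ (Cone (col n a) h ((j + 1) * h) ∩ P).ncard :=
    Nat.cast_le.2 (ncard_le_ncard (fun v hv => ⟨⟨⟨(hS v hv).2.1, (hS v hv).2.2.1.trans_lt h1⟩,
      (hS v hv).2.2.2⟩, (hS v hv).1⟩) (fin hP (col_sub ha) hh _))
  refine k'.trans (k.trans ?_)
  have h5 : (0 : ℝ) ≤ j := j.cast_nonneg
  have h6 : ((j + 1) * h) ^ 2 ≤ y ^ 2 + 2 * n * h ^ 2 := by
    have : ((j + 1) * h) ^ 2 ≤ (y + h) ^ 2 := pow_le_pow_left₀ (by positivity) (by linarith) 2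
    nlinarith [mul_le_mul_of_nonneg_right hy' hh.le, sq_nonneg h]
  have h7 := mul_le_mul_of_nonneg_left h6 hc
  have h8 : (c + 1) * (j + 1) * h ^ 2 ≤ (c + 1) * n * h ^ 2 := by gcongr; linarith
  rw [← mul_div_assoc, div_add' _ _ _ (show (n : ℝ) ≠ 0 by positivity)]
  gcongr
  nlinarith

theorem colL (hc : 0 ≤ c) (hP : LocFin P) (hh : 0 < h) (hn : 8 ≤ n) (H : Cells P c (n * h) n)
    {a : ℕ} (ha : a < n) {y : ℝ} (hy : 0 ≤ y) (hy' : y ≤ n * h / 2) {S : Set ℂ} (hf : S.Finite)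
    (hS : ∀ v ∈ P, h ≤ v.im → v.im < y → v.re / v.im ∈ col n a → v ∈ S) :
    c * y ^ 2 / 2 / n - (2 * c + 1) * h ^ 2 ≤ S.ncard := by
  have h0 : (8 : ℝ) ≤ n := by exact_mod_cast hn
  have h1 := (div_lt_iff₀ hh).1 (Nat.lt_floor_add_one (y / h))
  have h2 := (le_div_iff₀ hh).1 (Nat.floor_le (div_nonneg hy hh.le))
  generalize ⌊y / h⌋₊ = j at *
  have h3 : (j : ℝ) ≤ n / 2 := le_of_mul_le_mul_right (by linarith) hh
  have h4 : j + 1 ≤ n := by
    have : (j : ℝ) + 1 ≤ n := by linarith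
    exact_mod_cast this
  have k : (c * j ^ 2 / 2 - (c + 1) * j) * (h ^ 2 / n) ≤ S.ncard := by
    rcases Nat.eq_zero_or_pos j with rfl | hj
    · simp
    · exact (column hc hP hh H ha hj h4).1.trans (Nat.cast_le.2 (ncard_le_ncard
        (fun v hv => hS v hv.2 hv.1.1.1 (hv.1.1.2.trans_le h2) hv.1.2) hf))
  refine le_trans ?_ k
  have h5 : (0 : ℝ) ≤ j := j.cast_nonneg
  have h6 : y ^ 2 - 2 * n * h ^ 2 ≤ (j * h) ^ 2 := by
    have : 0 ≤ ((j + 1) * h - y) * (j * h + y) := mul_nonneg (by linarith) (by positivity)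
    nlinarith [mul_le_mul_of_nonneg_right hy' hh.le, mul_le_mul_of_nonneg_right h2 hh.le,
      sq_nonneg h]
  have h7 := mul_le_mul_of_nonneg_left h6 hc
  have h8 : (c + 1) * j * h ^ 2 ≤ (c + 1) * n * h ^ 2 := by gcongr; linarith
  rw [← mul_div_assoc, div_sub' (by positivity)]
  gcongr
  nlinarith

theorem mvt {x y : ℝ} (h : x < y) :
    ∃ z ∈ Ioo x y, Real.arctan y - Real.arctan x = (y - x) * (1 / (1 + z ^ 2)) := by
  obtain ⟨z, hz, e⟩ := exists_hasDerivAt_eq_slope Real.arctan (fun z => 1 / (1 + z ^ 2)) h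
    Real.continuous_arctan.continuousOn fun z _ => Real.hasDerivAt_arctan z
  exact ⟨z, hz, by rw [e, mul_div_cancel₀ _ (sub_pos.2 h).ne']⟩

theorem lip {x y δ : ℝ} (hδ : 0 ≤ δ) (h : y ≤ x + δ) : Real.arctan y ≤ Real.arctan x + δ := by
  rcases le_or_gt y x with h1 | h1
  · exact (Real.arctan_strictMono.monotone h1).trans (by linarith)
  · obtain ⟨z, -, e⟩ := mvt h1
    have : (y - x) * (1 / (1 + z ^ 2)) ≤ (y - x) * 1 :=
      mul_le_mul_of_nonneg_left ((div_le_one (by positivity)).2 (by nlinarith)) (by linarith)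
    linarith

theorem atan {x δ t : ℝ} (hx : 0 ≤ x) (hδ : 0 < δ) (ht : t ∈ Icc x (x + δ)) :
    |Real.arctan (x + δ) - Real.arctan x - δ * (1 / (1 + t ^ 2))| ≤ δ ^ 2 := by
  obtain ⟨z, hz, e⟩ := mvt (lt_add_of_pos_right x hδ)
  have h1 : 0 ≤ t := hx.trans ht.1
  have h2 : 0 ≤ z := hx.trans hz.1.le
  have h3 : |t - z| ≤ δ := abs_le.2 ⟨by linarith [ht.1, hz.2], by linarith [ht.2, hz.1]⟩
  have h4 : (t + z) / ((1 + z ^ 2) * (1 + t ^ 2)) ≤ 1 :=
    (div_le_one (by positivity)).2 (by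
      nlinarith [sq_nonneg (t - 1), sq_nonneg (z - 1), sq_nonneg (z * t), sq_nonneg t, sq_nonneg z])
  rw [e, add_sub_cancel_left, ← mul_sub,
    show 1 / (1 + z ^ 2) - 1 / (1 + t ^ 2) = (t - z) * ((t + z) / ((1 + z ^ 2) * (1 + t ^ 2))) by
      field_simp; ring, abs_mul, abs_mul, abs_of_pos hδ,
    abs_of_nonneg (show 0 ≤ (t + z) / ((1 + z ^ 2) * (1 + t ^ 2)) by positivity), sq δ]
  exact mul_le_mul_of_nonneg_left ((mul_le_of_le_one_right (abs_nonneg _) h4).trans h3) hδ.le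

/-- The points in the disc with slope in `G`. -/
def Z (P : Set ℂ) (h R : ℝ) (G : Set ℝ) : Set ℂ := {v ∈ P | h ≤ v.im ∧ v.re / v.im ∈ G ∧ ‖v‖ ≤ R}

variable {R : ℝ} {G G' : Set ℝ}

theorem Z_fin (hP : LocFin P) (G : Set ℝ) : (Z P h R G).Finite :=
  (hP R).subset fun _ hv => ⟨hv.1, mem_closedBall_zero_iff.2 hv.2.2.2⟩

theorem Z_union : Z P h R (G ∪ G') = Z P h R G ∪ Z P h R G' := by
  ext v
  simp only [Z, mem_union, mem_ofPred_eq]
  tauto

theorem Z_mono (hP : LocFin P) (H : G ⊆ G') : ((Z P h R G).ncard : ℝ) ≤ (Z P h R G').ncard :=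
  Nat.cast_le.2 (ncard_le_ncard (fun _ hv => ⟨hv.1, hv.2.1, H hv.2.2.1, hv.2.2.2⟩) (Z_fin hP _))

theorem Z_add (hP : LocFin P) (H : Disjoint G G') :
    ((Z P h R (G ∪ G')).ncard : ℝ) = (Z P h R G).ncard + (Z P h R G').ncard := by
  rw [Z_union, ncard_union_eq (Set.disjoint_left.2 fun v hv hv' =>
    Set.disjoint_left.1 H hv.2.2.1 hv'.2.2.1) (Z_fin hP _) (Z_fin hP _), Nat.cast_add]

theorem Z_le : ((Z P h R (G ∪ G')).ncard : ℝ) ≤ (Z P h R G).ncard + (Z P h R G').ncard := by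
  rw [Z_union]
  exact_mod_cast ncard_union_le _ _

theorem norm_sq {v : ℂ} (h : 0 < v.im) : ‖v‖ ^ 2 = v.im ^ 2 * (1 + (v.re / v.im) ^ 2) := by
  rw [Complex.sq_norm, Complex.normSq_apply]
  field_simp
  ring

theorem disc (hc : 0 ≤ c) (hP : LocFin P) (hh : 0 < h) (hn : 8 ≤ n) (H : Cells P c (n * h) n)
    (hR : 0 < R) (hR' : R ≤ n * h / 2) {a : ℕ} (ha : a < n) :
    |((Z P h R (col n a)).ncard : ℝ) -
      c * R ^ 2 / 2 * (Real.arctan ((a + 1) / n) - Real.arctan (a / n))| ≤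
        (3 * c + 1) * h ^ 2 := by
  have h0 : (0 : ℝ) < n := Nat.cast_pos.2 (by omega)
  have h1 : (0 : ℝ) ≤ a / n := by positivity
  have h2 : (0 : ℝ) < 1 / n := by positivity
  have k1 : ∀ t : ℝ, 0 ≤ √(R ^ 2 * (1 / (1 + t ^ 2))) ∧ √(R ^ 2 * (1 / (1 + t ^ 2))) ≤ n * h / 2 ∧
      √(R ^ 2 * (1 / (1 + t ^ 2))) ^ 2 = R ^ 2 * (1 / (1 + t ^ 2)) := fun t =>
    ⟨Real.sqrt_nonneg _, le_trans (Real.sqrt_le_iff.2 ⟨hR.le, mul_le_of_le_one_right (sq_nonneg _)
      ((div_le_one (by positivity)).2 (by nlinarith))⟩) hR', Real.sq_sqrt (by positivity)⟩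
  have k2 := colU hc hP hh hn H ha (k1 (a / n)).1 (k1 (a / n)).2.1 (S := Z P h R (col n a))
    fun v hv => ⟨hv.1, hv.2.1, Real.le_sqrt_of_sq_le (by
      have e := norm_sq (hh.trans_le hv.2.1)
      have e1 := pow_le_pow_left₀ (norm_nonneg _) hv.2.2.2 2
      have e2 := pow_le_pow_left₀ h1 hv.2.2.1.1 2
      rw [mul_one_div, le_div_iff₀ (by positivity)]
      nlinarith [sq_nonneg v.im]), hv.2.2.1⟩
  have k3 := colL hc hP hh hn H ha (k1 ((a + 1) / n)).1 (k1 ((a + 1) / n)).2.1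
    (Z_fin (h := h) (R := R) hP (col n a)) fun v hv a1 a2 a3 => ⟨hv, a1, a3, by
      have e := norm_sq (hh.trans_le a1)
      have e1 := (Real.lt_sqrt (hh.trans_le a1).le).1 a2
      have e2 := pow_le_pow_left₀ (h1.trans a3.1) a3.2.le 2
      rw [mul_one_div, lt_div_iff₀ (by positivity)] at e1
      refine (pow_le_pow_iff_left₀ (norm_nonneg _) hR.le two_ne_zero).1 ?_
      nlinarith [sq_nonneg v.im]⟩
  rw [(k1 _).2.2] at k2 k3
  have e : ((a : ℝ) + 1) / n = a / n + 1 / n := add_div _ _ _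
  have k4 := (abs_le.1 (atan h1 h2 (t := a / n) ⟨le_rfl, by linarith⟩)).1
  have k5 := (abs_le.1 (atan h1 h2 (t := a / n + 1 / n) ⟨by linarith, le_rfl⟩)).2
  rw [e] at k3 ⊢
  have k6 : 0 ≤ c * R ^ 2 / 2 := by positivity
  have k7 : c * R ^ 2 / 2 * (1 / n) ^ 2 ≤ c * h ^ 2 := by
    have : R * (1 / n) ≤ h := by rw [mul_one_div, div_le_iff₀ h0]; nlinarith
    have := mul_le_mul_of_nonneg_left (pow_le_pow_left₀ (by positivity) this 2) hc
    have : 0 ≤ c * h ^ 2 := by positivity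
    nlinarith
  have k8 := mul_le_mul_of_nonneg_left k4 k6
  have k9 := mul_le_mul_of_nonneg_left k5 k6
  rw [div_eq_mul_one_div _ (n : ℝ)] at k2 k3
  rw [abs_le]
  constructor <;> nlinarith

theorem cum (hc : 0 ≤ c) (hP : LocFin P) (hh : 0 < h) (hn : 8 ≤ n) (H : Cells P c (n * h) n)
    (hR : 0 < R) (hR' : R ≤ n * h / 2) {b : ℕ} (hb : b ≤ n) :
    |((Z P h R (Ico 0 ((b : ℝ) / n))).ncard : ℝ) - c * R ^ 2 / 2 * Real.arctan (b / n)| ≤
      b * ((3 * c + 1) * h ^ 2) := by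
  induction b with
  | zero => simp [Z]
  | succ b ih =>
    have k1 := abs_le.1 (ih (by omega))
    have k2 := abs_le.1 (disc hc hP hh hn H hR hR' (show b < n from hb))
    have h0 : (0 : ℝ) < n := Nat.cast_pos.2 (by omega)
    push_cast
    rw [← Ico_union_Ico_eq_Ico (b := (b : ℝ) / n) (by positivity) (by gcongr; linarith),
      Z_add hP (Set.disjoint_left.2 fun s hs hs' => hs.2.not_ge hs'.1), abs_le]
    rw [col] at k2
    constructor <;> linarith [k1.1, k1.2, k2.1, k2.2]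

theorem flo {s : ℝ} (hn : 8 ≤ n) (h0 : 0 ≤ s) (h1 : s ≤ 1) : ∃ b b' : ℕ, b ≤ n ∧ b' ≤ n ∧
    (b : ℝ) / n ≤ s ∧ s ≤ b / n + 1 / n ∧ (b' : ℝ) / n ≤ s + 1 / n ∧
      ∀ t, t ≤ s → t < 1 → t < b' / n := by
  have h2 : (0 : ℝ) < n := Nat.cast_pos.2 (by omega)
  have h3 := Nat.lt_floor_add_one (s * n)
  have h4 := Nat.floor_le (mul_nonneg h0 h2.le)
  generalize ⌊s * n⌋₊ = b at *
  have h5 : b ≤ n := by
    have : (b : ℝ) ≤ n := by nlinarith
    exact_mod_cast this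
  have h6 : (b : ℝ) / n ≤ s := (div_le_iff₀ h2).2 h4
  have h7 : s < (b + 1) / n := (lt_div_iff₀ h2).2 h3
  have h8 : (0 : ℝ) < 1 / n := by positivity
  rcases h5.eq_or_lt with rfl | h9
  · exact ⟨b, b, le_rfl, le_rfl, h6, by rw [← add_div]; exact h7.le, by linarith,
      fun t _ ht => by rwa [div_self h2.ne']⟩
  · refine ⟨b, b + 1, h5, h9, h6, by rw [← add_div]; exact h7.le, ?_, fun t ht _ => ?_⟩
    · push_cast; rw [add_div]; linarith
    · push_cast; linarith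

end GBX

open GBX

theorem gb : RGB := by
  intro c hc
  refine ⟨7 * c + 2, by positivity, ?_⟩
  intro P L R s₁ s₂ n G hP hL hn H hR hR' h1 h2 h3 g1 g2 g3
  have h0 : (0 : ℝ) < n := Nat.cast_pos.2 (by omega)
  obtain ⟨h, rfl⟩ : ∃ h, L = n * h := ⟨L / n, by field_simp⟩
  have hh : 0 < h := (mul_pos_iff_of_pos_left h0).1 hL
  rw [show n * h / n = h by field_simp,
    show (7 * c + 2) * (n * h) ^ 2 / n = (7 * c + 2) * (n * h ^ 2) by field_simp]
  change |((Z P h R G).ncard : ℝ) - _| ≤ _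
  have k : ∀ b : ℕ, b ≤ n → |((Z P h R (Ico 0 ((b : ℝ) / n))).ncard : ℝ) -
      c * R ^ 2 / 2 * Real.arctan (b / n)| ≤ (3 * c + 1) * (n * h ^ 2) := fun b hb =>
    (cum hc hP hh hn H hR hR' hb).trans (by
      have : (b : ℝ) ≤ n := Nat.cast_le.2 hb
      have := mul_le_mul_of_nonneg_right this (show 0 ≤ (3 * c + 1) * h ^ 2 by positivity)
      linarith)
  obtain ⟨a, a', a1, a2, a3, a4, a5, a6⟩ := flo hn h1 (h2.trans h3)
  obtain ⟨b, b', b1, b2, b3, b4, b5, b6⟩ := flo hn (h1.trans h2) h3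
  have h8 : (0 : ℝ) ≤ 1 / n := by positivity
  have k6 : 0 ≤ c * R ^ 2 / 2 := by positivity
  have k7 : c * R ^ 2 / 2 * (1 / n) ≤ c * (n * h ^ 2) / 2 := by
    have e : R ^ 2 ≤ (n * h) ^ 2 := pow_le_pow_left₀ hR.le (by linarith) 2
    have := mul_le_mul_of_nonneg_left e hc
    rw [mul_one_div, div_le_iff₀ h0]
    nlinarith
  have u1 := Z_add (h := h) (R := R) hP (G := G) (G' := Ico 0 ((a : ℝ) / n))
    (Set.disjoint_left.2 fun s hs hs' => (hs'.2.trans_le a3).not_ge (g2 hs).1)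
  have u2 := Z_mono (h := h) (R := R) hP (G := G ∪ Ico 0 ((a : ℝ) / n)) (G' := Ico 0 ((b' : ℝ) / n))
    (union_subset (fun s hs => ⟨(g3 hs).1, b6 s (g2 hs).2 (g3 hs).2⟩) fun s hs =>
      ⟨hs.1, b6 s (hs.2.le.trans (a3.trans h2)) (hs.2.trans_le (a3.trans (h2.trans h3)))⟩)
  have u3 := Z_le (P := P) (h := h) (R := R) (G := G) (G' := Ico 0 ((a' : ℝ) / n))
  have u4 := Z_mono (h := h) (R := R) hP (G := Ico 0 ((b : ℝ) / n)) (G' := G ∪ Ico 0 ((a' : ℝ) / n))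
    fun s hs => (lt_or_ge s₁ s).imp (fun e => g1 ⟨e, hs.2.trans_le b3⟩) fun e =>
      ⟨hs.1, a6 s e (hs.2.trans_le (b3.trans h3))⟩
  have v1 := mul_le_mul_of_nonneg_left (lip h8 a4) k6
  have v2 := mul_le_mul_of_nonneg_left (lip h8 a5) k6
  have v3 := mul_le_mul_of_nonneg_left (lip h8 b4) k6
  have v4 := mul_le_mul_of_nonneg_left (lip h8 b5) k6
  have w1 := abs_le.1 (k a a1)
  have w2 := abs_le.1 (k a' a2)
  have w3 := abs_le.1 (k b b1)
  have w4 := abs_le.1 (k b' b2)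
  rw [abs_le]
  constructor <;> linarith [w1.1, w2.2, w3.1, w4.2]

end Pool.Agent.MP_16ecd2_an.H18
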