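import Pool.Agent.MP_16ecd2_an.H18.Kit

/-!
From octants to sectors.
-/

set_option autoImplicit false

namespace Pool.Agent.MP_16ecd2_an.H18

open Set Metric Real

namespace GC1X

/-- Vectors of length in `(0, R]` with an argument in `A`. -/
def SA (A : Set ℝ) (R : ℝ) : Set ℂ :=
  {v | ∃ r ∈ Ioc (0 : ℝ) R, ∃ θ ∈ A, v = (r : ℂ) * Complex.exp (θ * Complex.I)}

theorem nrm {r : ℝ} (hr : 0 < r) (θ : ℝ) : ‖(r : ℂ) * Complex.exp (θ * Complex.I)‖ = r := by
  rw [norm_mul, Complex.norm_exp_ofReal_mul_I, mul_one, Complex.norm_real, Real.norm_of_nonneg hr.le]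

theorem fin {P : Set ℂ} (hP : LocFin P) (A : Set ℝ) (R : ℝ) : (P ∩ SA A R).Finite :=
  (hP R).subset (inter_subset_inter_right _ (by
    rintro _ ⟨r, hr, θ, -, rfl⟩
    rw [mem_closedBall_zero_iff, nrm hr.1]
    exact hr.2))

theorem add {P : Set ℂ} (hP : LocFin P) {A B : Set ℝ} (R : ℝ) {α : ℝ}
    (hA : A ⊆ Ico α (α + 2 * π)) (hB : B ⊆ Ico α (α + 2 * π)) (h : Disjoint A B) :
    (P ∩ SA (A ∪ B) R).ncard = (P ∩ SA A R).ncard + (P ∩ SA B R).ncard := by
  rw [← ncard_union_eq _ (fin hP A R) (fin hP B R), ← inter_union_distrib_left]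
  · congr 2
    ext v
    simp only [SA, mem_union, mem_ofPred_eq, or_and_right, exists_or, and_or_left]
  · refine disjoint_left.2 ?_
    rintro _ ⟨-, r, hr, θ, hθ, rfl⟩ ⟨-, r', hr', θ', hθ', e⟩
    have e1 := congrArg norm e
    rw [nrm hr.1, nrm hr'.1] at e1
    subst e1
    obtain ⟨k, hk⟩ := Complex.exp_eq_exp_iff_exists_int.1
      (mul_left_cancel₀ (Complex.ofReal_ne_zero.2 hr.1.ne') e)
    have e2 : θ = θ' + k * (2 * π) := by simpa using congrArg Complex.im hk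
    obtain ⟨h1, h2⟩ := hA hθ
    obtain ⟨h3, h4⟩ := hB hθ'
    have k1 : (k : ℝ) < 1 := by nlinarith [pi_pos]
    have k2 : (-1 : ℝ) < k := by nlinarith [pi_pos]
    have k3 : k = 0 := by
      have : k < 1 := by exact_mod_cast k1
      have : -1 < k := by exact_mod_cast k2
      omega
    rw [k3, Int.cast_zero, zero_mul, add_zero] at e2
    exact disjoint_left.1 h hθ (e2 ▸ hθ')

theorem slope {r θ : ℝ} (hr : 0 < r) (h0 : 0 < θ) (h1 : θ < π) {v : ℂ}
    (e : v = (r : ℂ) * Complex.exp (θ * Complex.I)) :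
    0 < v.im ∧ arctan (v.re / v.im) = π / 2 - θ := by
  have h2 := sin_pos_of_pos_of_lt_pi h0 h1
  have e1 : v.re = r * cos θ := by rw [e, Complex.re_ofReal_mul, Complex.exp_ofReal_mul_I_re]
  have e2 : v.im = r * sin θ := by rw [e, Complex.im_ofReal_mul, Complex.exp_ofReal_mul_I_im]
  refine ⟨e2 ▸ mul_pos hr h2, ?_⟩
  rw [e1, e2, mul_div_mul_left _ _ hr.ne', ← arctan_tan (x := π / 2 - θ) (by linarith) (by linarith),
    tan_eq_sin_div_cos, sin_pi_div_two_sub, cos_pi_div_two_sub]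

theorem mem_iff {A : Set ℝ} {φ : ℝ} (R : ℝ) (hA : A ⊆ Ioc (φ + π / 4) (φ + π / 2)) (v : ℂ) :
    Complex.exp (φ * Complex.I) * v ∈ SA A R ↔
      0 < v.im ∧ π / 2 - arctan (v.re / v.im) + φ ∈ A ∧ ‖v‖ ≤ R := by
  constructor
  · rintro ⟨r, hr, θ, hθ, e⟩
    have e1 : v = (r : ℂ) * Complex.exp ((θ - φ : ℝ) * Complex.I) := by
      refine mul_left_cancel₀ (Complex.exp_ne_zero (φ * Complex.I)) (e.trans ?_)
      rw [mul_left_comm, ← Complex.exp_add]
      congr 2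
      push_cast
      ring
    obtain ⟨h1, h2⟩ := hA hθ
    obtain ⟨h3, h4⟩ := slope hr.1 (by linarith [pi_pos]) (by linarith [pi_pos]) e1
    refine ⟨h3, by rwa [h4, sub_sub_cancel, sub_add_cancel], ?_⟩
    rw [e1, nrm hr.1]
    exact hr.2
  · rintro ⟨h1, h2, h3⟩
    have h4 : 0 < ‖v‖ := norm_pos_iff.2 fun h => by simp [h] at h1
    have e := (Complex.norm_mul_exp_arg_mul_I v).symm
    have h5 := (slope h4 ((Complex.arg_nonneg_iff.2 h1.le).lt_of_ne' fun h =>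
      h1.ne' (Complex.arg_eq_zero_iff.1 h).2) (Complex.arg_lt_pi_iff.2 (Or.inr h1.ne')) e).2
    rw [h5, sub_sub_cancel] at h2
    refine ⟨_, ⟨h4, h3⟩, _, h2, ?_⟩
    conv_lhs => rw [e]
    rw [mul_left_comm, ← Complex.exp_add]
    congr 2
    push_cast
    ring

theorem turn_eq (j : ℤ) (P : Set ℂ) : ∃ i < 8, turnSet i P =
    {v | Complex.exp ((j * (π / 4) : ℝ) * Complex.I) * v ∈ P} := by
  refine ⟨(j % 8).toNat, by omega, ?_⟩
  have e : (((j % 8).toNat : ℕ) : ℝ) = j - 8 * (j / 8 : ℤ) := by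
    have : (((j % 8).toNat : ℕ) : ℤ) = j - 8 * (j / 8) := by omega
    exact_mod_cast this
  rw [turnSet, e, Complex.exp_eq_exp_iff_exists_int.2 ⟨-(j / 8), ?_⟩]
  push_cast
  ring

theorem oct {c C L R : ℝ} {n : ℕ} {P : Set ℂ} (hP : LocFin P) (hL : 0 < L) (hn : 8 ≤ n)
    (hC : ∀ (P : Set ℂ) (s₁ s₂ : ℝ) (G : Set ℝ), LocFin P → Cells P c L n → 0 ≤ s₁ → s₁ ≤ s₂ →
      s₂ ≤ 1 → Ioo s₁ s₂ ⊆ G → G ⊆ Icc s₁ s₂ → G ⊆ Ico 0 1 →
      |({v ∈ P | L / n ≤ v.im ∧ v.re / v.im ∈ G ∧ ‖v‖ ≤ R}.ncard : ℝ) -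
        c * (arctan s₂ - arctan s₁) * R ^ 2 / 2| ≤ C * L ^ 2 / n)
    (hc : ∀ j, j < 8 → Cells (turnSet j P) c L n) (j : ℤ) {A : Set ℝ} {a b : ℝ}
    (hA : A ⊆ Ioc (j * (π / 4) + π / 4) (j * (π / 4) + π / 2)) (ha : j * (π / 4) + π / 4 ≤ a)
    (hab : a ≤ b) (hb : b ≤ j * (π / 4) + π / 2) (h1 : Ioo a b ⊆ A) (h2 : A ⊆ Icc a b) :
    |((P ∩ SA A R).ncard : ℝ) - c * (b - a) * R ^ 2 / 2| ≤
      C * L ^ 2 / n + (P ∩ closedBall 0 (2 * L / n)).ncard := by
  obtain ⟨i, hi, e⟩ := turn_eq j P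
  have hc' := hc i hi
  rw [e] at hc'
  generalize (j : ℝ) * (π / 4) = φ at *
  let f : ℂ → ℂ := fun v => Complex.exp (φ * Complex.I) * v
  have f1 : Function.Bijective f := (Equiv.mulLeft₀ _ (Complex.exp_ne_zero _)).bijective
  have f2 : ∀ D : Set ℂ, (f ⁻¹' D).ncard = D.ncard := fun D =>
    ncard_preimage_of_injective_subset_range f1.1 (f1.2.range_eq ▸ subset_univ _)
  have f3 : ∀ v, ‖f v‖ = ‖v‖ := fun v => by
    rw [norm_mul, Complex.norm_exp_ofReal_mul_I, one_mul]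
  have f4 : LocFin (f ⁻¹' P) := fun ρ => ((hP ρ).preimage f1.1.injOn).subset fun v hv =>
    ⟨hv.1, by simpa only [mem_closedBall_zero_iff, f3] using hv.2⟩
  have p := pi_pos
  have t1 := arctan_tan (x := π / 2 - b + φ) (by linarith) (by linarith)
  have t2 := arctan_tan (x := π / 2 - a + φ) (by linarith) (by linarith)
  generalize tan (π / 2 - b + φ) = s₁ at t1
  generalize tan (π / 2 - a + φ) = s₂ at t2
  have m := @arctan_strictMono.le_iff_le _ _
  have m' := @arctan_strictMono.lt_iff_lt _ _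
  have g : {s | π / 2 - arctan s + φ ∈ A} ⊆ Ico 0 1 := fun s hs => by
    obtain ⟨h3, h4⟩ := hA hs
    exact ⟨m.1 (by rw [arctan_zero]; linarith), m'.1 (by rw [arctan_one]; linarith)⟩
  have k := hC (f ⁻¹' P) s₁ s₂ {s | π / 2 - arctan s + φ ∈ A} f4 hc'
    (m.1 (by rw [arctan_zero]; linarith)) (m.1 (by linarith))
    (m.1 (by rw [arctan_one]; linarith))
    (fun s hs => h1 ⟨by linarith [m'.2 hs.2], by linarith [m'.2 hs.1]⟩)
    (fun s (hs : _ ∈ A) => ⟨m.1 (by linarith [(h2 hs).2]), m.1 (by linarith [(h2 hs).1])⟩) g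
  have l0 : 0 < L / n := div_pos hL (by exact_mod_cast (by omega : 0 < n))
  have k1 := ncard_le_ncard (s := {v ∈ f ⁻¹' P | L / n ≤ v.im ∧
      v.re / v.im ∈ {s | π / 2 - arctan s + φ ∈ A} ∧ ‖v‖ ≤ R}) (t := f ⁻¹' (P ∩ SA A R))
    (fun v hv => ⟨hv.1, (mem_iff R hA v).2 ⟨l0.trans_le hv.2.1, hv.2.2⟩⟩)
    ((fin hP A R).preimage f1.1.injOn)
  have k2 := (ncard_le_ncard (s := f ⁻¹' (P ∩ SA A R)) (t := {v ∈ f ⁻¹' P | L / n ≤ v.im ∧
      v.re / v.im ∈ {s | π / 2 - arctan s + φ ∈ A} ∧ ‖v‖ ≤ R} ∪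
        f ⁻¹' (P ∩ closedBall 0 (2 * L / n))) (fun v hv => by
      obtain ⟨h3, h4, h5⟩ := (mem_iff R hA v).1 hv.2
      rcases le_or_gt (L / n) v.im with h6 | h6
      · exact Or.inl ⟨hv.1, h6, h4, h5⟩
      · refine Or.inr ⟨hv.1, ?_⟩
        obtain ⟨h7, h8⟩ := g h4
        rw [le_div_iff₀ h3, zero_mul] at h7
        rw [div_lt_one h3] at h8
        have := norm_le_re_im v
        rw [abs_of_nonneg h7, abs_of_pos h3] at this
        rw [mem_closedBall_zero_iff, f3, mul_div_assoc]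
        linarith)
    (((f4 R).subset fun v hv => ⟨hv.1, mem_closedBall_zero_iff.2 hv.2.2.2⟩).union
      ((hP _).preimage f1.1.injOn))).trans (ncard_union_le _ _)
  rw [f2] at k1
  rw [f2, f2] at k2
  rw [t1, t2, show π / 2 - a + φ - (π / 2 - b + φ) = b - a by ring, abs_le] at k
  have k3 := (Nat.cast_le (α := ℝ)).2 k1
  have k4 := (Nat.cast_le (α := ℝ)).2 k2
  rw [Nat.cast_add] at k4
  have k5 : (0 : ℝ) ≤ (P ∩ closedBall 0 (2 * L / n)).ncard := Nat.cast_nonneg _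
  rw [abs_le]
  constructor <;> linarith [k.1, k.2]

end GC1X

open GC1X in
theorem gc1 (hg : RGB) : RGC1 := by
  intro c hc
  obtain ⟨C, C0, hC⟩ := hg c hc
  refine ⟨9 * C + 9, by positivity, fun P L R α β n hP hL hn h8 hR hRL hαβ hβ => ?_⟩
  have p := pi_pos
  obtain ⟨m, m1, m2⟩ : ∃ m : ℤ, m * (π / 4) + π / 4 < α ∧ α ≤ m * (π / 4) + π / 2 := by
    have h1 := Int.le_ceil (α / (π / 4))
    have h2 := Int.ceil_lt_add_one (α / (π / 4))
    rw [div_le_iff₀ (by positivity)] at h1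
    rw [← sub_lt_iff_lt_add, lt_div_iff₀ (by positivity)] at h2
    exact ⟨⌈α / (π / 4)⌉ - 2, by push_cast; linarith, by push_cast; linarith⟩
  have key : ∀ (k : ℕ) (y : ℝ), y = (m + k : ℤ) * (π / 4) + π / 4 →
      |((P ∩ SA (Ico α β ∩ Iic y) R).ncard : ℝ) - c * (min β y - min α y) * R ^ 2 / 2| ≤
        k * (C * L ^ 2 / n + (P ∩ closedBall 0 (2 * L / n)).ncard) := by
    intro k
    induction k with
    | zero =>
      intro y hy
      have h1 : y < α := by rw [hy]; simpa using m1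
      have h2 : SA (Ico α β ∩ Iic y) R = ∅ := eq_empty_of_forall_notMem (by
        rintro _ ⟨r, -, θ, hθ, -⟩
        exact (hθ.1.1.trans hθ.2).not_gt h1)
      simp [h2, min_eq_right h1.le, min_eq_right (h1.le.trans hαβ)]
    | succ k ih =>
      intro z hz
      obtain ⟨y, hy⟩ : ∃ y : ℝ, y = (m + k : ℤ) * (π / 4) + π / 4 := ⟨_, rfl⟩
      have e : z = (m + k : ℤ) * (π / 4) + π / 2 := by rw [hz]; push_cast; ring
      have yz : y ≤ z := by linarith
      have h1 := ih y hy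
      have h2 := oct hP hL hn (fun P s₁ s₂ G a1 a2 => hC P L R s₁ s₂ n G a1 hL hn a2 hR hRL) h8
        (m + k) (A := Ico α β ∩ Ioc y z) (a := min (max α y) z) (b := min (max β y) z)
        (by rw [← hy, ← e]; exact inter_subset_right)
        (by rw [← hy]; exact le_min (le_max_right _ _) yz)
        (min_le_min_right _ (max_le_max_right _ hαβ)) (by rw [← e]; exact min_le_right _ _)
        (fun θ hθ => by
          obtain ⟨a1, a2⟩ := lt_min_iff.1 hθ.2
          obtain ⟨a3, a4⟩ := max_lt_iff.1 ((min_lt_iff.1 hθ.1).resolve_right a2.not_gt)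
          exact ⟨⟨a3.le, (lt_max_iff.1 a1).resolve_right a4.not_gt⟩, a4, a2.le⟩)
        fun θ hθ => ⟨min_le_of_left_le (max_le hθ.1.1 hθ.2.1.le),
          le_min (le_max_of_le_left hθ.1.2.le) hθ.2.2⟩
      have s : Ico α β ⊆ Ico α (α + 2 * π) := Ico_subset_Ico_right hβ
      have m3 : ∀ x, min x z = min x y + min (max x y) z - y := fun x => by
        rcases le_total x y with h | h
        · rw [min_eq_left h, max_eq_right h, min_eq_left yz, min_eq_left (h.trans yz)]; ring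
        · rw [min_eq_right h, max_eq_left h]; ring
      rw [← Iic_union_Ioc_eq_Iic yz, inter_union_distrib_left, add hP R
        (inter_subset_left.trans s) (inter_subset_left.trans s)
        ((Iic_disjoint_Ioc le_rfl).mono inter_subset_right inter_subset_right), m3 α, m3 β]
      push_cast
      rw [abs_le] at h1 h2 ⊢
      constructor <;> linarith [h1.1, h1.2, h2.1, h2.2]
  have b : β ≤ (m + (9 : ℕ) : ℤ) * (π / 4) + π / 4 := by push_cast; linarith
  have h := key 9 _ rfl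
  rw [min_eq_left b, min_eq_left (hαβ.trans b),
    inter_eq_left.2 (Ico_subset_Iio_self.trans (Iio_subset_Iic_self.trans (Iic_subset_Iic.2 b)))] at h
  refine h.trans ?_
  have h1 : (0 : ℝ) ≤ L ^ 2 / n := by positivity
  have h2 : (0 : ℝ) ≤ C * (P ∩ closedBall 0 (2 * L / n)).ncard := by positivity
  rw [mul_div_assoc C, mul_div_assoc (9 * C + 9)]
  push_cast
  linarith

end Pool.Agent.MP_16ecd2_an.H18
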