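import Pool.Agent.MP_16ecd2_an.H18.Kit

/-!
Row GC2: from cells at all scales to a power saving for sectors.
-/

set_option autoImplicit false

namespace Pool.Agent.MP_16ecd2_an.H18

open MeasureTheory Set Filter Topology Metric
open scoped ENNReal

namespace GC2X

/-- the number of points in a closed disc -/
noncomputable def nb (P : Set ℂ) (R : ℝ) : ℝ := (P ∩ closedBall 0 R).ncard

theorem nb_nonneg (P : Set ℂ) (R : ℝ) : 0 ≤ nb P R := Nat.cast_nonneg _

theorem nb_mono {P : Set ℂ} (hP : LocFin P) {R R' : ℝ} (h : R ≤ R') : nb P R ≤ nb P R' :=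
  Nat.cast_le.2 (Set.ncard_le_ncard
    (inter_subset_inter_right _ (closedBall_subset_closedBall h)) (hP R'))

theorem sect_sub (α β R : ℝ) : Sect α β R ⊆ closedBall 0 R := by
  rintro v ⟨r, hr, θ, -, rfl⟩
  rw [mem_closedBall_zero_iff, norm_mul, Complex.norm_exp_ofReal_mul_I, mul_one,
    Complex.norm_real, Real.norm_of_nonneg hr.1.le]
  exact hr.2

theorem sect_le {P : Set ℂ} (hP : LocFin P) (α β R : ℝ) :
    ((P ∩ Sect α β R).ncard : ℝ) ≤ nb P R :=
  Nat.cast_le.2 (Set.ncard_le_ncard (inter_subset_inter_right _ (sect_sub α β R)) (hP R))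

theorem nb_le {P : Set ℂ} (hP : LocFin P) (R : ℝ) :
    nb P R ≤ (P ∩ Sect 0 (2 * Real.pi) R).ncard + 1 := by
  have hs : P ∩ closedBall 0 R ⊆ insert 0 (P ∩ Sect 0 (2 * Real.pi) R) := by
    rintro v ⟨h1, h2⟩
    by_cases h0 : v = 0
    · exact Or.inl h0
    refine Or.inr ⟨h1, ‖v‖, ⟨norm_pos_iff.2 h0, mem_closedBall_zero_iff.1 h2⟩, ?_⟩
    have hpi := Real.pi_pos
    have e := (Complex.norm_mul_exp_arg_mul_I v).symm
    by_cases ha : 0 ≤ v.arg
    · exact ⟨v.arg, ⟨ha, by linarith [Complex.arg_le_pi v]⟩, e⟩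
    · refine ⟨v.arg + 2 * Real.pi, ⟨by linarith [Complex.neg_pi_lt_arg v], by linarith⟩, ?_⟩
      push_cast
      rw [add_mul, Complex.exp_add, Complex.exp_two_pi_mul_I, mul_one]
      exact e
  have hf : (P ∩ Sect 0 (2 * Real.pi) R).Finite :=
    (hP R).subset (inter_subset_inter_right _ (sect_sub _ _ R))
  have := (Set.ncard_le_ncard hs (hf.insert 0)).trans (Set.ncard_insert_le _ _)
  unfold nb
  exact_mod_cast this

/-- the choice of the scale -/
theorem scale (D N₁ : ℕ) (hD : 1 ≤ D) (R : ℝ) (hR : (8 : ℝ) ^ N₁ ≤ R) :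
    ∃ N, N₁ ≤ N ∧ R ≤ (8 : ℝ) ^ N / 2 ∧ (8 : ℝ) ^ N ≤ 16 * R ∧
      R ^ (((3 * D : ℕ) : ℝ)⁻¹) ≤ 2 * ((2 ^ (N / D) : ℕ) : ℝ) ∧
      ((2 ^ (N / D) : ℕ) : ℝ) ≤ (8 : ℝ) ^ N := by
  have h1 : (1 : ℝ) ≤ R := (one_le_pow₀ (by norm_num)).trans hR
  obtain ⟨M, m1, m2⟩ := exists_nat_pow_near (x := 2 * R) (y := 8) (by linarith) (by norm_num)
  refine ⟨M + 1, ?_, by linarith, by rw [pow_succ]; linarith, ?_, ?_⟩
  · exact ((pow_lt_pow_iff_right₀ (by norm_num : (1 : ℝ) < 8)).1 (by linarith)).le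
  · have e : (2 * ((2 ^ ((M + 1) / D) : ℕ) : ℝ)) ^ (3 * D) = 8 ^ (D * ((M + 1) / D + 1)) := by
      push_cast
      rw [← pow_succ', ← pow_mul, show (8 : ℝ) = 2 ^ 3 by norm_num, ← pow_mul]
      congr 1
      ring
    have h2 : R ≤ (2 * ((2 ^ ((M + 1) / D) : ℕ) : ℝ)) ^ (3 * D) := by
      rw [e]
      have : M + 1 ≤ D * ((M + 1) / D + 1) := (Nat.lt_mul_div_succ _ hD).le
      have := pow_le_pow_right₀ (by norm_num : (1 : ℝ) ≤ 8) this
      linarith
    calc _ ≤ ((2 * ((2 ^ ((M + 1) / D) : ℕ) : ℝ)) ^ (3 * D)) ^ (((3 * D : ℕ) : ℝ)⁻¹) :=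
          Real.rpow_le_rpow (by linarith) h2 (by positivity)
      _ = _ := Real.pow_rpow_inv_natCast (by positivity) (by omega)
  · push_cast
    calc (2 : ℝ) ^ ((M + 1) / D) ≤ 2 ^ (M + 1) :=
          pow_le_pow_right₀ (by norm_num) (Nat.div_le_self _ _)
      _ ≤ 8 ^ (M + 1) := pow_le_pow_left₀ (by norm_num) (by norm_num) _

/-- a quadratic bound from a recursive inequality -/
theorem quad (f : ℝ → ℝ) (hm : Monotone f) (h0 : ∀ R, 0 ≤ f R) (B C K R₀ : ℝ) (hB : 0 ≤ B)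
    (hC : 0 ≤ C) (hK : 2 ≤ K) (hKC : 2 * C ≤ K ^ 2) (hR₀ : K ≤ R₀)
    (h : ∀ R, R₀ ≤ R → f R ≤ B * R ^ 2 + C * f (R / K)) :
    ∀ R, 1 ≤ R → f R ≤ (f R₀ + 2 * B) * R ^ 2 := by
  have hK0 : 0 < K := by linarith
  have hA : 0 ≤ f R₀ + 2 * B := by linarith [h0 R₀]
  have small : ∀ R, 1 ≤ R → R ≤ R₀ → f R ≤ (f R₀ + 2 * B) * R ^ 2 := fun R h1 h2 =>
    (hm h2).trans ((by linarith : f R₀ ≤ f R₀ + 2 * B).trans
      (le_mul_of_one_le_right hA (one_le_pow₀ h1)))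
  have key : ∀ m : ℕ, ∀ R, 1 ≤ R → R ≤ R₀ * 2 ^ m → f R ≤ (f R₀ + 2 * B) * R ^ 2 := by
    intro m
    induction m with
    | zero => exact fun R h1 h2 => small R h1 (by simpa using h2)
    | succ m ih =>
      intro R h1 h2
      rcases le_total R R₀ with h3 | h3
      · exact small R h1 h3
      have h4 : R / K ≤ R₀ * 2 ^ m := by
        rw [pow_succ] at h2
        have : R / K ≤ R / 2 := div_le_div_of_nonneg_left (by linarith) (by norm_num) hK
        linarith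
      have h5 := ih (R / K) ((one_le_div hK0).2 (hR₀.trans h3)) h4
      have h6 : C * ((f R₀ + 2 * B) * (R / K) ^ 2) ≤ (f R₀ + 2 * B) * R ^ 2 / 2 := by
        rw [div_pow, ← mul_div_assoc, ← mul_div_assoc, div_le_div_iff₀ (by positivity) two_pos]
        have := mul_le_mul_of_nonneg_left hKC (mul_nonneg hA (sq_nonneg R))
        linarith
      have h7 := mul_le_mul_of_nonneg_left h5 hC
      have h8 := mul_nonneg (h0 R₀) (sq_nonneg R)
      linarith [h R h3]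
  intro R h1
  obtain ⟨m, hm'⟩ := pow_unbounded_of_one_lt R (one_lt_two (α := ℝ))
  exact key m R h1 (hm'.le.trans (le_mul_of_one_le_left (by positivity) (by linarith)))

end GC2X

open GC2X in
theorem gc2 (h1 : RGC1) : RGC2 := by
  intro c D hc hD
  obtain ⟨C, hC, H⟩ := h1 c hc
  have hκ : (0 : ℝ) < ((3 * D : ℕ) : ℝ)⁻¹ := by positivity
  refine ⟨((3 * D : ℕ) : ℝ)⁻¹, hκ, fun P hP hG => ?_⟩
  choose! N₀ hN₀ using hG
  obtain ⟨K, hK⟩ := exists_nat_ge (C + 2)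
  have hK2 : (2 : ℝ) ≤ K := by linarith
  have hK2' : 2 ≤ K := by exact_mod_cast hK2
  set N₁ : ℕ := (Finset.range 8).sup N₀ + D * (32 * K) with hN₁
  set R₀ : ℝ := 8 ^ N₁ with hR₀
  have hKR : (K : ℝ) ≤ R₀ := by
    have a1 : K ≤ N₁ := by rw [hN₁]; nlinarith
    have a2 : N₁ < 8 ^ N₁ := Nat.lt_pow_self (by norm_num)
    rw [hR₀]
    exact_mod_cast a1.trans a2.le
  have step : ∀ R, R₀ ≤ R → ∃ n ρ : ℝ, 32 * K ≤ n ∧ R ^ (((3 * D : ℕ) : ℝ)⁻¹) ≤ 2 * n ∧ 1 ≤ ρ ∧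
      ρ ≤ 32 * R / n ∧ ∀ α β : ℝ, α ≤ β → β ≤ α + 2 * Real.pi →
      |((P ∩ Sect α β R).ncard : ℝ) - c * (β - α) * R ^ 2 / 2| ≤
        256 * C * R ^ 2 / n + C * nb P ρ := by
    intro R hR
    obtain ⟨N, s1, s2, s3, s4, s5⟩ := scale D N₁ hD R hR
    have hR0 : 0 < R := by linarith
    have n1 : 32 * K ≤ 2 ^ (N / D) := by
      have a1 : 32 * K ≤ N / D := (Nat.le_div_iff_mul_le hD).2 (by rw [mul_comm]; omega)
      exact a1.trans (Nat.lt_two_pow_self).le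
    have n0 : (0 : ℝ) < ((2 ^ (N / D) : ℕ) : ℝ) := by positivity
    refine ⟨((2 ^ (N / D) : ℕ) : ℝ), 2 * 8 ^ N / ((2 ^ (N / D) : ℕ) : ℝ), by exact_mod_cast n1, s4,
      ?_, ?_, fun α β h1 h2 => ?_⟩
    · rw [one_le_div n0]; linarith
    · exact div_le_div_of_nonneg_right (by linarith) n0.le
    · refine (H P (8 ^ N) R α β (2 ^ (N / D)) hP (by positivity) (by omega) (fun j hj =>
        hN₀ j hj N ?_) hR0 s2 h1 h2).trans (add_le_add ?_ le_rfl)
      · have := Finset.le_sup (f := N₀) (Finset.mem_range.2 hj)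
        omega
      · refine div_le_div_of_nonneg_right ?_ n0.le
        have := pow_le_pow_left₀ (by positivity) s3 2
        nlinarith
  have hpi := Real.pi_pos
  have hq := quad (nb P) (fun _ _ h => nb_mono hP h) (nb_nonneg P) (c * Real.pi + 256 * C + 1) C K
    R₀ (by positivity) hC.le hK2 (by nlinarith) hKR fun R hR => by
      obtain ⟨n, ρ, t1, -, -, t4, t5⟩ := step R hR
      have hR1 : 1 ≤ R := by linarith
      have hn : 1 ≤ n := by linarith
      have u1 := (abs_le.1 (t5 0 (2 * Real.pi) (by positivity) (by linarith))).2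
      have u2 : 256 * C * R ^ 2 / n ≤ 256 * C * R ^ 2 := div_le_self (by positivity) hn
      have u3 : ρ ≤ R / K := by
        refine t4.trans ?_
        rw [div_le_div_iff₀ (by linarith) (by linarith)]
        nlinarith
      have u4 := mul_le_mul_of_nonneg_left (nb_mono hP u3) hC.le
      have u5 := nb_le hP R
      have u6 : 1 ≤ R ^ 2 := one_le_pow₀ hR1
      linarith
  set A := nb P R₀ + 2 * (c * Real.pi + 256 * C + 1) with hA
  have hA0 : 0 ≤ A := by have := nb_nonneg P R₀; positivity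
  have hE : 0 ≤ nb P R₀ + c * Real.pi * R₀ ^ 2 := by have := nb_nonneg P R₀; positivity
  refine ⟨nb P R₀ + c * Real.pi * R₀ ^ 2 + 2 * (256 * C + 1024 * C * A), ?_⟩
  intro R α β hR hab hba
  have hR0 : 0 < R := by linarith
  have hκ2 : ((3 * D : ℕ) : ℝ)⁻¹ ≤ 1 := inv_le_one_of_one_le₀ (by exact_mod_cast (by omega))
  have hpow : 1 ≤ R ^ (2 - ((3 * D : ℕ) : ℝ)⁻¹) := Real.one_le_rpow hR (by linarith)
  have hF : 0 ≤ 2 * (256 * C + 1024 * C * A) := by positivity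
  rcases le_total R R₀ with h3 | h3
  · have v1 := (sect_le hP α β R).trans (nb_mono hP h3)
    have v2 : c * (β - α) * R ^ 2 / 2 ≤ c * Real.pi * R₀ ^ 2 := by
      have : c * (β - α) * R ^ 2 ≤ c * (2 * Real.pi) * R₀ ^ 2 := by
        gcongr
        linarith
      linarith
    have v3 : 0 ≤ c * (β - α) * R ^ 2 / 2 := by
      have : 0 ≤ β - α := by linarith
      positivity
    have v4 : (0 : ℝ) ≤ (P ∩ Sect α β R).ncard := Nat.cast_nonneg _
    have v5 := nb_nonneg P R₀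
    refine le_trans ?_ (le_mul_of_one_le_right (by linarith) hpow)
    rw [abs_le]
    constructor <;> linarith
  · obtain ⟨n, ρ, t1, t2, t3, t4, t5⟩ := step R h3
    have hn : 1 ≤ n := by linarith
    have hn0 : 0 < n := by linarith
    have w1 : ρ ^ 2 ≤ 1024 * (R ^ 2 / n) := by
      calc ρ ^ 2 ≤ (32 * R / n) ^ 2 := pow_le_pow_left₀ (by linarith) t4 2
        _ = 1024 * (R ^ 2 / n) / n := by field_simp; norm_num
        _ ≤ _ := div_le_self (by positivity) hn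
    have w2 : R ^ 2 / n ≤ 2 * R ^ (2 - ((3 * D : ℕ) : ℝ)⁻¹) := by
      rw [Real.rpow_sub hR0, Real.rpow_two, ← mul_div_assoc,
        div_le_div_iff₀ hn0 (Real.rpow_pos_of_pos hR0 _)]
      have := mul_le_mul_of_nonneg_left t2 (sq_nonneg R)
      linarith
    have w3 : C * nb P ρ ≤ C * (A * (1024 * (R ^ 2 / n))) :=
      mul_le_mul_of_nonneg_left ((hq ρ t3).trans (mul_le_mul_of_nonneg_left w1 hA0)) hC.le
    have w4 := mul_le_mul_of_nonneg_left w2 (by positivity : 0 ≤ 256 * C + 1024 * C * A)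
    have w5 := mul_nonneg hE (zero_le_one.trans hpow)
    refine (t5 α β hab hba).trans ?_
    rw [mul_div_assoc]
    linarith

end Pool.Agent.MP_16ecd2_an.H18
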