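import Pool.Agent.MP_16ecd2_an.H18.Kit

/-!
The number of slope intervals that contain a short saddle connection.
-/

set_option autoImplicit false

namespace Pool.Agent.MP_16ecd2_an.H18

open MeasureTheory Set Filter Topology Metric

namespace GcX

theorem card_le (F : Finset ℤ) (D : ℝ) (hD : 0 ≤ D)
    (h : ∀ a ∈ F, ∀ b ∈ F, |(a : ℝ) - b| ≤ D) : (F.card : ℝ) ≤ D + 1 := by
  rcases F.eq_empty_or_nonempty with rfl | hne
  · simp only [Finset.card_empty, Nat.cast_zero]; linarith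
  · have hs : F ⊆ Finset.Icc (F.min' hne) (F.min' hne + ⌊D⌋) := by
      intro a ha
      rw [Finset.mem_Icc]
      refine ⟨F.min'_le a ha, ?_⟩
      have h1 := (abs_le.1 (h a ha _ (F.min'_mem hne))).2
      have h2 : a - F.min' hne ≤ ⌊D⌋ := Int.le_floor.2 (by push_cast; exact h1)
      omega
    have h3 := Finset.card_le_card hs
    rw [Int.card_Icc] at h3
    have h4 : (0 : ℤ) ≤ ⌊D⌋ := Int.floor_nonneg.2 hD
    have h5 : (F.card : ℤ) ≤ ⌊D⌋ + 1 := by omega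
    have h6 : (F.card : ℝ) ≤ (⌊D⌋ : ℝ) + 1 := by exact_mod_cast h5
    linarith [Int.floor_le D]

theorem norm_le {z : ℂ} {u η σ : ℝ} (hσ : |σ| ≤ 3) (h : |z.re - σ * z.im| ≤ u * η) :
    ‖z‖ ≤ u * η + 4 * |z.im| := by
  have h1 := norm_le_re_im z
  have h2 : |z.re| ≤ |z.re - σ * z.im| + |σ * z.im| := by
    simpa using abs_add_le (z.re - σ * z.im) (σ * z.im)
  rw [abs_mul] at h2
  nlinarith [abs_nonneg z.im]

theorem norm_le5 {z : ℂ} {u η σ : ℝ} (hu : 0 < u) (hη : η ≤ 1) (hσ : |σ| ≤ 3) (hi : |z.im| ≤ u)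
    (h : |z.re - σ * z.im| ≤ u * η) : ‖z‖ ≤ 5 * u := by
  have := norm_le hσ h
  nlinarith

theorem fib (F : Finset ℤ) {z : ℂ} {u η : ℝ} (hz : z ≠ 0) (hu : 0 < u) (hη : 0 < η) (hη1 : η ≤ 1)
    (hi : |z.im| ≤ u) (h : ∀ a ∈ F, |(a : ℝ) * η| ≤ 3 ∧ |z.re - a * η * z.im| ≤ u * η) :
    (F.card : ℝ) ≤ 21 * u * ‖z‖ ^ (-(1 : ℝ)) := by
  have hn : 0 < ‖z‖ := norm_pos_iff.2 hz
  rw [Real.rpow_neg_one, ← div_eq_mul_inv, le_div_iff₀ hn]
  rcases F.eq_empty_or_nonempty with rfl | ⟨a₀, ha₀⟩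
  · simp only [Finset.card_empty, Nat.cast_zero, zero_mul]; positivity
  have h5 := norm_le5 hu hη1 (h a₀ ha₀).1 hi (h a₀ ha₀).2
  have h4 := norm_le (h a₀ ha₀).1 (h a₀ ha₀).2
  rcases le_or_gt ‖z‖ (2 * u * η) with hc | hc
  · have h1 := card_le F (6 / η) (by positivity) fun a ha b hb => by
      rw [le_div_iff₀ hη]
      have e : |(a : ℝ) - b| * η = |(a : ℝ) * η - b * η| := by
        rw [← sub_mul, abs_mul, abs_of_pos hη]
      rw [e]
      have := abs_sub ((a : ℝ) * η) (b * η)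
      linarith [(h a ha).1, (h b hb).1]
    have h2 : (F.card : ℝ) * η ≤ 7 := by
      have h3 := mul_le_mul_of_nonneg_right h1 hη.le
      rw [add_mul, div_mul_cancel₀ _ hη.ne'] at h3
      linarith
    have h6 : (F.card : ℝ) * ‖z‖ ≤ F.card * (2 * u * η) :=
      mul_le_mul_of_nonneg_left hc (Nat.cast_nonneg _)
    nlinarith
  · have h8 : ‖z‖ ≤ 8 * |z.im| := by linarith
    have hi0 : 0 < |z.im| := by linarith
    have h1 := card_le F (16 * u / ‖z‖) (by positivity) fun a ha b hb => by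
      rw [le_div_iff₀ hn]
      have e : |(a : ℝ) - b| * (η * |z.im|) =
          |(z.re - b * η * z.im) - (z.re - a * η * z.im)| := by
        have : (z.re - b * η * z.im) - (z.re - a * η * z.im) = ((a : ℝ) - b) * (η * z.im) := by
          ring
        rw [this, abs_mul, abs_mul, abs_of_pos hη]
      have h2 := abs_sub (z.re - b * η * z.im) (z.re - a * η * z.im)
      have h3 : (|(a : ℝ) - b| * |z.im|) * η ≤ (2 * u) * η := by
        linarith [(h a ha).2, (h b hb).2]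
      have h6 := le_of_mul_le_mul_right h3 hη
      nlinarith [abs_nonneg ((a : ℝ) - b)]
    have h3 := mul_le_mul_of_nonneg_right h1 hn.le
    rw [add_mul, div_mul_cancel₀ _ hn.ne'] at h3
    linarith

end GcX

theorem gc (hb : RB) (hd : RDy) : RGc := by
  classical
  intro p₁ p₂ h1 h2
  obtain ⟨C, hC, hD⟩ := hd 1 p₁ p₂ zero_le_one h1 h2
  refine ⟨21 * C * ((5 : ℝ) ^ (p₁ - 1) + (5 : ℝ) ^ (p₂ - 1)), by positivity, ?_⟩
  intro Y _ T g A₁ A₂ u η J hg hA₁ hA₂ hu hη hη1 hB hJ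
  have B := hb Y T
  have hex : ∀ a : ℤ, ∃ c : Y × ℂ, a ∈ J → c ∈ T.SC ∧ |(g c.2).im| ≤ u ∧
      |(g c.2).re - a * η * (g c.2).im| ≤ u * η := by
    intro a
    by_cases ha : a ∈ J
    · obtain ⟨c, hc⟩ := (hJ a ha).2
      exact ⟨c, fun _ => hc⟩
    · rcases J.eq_empty_or_nonempty with rfl | ⟨b, hb⟩
      · obtain ⟨x⟩ : Nonempty Y := by
          by_contra hn
          rw [not_nonempty_iff] at hn
          have := B.area_pos
          simp [TS.area, Set.eq_empty_of_isEmpty (univ : Set Y)] at this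
        exact ⟨(x, 0), fun h => absurd h ha⟩
      · obtain ⟨c, _⟩ := (hJ b hb).2
        exact ⟨c, fun h => absurd h ha⟩
  choose c hc using hex
  have hI : ∀ γ ∈ J.image c, γ ∈ T.SC ∧ 0 < ‖g γ.2‖ ∧ ‖g γ.2‖ ≤ 5 * u := by
    intro γ hγ
    obtain ⟨a, ha, rfl⟩ := Finset.mem_image.1 hγ
    obtain ⟨s1, s2, s3⟩ := hc a ha
    exact ⟨s1, norm_pos_iff.2 (hg.inj (B.sc_ne _ s1)), GcX.norm_le5 hu hη1 (hJ a ha).1 s2 s3⟩
  have hS := hD (Y × ℂ) (J.image c) (fun γ => ‖g γ.2‖) (5 * u) A₁ A₂ (by positivity) hA₁ hA₂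
    (fun γ hγ => (hI γ hγ).2) fun y hy hy' => hB y hy hy' _ fun γ hγ => by
      obtain ⟨k1, k2⟩ := Finset.mem_filter.1 (Finset.mem_coe.1 hγ)
      exact ⟨(hI γ k1).1, fun b hb => absurd hb (notMem_empty b), k2⟩
  have hcard : (J.card : ℝ) ≤ ∑ γ ∈ J.image c, 21 * u * ‖g γ.2‖ ^ (-(1 : ℝ)) := by
    rw [Finset.card_eq_sum_card_image c J, Nat.cast_sum]
    refine Finset.sum_le_sum fun γ hγ => ?_
    obtain ⟨a₀, ha₀, e₀⟩ := Finset.mem_image.1 hγ
    refine GcX.fib _ (norm_pos_iff.1 (hI γ hγ).2.1) hu hη hη1 (e₀ ▸ (hc a₀ ha₀).2.1) ?_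
    intro a ha
    obtain ⟨k1, k2⟩ := Finset.mem_filter.1 ha
    exact ⟨(hJ a k1).1, k2 ▸ (hc a k1).2.2⟩
  rw [← Finset.mul_sum] at hcard
  have e : ∀ p : ℝ, u * (5 * u) ^ (p - 1) = 5 ^ (p - 1) * u ^ p := fun p => by
    rw [Real.mul_rpow (by norm_num) hu.le, Real.rpow_sub_one hu.ne']
    field_simp
  have q1 : (0 : ℝ) ≤ A₁ * u ^ p₁ := by positivity
  have q2 : (0 : ℝ) ≤ A₂ * u ^ p₂ := by positivity
  have r1 : (0 : ℝ) < 5 ^ (p₁ - 1) := by positivity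
  have r2 : (0 : ℝ) < 5 ^ (p₂ - 1) := by positivity
  calc (J.card : ℝ) ≤ 21 * u * (C * (A₁ * (5 * u) ^ (p₁ - 1) + A₂ * (5 * u) ^ (p₂ - 1))) :=
        hcard.trans (mul_le_mul_of_nonneg_left hS (by positivity))
    _ = 21 * C * (A₁ * (u * (5 * u) ^ (p₁ - 1)) + A₂ * (u * (5 * u) ^ (p₂ - 1))) := by ring
    _ = 21 * C * (5 ^ (p₁ - 1) * (A₁ * u ^ p₁) + 5 ^ (p₂ - 1) * (A₂ * u ^ p₂)) := by
        rw [e, e]; ring
    _ ≤ _ := by
        rw [mul_assoc (21 * C)]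
        refine mul_le_mul_of_nonneg_left ?_ (by positivity)
        nlinarith [mul_nonneg r1.le q2, mul_nonneg r2.le q1]

end Pool.Agent.MP_16ecd2_an.H18
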