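import Pool.Agent.MP_16ecd2_an.H18.Kit

/-!
The growth step of the hitting argument.
-/

set_option autoImplicit false

namespace Pool.Agent.MP_16ecd2_an.H18

open MeasureTheory Set Filter Topology Metric
open scoped ENNReal

namespace HGX

/-- A rectangle with signs. -/
def Rc (p q a b c d : ℝ) : Set ℂ := {v | p * v.re ∈ Icc a b ∧ q * v.im ∈ Icc c d}

theorem conv (p q a b c d : ℝ) : Convex ℝ (Rc p q a b c d) := by
  intro u hu v hv s t hs ht hst
  have h1 := convex_Icc a b hu.1 hv.1 hs ht hst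
  have h2 := convex_Icc c d hu.2 hv.2 hs ht hst
  simp only [smul_eq_mul] at h1 h2
  refine ⟨?_, ?_⟩
  · convert h1 using 1
    simp only [Complex.add_re, Complex.smul_re, smul_eq_mul]; ring
  · convert h2 using 1
    simp only [Complex.add_im, Complex.smul_im, smul_eq_mul]; ring

theorem meas (p q a b c d : ℝ) : MeasurableSet (Rc p q a b c d) :=
  ((Complex.measurable_re.const_mul p) measurableSet_Icc).inter
    ((Complex.measurable_im.const_mul q) measurableSet_Icc)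

theorem vol1 {p : ℝ} (hp : p = 1 ∨ p = -1) (a b : ℝ) :
    volume ((fun x : ℝ => p * x) ⁻¹' Icc a b) = ENNReal.ofReal (b - a) := by
  have h0 : p ≠ 0 := by rcases hp with rfl | rfl <;> norm_num
  have h1 : |p⁻¹| = 1 := by rcases hp with rfl | rfl <;> norm_num
  rw [Real.volume_preimage_mul_left h0, h1, Real.volume_Icc]
  simp

theorem vol {p q : ℝ} (hp : p = 1 ∨ p = -1) (hq : q = 1 ∨ q = -1) (a b c d : ℝ) :
    volume (Rc p q a b c d) = ENNReal.ofReal (b - a) * ENNReal.ofReal (d - c) := by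
  have e : Rc p q a b c d = Complex.measurableEquivRealProd ⁻¹'
      (((fun x : ℝ => p * x) ⁻¹' Icc a b) ×ˢ ((fun x : ℝ => q * x) ⁻¹' Icc c d)) := by
    ext v
    simp [Rc]
  rw [e, Complex.volume_preserving_equiv_real_prod.measure_preimage_equiv, Measure.volume_eq_prod,
    Measure.prod_prod, vol1 hp, vol1 hq]

theorem ab {p x a : ℝ} (hp : p = 1 ∨ p = -1) (h1 : -a ≤ p * x) (h2 : p * x ≤ a) : |x| ≤ a := by
  rcases hp with rfl | rfl <;> rw [abs_le] <;> constructor <;> linarith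

theorem ab' {p x a : ℝ} (hp : p = 1 ∨ p = -1) (h : |x| ≤ a) : -a ≤ p * x ∧ p * x ≤ a := by
  rw [abs_le] at h
  rcases hp with rfl | rfl <;> constructor <;> linarith

theorem btw {p x a : ℝ} (h : x ∈ uIcc 0 a) : min 0 (p * a) ≤ p * x ∧ p * x ≤ max 0 (p * a) := by
  rw [← segment_eq_uIcc] at h
  obtain ⟨s, t, hs, ht, hst, rfl⟩ := h
  have h1 := min_le_left 0 (p * a)
  have h2 := min_le_right 0 (p * a)
  have h3 := le_max_left 0 (p * a)
  have h4 := le_max_right 0 (p * a)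
  have e : p * (s • (0 : ℝ) + t • a) = t * (p * a) := by simp only [smul_eq_mul]; ring
  have es : s = 1 - t := by linarith
  subst es
  rw [e]
  constructor <;> nlinarith

variable {Y : Type} [MeasurableSpace Y]

theorem signs {T : TS Y} (B : Base T) (z : Y) {W H : ℝ} (hW : 0 < W) (hH : 0 < H)
    (hbox : ∀ v ∈ T.Hol, ¬ (|v.re| ≤ 2 * W ∧ |v.im| ≤ 2 * H))
    (hv : ∀ t : ℝ, |t| ≤ H → t • Complex.I ∉ T.S z) :
    ∃ p q : ℝ, (p = 1 ∨ p = -1) ∧ (q = 1 ∨ q = -1) ∧
      ∀ c ∈ T.S z, |c.re| ≤ W → |c.im| ≤ H → p * c.re < 0 ∧ q * c.im ≤ 0 := by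
  by_cases hc : ∃ c ∈ T.S z, |c.re| ≤ W ∧ |c.im| ≤ H
  swap
  · exact ⟨1, 1, Or.inl rfl, Or.inl rfl, fun c h1 h2 h3 => (hc ⟨c, h1, h2, h3⟩).elim⟩
  obtain ⟨c, h1, h2, h3⟩ := hc
  have mem : ∀ v : ℂ, v ∈ Rc 1 1 (-W) W (-H) H ↔ |v.re| ≤ W ∧ |v.im| ≤ H := fun v => by
    simp only [Rc, one_mul, mem_Icc, mem_ofPred_eq, abs_le]
  have uniq : ∀ c' ∈ T.S z, |c'.re| ≤ W → |c'.im| ≤ H → c' = c := by
    intro c' g1 g2 g3
    by_contra hne
    obtain ⟨d, -, d', -, hd, hd', -, hh⟩ := B.pair z c' c g1 h1 hne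
    have hsub : convexHull ℝ {0, c', c} ⊆ Rc 1 1 (-W) W (-H) H := by
      refine convexHull_min ?_ (conv _ _ _ _ _ _)
      rintro v (rfl | rfl | rfl)
      · exact (mem _).2 (by simp [hW.le, hH.le])
      · exact (mem _).2 ⟨g2, g3⟩
      · exact (mem _).2 ⟨h2, h3⟩
    have e1 := (mem _).1 (hsub hd)
    have e2 := (mem _).1 (hsub hd')
    refine hbox _ hh ⟨?_, ?_⟩
    · rw [Complex.sub_re]
      linarith [abs_sub d.re d'.re, e1.1, e2.1]
    · rw [Complex.sub_im]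
      linarith [abs_sub d.im d'.im, e1.2, e2.2]
  have hre : c.re ≠ 0 := fun h0 => hv c.im h3 (by
    have : c.im • Complex.I = c := by apply Complex.ext <;> simp [h0]
    rw [this]; exact h1)
  obtain ⟨p, hp, hp'⟩ : ∃ p : ℝ, (p = 1 ∨ p = -1) ∧ p * c.re < 0 := by
    rcases lt_or_gt_of_ne hre with h | h
    · exact ⟨1, Or.inl rfl, by linarith⟩
    · exact ⟨-1, Or.inr rfl, by linarith⟩
  obtain ⟨q, hq, hq'⟩ : ∃ q : ℝ, (q = 1 ∨ q = -1) ∧ q * c.im ≤ 0 := by
    rcases le_total c.im 0 with h | h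
    · exact ⟨1, Or.inl rfl, by linarith⟩
    · exact ⟨-1, Or.inr rfl, by linarith⟩
  refine ⟨p, q, hp, hq, fun c' g1 g2 g3 => ?_⟩
  rw [uniq c' g1 g2 g3]
  exact ⟨hp', hq'⟩

end HGX

open HGX in
theorem hg (hb : RB) (ha : RAF) (hv : RHV) : RHG := by
  intro Y _ T x h ω m k hs hk z hz u r hur hrh hrw hball hnot hvert
  have B := hb Y T
  have V := hv Y T x h ω m hs
  have hH : 0 < h (k + 1) := hs.hpos _ hk.le
  have hW : 0 < ω (k + 1) := hs.wpos _ (by omega) hk.le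
  have hg0 : 8 * h (k + 1) ≤ h k := hs.hgap k (by omega)
  have hg1 : 8 * h (k + 1 + 1) ≤ h (k + 1) := hs.hgap (k + 1) hk
  have hw1 : 8 * ω (k + 1) ≤ ω (k + 1 + 1) := hs.wgap (k + 1) (by omega) hk
  have hbox := hs.box (k + 1) (by omega) hk.le
  set H := h (k + 1) with hHd
  set W := ω (k + 1) with hWd
  set z1 := T.ex z u with hz1
  have hre : |u.re| ≤ W := by linarith [Complex.abs_re_le_norm u]
  have him : |u.im| ≤ H / 4 := by linarith [Complex.abs_im_le_norm u]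
  have hr : 0 < r := (norm_nonneg u).trans_lt hur
  have hz' := (V.vert (k + 1) hk.le 0 z hz u.im (by linarith)).2
  have hub : u.im • Complex.I ∈ ball (0 : ℂ) r := by
    rw [mem_ball_zero_iff, norm_smul, Complex.norm_I, mul_one, Real.norm_eq_abs]
    exact (Complex.abs_im_le_norm u).trans_lt hur
  have hsum : u.im • Complex.I + (u.re : ℂ) = u := by apply Complex.ext <;> simp
  have hub' : u.im • Complex.I + (u.re : ℂ) ∈ ball (0 : ℂ) r := by
    rw [hsum]; exact mem_ball_zero_iff.2 hur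
  have e1 := (T.cons z _ (convex_ball 0 r) (mem_ball_self hr) hball _ hub _ hub').2
  rw [hsum] at e1
  obtain ⟨hreg, e2⟩ := B.back _ _
    (B.reg z _ (convex_ball 0 r) (mem_ball_self hr) hball _ hub _ hub')
  rw [e1, ← hz1] at hreg e2
  rw [← e2] at hz'
  obtain ⟨p, q, hp, hq, hpq⟩ := signs B z1 hW hH hbox hvert
  have hpa := ab' hp hre
  -- the half box
  have F0 : (0 : ℂ) ∈ Rc p 1 0 W (-H) H := by simp [Rc, hW.le, hH.le]
  have Fd : Disjoint (Rc p 1 0 W (-H) H) (T.S z1) := by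
    rw [Set.disjoint_left]
    rintro c ⟨⟨g1, g2⟩, g3, g4⟩ hc
    have := (hpq c hc (ab hp (by linarith) g2) (ab (Or.inl rfl) g3 g4)).1
    linarith
  -- the upper box
  have K0 : (0 : ℂ) ∈ Rc p q (min 0 (-(p * u.re))) W 0 H := by simp [Rc, hW.le, hH.le]
  have Kd : Disjoint (Rc p q (min 0 (-(p * u.re))) W 0 H) (T.S z1) := by
    rw [Set.disjoint_left]
    rintro c ⟨⟨g1, g2⟩, g3, g4⟩ hc
    have g0 : -W ≤ min 0 (-(p * u.re)) := le_min (by linarith) (by linarith [hpa.2])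
    obtain ⟨f1, f2⟩ := hpq c hc (ab hp (by linarith) g2) (ab hq (by linarith) g4)
    have f3 : c.im = 0 := by
      rcases hq with rfl | rfl <;> linarith
    have f4 : -(p * u.re) ≤ p * c.re := by
      rcases min_le_iff.1 g1 with g | g
      · linarith
      · exact g
    have f5 : 0 < p * u.re := by linarith
    have f6 : u.re ≠ 0 := by
      intro h0
      rw [h0, mul_zero] at f5
      exact lt_irrefl _ f5
    have f7 : p ≠ 0 := by rcases hp with rfl | rfl <;> norm_num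
    refine hreg (-(p * c.re) / (p * u.re)) ⟨div_nonneg (by linarith) f5.le, ?_⟩ ?_
    · rw [div_le_one f5]; linarith
    · have : (-(p * c.re) / (p * u.re)) • (-(u.re : ℂ)) = c := by
        apply Complex.ext
        · simp only [Complex.smul_re, Complex.neg_re, Complex.ofReal_re, smul_eq_mul]
          field_simp
        · simp only [Complex.smul_im, Complex.neg_im, Complex.ofReal_im, smul_eq_mul, f3, neg_zero,
            mul_zero]
      rw [this]; exact hc
  have DF : Rc p q 0 W (H / 8) (H / 4) ⊆ Rc p 1 0 W (-H) H := by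
    rintro v ⟨g1, g3, g4⟩
    exact ⟨g1, ab' (Or.inl rfl) (ab hq (by linarith) (by linarith))⟩
  obtain ⟨-, -, -, hQm, -, hQv⟩ := ha Y T _ _
    ((B.dev z1 _ (conv _ _ _ _ _ _) F0 Fd).mono DF) (meas _ _ _ _ _ _)
  refine ⟨_, hQm, ?_, ?_, ?_⟩
  · rw [hQv, vol hp hq, ← ENNReal.ofReal_mul (by linarith)]
    · exact ENNReal.ofReal_le_ofReal (le_of_eq (by ring))
    · intro v g1 v' g2 e
      by_contra hne
      obtain ⟨t, ⟨t0, t1⟩, ht⟩ := B.inj z1 _ (conv _ _ _ _ _ _) F0 Fd v (DF g1) v' (DF g2) hne e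
      obtain ⟨⟨a1, a2⟩, a3, a4⟩ := DF g1
      obtain ⟨⟨b1, b2⟩, b3, b4⟩ := DF g2
      have c1 : |v.re - v'.re| ≤ 2 * W := ab hp (by linarith) (by linarith)
      have c2 : |v.im - v'.im| ≤ 2 * H := ab (Or.inl rfl) (by linarith) (by linarith)
      refine hbox _ ht ⟨?_, ?_⟩
      · rw [Complex.smul_re, smul_eq_mul, abs_mul, abs_of_pos t0, Complex.sub_re]
        nlinarith [abs_nonneg (v.re - v'.re)]
      · rw [Complex.smul_im, smul_eq_mul, abs_mul, abs_of_pos t0, Complex.sub_im]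
        nlinarith [abs_nonneg (v.im - v'.im)]
  · rintro _ ⟨v, ⟨⟨a1, a2⟩, a3, a4⟩, rfl⟩
    have ht : |v.im| ≤ H / 4 := ab hq (by linarith) a4
    have m1 := min_le_left 0 (-(p * u.re))
    have m2 := min_le_right 0 (-(p * u.re))
    have k1 : -(u.re : ℂ) ∈ Rc p q (min 0 (-(p * u.re))) W 0 H := by
      refine ⟨⟨?_, ?_⟩, ?_, ?_⟩ <;> simp only [Complex.neg_re, Complex.neg_im, Complex.ofReal_re,
        Complex.ofReal_im] <;> linarith [hpa.1]
    have k2 : -(u.re : ℂ) + v.im • Complex.I ∈ Rc p q (min 0 (-(p * u.re))) W 0 H := by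
      refine ⟨⟨?_, ?_⟩, ?_, ?_⟩ <;> simp <;> linarith [hpa.1]
    have e3 := (T.cons z1 _ (conv _ _ _ _ _ _) K0 Kd _ k1 _ k2).2
    have hz'' := V.mono _ _ (0 + H / 2) (by linarith)
      (V.vert (k + 1) hk.le _ _ hz' v.im (by linarith)).2
    rw [e3] at hz''
    have hav : |v.re| ≤ W := ab hp (by linarith) a2
    have key : ∀ w ∈ Bx (v.re + u.re) (H / 8),
        -(u.re : ℂ) + v.im • Complex.I + w ∈ Rc p q (min 0 (-(p * u.re))) W 0 H := by
      rintro w ⟨w1, w2⟩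
      obtain ⟨w3, w4⟩ := btw (p := p) w1
      obtain ⟨w5, w6⟩ := ab' hq w2
      have e : (-(u.re : ℂ) + v.im • Complex.I + w).re = -u.re + w.re := by simp
      have e' : (-(u.re : ℂ) + v.im • Complex.I + w).im = v.im + w.im := by simp
      refine ⟨⟨?_, ?_⟩, ?_, ?_⟩
      · rw [e]
        rcases min_le_iff.1 w3 with g | g <;> linarith
      · rw [e]
        rcases le_max_iff.1 w4 with g | g <;> linarith [hpa.1]
      · rw [e']; linarith
      · rw [e']; linarith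
    refine ⟨_, hz'', v.re + u.re, by linarith [abs_add_le v.re u.re], ?_, ?_⟩
    · rw [Set.disjoint_left]
      intro w hw
      exact (T.cons z1 _ (conv _ _ _ _ _ _) K0 Kd _ k2 _
        (key w ⟨hw.1, hw.2.trans (by linarith)⟩)).1
    · rw [(T.cons z1 _ (conv _ _ _ _ _ _) K0 Kd _ k2 _ (key _ ⟨right_mem_uIcc, ?_⟩)).2]
      · congr 1
        apply Complex.ext <;> simp
      · simp only [Complex.ofReal_im, abs_zero]; linarith
  · rw [Set.disjoint_left]
    rintro _ ⟨v, hvD, rfl⟩ hin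
    obtain ⟨⟨a1, a2⟩, a3, a4⟩ := hvD
    have ht : |-v.im| ≤ H / 4 := by rw [abs_neg]; exact ab hq (by linarith) a4
    have hsum' : v + (-v.im) • Complex.I = (v.re : ℂ) := by apply Complex.ext <;> simp
    have k1 : (v.re : ℂ) ∈ Rc p 1 0 W (-H) H := by
      refine ⟨⟨?_, ?_⟩, ?_, ?_⟩ <;> simp only [Complex.ofReal_re, Complex.ofReal_im] <;> linarith
    have e3 := (T.cons z1 _ (conv _ _ _ _ _ _) F0 Fd v (DF ⟨⟨a1, a2⟩, a3, a4⟩)
      ((-v.im) • Complex.I) (by rw [hsum']; exact k1)).2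
    have hz'' := V.mono _ _ (0 + h k / 2) (by linarith)
      (V.vert k (by omega) _ _ hin (-v.im) (by linarith)).2
    rw [e3, hsum'] at hz''
    have key : ∀ w ∈ Bx (-v.re) H, (v.re : ℂ) + w ∈ Rc p 1 0 W (-H) H := by
      rintro w ⟨w1, w2⟩
      obtain ⟨w3, w4⟩ := btw (p := p) w1
      obtain ⟨w5, w6⟩ := ab' (Or.inl rfl) w2
      have e : ((v.re : ℂ) + w).re = v.re + w.re := by simp
      have e' : ((v.re : ℂ) + w).im = w.im := by simp
      refine ⟨⟨?_, ?_⟩, ?_, ?_⟩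
      · rw [e]
        rcases min_le_iff.1 w3 with g | g <;> linarith
      · rw [e]
        rcases le_max_iff.1 w4 with g | g <;> linarith
      · rw [e']; exact w5
      · rw [e']; exact w6
    refine hnot ⟨_, hz'', -v.re, by rw [abs_neg]; exact ab hp (by linarith) a2, ?_, ?_⟩
    · rw [Set.disjoint_left]
      intro w hw
      exact (T.cons z1 _ (conv _ _ _ _ _ _) F0 Fd _ k1 _
        (key w ⟨hw.1, hw.2.trans (by linarith)⟩)).1
    · rw [(T.cons z1 _ (conv _ _ _ _ _ _) F0 Fd _ k1 _ (key _ ⟨right_mem_uIcc, ?_⟩)).2]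
      · simp [T.ex0]
      · simp only [Complex.ofReal_im, abs_zero]; linarith

end Pool.Agent.MP_16ecd2_an.H18
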