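import Pool.Agent.MP_16ecd2_an.H18.Kit

/-!
Successive thickenings of a vertical orbit segment.
-/

set_option autoImplicit false

namespace Pool.Agent.MP_16ecd2_an.H18

open Set

namespace HVX

theorem convex_bx (a H : ℝ) : Convex ℝ (Bx a H) := by
  have h1 : Bx a H = Complex.reLm ⁻¹' uIcc 0 a ∩ Complex.imLm ⁻¹' Icc (-H) H := by
    ext u
    simp [Bx, abs_le]
  rw [h1]
  exact ((convex_uIcc 0 a).linear_preimage _).inter ((convex_Icc _ _).linear_preimage _)

theorem zero_bx (a : ℝ) {H : ℝ} (h : 0 ≤ H) : (0 : ℂ) ∈ Bx a H :=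
  ⟨left_mem_uIcc, by simpa using h⟩

theorem re_bx (a : ℝ) {H : ℝ} (h : 0 ≤ H) : (a : ℂ) ∈ Bx a H :=
  ⟨right_mem_uIcc, by simpa using h⟩

theorem add_bx {a H t : ℝ} {w : ℂ} (h : w ∈ Bx a (H - |t|)) : t • Complex.I + w ∈ Bx a H := by
  refine ⟨by simpa using h.1, ?_⟩
  have h1 : (t • Complex.I + w).im = t + w.im := by simp
  rw [h1]
  linarith [abs_add_le t w.im, h.2]

variable {Y : Type} [MeasurableSpace Y] {T : TS Y} {x : Y} {h ω : ℕ → ℝ} {m : ℕ}

theorem mono (k : ℕ) : ∀ s s', s ≤ s' → T.VV x h ω k s ⊆ T.VV x h ω k s' := by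
  induction k with
  | zero =>
    rintro s s' hs _ ⟨t, ht, rfl⟩
    exact ⟨t, ht.trans hs, rfl⟩
  | succ k ih =>
    rintro s s' hs _ ⟨z', hz', a, ha, hd, rfl⟩
    have h1 : Bx a (h (k + 1) - s') ⊆ Bx a (h (k + 1) - s) := fun u hu =>
      ⟨hu.1, by linarith [hu.2]⟩
    exact ⟨z', ih _ _ (by linarith) hz', a, ha, hd.mono_left h1, rfl⟩

theorem vert (B : Base T) (S : HS T x h ω m) (k : ℕ) : k ≤ m → ∀ s, ∀ z ∈ T.VV x h ω k s,
    ∀ t : ℝ, s + |t| ≤ h k →
    T.Reg z (t • Complex.I) ∧ T.ex z (t • Complex.I) ∈ T.VV x h ω k (s + |t|) := by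
  induction k with
  | zero =>
    rintro hk s _ ⟨t₀, ht₀, rfl⟩ t ht
    have h0 := S.hpos 0 hk
    have h1 : ∀ τ ∈ Icc (0 : ℝ) (2 * h 0), τ • Complex.I ∉ T.S x := by
      intro τ hτ
      have := S.reg (τ / (2 * h 0))
        ⟨div_nonneg hτ.1 (by positivity), (div_le_one (by positivity)).2 hτ.2⟩
      rwa [smul_smul, div_mul_cancel₀ _ (by positivity)] at this
    have h2 : |t₀ + t| ≤ s + |t| := by linarith [abs_add_le t₀ t]
    have h3 := abs_le.1 (h2.trans ht)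
    have h4 := abs_le.1 (ht₀.trans (show s ≤ h 0 by linarith [abs_nonneg t]))
    have h5 := B.line x Complex.I _ (convex_Icc _ _) ⟨le_rfl, by positivity⟩ h1 (h 0 + t₀)
      ⟨by linarith [h4.1], by linarith [h4.2]⟩ (h 0 + (t₀ + t))
      ⟨by linarith [h3.1], by linarith [h3.2]⟩
    rw [show h 0 + (t₀ + t) - (h 0 + t₀) = t by ring] at h5
    exact ⟨h5.1, t₀ + t, h2, h5.2⟩
  | succ k ih =>
    rintro hk s _ ⟨z', hz', a, ha, hd, rfl⟩ t ht
    have h0 := S.hpos (k + 1) hk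
    have h1 := S.hgap k hk
    have h2 : 0 ≤ h (k + 1) - s - |t| := by linarith
    have h3 : 0 ≤ h (k + 1) - s := by linarith [abs_nonneg t]
    have hc := T.cons z' _ (convex_bx _ _) (zero_bx a h3) hd
    have m1 : t • Complex.I + a ∈ Bx a (h (k + 1) - s) := add_bx (re_bx a h2)
    have m2 : t • Complex.I ∈ Bx a (h (k + 1) - s) := by
      simpa only [add_zero] using add_bx (zero_bx a h2)
    have m3 : a + t • Complex.I ∈ Bx a (h (k + 1) - s) := by rwa [add_comm (a : ℂ)]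
    refine ⟨B.reg z' _ (convex_bx _ _) (zero_bx a h3) hd _ (re_bx a h3) _ m3,
      T.ex z' (t • Complex.I), ?_, a, ha, disjoint_left.2 fun w hw => ?_, ?_⟩
    · have := (ih (by omega) _ z' hz' t (by linarith)).2
      rwa [add_right_comm] at this
    · exact (hc _ m2 w (add_bx (by rwa [sub_sub]))).1
    · rw [(hc _ (re_bx a h3) _ m3).2, (hc _ m2 _ m1).2, add_comm]

theorem free (B : Base T) (S : HS T x h ω m) {k : ℕ} (hk : k ≤ m) {z : Y}
    (hz : z ∈ T.VV x h ω k 0) {t : ℝ} (ht : |t| ≤ h k) : t • Complex.I ∉ T.S z := by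
  simpa only [one_smul] using
    (vert B S k hk 0 z hz t (by rwa [zero_add])).1 1 ⟨zero_le_one, le_rfl⟩

theorem step (B : Base T) (S : HS T x h ω m) {k : ℕ} (hk : k + 1 ≤ m) :
    T.VV x h ω k 0 ⊆ T.VV x h ω (k + 1) 0 := by
  intro z hz
  have h0 := S.hpos (k + 1) hk
  have h1 := S.hgap k hk
  refine ⟨z, mono k _ _ (by linarith) hz, 0, ?_, disjoint_left.2 fun u hu => ?_, ?_⟩
  · rw [abs_zero]
    exact (S.wpos (k + 1) (by omega) hk).le
  · have h2 : u = u.im • Complex.I := by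
      have := hu.1
      rw [uIcc_self, mem_singleton_iff] at this
      apply Complex.ext <;> simp [this]
    rw [h2]
    exact free B S (by omega) hz (by linarith [hu.2])
  · rw [Complex.ofReal_zero, T.ex0]

theorem incl (B : Base T) (S : HS T x h ω m) (k k' : ℕ) (hk : k ≤ k') :
    k' ≤ m → T.VV x h ω k 0 ⊆ T.VV x h ω k' 0 := by
  induction k', hk using Nat.le_induction with
  | base => exact fun _ => Subset.rfl
  | succ j _ ih => exact fun hj => (ih (by omega)).trans (step B S hj)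

theorem unw (B : Base T) (S : HS T x h ω m) (k : ℕ) : k ≤ m → ∀ s H : ℝ, s ≤ 3 * h k / 4 →
    0 ≤ H → H ≤ h k / 4 → ∀ z ∈ T.VV x h ω k s, ∃ t ∈ Icc (h 0 / 4) (7 * h 0 / 4),
      T.SlN H k (T.ex x (t • Complex.I)) z := by
  induction k with
  | zero =>
    rintro _ s H hs _ _ _ ⟨t, ht, rfl⟩
    have h1 := abs_le.1 (ht.trans hs)
    exact ⟨h 0 + t, ⟨by linarith [h1.1], by linarith [h1.2]⟩, rfl⟩
  | succ k ih =>
    rintro hk s H hs hH hH' _ ⟨z', hz', a, ha, hd, rfl⟩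
    have h0 := S.hpos (k + 1) hk
    have h1 := S.hgap k hk
    obtain ⟨t, ht, hl⟩ := ih (by omega) _ H (by linarith) hH (by linarith) z' hz'
    have hsub : Rect a H ⊆ Bx a (h (k + 1) - s) := fun u hu =>
      ⟨hu.1, by rw [abs_of_nonneg hu.2.1]; linarith [hu.2.2]⟩
    refine ⟨t, ht, z', hl, a, rfl, hd.mono_left hsub, fun u hu u' hu' e => ?_⟩
    by_contra hne
    obtain ⟨τ, hτ, hm⟩ := B.inj z' _ (convex_bx _ _) (zero_bx a (by linarith)) hd u (hsub hu) u'
      (hsub hu') hne e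
    have h2 : |(u - u').re| ≤ |a| := by
      simpa using abs_sub_le_of_uIcc_subset_uIcc (uIcc_subset_uIcc hu'.1 hu.1)
    have h3 : |(u - u').im| ≤ H := by
      rw [Complex.sub_im, abs_le]
      constructor <;> linarith [hu.2.1, hu.2.2, hu'.2.1, hu'.2.2]
    refine S.box (k + 1) (by omega) hk _ hm ⟨?_, ?_⟩
    · rw [Complex.smul_re, smul_eq_mul, abs_mul, abs_of_pos hτ.1]
      have := mul_le_of_le_one_left (abs_nonneg (u - u').re) hτ.2
      linarith [abs_nonneg a]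
    · rw [Complex.smul_im, smul_eq_mul, abs_mul, abs_of_pos hτ.1]
      have := mul_le_of_le_one_left (abs_nonneg (u - u').im) hτ.2
      linarith

end HVX

open HVX in
theorem hv (hb : RB) : RHV := by
  intro Y _ T x h ω m S
  have B := hb Y T
  have h0 : T.ex x (h 0 • Complex.I) ∈ T.VV x h ω 0 0 := ⟨0, by simp, by rw [add_zero]⟩
  exact ⟨mono, vert B S, incl B S, ⟨fun k hk => incl B S 0 k k.zero_le hk h0,
    fun t ht => free B S m.zero_le h0 ht⟩, unw B S⟩

end Pool.Agent.MP_16ecd2_an.H18
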