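import Pool.Agent.MP_16ecd2_an.H18.Kit

/-!
Almost every point is reached from a long orbit segment by few horizontal moves.
-/

set_option autoImplicit false

namespace Pool.Agent.MP_16ecd2_an.H18

open MeasureTheory Set Filter Topology Metric
open scoped ENNReal

namespace HitX

theorem anti {Y : Type} [MeasurableSpace Y] {T : TS Y} {x : Y} {h ω : ℕ → ℝ} {m : ℕ}
    (hs : HS T x h ω m) (j k : ℕ) (hjk : j ≤ k) (hk : k ≤ m) : h k ≤ h j := by
  induction k, hjk using Nat.le_induction with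
  | base => exact le_rfl
  | succ k _ ih =>
    have h1 := hs.hgap k hk
    have h2 := hs.hpos (k + 1) hk
    have h3 := ih (by omega)
    linarith

end HitX

theorem hit (hn : RNull) (hc : RGconn) (hv : RHV) (hg : RHG) : RHit := by
  intro Y _ T x h ω m c H hs c0 hck hm H0 H1
  have V := hv Y T x h ω m hs
  have a0 : 0 ≤ T.area := ENNReal.toReal_nonneg
  have m1 : 1 < m := by
    have : 0 ≤ 16 * T.area / c := by positivity
    exact_mod_cast (show (1 : ℝ) < m by linarith)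
  let Z : Set Y := {z | ∃ t : ℝ, |t| ≤ h 1 ∧ t • Complex.I ∈ T.S z}
  have Z0 : T.μ Z = 0 :=
    measure_mono_null (t := {z | ∃ t : ℝ, t • Complex.I ∈ T.S z})
      (fun z ⟨t, _, ht⟩ => ⟨t, ht⟩) ((hn Y T).1 Complex.I)
  refine ⟨Z, Z0, fun z₁ hz₁ => ?_⟩
  by_cases hz : z₁ ∈ T.VV x h ω m 0
  · exact V.unw m le_rfl 0 H (by have := hs.hpos m le_rfl; positivity) H0 H1 z₁ hz
  exfalso
  have key : ∀ k, ∃ Q : Set Y, k + 1 < m → MeasurableSet Q ∧ ENNReal.ofReal (c / 8) ≤ T.μ Q ∧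
      Q ⊆ T.VV x h ω (k + 2) 0 ∧ Disjoint Q (T.VV x h ω k 0) := fun k => by
    by_cases hk : k + 1 < m
    swap
    · exact ⟨∅, fun e => absurd e hk⟩
    have p1 := hs.hpos (k + 1) hk.le
    have p2 := hs.wpos (k + 1) (by omega) hk.le
    obtain ⟨z, z1, -, u, r, r1, r2, r3, r4, r5⟩ := hc Y T Z (T.VV x h ω (k + 1) 0)
      (min (h (k + 1) / 4) (ω (k + 1))) _ z₁ Z0 (by positivity) (V.base.1 _ hk.le)
      (fun ⟨t, t1, t2⟩ => V.base.2 t (t1.trans (HitX.anti hs 0 1 zero_le_one m1.le)) t2)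
      (fun e => hz (V.incl _ _ hk.le le_rfl e)) hz₁
    obtain ⟨Q, q1, q2, q3⟩ := hg Y T x h ω m k hs hk z z1 u r r1 (r2.trans (min_le_left _ _))
      (r2.trans (min_le_right _ _)) r3 r4
      fun t t1 t2 => r5 ⟨t, t1.trans (HitX.anti hs 1 (k + 1) (by omega) hk.le), t2⟩
    refine ⟨Q, fun _ => ⟨q1, le_trans (ENNReal.ofReal_le_ofReal ?_) q2, q3⟩⟩
    have := hck (k + 1) (by omega) hk.le
    linarith
  choose Q hQ using key
  have lt : ∀ i ∈ Finset.range (m / 2), 2 * i + 1 < m := fun i hi => by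
    have := Finset.mem_range.1 hi
    omega
  have dj : ∀ i ∈ Finset.range (m / 2), ∀ j ∈ Finset.range (m / 2), i < j →
      Disjoint (Q (2 * i)) (Q (2 * j)) := fun i hi j hj e =>
    ((hQ _ (lt j hj)).2.2.2.mono_right ((hQ _ (lt i hi)).2.2.1.trans
      (V.incl _ _ (by omega) (by have := lt j hj; omega)))).symm
  have s1 := measure_biUnion_finset (μ := T.μ) (s := Finset.range (m / 2))
    (f := fun i => Q (2 * i)) (fun i hi j hj e => by
      rcases lt_or_gt_of_ne e with e | e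
      · exact dj i hi j hj e
      · exact (dj j hj i hi e).symm) fun i hi => (hQ _ (lt i hi)).1
  have s2 : ((m / 2 : ℕ) : ℝ≥0∞) * ENNReal.ofReal (c / 8) ≤ T.μ univ := by
    refine le_trans ?_ (measure_mono (subset_univ (⋃ i ∈ Finset.range (m / 2), Q (2 * i))))
    rw [s1]
    have := Finset.card_nsmul_le_sum (Finset.range (m / 2)) (fun i => T.μ (Q (2 * i))) _
      fun i hi => (hQ _ (lt i hi)).2.1
    rwa [Finset.card_range, nsmul_eq_mul] at this
  have := T.fm
  have s3 := ENNReal.toReal_mono (measure_ne_top T.μ univ) s2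
  rw [ENNReal.toReal_mul, ENNReal.toReal_natCast, ENNReal.toReal_ofReal (by positivity)] at s3
  have s4 : (m : ℝ) ≤ 2 * ((m / 2 : ℕ) : ℝ) + 1 := by
    exact_mod_cast (show m ≤ 2 * (m / 2) + 1 by omega)
  have s5 : 2 * ((m / 2 : ℕ) : ℝ) ≤ 16 * T.area / c := by
    rw [le_div_iff₀ c0]
    change _ ≤ T.area at s3
    linarith
  linarith

end Pool.Agent.MP_16ecd2_an.H18
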