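import Pool.Agent.MP_16ecd2_an.H18.Kit

/-!
Induction on the number of marked points.
-/

set_option autoImplicit false

namespace Pool.Agent.MP_16ecd2_an.H18

open MeasureTheory Set Filter Topology Metric

namespace IndX

/-- The estimate for a real function. -/
def Es (f : ℝ → ℝ → ℝ → ℝ) (a b : ℝ) : Prop :=
  ∃ κ > (0 : ℝ), ∃ C : ℝ, ∀ R α β : ℝ, 1 ≤ R → α ≤ β → β ≤ α + 2 * Real.pi →
    a * (β - α) * R ^ 2 - C * R ^ (2 - κ) ≤ f α β R ∧
      f α β R ≤ a * (β - α) * R ^ 2 + b * R ^ 2 + C * R ^ (2 - κ)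

theorem pw {κ κ' R : ℝ} (C : ℝ) (h : κ' ≤ κ) (hR : 1 ≤ R) :
    C * R ^ (2 - κ) ≤ |C| * R ^ (2 - κ') :=
  mul_le_mul (le_abs_self C) (Real.rpow_le_rpow_of_exponent_le hR (by linarith)) (by positivity)
    (abs_nonneg C)

theorem Es.add {f g : ℝ → ℝ → ℝ → ℝ} {a b a' b' : ℝ} (h : Es f a b) (h' : Es g a' b') :
    Es (fun α β R => f α β R + g α β R) (a + a') (b + b') := by
  obtain ⟨κ, p, C, H⟩ := h
  obtain ⟨κ', p', C', H'⟩ := h'
  refine ⟨min κ κ', lt_min p p', |C| + |C'|, fun R α β x y z => ?_⟩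
  obtain ⟨c, d⟩ := H R α β x y z
  obtain ⟨c', d'⟩ := H' R α β x y z
  have e := pw C (min_le_left κ κ') x
  have e' := pw C' (min_le_right κ κ') x
  constructor <;> linarith

theorem Es.sum {ι : Type} (s : Finset ι) {f : ι → ℝ → ℝ → ℝ → ℝ} {a : ι → ℝ}
    (h : ∀ i ∈ s, Es (f i) (a i) 0) : Es (fun α β R => ∑ i ∈ s, f i α β R) (∑ i ∈ s, a i) 0 := by
  classical
  induction s using Finset.induction_on with
  | empty => exact ⟨1, one_pos, 0, fun _ _ _ _ _ _ => by simp⟩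
  | insert i s hi ih =>
    simpa only [Finset.sum_insert hi, add_zero] using (h i (Finset.mem_insert_self _ _)).add
      (ih fun j hj => h j (Finset.mem_insert_of_mem hj))

theorem Es.shift {f : ℝ → ℝ → ℝ → ℝ} {a b : ℝ} (h : Es f a b) (c : ℝ) :
    Es (fun α β R => f (α + c) (β + c) R) a b := by
  obtain ⟨κ, p, C, H⟩ := h
  exact ⟨κ, p, C, fun R α β x y z => by
    simpa only [add_sub_add_right_eq_sub] using H R (α + c) (β + c) x (by linarith) (by linarith)⟩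

variable {X : Type} [TopologicalSpace X]

theorem est_sub {Γ Γ' : Set (C(unitInterval, X) × ℂ)} {b : ℝ} (h : Est Γ 0 b) (f : Fin' Γ)
    (s : Γ' ⊆ Γ) : Es (cnt Γ') 0 b := by
  obtain ⟨κ, p, C, H⟩ := h
  refine ⟨κ, p, |C|, fun R α β x y z => ⟨?_, ?_⟩⟩
  · have : 0 ≤ |C| * R ^ (2 - κ) := by positivity
    have : 0 ≤ cnt Γ' α β R := Nat.cast_nonneg _
    linarith
  · have : cnt Γ' α β R ≤ cnt Γ α β R := Nat.cast_le.2 (ncard_le_ncard (fun c hc => ⟨s hc.1, hc.2⟩)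
      ((f R).subset fun c ⟨a, r, hr, θ, _, e⟩ => ⟨a, by
        rw [e, norm_mul, Complex.norm_exp_ofReal_mul_I, mul_one, Complex.norm_of_nonneg hr.1.le]
        exact hr.2⟩))
    linarith [(H R α β x y z).2, pw C (le_refl κ) x]

theorem conn_eq {S S' : TSurf X} {Q P : Set X} (h : ∀ γ v, S'.Straight γ v ↔
    S.Straight γ v ∧ ∀ t : unitInterval, 0 < t → t < 1 → γ t ∉ Q) (s : Q ⊆ P) :
    S'.Conn P = S.Conn P := Set.ext fun _ =>
  ⟨fun ⟨a, b, d⟩ => ⟨a, ((h _ _).1 b).1, d⟩,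
    fun ⟨a, b, d⟩ => ⟨a, (h _ _).2 ⟨b, fun t x y z => d.2.2 t x y (s z)⟩, d⟩⟩

/-- The induction hypothesis. -/
def Inv [MeasurableSpace X] (S : TSurf X) (μ : Measure X) (A : ℝ) (k : ℕ) (Q : Set X) : Prop :=
  Q.Finite ∧ Q.ncard = k ∧ Disjoint Q S.Sig ∧ ∃ S' : TSurf X, (S'.Sig : Set X) = ↑S.Sig ∪ Q ∧
    S'.tot = S.tot + k ∧ S'.IsArea μ ∧ (∀ γ v, S'.Straight γ v ↔
      S.Straight γ v ∧ ∀ t : unitInterval, 0 < t → t < 1 → γ t ∉ Q) ∧
    Es (cnt (S'.Conn S'.Sig)) ((2 * k * S.tot + k * (k - 1)) / (2 * (μ univ).toReal))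
      (A + k * (4 * Real.pi * S.tot / (μ univ).toReal))

end IndX

open IndX in
theorem ind (hm : RMark) (hp : RPQX) (hx : RMX) (hl : RLX) (hs : RStep) : RInd := by
  intro X _ _ _ _ _ _ S μ hμ
  obtain ⟨-, ⟨A, hA, e0⟩, -⟩ := hx X S μ hμ
  have main : ∀ k, AE μ k (Inv S μ A k) := fun k => by
    induction k with
    | zero => exact ⟨finite_empty, ncard_empty _, empty_disjoint _, S, by simp, rfl, hμ, by simp,
        by simpa [Est, Es] using e0⟩
    | succ k ih =>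
      refine AE.mono μ k ?_ ih
      rintro Q ⟨q1, q2, q3, S', q4, q5, q6, q7, q8⟩
      obtain ⟨m1, -, m2⟩ := hx X S' μ q6
      have p : ∀ᵐ q ∂μ, ∀ σ ∈ S'.Sig, Fin' (S'.Seg q σ) ∧
          Es (cnt (S'.Seg q σ)) (S'.ord σ / (2 * (μ univ).toReal)) 0 :=
        (eventually_all_finset _).2 fun σ hσ => by
          obtain ⟨κ, p, H⟩ := (hp X S' μ q6).2 σ hσ
          refine H.mono fun q ⟨a, C, b⟩ => ⟨a, κ, p, C, fun R α β x y z => ?_⟩
          obtain ⟨c, d⟩ := abs_le.1 (b R α β x y z)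
          rw [mul_div_right_comm, mul_div_right_comm] at c d
          constructor <;> linarith
      filter_upwards [m2, p, hl X S μ hμ] with q ⟨a1, a2⟩ a3 ⟨a4, a5⟩
      have sub : S'.Lp q ⊆ S.Lp q := fun c hc => ⟨⟨((q7 _ _).1 hc.1.1).1, hc.1.2⟩, hc.2⟩
      obtain ⟨-, b⟩ := hs X S' q a1 a2 m1 (fun σ h => (a3 σ h).1) fun R =>
        (a4 R).subset fun c hc => ⟨sub hc.1, hc.2⟩
      obtain ⟨S'', c1, c2, c3, c4⟩ := hm X S' μ q q6 a1
      have n : q ∉ (S.Sig : Set X) ∪ Q := q4 ▸ a1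
      refine ⟨q1.insert q, by rw [ncard_insert_of_notMem (fun h => n (.inr h)) q1, q2],
        disjoint_insert_left.2 ⟨fun h => n (.inl h), q3⟩, S'', by rw [c1, q4, union_insert],
        by rw [c2, q5, add_assoc], c3, fun γ v => ?_, ?_⟩
      · simp only [c4, q7, mem_insert_iff, not_or, and_assoc, imp_and, forall_and]
        tauto
      · have e := (q8.add (Es.sum _ fun σ h => by
          simpa only [add_zero] using (a3 σ h).2.add ((a3 σ h).2.shift Real.pi))).add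
            (est_sub a5 a4 sub)
        have t : (∑ σ ∈ S'.Sig, S'.ord σ : ℝ) = S.tot + k := by exact_mod_cast q5
        rw [Finset.sum_add_distrib, ← Finset.sum_div, t] at e
        rw [c1, conn_eq (Q := {q}) c4 (singleton_subset_iff.2 (mem_insert _ _)),
          show cnt _ = _ from funext₃ b]
        refine (congrArg₂ _ ?_ ?_).mp e <;> push_cast <;> ring
  refine ⟨A, hA, fun k => AE.mono μ k ?_ (main k)⟩
  rintro Q ⟨-, q2, q3, S', q4, -, q6, q7, q8⟩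
  rw [← conn_eq q7 subset_union_right, ← q4]
  exact ⟨q2, q3, (hx X S' μ q6).1, q8⟩

end Pool.Agent.MP_16ecd2_an.H18
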