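import Pool.Agent.MP_16ecd2_an.H18.Kit

/-!
Iteration of the exponents.
-/

set_option autoImplicit false

namespace Pool.Agent.MP_16ecd2_an.H18

namespace IterX

variable {Y : Type} [MeasurableSpace Y] {T : TS Y}

theorem mono {j : ℕ} {β β' : ℝ} (h : T.PP j β) (hb : β ≤ β') : T.PP j β' := by
  obtain ⟨A, A0, h⟩ := h
  exact ⟨A, A0, fun g hg s s0 s1 hs B hB hj l hl Γ hΓ => (h g hg s s0 s1 hs B hB hj l hl Γ hΓ).trans
    (mul_le_mul_of_nonneg_left (Real.rpow_le_rpow_of_exponent_le hl hb) A0)⟩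

theorem down {M : ℕ} {e : ℕ → ℝ} (h0 : T.PP (M + 1) (e 0))
    (h : ∀ j i, 1 ≤ j → T.PP (j + 1) (e i) → T.PP j (e (i + 1))) : T.PP 1 (e M) := by
  have : ∀ i j, i + j = M → T.PP (j + 1) (e i) := fun i => by
    induction i with
    | zero => intro j hj; rwa [← hj, zero_add] at h0
    | succ i ih => exact fun j hj => h _ i (by omega) (ih (j + 1) (by omega))
  exact this M 0 rfl

end IterX

open IterX

theorem iter (hc : RCard) (hj : RStepJ) (h0 : RStep0) : RIter := by
  intro Y _ T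
  obtain ⟨M, hM⟩ := hc Y T
  have top : ∀ β, T.PP (M + 1) β := fun β =>
    ⟨0, le_rfl, fun _ _ _ _ _ _ B hB e => absurd (hM B hB) (by omega)⟩
  have a := down (e := fun i => 2 * (i : ℝ)) (top _) fun j i h1 h =>
    mono (hj Y T j _ h1 (by positivity) h).1 (by push_cast; linarith)
  have b : ∀ p : ℝ, 2 ≤ p → T.PP 0 p → T.PP 1 (p - (1 / 4) ^ M) := fun p hp h =>
    down (e := fun i => p - (1 / 4 : ℝ) ^ i) (top _) fun j i h1 h2 => by
      have c0 : (0 : ℝ) < (1 / 4) ^ i := by positivity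
      have c1 : (1 / 4 : ℝ) ^ i ≤ 1 := pow_le_one₀ (by norm_num) (by norm_num)
      refine (hj Y T j _ h1 (by linarith) h2).2 p _ hp (by linarith) ?_ h
      have e : p * (1 / p) = 1 := by field_simp
      have e2 : 1 / p ≤ 1 / 2 := one_div_le_one_div_of_le two_pos hp
      rw [pow_succ]
      nlinarith
  have c0 : (0 : ℝ) < (1 / 4) ^ M := by positivity
  have c1 : (1 / 4 : ℝ) ^ M ≤ 1 := pow_le_one₀ (by norm_num) (by norm_num)
  generalize (1 / 4 : ℝ) ^ M = c at *
  have d : ∀ p : ℝ, 2 + c / 2 ≤ p → T.PP 0 p → T.PP 0 (p - c ^ 2 / 6) := fun p hp h => by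
    refine mono ((h0 Y T _ (by linarith) (b p (by linarith) h)).2 p (by linarith) (by linarith) h) ?_
    have p0 : 0 < p := by linarith
    have e : p * (2 / p) = 2 := by field_simp
    have e2 : 2 / p ≤ 1 - c / 6 := by
      rw [div_le_iff₀ p0]
      nlinarith
    nlinarith
  have k : ∀ n : ℕ, T.PP 0 (max (2 + c / 2) (2 * M + 2 - n * (c ^ 2 / 6))) := fun n => by
    induction n with
    | zero => exact mono (h0 Y T _ (by positivity) a).1 (by simp)
    | succ n ih =>
      refine mono (d _ (le_max_left _ _) ih) ?_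
      rw [← max_sub_sub_right]
      exact max_le_max (sub_le_self _ (by positivity)) (by push_cast; linarith)
  obtain ⟨n, hn⟩ := exists_nat_ge (2 * M / (c ^ 2 / 6))
  have := k n
  rw [max_eq_left (by linarith [(div_le_iff₀ (by positivity)).1 hn])] at this
  exact ⟨_, by linarith, by linarith, b _ (by linarith) this⟩

end Pool.Agent.MP_16ecd2_an.H18
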