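import Pool.Agent.MP_16ecd2_an.H18.Kit

/-!
Row LX: closed segments through a generic point.
-/

set_option autoImplicit false

namespace Pool.Agent.MP_16ecd2_an.H18

open MeasureTheory Set Filter Topology Metric
open scoped ENNReal

namespace LXX

theorem sect_norm {α β R : ℝ} {v : ℂ} (h : v ∈ Sect α β R) : ‖v‖ ≤ R := by
  obtain ⟨r, hr, θ, -, rfl⟩ := h
  rw [norm_mul, Complex.norm_exp_ofReal_mul_I, mul_one, Complex.norm_real, Real.norm_eq_abs,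
    abs_of_pos hr.1]
  exact hr.2

theorem mem_sect {R : ℝ} {v : ℂ} (h0 : v ≠ 0) (h : ‖v‖ ≤ R) : v ∈ Sect 0 (2 * Real.pi) R := by
  refine ⟨‖v‖, ⟨norm_pos_iff.2 h0, h⟩, toIcoMod Real.two_pi_pos 0 v.arg, ?_, ?_⟩
  · simpa using toIcoMod_mem_Ico Real.two_pi_pos 0 v.arg
  · have h1 := Complex.norm_mul_exp_arg_mul_I v
    have h2 := toIcoMod_add_toIcoDiv_zsmul Real.two_pi_pos 0 v.arg
    have h3 : (v.arg : ℂ) * Complex.I = (toIcoMod Real.two_pi_pos 0 v.arg : ℝ) * Complex.I +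
        (toIcoDiv Real.two_pi_pos 0 v.arg : ℤ) * (2 * Real.pi * Complex.I) := by
      conv_lhs => rw [← h2]
      push_cast
      rw [zsmul_eq_mul]
      ring
    rw [h3, Complex.exp_add, Complex.exp_int_mul_two_pi_mul_I, mul_one] at h1
    exact h1.symm

end LXX

open LXX

theorem lx (hb : RB) (h2 : RA2) (ha : RAtl) (hr : RBr) (hp : RPQ) (hl : RLoop) : RLX := by
  intro X _ _ _ _ _ _ S μ hμ
  obtain ⟨T, hT⟩ := ha X S μ hμ
  obtain ⟨κ, hκ, hq⟩ := hp _ T T.S S.tot hT.all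
  obtain ⟨C₀, hC₀, hL⟩ := hl _ T
  have hB := hb _ T
  have hA := h2 X S
  have hR := hr X S
  have hpos : 0 < (μ univ).toReal := hT.area ▸ hB.area_pos
  refine hT.ae _ (hq.mono fun y hy => ?_)
  obtain ⟨C, hC⟩ := hy
  have hmap : ∀ R : ℝ, MapsTo Prod.snd {c ∈ S.Lp y | ‖c.2‖ ≤ R} (T.Loops y R) := by
    rintro R c ⟨⟨h1, h3, h4⟩, h5⟩
    have h6 := hR.reg y y y.2 y.2 c h1
    refine ⟨h3, (hT.reg y c.2).2 ⟨_, h6⟩, Subtype.ext ?_, fun t ht h7 => ?_, h5⟩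
    · rw [hT.ex]
      exact hA.exq _ _ _ h6
    · have h8 := hR.int y c.1 c.2 y.2 h1.1 h1.2.1 ⟨t, ht.1.le, ht.2.le⟩ ht.2
      have h9 := congrArg Subtype.val h7
      rw [hT.ex, hA.exq _ _ _ h8] at h9
      exact h4 _ ht.1 ht.2 h9
  have hinj : ∀ R : ℝ, InjOn Prod.snd {c ∈ S.Lp y | ‖c.2‖ ≤ R} := fun R =>
    (hR.inj y y y.2).mono fun c hc => hc.1.1
  have hfin : Fin' (S.Lp y) := fun R => Set.Finite.of_injOn (hmap R) (hinj R) (hL y R).1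
  refine ⟨hfin, min κ 1, lt_min hκ one_pos, Real.pi * S.tot / (μ univ).toReal * (4 * C₀ + C₀ ^ 2) +
    |C| * (2 + C₀) ^ (2 - min κ 1), fun R α β hR1 _ _ => ⟨?_, ?_⟩⟩
  · have h3 : 0 ≤ cnt (S.Lp y) α β R := Nat.cast_nonneg _
    have h4 : 0 ≤ (Real.pi * S.tot / (μ univ).toReal * (4 * C₀ + C₀ ^ 2) +
        |C| * (2 + C₀) ^ (2 - min κ 1)) * R ^ (2 - min κ 1) := by positivity
    linarith
  have hR0 : 0 ≤ R := by linarith
  have hR' : 1 ≤ 2 * R + C₀ := by linarith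
  have c1 : {c ∈ S.Lp y | c.2 ∈ Sect α β R}.ncard ≤ {c ∈ S.Lp y | ‖c.2‖ ≤ R}.ncard :=
    Set.ncard_le_ncard (fun c hc => ⟨hc.1, sect_norm hc.2⟩) (hfin R)
  have c2 := Set.ncard_le_ncard_of_injOn Prod.snd (hmap R) (hinj R) (hL y R).1
  have c3 := (hL y R).2
  have c4 : (T.S y ∩ closedBall 0 (2 * R + C₀)).ncard ≤
      (T.S y ∩ Sect 0 (2 * Real.pi) (2 * R + C₀)).ncard := by
    refine Set.ncard_le_ncard (fun v hv => ⟨hv.1, mem_sect ?_ (mem_closedBall_zero_iff.1 hv.2)⟩)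
      ((T.fin y (2 * R + C₀)).subset fun v hv => ⟨hv.1, mem_closedBall_zero_iff.2 (sect_norm hv.2)⟩)
    rintro rfl
    exact hB.zero y hv.1
  have c5 : cnt (S.Lp y) α β R ≤ (T.S y ∩ Sect 0 (2 * Real.pi) (2 * R + C₀)).ncard :=
    Nat.cast_le.2 (c1.trans (c2.trans (c3.trans c4)))
  have c6 := (abs_le.1 (hC (2 * R + C₀) 0 (2 * Real.pi) hR' Real.two_pi_pos.le (by simp))).2
  rw [hT.area] at c6
  have e1 : R ≤ R ^ (2 - min κ 1) := by
    have := Real.rpow_le_rpow_of_exponent_le hR1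
      (show (1 : ℝ) ≤ 2 - min κ 1 by linarith [min_le_right κ 1])
    rwa [Real.rpow_one] at this
  have e2 : (2 * R + C₀) ^ 2 ≤ 4 * R ^ 2 + (4 * C₀ + C₀ ^ 2) * R ^ (2 - min κ 1) := by
    have h3 : C₀ ^ 2 ≤ C₀ ^ 2 * R := by nlinarith [sq_nonneg C₀]
    have h4 : (4 * C₀ + C₀ ^ 2) * R ≤ (4 * C₀ + C₀ ^ 2) * R ^ (2 - min κ 1) := by gcongr
    nlinarith
  have e3 : C * (2 * R + C₀) ^ (2 - κ) ≤ |C| * (2 + C₀) ^ (2 - min κ 1) * R ^ (2 - min κ 1) := by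
    have h3 : (2 * R + C₀) ^ (2 - κ) ≤ (2 * R + C₀) ^ (2 - min κ 1) :=
      Real.rpow_le_rpow_of_exponent_le hR' (by linarith [min_le_left κ 1])
    have h4 : (2 * R + C₀) ^ (2 - min κ 1) ≤ ((2 + C₀) * R) ^ (2 - min κ 1) :=
      Real.rpow_le_rpow (by linarith) (by nlinarith) (by linarith [min_le_right κ 1])
    rw [Real.mul_rpow (by linarith) hR0] at h4
    calc C * (2 * R + C₀) ^ (2 - κ) ≤ |C| * (2 * R + C₀) ^ (2 - κ) := by
          gcongr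
          exact le_abs_self C
      _ ≤ |C| * ((2 + C₀) ^ (2 - min κ 1) * R ^ (2 - min κ 1)) := by
          gcongr
          exact h3.trans h4
      _ = _ := by ring
  have e4 : (S.tot : ℝ) * (2 * Real.pi - 0) * (2 * R + C₀) ^ 2 / (2 * (μ univ).toReal) =
      Real.pi * S.tot / (μ univ).toReal * (2 * R + C₀) ^ 2 := by
    field_simp
    ring
  have e5 : Real.pi * S.tot / (μ univ).toReal * (2 * R + C₀) ^ 2 ≤
      Real.pi * S.tot / (μ univ).toReal *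
        (4 * R ^ 2 + (4 * C₀ + C₀ ^ 2) * R ^ (2 - min κ 1)) := by gcongr
  rw [e4] at c6
  have e6 : 0 * (β - α) * R ^ 2 + 4 * Real.pi * S.tot / (μ univ).toReal * R ^ 2 +
      (Real.pi * S.tot / (μ univ).toReal * (4 * C₀ + C₀ ^ 2) + |C| * (2 + C₀) ^ (2 - min κ 1)) *
        R ^ (2 - min κ 1) = Real.pi * S.tot / (μ univ).toReal *
        (4 * R ^ 2 + (4 * C₀ + C₀ ^ 2) * R ^ (2 - min κ 1)) +
        |C| * (2 + C₀) ^ (2 - min κ 1) * R ^ (2 - min κ 1) := by ring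
  rw [e6]
  linarith

end Pool.Agent.MP_16ecd2_an.H18
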