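import Pool.Agent.MP_16ecd2_an.H18.Kit

/-!
Large deviations on the `64`-ary tree.
-/

namespace Pool.Agent.MP_16ecd2_an.H18

open Finset

namespace LdX

theorem sum_mul (f : ℕ → ℝ) (m n : ℕ) :
    ∑ b ∈ range (m * n), f b = ∑ i ∈ range m, ∑ j ∈ range n, f (i * n + j) := by
  induction m with
  | zero => simp
  | succ m ih => rw [Nat.succ_mul, sum_range_add, sum_range_succ, ih]

theorem card_eq (M : ℕ) (p : ℕ → Prop) [DecidablePred p] :
    {b : ℕ | b < M ∧ p b}.ncard = ((range M).filter p).card := by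
  rw [← Set.ncard_coe_finset]
  congr 1
  ext b
  simp

/-- The product of the weights along the last `r` levels above the node `c` of level `i + r`. -/
def P (w : ℕ → ℕ → ℝ) (r i c : ℕ) : ℝ := ∏ s ∈ range r, w (i + s) (c / 64 ^ (r - s))

/-- The sum over the descendants. -/
def Psi (w : ℕ → ℕ → ℝ) (r i a : ℕ) : ℝ := ∑ b ∈ range (64 ^ r), P w r i (a * 64 ^ r + b)

theorem P_add (w : ℕ → ℕ → ℝ) (t r i c : ℕ) :
    P w (t + r) i c = P w t i (c / 64 ^ r) * P w r (i + t) c := by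
  unfold P
  rw [prod_range_add]
  congr 1
  · refine prod_congr rfl fun s hs => ?_
    have := mem_range.1 hs
    rw [Nat.div_div_eq_div_mul, ← pow_add, show t + r - s = r + (t - s) by omega]
  · refine prod_congr rfl fun s _ => ?_
    rw [add_assoc, show t + r - (t + s) = r - s by omega]

theorem Psi_add (w : ℕ → ℕ → ℝ) (t r i a : ℕ) : Psi w (t + r) i a =
    ∑ b ∈ range (64 ^ t), P w t i (a * 64 ^ t + b) * Psi w r (i + t) (a * 64 ^ t + b) := by
  unfold Psi
  rw [pow_add, sum_mul]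
  refine sum_congr rfl fun b _ => ?_
  rw [mul_sum]
  refine sum_congr rfl fun c hc => ?_
  have h : a * (64 ^ t * 64 ^ r) + (b * 64 ^ r + c) = (a * 64 ^ t + b) * 64 ^ r + c := by ring
  rw [P_add, h, add_comm _ c, Nat.add_mul_div_right _ _ (by positivity),
    Nat.div_eq_of_lt (mem_range.1 hc), zero_add]

/-- The potential. -/
def G (e y : ℕ) : ℝ := if y = 0 then 1 else 4 ^ (e + y)

theorem G_pos (e y : ℕ) : 0 < G e y := by
  unfold G
  split_ifs <;> positivity

theorem half (Y : ℕ) : ∑ z ∈ range Y, (1 / 2 : ℝ) ^ (z + 1) = 1 - (1 / 2) ^ Y := by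
  induction Y with
  | zero => simp
  | succ Y ih => rw [sum_range_succ, ih]; ring

theorem sumG {C : ℝ} {e M : ℕ} (hC : C ≤ 2 ^ e) (d : ℕ → ℕ)
    (h : ∀ y, 1 ≤ y → ({b : ℕ | b < M ∧ y ≤ d b}.ncard : ℝ) ≤ C / 8 ^ (e + y) * M) :
    ∑ b ∈ range M, G e (d b) ≤ 2 * M := by
  set Y := (range M).sup d
  have h1 : ∀ b ∈ range M, G e (d b) ≤
      1 + ∑ z ∈ range Y, if z + 1 ≤ d b then (4 : ℝ) ^ (e + (z + 1)) else 0 := by
    intro b hb
    have h0 : ∀ z ∈ range Y, 0 ≤ if z + 1 ≤ d b then (4 : ℝ) ^ (e + (z + 1)) else 0 :=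
      fun z _ => by split_ifs <;> positivity
    unfold G
    split_ifs with hz
    · linarith [sum_nonneg h0]
    · have h2 : d b ≤ Y := le_sup hb
      have h3 := single_le_sum h0 (a := d b - 1) (mem_range.2 (by omega))
      rw [show d b - 1 + 1 = d b by omega, if_pos le_rfl] at h3
      linarith
  refine (sum_le_sum h1).trans ?_
  rw [sum_add_distrib, sum_comm]
  have h2 : ∀ z ∈ range Y, (∑ b ∈ range M,
      if z + 1 ≤ d b then (4 : ℝ) ^ (e + (z + 1)) else 0) ≤ M * (1 / 2) ^ (z + 1) := by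
    intro z _
    have h3 := h (z + 1) (by omega)
    rw [card_eq] at h3
    rw [← sum_filter, sum_const, nsmul_eq_mul]
    calc _ ≤ (2 ^ e / 8 ^ (e + (z + 1)) * M) * (4 : ℝ) ^ (e + (z + 1)) := by
          refine mul_le_mul_of_nonneg_right (h3.trans ?_) (by positivity)
          gcongr
      _ = _ := by
          rw [show (8 : ℝ) = 2 * 4 by norm_num, mul_pow, pow_add 2 e, one_div, inv_pow]
          field_simp
  have h4 := sum_le_sum h2
  rw [← mul_sum, half] at h4
  have h5 : (0 : ℝ) ≤ M * (1 / 2) ^ Y := by positivity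
  simp only [sum_const, card_range, nsmul_eq_mul, mul_one]
  linarith

theorem main {D e : ℕ} {C θ : ℝ} (hD : 1 ≤ D) (he : 4 ≤ e) (hC : C ≤ 2 ^ e) (h1 : 1 ≤ θ)
    (h2 : θ ^ (D * e) = 2) (dep : ℕ → ℕ → ℕ) (w : ℕ → ℕ → ℝ) (w0 : ∀ i a, 0 ≤ w i a)
    (w1 : ∀ i a, w i a ≤ θ ^ 8)
    (H1 : ∀ i a t b, dep i a = 0 → t < D * e → b < 64 ^ t → w (i + t) (a * 64 ^ t + b) = 1)
    (H2 : ∀ i a t y, t = D * (e + dep i a) → 1 ≤ y →
      ({b : ℕ | b < 64 ^ t ∧ y ≤ dep (i + t) (a * 64 ^ t + b)}.ncard : ℝ) ≤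
        C / 8 ^ (e + y) * 64 ^ t) (r : ℕ) :
    ∀ i a, Psi w r i a ≤ (64 * θ) ^ r * G e (dep i a) := by
  have hP : ∀ i a t b, t ≤ D * (e + dep i a) → b < 64 ^ t →
      P w t i (a * 64 ^ t + b) ≤ G e (dep i a) := by
    intro i a t b ht hb
    unfold G P
    split_ifs with hz
    · refine (prod_eq_one fun s hs => ?_).le
      have hs' := mem_range.1 hs
      have e1 : 64 ^ t = 64 ^ s * 64 ^ (t - s) := by rw [← pow_add]; congr 1; omega
      rw [e1, ← mul_assoc, add_comm _ b, Nat.add_mul_div_right _ _ (by positivity), add_comm (_ / _)]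
      refine H1 i a s _ hz (by rw [hz, add_zero] at ht; omega) ?_
      rwa [Nat.div_lt_iff_lt_mul (by positivity), ← e1]
    · have e2 : θ ^ (8 * D) ≤ 4 := by
        calc _ ≤ θ ^ (D * e * 2) := pow_le_pow_right₀ h1 (by nlinarith)
          _ = _ := by rw [pow_mul, h2]; norm_num
      calc _ ≤ ∏ s ∈ range t, θ ^ 8 := prod_le_prod (fun _ _ => w0 _ _) fun _ _ => w1 _ _
        _ = θ ^ (8 * t) := by rw [prod_const, card_range, ← pow_mul]
        _ ≤ (θ ^ (8 * D)) ^ (e + dep i a) := by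
          rw [← pow_mul]
          exact pow_le_pow_right₀ h1 (by nlinarith)
        _ ≤ _ := pow_le_pow_left₀ (by positivity) e2 _
  induction r using Nat.strong_induction_on with
  | _ r ih =>
  intro i a
  have g0 := G_pos e (dep i a)
  by_cases hr : r ≤ D * (e + dep i a)
  · calc _ ≤ ∑ b ∈ range (64 ^ r), G e (dep i a) :=
          sum_le_sum fun b hb => hP i a r b hr (mem_range.1 hb)
      _ = 64 ^ r * G e (dep i a) := by simp
      _ ≤ _ := by gcongr; linarith
  · obtain ⟨t, ht⟩ : ∃ t, t = D * (e + dep i a) := ⟨_, rfl⟩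
    obtain ⟨r', rfl⟩ : ∃ r', r = t + r' := ⟨r - t, by omega⟩
    have t0 : D * e ≤ t := by rw [ht]; exact Nat.mul_le_mul_left _ (by omega)
    have t1 : 0 < D * e := by positivity
    have h3 := sumG (M := 64 ^ t) hC (fun b => dep (i + t) (a * 64 ^ t + b)) fun y hy => by
      simpa using H2 i a t y ht hy
    have h4 : 2 ≤ θ ^ t := h2 ▸ pow_le_pow_right₀ h1 t0
    rw [Psi_add]
    calc _ ≤ ∑ b ∈ range (64 ^ t), G e (dep i a) *
          ((64 * θ) ^ r' * G e (dep (i + t) (a * 64 ^ t + b))) :=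
          sum_le_sum fun b hb => mul_le_mul (hP i a t b ht.le (mem_range.1 hb))
            (ih r' (by omega) _ _) (sum_nonneg fun _ _ => prod_nonneg fun _ _ => w0 _ _) g0.le
      _ ≤ G e (dep i a) * ((64 * θ) ^ r' * (θ ^ t * 64 ^ t)) := by
          rw [← mul_sum, ← mul_sum]
          push_cast at h3
          gcongr
          exact h3.trans (by gcongr)
      _ = _ := by rw [pow_add, mul_pow 64 θ t]; ring

end LdX

open LdX in
theorem ld : RLd := by
  classical
  intro D C hD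
  obtain ⟨n, hn⟩ := pow_unbounded_of_one_lt C (one_lt_two (α := ℝ))
  have hC : C ≤ 2 ^ (n + 4) := hn.le.trans (pow_le_pow_right₀ one_le_two (by omega))
  obtain ⟨θ, h0, h2⟩ : ∃ θ : ℝ, 0 ≤ θ ∧ θ ^ (D * (n + 4)) = 2 :=
    ⟨_, by positivity, Real.rpow_inv_natCast_pow zero_le_two (by positivity)⟩
  have h1 : 1 < θ := (one_lt_pow_iff_of_nonneg h0 (by positivity)).1 (h2 ▸ one_lt_two)
  refine ⟨n + 4, θ⁻¹, by omega, by positivity, inv_lt_one_of_one_lt₀ h1, fun x₀ =>
    ⟨4 ^ (n + 4 + x₀), by positivity, fun dep bad hx H1 H2 N => ?_⟩⟩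
  have h8 : 1 ≤ θ ^ 8 := one_le_pow₀ h1.le
  have h3 := main hD (by omega) hC h1.le h2 dep (fun i a => if bad i a then θ ^ 8 else 1)
    (fun i a => by split_ifs <;> positivity) (fun i a => by split_ifs; exacts [le_rfl, h8])
    (fun i a t b e1 e2 e3 => if_neg (H1 i a t b e1 e2 e3)) H2 N 0 0
  have h4 : G (n + 4) (dep 0 0) ≤ 4 ^ (n + 4 + x₀) := by
    unfold G
    split_ifs
    · exact one_le_pow₀ (by norm_num)
    · exact pow_le_pow_right₀ (by norm_num) (by omega)
  rw [card_eq]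
  have h5 : (((range (64 ^ N)).filter fun a => N ≤ 4 *
      {j : ℕ | j < N ∧ bad j (a / 64 ^ (N - j))}.ncard).card : ℝ) * θ ^ (2 * N) ≤
      Psi (fun i a => if bad i a then θ ^ 8 else 1) N 0 0 := by
    rw [← nsmul_eq_mul, ← sum_const, sum_filter]
    refine sum_le_sum fun a _ => ?_
    simp only [P, zero_mul, zero_add]
    rw [prod_ite, prod_const, prod_const_one, mul_one, ← card_eq, ← pow_mul]
    split_ifs with h
    · exact pow_le_pow_right₀ h1.le (by omega)
    · positivity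
  refine le_of_mul_le_mul_right ((h5.trans h3).trans ?_) (by positivity : 0 < θ ^ (2 * N))
  calc _ ≤ (64 * θ) ^ N * 4 ^ (n + 4 + x₀) := by gcongr
    _ = _ := by rw [mul_pow, inv_pow, two_mul, pow_add θ]; field_simp

end Pool.Agent.MP_16ecd2_an.H18
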