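import Pool.Agent.MP_16ecd2_an.H18.Kit

/-!
The exponential map preserves the area near the origin.
-/

set_option autoImplicit false

namespace Pool.Agent.MP_16ecd2_an.H18

open MeasureTheory Set Filter Topology Metric

theorem locX (h2 : RA2) : RLocX := by
  intro X _ _ _ _ S μ hμ y hy
  have a := h2 X S
  obtain ⟨φ, hφ, hs⟩ := S.cover y hy
  obtain ⟨r, hr, hb⟩ := Metric.isOpen_iff.1 φ.open_target _ (φ.map_source hs)
  have m : ∀ u ∈ ball (0 : ℂ) r, φ y + u ∈ φ.target := fun u hu =>
    hb (by simpa [mem_ball, dist_eq_norm] using hu)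
  have e : ∀ u ∈ ball (0 : ℂ) r, S.exX y u = φ.symm (φ y + u) := fun u hu =>
    a.exq _ _ _ (a.inch φ hφ y hs u fun t ht =>
      m _ ((convex_ball 0 r).smul_mem_of_zero_mem (mem_ball_self hr) hu ht))
  have hc : ContinuousOn (S.exX y) (ball 0 r) :=
    (φ.continuousOn_symm.comp (f := fun u => φ y + u) (by fun_prop) m).congr e
  refine ⟨r, hr, fun u hu v hv h => ?_, fun A hA => ?_, fun B hB hm => ?_⟩
  · rw [e u hu, e v hv] at h
    exact add_left_cancel (φ.symm.injOn (m u hu) (m v hv) h)
  · rw [← Subtype.image_preimage_coe]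
    exact measurableSet_ball.subtype_image
      ((continuousOn_iff_continuous_domRestrict.1 hc).measurable hA)
  · have i1 : S.exX y '' B = φ.source ∩ φ ⁻¹' ((fun w => -φ y + w) ⁻¹' B) := by
      ext z
      constructor
      · rintro ⟨u, hu, rfl⟩
        rw [e u (hB hu)]
        exact ⟨φ.map_target (m u (hB hu)), by simpa [φ.right_inv (m u (hB hu))] using hu⟩
      · rintro ⟨h1, h2⟩
        exact ⟨_, h2, by rw [e _ (hB h2)]; simp [φ.left_inv h1]⟩
    have i2 : φ '' (S.exX y '' B) = (fun w => -φ y + w) ⁻¹' B := by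
      rw [i1]
      refine Subset.antisymm (by rintro _ ⟨z, hz, rfl⟩; exact hz.2) fun w hw => ?_
      have : w ∈ φ.target := by simpa using m _ (hB hw)
      exact ⟨φ.symm w, ⟨φ.map_target this, by simpa [φ.right_inv this] using hw⟩, φ.right_inv this⟩
    have i3 : MeasurableSet (S.exX y '' B) := by
      rw [i1, ← Subtype.image_preimage_coe]
      exact φ.open_source.measurableSet.subtype_image
        ((continuousOn_iff_continuous_domRestrict.1 φ.continuousOn).measurable
          (measurable_const_add (-φ y) hm))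
    exact ⟨i3, by rw [hμ.chart φ hφ _ i3 (i1 ▸ inter_subset_left), i2, measure_preimage_add]⟩

end Pool.Agent.MP_16ecd2_an.H18
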