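import Pool.Agent.MP_16ecd2_an.H18.Kit

/-!
Closed segments through a point inject into the visible singular points.
-/

set_option autoImplicit false

namespace Pool.Agent.MP_16ecd2_an.H18

open MeasureTheory Set Filter Topology Metric

namespace LoopX

def ip (u v : ℂ) : ℝ := u.re * v.re + u.im * v.im

theorem ip_self (v : ℂ) : ip v v = ‖v‖ ^ 2 := by
  rw [← Complex.normSq_eq_norm_sq, Complex.normSq_apply, ip]

theorem abs_det_le (v w : ℂ) : |det v w| ≤ ‖v‖ * ‖w‖ := by
  have : det v w = ((starRingEnd ℂ) v * w).im := by simp [det]; ring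
  rw [this]
  refine (Complex.abs_im_le_norm _).trans ?_
  rw [norm_mul, Complex.norm_conj]

variable {Y : Type} [MeasurableSpace Y] {T : TS Y}

theorem key (hb : Base T) : ∃ C : ℝ, 0 ≤ C ∧ ∀ q v, T.Reg q v → T.ex q v = q → v ≠ 0 →
    ∃ a ∈ T.S q, 0 < det v a ∧ (∀ u, 0 ≤ det v u → det v u < det v a → u ∉ T.S q) ∧
      a + v ∈ T.S q ∧ a - v ∈ T.S q ∧ 0 ≤ ip v a ∧ ip v a ≤ ip a a ∧ ‖a‖ ≤ 2 * ‖v‖ + C := by
  obtain ⟨R, hR, hh⟩ := hb.half
  refine ⟨2 * R, by positivity, fun q v h1 h2 h3 => ?_⟩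
  obtain ⟨a0, -, d0, hf, hj⟩ := hb.strip q v h1 h2 h3
  have nv : 0 < ‖v‖ := norm_pos_iff.2 h3
  have n0 : 0 < ip v v := by rw [ip_self]; positivity
  obtain ⟨j, j1, j2⟩ : ∃ j : ℤ, ip v v ≤ ip v a0 + j * ip v v ∧ ip v a0 + j * ip v v ≤ 2 * ip v v := by
    refine ⟨1 - ⌊ip v a0 / ip v v⌋, ?_, ?_⟩
    · have := Int.floor_le (ip v a0 / ip v v)
      rw [le_div_iff₀ n0] at this
      push_cast
      linarith
    · have := Int.lt_floor_add_one (ip v a0 / ip v v)
      rw [div_lt_iff₀ n0] at this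
      push_cast
      linarith
  have e1 : ip v (a0 + (j : ℝ) • v) = ip v a0 + j * ip v v := by simp [ip]; ring
  have e2 : det v (a0 + (j : ℝ) • v) = det v a0 := by
    rw [det_add_right, det_smul_right, det_self, mul_zero, add_zero]
  rw [← e1] at j1 j2
  rw [← e2] at d0 hf
  have m1 := hj (j + 1)
  have m2 := hj (j - 1)
  have m0 := hj j
  rw [show a0 + ((j + 1 : ℤ) : ℝ) • v = a0 + (j : ℝ) • v + v by push_cast; module] at m1
  rw [show a0 + ((j - 1 : ℤ) : ℝ) • v = a0 + (j : ℝ) • v - v by push_cast; module] at m2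
  generalize a0 + (j : ℝ) • v = a at *
  have e3 : ip a a * ip v v = ip v a ^ 2 + det v a ^ 2 := by simp only [ip, det]; ring
  refine ⟨a, m0, d0, hf, m1, m2, n0.le.trans j1, ?_, ?_⟩
  · refine le_of_mul_le_mul_right ?_ n0
    nlinarith [sq_nonneg (det v a)]
  · have hd : det v a ≤ 2 * R * ‖v‖ := by
      by_contra hn
      have hn := not_le.1 hn
      have hc : Convex ℝ {u : ℂ | 0 ≤ det v u ∧ det v u < det v a} := by
        rintro x ⟨x1, x2⟩ y ⟨y1, y2⟩ s t hs ht hst
        simp only [mem_ofPred_eq, det_add_right, det_smul_right]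
        refine ⟨by positivity, ?_⟩
        rcases hs.eq_or_lt with rfl | hs'
        · rw [zero_add] at hst; subst hst; simpa using y2
        · obtain rfl : t = 1 - s := by linarith
          nlinarith [mul_le_mul_of_nonneg_left y2.le ht, mul_lt_mul_of_pos_left x2 hs']
      refine hh q _ ((1 / 2 : ℝ) • a) hc ⟨by simp [det], by simpa [det] using d0⟩
        (Set.disjoint_left.2 fun u hu => hf u hu.1 hu.2) fun p hp => ?_
      rw [mem_closedBall_iff_norm] at hp
      have b1 := (abs_det_le v (p - (1 / 2 : ℝ) • a)).trans (mul_le_mul_of_nonneg_left hp nv.le)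
      rw [det_sub_right, det_smul_right, abs_le] at b1
      exact ⟨by nlinarith [b1.1], by nlinarith [b1.2]⟩
    rw [ip_self, ip_self] at e3
    rw [ip_self] at j1 j2
    refine le_of_mul_le_mul_right ?_ nv
    refine abs_le_of_sq_le_sq' ?_ (by positivity) |>.2
    have b1 : ip v a ^ 2 ≤ (2 * ‖v‖ ^ 2) ^ 2 := pow_le_pow_left₀ (by nlinarith) j2 2
    have b2 : det v a ^ 2 ≤ (2 * R * ‖v‖) ^ 2 := pow_le_pow_left₀ d0.le hd 2
    have b3 : 0 ≤ ‖v‖ ^ 3 * R := by positivity
    nlinarith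

end LoopX

open LoopX in
theorem loop (hb : RB) : RLoop := by
  intro Y _ T
  obtain ⟨C, hC, hk⟩ := key (hb Y T)
  refine ⟨C, hC, fun q R => ?_⟩
  have hk' : ∀ v, ∃ a, v ∈ T.Loops q R → a ∈ T.S q ∧ 0 < det v a ∧
      (∀ u, 0 ≤ det v u → det v u < det v a → u ∉ T.S q) ∧
      a + v ∈ T.S q ∧ a - v ∈ T.S q ∧ 0 ≤ ip v a ∧ ip v a ≤ ip a a ∧ ‖a‖ ≤ 2 * ‖v‖ + C := by
    intro v
    by_cases h : v ∈ T.Loops q R
    · obtain ⟨a, ha⟩ := hk q v h.2.1 h.2.2.1 h.1
      exact ⟨a, fun _ => ha⟩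
    · exact ⟨0, fun h' => absurd h' h⟩
  choose a ha using hk'
  have hm : ∀ v ∈ T.Loops q R, a v ∈ T.S q ∩ closedBall 0 (2 * R + C) := fun v hv =>
    ⟨(ha v hv).1, mem_closedBall_zero_iff.2
      ((ha v hv).2.2.2.2.2.2.2.trans (by linarith [hv.2.2.2.2]))⟩
  have hbig : ∀ v ∈ T.Loops q R, ∀ v' ∈ T.Loops q R, a v = a v' → det v v' ≠ 0 →
      det v (a v) < |det v v'| := by
    intro v hv v' hv' e hd
    obtain ⟨-, d0, hf, -⟩ := ha v hv
    obtain ⟨-, -, -, m1, m2, -⟩ := ha v' hv'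
    rw [← e] at m1 m2
    by_contra hn
    have hn := abs_le.1 (not_lt.1 hn)
    rcases lt_or_gt_of_ne hd with h | h
    · exact hf _ (by rw [det_add_right]; linarith) (by rw [det_add_right]; linarith) m1
    · exact hf _ (by rw [det_sub_right]; linarith) (by rw [det_sub_right]; linarith) m2
  have hinj : InjOn a (T.Loops q R) := by
    intro v hv v' hv' e
    obtain ⟨-, d0, -, -, -, i0, i1, -⟩ := ha v hv
    obtain ⟨-, d0', -, -, -, i0', i1', -⟩ := ha v' hv'
    rw [← e] at d0' i0' i1'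
    by_cases hd : det v v' = 0
    · obtain ⟨k, rfl⟩ := par_of_det hv.1 hd
      rw [det_smul_left] at d0'
      have k0 : 0 < k := (mul_pos_iff_of_pos_right d0).1 d0'
      rcases lt_trichotomy k 1 with h | h | h
      · exact absurd hv'.2.2.1 (hv.2.2.2.1 k ⟨k0, h⟩)
      · rw [h, one_smul]
      · refine absurd ?_ (hv'.2.2.2.1 k⁻¹ ⟨inv_pos.2 k0, inv_lt_one_of_one_lt₀ h⟩)
        rw [smul_smul, inv_mul_cancel₀ k0.ne', one_smul]
        exact hv.2.2.1
    · exfalso
      have b1 := hbig v hv v' hv' e hd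
      have b2 := hbig v' hv' v hv e.symm (by rw [det_comm]; exact neg_ne_zero.2 hd)
      rw [← e, det_comm v' v, abs_neg] at b2
      generalize a v = z at *
      have e1 : det v v' * ip z z = ip v' z * det v z - ip v z * det v' z := by
        simp only [ip, det]; ring
      have z0 : 0 < ip z z := by
        rw [ip_self]
        exact pow_pos (norm_pos_iff.2 fun h => by simp [h, det] at d0) 2
      have p1 := mul_le_mul_of_nonneg_right i1' d0.le
      have p2 := mul_le_mul_of_nonneg_right i1 d0'.le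
      have p3 := mul_nonneg i0' d0.le
      have p4 := mul_nonneg i0 d0'.le
      have p5 := mul_lt_mul_of_pos_right b1 z0
      have p6 := mul_lt_mul_of_pos_right b2 z0
      rcases abs_cases (det v v') with ⟨h, -⟩ | ⟨h, -⟩ <;> rw [h] at p5 p6 <;> linarith
  exact ⟨Finite.of_injOn hm hinj (T.fin q _), ncard_le_ncard_of_injOn a hm hinj (T.fin q _)⟩

end Pool.Agent.MP_16ecd2_an.H18
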