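import Pool.Agent.MP_16ecd2_an.H18.Kit

/-!
The quadratic bound on the surface, and generic points lie on no saddle connection.
-/

set_option autoImplicit false

namespace Pool.Agent.MP_16ecd2_an.H18

open MeasureTheory Set Filter Topology Metric

namespace MXX

theorem fin_of {α : Type} {W : Set α} {n : ℝ}
    (h : ∀ Γ : Finset α, (Γ : Set α) ⊆ W → (Γ.card : ℝ) ≤ n) : W.Finite ∧ (W.ncard : ℝ) ≤ n := by
  have hf : W.Finite := by
    by_contra hi
    obtain ⟨k, hk⟩ := exists_nat_gt n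
    obtain ⟨Γ, h1, h2⟩ := Set.Infinite.exists_subset_card_eq hi k
    have := h Γ h1
    rw [h2] at this
    linarith
  refine ⟨hf, ?_⟩
  rw [ncard_eq_toFinset_card W hf]
  exact h _ hf.coe_toFinset.subset

theorem sect_le {α β R : ℝ} {v : ℂ} (h : v ∈ Sect α β R) : ‖v‖ ≤ R := by
  obtain ⟨r, hr, θ, -, rfl⟩ := h
  rw [norm_mul, Complex.norm_exp_ofReal_mul_I, mul_one, Complex.norm_real,
    Real.norm_of_nonneg hr.1.le]
  exact hr.2

variable {X : Type} [TopologicalSpace X] [MeasurableSpace X] {S : TSurf X} {μ : Measure X}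
  {T : TS {x // x ∉ S.Sig}}

theorem exists_map (h2 : A2 S) (hr : Br S) (hM : IsModel S μ T) :
    ∃ f : C(unitInterval, X) × ℂ → {x // x ∉ S.Sig} × ℂ, InjOn f (S.Conn S.Sig) ∧
      ∀ c ∈ S.Conn S.Sig, f c ∈ T.SC ∧ (f c).2 = (1 / 2 : ℝ) • c.2 ∧
        ∀ t : unitInterval, 0 < t → t < 1 → ∃ y ∈ T.pts (f c), y.1 = c.1 t := by
  classical
  let m : unitInterval := ⟨1 / 2, by norm_num, by norm_num⟩
  obtain ⟨y₀⟩ := T.ne
  let f : C(unitInterval, X) × ℂ → {x // x ∉ S.Sig} × ℂ := fun c =>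
    (if h : c.1 m ∉ S.Sig then ⟨c.1 m, h⟩ else y₀, (1 / 2 : ℝ) • c.2)
  have e : ∀ c ∈ S.Conn S.Sig, (f c).1.1 = c.1 m := fun c hc => by
    have := (h2.vis_nsig _ _ _ (hr.mid c hc m rfl).1).1
    simp only [f, dif_pos this]
  refine ⟨f, fun c hc c' hc' h => ?_, fun c hc => ?_⟩
  · have e1 : c.1 m = c'.1 m := by rw [← e c hc, ← e c' hc', h]
    have e2 : c.2 = c'.2 := smul_right_injective ℂ (by norm_num : (1 / 2 : ℝ) ≠ 0)
      (congrArg Prod.snd h)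
    obtain ⟨a1, a2, a3⟩ := hr.mid c hc m rfl
    obtain ⟨b1, b2, b3⟩ := hr.mid c' hc' m rfl
    rw [← e1, ← e2] at b1 b2 b3
    refine Prod.ext (ContinuousMap.ext fun t => ?_) e2
    rcases (unitInterval.nonneg' (t := t)).eq_or_lt with rfl | h0
    · exact h2.vis_uniq _ _ _ _ a2 b2
    rcases (unitInterval.le_one' (t := t)).eq_or_lt with rfl | h1
    · exact h2.vis_uniq _ _ _ _ a1 b1
    exact (h2.exq _ _ _ (a3 t h0 h1)).symm.trans (h2.exq _ _ _ (b3 t h0 h1))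
  · obtain ⟨a1, a2, a3⟩ := hr.mid c hc m rfl
    rw [← e c hc] at a1 a2 a3
    refine ⟨⟨(hM.vis _ _).2 ⟨_, a1⟩, (hM.vis _ _).2 ⟨_, a2⟩⟩, rfl, fun t h0 h1 =>
      ⟨_, ⟨2 * t - 1, ?_, rfl⟩, ?_⟩⟩
    · have h0' : (0 : ℝ) < t := h0
      have h1' : (t : ℝ) < 1 := h1
      rw [abs_lt]
      constructor <;> linarith
    · rw [hM.ex, ← h2.exq _ _ _ (a3 t h0 h1)]
      congr 1
      show (2 * (t : ℝ) - 1) • (1 / 2 : ℝ) • c.2 = _
      rw [smul_smul]
      congr 1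
      ring

end MXX

open MXX in
theorem mx (hb : RB) (h2 : RA2) (ha : RAtl) (hr : RBr) (hm : RMas) (hn : RNull) : RMX := by
  classical
  intro X _ _ _ _ _ _ S μ hμ
  have _ := hb
  obtain ⟨T, hM⟩ := ha X S μ hμ
  obtain ⟨f, hf, hc⟩ := exists_map (h2 X S) (hr X S) hM
  obtain ⟨A, β, hA, -, hβ, hB⟩ := hm _ T
  obtain ⟨δ, hδ, hs⟩ := T.sys
  have s0 : 0 < min 1 δ := lt_min one_pos hδ
  have key : ∀ R : ℝ, 1 ≤ R → {c ∈ S.Conn S.Sig | ‖c.2‖ ≤ R}.Finite ∧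
      (({c ∈ S.Conn S.Sig | ‖c.2‖ ≤ R}.ncard : ℕ) : ℝ) ≤ (A + A / min 1 δ ^ 2) * R ^ 2 := by
    intro R hR
    refine fin_of fun Γ hΓ => ?_
    have h1 := hB _ sl_id _ s0 (min_le_left _ _)
      (fun c h => (min_le_right _ _).trans (hs _ _ h.1 h.2)) R (by linarith) (Γ.image f) (by
        intro y hy
        obtain ⟨c, h3, rfl⟩ := Finset.mem_image.1 hy
        obtain ⟨h4, h5⟩ := hΓ h3
        refine ⟨(hc c h4).1, fun _ h => h.elim, ?_⟩
        rw [ng_apply, LinearMap.id_apply, (hc c h4).2.1, norm_smul,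
          Real.norm_of_nonneg (by norm_num)]
        linarith)
    rw [Finset.card_image_of_injOn (hf.mono fun c h => (hΓ h).1)] at h1
    have h3 : (R / min 1 δ) ^ β ≤ (R / min 1 δ) ^ (2 : ℝ) :=
      Real.rpow_le_rpow_of_exponent_le ((one_le_div s0).2 ((min_le_left _ _).trans hR)) hβ.le
    rw [Real.rpow_two, div_pow] at h3
    calc (Γ.card : ℝ) ≤ A * R ^ 2 + A * (R ^ 2 / min 1 δ ^ 2) :=
          h1.trans (add_le_add_right (mul_le_mul_of_nonneg_left h3 hA) _)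
      _ = _ := by ring
  have hF : Fin' (S.Conn S.Sig) := fun R =>
    (key (max R 1) (le_max_right _ _)).1.subset fun c h => ⟨h.1, h.2.trans (le_max_left _ _)⟩
  refine ⟨hF, ⟨A + A / min 1 δ ^ 2, by positivity, 1, one_pos, 0, fun R α β' hR _ _ => ?_⟩, ?_⟩
  · simp only [zero_mul, sub_zero, zero_add, add_zero]
    refine ⟨Nat.cast_nonneg _, le_trans (Nat.cast_le.2 ?_) (key R hR).2⟩
    exact ncard_le_ncard (fun c h => ⟨h.1, sect_le h.2⟩) (key R hR).1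
  · have hC : (S.Conn S.Sig).Countable :=
      (countable_iUnion fun n : ℕ => (hF n).countable).mono fun c h => by
        obtain ⟨n, hn⟩ := exists_nat_ge ‖c.2‖
        exact mem_iUnion.2 ⟨n, h, hn⟩
    refine hM.ae _ ?_
    filter_upwards [(ae_ball_iff hC).2 fun c h =>
      measure_eq_zero_iff_ae_notMem.1 ((hn _ T).2 _ (hc c h).1)] with y hy
    refine ⟨y.2, fun c h t e => ?_⟩
    rcases (unitInterval.nonneg' (t := t)).eq_or_lt with rfl | h0
    · exact y.2 (e ▸ h.2.2.1)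
    rcases (unitInterval.le_one' (t := t)).eq_or_lt with rfl | h1
    · exact y.2 (e ▸ h.2.2.2.1)
    obtain ⟨y', k1, k2⟩ := (hc c h).2.2 t h0 h1
    exact hy c h (Subtype.ext (k2.trans e) ▸ k1)

end Pool.Agent.MP_16ecd2_an.H18
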