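import Pool.Agent.MP_16ecd2_an.H18.Kit

/-!
Adding a marked point to a translation surface.
-/

set_option autoImplicit false

namespace Pool.Agent.MP_16ecd2_an.H18

open MeasureTheory Set Filter Topology

theorem mark : RMark := by
  classical
  intro X _ _ _ _ S μ q hμ hq
  obtain ⟨φ₀, h0, hq0⟩ := S.cover q hq
  refine ⟨⟨insert q S.Sig, Finset.insert_nonempty _ _,
    (fun φ => φ.restrOpen {q}ᶜ isOpen_compl_singleton) '' S.atlas, fun x hx => ?_, ?_, ?_,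
    Function.update S.ord q 1, fun σ hσ => ?_⟩, Finset.coe_insert _ _, ?_, ⟨hμ.fin, ?_, ?_⟩,
    fun γ v => ⟨fun h => ⟨fun t a b => ?_, fun t a b => ?_⟩, fun h t a b => ?_⟩⟩
  · rw [Finset.mem_insert, not_or] at hx
    obtain ⟨φ, a, b⟩ := S.cover x hx.2
    exact ⟨_, ⟨φ, a, rfl⟩, b, hx.1⟩
  · rintro _ ⟨φ, a, rfl⟩ x ⟨b, c⟩ hx
    exact (Finset.mem_insert.1 hx).elim c (S.avoid φ a x b)
  · rintro _ ⟨φ, a, rfl⟩ _ ⟨ψ, b, rfl⟩ x c d
    exact S.trans φ a ψ b x c.1 d.1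
  · rcases Finset.mem_insert.1 hσ with rfl | hσ
    · rw [Function.update_self]
      refine ⟨one_pos, φ₀.transHomeomorph (Homeomorph.subRight (φ₀ σ)), hq0, sub_self _, ?_⟩
      rintro _ ⟨φ, a, rfl⟩ x b c
      filter_upwards [S.trans φ₀ h0 φ a x c b.1] with y hy
      rw [pow_one, pow_one]
      exact hy.trans (sub_sub_sub_cancel_right _ _ _).symm
    · rw [Function.update_of_ne fun e : σ = q => hq (e ▸ hσ)]
      obtain ⟨a, χ, b, c, d⟩ := S.cone σ hσ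
      refine ⟨a, χ, b, c, ?_⟩
      rintro _ ⟨φ, e, rfl⟩ x f g
      exact d φ e x f.1 g
  · simp only [TSurf.tot]
    rw [Finset.sum_insert hq, Function.update_self, add_comm, Finset.sum_congr rfl fun σ hσ =>
      Function.update_of_ne (fun e : σ = q => hq (e ▸ hσ)) _ _]
  · rw [Finset.coe_insert, insert_eq]
    refine measure_union_null ?_ hμ.sig
    rw [hμ.chart φ₀ h0 _ (measurableSet_singleton q) (singleton_subset_iff.2 hq0), image_singleton,
      measure_singleton]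
  · rintro _ ⟨φ, a, rfl⟩ A b c
    exact hμ.chart φ a A b (c.trans inter_subset_left)
  · obtain ⟨_, ⟨φ, c, rfl⟩, d, e⟩ := h t a b
    exact ⟨φ, c, d.1, e⟩
  · obtain ⟨_, ⟨φ, -, rfl⟩, d, -⟩ := h t a b
    exact d.2
  · obtain ⟨φ, c, d, e⟩ := h.1 t a b
    exact ⟨_, ⟨φ, c, rfl⟩, ⟨d, h.2 t a b⟩, e⟩

end Pool.Agent.MP_16ecd2_an.H18
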