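import Pool.Agent.MP_16ecd2_an.H18.Kit

/-!
The first moment of the weighted number of visible marked points.
-/

set_option autoImplicit false

namespace Pool.Agent.MP_16ecd2_an.H18

open MeasureTheory Set Filter Topology Metric
open scoped ENNReal

namespace MomX

theorem rho_meas : Measurable rho :=
  (measurable_const.div Complex.measurable_im).ennreal_ofReal

theorem dir_mem {G : Set ℝ} {y₁ y₂ s t : ℝ} (h : 0 < y₁) (hs : s ∈ G) (ht : t ∈ Ico y₁ y₂) :
    t • dir s ∈ Cone G y₁ y₂ := by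
  have h0 : t ≠ 0 := (h.trans_le ht.1).ne'
  have e1 : (t • dir s).im = t := by simp [dir]
  have e2 : (t • dir s).re = t * s := by simp [dir]
  rw [Cone, mem_ofPred_eq, e1, e2, mul_div_cancel_left₀ _ h0]
  exact ⟨ht, hs⟩

variable {Y : Type} [MeasurableSpace Y] {T : TS Y} {S' : Y → Set ℂ} {k : ℕ} {Ω : Fin k → Set ℂ}
  {Φ : Fin k → ℂ → Y}

theorem pt (h : Fam T S' k Ω Φ) {D : Set ℂ} (hD : ∀ v ∈ D, 0 < v.im) (q : Y) :
    ws (nS S' q) D = ∑ i, wt (Φ i) (D ∩ Ω i) rho q := by
  rw [ws]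
  simp only [wt]
  rw [← Summable.tsum_finsetSum fun _ _ => ENNReal.summable]
  refine tsum_congr fun v => ?_
  by_cases hv : v ∈ D ∩ nS S' q
  · obtain ⟨i, h1, h2⟩ := h.sur q v (hD v hv.1) hv.2
    rw [indicator_of_mem hv, Finset.sum_eq_single i (fun j _ hj => indicator_of_notMem
      (fun hh => hj (h.inj j i v hh.1.2 h1 (hh.2.trans h2.symm))) _) (by simp),
      indicator_of_mem (show v ∈ D ∩ Ω i ∩ Φ i ⁻¹' {q} from ⟨⟨hv.1, h1⟩, h2⟩)]
  · rw [indicator_of_notMem hv]
    refine (Finset.sum_eq_zero fun i _ => indicator_of_notMem (fun hh => hv ⟨hh.1.1, ?_⟩) _).symm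
    have h1 := h.vis i v hh.1.2
    rwa [show Φ i v = q from hh.2] at h1

end MomX

theorem mom (ha : RAF) (hp : RPol) : RMom := by
  intro Y _ T S' k Ω Φ h G y₁ y₂ hG hy
  obtain ⟨hD, hF⟩ := hp G y₁ y₂ hG hy
  have h1 := MomX.pt h (D := Cone G y₁ y₂) fun v hv => hy.trans_le hv.1.1
  have hA := fun i => ha Y T _ (Φ i) ((h.dev i).mono inter_subset_right) (hD.inter (h.meas i))
  have hm := fun i => (hA i).1 rho MomX.rho_meas
  have hI : ∀ f : Y → ℝ≥0∞, Measurable f → ∫⁻ q, f q * ws (nS S' q) (Cone G y₁ y₂) ∂T.μ =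
      ∑ i, ∫⁻ v in Cone G y₁ y₂ ∩ Ω i, f (Φ i v) * rho v := fun f hf => by
    simp only [h1, Finset.mul_sum]
    rw [lintegral_finsetSum _ fun i _ => hf.fun_mul (hm i)]
    exact Finset.sum_congr rfl fun i _ => (hA i).2.2.1 rho f MomX.rho_meas hf
  have hI1 := hI (fun _ => 1) measurable_const
  have hF1 := hF (fun _ => 1) measurable_const
  simp only [one_mul] at hI1 hF1
  rw [setLIntegral_one, setLIntegral_const, Real.volume_Ico, mul_comm] at hF1
  refine ⟨h1, ?_, ?_, fun hs => ⟨?_, fun f hf => ?_⟩⟩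
  · simp only [h1]
    exact Finset.measurable_sum _ fun i _ => hm i
  · rw [hI1, mul_assoc, ← hF1]
    refine (Finset.sum_le_sum fun i _ => lintegral_mono_set inter_subset_left).trans ?_
    simp
  · rw [hI1, mul_assoc, ← hF1]
    simp [fun i => inter_eq_left.2 (hs i)]
  · rw [hI f hf]
    refine Finset.sum_congr rfl fun i _ => ?_
    have h2 := (hA i).2.1 f hf
    rw [inter_eq_left.2 (hs i)] at h2 ⊢
    rw [← setLIntegral_congr_fun hD (f := fun v =>
      (Cone G y₁ y₂).indicator (fun v => f (Φ i v)) v * rho v) fun v hv => by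
        simp only [indicator_of_mem hv], hF _ h2]
    exact setLIntegral_congr_fun hG fun s hs => setLIntegral_congr_fun measurableSet_Ico
      fun t ht => indicator_of_mem (MomX.dir_mem hy hs ht) _

end Pool.Agent.MP_16ecd2_an.H18
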