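import Pool.Agent.MP_16ecd2_an.H18.Kit

/-!
Row Nd: few slopes in a short interval are thin at the next scale.
-/

set_option autoImplicit false

namespace Pool.Agent.MP_16ecd2_an.H18

open MeasureTheory Set Filter Topology Metric

namespace NdX

theorem pow_bd {β ρ L : ℝ} {D : ℕ} (hβ2 : β < 2) (hD : 2 ≤ D * (2 - β)) (hρ : 0 < ρ)
    (hρ1 : ρ ≤ 1) (hL : 0 < L) (h : 1 ≤ ρ ^ D * L) : (L / ρ) ^ β ≤ L ^ 2 := by
  have h1 := Real.log_nonneg h
  rw [Real.log_mul (by positivity) hL.ne', Real.log_pow] at h1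
  have h2 := Real.log_nonpos hρ.le hρ1
  rw [← Real.log_le_log_iff (by positivity) (by positivity), Real.log_rpow (by positivity),
    Real.log_div hL.ne' hρ.ne', Real.log_pow]
  have h3 := mul_nonneg (sub_pos.2 hβ2).le h1
  have h4 := mul_nonneg (sub_nonneg.2 hD) (neg_nonneg.2 h2)
  have h5 := mul_nonneg (sub_pos.2 hβ2).le (neg_nonneg.2 h2)
  push_cast
  nlinarith

variable {Y : Type} [MeasurableSpace Y] {T : TS Y}

theorem sys {s M ρ : ℝ} (hM : 0 < M) (h : T.Thick s M ρ) : T.Sys (ds M s) (ρ / 2) := by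
  intro c hc
  have h1 := h _ ⟨c, hc, rfl⟩
  have h2 := Complex.abs_re_le_norm (ds M s c.2)
  have h3 := Complex.abs_im_le_norm (ds M s c.2)
  rw [ds_re, abs_mul, abs_of_pos hM] at h2
  rw [ds_im, abs_div, abs_of_pos hM] at h3
  have e : (2 : ℝ) * c.2.re - s * (2 * c.2.im) = 2 * (c.2.re - s * c.2.im) := by ring
  simp only [Complex.smul_re, Complex.smul_im, smul_eq_mul, e, abs_mul, abs_two] at h1
  rw [mul_div_assoc] at h1
  rcases le_max_iff.1 h1 with h4 | h4 <;> linarith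

theorem thin {s M L a ε : ℝ} (hM : 0 < M) (hL : 0 < L)
    (h : ¬ T.Thick (s + a / (M ^ 2 * L ^ 2)) (M * L) ε) :
    ∃ c ∈ T.SC, |(ds M s c.2).im| ≤ ε * L / 2 ∧
      |(ds M s c.2).re - a * (1 / L ^ 2) * (ds M s c.2).im| ≤ ε * L / 2 * (1 / L ^ 2) := by
  unfold TS.Thick at h
  push Not at h
  obtain ⟨_, ⟨c, hc, rfl⟩, h⟩ := h
  have e : (2 : ℝ) * c.2.re - (s + a / (M ^ 2 * L ^ 2)) * (2 * c.2.im) =
      2 * (c.2.re - (s + a / (M ^ 2 * L ^ 2)) * c.2.im) := by ring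
  simp only [Complex.smul_re, Complex.smul_im, smul_eq_mul, e, abs_mul, abs_two, max_lt_iff] at h
  obtain ⟨h1, h2⟩ := h
  refine ⟨c, hc, ?_, ?_⟩
  · rw [ds_im, abs_div, abs_of_pos hM, div_le_iff₀ hM]
    rw [div_lt_iff₀ (by positivity)] at h2
    linarith
  · have e2 : (ds M s c.2).re - a * (1 / L ^ 2) * (ds M s c.2).im =
        M * (c.2.re - (s + a / (M ^ 2 * L ^ 2)) * c.2.im) := by
      rw [ds_re, ds_im]; field_simp; ring
    have e3 : ε * L / 2 * (1 / L ^ 2) = ε / (2 * L) := by field_simp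
    rw [e2, e3, abs_mul, abs_of_pos hM, le_div_iff₀ (by positivity)]
    linarith

end NdX

theorem nd (hg : RGc) (hm : RMas) : RNd := by
  classical
  intro Y _ T
  obtain ⟨A, β, hA, hβ, hβ2, hb⟩ := hm Y T
  obtain ⟨C, hC, hc⟩ := hg 2 β one_lt_two hβ
  obtain ⟨D, hD⟩ := exists_nat_ge (2 / (2 - β))
  rw [div_le_iff₀ (sub_pos.2 hβ2)] at hD
  have hD1 : 1 ≤ D := by
    rcases Nat.eq_zero_or_pos D with rfl | h
    · norm_num at hD
    · exact h
  refine ⟨C * (2 * A) + 1, D, by positivity, hD1, fun i t s₀ ρ ε hρ hρ1 hT hL hε hε1 => ?_⟩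
  have e64 : ∀ n : ℕ, (64 : ℝ) ^ n = (8 ^ n) ^ 2 := fun n => by
    rw [← pow_mul, mul_comm, pow_mul]; norm_num
  set M : ℝ := 8 ^ i with hM
  set L : ℝ := 8 ^ t with hL'
  have hM0 : 0 < M := by positivity
  have hL1 : 1 ≤ L := one_le_pow₀ (by norm_num)
  have hL0 : 0 < L := by positivity
  have hsl := sl_ds hM0.ne' s₀
  set Z := {a : ℕ | a < 64 ^ t ∧ ¬ T.Thick (s₀ + a / 64 ^ (i + t)) (8 ^ (i + t)) ε} with hZ
  have hfin : Z.Finite := (finite_lt_nat (64 ^ t)).subset fun a ha => ha.1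
  have h1 := hc Y T (ds M s₀) A (A / (ρ / 2) ^ β) (ε * L / 2) (1 / L ^ 2)
    (hfin.toFinset.image ((↑) : ℕ → ℤ)) hsl hA (by positivity) (by positivity) (by positivity)
    ((div_le_one (by positivity)).2 (one_le_pow₀ hL1))
    (fun y hy _ => by
      have := hb _ hsl (ρ / 2) (half_pos hρ) (by linarith) (NdX.sys hM0 hT) y hy
      rwa [Real.div_rpow hy.le (half_pos hρ).le, ← Real.rpow_two, mul_div_left_comm, mul_comm
        (y ^ β)] at this)
    (fun a ha => by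
      obtain ⟨n, hn, rfl⟩ := Finset.mem_image.1 ha
      obtain ⟨h2, h3⟩ := hfin.mem_toFinset.1 hn
      rw [Int.cast_natCast]
      refine ⟨?_, NdX.thin hM0 hL0 ?_⟩
      · have h4 : (n : ℝ) ≤ L ^ 2 := by rw [← e64]; exact_mod_cast h2.le
        rw [abs_of_nonneg (by positivity), mul_one_div, div_le_iff₀ (by positivity)]
        linarith [sq_nonneg L]
      · rwa [pow_add, pow_add, e64, e64] at h3)
  rw [Finset.card_image_of_injective _ Nat.cast_injective, ← ncard_eq_toFinset_card Z hfin] at h1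
  have h2 : (ε * L / 2) ^ (2 : ℝ) ≤ ε * L ^ 2 := by
    rw [Real.rpow_two]
    nlinarith [mul_nonneg (mul_nonneg hε.le (sub_nonneg.2 hε1)) (sq_nonneg L),
      mul_nonneg hε.le (sq_nonneg L)]
  have h3 : A / (ρ / 2) ^ β * (ε * L / 2) ^ β ≤ A * (ε * L ^ 2) := by
    have e : ε * L / 2 / (ρ / 2) = ε * (L / ρ) := by field_simp
    rw [div_mul_eq_mul_div, mul_div_assoc, ← Real.div_rpow (by positivity) (by positivity), e,
      Real.mul_rpow hε.le (by positivity)]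
    refine mul_le_mul_of_nonneg_left (mul_le_mul ?_ (NdX.pow_bd hβ2 hD hρ hρ1 hL0 hL)
      (by positivity) hε.le) hA
    simpa using Real.rpow_le_rpow_of_exponent_ge hε hε1 hβ.le
  have h4 := mul_le_mul_of_nonneg_left h2 hA
  have h5 := mul_le_mul_of_nonneg_left (add_le_add h4 h3) hC.le
  rw [e64]
  have h6 : 0 ≤ ε * L ^ 2 := by positivity
  linarith

end Pool.Agent.MP_16ecd2_an.H18
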