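import Pool.Agent.MP_16ecd2_an.H18.Kit

/-!
One more saddle connection avoided by all short saddle connections.
-/

set_option autoImplicit false

namespace Pool.Agent.MP_16ecd2_an.H18

open MeasureTheory Set Filter Topology Metric
open scoped ENNReal

namespace NewX

variable {Y : Type} [MeasurableSpace Y] {T : TS Y}

/-- The data given by the two structure statements. -/
structure Fam (T : TS Y) (N : Seminorm ℝ ℂ) (B : Set (Y × ℂ)) (r a : ℝ) (M : ℕ)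
    (𝒯 : Finset (Y × Set ℂ)) : Prop where
  card : 𝒯.card ≤ M
  pc : ∀ p ∈ 𝒯, Convex ℝ p.2 ∧ 0 ∈ p.2 ∧ Disjoint p.2 (T.S p.1) ∧ MeasurableSet p.2 ∧
    ∀ u ∈ p.2, N u ≤ 2 * a
  ne : (T.cov 𝒯).Nonempty
  prop : ∀ z ∈ T.cov 𝒯, ∀ u, T.Reg z u →
    (∀ t ∈ Icc (0 : ℝ) 1, ∀ b ∈ B, N b.2 ≤ a → T.ex z (t • u) ∉ T.pts b) → T.ex z u ∈ T.cov 𝒯
  last : ∀ b ∈ B, b.1 ∈ T.cov 𝒯 → N b.2 ≤ 2 * a
  meet : ∀ γ ∈ T.Gam N B r, (T.pts γ ∩ T.cov 𝒯).Nonempty

theorem fam (hB : Base T) (h1 : RST1) (h2 : RST2) : ∃ (K : ℝ) (M : ℕ), 1 ≤ K ∧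
    ∀ (N : Seminorm ℝ ℂ) (B : Set (Y × ℂ)) (r : ℝ), B.Finite → T.PW B → 0 ≤ r →
      T.Out N B r ∨ ∃ 𝒯, Fam T N B r (K * r) M 𝒯 := by
  obtain ⟨K, M, hK, h⟩ := h1 Y T
  refine ⟨K, 2 * M, hK, fun N B r b1 b2 hr => (h N B r b1 b2 hr).imp_right ?_⟩
  rintro ⟨E, ⟨e, he⟩, e2, e3, e4, e5, e6, e7⟩
  obtain ⟨𝒯, t1, t2, t3, t4, t5⟩ := h2 Y T N B E (K * r) e3 e4 e5 e6
  refine ⟨𝒯, by omega, t2, ⟨e.1, t3 e he (hB.mid_mem e)⟩, t4, t5, fun γ hγ => ?_⟩
  obtain ⟨f, hf, hd⟩ := e7 γ hγ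
  obtain ⟨z, z1, z2⟩ := not_disjoint_iff.1 hd
  exact ⟨z, z1, t3 f hf z2⟩

variable {N : Seminorm ℝ ℂ} {B : Set (Y × ℂ)} {r a : ℝ} {M : ℕ} {𝒯 : Finset (Y × Set ℂ)}

theorem Fam.all (F : Fam T N B r a M 𝒯) (h : ∀ b ∈ B, a < N b.2) (y : Y) : y ∈ T.cov 𝒯 := by
  obtain ⟨x, hx⟩ := F.ne
  induction T.conn x y with
  | refl => exact hx
  | tail _ hs ih =>
    obtain ⟨u, hu, rfl⟩ := hs
    exact F.prop _ ih u hu fun _ _ b hb hn => absurd hn (h b hb).not_ge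

theorem Fam.along (F : Fam T N B r a M 𝒯) (hB : Base T) {c : Y × ℂ} (hc : c ∈ T.SC)
    (hd : ∀ b ∈ B, T.Dis c b) (h : (T.pts c ∩ T.cov 𝒯).Nonempty) : T.pts c ⊆ T.cov 𝒯 := by
  obtain ⟨_, ⟨s, hs, rfl⟩, hz⟩ := h
  rintro _ ⟨t, ht, rfl⟩
  obtain ⟨l1, l2⟩ := hB.sc_line c hc s t hs ht
  rw [← l2]
  refine F.prop _ hz _ l1 fun τ hτ b hb _ => disjoint_left.1 (hd b hb) ?_
  have hq : |s + τ * (t - s)| < 1 := by
    have := abs_lt.1 hs
    have := abs_lt.1 ht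
    rcases le_total s t with h | h <;> rw [abs_lt] <;> constructor <;> nlinarith [hτ.1, hτ.2]
  refine ⟨s + τ * (t - s), hq, ?_⟩
  rw [← (hB.sc_line c hc s _ hs hq).2, smul_smul]
  congr 2
  ring

theorem Fam.area {g : ℂ →ₗ[ℝ] ℂ} (F : Fam T (ng g) B r a M 𝒯) (hB : Base T) (ha : RAF)
    (hg : SL g) (h0 : 0 ≤ a) (h : ∀ y, y ∈ T.cov 𝒯) : T.area ≤ M * (16 * a ^ 2) := by
  have hv : volume (g ⁻¹' closedBall (0 : ℂ) (2 * a)) ≤ ENNReal.ofReal (16 * a ^ 2) := by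
    rw [Measure.addHaar_preimage_linearMap _ (by rw [hg]; exact one_ne_zero), hg,
      Complex.volume_closedBall]
    have e : (NNReal.pi : ℝ≥0∞) = ENNReal.ofReal Real.pi := by
      rw [← NNReal.coe_real_pi, ENNReal.ofReal_coe_nnreal]
    rw [inv_one, abs_one, ENNReal.ofReal_one, one_mul, e, ← ENNReal.ofReal_pow (by positivity),
      ← ENNReal.ofReal_mul (by positivity)]
    refine ENNReal.ofReal_le_ofReal ?_
    nlinarith [Real.pi_le_four, sq_nonneg a]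
  have hu : (univ : Set Y) ⊆ ⋃ p ∈ 𝒯, T.ex p.1 '' p.2 := fun y _ => by
    obtain ⟨p, hp, u, hu, e⟩ := h y
    exact mem_biUnion hp ⟨u, hu, e.symm⟩
  have hm : T.μ univ ≤ M • ENNReal.ofReal (16 * a ^ 2) := by
    refine (measure_mono hu).trans ((measure_biUnion_finset_le _ _).trans ?_)
    refine (Finset.sum_le_card_nsmul _ _ (ENNReal.ofReal (16 * a ^ 2)) fun p hp => ?_).trans
      (nsmul_le_nsmul_left (zero_le) F.card)
    obtain ⟨p1, p2, p3, p4, p5⟩ := F.pc p hp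
    refine (ha Y T _ _ (hB.dev _ _ p1 p2 p3) p4).2.2.2.2.1.trans ((measure_mono ?_).trans hv)
    exact fun u hu => mem_closedBall_zero_iff.2 (p5 u hu)
  refine ENNReal.toReal_le_of_le_ofReal (by positivity) (hm.trans_eq ?_)
  rw [nsmul_eq_mul, ENNReal.ofReal_mul (Nat.cast_nonneg M), ENNReal.ofReal_natCast]

theorem bin {x y h s : ℝ} (hs : 0 < s) (hx : |x| ≤ h) (hy : |y| ≤ h)
    (e : ⌊(x + h) * 8 / s⌋₊ = ⌊(y + h) * 8 / s⌋₊) : |y - x| ≤ s / 8 := by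
  have x0 : 0 ≤ (x + h) * 8 / s := by have := (abs_le.1 hx).1; exact div_nonneg (by linarith) hs.le
  have y0 : 0 ≤ (y + h) * 8 / s := by have := (abs_le.1 hy).1; exact div_nonneg (by linarith) hs.le
  have x1 := Nat.floor_le x0
  have x2 := Nat.lt_floor_add_one ((x + h) * 8 / s)
  have y1 := Nat.floor_le y0
  have y2 := Nat.lt_floor_add_one ((y + h) * 8 / s)
  rw [e] at x1 x2
  rw [le_div_iff₀ hs] at x1 y1
  rw [div_lt_iff₀ hs] at x2 y2
  rw [abs_le]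
  constructor <;> linarith

theorem core (hB : Base T) {g : ℂ →ₗ[ℝ] ℂ} {w h s σ : ℝ} (hw : 0 < w) (hs : 0 < s) (hh : 0 ≤ h)
    (hS : T.Sys g s) (hσ : |σ| ≤ 3) (hM : 𝒯.card ≤ M)
    (hp : ∀ p ∈ 𝒯, Convex ℝ p.2 ∧ 0 ∈ p.2 ∧ Disjoint p.2 (T.S p.1) ∧
      ∀ u ∈ p.2, |(g u).re - σ * (g u).im| ≤ w ∧ |(g u).im| ≤ h)
    {c : Y × ℂ} (hc : c ∈ T.SC) (ht : ‖g c.2‖ ≤ 10 * |(g c.2).re - σ * (g c.2).im|)
    (hcov : T.pts c ⊆ T.cov 𝒯) (h1 : M * (16 * h / s + 1) * (21 * w) ≤ s / 2) (h2 : 2 * w < s) :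
    False := by
  classical
  haveI := T.ne
  have hV := hS c hc
  set V := ‖g c.2‖ with eV
  have hV0 : 0 < V := hs.trans_le hV
  set k := 21 * w / V with ek
  have hk : k * V = 21 * w := div_mul_cancel₀ _ hV0.ne'
  have hk0 : 0 < k := by positivity
  set m := ⌊16 * h / s⌋₊ + 1 with em
  have hn : ((M * m : ℕ) : ℝ) * (21 * w) ≤ s / 2 := by
    refine le_trans ?_ h1
    have := Nat.floor_le (show 0 ≤ 16 * h / s by positivity)
    rw [em]
    push_cast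
    gcongr
  have hi : ∀ i ∈ Finset.range (M * m + 1), 0 ≤ (i : ℝ) * k * V ∧ (i : ℝ) * k * V ≤ s / 2 :=
    fun i hi => by
      have : (i : ℝ) ≤ (M * m : ℕ) := Nat.cast_le.2 (Nat.lt_succ_iff.1 (Finset.mem_range.1 hi))
      refine ⟨by positivity, le_trans ?_ hn⟩
      rw [mul_assoc, hk]
      gcongr
  have hi' : ∀ i ∈ Finset.range (M * m + 1), |(i : ℝ) * k| < 1 := fun i h => by
    rw [abs_of_nonneg (by positivity)]
    have := (hi i h).2
    by_contra hn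
    nlinarith [not_lt.1 hn]
  have hz : ∀ i ∈ Finset.range (M * m + 1), ∃ p ∈ 𝒯, ∃ u ∈ p.2,
      T.ex c.1 (((i : ℝ) * k) • c.2) = T.ex p.1 u := fun i h => hcov ⟨_, hi' i h, rfl⟩
  choose! p hp1 u hu e using hz
  obtain ⟨i, hI, j, hJ, hij, ef⟩ := Finset.exists_ne_map_eq_of_card_lt_of_maps_to
    (s := Finset.range (M * m + 1)) (t := 𝒯 ×ˢ Finset.range m)
    (f := fun i => (p i, ⌊((g (u i)).im + h) * 8 / s⌋₊))
    (by
      rw [Finset.card_product, Finset.card_range, Finset.card_range]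
      exact Nat.lt_succ_of_le (Nat.mul_le_mul_right _ hM))
    (fun i hi => by
      have hi := Finset.mem_coe.1 hi
      refine Finset.mem_coe.2 (Finset.mem_product.2 ⟨hp1 i hi, Finset.mem_range.2 ?_⟩)
      refine Nat.lt_succ_of_le (Nat.floor_le_floor ?_)
      have := (abs_le.1 ((hp _ (hp1 i hi)).2.2.2 _ (hu i hi)).2).2
      exact div_le_div_of_nonneg_right (by linarith) hs.le)
  obtain ⟨e1, e2⟩ := Prod.mk.inj ef
  obtain ⟨p1, p2, p3, p4⟩ := hp _ (hp1 i hI)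
  have uj : u i + (u j - u i) ∈ (p i).2 := by rw [add_sub_cancel, e1]; exact hu j hJ
  obtain ⟨a1, a2⟩ := p4 _ (hu i hI)
  obtain ⟨b1, b2⟩ := p4 (u j) (e1 ▸ hu j hJ)
  have d2 := bin hs a2 b2 e2
  have d1 : |(g (u j - u i)).re - σ * (g (u j - u i)).im| ≤ 2 * w := by
    rw [abs_le] at a1 b1 ⊢
    simp only [map_sub, Complex.sub_re, Complex.sub_im]
    constructor <;> linarith [a1.1, a1.2, b1.1, b1.2]
  obtain ⟨l1, l2⟩ := hB.sc_line c hc _ _ (hi' i hI) (hi' j hJ)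
  have d3 : k ≤ |(j : ℝ) * k - i * k| := by
    rw [← sub_mul, abs_mul, abs_of_pos hk0]
    refine le_mul_of_one_le_left hk0.le ?_
    have : (1 : ℤ) ≤ |(j : ℤ) - i| := Int.one_le_abs (sub_ne_zero.2 (by exact_mod_cast hij.symm))
    exact_mod_cast this
  obtain ⟨_, ⟨c', hc', rfl⟩, hle⟩ := hB.two (ng g) _ _ (u j - u i) l1
    (by rw [e i hI]; exact hB.reg _ _ p1 p2 p3 _ (hu i hI) _ uj)
    (fun x => by
      rw [← x, map_smul, Complex.smul_re, Complex.smul_im, smul_eq_mul, smul_eq_mul,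
        mul_left_comm, ← mul_sub, abs_mul] at d1
      have := mul_le_mul_of_nonneg_right d3 (abs_nonneg ((g c.2).re - σ * (g c.2).im))
      nlinarith)
    (by rw [l2, e i hI, (T.cons _ _ p1 p2 p3 _ (hu i hI) _ uj).2, add_sub_cancel, e j hJ, e1])
  have s1 := hS c' hc'
  simp only [ng_apply, map_smul, norm_smul, Real.norm_eq_abs] at hle
  have s2 : |(j : ℝ) * k - i * k| * V ≤ s / 2 := by
    rw [← abs_of_pos hV0, ← abs_mul, abs_le]
    constructor <;> nlinarith [hi i hI, hi j hJ]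
  have s3 := norm_le_re_im (g (u j - u i))
  have s4 : |(g (u j - u i)).im| ≤ s / 8 := by rwa [map_sub, Complex.sub_im]
  have s5 : |(g (u j - u i)).re| ≤ 2 * w + 3 * (s / 8) := by
    have := abs_add_le ((g (u j - u i)).re - σ * (g (u j - u i)).im) (σ * (g (u j - u i)).im)
    rw [sub_add_cancel, abs_mul] at this
    have := mul_le_mul hσ s4 (abs_nonneg _) (by norm_num)
    linarith
  rw [abs_two] at hle
  linarith

end NewX

open NewX in
theorem rnew (hb : RB) (ha : RAF) (h1 : RST1) (h2 : RST2) : RNew := by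
  intro Y _ T
  have hB := hb Y T
  obtain ⟨K, M, hK, h⟩ := fam hB h1 h2
  have hA := hB.area_pos
  have hK2 : 1 ≤ K ^ 2 := one_le_pow₀ hK
  have hM : (0 : ℝ) ≤ M := Nat.cast_nonneg M
  have hD : 3000 ≤ 3000 * (M + 1) * K ^ 2 := by nlinarith
  refine ⟨2 * K, min 1 (T.area / (16 * (M + 1) * K ^ 2)), 1 / (3000 * (M + 1) * K ^ 2),
    by linarith, by positivity, by positivity, (div_le_one (by positivity)).2 (by linarith),
    fun g B r hg b1 b2 hr => ⟨fun e r0 => ?_, fun ⟨b, hb⟩ hl => ?_,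
      fun s L σ hs hS hL hσ ⟨c, hc, hd, ht⟩ hsm => ?_⟩⟩
  · refine (h (ng g) B r b1 b2 hr.le).elim id fun ⟨𝒯, F⟩ => ?_
    have a1 := F.area hB ha hg (by positivity) (F.all (by simp [e]))
    have a2 := (le_div_iff₀ (by positivity)).1 (r0.trans (min_le_right _ _))
    have a3 : r ^ 2 ≤ r := by nlinarith [r0.trans (min_le_left _ _)]
    have a4 : M * (16 * (K * r) ^ 2) ≤ M * (16 * (K ^ 2 * r)) := by rw [mul_pow]; gcongr
    have a5 : 0 < K ^ 2 * r := by positivity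
    exfalso
    nlinarith
  · refine (h (ng g) B r b1 b2 hr.le).elim id fun ⟨𝒯, F⟩ => ?_
    have a0 : 0 < K * r := by positivity
    have a1 := F.last b hb (F.all (fun b hb => by have := hl b hb; rw [ng_apply]; linarith) _)
    have a2 := hl b hb
    rw [ng_apply] at a1
    exfalso
    linarith
  refine (h (ng (ds L σ ∘ₗ g)) B r b1 b2 hr.le).elim id fun ⟨𝒯, F⟩ => ?_
  by_cases hall : ∀ γ ∈ T.Gam (ng (ds L σ ∘ₗ g)) B r, T.Dis γ c
  · exact Or.inr ⟨c, hc, hd, fun γ hγ => Or.inl (hall γ hγ)⟩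
  push Not at hall
  obtain ⟨γ, hγ, hm⟩ := hall
  obtain ⟨z, z1, z2⟩ := not_disjoint_iff.1 hm
  have c1 := F.along hB hc hd ⟨z, z2, F.along hB hγ.1 hγ.2.1 (F.meet γ hγ) z1⟩
  have hL0 : 0 < L := by linarith
  rw [one_div_mul_eq_div, le_div_iff₀ (by positivity)] at hsm
  have q1 : 0 < r * s / L := by positivity
  have q2 : K ≤ K ^ 2 := by nlinarith
  exfalso
  refine core (w := 2 * (K * r) / L) (h := 2 * (K * r) * L) hB (by positivity) hs (by positivity)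
    hS hσ F.card (fun p hp => ?_) hc ht c1 ?_ ?_
  · obtain ⟨p1, p2, p3, -, p5⟩ := F.pc p hp
    refine ⟨p1, p2, p3, fun u hu => ?_⟩
    have n1 := (Complex.abs_re_le_norm _).trans (p5 u hu)
    have n2 := (Complex.abs_im_le_norm _).trans (p5 u hu)
    rw [LinearMap.comp_apply, ds_re, abs_mul, abs_of_pos hL0] at n1
    rw [LinearMap.comp_apply, ds_im, abs_div, abs_of_pos hL0, div_le_iff₀ hL0] at n2
    exact ⟨(le_div_iff₀' hL0).2 n1, n2⟩
  · have e : M * (16 * (2 * (K * r) * L) / s + 1) * (21 * (2 * (K * r) / L)) =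
        M * (1344 * (K ^ 2 * r ^ 2) + 42 * (K * (r * s / L))) / s := by
      field_simp
      ring
    rw [e, div_le_iff₀ hs]
    have q3 : K * (r * s / L) ≤ K ^ 2 * (r * s / L) := by gcongr
    have q4 : M * (1344 * (K ^ 2 * r ^ 2) + 42 * (K * (r * s / L))) ≤
        (M + 1) * (1500 * (K ^ 2 * r ^ 2) + 1500 * (K ^ 2 * (r * s / L))) := by
      have : 0 < K ^ 2 * r ^ 2 := by positivity
      have : 0 < K ^ 2 * (r * s / L) := by positivity
      gcongr ?_ * ?_ <;> linarith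
    nlinarith
  · have e : 2 * (2 * (K * r) / L) = 4 * (K * (r * s / L)) / s := by field_simp; ring
    rw [e, div_lt_iff₀ hs]
    have q3 : K * (r * s / L) ≤ K ^ 2 * (r * s / L) := by gcongr
    have q4 : 0 < K ^ 2 * (r * s / L) := by positivity
    have q5 : 0 ≤ M * (K ^ 2 * (r * s / L)) := by positivity
    have q6 : 0 ≤ (M + 1) * (K ^ 2 * r ^ 2) := by positivity
    nlinarith

end Pool.Agent.MP_16ecd2_an.H18
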