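import Pool.Agent.MP_16ecd2_an.H18.Kit

/-! The points that see a singular point in a fixed direction form a null set. -/

set_option autoImplicit false

namespace Pool.Agent.MP_16ecd2_an.H18

open MeasureTheory Set Filter Topology Metric

namespace NullX

variable {Y : Type} [MeasurableSpace Y]

lemma ray (hb : RB) (ha : RAF) (T : TS Y) (y : Y) {d : ℂ} (hd : d ≠ 0) :
    T.μ (T.ex y '' ((fun l : ℝ => l • d) '' {l | 0 ≤ l ∧ T.Reg y (l • d)})) = 0 := by
  have ho : OrdConnected {l : ℝ | 0 ≤ l ∧ T.Reg y (l • d)} := by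
    refine ⟨fun a h1 b h2 l hl => ⟨h1.1.trans hl.1, fun s hs => ?_⟩⟩
    have h0 : 0 ≤ l := h1.1.trans hl.1
    rcases h2.1.eq_or_lt with e | e
    · have : l = 0 := le_antisymm (e ▸ hl.2) h0
      simpa [this] using (hb Y T).zero y
    · have := h2.2 (s * l / b) ⟨by have := hs.1; positivity, by
        rw [div_le_one e]; nlinarith [hs.1, hs.2, hl.2]⟩
      rwa [smul_smul, div_mul_cancel₀ _ e.ne', ← smul_smul] at this
  have hm := (isClosedEmbedding_smul_left (𝕜 := ℝ) hd).measurableEmbedding.measurableSet_image.2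
    ho.measurableSet
  have h := ha Y T _ (T.ex y) ((hb Y T).dev y _
    (ho.convex.linear_image (LinearMap.toSpanSingleton ℝ ℂ d))
    ⟨0, ⟨le_rfl, fun s _ => by simpa using (hb Y T).zero y⟩, zero_smul _ _⟩
    (disjoint_left.2 (by
      rintro _ ⟨l, hl, rfl⟩
      simpa using hl.2 1 ⟨zero_le_one, le_rfl⟩))) hm
  refine le_antisymm (h.2.2.2.2.1.trans (le_of_eq ?_)) bot_le
  refine measure_mono_null ?_ (Measure.addHaar_submodule volume (Submodule.span ℝ {d}) fun e => ?_)
  · rintro _ ⟨l, -, rfl⟩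
    exact Submodule.smul_mem _ _ (Submodule.mem_span_singleton_self d)
  · have := finrank_span_singleton (K := ℝ) hd
    rw [e, finrank_top, Complex.finrank_real_complex] at this
    omega

lemma half (hb : RB) (ha : RAF) (T : TS Y) (d : ℂ) :
    T.μ {z | ∃ t : ℝ, 0 < t ∧ t • d ∈ T.S z} = 0 := by
  by_cases hd : d = 0
  · have : {z | ∃ t : ℝ, 0 < t ∧ t • d ∈ T.S z} = ∅ :=
      eq_empty_of_forall_notMem fun z ⟨t, _, h⟩ => (hb Y T).zero z (by simpa [hd] using h)
    rw [this, measure_empty]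
  refine measure_mono_null (t := ⋃ j : ℕ, ⋃ y ∈ {y | (1 / ((j : ℝ) + 1)) • d ∈ T.S y},
    T.ex y '' ((fun l : ℝ => l • -d) '' {l | 0 ≤ l ∧ T.Reg y (l • -d)})) ?_
    (measure_iUnion_null fun j => (measure_biUnion_null_iff (T.prong _).1.countable).2
      fun y _ => ray hb ha T y (neg_ne_zero.2 hd))
  rintro z ⟨t, ht, hz⟩
  obtain ⟨j, hj⟩ := exists_nat_one_div_lt ht
  have he : 0 < 1 / ((j : ℝ) + 1) := by positivity
  obtain ⟨e, e0⟩ : ∃ e, e = 1 / ((j : ℝ) + 1) := ⟨_, rfl⟩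
  rw [← e0] at hj he
  have key : ∀ r : ℝ, 0 ≤ r → r < t → r • d ∉ T.S z := fun r h0 h1 => by
    have := T.star z _ hz (r / t) (by positivity) ((div_lt_one ht).2 h1)
    rwa [smul_smul, div_mul_cancel₀ _ ht.ne'] at this
  have hR : T.Reg z ((t - e) • d) := fun s hs => by
    rw [smul_smul]
    exact key _ (mul_nonneg hs.1 (by linarith)) (by nlinarith [hs.1, hs.2])
  have h1 := (hb Y T).tr z ((t - e) • d) _ hz fun α β a b c f => by
    rw [smul_smul, smul_smul, ← add_smul]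
    refine key _ (add_nonneg (mul_nonneg a (by linarith)) (by positivity)) ?_
    rcases a.eq_or_lt with rfl | a
    · nlinarith
    · nlinarith [mul_pos a he]
  rw [← sub_smul, sub_sub_cancel] at h1
  have h2 := (hb Y T).back z _ hR
  rw [← smul_neg] at h2
  exact mem_iUnion.2 ⟨j, mem_biUnion (x := T.ex z ((t - e) • d)) (show _ ∈ T.S _ from e0 ▸ h1)
    ⟨_, ⟨t - e, ⟨by linarith, h2.1⟩, rfl⟩, h2.2⟩⟩

end NullX

open NullX in
theorem null (hb : RB) (ha : RAF) : RNull := by
  intro Y _ T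
  have h : ∀ d : ℂ, T.μ {z | ∃ t : ℝ, t • d ∈ T.S z} = 0 := fun d => by
    refine measure_mono_null ?_ (measure_union_null (half hb ha T d) (half hb ha T (-d)))
    rintro z ⟨t, ht⟩
    rcases lt_trichotomy t 0 with h | rfl | h
    · exact Or.inr ⟨-t, by linarith, by simpa using ht⟩
    · exact absurd (by simpa using ht) ((hb Y T).zero z)
    · exact Or.inl ⟨t, h, ht⟩
  refine ⟨h, fun c hc => measure_mono_null ?_ (h c.2)⟩
  rintro _ ⟨t, ht, rfl⟩
  exact ⟨_, ((hb Y T).sc_end c hc t ht).1⟩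

end Pool.Agent.MP_16ecd2_an.H18
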