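import Pool.Agent.MP_16ecd2_an.H18.Kit

set_option autoImplicit false

namespace Pool.Agent.MP_16ecd2_an.H18

open MeasureTheory Set Filter Topology Metric

theorem pq (ha : RGA) (hc : RGC2) : RPQ := by
  intro Y _ T S' k hM
  have hn : ∀ j : ℕ, ‖(-Complex.exp ((j * (Real.pi / 4) : ℝ) * Complex.I))⁻¹‖ = 1 := fun j => by
    rw [norm_inv, norm_neg, Complex.norm_exp_ofReal_mul_I, inv_one]
  choose D₀ hD using fun j : ℕ => ha Y (T.turn _ (hn j)) _ k (hM.turn _ (hn j))
  have hle : ∀ j, j < 8 → D₀ j ≤ 1 + (Finset.range 8).sup D₀ := fun j hj =>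
    (Finset.le_sup (f := D₀) (Finset.mem_range.2 hj)).trans (Nat.le_add_left _ _)
  have h0 : (0 : ℝ) ≤ k / T.area := div_nonneg (Nat.cast_nonneg k) ENNReal.toReal_nonneg
  obtain ⟨κ, hκ, hP⟩ := hc (k / T.area) (1 + (Finset.range 8).sup D₀) h0 (Nat.le_add_right _ _)
  refine ⟨κ, hκ, ?_⟩
  have h1 : ∀ᵐ q ∂T.μ, ∀ j : ℕ, j < 8 →
      GG (turnSet j (S' q)) (k / T.area) (1 + (Finset.range 8).sup D₀) := by
    rw [ae_all_iff]
    intro j
    by_cases hj : j < 8
    · filter_upwards [hD j _ (hle j hj) (Nat.le_add_right _ _)] with q hq _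
      have e : nS (fun x => {v | ((-Complex.exp ((j * (Real.pi / 4) : ℝ) * Complex.I))⁻¹)⁻¹ * v ∈
          S' x}) q = turnSet j (S' q) := by
        ext v
        simp only [nS, turnSet, mem_ofPred_eq, inv_inv, neg_mul_neg]
      rw [e] at hq
      exact hq
    · exact Eventually.of_forall fun _ h => absurd h hj
  filter_upwards [h1] with q hq
  obtain ⟨C, hC⟩ := hP (S' q)
    (fun R => (T.fin q R).subset (inter_subset_inter_left _ (hM.sub q))) hq
  refine ⟨C, fun R α β h2 h3 h4 => ?_⟩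
  have e : (k : ℝ) * (β - α) * R ^ 2 / (2 * T.area) = k / T.area * (β - α) * R ^ 2 / 2 := by ring
  rw [e]
  exact hC R α β h2 h3 h4

end Pool.Agent.MP_16ecd2_an.H18
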