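import Pool.Agent.MP_16ecd2_an.H18.Kit

set_option autoImplicit false

namespace Pool.Agent.MP_16ecd2_an.H18

open MeasureTheory Set Filter Topology Metric

theorem pqx (hb : RB) (ha : RAtl) (hr : RBr) (hp : RPQ) : RPQX := by
  intro X _ _ _ _ _ _ S μ hμ
  obtain ⟨T, hT⟩ := ha X S μ hμ
  have B := hr X S
  refine ⟨hT.area ▸ (hb _ T).area_pos, fun σ hσ => ?_⟩
  obtain ⟨κ, hκ, h⟩ := hp _ T _ _ (hT.mark σ hσ)
  refine ⟨κ, hκ, hT.ae _ ?_⟩
  filter_upwards [h] with q hq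
  obtain ⟨C, hC⟩ := hq
  have hi := B.inj q.1 σ q.2
  have hv := B.vis q.1 σ q.2 hσ
  refine ⟨fun R => ?_, C, fun R α β h1 h2 h3 => ?_⟩
  · refine Finite.of_finite_image ((T.fin q R).subset ?_) (hi.mono fun c hc => hc.1)
    rintro _ ⟨c, hc, rfl⟩
    have : c.2 ∈ {v | S.Vis q v σ} := hv ▸ mem_image_of_mem _ hc.1
    exact ⟨(hT.vis q _).2 ⟨σ, this⟩, mem_closedBall_zero_iff.2 hc.2⟩
  · have e : Prod.snd '' {c ∈ S.Seg q σ | c.2 ∈ Sect α β R} = {v | S.Vis q v σ} ∩ Sect α β R := by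
      rw [← hv]
      ext v
      constructor
      · rintro ⟨c, hc, rfl⟩
        exact ⟨mem_image_of_mem _ hc.1, hc.2⟩
      · rintro ⟨⟨c, hc, rfl⟩, h'⟩
        exact ⟨c, ⟨hc, h'⟩, rfl⟩
    have := hC R α β h1 h2 h3
    rw [← e, InjOn.ncard_image (hi.mono fun c hc => hc.1), hT.area] at this
    exact this

end Pool.Agent.MP_16ecd2_an.H18
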