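import Pool.Agent.MP_16ecd2_an.H18.Kit

/-!
Integration over a cone in slope coordinates.
-/

set_option autoImplicit false

namespace Pool.Agent.MP_16ecd2_an.H18

open MeasureTheory Set Filter Topology Metric
open scoped ENNReal

namespace PolX

theorem scale {t : ℝ} (ht : 0 < t) {f : ℝ → ℝ≥0∞} (hf : Measurable f) :
    ∫⁻ x, f x * ENNReal.ofReal (1 / t) = ∫⁻ s, f (t * s) := by
  rw [lintegral_mul_const _ hf, ← lintegral_map hf (measurable_const_mul t),
    Real.map_volume_mul_left ht.ne', lintegral_smul_measure, abs_of_pos (inv_pos.2 ht), one_div,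
    smul_eq_mul, mul_comm]

end PolX

theorem pol : RPol := by
  intro G y₁ y₂ hG hy
  have hC : MeasurableSet (Cone G y₁ y₂) :=
    (Complex.measurable_im measurableSet_Ico).inter
      ((Complex.measurable_re.div Complex.measurable_im) hG)
  refine ⟨hC, fun F hF => ?_⟩
  have hρ : Measurable rho := (measurable_const.div Complex.measurable_im).ennreal_ofReal
  have hH : Measurable ((Cone G y₁ y₂).indicator fun v => F v * rho v) := (hF.mul hρ).indicator hC
  have hm : Measurable fun p : ℝ × ℝ => F (p.2 • dir p.1) := by
    refine hF.comp (Continuous.measurable ?_)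
    unfold dir
    fun_prop
  have hK : Measurable fun p : ℝ × ℝ => (Cone G y₁ y₂).indicator (fun v => F v * rho v)
      (Complex.measurableEquivRealProd.symm p) :=
    hH.comp Complex.measurableEquivRealProd.symm.measurable
  rw [← lintegral_indicator hC,
    ← (Complex.volume_preserving_equiv_real_prod.symm).lintegral_comp hH, Measure.volume_eq_prod,
    lintegral_prod_symm' _ hK,
    lintegral_lintegral_swap (f := fun s t : ℝ => F (t • dir s)) hm.aemeasurable,
    ← lintegral_indicator measurableSet_Ico]
  refine lintegral_congr fun t => ?_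
  by_cases ht : t ∈ Ico y₁ y₂
  · have h0 : 0 < t := hy.trans_le ht.1
    have hf : Measurable ({x : ℝ | x / t ∈ G}.indicator fun x => F (x + t * Complex.I)) :=
      (hF.comp (Continuous.measurable (by fun_prop))).indicator ((measurable_id.div_const t) hG)
    rw [indicator_of_mem ht, ← lintegral_indicator hG]
    have e1 : ∀ s, G.indicator (fun s => F (t • dir s)) s =
        {x : ℝ | x / t ∈ G}.indicator (fun x => F (x + t * Complex.I)) (t * s) := fun s => by
      have e2 : t * s / t = s := by field_simp
      have e3 : t • dir s = (t * s : ℝ) + t * Complex.I := by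
        simp [dir]
      by_cases hs : s ∈ G
      · rw [indicator_of_mem hs, indicator_of_mem (show t * s ∈ {x : ℝ | x / t ∈ G} by
          rwa [mem_ofPred_eq, e2]), e3]
      · rw [indicator_of_notMem hs, indicator_of_notMem (show t * s ∉ {x : ℝ | x / t ∈ G} by
          rwa [mem_ofPred_eq, e2])]
    simp only [e1]
    rw [← PolX.scale h0 hf]
    refine lintegral_congr fun x => ?_
    have e4 : Complex.measurableEquivRealProd.symm (x, t) = x + t * Complex.I := by
      apply Complex.ext <;> simp
    rw [e4]
    by_cases hx : x / t ∈ G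
    · rw [indicator_of_mem (show x ∈ {x : ℝ | x / t ∈ G} from hx),
        indicator_of_mem (show (x + t * Complex.I : ℂ) ∈ Cone G y₁ y₂ by simpa [Cone, hx] using ht)]
      simp [rho]
    · rw [indicator_of_notMem (show x ∉ {x : ℝ | x / t ∈ G} from hx),
        indicator_of_notMem (show (x + t * Complex.I : ℂ) ∉ Cone G y₁ y₂ by simp [Cone, hx]),
        zero_mul]
  · rw [indicator_of_notMem ht]
    refine (lintegral_congr fun x => ?_).trans lintegral_zero
    exact indicator_of_notMem (fun h => ht h.1) _

end Pool.Agent.MP_16ecd2_an.H18
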