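import Pool.Agent.MP_16ecd2_an.H18.Kit

/-!
A maximal family of short disjoint saddle connections is closed, or one of its edges is avoided.
-/

set_option autoImplicit false

namespace Pool.Agent.MP_16ecd2_an.H18

open Set

namespace ST1X

variable {Y : Type} [MeasurableSpace Y] {T : TS Y}

theorem size (N : Seminorm ℝ ℂ) {v d g : ℂ} {A r a γ τ t l σ : ℝ} (hv : N v ≤ A) (hg : N g ≤ A)
    (hd : N d ≤ 2 * r) (h1 : 0 < γ) (h2 : |a| + γ ≤ 1) (hτ : τ ∈ Ioc (0 : ℝ) 1) (ht : |t| < 1)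
    (hl : |l| ≤ 2) (hσ : |σ| = 1) :
    N ((1 / 2 : ℝ) • (a • v + γ • (t • v + τ • d + l • g) - σ • v)) ≤ 2 * A + r := by
  have e : (1 / 2 : ℝ) • (a • v + γ • (t • v + τ • d + l • g) - σ • v) =
      ((a + γ * t - σ) / 2) • v + (γ * τ / 2) • d + (γ * l / 2) • g := by module
  have n1 := apply_nonneg N v
  have n2 := apply_nonneg N d
  have n3 := apply_nonneg N g
  have a0 := abs_nonneg a
  have b1 : |(a + γ * t - σ) / 2| ≤ 1 := by
    have := abs_sub (a + γ * t) σ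
    have := abs_add_le a (γ * t)
    rw [abs_mul, abs_of_pos h1] at this
    rw [abs_div, abs_two]
    nlinarith
  have b2 : |γ * τ / 2| ≤ 1 / 2 := by
    rw [abs_of_pos (by have := hτ.1; positivity)]
    nlinarith [hτ.1, hτ.2]
  have b3 : |γ * l / 2| ≤ 1 := by
    rw [abs_div, abs_two, abs_mul, abs_of_pos h1]
    nlinarith [abs_nonneg l]
  rw [e]
  refine (map_add_le_add N _ _).trans ((add_le_add_left (map_add_le_add N _ _) _).trans ?_)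
  simp only [map_smul_eq_mul, Real.norm_eq_abs]
  nlinarith [mul_le_mul_of_nonneg_right b1 n1, mul_le_mul_of_nonneg_right b2 n2,
    mul_le_mul_of_nonneg_right b3 n3]

theorem not_dis (hb : Base T) (c : Y × ℂ) : ¬T.Dis c c := fun h =>
  disjoint_left.1 h (hb.mid_mem c) (hb.mid_mem c)

/-- A short transverse saddle connection closes both sides of an edge. -/
theorem side (hb : Base T) (k0 : TK0) (hk : TK T) (ht : RTL) (N : Seminorm ℝ ℂ)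
    {B E : Set (Y × ℂ)} {A r : ℝ} (hf : (B ∪ E).Finite) (hW : T.PW (B ∪ E))
    (hE : ∀ e ∈ E, N e.2 ≤ A)
    (mx : ∀ f ∈ T.SC, (∀ w ∈ B ∪ E, T.Dis f w) → ¬N f.2 ≤ 2 * A + r) {e γ : Y × ℂ} (he : e ∈ E)
    (hγ : γ ∈ T.Gam N B r) (h1 : ¬T.Dis γ e) (h2 : det e.2 γ.2 ≠ 0) {s : ℝ} (hs : s ≠ 0) :
    ∃ c, T.Tri e.1 e.2 c ∧ 0 < s * det e.2 c ∧ ∀ v ∈ ({e.2, -e.2} : Set ℂ),
      N (T.sd e.1 v c).2 ≤ 2 * A + r ∧ (T.sd e.1 v c ∈ E ∪ B ∨ opp (T.sd e.1 v c) ∈ E ∪ B) := by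
  obtain ⟨_, ⟨t₁, h3, rfl⟩, t₀, h4, h5⟩ := not_disjoint_iff.1 h1
  have h6 := abs_lt.1 h3
  obtain ⟨ε, e1, e2, e3⟩ : ∃ ε : ℝ, |ε| = 1 ∧ (ε - t₁) • γ.2 ∈ T.S (T.ex γ.1 (t₁ • γ.2)) ∧
      0 < s * det e.2 ((ε - t₁) • γ.2) := by
    have := hb.sc_end γ hγ.1 t₁ h3
    rcases (mul_ne_zero hs h2).lt_or_gt with h | h
    · exact ⟨-1, by simp, this.2, by rw [det_smul_right]; nlinarith⟩
    · exact ⟨1, by simp, this.1, by rw [det_smul_right]; nlinarith⟩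
  have hd : N ((ε - t₁) • γ.2) ≤ 2 * r := by
    have := abs_sub ε t₁
    rw [map_smul_eq_mul, Real.norm_eq_abs]
    nlinarith [hγ.2.2, apply_nonneg N γ.2, abs_nonneg (ε - t₁)]
  obtain ⟨c, c1, c2, c3, a, g, τ, z, rfl, g1, g2, hτ, hz⟩ := ht Y T _ hf hW e.1 e.2 (.inr he) t₀ h4
    _ (h5 ▸ e2) (right_ne_zero_of_mul e3.ne')
  obtain ⟨f, l, f1, f2, rfl⟩ : ∃ (f : ℂ) (l : ℝ), N f ≤ A ∧ |l| ≤ 2 ∧
      z = t₀ • e.2 + τ • (ε - t₁) • γ.2 + l • f := by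
    rcases hz with hz | ⟨z1, f, f1, f2, l, f3, f4⟩
    · exact ⟨e.2, 0, hE e he, by simp, by simp [hz]⟩
    · refine ⟨f.2, l, hE f (f1.resolve_left fun k => disjoint_left.1 (hγ.2.1 f k) ?_ f2), f3, f4⟩
      have k1 : |t₁ + τ * (ε - t₁)| < 1 := by
        have := abs_add_le ((1 - τ) * t₁) (τ * ε)
        rw [abs_mul, abs_mul, e1, abs_of_pos hτ.1, abs_of_pos (sub_pos.2 z1)] at this
        rw [show t₁ + τ * (ε - t₁) = (1 - τ) * t₁ + τ * ε by ring]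
        nlinarith
      refine ⟨_, k1, ?_⟩
      rw [← (hb.sc_line γ hγ.1 t₁ _ h3 k1).2, ← h5, add_sub_cancel_left, mul_smul]
  have key : ∀ σ : ℝ, |σ| = 1 → ∀ v c, v = σ • e.2 →
      c = a • e.2 + g • (t₀ • e.2 + τ • (ε - t₁) • γ.2 + l • f) → (e.1, v) ∈ T.SC →
      T.Tri e.1 v c → T.WFree (B ∪ E) e.1 v c →
      N (T.sd e.1 v c).2 ≤ 2 * A + r ∧ (T.sd e.1 v c ∈ E ∪ B ∨ opp (T.sd e.1 v c) ∈ E ∪ B) := by
    intro σ hσ v c hv hc k1 k2 k3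
    have k4 : N (T.sd e.1 v c).2 ≤ 2 * A + r := by
      rw [hv, hc]
      exact size N (hE e he) f1 hd g1 g2 hτ h4 f2 hσ
    refine ⟨k4, ?_⟩
    rw [union_comm]
    by_contra! k5
    refine mx _ (hk.sc _ _ _ k1 k2).1 (fun w hw => ?_) k4
    rcases hk.side _ _ _ k1 k2 w (hW.1 hw) fun u hu => k3 u hu w hw with k | rfl | rfl
    exacts [k, (k5.1 hw).elim, (k5.2 hw).elim]
  refine ⟨_, c1, ?_, ?_⟩
  · by_contra! k
    nlinarith [mul_pos e3 c3, mul_self_pos.2 (right_ne_zero_of_mul e3.ne')]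
  · rintro v (rfl | rfl)
    · exact key 1 (by simp) _ _ (by simp) rfl (hW.1 (.inr he)) c1 c2
    · exact key (-1) (by simp) _ _ (by simp) rfl (hb.sc_opp e (hW.1 (.inr he))) (hk.neg _ _ _ c1)
        fun u hu => c2 u (k0.ineg _ _ ▸ hu)

end ST1X

open ST1X in
theorem st1 (hb : RB) (hk : RTK) (ht : RTL) (hc : RCard) : RST1 := by
  classical
  intro Y _ T
  obtain ⟨M, hM⟩ := hc Y T
  refine ⟨3 ^ (M + 1), M, one_le_pow₀ (by norm_num), fun N B r hf hB hr => ?_⟩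
  let P : ℕ → Prop := fun k => ∃ E : Finset (Y × ℂ), E.card = k ∧ T.PW (B ∪ E) ∧
    Disjoint B E ∧ ∀ e ∈ E, N e.2 ≤ 3 ^ k * r
  have bd : ∀ k, P k → k ≤ M := by
    rintro _ ⟨E, rfl, h, -⟩
    exact hM E ⟨subset_union_right.trans h.1, h.2.mono subset_union_right⟩
  obtain ⟨k, ⟨E, e1, e2, e3, e4⟩, hn⟩ : ∃ k, P k ∧ ¬P (k + 1) :=
    ⟨M.findGreatest P, Nat.findGreatest_spec (m := 0) M.zero_le ⟨∅, rfl, by simpa, by simp, by simp⟩,
      fun h => Nat.findGreatest_is_greatest (Nat.lt_succ_self _) (bd _ h) h⟩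
  have kM : k ≤ M := bd k ⟨E, e1, e2, e3, e4⟩
  have p1 : r ≤ 3 ^ k * r := le_mul_of_one_le_left hr (one_le_pow₀ (by norm_num))
  have p2 : 3 ^ (k + 1) * r ≤ 3 ^ (M + 1) * r := by gcongr; norm_num
  rw [pow_succ] at p2
  have mx : ∀ f ∈ T.SC, (∀ w ∈ B ∪ E, T.Dis f w) → ¬N f.2 ≤ 2 * (3 ^ k * r) + r := by
    intro f f1 f2 f3
    have f4 : f ∉ B ∪ E := fun h => not_dis (hb Y T) f (f2 f h)
    refine hn ⟨insert f E, by rw [Finset.card_insert_of_notMem fun h => f4 (.inr h), e1], ?_, ?_,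
      fun e he => ?_⟩
    · rw [Finset.coe_insert, union_insert]
      exact ⟨insert_subset f1 e2.1, e2.2.insert fun w hw _ => ⟨f2 w hw, (f2 w hw).symm⟩⟩
    · rw [Finset.coe_insert]
      exact disjoint_insert_right.2 ⟨fun h => f4 (.inl h), e3⟩
    · rw [pow_succ]
      rcases Finset.mem_insert.1 he with rfl | he
      · linarith
      · linarith [e4 e he]
  have hit : ∀ γ ∈ T.Gam N B r, ∃ e ∈ E, ¬T.Dis γ e := fun γ hγ => by
    by_contra! h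
    exact mx γ hγ.1 (fun w hw => hw.elim (hγ.2.1 w) (h w)) (by linarith [hγ.2.2])
  rcases (T.Gam N B r).eq_empty_or_nonempty with h0 | ⟨γ₀, h0⟩
  · exact .inl (.inl h0)
  by_cases hC : T.Closed N E B (3 ^ (M + 1) * r)
  · obtain ⟨e, he, -⟩ := hit γ₀ h0
    exact .inr ⟨E, ⟨e, he⟩, e1 ▸ kM, e2, e3, fun e he => by linarith [e4 e he], hC, hit⟩
  simp only [TS.Closed, not_forall] at hC
  obtain ⟨e, he, s, hs, hC⟩ := hC
  refine .inl (.inr ⟨e, e2.1 (.inr he), fun b h => e2.2 (.inr he) (.inl h) ?_, fun γ hγ => ?_⟩)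
  · rintro rfl
    exact disjoint_left.1 e3 h he
  by_contra! h
  obtain ⟨c, c1, c2, c3⟩ := side (hb Y T) hk.1 (hk.2 Y T) ht N (hf.union E.finite_toSet) e2 e4 mx
    he hγ h.1 (fun d => ((hb Y T).par e (e2.1 (.inr he)) γ hγ.1 d fun k => h.1 k.symm).elim
      h.2.1 h.2.2) hs
  exact hC ⟨c, c1, c2, fun v hv => ⟨by linarith [(c3 v hv).1], (c3 v hv).2⟩⟩

end Pool.Agent.MP_16ecd2_an.H18
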