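import Pool.Agent.MP_16ecd2_an.H18.Kit

/-!
The region covered by the triangles of a closed family of edges.
-/

set_option autoImplicit false

namespace Pool.Agent.MP_16ecd2_an.H18

open MeasureTheory Set Filter Topology Metric

namespace ST2X

variable {Y : Type} [MeasurableSpace Y]

/-- A small triangle on the edge `e` with sides in `W`. -/
def Loc (T : TS Y) (N : Seminorm ℝ ℂ) (W : Set (Y × ℂ)) (a : ℝ) (e : Y × ℂ) (c : ℂ) : Prop :=
  e ∈ W ∧ e ∈ T.SC ∧ N e.2 ≤ a ∧ T.Tri e.1 e.2 c ∧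
    ∀ v ∈ ({e.2, -e.2} : Set ℂ), N (T.sd e.1 v c).2 ≤ a ∧
      (T.sd e.1 v c ∈ W ∨ opp (T.sd e.1 v c) ∈ W)

variable {T : TS Y} {N : Seminorm ℝ ℂ} {W : Set (Y × ℂ)} {a : ℝ} {e : Y × ℂ} {c : ℂ}

theorem sideL (hB : Base T) (h : Loc T N W a e c) :
    ∀ f ∈ ({(e.1, e.2), T.sd e.1 e.2 c, T.sd e.1 (-e.2) c} : Set (Y × ℂ)),
      ∃ g ∈ W, N g.2 ≤ a ∧ T.pts g = T.pts f ∧ (g.2 = f.2 ∨ g.2 = -f.2) := by
  obtain ⟨hW, -, hN, -, hs⟩ := h
  have key : ∀ v ∈ ({e.2, -e.2} : Set ℂ), ∃ g ∈ W, N g.2 ≤ a ∧ T.pts g = T.pts (T.sd e.1 v c) ∧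
      (g.2 = (T.sd e.1 v c).2 ∨ g.2 = -(T.sd e.1 v c).2) := by
    intro v hv
    obtain ⟨h1, h2 | h2⟩ := hs v hv
    · exact ⟨_, h2, h1, rfl, Or.inl rfl⟩
    · refine ⟨_, h2, ?_, hB.pts_opp _, Or.inr rfl⟩
      simpa only [opp, map_neg_eq_map] using h1
  intro f hf
  rcases hf with rfl | rfl | rfl
  · exact ⟨e, hW, hN, rfl, Or.inl rfl⟩
  · exact key _ (Or.inl rfl)
  · exact key _ (Or.inr rfl)

theorem normL (h : Loc T N W a e c) : ∀ u ∈ tri e.2 c, N u ≤ 2 * a := by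
  obtain ⟨-, -, hN, -, hs⟩ := h
  have h1 := (hs e.2 (Or.inl rfl)).1
  have h2 := (hs (-e.2) (Or.inr rfl)).1
  have ha : 0 ≤ a := (apply_nonneg N _).trans hN
  have hc : N c ≤ 2 * a := by
    have : c = (T.sd e.1 e.2 c).2 + (T.sd e.1 (-e.2) c).2 := by
      simp only [TS.sd]
      module
    rw [this]
    exact (map_add_le_add N _ _).trans (by linarith)
  rintro u ⟨α, γ, hγ, hs', -, -, rfl⟩
  refine (map_add_le_add N _ _).trans ?_
  rw [map_smul_eq_mul, map_smul_eq_mul, Real.norm_eq_abs, Real.norm_eq_abs, abs_of_nonneg hγ]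
  have h3 := mul_le_mul_of_nonneg_left hN (abs_nonneg α)
  have h4 := mul_le_mul_of_nonneg_left hc hγ
  nlinarith [abs_nonneg α, mul_nonneg (abs_nonneg α) ha]

theorem consL (h0 : TK0) (h : Loc T N W a e c) {u w : ℂ} (hu : u ∈ tri e.2 c)
    (hw : u + w ∈ tri e.2 c) : T.ex (T.ex e.1 u) w = T.ex e.1 (u + w) :=
  (T.cons e.1 _ (h0.conv _ _) (h0.zero _ _) h.2.2.2.1.2.2 u hu w hw).2

theorem exitL (hB : Base T) (h0 : TK0) (hK : TK T) (h : Loc T N W a e c) {u w : ℂ}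
    (hu : u ∈ tri e.2 c) (hw : T.Reg (T.ex e.1 u) w) :
    u + w ∈ tri e.2 c ∨ ∃ τ ∈ Ico (0 : ℝ) 1, (∀ t', τ < t' → u + t' • w ∉ tri e.2 c) ∧
      ∃ g ∈ W, N g.2 ≤ a ∧ T.ex (T.ex e.1 u) (τ • w) ∈ T.pts g ∧ det w g.2 ≠ 0 := by
  rcases hK.exit e.1 e.2 c h.2.1 h.2.2.2.1 u hu w hw with h1 | ⟨τ, hτ, h1, h2, f, hf, h3, h4⟩
  · exact Or.inl h1
  · obtain ⟨g, hg, hN, hp, hd⟩ := sideL hB h f hf
    refine Or.inr ⟨τ, hτ, h2, g, hg, hN, ?_, ?_⟩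
    · rw [consL h0 h hu h1, hp]; exact h3
    · rcases hd with hd | hd <;> rw [hd]
      · exact h4
      · rw [det_neg_right]; exact neg_ne_zero.2 h4

theorem stepL (hB : Base T) (h0 : TK0) (hK : TK T) (h : Loc T N W a e c) {z : Y} {u u₀ : ℂ}
    (hz : T.Reg z u) {t : ℝ} (ht : t ∈ Ico (0 : ℝ) 1) (hu : u₀ ∈ tri e.2 c)
    (he : T.ex z (t • u) = T.ex e.1 u₀) :
    (∃ u₁ ∈ tri e.2 c, T.ex z u = T.ex e.1 u₁) ∨ ∃ t₁ ∈ Ico (0 : ℝ) 1,
      ((∃ η : ℝ, 0 < η ∧ u₀ + η • u ∈ tri e.2 c) → t < t₁) ∧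
      ∃ g ∈ W, N g.2 ≤ a ∧ T.ex z (t₁ • u) ∈ T.pts g ∧ det u g.2 ≠ 0 := by
  have hl := hB.line z u (Icc 0 1) (convex_Icc 0 1) ⟨le_rfl, zero_le_one⟩ hz t ⟨ht.1, ht.2.le⟩
  have h1 := hl 1 ⟨zero_le_one, le_rfl⟩
  have hp : 0 < 1 - t := sub_pos.2 ht.2
  rw [he] at h1 hl
  rcases exitL hB h0 hK h hu h1.1 with h2 | ⟨τ, hτ, h2, g, hg, hN, h3, h4⟩
  · refine Or.inl ⟨_, h2, ?_⟩
    rw [← consL h0 h hu h2, h1.2, one_smul]
  · have hm : t + τ * (1 - t) ∈ Ico (0 : ℝ) 1 :=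
      ⟨by nlinarith [ht.1, hτ.1], by nlinarith [hτ.2]⟩
    refine Or.inr ⟨t + τ * (1 - t), hm, ?_, g, hg, hN, ?_, ?_⟩
    · rintro ⟨η, hη, h5⟩
      have : 0 < τ := by
        refine lt_of_le_of_ne hτ.1 fun h6 => h2 (η / (1 - t)) (h6 ▸ div_pos hη hp) ?_
        rwa [smul_smul, div_mul_cancel₀ _ hp.ne']
      nlinarith
    · rw [← (hl _ ⟨hm.1, hm.2.le⟩).2, add_sub_cancel_left, ← smul_smul]
      exact h3
    · rw [det_smul_left] at h4
      exact right_ne_zero_of_mul h4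

theorem enterL {v c u : ℂ} {s α : ℝ} (h1 : 0 < s * det v c) (h2 : 0 < s * det v u)
    (hα : |α| < 1) : α • v ∈ tri v c ∧ ∃ η : ℝ, 0 < η ∧ α • v + η • u ∈ tri v c := by
  refine ⟨⟨α, 0, le_rfl, by linarith, hα, one_pos, by simp⟩, ?_⟩
  have hd : det v c ≠ 0 := by
    rintro h; rw [h, mul_zero] at h1; exact lt_irrefl _ h1
  have hs : s ≠ 0 := by
    rintro h; rw [h, zero_mul] at h1; exact lt_irrefl _ h1
  have hu := coord hd u
  set A := det u c / det v c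
  set β := det v u / det v c with hβ
  have hβ0 : 0 < β := by
    rw [hβ, ← mul_div_mul_left _ _ hs]
    exact div_pos h2 h1
  have hq : 0 < |A| + β + 1 := by positivity
  set η := (1 - |α|) / (2 * (|A| + β + 1)) with hη
  have hη0 : 0 < η := div_pos (by linarith) (by positivity)
  have h3 : η * (|A| + β + 1) = (1 - |α|) / 2 := by
    rw [hη]; field_simp
  have h4 : |α + η * A| ≤ |α| + η * |A| := by
    refine (abs_add_le _ _).trans ?_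
    rw [abs_mul, abs_of_pos hη0]
  have h5 : 0 < η * β := mul_pos hη0 hβ0
  have h6 : 0 ≤ η * |A| := mul_nonneg hη0.le (abs_nonneg _)
  refine ⟨η, hη0, α + η * A, η * β, h5.le, by nlinarith, by nlinarith,
    by nlinarith [abs_nonneg α], ?_⟩
  conv_lhs => rw [hu]
  module

theorem lastL (hB : Base T) (h0 : TK0) (hK : TK T) (h : Loc T N W a e c) (hW : T.PW W)
    {b : Y × ℂ} (hb : b ∈ W) {u : ℂ} (hu : u ∈ tri e.2 c) (he : b.1 = T.ex e.1 u) :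
    N b.2 ≤ 2 * a := by
  have hsc := hW.1 hb
  have key : ∀ t : ℝ, |t| < 1 → u + t • b.2 ∈ tri e.2 c := by
    intro t ht
    have h1 := (hB.sc_line b hsc 0 t (by simp) ht).1
    rw [zero_smul, T.ex0, sub_zero, he] at h1
    rcases exitL hB h0 hK h hu h1 with h2 | ⟨τ, hτ, -, g, hg, -, h3, h4⟩
    · exact h2
    · exfalso
      have h5 : T.ex (T.ex e.1 u) (τ • t • b.2) ∈ T.pts b := by
        refine ⟨τ * t, ?_, by rw [← he, smul_smul]⟩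
        rw [abs_mul, abs_of_nonneg hτ.1]
        nlinarith [hτ.1, hτ.2, abs_nonneg t]
      by_cases hbg : b = g
      · apply h4
        rw [← hbg, det_smul_left, det_self, mul_zero]
      · exact Set.disjoint_left.1 (hW.2 hb hg hbg) h5 h3
  have ha : 0 ≤ a := (apply_nonneg N _).trans h.2.2.1
  have k2 : ∀ t : ℝ, 0 ≤ t → t < 1 → t * N b.2 ≤ 2 * a := by
    intro t ht0 ht
    have h1 := normL h _ (key t (by rwa [abs_of_nonneg ht0]))
    have h2 := normL h _ (key (-t) (by rwa [abs_neg, abs_of_nonneg ht0]))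
    have h3 := map_sub_le_add N (u + t • b.2) (u + (-t) • b.2)
    have h4 : u + t • b.2 - (u + (-t) • b.2) = (2 * t) • b.2 := by module
    rw [h4, map_smul_eq_mul, Real.norm_eq_abs, abs_of_nonneg (by linarith)] at h3
    linarith
  by_contra hn
  push Not at hn
  have hp : 0 < N b.2 := by linarith
  have := k2 ((2 * a / N b.2 + 1) / 2) (by positivity)
    (by have := (div_lt_one hp).2 hn; linarith)
  have h7 : (2 * a / N b.2 + 1) / 2 * N b.2 = (2 * a + N b.2) / 2 := by field_simp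
  linarith

/-- The two signs. -/
def sg (s : Bool) : ℝ := if s then 1 else -1

theorem sg_ne (s : Bool) : sg s ≠ 0 := by cases s <;> simp [sg]

theorem sg_ex {x : ℝ} (hx : x ≠ 0) : ∃ s, 0 < sg s * x := by
  rcases lt_or_gt_of_ne hx with h | h
  · exact ⟨false, by simpa [sg] using h⟩
  · exact ⟨true, by simpa [sg] using h⟩

end ST2X

open ST2X in
theorem st2 (hb : RB) (hk : RTK) : RST2 := by
  classical
  intro Y _ T N B E a hW hD hN hC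
  have hB := hb Y T
  have h0 := hk.1
  have hK := hk.2 Y T
  have hc : ∀ e ∈ E, ∀ s : Bool, ∃ c, Loc T N (B ∪ E) a e c ∧ 0 < sg s * det e.2 c := by
    intro e he s
    obtain ⟨c, h1, h2, h3⟩ := hC e he (sg s) (sg_ne s)
    rw [union_comm] at h3
    exact ⟨c, ⟨Or.inr he, hW.1 (Or.inr he), hN e he, h1, h3⟩, h2⟩
  choose! c hc hs using hc
  set 𝒯 : Finset (Y × Set ℂ) :=
    (E ×ˢ (Finset.univ : Finset Bool)).image fun p => (p.1.1, tri p.1.2 (c p.1 p.2)) with h𝒯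
  have hmem : ∀ p, p ∈ 𝒯 ↔ ∃ e ∈ E, ∃ s, p = (e.1, tri e.2 (c e s)) := by
    intro p
    simp only [h𝒯, Finset.mem_image, Finset.mem_product, Finset.mem_univ, and_true]
    constructor
    · rintro ⟨q, hq, rfl⟩
      exact ⟨q.1, hq, q.2, rfl⟩
    · rintro ⟨e, he, s, rfl⟩
      exact ⟨(e, s), he, rfl⟩
  have hcov : ∀ z, z ∈ T.cov 𝒯 ↔ ∃ e ∈ E, ∃ s, ∃ u ∈ tri e.2 (c e s), z = T.ex e.1 u := by
    intro z
    constructor
    · rintro ⟨p, hp, u, hu, rfl⟩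
      obtain ⟨e, he, s, rfl⟩ := (hmem p).1 hp
      exact ⟨e, he, s, u, hu, rfl⟩
    · rintro ⟨e, he, s, u, hu, rfl⟩
      exact ⟨_, (hmem _).2 ⟨e, he, s, rfl⟩, u, hu, rfl⟩
  refine ⟨𝒯, ?_, ?_, ?_, ?_, ?_⟩
  · refine Finset.card_image_le.trans ?_
    rw [Finset.card_product, Finset.card_univ, Fintype.card_bool, mul_comm]
  · intro p hp
    obtain ⟨e, he, s, rfl⟩ := (hmem p).1 hp
    have h := hc e he s
    exact ⟨h0.conv _ _, h0.zero _ _, h.2.2.2.1.2.2, h0.meas _ _ h.2.2.2.1.2.1, normL h⟩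
  · rintro e he z ⟨t, ht, rfl⟩
    exact (hcov _).2 ⟨e, he, true, t • e.2, ⟨t, 0, le_rfl, by linarith, ht, one_pos, by simp⟩, rfl⟩
  · intro z hz u hu hbb
    set X : Set ℝ := {t | t ∈ Ico (0 : ℝ) 1 ∧ ∃ g ∈ E, det u g.2 ≠ 0 ∧ T.ex z (t • u) ∈ T.pts g}
      with hX
    have hfin : X.Finite := by
      have : ∀ g ∈ (E : Set (Y × ℂ)),
          {t | t ∈ Ico (0 : ℝ) 1 ∧ det u g.2 ≠ 0 ∧ T.ex z (t • u) ∈ T.pts g}.Finite := by
        intro g hg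
        by_cases hd : det u g.2 = 0
        · simp [hd]
        · exact (hB.cross z u (fun t ht => hu t ⟨ht.1, ht.2.le⟩) g (hW.1 (Or.inr hg)) hd).subset
            fun t ht => ⟨ht.1, ht.2.2⟩
      refine (E.finite_toSet.biUnion this).subset ?_
      rintro t ⟨ht, g, hg, h1, h2⟩
      exact mem_biUnion hg ⟨ht, h1, h2⟩
    have step : ∀ e ∈ E, ∀ s, ∀ t ∈ Ico (0 : ℝ) 1, ∀ u₀ ∈ tri e.2 (c e s),
        T.ex z (t • u) = T.ex e.1 u₀ → T.ex z u ∈ T.cov 𝒯 ∨ ∃ t₁ ∈ X,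
          ((∃ η : ℝ, 0 < η ∧ u₀ + η • u ∈ tri e.2 (c e s)) → t < t₁) := by
      intro e he s t ht u₀ hu₀ h
      rcases stepL hB h0 hK (hc e he s) hu ht hu₀ h with
        ⟨u₁, h1, h2⟩ | ⟨t₁, ht₁, h1, g, hg | hg, h2, h3, h4⟩
      · exact Or.inl ((hcov _).2 ⟨e, he, s, u₁, h1, h2⟩)
      · exact absurd h3 (hbb t₁ ⟨ht₁.1, ht₁.2.le⟩ g hg h2)
      · exact Or.inr ⟨t₁, ⟨ht₁, g, hg, h4, h3⟩, h1⟩
    rcases X.eq_empty_or_nonempty with hE | hE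
    · obtain ⟨e, he, s, u₀, hu₀, h⟩ := (hcov _).1 hz
      rcases step e he s 0 ⟨le_rfl, one_pos⟩ u₀ hu₀ (by rw [zero_smul, T.ex0, h]) with
        h1 | ⟨t₁, h1, -⟩
      · exact h1
      · rw [hE] at h1
        exact h1.elim
    · obtain ⟨t, ⟨ht, g, hg, hd, α, hα, h⟩, hmax⟩ := Set.exists_max_image X id hfin hE
      obtain ⟨s, hs'⟩ := sg_ex (x := det g.2 u) (by rw [det_comm]; exact neg_ne_zero.2 hd)
      obtain ⟨h1, h2⟩ := enterL (hs g hg s) hs' hα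
      rcases step g hg s t ht _ h1 h with h3 | ⟨t₁, h3, h4⟩
      · exact h3
      · exact absurd (h4 h2) (not_lt.2 (hmax t₁ h3))
  · intro b hb' hz
    obtain ⟨e, he, s, u, hu, h⟩ := (hcov _).1 hz
    exact lastL hB h0 hK (hc e he s) hW (Or.inl hb') hu h

end Pool.Agent.MP_16ecd2_an.H18
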