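import Pool.Agent.MP_16ecd2_an.H18.Kit

/-! The saddle connections after marking one more point. -/

set_option autoImplicit false

namespace Pool.Agent.MP_16ecd2_an.H18

open Set Filter Topology

namespace StepX

variable {X : Type} [TopologicalSpace X]

/-- The reversed segment. -/
def rev (c : C(unitInterval, X) × ℂ) : C(unitInterval, X) × ℂ :=
  (c.1.comp ⟨unitInterval.symm, unitInterval.continuous_symm⟩, -c.2)

lemma rev_rev (c : C(unitInterval, X) × ℂ) : rev (rev c) = c :=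
  Prod.ext (ContinuousMap.ext fun t => congrArg c.1 (unitInterval.symm_symm t)) (neg_neg _)

lemma symm_in {t : unitInterval} (h0 : 0 < t) (h1 : t < 1) :
    0 < unitInterval.symm t ∧ unitInterval.symm t < 1 := by
  have a : (0 : ℝ) < t := h0
  have b : (t : ℝ) < 1 := h1
  exact ⟨show (0 : ℝ) < 1 - t by linarith, show 1 - (t : ℝ) < 1 by linarith⟩

lemma rev_seg {S : TSurf X} {p q : X} {c : C(unitInterval, X) × ℂ} (h : c ∈ S.Seg p q) :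
    rev c ∈ S.Seg q p := by
  refine ⟨fun t h0 h1 => ?_, (congrArg c.1 unitInterval.symm_zero).trans h.2.2,
    (congrArg c.1 unitInterval.symm_one).trans h.2.1⟩
  obtain ⟨φ, h2, h3, h4⟩ := h.1 _ (symm_in h0 h1).1 (symm_in h0 h1).2
  refine ⟨φ, h2, h3, (unitInterval.continuous_symm.tendsto t).eventually h4 |>.mono fun s hs => ?_⟩
  refine hs.trans ?_
  change ((1 - s : ℝ) - (1 - t : ℝ)) • c.2 = ((s : ℝ) - t) • -c.2
  rw [smul_neg, ← neg_smul]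
  congr 1
  ring

lemma neg_sect (α β R : ℝ) (v : ℂ) :
    -v ∈ Sect α β R ↔ v ∈ Sect (α + Real.pi) (β + Real.pi) R := by
  constructor
  · rintro ⟨r, hr, θ, hθ, e⟩
    refine ⟨r, hr, θ + Real.pi, ⟨by linarith [hθ.1], by linarith [hθ.2]⟩, ?_⟩
    push_cast
    rw [add_mul, Complex.exp_add, Complex.exp_pi_mul_I]
    linear_combination -e
  · rintro ⟨r, hr, θ, hθ, e⟩
    refine ⟨r, hr, θ - Real.pi, ⟨by linarith [hθ.1], by linarith [hθ.2]⟩, ?_⟩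
    push_cast
    rw [sub_mul, Complex.exp_sub, Complex.exp_pi_mul_I, e]
    ring

lemma sect_norm {α β R : ℝ} {v : ℂ} (h : v ∈ Sect α β R) : ‖v‖ ≤ R := by
  obtain ⟨r, hr, θ, -, rfl⟩ := h
  rw [norm_mul, Complex.norm_exp_ofReal_mul_I, mul_one, Complex.norm_real, Real.norm_of_nonneg hr.1.le]
  exact hr.2

lemma seg_eq (S : TSurf X) (p q : X) (D : ℂ → Prop) :
    {c ∈ S.Seg p q | D c.2} = rev '' {c ∈ S.Seg q p | D (-c.2)} := by
  ext c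
  refine ⟨fun h => ⟨rev c, ⟨rev_seg h.1, ?_⟩, rev_rev c⟩, ?_⟩
  · simpa [rev] using h.2
  · rintro ⟨c, h, rfl⟩
    exact ⟨rev_seg h.1, h.2⟩

lemma avoid {S : TSurf X} {γ : C(unitInterval, X)} {v : ℂ} (h : S.Straight γ v) (t : unitInterval)
    (h0 : 0 < t) (h1 : t < 1) : γ t ∉ (S.Sig : Set X) :=
  let ⟨φ, a, b, _⟩ := h t h0 h1
  S.avoid φ a _ b

lemma split {S : TSurf X} (hb : Br S) {q : X} (hq : q ∉ S.Sig)
    (hc : ∀ c ∈ S.Conn S.Sig, ∀ t, c.1 t ≠ q) (D : ℂ → Prop) :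
    {c ∈ S.Conn (insert q (S.Sig : Set X)) | D c.2} = ({c ∈ S.Conn S.Sig | D c.2} ∪
      ⋃ σ ∈ (S.Sig : Set X), ({c ∈ S.Seg q σ | D c.2} ∪ {c ∈ S.Seg σ q | D c.2})) ∪
        {c ∈ S.Lp q | D c.2} := by
  ext c
  simp only [mem_union, mem_iUnion, mem_ofPred_eq]
  constructor
  · rintro ⟨⟨h1, h2, h3, h4, h5⟩, hD⟩
    rcases h3 with h3 | h3 <;> rcases h4 with h4 | h4
    · exact Or.inr ⟨⟨⟨h2, h3, h4⟩, h1, fun t a b e => h5 t a b (Or.inl e)⟩, hD⟩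
    · exact Or.inl (Or.inr ⟨_, h4, Or.inl ⟨⟨h2, h3, rfl⟩, hD⟩⟩)
    · exact Or.inl (Or.inr ⟨_, h3, Or.inr ⟨⟨h2, rfl, h4⟩, hD⟩⟩)
    · exact Or.inl (Or.inl ⟨⟨h1, h2, h3, h4, avoid h2⟩, hD⟩)
  · rintro ((⟨h, hD⟩ | ⟨σ, hσ, ⟨h, hD⟩ | ⟨h, hD⟩⟩) | ⟨h, hD⟩)
    · exact ⟨⟨h.1, h.2.1, Or.inr h.2.2.1, Or.inr h.2.2.2.1, fun t a b e =>
        e.elim (hc c h t) (avoid h.2.1 t a b)⟩, hD⟩
    · have := hb.once q σ hq hσ c h
      exact ⟨⟨this.1, h.1, Or.inl h.2.1, Or.inr (h.2.2 ▸ hσ), fun t a b e =>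
        e.elim (this.2 t a b) (avoid h.1 t a b)⟩, hD⟩
    · have := hb.once q σ hq hσ _ (rev_seg h)
      refine ⟨⟨neg_ne_zero.1 this.1, h.1, Or.inr (h.2.1 ▸ hσ), Or.inl h.2.2, fun t a b e =>
        e.elim (fun e => this.2 _ (symm_in a b).1 (symm_in a b).2 ?_) (avoid h.1 t a b)⟩, hD⟩
      exact (congrArg c.1 (unitInterval.symm_symm t)).trans e
    · exact ⟨⟨h.2.1, h.1.1, Or.inl h.1.2.1, Or.inl h.1.2.2, fun t a b e =>
        e.elim (h.2.2 t a b) (avoid h.1.1 t a b)⟩, hD⟩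

end StepX

open StepX in
theorem step (hr : RBr) : RStep := by
  intro X _ _ S q hq hc f1 f2 f3
  have f4 : ∀ σ ∈ S.Sig, Fin' (S.Seg σ q) := fun σ hσ R => by
    rw [seg_eq S σ q fun v => ‖v‖ ≤ R]
    simpa using (f2 σ hσ R).image rev
  refine ⟨fun R => ?_, fun α β R => ?_⟩
  · rw [split (hr X S) hq hc fun v => ‖v‖ ≤ R]
    exact ((f1 R).union (S.Sig.finite_toSet.biUnion fun σ hσ =>
      (f2 σ hσ R).union (f4 σ hσ R))).union (f3 R)
  have g : ∀ {Γ : Set (C(unitInterval, X) × ℂ)}, Fin' Γ → {c ∈ Γ | c.2 ∈ Sect α β R}.Finite :=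
    fun h => (h R).subset fun c hc => ⟨hc.1, sect_norm hc.2⟩
  have g2 : ∀ σ ∈ (S.Sig : Set X),
      ({c ∈ S.Seg q σ | c.2 ∈ Sect α β R} ∪ {c ∈ S.Seg σ q | c.2 ∈ Sect α β R}).Finite :=
    fun σ hσ => (g (f2 σ hσ)).union (g (f4 σ hσ))
  have g3 := S.Sig.finite_toSet.biUnion g2
  unfold cnt
  rw [split (hr X S) hq hc fun v => v ∈ Sect α β R, ncard_union_eq ?_ ((g f1).union g3) (g f3),
    ncard_union_eq ?_ (g f1) g3, S.Sig.finite_toSet.ncard_biUnion g2 ?_, finsum_mem_coe_finset]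
  · push_cast
    congr 2
    refine Finset.sum_congr rfl fun σ hσ => ?_
    rw [ncard_union_eq ?_ (g (f2 σ hσ)) (g (f4 σ hσ)), seg_eq S σ q fun v => v ∈ Sect α β R,
      ncard_image_of_injective _ (Function.LeftInverse.injective rev_rev)]
    · simp only [neg_sect, Nat.cast_add]
    · exact disjoint_left.2 fun c h h' => hq (h.1.2.1 ▸ h'.1.2.1 ▸ hσ)
  · intro σ hσ σ' hσ' e
    refine disjoint_left.2 ?_
    rintro c (h | h) (h' | h')
    · exact e (h.1.2.2.symm.trans h'.1.2.2)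
    · exact hq (h'.1.2.2 ▸ h.1.2.2 ▸ hσ)
    · exact hq (h'.1.2.1 ▸ h.1.2.1 ▸ hσ)
    · exact e (h.1.2.1.symm.trans h'.1.2.1)
  · refine disjoint_left.2 fun c h h' => ?_
    simp only [mem_iUnion] at h'
    obtain ⟨σ, -, h' | h'⟩ := h'
    · exact hc c h.1 0 h'.1.2.1
    · exact hc c h.1 1 h'.1.2.2
  · refine disjoint_left.2 ?_
    rintro c (h | h) h'
    · exact hc c h.1 0 h'.1.1.2.1
    · simp only [mem_iUnion] at h
      obtain ⟨σ, hσ, h | h⟩ := h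
      · exact hq (h'.1.1.2.2 ▸ h.1.2.2 ▸ hσ)
      · exact hq (h'.1.1.2.1 ▸ h.1.2.1 ▸ hσ)

end Pool.Agent.MP_16ecd2_an.H18
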