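import Pool.Agent.MP_16ecd2_an.H18.Kit

/-!
Row StepJ: the induction step for complexes with at least one edge.
-/

set_option autoImplicit false

namespace Pool.Agent.MP_16ecd2_an.H18

open MeasureTheory Set Filter Topology Metric
open scoped ENNReal

namespace StepJX

variable {Y : Type} [MeasurableSpace Y]

theorem jb_mono {T : TS Y} {g : ℂ →ₗ[ℝ] ℂ} {B : Set (Y × ℂ)} {R L₀ n Q Q' : ℝ} (h : Q ≤ Q')
    (hJ : T.JB g B R L₀ n Q) : T.JB g B R L₀ n Q' :=
  fun L hL J hn hJ' Γ hΓ => (hJ L hL J hn hJ' Γ hΓ).trans h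

theorem bd_short {T : TS Y} {g : ℂ →ₗ[ℝ] ℂ} {s y n : ℝ} (hs : T.Sys g s) (hy : y < s)
    (hn : 0 ≤ n) : T.Bd g ∅ y n := by
  intro Γ hΓ
  have : Γ = ∅ := Finset.eq_empty_of_forall_notMem fun γ hγ => by
    obtain ⟨h1, -, h2⟩ := hΓ hγ
    have h3 := hs γ h1
    rw [ng_apply] at h2
    linarith
  rw [this]
  simpa using hn

theorem core (hc : RCov) (h0 : RCov0) (hw : RWit) (T : TS Y) : ∃ C > 0, ∀ (j : ℕ) (K γ β' : ℝ),
    1 ≤ j → 0 ≤ K → 0 ≤ γ → γ < β' →
    (∀ (g : ℂ →ₗ[ℝ] ℂ) (B : Finset (Y × ℂ)) (s l : ℝ), SL g → T.PW B → B.card = j → 0 < s →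
      s ≤ 1 → T.Sys g s → 1 ≤ l → T.JB g B (l * s) (√l) (C * l) (K * l ^ γ)) → T.PP j β' := by
  obtain ⟨C, hC, hcov⟩ := hc Y T
  obtain ⟨M, hM⟩ := hw Y T
  refine ⟨C, hC, fun j K γ β' hj hK hγ hβ H => ?_⟩
  have hε : 0 < β' - γ := by linarith
  refine ⟨M + 2 * (C * (1 + 1 / (β' - γ)) * K * 2 ^ β'), by positivity, ?_⟩
  intro g hg s hs hs1 hsys B hB hcard l hl Γ hΓ
  have hl0 : 0 ≤ l := by linarith
  have hp : 1 ≤ l ^ β' := Real.one_le_rpow hl (by linarith)
  have hX : 0 ≤ C * (1 + 1 / (β' - γ)) * K * 2 ^ β' := by positivity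
  rcases hM g B s l Γ hg hs hsys hΓ with h | ⟨g', s', hg', hs', hss, hsys', hn, hw1, hw2⟩
  · have h1 : (Γ.card : ℝ) ≤ M := by exact_mod_cast h
    have h2 : (0 : ℝ) ≤ M := Nat.cast_nonneg M
    nlinarith
  have hl2 : 1 ≤ 2 * l := by linarith
  have hBn : B.Nonempty := Finset.card_pos.1 (by omega)
  have hQ : 0 ≤ K * (2 * l) ^ γ := by positivity
  have hg'' : SL (rot Complex.I ∘ₗ g') := (sl_rot (by simp)).comp hg'
  have hsys'' : T.Sys (rot Complex.I ∘ₗ g') s' := fun c hc => by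
    have := hsys' c hc
    simpa using this
  have H1 := hcov g' B s' (2 * l) _ hg' hB hBn hs' hsys' hl2 hQ hw1
    (H g' B s' (2 * l) hg' hB hcard hs' (by linarith) hsys' hl2)
  have H2 := hcov _ B s' (2 * l) _ hg'' hB hBn hs' hsys'' hl2 hQ hw2
    (H _ B s' (2 * l) hg'' hB hcard hs' (by linarith) hsys'' hl2)
  have H3 := (h0 Y T).2 g' B _ _ _ H1 H2 Γ fun c hc => by
    obtain ⟨h1, h2, -⟩ := hΓ hc
    exact ⟨h1, h2, hn c hc⟩
  have h4 : Real.log (2 * l) ≤ (2 * l) ^ (β' - γ) / (β' - γ) :=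
    Real.log_le_rpow_div (by linarith) hε
  have h5 : 1 ≤ (2 * l) ^ (β' - γ) := Real.one_le_rpow hl2 hε.le
  have h6 : 1 + Real.log (2 * l) ≤ (1 + 1 / (β' - γ)) * (2 * l) ^ (β' - γ) := by
    rw [add_mul, one_mul, one_div, inv_mul_eq_div]
    linarith
  have h7 : (2 * l) ^ (β' - γ) * (2 * l) ^ γ = 2 ^ β' * l ^ β' := by
    rw [← Real.rpow_add (by linarith), sub_add_cancel, Real.mul_rpow (by norm_num) hl0]
  have h8 : C * (1 + Real.log (2 * l)) * (K * (2 * l) ^ γ) ≤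
      C * (1 + 1 / (β' - γ)) * K * 2 ^ β' * l ^ β' := by
    calc C * (1 + Real.log (2 * l)) * (K * (2 * l) ^ γ)
        ≤ C * ((1 + 1 / (β' - γ)) * (2 * l) ^ (β' - γ)) * (K * (2 * l) ^ γ) := by gcongr
      _ = C * (1 + 1 / (β' - γ)) * K * ((2 * l) ^ (β' - γ) * (2 * l) ^ γ) := by ring
      _ = _ := by rw [h7]; ring
  have h9 : (0 : ℝ) ≤ M * l ^ β' := by positivity
  calc (Γ.card : ℝ) ≤ _ := H3
    _ ≤ 2 * (C * (1 + 1 / (β' - γ)) * K * 2 ^ β' * l ^ β') := by linarith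
    _ ≤ _ := by rw [add_mul]; linarith

end StepJX

open StepJX

theorem stepJ (hs : RSumJ) (hc : RCov) (h0 : RCov0) (hw : RWit) : RStepJ := by
  intro Y _ T j β hj hβ hP
  obtain ⟨A, hA, hP⟩ := hP
  obtain ⟨C, hC, H⟩ := core hc h0 hw T
  constructor
  · obtain ⟨C', -, hS⟩ := hs β (β + 2) (β + 2) hβ (by linarith) (by linarith) (by linarith)
      (by linarith)
    refine H j (2 * C + A * C * 40 ^ β) (β + 1) (β + 2) hj (by positivity) (by linarith)
      (by linarith) fun g B s l hg hB hcard hs0 hs1 hsys hl => ?_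
    have hl0 : 0 < l := by linarith
    have hq : 1 ≤ √l := Real.one_le_sqrt.2 hl
    refine jb_mono ?_ (hS Y T g B A s (l * s) (√l) (C * l) (s / 20) 0 0 hg hB hA (hcard ▸ hP) hs0
      hsys hq (by positivity) (by linarith) (by nlinarith) le_rfl le_rfl
      fun y _ hy => bd_short hsys (by linarith) (by simp))
    have h1 : (2 * (l * s)) ^ β * (s / 20) ^ (-β) = 40 ^ β * l ^ β := by
      rw [Real.rpow_neg (by positivity), ← div_eq_mul_inv,
        ← Real.div_rpow (by positivity) (by positivity), ← Real.mul_rpow (by norm_num) hl0.le]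
      congr 1
      field_simp
      norm_num
    have h2 : l ^ (β + 1) = l ^ β * l := Real.rpow_add_one hl0.ne' β
    have h3 : 1 ≤ l ^ β := Real.one_le_rpow hl hβ
    have h4 : A * (2 * (l * s)) ^ β * (C * l * (s / 20) ^ (-β) +
        C' * (0 * (s / 20) ^ (β + 2 - β) + 0 * (s / 20) ^ (β + 2 - β))) =
        A * C * 40 ^ β * (l ^ β * l) := by
      calc _ = A * C * l * ((2 * (l * s)) ^ β * (s / 20) ^ (-β)) := by ring
        _ = _ := by rw [h1]; ring
    have h5 : C * l ≤ C * (l ^ β * l) := by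
      have : l ≤ l ^ β * l := by nlinarith
      gcongr
    rw [h4, h2, add_mul]
    linarith
  · intro p β' hp hβp hβ' hP0
    obtain ⟨A₀, hA₀, hP0⟩ := hP0
    obtain ⟨C', hC', hS⟩ := hs β p p hβ hβp hβp (by linarith) (by linarith)
    have hp0 : 0 < p := by linarith
    have hp1 : 1 / p ≤ 1 / 2 := one_div_le_one_div_of_le (by norm_num) hp
    have hγ : 0 ≤ β * (1 - 1 / p) := mul_nonneg hβ (by linarith)
    refine H j (2 * C + A * 2 ^ β * (C + C' * A₀)) (1 + β * (1 - 1 / p)) β' hj (by positivity)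
      (by linarith) hβ' fun g B s l hg hB hcard hs0 hs1 hsys hl => ?_
    have hl0 : 0 < l := by linarith
    have hq : 1 ≤ √l := Real.one_le_sqrt.2 hl
    have hu : 0 < l ^ (1 / p) := Real.rpow_pos_of_pos hl0 _
    have hu1 : l ^ (1 / p) ≤ √l := by
      rw [Real.sqrt_eq_rpow]
      exact Real.rpow_le_rpow_of_exponent_le hl hp1
    have hu2 : l ^ (1 / p) ≤ l := by
      have := Real.rpow_le_rpow_of_exponent_le hl (show 1 / p ≤ 1 by linarith)
      rwa [Real.rpow_one] at this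
    have hsp : 0 < s ^ (-p) := Real.rpow_pos_of_pos hs0 _
    refine jb_mono ?_ (hS Y T g B A s (l * s) (√l) (C * l) (l ^ (1 / p) * s) (A₀ * s ^ (-p)) 0 hg
      hB hA (hcard ▸ hP) hs0 hsys hq (by positivity) (by nlinarith) (by nlinarith)
      (by positivity) le_rfl fun y hy0 _ => ?_)
    · have h1 : (2 * (l * s)) ^ β * (l ^ (1 / p) * s) ^ (-β) = 2 ^ β * l ^ (β * (1 - 1 / p)) := by
        rw [Real.rpow_neg (by positivity), ← div_eq_mul_inv,
          ← Real.div_rpow (by positivity) (by positivity), mul_comm β, Real.rpow_mul hl0.le,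
          ← Real.mul_rpow (by norm_num) (by positivity), Real.rpow_sub hl0, Real.rpow_one]
        congr 1
        field_simp
      have h2 : s ^ (-p) * (l ^ (1 / p) * s) ^ (p - β) = l * (l ^ (1 / p) * s) ^ (-β) := by
        rw [sub_eq_add_neg, Real.rpow_add (by positivity), Real.mul_rpow hu.le hs0.le,
          ← Real.rpow_mul hl0.le, one_div_mul_cancel hp0.ne', Real.rpow_one,
          Real.rpow_neg hs0.le p]
        have : s ^ p ≠ 0 := (Real.rpow_pos_of_pos hs0 _).ne'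
        field_simp
      have h3 : l ^ (1 + β * (1 - 1 / p)) = l * l ^ (β * (1 - 1 / p)) := by
        rw [Real.rpow_add hl0, Real.rpow_one]
      have h4 : 1 ≤ l ^ (β * (1 - 1 / p)) := Real.one_le_rpow hl hγ
      have h5 : A * (2 * (l * s)) ^ β * (C * l * (l ^ (1 / p) * s) ^ (-β) +
          C' * (A₀ * s ^ (-p) * (l ^ (1 / p) * s) ^ (p - β) + 0 * (l ^ (1 / p) * s) ^ (p - β))) =
          A * 2 ^ β * (C + C' * A₀) * (l * l ^ (β * (1 - 1 / p))) := by
        calc _ = A * (2 * (l * s)) ^ β * (C * l * (l ^ (1 / p) * s) ^ (-β) +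
              C' * A₀ * (s ^ (-p) * (l ^ (1 / p) * s) ^ (p - β))) := by ring
          _ = A * (C + C' * A₀) * l * ((2 * (l * s)) ^ β * (l ^ (1 / p) * s) ^ (-β)) := by
              rw [h2]; ring
          _ = _ := by rw [h1]; ring
      have h6 : C * l ≤ C * (l * l ^ (β * (1 - 1 / p))) := by
        have : l ≤ l * l ^ (β * (1 - 1 / p)) := by nlinarith
        gcongr
      rw [h5, h3, add_mul]
      linarith
    · by_cases hy : y < s
      · exact bd_short hsys hy (by positivity)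
      · have h1 := hP0 g hg s hs0 hs1 hsys ∅ ⟨by simp, by simp⟩ rfl (y / s)
          ((one_le_div hs0).2 (not_lt.1 hy))
        rw [div_mul_cancel₀ y hs0.ne', Finset.coe_empty] at h1
        have h2 : A₀ * s ^ (-p) * y ^ p + 0 * y ^ p = A₀ * (y / s) ^ p := by
          rw [Real.div_rpow hy0.le hs0.le, Real.rpow_neg hs0.le]
          ring
        rw [h2]
        exact h1

end Pool.Agent.MP_16ecd2_an.H18
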