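import Pool.Agent.MP_16ecd2_an.H18.Kit

/-!
Summation of the bounds over a family of short intervals of slopes.
-/

set_option autoImplicit false

namespace Pool.Agent.MP_16ecd2_an.H18

open Set

namespace SumJX

variable {Y : Type} [MeasurableSpace Y]

theorem im_le {L : ℝ} (hL : 1 ≤ L) (σ : ℝ) (w : ℂ) : |w.im| ≤ L * ‖ds L σ w‖ := by
  have h := Complex.abs_im_le_norm (ds L σ w)
  rwa [ds_im, abs_div, abs_of_pos (by linarith : 0 < L), div_le_iff₀' (by linarith)] at h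

theorem re_le {L : ℝ} (hL : 1 ≤ L) (σ : ℝ) (w : ℂ) : L * |w.re - σ * w.im| ≤ ‖ds L σ w‖ := by
  have h := Complex.abs_re_le_norm (ds L σ w)
  rwa [ds_re, abs_mul, abs_of_pos (by linarith : 0 < L)] at h

theorem norm_le {L σ : ℝ} (hL : 1 ≤ L) (hσ : |σ| ≤ 3) (w : ℂ) : ‖w‖ ≤ 5 * (L * ‖ds L σ w‖) := by
  have h1 := im_le hL σ w
  have h2 := re_le hL σ w
  have h3 := norm_le_re_im w
  have h4 : |w.re| ≤ |w.re - σ * w.im| + |σ| * |w.im| := by
    rw [← abs_mul]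
    simpa using abs_add_le (w.re - σ * w.im) (σ * w.im)
  have h5 := abs_nonneg (w.re - σ * w.im)
  have h6 := mul_le_mul_of_nonneg_right hσ (abs_nonneg w.im)
  have h7 := norm_nonneg (ds L σ w)
  nlinarith

theorem le_norm {L σ R : ℝ} (hL : 1 ≤ L) {w : ℂ} (h1 : |w.im| ≤ R)
    (h2 : |w.re - σ * w.im| ≤ |w.im| / L ^ 2) : ‖ds L σ w‖ ≤ 2 * R / L := by
  have L0 : 0 < L := by linarith
  refine (norm_le_re_im _).trans ?_
  rw [ds_re, ds_im, abs_mul, abs_div, abs_of_pos L0]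
  have h3 : L * |w.re - σ * w.im| ≤ |w.im| / L := by
    refine (mul_le_mul_of_nonneg_left h2 L0.le).trans (le_of_eq ?_)
    field_simp
  have h4 : |w.im| / L ≤ R / L := div_le_div_of_nonneg_right h1 L0.le
  rw [show 2 * R / L = R / L + R / L by ring]
  linarith

/-- The truncated systole after stretching. -/
theorem exists_u (T : TS Y) {g : ℂ →ₗ[ℝ] ℂ} {s L u₀ : ℝ} (hs : 0 < s) (hS : T.Sys g s)
    (hL : 1 ≤ L) (h0 : 0 < u₀) (σ : ℝ) : ∃ u : ℝ, |σ| ≤ 3 → 0 < u ∧ u ≤ u₀ ∧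
      T.Sys (ds L σ ∘ₗ g) (u / L) ∧
      ∀ y, u < u₀ → u < y → ∃ c ∈ T.SC, L * ‖ds L σ (g c.2)‖ < y := by
  set V : Set ℝ := insert u₀ ((fun c : Y × ℂ => L * ‖ds L σ (g c.2)‖) '' T.SC) with hV
  refine ⟨sInf V, fun hσ => ?_⟩
  have hne : V.Nonempty := insert_nonempty _ _
  have hlow : ∀ x ∈ V, min u₀ (s / 5) ≤ x := by
    rintro x (rfl | ⟨c, hc, rfl⟩)
    · exact min_le_left _ _
    · refine (min_le_right _ _).trans ?_
      have := (hS c hc).trans (norm_le hL hσ (g c.2))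
      simp only
      linarith
  have hbd : BddBelow V := ⟨_, hlow⟩
  refine ⟨(lt_min h0 (by positivity)).trans_le (le_csInf hne hlow),
    csInf_le hbd (mem_insert _ _), fun c hc => ?_, fun y h1 h2 => ?_⟩
  · rw [div_le_iff₀' (by linarith)]
    exact csInf_le hbd (mem_insert_of_mem _ ⟨c, hc, rfl⟩)
  · obtain ⟨x, hx | ⟨c, hc, rfl⟩, h⟩ := exists_lt_of_csInf_lt hne (lt_min h1 h2)
    · exact absurd (h.trans_le (min_le_left _ _)) (hx ▸ lt_irrefl _)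
    · exact ⟨c, hc, h.trans_le (min_le_right _ _)⟩

/-- The bound for one interval. -/
theorem one {T : TS Y} (hT : Base T) {g : ℂ →ₗ[ℝ] ℂ} {B : Finset (Y × ℂ)} {β A s l : ℝ}
    (hg : SL g) (hB : T.PW B) (hA : 0 ≤ A) (hP : T.PPc (B.card + 1) β A) (hs : 0 < s)
    (hs1 : s ≤ 1) (hS : T.Sys g s) (hl : 1 ≤ l) (hO : T.Out (ng g) B (l * s)) :
    T.Bd g B (l * s) (2 + A * l ^ β) := by
  classical
  intro Γ hΓ
  have hp : 0 ≤ A * l ^ β := mul_nonneg hA (Real.rpow_nonneg (by linarith) _)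
  rcases hO with h | ⟨b, b1, b2, b3⟩
  · rw [h, subset_empty_iff, Finset.coe_eq_empty] at hΓ
    rw [hΓ, Finset.card_empty, Nat.cast_zero]
    linarith
  have hb : b ∉ B := fun h => disjoint_left.1 (b2 b h) (hT.mid_mem b) (hT.mid_mem b)
  have h1 := hP g hg s hs hs1 hS (insert b B)
    (by
      rw [Finset.coe_insert]
      exact ⟨insert_subset b1 hB.1, hB.2.insert fun c hc _ => ⟨b2 c hc, (b2 c hc).symm⟩⟩)
    (Finset.card_insert_of_notMem hb) l hl (Γ \ {b, opp b}) fun γ hγ => by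
      obtain ⟨g1, g2⟩ := Finset.mem_sdiff.1 hγ
      obtain ⟨a1, a2, a3⟩ := hΓ g1
      refine ⟨a1, fun c hc => ?_, a3⟩
      rcases Finset.mem_insert.1 hc with rfl | hc
      · refine (b3 γ (hΓ g1)).resolve_right fun h => g2 ?_
        simpa using h
      · exact a2 c hc
  have h2 : Γ.card ≤ (Γ \ {b, opp b}).card + 2 :=
    Finset.card_le_card_sdiff_add_card.trans (Nat.add_le_add_left Finset.card_le_two _)
  have h3 : (Γ.card : ℝ) ≤ (Γ \ {b, opp b}).card + 2 := by exact_mod_cast h2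
  linarith

end SumJX

open SumJX

theorem sumJ (hb : RB) (hd : RDy) (hg : RGc) : RSumJ := by
  classical
  intro β p₁ p₂ hβ b1 b2 q1 q2
  obtain ⟨C₁, c1, hD⟩ := hd β p₁ p₂ hβ b1 b2
  obtain ⟨C₂, c2, hG⟩ := hg p₁ p₂ q1 q2
  have t1 : (0 : ℝ) < 2 ^ p₁ := by positivity
  have t2 : (0 : ℝ) < 2 ^ p₂ := by positivity
  refine ⟨C₁ * C₂ * (2 ^ p₁ + 2 ^ p₂), by positivity, ?_⟩
  intro Y _ T g B A s R L₀ n u₀ A₁ A₂ sl hB hA hP hs hS hL₀ h0 hu hR a1 a2 hBd L hL J hn hJ Γ hΓ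
  have L1 : 1 ≤ L := hL₀.trans hL
  have L0 : 0 < L := by linarith
  have R0 : 0 < 2 * R := by linarith
  choose u hU using fun a : ℤ => exists_u T hs hS L1 h0 (a / L ^ 2)
  replace hU := fun a ha => hU a (hJ a ha).1
  have s1 : (Γ.card : ℝ) ≤ ∑ a ∈ J, (2 + A * (2 * R) ^ β * u a ^ (-β)) := by
    have hsub : Γ ⊆ J.biUnion fun a => Γ.filter fun γ =>
        |(g γ.2).re - a / L ^ 2 * (g γ.2).im| ≤ |(g γ.2).im| / L ^ 2 := fun γ h => by
      obtain ⟨-, -, -, a, ha, h'⟩ := hΓ γ h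
      exact Finset.mem_biUnion.2 ⟨a, ha, Finset.mem_filter.2 ⟨h, h'⟩⟩
    refine (Nat.cast_le.2 ((Finset.card_le_card hsub).trans Finset.card_biUnion_le)).trans ?_
    rw [Nat.cast_sum]
    refine Finset.sum_le_sum fun a ha => ?_
    obtain ⟨u1, u2, u3, -⟩ := hU a ha
    have e : 2 * R / u a * (u a / L) = 2 * R / L := by field_simp
    have h := one (hb Y T) ((sl_ds L0.ne' (a / L ^ 2)).comp sl) hB hA hP (div_pos u1 L0)
      ((div_le_one L0).2 (by linarith)) u3 ((one_le_div u1).2 (u2.trans hR)) (e ▸ (hJ a ha).2)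
    rw [e, Real.div_rpow R0.le u1.le, div_eq_mul_inv ((2 * R) ^ β), ← Real.rpow_neg u1.le,
      ← mul_assoc] at h
    refine h _ fun γ hγ => ?_
    obtain ⟨g1, g2⟩ := Finset.mem_filter.1 hγ
    obtain ⟨d1, d2, d3, -⟩ := hΓ γ g1
    exact ⟨d1, d2, le_norm L1 d3 g2⟩
  have s2 := hD ℤ (J.filter fun a => u a < u₀) u u₀ (C₂ * 2 ^ p₁ * A₁) (C₂ * 2 ^ p₂ * A₂) h0
    (by positivity) (by positivity)
    (fun a ha => ⟨(hU a (Finset.mem_filter.1 ha).1).1, (Finset.mem_filter.1 ha).2.le⟩)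
    fun y y0 y1 => by
      refine (hG Y T g A₁ A₂ (2 * y) (1 / L ^ 2) _ sl a1 a2 (by linarith) (by positivity)
        ((div_le_one (by positivity)).2 (one_le_pow₀ L1))
        (fun z z0 z1 => hBd z z0 (by linarith)) fun a ha => ?_).trans (le_of_eq ?_)
      · obtain ⟨d1, d2⟩ := Finset.mem_filter.1 ha
        obtain ⟨d3, d4⟩ := Finset.mem_filter.1 d1
        obtain ⟨c, hc, h⟩ := (hU a d3).2.2.2 (2 * y) d4 (by linarith)
        rw [mul_one_div, mul_one_div]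
        refine ⟨(hJ a d3).1, c, hc, (im_le L1 _ _).trans h.le, ?_⟩
        rw [le_div_iff₀ (by positivity)]
        have := mul_le_mul_of_nonneg_left (re_le L1 (a / L ^ 2) (g c.2)) L0.le
        linarith
      · rw [Real.mul_rpow two_pos.le y0.le, Real.mul_rpow two_pos.le y0.le]
        ring
  have x0 : 0 < u₀ ^ (-β) := Real.rpow_pos_of_pos h0 _
  have s3 : ∑ a ∈ J.filter (fun a => ¬ u a < u₀), u a ^ (-β) ≤ n * u₀ ^ (-β) := by
    rw [Finset.sum_congr rfl (g := fun _ => u₀ ^ (-β)) fun a ha => by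
      obtain ⟨d1, d2⟩ := Finset.mem_filter.1 ha
      rw [le_antisymm (hU a d1).2.1 (not_lt.1 d2)], Finset.sum_const, nsmul_eq_mul]
    exact mul_le_mul_of_nonneg_right ((Nat.cast_le.2 (Finset.card_filter_le _ _)).trans hn) x0.le
  have x1 : 0 ≤ A₁ * u₀ ^ (p₁ - β) := mul_nonneg a1 (Real.rpow_nonneg h0.le _)
  have x2 : 0 ≤ A₂ * u₀ ^ (p₂ - β) := mul_nonneg a2 (Real.rpow_nonneg h0.le _)
  have s4 : ∑ a ∈ J, u a ^ (-β) ≤ n * u₀ ^ (-β) +
      C₁ * C₂ * (2 ^ p₁ + 2 ^ p₂) * (A₁ * u₀ ^ (p₁ - β) + A₂ * u₀ ^ (p₂ - β)) := by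
    rw [← Finset.sum_filter_add_sum_filter_not J fun a => u a < u₀]
    have k1 := mul_nonneg (mul_pos (mul_pos c1 c2) t2).le x1
    have k2 := mul_nonneg (mul_pos (mul_pos c1 c2) t1).le x2
    linarith
  rw [Finset.sum_add_distrib, Finset.sum_const, nsmul_eq_mul, ← Finset.mul_sum] at s1
  have s5 := mul_le_mul_of_nonneg_left s4 (mul_nonneg hA (Real.rpow_nonneg R0.le β))
  linarith

end Pool.Agent.MP_16ecd2_an.H18
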