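import Pool.Agent.MP_16ecd2_an.H18.Kit

set_option autoImplicit false

namespace Pool.Agent.MP_16ecd2_an.H18

open MeasureTheory Set Filter Topology Metric

theorem sweep : RSweep := by
  intro F P d hF hd h0
  let G : Set (ℝ × ℝ) := {x | 0 ≤ x.1 ∧ 0 < x.2 ∧ x.1 + x.2 ≤ 1 ∧ x.1 • P + x.2 • d ∈ F}
  have hG : G.Finite := by
    refine Finite.of_finite_image (f := fun x : ℝ × ℝ => x.1 • P + x.2 • d)
      ((hF (‖P‖ + ‖d‖)).subset ?_) fun x _ y _ e => Prod.ext (coord_uniq hd e).1 (coord_uniq hd e).2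
    rintro _ ⟨x, ⟨h1, h2, h3, h4⟩, rfl⟩
    refine ⟨h4, mem_closedBall_zero_iff.2 ((norm_add_le _ _).trans ?_)⟩
    rw [norm_smul, norm_smul, Real.norm_of_nonneg h1, Real.norm_of_nonneg h2.le]
    nlinarith [norm_nonneg P, norm_nonneg d]
  have key : ∀ τ : ℝ, 0 < τ → τ ≤ 1 → (∀ x ∈ G, τ ≤ x.2 / (1 - x.1)) →
      ∀ β γ : ℝ, 0 ≤ β → 0 ≤ γ → β + γ < 1 → β • P + γ • τ • d ∉ F := by
    intro τ h1 h2 h3 β γ hβ hγ hs hm
    rcases hγ.eq_or_lt with rfl | hγ'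
    · rw [zero_smul, add_zero] at hm
      exact h0 β ⟨hβ, by linarith⟩ hm
    · rw [smul_smul] at hm
      have := h3 (β, γ * τ) ⟨hβ, mul_pos hγ' h1, by nlinarith, hm⟩
      rw [le_div_iff₀ (by linarith)] at this
      nlinarith
  by_cases hne : ∃ x ∈ G, x.2 / (1 - x.1) < 1
  · obtain ⟨x₀, hx₀, -⟩ := hne
    obtain ⟨x, hx, hm⟩ := exists_min_image G (fun x => x.2 / (1 - x.1)) hG ⟨x₀, hx₀⟩
    obtain ⟨h1, h2, h3, h4⟩ := hx
    have h5 : 0 < 1 - x.1 := by linarith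
    have h6 : 0 < x.2 / (1 - x.1) := div_pos h2 h5
    have h7 : x.2 / (1 - x.1) ≤ 1 := by rw [div_le_one h5]; linarith
    refine ⟨_, ⟨h6, h7⟩, key _ h6 h7 hm, Or.inr ⟨x.1, 1 - x.1, h1, h5, by ring, ?_⟩⟩
    rw [smul_smul, mul_div_cancel₀ _ h5.ne']
    exact h4
  · refine ⟨1, ⟨one_pos, le_rfl⟩, key 1 one_pos le_rfl fun x hx => ?_, Or.inl rfl⟩
    by_contra h
    exact hne ⟨x, hx, not_le.1 h⟩

end Pool.Agent.MP_16ecd2_an.H18
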