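import Pool.Agent.MP_16ecd2_an.H18.Kit

/-!
Triangles on a saddle connection: sides, boundary and exit points.
-/

set_option autoImplicit false

namespace Pool.Agent.MP_16ecd2_an.H18

open MeasureTheory Set Filter Topology Metric

namespace TKX

variable {Y : Type} [MeasurableSpace Y] {T : TS Y} {x : Y} {v c : ℂ}

theorem lin (v c : ℂ) (a g a₁ g₁ α β : ℝ) : α • (a • v + g • c) + β • (a₁ • v + g₁ • c) =
    (α * a + β * a₁) • v + (α * g + β * g₁) • c := by module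

theorem lin1 (v c : ℂ) (a g a₁ g₁ t : ℝ) :
    a • v + g • c + t • (a₁ • v + g₁ • c) = (a + t * a₁) • v + (g + t * g₁) • c := by module

theorem neg (h : T.Tri x v c) (h0 : TK0) : T.Tri x (-v) c :=
  ⟨h.1, by rw [det_neg_left]; exact neg_ne_zero.2 h.2.1, by rw [h0.neg]; exact h.2.2⟩

theorem sc (hb : Base T) (hv : (x, v) ∈ T.SC) (h : T.Tri x v c) : T.sd x v c ∈ T.SC ∧
    T.pts (T.sd x v c) = {z | ∃ γ ∈ Ioo (0 : ℝ) 1, z = T.ex x ((1 - γ) • v + γ • c)} := by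
  obtain ⟨h1, h2⟩ := hb.mk_sc x v c hv.1 h.1 fun α β a0 b0 ab a1 b1 =>
    disjoint_left.1 h.2.2 ⟨α, β, b0, by rwa [abs_of_nonneg a0], by rwa [abs_of_nonneg a0], b1, rfl⟩
  refine ⟨h1, Set.ext fun z => ⟨?_, ?_⟩⟩
  · rintro ⟨t, ht, rfl⟩
    refine ⟨(1 + t) / 2, ⟨by linarith [abs_lt.1 ht], by linarith [abs_lt.1 ht]⟩,
      (h2 t ht).trans (congrArg _ ?_)⟩
    module
  · rintro ⟨γ, hγ, rfl⟩
    have ht : |2 * γ - 1| < 1 := abs_lt.2 ⟨by linarith [hγ.1], by linarith [hγ.2]⟩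
    refine ⟨_, ht, ((h2 _ ht).trans (congrArg _ ?_)).symm⟩
    module

theorem det_sd (v c : ℂ) (a g : ℝ) :
    det (a • v + g • c) ((1 / 2 : ℝ) • (c - v)) = (a + g) / 2 * det v c := by
  simp [det]; ring

theorem ev_pos {A : ℝ} (B : ℝ) (h : 0 < A) : ∀ᶠ t in 𝓝[>] (0 : ℝ), 0 < A + t * B :=
  mem_nhdsWithin_of_mem_nhds
    ((isOpen_lt continuous_const (by fun_prop : Continuous fun t : ℝ => A + t * B)).mem_nhds
      (by simpa using h))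

theorem side (hb : Base T) (h0 : TK0) (hv : (x, v) ∈ T.SC) (h : T.Tri x v c) {f : Y × ℂ}
    (hf : f ∈ T.SC) (hu : ∀ u ∈ itri v c, T.ex x u ∉ T.pts f) :
    T.Dis (T.sd x v c) f ∨ f = T.sd x v c ∨ f = opp (T.sd x v c) := by
  refine or_iff_not_imp_left.2 fun hd => hb.par _ (sc hb hv h).1 f hf ?_ hd
  by_contra hn
  obtain ⟨z, hz, hz'⟩ := not_disjoint_iff.1 hd
  rw [(sc hb hv h).2] at hz
  obtain ⟨γ, ⟨g0, g1⟩, rfl⟩ := hz
  obtain ⟨a₁, g₁, e⟩ : ∃ a₁ g₁ : ℝ, f.2 = a₁ • v + g₁ • c := ⟨_, _, coord h.2.1 _⟩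
  have hs : a₁ + g₁ ≠ 0 := fun h1 => hn (by
    rw [det_comm, e, TS.sd, det_sd, h1]; simp)
  obtain ⟨δ, ⟨p1, p2⟩, p3⟩ := (((ev_pos (-(a₁ + g₁) * a₁) (sub_pos.2 g1)).and
    (ev_pos (-(a₁ + g₁) * g₁) g0)).and self_mem_nhdsWithin).exists
  have p4 := mul_pos (show 0 < δ from p3) (mul_self_pos.2 hs)
  have m1 : (1 - γ) • v + γ • c ∈ tri v c := ⟨_, _, g0.le, by
    rw [abs_of_pos (sub_pos.2 g1)]; linarith, by rw [abs_of_pos (sub_pos.2 g1)]; linarith, g1, rfl⟩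
  have m2 : (1 - γ) • v + γ • c + (-(δ * (a₁ + g₁))) • f.2 ∈ itri v c :=
    ⟨1 - γ + -(δ * (a₁ + g₁)) * a₁, γ + -(δ * (a₁ + g₁)) * g₁, by linarith,
      by rw [abs_of_pos (by linarith)]; linarith, by rw [e, lin1]⟩
  have := hb.sc_run f hf _ hz' _ (hb.reg x _ (h0.conv v c) (h0.zero v c) h.2.2 _ m1 _ (h0.sub v c m2))
  rw [(T.cons x _ (h0.conv v c) (h0.zero v c) h.2.2 _ m1 _ (h0.sub v c m2)).2] at this
  exact hu _ m2 this

theorem on_base (a : ℝ) (ha : |a| < 1) : T.ex x (a • v + (0 : ℝ) • c) ∈ T.pts (x, v) :=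
  ⟨a, ha, by simp⟩

theorem on_side (hb : Base T) (hv : (x, v) ∈ T.SC) (h : T.Tri x v c) {a g : ℝ} (ha : a < 1)
    (hg : g < 1) (e : a + g = 1) : T.ex x (a • v + g • c) ∈ T.pts (T.sd x v c) := by
  rw [(sc hb hv h).2]
  exact ⟨g, ⟨by linarith, hg⟩, by rw [← e, add_sub_cancel_right]⟩

theorem on_side' (hb : Base T) (h0 : TK0) (hv : (x, v) ∈ T.SC) (h : T.Tri x v c) {a g : ℝ}
    (ha : -a < 1) (hg : g < 1) (e : -a + g = 1) :
    T.ex x (a • v + g • c) ∈ T.pts (T.sd x (-v) c) := by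
  simpa using on_side hb (hb.sc_opp _ hv) (neg h h0) ha hg e

theorem bdry (hb : Base T) (h0 : TK0) (hv : (x, v) ∈ T.SC) (h : T.Tri x v c) {u : ℂ}
    (hu : u ∈ tri v c) : u ∈ itri v c ∨
    ∃ f ∈ ({(x, v), T.sd x v c, T.sd x (-v) c} : Set (Y × ℂ)), T.ex x u ∈ T.pts f := by
  obtain ⟨a, g, g0, ag, a1, g1, rfl⟩ := hu
  rcases g0.eq_or_lt with rfl | g0
  · exact Or.inr ⟨_, Or.inl rfl, on_base a a1⟩
  rcases ag.eq_or_lt with e | ag
  · rcases abs_cases a with p | p <;> rw [p.1] at e a1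
    · exact Or.inr ⟨_, Or.inr (Or.inl rfl), on_side hb hv h a1 g1 e⟩
    · exact Or.inr ⟨_, Or.inr (Or.inr rfl), on_side' hb h0 hv h a1 g1 e⟩
  · exact Or.inl ⟨a, g, g0, ag, rfl⟩

theorem mix {u : ℂ} (hu : u ∈ tri v c) {a' g' α β : ℝ} (g0' : 0 ≤ g') (ag' : |a'| + g' ≤ 1)
    (a0 : 0 ≤ α) (b0 : 0 ≤ β) (ab : α + β ≤ 1) (b1 : β < 1) :
    α • u + β • (a' • v + g' • c) ∈ tri v c := by
  obtain ⟨a, g, g0, ag, a1, g1, rfl⟩ := hu
  have k : |α * a + β * a'| ≤ α * |a| + β * |a'| := by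
    simpa only [abs_mul, abs_of_nonneg a0, abs_of_nonneg b0] using abs_add_le (α * a) (β * a')
  have s : ∀ y y' : ℝ, 0 ≤ y → y < 1 → y' ≤ 1 → α * y + β * y' < 1 := fun y y' y0 y1 y2 => by
    have := mul_le_mul_of_nonneg_left y2 b0
    have := mul_le_mul_of_nonneg_right (show α ≤ 1 - β by linarith) y0
    have := mul_lt_mul_of_pos_left y1 (sub_pos.2 b1)
    linarith
  refine ⟨_, _, by positivity, ?_, k.trans_lt (s _ _ (abs_nonneg a) a1 (by linarith)),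
    s _ _ g0 g1 (by linarith [abs_nonneg a']), lin ..⟩
  have := mul_le_mul_of_nonneg_left ag a0
  have := mul_le_mul_of_nonneg_left ag' b0
  linarith

theorem ev_le {A B s : ℝ} (h : 0 ≤ A + s * B) (h' : ¬ (A + s * B = 0 ∧ B < 0)) :
    ∀ᶠ t in 𝓝[>] s, 0 ≤ A + t * B := by
  rcases h.eq_or_lt with e | h
  · filter_upwards [self_mem_nhdsWithin] with t ht
    have := mul_le_mul_of_nonneg_right (le_of_lt ht) (not_lt.1 fun b => h' ⟨e.symm, b⟩)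
    linarith
  · exact mem_nhdsWithin_of_mem_nhds (mem_of_superset
      ((isOpen_lt continuous_const (by fun_prop : Continuous fun t : ℝ => A + t * B)).mem_nhds h)
      fun t (ht : 0 < A + t * B) => ht.le)

theorem back {A B t : ℝ} (h : 0 ≤ A) (h' : 0 ≤ A + t * B) (ht : 1 ≤ t) : 0 ≤ A + 1 * B := by
  by_contra hn
  nlinarith

theorem exit (hb : Base T) (h0 : TK0) (hv : (x, v) ∈ T.SC) (h : T.Tri x v c) {u : ℂ}
    (hu : u ∈ tri v c) {w : ℂ} (hw : T.Reg (T.ex x u) w) :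
    u + w ∈ tri v c ∨ ∃ t ∈ Ico (0 : ℝ) 1, u + t • w ∈ tri v c ∧
      (∀ t', t < t' → u + t' • w ∉ tri v c) ∧
      ∃ f ∈ ({(x, v), T.sd x v c, T.sd x (-v) c} : Set (Y × ℂ)),
        T.ex x (u + t • w) ∈ T.pts f ∧ det w f.2 ≠ 0 := by
  obtain ⟨a₁, g₁, rfl⟩ : ∃ a₁ g₁ : ℝ, w = a₁ • v + g₁ • c := ⟨_, _, coord h.2.1 _⟩
  obtain ⟨a, g, g0, ag, a1, g1, e⟩ := id hu
  have hd := h.2.1
  let cl : ℝ → Prop := fun t => 0 ≤ g + t * g₁ ∧ 0 ≤ 1 - a - g + t * (-a₁ - g₁) ∧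
    0 ≤ 1 + a - g + t * (a₁ - g₁)
  have c0 : 0 ≤ 1 - a - g ∧ 0 ≤ 1 + a - g :=
    ⟨by linarith [le_abs_self a], by linarith [neg_abs_le a]⟩
  have hc0 : ∀ A B : ℝ, IsClosed {t : ℝ | 0 ≤ A + t * B} := fun A B =>
    isClosed_le continuous_const (by fun_prop)
  have hc : IsClosed {t | cl t} := (hc0 _ _).inter ((hc0 _ _).inter (hc0 _ _))
  obtain ⟨t, ⟨⟨t0, t1⟩, k1, k2, k3⟩, hm⟩ := ((isCompact_Icc (a := (0 : ℝ)) (b := 1)).inter_right
    hc).exists_isGreatest ⟨0, ⟨le_rfl, zero_le_one⟩, by simpa using g0, by simpa using c0.1,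
      by simpa using c0.2⟩
  have k4 : |a + t * a₁| + (g + t * g₁) ≤ 1 := by
    rcases abs_cases (a + t * a₁) with p | p <;> linarith [p.1]
  have nv : (a + t * a₁) • v + (g + t * g₁) • c ∉ T.S x := fun hS => by
    have := hb.tr x u _ hS fun α β a0 b0 ab b1 => disjoint_left.1 h.2.2 (mix hu k1 k4 a0 b0 ab b1)
    rw [← lin1, ← e, add_sub_cancel_left] at this
    exact hw t ⟨t0, t1⟩ this
  have k5 : |a + t * a₁| < 1 := by
    refine lt_of_le_of_ne (by linarith) fun p => nv ?_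
    have z : g + t * g₁ = 0 := by linarith
    rcases (abs_eq zero_le_one).1 p with q | q <;> rw [q, z]
    · simpa using hv.1
    · simpa using hv.2
  have k6 : g + t * g₁ < 1 := by
    refine lt_of_le_of_ne (by linarith [abs_nonneg (a + t * a₁)]) fun p => nv ?_
    have z : a + t * a₁ = 0 := abs_nonpos_iff.1 (by linarith)
    rw [p, z]
    simpa using h.1
  have m : u + t • (a₁ • v + g₁ • c) ∈ tri v c := ⟨_, _, k1, k4, k5, k6, by rw [e, lin1]⟩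
  rcases t1.eq_or_lt with rfl | t1
  · exact Or.inl (by simpa using m)
  have no : ∀ t', t < t' → ¬ cl t' := fun t' ht hc => by
    rcases le_total t' 1 with p | p
    · exact ht.not_ge (hm ⟨⟨t0.trans ht.le, p⟩, hc⟩)
    · exact t1.not_ge (hm ⟨⟨zero_le_one, le_rfl⟩, back g0 hc.1 p, back c0.1 hc.2.1 p,
        back c0.2 hc.2.2 p⟩)
  refine Or.inr ⟨t, ⟨t0, t1⟩, m, fun t' ht ⟨a', g', q0, q1, _, _, q⟩ => no t' ht ?_, ?_⟩
  · rw [e, lin1] at q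
    obtain ⟨rfl, rfl⟩ := coord_uniq hd q
    exact ⟨q0, by linarith [le_abs_self (a + t' * a₁)], by linarith [neg_abs_le (a + t' * a₁)]⟩
  rw [e, lin1]
  by_cases p1 : g + t * g₁ = 0 ∧ g₁ < 0
  · refine ⟨_, Or.inl rfl, p1.1 ▸ on_base _ k5, ?_⟩
    rw [det_add_left, det_smul_left, det_smul_left, det_self, det_comm]
    simpa using ⟨p1.2.ne, hd⟩
  by_cases p2 : 1 - a - g + t * (-a₁ - g₁) = 0 ∧ -a₁ - g₁ < 0
  · refine ⟨_, Or.inr (Or.inl rfl), on_side hb hv h (abs_lt.1 k5).2 k6 (by linarith [p2.1]), ?_⟩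
    rw [TS.sd, det_sd]
    exact mul_ne_zero (by linarith [p2.2] : 0 < (a₁ + g₁) / 2).ne' hd
  by_cases p3 : 1 + a - g + t * (a₁ - g₁) = 0 ∧ a₁ - g₁ < 0
  · refine ⟨_, Or.inr (Or.inr rfl), on_side' hb h0 hv h (by linarith [(abs_lt.1 k5).1]) k6
      (by linarith [p3.1]), ?_⟩
    rw [TS.sd, ← neg_smul_neg a₁ v, det_sd]
    exact mul_ne_zero (by linarith [p3.2] : 0 < (-a₁ + g₁) / 2).ne' (neg h h0).2.1
  obtain ⟨t', p, q⟩ := (((ev_le k1 p1).and ((ev_le k2 p2).and (ev_le k3 p3))).and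
    self_mem_nhdsWithin).exists
  exact absurd p (no t' q)

end TKX

theorem tk (hb : RB) (h0 : TK0) : RTK :=
  ⟨h0, fun Y _ T => ⟨fun _ _ _ h => TKX.neg h h0, fun _ _ _ hv h => TKX.sc (hb Y T) hv h,
    fun _ _ _ hv h _ hf hu => TKX.side (hb Y T) h0 hv h hf hu,
    fun _ _ _ hv h _ hu => TKX.bdry (hb Y T) h0 hv h hu,
    fun _ _ _ hv h _ hu _ hw => TKX.exit (hb Y T) h0 hv h hu hw⟩⟩

end Pool.Agent.MP_16ecd2_an.H18
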