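import Pool.Agent.MP_16ecd2_an.H18.Kit

/-!
Planar facts on triangles.
-/

set_option autoImplicit false

namespace Pool.Agent.MP_16ecd2_an.H18

open Set

namespace TK0X

theorem pre {v c : ℂ} (h : det v c ≠ 0) (Q : ℝ → ℝ → Prop) (u : ℂ) :
    (∃ a γ, Q a γ ∧ u = a • v + γ • c) ↔ Q (det u c / det v c) (det v u / det v c) := by
  refine ⟨fun ⟨a, γ, h1, h2⟩ => ?_, fun h1 => ⟨_, _, h1, coord h u⟩⟩
  obtain ⟨e1, e2⟩ := coord_uniq h ((coord h u).symm.trans h2)
  rwa [e1, e2]

theorem lt_one {s t x y : ℝ} (hs : 0 ≤ s) (ht : 0 ≤ t) (h : s + t = 1) (hx : x < 1) (hy : y < 1) :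
    s * x + t * y < 1 := convex_Iio (𝕜 := ℝ) (1 : ℝ) hx hy hs ht h

end TK0X

open TK0X in
theorem tk0 : TK0 where
  conv v c := by
    rintro _ ⟨a, γ, h1, h2, h3, h4, rfl⟩ _ ⟨a', γ', h1', h2', h3', h4', rfl⟩ s t hs ht hst
    have h := abs_add_le (s * a) (t * a')
    rw [abs_mul, abs_mul, abs_of_nonneg hs, abs_of_nonneg ht] at h
    refine ⟨s * a + t * a', s * γ + t * γ', by positivity, ?_,
      h.trans_lt (lt_one hs ht hst h3 h3'), lt_one hs ht hst h4 h4', by module⟩
    linarith [mul_le_mul_of_nonneg_left h2 hs, mul_le_mul_of_nonneg_left h2' ht]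
  zero v c := ⟨0, 0, by simp⟩
  neg v c := Set.ext fun u => ⟨fun ⟨a, γ, h⟩ => ⟨-a, γ, by simpa using h⟩,
    fun ⟨a, γ, h⟩ => ⟨-a, γ, by simpa using h⟩⟩
  ineg v c := Set.ext fun u => ⟨fun ⟨a, γ, h⟩ => ⟨-a, γ, by simpa using h⟩,
    fun ⟨a, γ, h⟩ => ⟨-a, γ, by simpa using h⟩⟩
  sub v c := fun u ⟨a, γ, h1, h2, h3⟩ =>
    ⟨a, γ, h1.le, h2.le, by linarith, by linarith [abs_nonneg a], h3⟩
  meas v c h := by
    have c1 : Continuous fun u => det u c / det v c := by unfold det; fun_prop
    have c2 : Continuous fun u => det v u / det v c := by unfold det; fun_prop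
    have e : tri v c = {u | 0 ≤ det v u / det v c} ∩ {u | |det u c / det v c| + det v u / det v c ≤ 1}
        ∩ {u | |det u c / det v c| < 1} ∩ {u | det v u / det v c < 1} := Set.ext fun u => by
      simpa only [and_assoc, tri, mem_inter_iff, mem_ofPred_eq] using
        pre h (fun a γ => 0 ≤ γ ∧ |a| + γ ≤ 1 ∧ |a| < 1 ∧ γ < 1) u
    rw [e]
    exact (((isClosed_le continuous_const c2).measurableSet.inter
      (isClosed_le (c1.abs.add c2) continuous_const).measurableSet).inter
      (isOpen_lt c1.abs continuous_const).measurableSet).inter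
      (isOpen_lt c2 continuous_const).measurableSet
  opn v c h := by
    have c1 : Continuous fun u => det u c / det v c := by unfold det; fun_prop
    have c2 : Continuous fun u => det v u / det v c := by unfold det; fun_prop
    have e : itri v c = {u | 0 < det v u / det v c} ∩
        {u | |det u c / det v c| + det v u / det v c < 1} := Set.ext fun u => by
      simpa only [and_assoc, itri, mem_inter_iff, mem_ofPred_eq] using
        pre h (fun a γ => 0 < γ ∧ |a| + γ < 1) u
    rw [e]
    exact (isOpen_lt continuous_const c2).inter (isOpen_lt (c1.abs.add c2) continuous_const)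

end Pool.Agent.MP_16ecd2_an.H18
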