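import Pool.Agent.MP_16ecd2_an.H18.Kit

/-!
Row TL: the triangle lemma.
-/

set_option autoImplicit false

namespace Pool.Agent.MP_16ecd2_an.H18

open Set

namespace TLX

variable {Y : Type} [MeasurableSpace Y]

theorem comb (v z : ℂ) (a γ a' γ' : ℝ) :
    a' • v + γ' • (a • v + γ • z) = (a' + γ' * a) • v + (γ' * γ) • z := by
  rw [smul_add, smul_smul, smul_smul, add_smul, add_assoc]

theorem bnd {a γ a' γ' : ℝ} (h : |a| + γ = 1) (h' : 0 ≤ γ') :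
    |a' + γ' * a| + γ' * γ ≤ |a'| + γ' := by
  have h1 := abs_add_le a' (γ' * a)
  rw [abs_mul, abs_of_nonneg h'] at h1
  have h2 : γ' * |a| + γ' * γ = γ' := by rw [← mul_add, h, mul_one]
  linarith

theorem det_comb (v z : ℂ) (a γ : ℝ) : det v (a • v + γ • z) = γ * det v z := by
  rw [det_add_right, det_smul_right, det_smul_right, det_self, mul_zero, zero_add]

theorem term {T : TS Y} {W : Set (Y × ℂ)} {x : Y} {v z : ℂ} (hg : T.Good W x v z)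
    (ht : T.Term x v z) : ∃ a γ : ℝ, 0 < γ ∧ |a| + γ = 1 ∧ T.Tri x v (a • v + γ • z) ∧
      T.WFree W x v (a • v + γ • z) := by
  have hfin : {γ : ℝ | 0 < γ ∧ ∃ a : ℝ, |a| + γ = 1 ∧ a • v + γ • z ∈ T.S x}.Finite := by
    refine ((T.fin x (‖v‖ + ‖z‖)).image fun u => det v u / det v z).subset ?_
    rintro γ ⟨h1, a, h2, h3⟩
    refine ⟨_, ⟨h3, ?_⟩, by beta_reduce; rw [det_comb, mul_div_cancel_right₀ _ hg.1]⟩
    rw [mem_closedBall_zero_iff]
    refine (norm_add_le _ _).trans (add_le_add ?_ ?_)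
    · rw [norm_smul, Real.norm_eq_abs]
      exact mul_le_of_le_one_left (norm_nonneg _) (by linarith)
    · rw [norm_smul, Real.norm_eq_abs, abs_of_pos h1]
      exact mul_le_of_le_one_left (norm_nonneg _) (by linarith [abs_nonneg a])
  obtain ⟨a₀, γ₀, k1, k2, k3⟩ := ht
  obtain ⟨γ, ⟨h1, a, h2, h3⟩, hmin⟩ := exists_min_image _ id hfin ⟨γ₀, k1, a₀, k2, k3⟩
  refine ⟨a, γ, h1, h2, ⟨h3, ?_, ?_⟩, ?_⟩
  · rw [det_comb]
    exact mul_ne_zero h1.ne' hg.1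
  · rw [disjoint_left]
    rintro _ ⟨a', γ', h4, h5, h6, h7, rfl⟩ h8
    rw [comb] at h8
    rcases ((bnd (a' := a') h2 h4).trans h5).lt_or_eq with h9 | h9
    · exact hg.2.1 _ _ (mul_nonneg h4 h1.le) h9 h8
    · rcases h4.lt_or_eq with h10 | h10
      · have h11 : γ ≤ γ' * γ := hmin _ ⟨mul_pos h10 h1, _, h9, h8⟩
        nlinarith
      · rw [← h10, zero_mul, zero_mul, add_zero, add_zero] at h9
        exact h6.ne h9
  · rintro _ ⟨a', γ', h4, h5, rfl⟩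
    rw [comb]
    exact hg.2.2 _ ⟨_, _, mul_pos h4 h1, (bnd h2 h4.le).trans_lt h5, rfl⟩

end TLX

open TLX in
theorem tl (hb : RB) (h1 : RTL1) (h2 : RTL2) : RTL := by
  intro Y _ T W hW hp x v hv t₀ ht d hd hdet
  have _ := hb
  obtain ⟨τ, hτ, hg, h⟩ := h1 Y T W hW hp x v hv t₀ ht d hd hdet
  by_cases hT : T.Term x v (t₀ • v + τ • d)
  · obtain ⟨a, γ, k1, k2, k3, k4⟩ := term hg hT
    refine ⟨_, k3, k4, ?_, a, γ, τ, _, rfl, k1, k2.le, hτ, Or.inl rfl⟩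
    rw [det_comb, det_comb, mul_assoc, mul_assoc]
    exact mul_pos k1 (mul_pos hτ.1 (mul_self_pos.2 hdet))
  · obtain ⟨h3, h4, f, hf, h5⟩ := h.resolve_left hT
    obtain ⟨l, hl, hg', hT', h6⟩ := h2 Y T W hp x v _ hv hg hT f hf h5
    obtain ⟨a, γ, k1, k2, k3, k4⟩ := term hg' hT'
    refine ⟨_, k3, k4, ?_, a, γ, τ, _, rfl, k1, k2.le, hτ,
      Or.inr ⟨h3, f, hf, h4 ▸ h5, l, hl, rfl⟩⟩
    rw [det_comb v d, mul_left_comm] at h6
    rw [det_comb, mul_assoc]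
    exact mul_pos k1 ((mul_pos_iff_of_pos_left hτ.1).1 h6)

end Pool.Agent.MP_16ecd2_an.H18
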