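import Pool.Agent.MP_16ecd2_an.H18.Kit

/-!
The first sweep of the triangle lemma.
-/

set_option autoImplicit false

namespace Pool.Agent.MP_16ecd2_an.H18

open MeasureTheory Set Filter Topology Metric

namespace TL1X

variable {Y : Type} [MeasurableSpace Y] {T : TS Y} {W : Set (Y × ℂ)} {x : Y} {v z : ℂ}

/-- The closed triangle without the two base vertices. -/
def C0 (v z : ℂ) : Set ℂ := {u | ∃ A G : ℝ, 0 ≤ G ∧ |A| + G ≤ 1 ∧ |A| < 1 ∧ u = A • v + G • z}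

theorem abs_comb {a b A A' : ℝ} (ha : 0 ≤ a) (hb : 0 ≤ b) :
    |a * A + b * A'| ≤ a * |A| + b * |A'| := by
  refine (abs_add_le _ _).trans ?_
  rw [abs_mul, abs_mul, abs_of_nonneg ha, abs_of_nonneg hb]

theorem lt_comb {a b p q : ℝ} (ha : 0 ≤ a) (hb : 0 ≤ b) (hab : a + b = 1) (hp : p < 1)
    (hq : q < 1) : a * p + b * q < 1 := by
  rcases ha.eq_or_lt with rfl | ha'
  · rw [zero_add] at hab; subst hab; simpa using hq
  · nlinarith [mul_le_mul_of_nonneg_left hq.le hb]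

theorem C0_conv (v z : ℂ) : Convex ℝ (C0 v z) := by
  rintro _ ⟨A, G, h1, h2, h3, rfl⟩ _ ⟨A', G', h1', h2', h3', rfl⟩ a b ha hb hab
  have e := abs_comb (A := A) (A' := A') ha hb
  exact ⟨a * A + b * A', a * G + b * G', by positivity, by nlinarith,
    e.trans_lt (lt_comb ha hb hab h3 h3'), by module⟩

theorem C0_free (hG : T.Good W x v z) (hT : ¬ T.Term x v z) : Disjoint (C0 v z) (T.S x) := by
  rw [Set.disjoint_left]
  rintro _ ⟨A, G, h1, h2, h3, rfl⟩ h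
  rcases h2.eq_or_lt with e | e
  · rcases h1.eq_or_lt with e' | e'
    · rw [← e'] at e; linarith
    · exact hT ⟨A, G, e', e, h⟩
  · exact hG.2.1 A G h1 e h

/-- The half open triangle seen from the point `t₀ • v` of the base. -/
def K (v z : ℂ) (t₀ : ℝ) : Set ℂ :=
  {u | ∃ a g : ℝ, 0 ≤ g ∧ |a| + g < 1 ∧ u = (-t₀) • v + (a • v + g • z)}

theorem K_conv (v z : ℂ) (t₀ : ℝ) : Convex ℝ (K v z t₀) := by
  rintro _ ⟨A, G, h1, h2, rfl⟩ _ ⟨A', G', h1', h2', rfl⟩ a b ha hb hab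
  have e := abs_comb (A := A) (A' := A') ha hb
  have e2 := lt_comb ha hb hab h2 h2'
  obtain rfl : b = 1 - a := by linarith
  exact ⟨a * A + (1 - a) * A', a * G + (1 - a) * G', by positivity, by linarith, by module⟩

/-- Two sweeps at once. -/
theorem sweep2 (hs : RSweep) (F : Set ℂ) (P P' d : ℂ) (hF : ∀ R : ℝ, (F ∩ closedBall 0 R).Finite)
    (h1 : det P d ≠ 0) (h2 : det P' d ≠ 0) (h3 : ∀ β ∈ Ico (0 : ℝ) 1, β • P ∉ F)
    (h4 : ∀ β ∈ Ico (0 : ℝ) 1, β • P' ∉ F) : ∃ τ ∈ Ioc (0 : ℝ) 1,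
    (∀ β γ : ℝ, 0 ≤ β → 0 ≤ γ → β + γ < 1 → β • P + γ • τ • d ∉ F) ∧
    (∀ β γ : ℝ, 0 ≤ β → 0 ≤ γ → β + γ < 1 → β • P' + γ • τ • d ∉ F) ∧
    (τ = 1 ∨ (∃ β γ : ℝ, 0 ≤ β ∧ 0 < γ ∧ β + γ = 1 ∧ β • P + γ • τ • d ∈ F) ∨
      ∃ β γ : ℝ, 0 ≤ β ∧ 0 < γ ∧ β + γ = 1 ∧ β • P' + γ • τ • d ∈ F) := by
  obtain ⟨σ, hσ, f1, a1⟩ := hs F P d hF h1 h3
  obtain ⟨σ', hσ', f2, a2⟩ := hs F P' d hF h2 h4
  have mono : ∀ (Q : ℂ) (s s' : ℝ), 0 < s → s ≤ s' →
      (∀ β γ : ℝ, 0 ≤ β → 0 ≤ γ → β + γ < 1 → β • Q + γ • s' • d ∉ F) →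
      ∀ β γ : ℝ, 0 ≤ β → 0 ≤ γ → β + γ < 1 → β • Q + γ • s • d ∉ F := by
    intro Q s s' hs0 hss h β γ hβ hγ hβγ
    have hs' : 0 < s' := hs0.trans_le hss
    have hq : s / s' ≤ 1 := (div_le_one hs').2 hss
    have := h β (γ * (s / s')) hβ (by positivity) (by nlinarith [mul_le_mul_of_nonneg_left hq hγ])
    rwa [smul_smul, mul_assoc, div_mul_cancel₀ _ hs'.ne', ← smul_smul] at this
  rcases le_total σ σ' with h | h
  · exact ⟨σ, hσ, f1, mono P' σ σ' hσ.1 h f2, a1.imp_right Or.inl⟩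
  · exact ⟨σ', hσ', mono P σ' σ hσ'.1 h f1, f2, a2.imp_right Or.inr⟩

theorem eq_of_mem (hW : T.PW W) {f f' : Y × ℂ} (hf : f ∈ W) (hf' : f' ∈ W) {q : Y}
    (h : q ∈ T.pts f) (h' : q ∈ T.pts f') : f = f' := by
  by_contra hne
  exact Set.disjoint_left.1 (hW.2 hf hf' hne) h h'

/-- The ray crosses the elements of `W` transversally. -/
theorem hit_det (hb : Base T) (hW : T.PW W) (hx : (x, v) ∈ W) {y : Y} (hy : y ∈ T.pts (x, v))
    {d : ℂ} (hd : d ∈ T.S y) (hvd : det v d ≠ 0) {τ : ℝ} (h0 : 0 ≤ τ) (h1 : τ < 1) {f : Y × ℂ}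
    (hf : f ∈ W) (h : T.ex y (τ • d) ∈ T.pts f) : det d f.2 ≠ 0 := by
  intro hdet
  obtain ⟨k, hk⟩ := par_of_det (hb.sc_ne f (hW.1 hf)) (v := d) (by rw [det_comm, hdet, neg_zero])
  have hr : T.Reg y (τ • d) := fun t ht => by
    rw [smul_smul]
    exact T.star y d hd _ (mul_nonneg ht.1 h0) (by nlinarith [ht.1, ht.2])
  obtain ⟨b1, b2⟩ := hb.back y _ hr
  have e : -(τ • d) = (-(τ * k)) • f.2 := by rw [hk]; module
  rw [e] at b1 b2
  have := hb.sc_run f (hW.1 hf) _ h _ b1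
  rw [b2] at this
  have hfe := eq_of_mem hW hf hx this hy
  rw [hfe] at hdet
  apply hvd
  rw [det_comm, hdet, neg_zero]

/-- The first time the ray meets an element of `W`. -/
theorem first (hb : Base T) (hfin : W.Finite) (hW : T.PW W) (hx : (x, v) ∈ W) {y : Y}
    (hy : y ∈ T.pts (x, v)) {d : ℂ} (hd : d ∈ T.S y) (hvd : det v d ≠ 0) :
    ∃ τ ∈ Ioc (0 : ℝ) 1, (∀ t, 0 < t → t < τ → ∀ f ∈ W, T.ex y (t • d) ∉ T.pts f) ∧
      (τ = 1 ∨ (τ < 1 ∧ ∃ f ∈ W, T.ex y (τ • d) ∈ T.pts f)) := by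
  set H : Set ℝ := {t | 0 < t ∧ t < 1 ∧ ∃ f ∈ W, T.ex y (t • d) ∈ T.pts f} with hH
  have hHf : H.Finite := by
    have : (⋃ f ∈ W, {t ∈ Ico (0 : ℝ) 1 | T.ex y (t • d) ∈ T.pts f}).Finite := by
      refine hfin.biUnion fun f hf => ?_
      by_cases hdet : det d f.2 = 0
      · refine Set.finite_empty.subset fun t ht => ?_
        exact hit_det hb hW hx hy hd hvd ht.1.1 ht.1.2 hf ht.2 hdet
      · exact hb.cross y d (fun t ht => T.star y d hd t ht.1 ht.2) f (hW.1 hf) hdet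
    refine this.subset ?_
    rintro t ⟨h0, h1, f, hf, h⟩
    exact mem_biUnion hf ⟨⟨h0.le, h1⟩, h⟩
  rcases H.eq_empty_or_nonempty with he | hne
  · refine ⟨1, ⟨one_pos, le_rfl⟩, fun t h0 h1 f hf h => ?_, Or.inl rfl⟩
    have : t ∈ H := ⟨h0, h1, f, hf, h⟩
    rw [he] at this
    exact this
  · obtain ⟨τ, hτ, hmin⟩ := Set.exists_min_image H id hHf hne
    refine ⟨τ, ⟨hτ.1, hτ.2.1.le⟩, fun t h0 h1 f hf h => ?_, Or.inr hτ.2⟩
    exact absurd (hmin t ⟨h0, h1.trans hτ.2.1, f, hf, h⟩) (not_le.2 h1)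

/-- One half of the triangle is not entered by the elements of `W`. -/
theorem half (hb : Base T) (hc : RChord) (hW : T.PW W) (hx : (x, v) ∈ W) {t₀ e : ℝ}
    (ht : |t₀| < 1) (he : |e| = 1) {D : ℂ} (hD : det v D ≠ 0)
    (hfree : ∀ β γ : ℝ, 0 ≤ β → 0 ≤ γ → β + γ < 1 →
      β • (e - t₀) • v + γ • D ∉ T.S (T.ex x (t₀ • v)))
    (hray : ∀ γ ∈ Ioo (0 : ℝ) 1, ∀ f ∈ W, T.ex (T.ex x (t₀ • v)) (γ • D) ∉ T.pts f)
    {f : Y × ℂ} (hf : f ∈ W) {β γ : ℝ} (h1 : 0 < β) (h2 : 0 < γ) (h3 : β + γ < 1) :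
    T.ex (T.ex x (t₀ • v)) (β • (e - t₀) • v + γ • D) ∉ T.pts f := by
  have hne : e - t₀ ≠ 0 := by
    intro h
    rw [sub_eq_zero.1 h] at he
    linarith
  refine hc Y T _ ((e - t₀) • v) D (by rw [det_smul_left]; exact mul_ne_zero hne hD) f (hW.1 hf)
    hfree (fun b hb' h => Or.inl ?_) (fun g hg h => absurd h (hray g hg f hf)) β γ h1 h2 h3
  have hs : |(1 - b) * t₀ + b * e| < 1 := by
    refine (abs_comb (by linarith [hb'.2]) hb'.1).trans_lt ?_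
    rw [he]
    nlinarith [hb'.2]
  have hl := (hb.sc_line (x, v) (hW.1 hx) t₀ _ ht hs).2
  have e1 : b • (e - t₀) • v = ((1 - b) * t₀ + b * e - t₀) • v := by module
  rw [e1] at h
  simp only at hl
  rw [hl] at h
  have hfe := eq_of_mem hW hf hx h ⟨_, hs, rfl⟩
  rw [hfe, det_smul_left, det_self, mul_zero]

end TL1X

open TL1X in
theorem tl1 (hb : RB) (hc : RChord) (hs : RSweep) : RTL1 := by
  intro Y _ T W hfin hW x v hx t₀ ht d hd hvd
  have hB := hb Y T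
  have hsc : (x, v) ∈ T.SC := hW.1 hx
  set y := T.ex x (t₀ • v) with hy
  have hyp : y ∈ T.pts (x, v) := ⟨t₀, ht, rfl⟩
  obtain ⟨ht1, ht2⟩ := abs_lt.1 ht
  obtain ⟨hp, hp'⟩ : (1 - t₀) • v ∈ T.S y ∧ (-1 - t₀) • v ∈ T.S y := hB.sc_end _ hsc t₀ ht
  have hback : T.ex y ((-t₀) • v) = x := by
    have := (hB.sc_line _ hsc t₀ 0 ht (by simp)).2
    simp only [zero_sub, zero_smul, T.ex0] at this
    exact this
  obtain ⟨τ₁, hτ₁, hray, hend⟩ := first hB hfin hW hx hyp hd hvd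
  have hd1 : ∀ c : ℝ, c ≠ 0 → det (c • v) (τ₁ • d) ≠ 0 := fun c hc0 => by
    rw [det_smul_left, det_smul_right]
    exact mul_ne_zero hc0 (mul_ne_zero hτ₁.1.ne' hvd)
  obtain ⟨m, hm, f1, f2, halt⟩ := sweep2 hs (T.S y) ((1 - t₀) • v) ((-1 - t₀) • v) (τ₁ • d)
    (T.fin y) (hd1 _ (by linarith)) (hd1 _ (by linarith))
    (fun β hβ => T.star y _ hp β hβ.1 hβ.2) (fun β hβ => T.star y _ hp' β hβ.1 hβ.2)
  rw [smul_smul m τ₁ d] at f1 f2 halt
  set τ := m * τ₁ with hτ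
  have hτ0 : 0 < τ := mul_pos hm.1 hτ₁.1
  have hτ1 : τ ≤ τ₁ := by nlinarith [hm.2, hτ₁.1]
  set z := t₀ • v + τ • d with hz
  have hD : det v (τ • d) ≠ 0 := by
    rw [det_smul_right]; exact mul_ne_zero hτ0.ne' hvd
  have hpos : ∀ a g : ℝ, |a| + g < 1 → (a - (1 - g) * t₀) / (1 - t₀) + g < 1 ∧
      (-t₀) • v + (a • v + g • z) =
        ((a - (1 - g) * t₀) / (1 - t₀)) • (1 - t₀) • v + g • τ • d := fun a g h => by
    constructor
    · rw [← lt_sub_iff_add_lt, div_lt_iff₀ (by linarith)]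
      nlinarith [le_abs_self a]
    · rw [smul_smul _ (1 - t₀), div_mul_cancel₀ _ (by linarith), hz]; module
  have hneg : ∀ a g : ℝ, |a| + g < 1 → (a - (1 - g) * t₀) / (-1 - t₀) + g < 1 ∧
      (-t₀) • v + (a • v + g • z) =
        ((a - (1 - g) * t₀) / (-1 - t₀)) • (-1 - t₀) • v + g • τ • d := fun a g h => by
    constructor
    · rw [← lt_sub_iff_add_lt, div_lt_iff_of_neg (by linarith)]
      nlinarith [neg_abs_le a]
    · rw [smul_smul _ (-1 - t₀), div_mul_cancel₀ _ (by linarith), hz]; module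
  have hK : Disjoint (K v z t₀) (T.S y) := by
    rw [Set.disjoint_left]
    rintro _ ⟨a, g, h0, h1, rfl⟩
    rcases le_total 0 (a - (1 - g) * t₀) with hc0 | hc0
    · rw [(hpos a g h1).2]
      exact f1 _ g (div_nonneg hc0 (by linarith)) h0 (hpos a g h1).1
    · rw [(hneg a g h1).2]
      exact f2 _ g (div_nonneg_of_nonpos hc0 (by linarith)) h0 (hneg a g h1).1
  have hK0 : (0 : ℂ) ∈ K v z t₀ := ⟨t₀, 0, le_rfl, by linarith, by module⟩
  have hcons : ∀ a g : ℝ, 0 ≤ g → |a| + g < 1 → a • v + g • z ∉ T.S x ∧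
      T.ex x (a • v + g • z) = T.ex y ((-t₀) • v + (a • v + g • z)) := fun a g h0 h1 => by
    have := T.cons y _ (K_conv v z t₀) hK0 hK ((-t₀) • v)
      ⟨0, 0, le_rfl, by simp, by module⟩ (a • v + g • z) ⟨a, g, h0, h1, rfl⟩
    rwa [hback] at this
  have hray' : ∀ γ ∈ Ioo (0 : ℝ) 1, ∀ f ∈ W, T.ex y (γ • τ • d) ∉ T.pts f := fun γ hγ f hf => by
    rw [smul_smul]
    exact hray _ (mul_pos hγ.1 hτ0) (by nlinarith [hγ.2]) f hf
  have hG : T.Good W x v z := by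
    refine ⟨?_, fun a g h0 h1 => (hcons a g h0 h1).1, ?_⟩
    · rwa [hz, det_add_right, det_smul_right t₀, det_self, mul_zero, zero_add]
    · rintro _ ⟨a, g, h0, h1, rfl⟩ f hf
      rw [(hcons a g h0.le h1).2]
      rcases lt_trichotomy 0 (a - (1 - g) * t₀) with hc0 | hc0 | hc0
      · rw [(hpos a g h1).2]
        exact half hB hc hW hx ht abs_one hD f1 hray' hf (div_pos hc0 (by linarith)) h0
          (hpos a g h1).1
      · rw [(hpos a g h1).2, ← hc0, zero_div, zero_smul, zero_add]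
        exact hray' g ⟨h0, by linarith [abs_nonneg a]⟩ f hf
      · rw [(hneg a g h1).2]
        exact half hB hc hW hx ht (by simp) hD f2 hray' hf (div_pos_of_neg_of_neg hc0
          (by linarith)) h0 (hneg a g h1).1
  have toT : ∀ e β γ : ℝ, |e| = 1 → 0 ≤ β → 0 < γ → β + γ = 1 →
      β • (e - t₀) • v + γ • τ • d ∈ T.S y → T.Term x v z := by
    intro e β γ he h0 h1 h2 h
    obtain rfl : β = 1 - γ := by linarith
    have := hB.tr y ((-t₀) • v) _ h fun p q hp0 hq0 hpq hq1 => by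
      refine Set.disjoint_left.1 hK ⟨(1 - p - q) * t₀ + (q * (1 - γ)) * e, q * γ, by positivity,
        ?_, by rw [hz]; module⟩
      have := abs_comb (A := t₀) (A' := e) (a := 1 - p - q) (b := q * (1 - γ)) (by linarith)
        (by positivity)
      rw [he] at this
      nlinarith [abs_nonneg t₀]
    rw [hback] at this
    refine ⟨(1 - γ) * e, γ, h1, by rw [abs_mul, he, abs_of_nonneg h0]; ring, ?_⟩
    convert this using 1
    rw [hz]; module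
  refine ⟨τ, ⟨hτ0, hτ1.trans hτ₁.2⟩, hG, ?_⟩
  by_cases hT : T.Term x v z
  · exact Or.inl hT
  refine Or.inr ?_
  have hm1 : m = 1 := by
    rcases halt with h | ⟨β, γ, h0, h1, h2, h⟩ | ⟨β, γ, h0, h1, h2, h⟩
    · exact h
    · exact absurd (toT 1 β γ abs_one h0 h1 h2 h) hT
    · exact absurd (toT (-1) β γ (by simp) h0 h1 h2 h) hT
  have hττ : τ = τ₁ := by rw [hτ, hm1, one_mul]
  have heq : T.ex y (τ • d) = T.ex x z :=
    (T.cons x _ (C0_conv v z) ⟨0, 0, le_rfl, by simp, by simp, by simp⟩ (C0_free hG hT) (t₀ • v)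
      ⟨t₀, 0, le_rfl, by linarith, ht, by simp⟩ (τ • d)
      ⟨0, 1, zero_le_one, by simp, by simp, by simp [hz]⟩).2
  rcases hend with h | ⟨h, f, hf, hfp⟩
  · refine absurd (toT 1 0 1 abs_one le_rfl one_pos (by simp) ?_) hT
    rwa [hττ, h, zero_smul, zero_add, one_smul, one_smul]
  · exact ⟨hττ ▸ h, heq.symm, f, hf, by rwa [← heq, hττ]⟩

end Pool.Agent.MP_16ecd2_an.H18
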