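import Pool.Agent.MP_16ecd2_an.H18.Kit

/-!
The second sweep of the triangle lemma.
-/

set_option autoImplicit false

namespace Pool.Agent.MP_16ecd2_an.H18

open MeasureTheory Set Filter Topology Metric

namespace TL2X

variable {Y : Type} [MeasurableSpace Y] {T : TS Y} {W : Set (Y × ℂ)} {x : Y} {v z : ℂ}

theorem good_neg (h : T.Good W x v z) : T.Good W x (-v) z := by
  refine ⟨by rw [det_neg_left]; exact neg_ne_zero.2 h.1, fun a γ h0 h1 => ?_, ?_⟩
  · have := h.2.1 (-a) γ h0 (by rwa [abs_neg])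
    rwa [neg_smul, ← smul_neg] at this
  · rintro u ⟨a, γ, h0, h1, rfl⟩
    exact h.2.2 _ ⟨-a, γ, h0, by rwa [abs_neg], by rw [neg_smul, smul_neg]⟩

theorem term_neg (h : T.Term x (-v) z) : T.Term x v z := by
  obtain ⟨a, γ, h0, h1, h2⟩ := h
  exact ⟨-a, γ, h0, by rwa [abs_neg], by rwa [neg_smul, ← smul_neg]⟩

/-- The closed triangle without the two base vertices. -/
def C0 (v z : ℂ) : Set ℂ := {u | ∃ A G : ℝ, 0 ≤ G ∧ |A| + G ≤ 1 ∧ |A| < 1 ∧ u = A • v + G • z}

theorem C0_conv (v z : ℂ) : Convex ℝ (C0 v z) := by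
  rintro _ ⟨A, G, h1, h2, h3, rfl⟩ _ ⟨A', G', h1', h2', h3', rfl⟩ a b ha hb hab
  have e : |a * A + b * A'| ≤ a * |A| + b * |A'| := by
    refine (abs_add_le _ _).trans ?_
    rw [abs_mul, abs_mul, abs_of_nonneg ha, abs_of_nonneg hb]
  refine ⟨a * A + b * A', a * G + b * G', by positivity, by nlinarith, ?_, by module⟩
  refine e.trans_lt ?_
  rcases ha.eq_or_lt with rfl | ha'
  · rw [zero_add] at hab; subst hab; simpa using h3'
  · nlinarith [mul_le_mul_of_nonneg_left h3'.le hb]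

theorem C0_zero (v z : ℂ) : (0 : ℂ) ∈ C0 v z := ⟨0, 0, le_rfl, by simp, by simp, by simp⟩

theorem C0_top (v z : ℂ) : z ∈ C0 v z := ⟨0, 1, zero_le_one, by simp, by simp, by simp⟩

theorem C0_free (hG : T.Good W x v z) (hT : ¬ T.Term x v z) : Disjoint (C0 v z) (T.S x) := by
  rw [Set.disjoint_left]
  rintro _ ⟨A, G, h1, h2, h3, rfl⟩ h
  rcases h2.eq_or_lt with e | e
  · rcases h1.eq_or_lt with e' | e'
    · rw [← e'] at e; linarith
    · exact hT ⟨A, G, e', e, h⟩
  · exact hG.2.1 A G h1 e h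

theorem itri_sub {u : ℂ} (h : u ∈ itri v z) : u ∈ C0 v z := by
  obtain ⟨a, γ, h0, h1, rfl⟩ := h
  exact ⟨a, γ, h0.le, h1.le, by linarith, rfl⟩

/-- No element of `W` enters the open triangle. -/
theorem enter (hb : Base T) (hW : T.PW W) (hG : T.Good W x v z) (hT : ¬ T.Term x v z)
    {f : Y × ℂ} (hf : f ∈ W) {u : ℂ} (hu : u ∈ C0 v z) (hz : T.ex x u ∈ T.pts f) {η : ℝ}
    (h : u + η • f.2 ∈ itri v z) : False := by
  have h1 := hb.reg x _ (C0_conv v z) (C0_zero v z) (C0_free hG hT) u hu _ (itri_sub h)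
  have h2 := (T.cons x _ (C0_conv v z) (C0_zero v z) (C0_free hG hT) u hu _ (itri_sub h)).2
  exact hG.2.2 _ h f hf (h2 ▸ hb.sc_run f (hW.1 hf) _ hz η h1)

theorem side (hb : Base T) (hW : T.PW W) (hG : T.Good W x v z) (hT : ¬ T.Term x v z)
    {f : Y × ℂ} (hf : f ∈ W) {β : ℝ} (h0 : 0 < β) (h1 : β < 1)
    (hz : T.ex x (z + β • (-v - z)) ∈ T.pts f) : det (-v - z) f.2 = 0 := by
  by_contra hd
  obtain ⟨b, h, e⟩ : ∃ b h : ℝ, f.2 = b • v + h • z := ⟨_, _, coord hG.1 f.2⟩
  have hbh : h - b ≠ 0 := by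
    intro e'
    apply hd
    rw [e, show h = b by linarith]
    simp [det]
    ring
  have c1 : ∀ᶠ ε in 𝓝 (0 : ℝ), 0 < 1 - β + -ε * (h - b) * h :=
    (by fun_prop : Continuous fun ε : ℝ => 1 - β + -ε * (h - b) * h).continuousAt.eventually
      (lt_mem_nhds (by simp; linarith))
  have c2 : ∀ᶠ ε in 𝓝 (0 : ℝ), 1 - 2 * β + -ε * (h - b) * (b + h) < 1 :=
    (by fun_prop : Continuous fun ε : ℝ =>
      1 - 2 * β + -ε * (h - b) * (b + h)).continuousAt.eventually
      (gt_mem_nhds (by simp; linarith))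
  obtain ⟨ε, ⟨d1, d2⟩, d3⟩ := (((c1.and c2).filter_mono nhdsWithin_le_nhds).and
    (self_mem_nhdsWithin (s := Ioi (0 : ℝ)))).exists
  have d4 : 0 < ε * (h - b) ^ 2 := mul_pos d3 (by positivity)
  refine enter hb hW hG hT hf (η := -ε * (h - b))
    ⟨-β, 1 - β, by linarith, by rw [abs_neg, abs_of_pos h0]; linarith,
      by rwa [abs_neg, abs_of_pos h0], by module⟩ hz
    ⟨-β + -ε * (h - b) * b, 1 - β + -ε * (h - b) * h, d1, ?_, by rw [e]; module⟩
  rcases abs_cases (-β + -ε * (h - b) * b) with ⟨e1, -⟩ | ⟨e1, -⟩ <;> rw [e1] <;> nlinarith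

/-- The region swept by the triangles, seen from the apex. -/
def U (v z : ℂ) (a g t : ℝ) : Set ℂ :=
  {u | ∃ A G : ℝ, 0 ≤ G ∧ A + G ≤ 1 ∧ A < 1 ∧ 0 < (A + 1) * (1 + t * g) - G * (t * a + 1) ∧
    A * g - (G - 1) * a ≤ 0 ∧ u = A • v + G • z - z}

theorem lt_comb {a b p q : ℝ} (ha : 0 ≤ a) (hb : 0 ≤ b) (hab : a + b = 1) (hp : 0 < p)
    (hq : 0 < q) : 0 < a * p + b * q := by
  rcases ha.eq_or_lt with rfl | ha'
  · rw [zero_add] at hab; subst hab; simpa using hq
  · positivity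

theorem U_conv (v z : ℂ) (a g t : ℝ) : Convex ℝ (U v z a g t) := by
  rintro _ ⟨A, G, h1, h2, h3, h4, h5, rfl⟩ _ ⟨A', G', h1', h2', h3', h4', h5', rfl⟩ p q hp hq hpq
  have e1 := lt_comb hp hq hpq (sub_pos.2 h3) (sub_pos.2 h3')
  have e2 := lt_comb hp hq hpq h4 h4'
  obtain rfl : q = 1 - p := by linarith
  refine ⟨p * A + (1 - p) * A', p * G + (1 - p) * G', by positivity, by nlinarith, by linarith,
    by linarith, by nlinarith [mul_nonneg hp (neg_nonneg.2 h5), mul_nonneg hq (neg_nonneg.2 h5')],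
    by module⟩

theorem core (hb : Base T) (hc : RChord) (hs : RSweep) (hW : T.PW W) (hG : T.Good W x v z)
    (hT : ¬ T.Term x v z) {f : Y × ℂ} (hf : f ∈ W) (hz : T.ex x z ∈ T.pts f) {s a g : ℝ}
    (hs1 : s = 1 ∨ s = -1) (hw : s • f.2 = a • v + g • z) (hg : 0 ≤ g) (ha : a + g ≤ 0)
    (ha0 : a < 0) : ∃ t : ℝ, 0 < t ∧ t ≤ 2 ∧ T.Good W x v (z + (t * s) • f.2) ∧
      T.Term x v (z + (t * s) • f.2) := by
  have hD := hG.1
  have c0 := fun u hu => T.cons x _ (C0_conv v z) (C0_zero v z) (C0_free hG hT) z (C0_top v z) u hu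
  set y := T.ex x z with hy
  obtain ⟨k, k0, k2, hk⟩ : ∃ k : ℝ, 0 < k ∧ k ≤ 2 ∧ (k * s) • f.2 ∈ T.S y := by
    obtain ⟨τ, h1, h2⟩ := hz
    have := hb.sc_end f (hW.1 hf) τ h1
    rw [← h2] at this
    rw [abs_lt] at h1
    rcases hs1 with rfl | rfl
    · exact ⟨1 - τ, by linarith, by linarith, by simpa only [mul_one] using this.1⟩
    · exact ⟨1 + τ, by linarith, by linarith, by
        rw [show (1 + τ) * -1 = -1 - τ by ring]; exact this.2⟩
  have hside : ∀ β : ℝ, 0 ≤ β → β < 1 → z + β • (-v - z) ∈ C0 v z := fun β h0 h1 =>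
    ⟨-β, 1 - β, by linarith, by rw [abs_neg, abs_of_nonneg h0]; linarith,
      by rwa [abs_neg, abs_of_nonneg h0], by module⟩
  have hmul : ∀ t : ℝ, (t * s) • f.2 = (t * a) • v + (t * g) • z := fun t => by
    rw [mul_smul, hw]; module
  have hdet : ∀ t : ℝ, det (-v - z) ((t * s) • f.2) = t * (a - g) * det v z := fun t => by
    rw [hmul]; simp [det]; ring
  obtain ⟨τ, ⟨τ0, τ1⟩, hfree, hterm⟩ := hs (T.S y) (-v - z) ((k * s) • f.2) (T.fin y)
    (by rw [hdet]; exact mul_ne_zero (mul_ne_zero k0.ne' (by linarith)) hD)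
    (fun β hβ => (c0 _ (hside β hβ.1 hβ.2)).1)
  have eZ : τ • (k * s) • f.2 = (τ * k * s) • f.2 := by rw [smul_smul, mul_assoc]
  rw [eZ] at hfree hterm
  set t := τ * k with ht
  have t0 : 0 < t := mul_pos τ0 k0
  have hga : 0 < g - a := by linarith
  have htg : 0 < 1 + t * g := by positivity
  have hterm' : ∃ β γ : ℝ, 0 ≤ β ∧ 0 < γ ∧ β + γ = 1 ∧
      β • (-v - z) + γ • (t * s) • f.2 ∈ T.S y := by
    rcases hterm with e | e
    · exact ⟨0, 1, le_rfl, one_pos, by simp, by rw [ht, e]; simpa using hk⟩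
    · exact e
  -- the third kind of point
  have hthird : ∀ A G : ℝ, 1 < G - A → ∃ β γ : ℝ, 0 < γ ∧
      A * g - (G - 1) * a = -β * (g - a) ∧
      (A + 1) * (1 + t * g) - G * (t * a + 1) = t * (g - a) * (1 - β - γ) ∧
      A • v + G • z - z = β • (-v - z) + γ • (t * s) • f.2 := by
    intro A G h
    have hp : 0 < t * (g - a) := mul_pos t0 hga
    obtain ⟨γ, hγ⟩ : ∃ γ : ℝ, γ * (t * (g - a)) = G - 1 - A := ⟨_, div_mul_cancel₀ _ hp.ne'⟩
    have eG : G = 1 + A + γ * (t * (g - a)) := by linarith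
    refine ⟨γ * t * a - A, γ, (mul_pos_iff_of_pos_right hp).1 (by linarith), by rw [eG]; ring,
      by rw [eG]; ring, ?_⟩
    rw [hmul, eG]
    module
  have hU : Disjoint (U v z a g t) (T.S y) := by
    rw [Set.disjoint_left]
    rintro _ ⟨A, G, h1, h2, h3, h4, h5, rfl⟩
    rcases le_or_gt (G - A) 1 with h | h
    · refine (c0 _ ⟨A, G, h1, ?_, ?_, by module⟩).1
      · rcases abs_cases A with ⟨e, -⟩ | ⟨e, -⟩ <;> rw [e] <;> linarith
      · rw [abs_lt]
        refine ⟨?_, h3⟩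
        by_contra hn
        obtain rfl : A = -1 := by linarith
        obtain rfl : G = 0 := by linarith
        simp at h4
    · obtain ⟨β, γ, e0, e1, e2, e3⟩ := hthird A G h
      rw [e3]
      refine hfree β γ (by by_contra hn; nlinarith [mul_pos (neg_pos.2 (not_le.1 hn)) hga])
        e0.le ?_
      rw [e2] at h4
      have := (mul_pos_iff_of_pos_left (mul_pos t0 hga)).1 h4
      linarith
  have U0 : (0 : ℂ) ∈ U v z a g t :=
    ⟨0, 1, zero_le_one, by norm_num, by norm_num, by nlinarith [mul_pos t0 hga], by simp, by simp⟩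
  have U1 : -z ∈ U v z a g t :=
    ⟨0, 0, le_rfl, by norm_num, by norm_num, by linarith, by linarith, by simp⟩
  have hback : T.ex y (-z) = x := by
    have := (c0 (-z) (by rw [add_neg_cancel]; exact C0_zero v z)).2
    rwa [add_neg_cancel, T.ex0] at this
  have cU : ∀ p, -z + p ∈ U v z a g t → p ∉ T.S x ∧ T.ex x p = T.ex y (-z + p) := fun p hp => by
    have := T.cons y _ (U_conv v z a g t) U0 hU (-z) U1 p hp
    rwa [hback] at this
  have hpt : ∀ b γ : ℝ, b • v + γ • (z + (t * s) • f.2) =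
      (b + γ * t * a) • v + (γ * (1 + t * g)) • z := fun b γ => by rw [hmul]; module
  have hmem : ∀ b γ : ℝ, 0 ≤ γ → |b| + γ < 1 →
      -z + (b • v + γ • (z + (t * s) • f.2)) ∈ U v z a g t := by
    intro b γ h0 h1
    have b1 := le_abs_self b
    have b2 := neg_abs_le b
    have e1 : γ * t * (a + g) ≤ 0 := mul_nonpos_of_nonneg_of_nonpos (by positivity) ha
    have e2 : 0 ≤ γ * (1 + t * g) := by positivity
    refine ⟨b + γ * t * a, γ * (1 + t * g), e2, by nlinarith, by nlinarith, ?_, ?_,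
      by rw [hpt]; module⟩
    · have : 0 < (1 + t * g) * (b + 1 - γ) := mul_pos htg (by linarith)
      nlinarith
    · have e3 : 0 ≤ (1 - γ - b) * g := mul_nonneg (by linarith) hg
      have e4 : (1 - γ) * (a + g) ≤ 0 :=
        mul_nonpos_of_nonneg_of_nonpos (by linarith [abs_nonneg b]) ha
      nlinarith
  have huniq : ∀ f' ∈ W, ∀ p, p ∈ T.pts f → p ∈ T.pts f' → f' = f := fun f' hf' p h1 h2 => by
    by_contra hn
    exact Set.disjoint_left.1 (hW.2 hf' hf hn) h2 h1
  refine ⟨t, t0, by nlinarith, ⟨?_, fun b γ h0 h1 => (cU _ (hmem b γ h0 h1)).1, ?_⟩, ?_⟩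
  · rw [hmul, show det v (z + ((t * a) • v + (t * g) • z)) = (1 + t * g) * det v z by
      simp [det]; ring]
    exact mul_ne_zero htg.ne' hD
  · rintro _ ⟨b, γ, h0, h1, rfl⟩ f' hf' hp
    have b1 := le_abs_self b
    have b2 := neg_abs_le b
    have e1 : γ * t * (a + g) ≤ 0 := mul_nonpos_of_nonneg_of_nonpos (by positivity) ha
    have e2 : 0 < γ * (1 + t * g) := by positivity
    rcases lt_trichotomy (γ * (1 + t * g) - (b + γ * t * a)) 1 with h | h | h
    · refine hG.2.2 _ ⟨b + γ * t * a, γ * (1 + t * g), e2, ?_, hpt b γ⟩ f' hf' hp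
      rcases abs_cases (b + γ * t * a) with ⟨e, -⟩ | ⟨e, -⟩ <;> rw [e] <;> nlinarith
    · obtain ⟨β, hβ⟩ : ∃ β : ℝ, β = 1 - γ * (1 + t * g) := ⟨_, rfl⟩
      have β0 : 0 < β := by nlinarith
      have β1 : β < 1 := by linarith
      have eu : b • v + γ • (z + (t * s) • f.2) = z + β • (-v - z) := by
        rw [hpt, show b + γ * t * a = -β by linarith, show γ * (1 + t * g) = 1 - β by linarith]
        module
      rw [eu] at hp
      have d0 := side hb hW hG hT hf' β0 β1 hp
      obtain ⟨κ, hκ⟩ := par_of_det (hb.sc_ne f' (hW.1 hf'))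
        (show det f'.2 (-v - z) = 0 by rw [det_comm, d0, neg_zero])
      have ez : z + β • (-v - z) + (-β * κ) • f'.2 = z := by rw [mul_smul, ← hκ]; module
      have r1 := hb.reg x _ (C0_conv v z) (C0_zero v z) (C0_free hG hT) _ (hside β β0.le β1)
        ((-β * κ) • f'.2) (by rw [ez]; exact C0_top v z)
      have r2 := (T.cons x _ (C0_conv v z) (C0_zero v z) (C0_free hG hT) _ (hside β β0.le β1)
        ((-β * κ) • f'.2) (by rw [ez]; exact C0_top v z)).2
      have r3 := hb.sc_run f' (hW.1 hf') _ hp _ r1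
      rw [r2, ez] at r3
      obtain rfl := huniq f' hf' _ hz r3
      have := hdet 1
      rw [det_smul_right, d0, mul_zero, one_mul] at this
      exact mul_ne_zero (by linarith) hD this.symm
    · obtain ⟨β, γ', e0, e1', e2', e3⟩ := hthird _ _ h
      have m1 := hmem b γ h0.le h1
      rw [(cU _ m1).2, hpt, neg_add_eq_sub, e3] at hp
      have hZ : det ((t * s) • f.2) f.2 = 0 := by rw [det_smul_left, det_self, mul_zero]
      refine hc Y T y (-v - z) ((t * s) • f.2)
        (by rw [hdet]; exact mul_ne_zero (mul_ne_zero t0.ne' (by linarith)) hD) f' (hW.1 hf')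
        hfree (fun β' hβ' hq => ?_) (fun γ'' hγ hq => ?_) β γ' ?_ e0 ?_ hp
      · rcases hβ'.1.eq_or_lt with e | e
        · right
          rw [← e, zero_smul, T.ex0] at hq
          obtain rfl := huniq f' hf' _ hz hq
          exact ⟨e.symm, hZ⟩
        · left
          rw [(c0 _ (hside β' hβ'.1 hβ'.2)).2] at hq
          exact side hb hW hG hT hf' e hβ'.2 hq
      · have r1 : T.Reg y ((γ'' * (t * s)) • f.2) := fun l hl => by
          have := T.star y _ hk (l * γ'' * τ) (by have := hl.1; have := hγ.1; positivity) (by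
            have h2 : l * γ'' < 1 := by nlinarith [hl.1, hl.2, hγ.1, hγ.2]
            nlinarith [mul_nonneg hl.1 hγ.1.le])
          rwa [smul_smul, show l * γ'' * τ * (k * s) = l * (γ'' * (t * s)) by rw [ht]; ring,
            ← smul_smul] at this
        have r2 := hb.sc_run f (hW.1 hf) _ hz _ r1
        rw [smul_smul] at hq
        obtain rfl := huniq f' hf' _ r2 hq
        exact hZ
      · have e5 : (b + γ * t * a) * g - (γ * (1 + t * g) - 1) * a < 0 := by
          have e4 : (1 - γ) * (a + g) ≤ 0 :=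
            mul_nonpos_of_nonneg_of_nonpos (by linarith [abs_nonneg b]) ha
          rcases hg.eq_or_lt with e | e
          · rw [← e]
            nlinarith [mul_pos (show 0 < 1 - γ by linarith [abs_nonneg b]) (neg_pos.2 ha0)]
          · nlinarith [mul_pos (show 0 < 1 - γ - b by linarith) e]
        by_contra hn
        nlinarith [mul_nonneg (neg_nonneg.2 (not_lt.1 hn)) hga.le]
      · have : 0 < (1 + t * g) * (b + 1 - γ) := mul_pos htg (by linarith)
        have e6 : 0 < t * (g - a) * (1 - β - γ') := by rw [← e2']; nlinarith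
        have := (mul_pos_iff_of_pos_left (mul_pos t0 hga)).1 e6
        linarith
  · obtain ⟨β, γ, h0, h1, h2, h3⟩ := hterm'
    obtain rfl : β = 1 - γ := by linarith
    have := hb.tr y (-z) _ h3 fun α β' p0 p1 p2 p3 => Set.disjoint_left.1 hU
      ⟨β' * (-(1 - γ) + γ * t * a), 1 - α - β' + β' * (γ * (1 + t * g)),
        add_nonneg (by linarith) (by positivity), ?_, ?_, ?_, ?_, by rw [hmul]; module⟩
    · rw [hback] at this
      refine ⟨-(1 - γ), γ, h1, by rw [abs_neg, abs_of_nonneg h0]; ring, ?_⟩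
      rwa [show (1 - γ) • (-v - z) + γ • (t * s) • f.2 - -z =
        -(1 - γ) • v + γ • (z + (t * s) • f.2) by module] at this
    · have e1 : β' * (γ * t * (a + g)) ≤ 0 :=
        mul_nonpos_of_nonneg_of_nonpos p1 (mul_nonpos_of_nonneg_of_nonpos (by positivity) ha)
      nlinarith [mul_nonneg p1 h0]
    · have e1 : γ * t * a ≤ 0 := mul_nonpos_of_nonneg_of_nonpos (by positivity) ha0.le
      nlinarith [mul_nonneg p1 (show 0 ≤ (1 - γ) - γ * t * a by linarith)]
    · have e1 : (β' * (-(1 - γ) + γ * t * a) + 1) * (1 + t * g) -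
          (1 - α - β' + β' * (γ * (1 + t * g))) * (t * a + 1) =
          (1 - α - β') * (t * (g - a)) + α * (1 + t * g) := by ring
      rw [e1]
      rcases p0.eq_or_lt with e | e
      · rw [← e]
        nlinarith [mul_pos (show 0 < 1 - β' by linarith) (mul_pos t0 hga)]
      · have := mul_nonneg (show 0 ≤ 1 - α - β' by linarith) (mul_pos t0 hga).le
        nlinarith [mul_pos e htg]
    · have e1 : β' * (-(1 - γ) + γ * t * a) * g -
          (1 - α - β' + β' * (γ * (1 + t * g)) - 1) * a =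
          α * a - β' * (1 - γ) * (g - a) := by ring
      rw [e1]
      nlinarith [mul_nonneg p0 (neg_nonneg.2 ha0.le), mul_nonneg (mul_nonneg p1 h0) hga.le]

end TL2X

open TL2X in
theorem tl2 (hb : RB) (_hk : RTK) (hc : RChord) (hs : RSweep) : RTL2 := by
  intro Y _ T W hW x v z _ hG hT f hf hz
  have hb := hb Y T
  obtain ⟨s, a, g, hs1, hw, hg⟩ : ∃ s a g : ℝ, (s = 1 ∨ s = -1) ∧ s • f.2 = a • v + g • z ∧
      0 ≤ g := by
    obtain ⟨b, h, e⟩ : ∃ b h : ℝ, f.2 = b • v + h • z := ⟨_, _, coord hG.1 f.2⟩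
    rcases le_total 0 h with h0 | h0
    · exact ⟨1, b, h, Or.inl rfl, by rw [one_smul, e], h0⟩
    · exact ⟨-1, -b, -h, Or.inr rfl, by rw [e]; module, by linarith⟩
  have hag : g ≤ |a| := by
    by_contra hn
    have hn := not_le.1 hn
    have g0 : 0 < g := (abs_nonneg a).trans_lt hn
    refine enter hb hW hG hT hf (C0_top v z) hz (η := -(1 / (2 * g)) * s)
      ⟨-(1 / (2 * g)) * a, 1 / 2, by norm_num, ?_, ?_⟩
    · rw [abs_mul, abs_neg, abs_of_pos (by positivity : 0 < 1 / (2 * g))]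
      have : 1 / (2 * g) * |a| < 1 / (2 * g) * g := mul_lt_mul_of_pos_left hn (by positivity)
      have e : 1 / (2 * g) * g = 1 / 2 := by field_simp
      linarith
    · have e : (1 / 2 : ℝ) = 1 + -(1 / (2 * g)) * g := by field_simp; ring
      rw [mul_smul, hw, e]
      module
  have ha0 : a ≠ 0 := by
    rintro rfl
    obtain rfl : g = 0 := by simp at hag; linarith
    apply hb.sc_ne f (hW.1 hf)
    rcases hs1 with rfl | rfl <;> simpa using hw
  have hsabs : |s| = 1 := by rcases hs1 with rfl | rfl <;> simp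
  have fin : ∀ t : ℝ, 0 < t → t ≤ 2 → |t * s| ≤ 2 ∧
      0 < det v (z + (t * s) • f.2) * det v z := fun t t0 t2 => by
    refine ⟨by rw [abs_mul, hsabs, abs_of_pos t0]; linarith, ?_⟩
    rw [mul_smul, hw, show det v (z + t • (a • v + g • z)) = (1 + t * g) * det v z by
      simp [det]; ring, mul_assoc]
    exact mul_pos (by positivity) (mul_self_pos.2 hG.1)
  rcases lt_or_gt_of_ne ha0 with h | h
  · rw [abs_of_neg h] at hag
    obtain ⟨t, t0, t2, h1, h2⟩ := core hb hc hs hW hG hT hf hz hs1 hw hg (by linarith) h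
    exact ⟨t * s, (fin t t0 t2).1, h1, h2, (fin t t0 t2).2⟩
  · rw [abs_of_pos h] at hag
    obtain ⟨t, t0, t2, h1, h2⟩ := core (a := -a) hb hc hs hW (good_neg hG)
      (fun h => hT (term_neg h)) hf hz hs1 (by rw [hw]; module) hg (by linarith) (by linarith)
    exact ⟨t * s, (fin t t0 t2).1, by simpa only [neg_neg] using good_neg h1, term_neg h2,
      (fin t t0 t2).2⟩

end Pool.Agent.MP_16ecd2_an.H18
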