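import Pool.Agent.MP_16ecd2_an.H18.Kit

/-!
Most directions are thick at most scales.
-/

set_option autoImplicit false

namespace Pool.Agent.MP_16ecd2_an.H18

open MeasureTheory Set Filter Topology Metric
open scoped ENNReal

namespace ThkX

variable {Y : Type} [MeasurableSpace Y] {T : TS Y} {s s' L r r' c : ℝ}

theorem mono (h : T.Thick s L r) (hr : r' ≤ r) : T.Thick s L r' := fun v hv => hr.trans (h v hv)

theorem tri (v : ℂ) (s s' : ℝ) : |v.re - s * v.im| ≤ |v.re - s' * v.im| + |s' - s| * |v.im| := by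
  rw [← abs_mul]
  refine le_trans (le_of_eq ?_) (abs_add_le _ _)
  congr 1
  ring

theorem stab (h : T.Thick s L r) (hL : 0 < L) (hs : |s' - s| ≤ 1 / L ^ 2) :
    T.Thick s' L (r / 2) := by
  intro v hv
  have h1 := le_max_left (L * |v.re - s' * v.im|) (|v.im| / L)
  have h2 := le_max_right (L * |v.re - s' * v.im|) (|v.im| / L)
  have h3 : 0 ≤ |v.im| / L := by positivity
  have h4 := (tri v s s').trans (add_le_add le_rfl
    (mul_le_mul_of_nonneg_right hs (abs_nonneg v.im)))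
  have h5 := mul_le_mul_of_nonneg_left h4 hL.le
  have e : L * (|v.re - s' * v.im| + 1 / L ^ 2 * |v.im|) =
      L * |v.re - s' * v.im| + |v.im| / L := by field_simp
  rw [e] at h5
  rcases le_max_iff.1 (h v hv) with k | k <;> linarith

theorem scale (h : T.Thick s L r) (hL : 0 < L) (hc : 1 ≤ c) : T.Thick s (L * c) (r / c) := by
  intro v hv
  have hc0 : 0 < c := by linarith
  rcases le_max_iff.1 (h v hv) with k | k
  · refine le_max_of_le_left ?_
    rw [div_le_iff₀ hc0]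
    have h0 : 0 ≤ L * |v.re - s * v.im| := by positivity
    have h1 : 1 ≤ c * c := by nlinarith
    nlinarith [mul_le_mul_of_nonneg_left h1 h0]
  · refine le_max_of_le_right ?_
    rw [← div_div]
    exact div_le_div_of_nonneg_right k hc0.le

theorem ex (hB : Base T) (s : ℝ) (hL : 0 < L) (e : ℕ) : ∃ x : ℕ, T.Thick s L (1 / 8 ^ (e + x)) := by
  obtain ⟨δ, hδ, h⟩ := hB.hol_sys
  have hA : 0 < 1 / L + (|s| + 1) * L := by positivity
  obtain ⟨x, hx⟩ := exists_pow_lt_of_lt_one (div_pos hδ hA) (show (1 / 8 : ℝ) < 1 by norm_num)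
  refine ⟨x, fun v hv => ?_⟩
  have h0 : (1 : ℝ) / 8 ^ (e + x) ≤ (1 / 8) ^ x := by
    rw [one_div_pow]
    exact one_div_le_one_div_of_le (by positivity) (pow_le_pow_right₀ (by norm_num) (by omega))
  refine h0.trans (hx.le.trans ?_)
  obtain ⟨m, hm⟩ : ∃ m, m = max (L * |v.re - s * v.im|) (|v.im| / L) := ⟨_, rfl⟩
  have h1 : |v.re - s * v.im| ≤ m * (1 / L) := by
    rw [mul_one_div, le_div_iff₀' hL, hm]
    exact le_max_left _ _
  have h2 : |v.im| ≤ m * L := by
    rw [← div_le_iff₀ hL, hm]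
    exact le_max_right _ _
  have h3 := tri v 0 s
  rw [zero_mul, sub_zero, sub_zero] at h3
  have h4 := (h v hv).trans (Complex.norm_le_abs_re_add_abs_im v)
  have h5 := mul_le_mul_of_nonneg_left h2 (show 0 ≤ |s| + 1 by positivity)
  rw [← hm, div_le_iff₀ hA]
  nlinarith

theorem node (a b i t : ℕ) :
    ((a * 64 ^ t + b : ℕ) : ℝ) / 64 ^ (i + t) = a / 64 ^ i + b / 64 ^ (i + t) := by
  push_cast
  rw [pow_add]
  field_simp

theorem vol {B : Set ℕ} (hB : B.Finite) (M : ℝ) :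
    volume (⋃ a ∈ B, Ico ((a : ℝ) / M) ((a + 1) / M)) ≤ ENNReal.ofReal (B.ncard / M) := by
  obtain ⟨F, rfl⟩ := hB.exists_finset_coe
  refine (measure_biUnion_finset_le F _).trans (le_of_eq ?_)
  have e : ∀ a : ℕ, volume (Ico ((a : ℝ) / M) ((a + 1) / M)) = ENNReal.ofReal (1 / M) := fun a => by
    rw [Real.volume_Ico]
    congr 1
    ring
  simp only [e]
  rw [Finset.sum_const, ncard_coe_finset, nsmul_eq_mul, div_eq_mul_one_div (F.card : ℝ),
    ENNReal.ofReal_mul (Nat.cast_nonneg _), ENNReal.ofReal_natCast]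

theorem cell {s M : ℝ} (hs : 0 ≤ s) (hM : 0 < M) :
    s ∈ Ico ((⌊s * M⌋₊ : ℝ) / M) ((⌊s * M⌋₊ + 1) / M) :=
  ⟨(div_le_iff₀ hM).2 (Nat.floor_le (by positivity)),
    (lt_div_iff₀ hM).2 (Nat.lt_floor_add_one _)⟩

end ThkX

open ThkX in
theorem thk (hb : RB) (hn : RNd) (hl : RLd) : RThk := by
  classical
  intro Y _ T
  obtain ⟨C, D, hC, hD, hN⟩ := hn Y T
  obtain ⟨e, γ, he, g0, g1, hL⟩ := hl D (8 * C) hD
  have hex : ∀ i a : ℕ, ∃ x : ℕ, T.Thick (a / 64 ^ i) (8 ^ i) (1 / 8 ^ (e + x)) :=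
    fun i a => ex (hb Y T) _ (by positivity) e
  obtain ⟨ε, hε⟩ : ∃ ε : ℝ, ε = 1 / 8 ^ e / 2 / 8 ^ (D * e) := ⟨_, rfl⟩
  have one : ∀ n : ℕ, (1 : ℝ) ≤ 8 ^ n := fun n => one_le_pow₀ (by norm_num)
  have inv : ∀ n : ℕ, (1 : ℝ) / 8 ^ n ≤ 1 := fun n => (div_le_one (by positivity)).2 (one n)
  let bad : ℕ → ℕ → Prop := fun j a =>
    ∃ s ∈ Icc ((a : ℝ) / 64 ^ j) ((a + 1) / 64 ^ j), ¬ T.Thick s (8 ^ j) ε
  obtain ⟨C', hC', H⟩ := hL (Nat.find (hex 0 0))
  have H1 := H (fun i a => Nat.find (hex i a)) bad le_rfl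
    (fun i a t b h0 ht hb' ⟨s, hs, hn⟩ => hn (by
      have k := Nat.find_spec (hex i a)
      rw [show Nat.find (hex i a) = 0 from h0, add_zero] at k
      have l1 := hs.1
      have l2 : s ≤ ((a * 64 ^ t + (b + 1) : ℕ) : ℝ) / 64 ^ (i + t) := by
        refine hs.2.trans (le_of_eq ?_)
        push_cast
        ring
      rw [node] at l1 l2
      have l3 : ((b + 1 : ℕ) : ℝ) / 64 ^ (i + t) ≤ 1 / (8 ^ i) ^ 2 := by
        have l4 : ((b + 1 : ℕ) : ℝ) ≤ 64 ^ t := by exact_mod_cast hb'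
        refine (div_le_div_of_nonneg_right l4 (by positivity)).trans (le_of_eq ?_)
        rw [← pow_mul, mul_comm i 2, pow_mul, pow_add]
        norm_num
        field_simp
      have l5 : (0 : ℝ) ≤ b / 64 ^ (i + t) := by positivity
      have l6 : (0 : ℝ) ≤ 1 / (8 ^ i) ^ 2 := by positivity
      have k2 := scale (stab (s' := s) k (by positivity) (abs_le.2 ⟨by linarith, by linarith⟩))
        (by positivity) (one t)
      rw [← pow_add] at k2
      refine mono k2 ?_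
      rw [hε]
      exact div_le_div_of_nonneg_left (by positivity) (by positivity)
        (pow_le_pow_right₀ (by norm_num) ht.le)))
    (fun i a t y ht hy => by
      obtain ⟨y, rfl⟩ : ∃ y', y = y' + 1 := ⟨y - 1, by omega⟩
      have k := hN i t _ _ (1 / 8 ^ (e + y)) (by positivity) (inv _) (Nat.find_spec (hex i a))
        (by
          rw [ht, one_div_pow, ← pow_mul, mul_comm D, one_div_mul_cancel (by positivity)])
        (by positivity) (inv _)
      refine le_trans ?_ (k.trans (le_of_eq ?_))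
      · refine Nat.cast_le.2 (ncard_le_ncard (fun b hb' => ⟨hb'.1, ?_⟩)
          ((finite_lt_nat _).subset fun b hb' => hb'.1))
        rw [← node]
        exact Nat.find_min (hex (i + t) (a * 64 ^ t + b)) (Nat.lt_of_succ_le hb'.2)
      · rw [← add_assoc, pow_succ]
        field_simp)
  refine ⟨ε, C', γ, by rw [hε]; positivity, ?_, hC', g0, g1, fun N => ?_⟩
  · rw [hε, div_le_iff₀ (by positivity)]
    linarith [one (D * e), inv e]
  have fin : {a : ℕ | a < 64 ^ N ∧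
      N ≤ 4 * {j : ℕ | j < N ∧ bad j (a / 64 ^ (N - j))}.ncard}.Finite :=
    (finite_lt_nat _).subset fun a ha => ha.1
  refine ⟨_, MeasurableSet.biUnion fin.countable fun _ _ => measurableSet_Ico,
    (vol fin (64 ^ N)).trans (ENNReal.ofReal_le_ofReal
      ((div_le_iff₀ (by positivity)).2 (H1 N))), fun s hs hn => ?_⟩
  have h1 : ⌊s * 64 ^ N⌋₊ < 64 ^ N := by
    rw [Nat.floor_lt (mul_nonneg hs.1 (by positivity))]
    push_cast
    exact mul_lt_of_lt_one_left (by positivity) hs.2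
  have h2 : 4 * {j : ℕ | j < N ∧ bad j (⌊s * 64 ^ N⌋₊ / 64 ^ (N - j))}.ncard < N :=
    not_le.1 fun h => hn (mem_iUnion₂.2 ⟨⌊s * 64 ^ N⌋₊, ⟨h1, h⟩, cell hs.1 (by positivity)⟩)
  refine le_trans (Nat.mul_le_mul_left 4 (ncard_le_ncard ?_
    ((finite_lt_nat _).subset fun j hj => hj.1))) h2.le
  intro j hj
  refine ⟨hj.1, s, ?_, hj.2⟩
  have e1 : ⌊s * 64 ^ N⌋₊ / 64 ^ (N - j) = ⌊s * 64 ^ j⌋₊ := by
    rw [← Nat.floor_div_natCast]
    congr 1
    obtain ⟨d, rfl⟩ := Nat.exists_eq_add_of_le hj.1.le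
    rw [Nat.add_sub_cancel_left, pow_add]
    push_cast
    field_simp
  rw [e1]
  exact Ico_subset_Icc_self (cell hs.1 (by positivity))

end Pool.Agent.MP_16ecd2_an.H18
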