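import Pool.Agent.MP_16ecd2_an.H18.Kit

/-!
The weighted count in a thin cone is bounded by the crossings of two separatrices.
-/

set_option autoImplicit false

namespace Pool.Agent.MP_16ecd2_an.H18

open MeasureTheory Set
open scoped ENNReal

namespace V1X

theorem dir_re (s t : ℝ) : (t • dir s).re = t * s := by simp [dir]

theorem dir_im (s t : ℝ) : (t • dir s).im = t := by simp [dir]

theorem conv_Th (σ η L : ℝ) : Convex ℝ (Th σ η L) := by
  rintro u ⟨h1, h2, h3, h4⟩ v ⟨k1, k2, k3, k4⟩ a b ha hb hab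
  simp only [Th, mem_ofPred_eq, Complex.add_re, Complex.add_im, Complex.smul_re, Complex.smul_im,
    smul_eq_mul]
  refine ⟨?_, ?_, ?_, ?_⟩
  · rcases ha.eq_or_lt with rfl | ha'
    · rw [zero_add] at hab
      simpa [hab] using k1
    · positivity
  · nlinarith [mul_le_mul_of_nonneg_left h2 ha, mul_le_mul_of_nonneg_left k2 hb]
  · nlinarith [mul_nonneg ha h3, mul_nonneg hb k3]
  · nlinarith [mul_le_mul_of_nonneg_left h4 ha, mul_le_mul_of_nonneg_left k4 hb]

theorem conv_ray (s L : ℝ) : Convex ℝ ((fun t : ℝ => t • dir s) '' Ioc 0 L) :=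
  (convex_Ioc 0 L).linear_image (LinearMap.toSpanSingleton ℝ ℂ (dir s))

theorem cone {σ η y₁ y₂ : ℝ} {v : ℂ} (hy : 2 ≤ y₁) (h : v ∈ Cone (Ico σ (σ + η)) y₁ y₂) :
    y₁ ≤ v.im ∧ v.im < y₂ ∧ 0 ≤ v.re - σ * v.im ∧ v.re - σ * v.im < η * v.im := by
  obtain ⟨⟨h1, h2⟩, h3, h4⟩ := h
  have h0 : 0 < v.im := by linarith
  rw [le_div_iff₀ h0] at h3
  rw [div_lt_iff₀ h0] at h4
  exact ⟨h1, h2, by linarith, by linarith⟩

/-- The interval of times that belong to a crossing. -/
noncomputable def Iv (σ s a x : ℝ) : Set ℝ := if s < σ then Icc (x - a) x else Icc x (x + a)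

theorem vol_Iv (σ s a x : ℝ) : volume (Iv σ s a x) = ENNReal.ofReal a := by
  unfold Iv
  split_ifs <;> simp

theorem meas_Iv (σ s a x : ℝ) : MeasurableSet (Iv σ s a x) := by
  unfold Iv
  split_ifs <;> exact measurableSet_Icc

theorem num {σ s η y l : ℝ} (hη : 0 < η) (hd : 4 * η ≤ |σ - s|) (hy : 0 < y)
    (h1 : 0 ≤ (σ - s) * l) (h2 : (σ - s) * l < η * (y - l)) (x : ℝ) :
    x - l ∈ Iv σ s (η * y / (|σ - s| - η)) x ∧
      1 / (y - l) ≤ (|σ - s| + η) / (|σ - s| * y) := by
  have h0 : 0 < y - l := (mul_pos_iff_of_pos_left hη).1 (h1.trans_lt h2)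
  have hd0 : 0 < |σ - s| - η := by linarith
  have hd1 : 0 < |σ - s| := by linarith
  rw [div_le_div_iff₀ h0 (by positivity), Iv]
  split_ifs with h
  · rw [abs_of_pos (sub_pos.2 h)] at *
    have hl : 0 ≤ l := (mul_nonneg_iff_of_pos_left hd1).1 h1
    refine ⟨⟨sub_le_sub_left ((le_div_iff₀ hd0).2 (by nlinarith)) _, by linarith⟩, by nlinarith⟩
  · rw [abs_of_nonpos (sub_nonpos.2 (not_lt.1 h))] at *
    have hl : l ≤ 0 := by nlinarith
    refine ⟨⟨by linarith, ?_⟩, by nlinarith⟩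
    have : -l ≤ η * y / (-(σ - s) - η) := (le_div_iff₀ hd0).2 (by nlinarith)
    linarith

end V1X

open V1X

theorem v1 (hb : RB) : RV1 := by
  intro Y _ T Ω Ω' Φ Φ' σ s η L y₁ y₂ hΦ hΦ' hTh hray hη hd hL hy₁ hy₂ hfin
  classical
  have hd4 : 4 * η ≤ |σ - s| := by nlinarith
  have hd0 : 0 < |σ - s| := by linarith
  have hne : σ - s ≠ 0 := abs_pos.1 hd0
  have key : ∀ t ∈ Ico y₁ y₂, wt Φ (Cone (Ico σ (σ + η)) y₁ y₂) rho (Φ' (t • dir s)) ≤
      ∑ p ∈ hfin.toFinset, (Iv σ s (η * p.2 / (|σ - s| - η)) p.1).indicator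
        (fun _ => ENNReal.ofReal ((|σ - s| + η) / (|σ - s| * p.2))) t := by
    intro t ht
    rw [wt, tsum_eq_sum (s := hfin.toFinset.image fun p => p.2 • dir σ - (p.1 - t) • dir s)
      fun v hv => indicator_of_notMem (fun h => hv ?_) _]
    · refine (Finset.sum_image_le_of_nonneg fun _ _ => zero_le).trans
        (Finset.sum_le_sum fun p hp => ?_)
      refine indicator_apply_le' (fun h => ?_) fun _ => zero_le
      obtain ⟨-, -, h3, h4⟩ := cone hy₁ h.1
      simp only [Complex.sub_re, Complex.sub_im, dir_re, dir_im] at h3 h4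
      have h5 := (hfin.mem_toFinset.1 hp).2.1.1
      obtain ⟨h6, h7⟩ := num (l := p.1 - t) hη hd4 (show 0 < p.2 by linarith) (by linarith)
        (by linarith) p.1
      rw [sub_sub_cancel] at h6
      rw [indicator_of_mem h6, rho, Complex.sub_im, dir_im, dir_im]
      exact ENNReal.ofReal_le_ofReal h7
    · obtain ⟨h1, h2, h3, h4⟩ := cone hy₁ h.1
      obtain ⟨l, hl⟩ : ∃ l, (σ - s) * l = v.re - σ * v.im := ⟨_, mul_div_cancel₀ _ hne⟩
      have h5 : |l| < 1 := by
        have h6 : |σ - s| * |l| = v.re - σ * v.im := by rw [← abs_mul, hl, abs_of_nonneg h3]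
        by_contra h7
        nlinarith [mul_le_mul_of_nonneg_left (not_lt.1 h7) hd0.le]
      rw [abs_lt] at h5
      have h6 : v + l • dir s = (v.im + l) • dir σ := by
        apply Complex.ext <;> simp only [Complex.add_re, Complex.add_im, dir_re, dir_im]
        linarith
      have h7 := ((hb Y T).devc Ω _ Φ hΦ (conv_Th σ η L) hTh v
        ⟨by linarith, by linarith, h3, h4.le⟩ (l • dir s) (by
          rw [h6]
          simp only [Th, mem_ofPred_eq, dir_re, dir_im]
          refine ⟨by linarith, by linarith, by linarith, ?_⟩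
          nlinarith)).2
      have h8 := ((hb Y T).devc Ω' _ Φ' hΦ' (conv_ray s L) (by
        rintro _ ⟨a, ha, rfl⟩
        exact hray a ha) (t • dir s) ⟨t, ⟨by linarith [ht.1], by linarith [ht.2]⟩, rfl⟩
        (l • dir s) ⟨t + l, ⟨by linarith [ht.1], by linarith [ht.2]⟩, add_smul _ _ _⟩).2
      refine Finset.mem_image.2 ⟨(t + l, v.im + l), hfin.mem_toFinset.2
        ⟨⟨by linarith [ht.1], by linarith [ht.2]⟩, ⟨by linarith, by linarith⟩, ?_⟩, ?_⟩
      · rw [add_smul, h8, ← h6, h7, show Φ v = _ from h.2]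
      · rw [← h6, add_sub_cancel_left, add_sub_cancel_right]
  refine (setLIntegral_mono' measurableSet_Ico key).trans ((setLIntegral_le_lintegral _ _).trans ?_)
  rw [lintegral_finsetSum _ fun p _ => measurable_const.indicator (meas_Iv _ _ _ _),
    ncard_eq_toFinset_card _ hfin, mul_comm, ENNReal.ofReal_mul (Nat.cast_nonneg _),
    ENNReal.ofReal_natCast, ← nsmul_eq_mul]
  refine Finset.sum_le_card_nsmul _ _ _ fun p hp => ?_
  have h5 : 0 < p.2 := by linarith [(hfin.mem_toFinset.1 hp).2.1.1]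
  have h1 : 0 < |σ - s| - η := by linarith
  rw [lintegral_indicator_const (meas_Iv _ _ _ _), vol_Iv, ← ENNReal.ofReal_mul (by positivity)]
  refine ENNReal.ofReal_le_ofReal ?_
  rw [div_mul_div_comm, div_le_div_iff₀ (by positivity) (by linarith)]
  nlinarith [mul_pos (mul_pos hη hη) (mul_pos hη h5)]

end Pool.Agent.MP_16ecd2_an.H18
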