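import Pool.Agent.MP_16ecd2_an.H18.Kit

/-!
The sum over the thin triangles.
-/

set_option autoImplicit false

namespace Pool.Agent.MP_16ecd2_an.H18

open MeasureTheory Set Filter Topology Metric
open scoped ENNReal

namespace V2iX

theorem cone_sub {σ η L y₁ y₂ : ℝ} (h1 : 0 < y₁) (h2 : y₂ ≤ L) :
    Cone (Ico σ (σ + η)) y₁ y₂ ⊆ Th σ η L := by
  rintro v ⟨⟨a, b⟩, c, d⟩
  have h0 : 0 < v.im := h1.trans_le a
  rw [le_div_iff₀ h0] at c
  rw [div_lt_iff₀ h0] at d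
  exact ⟨h0, b.le.trans h2, by linarith, by linarith⟩

theorem dir_mem {σ η L t : ℝ} (hη : 0 ≤ η) (ht : t ∈ Ioc (0 : ℝ) L) : t • dir σ ∈ Th σ η L := by
  have e1 : (t • dir σ).im = t := by simp [dir]
  have e2 : (t • dir σ).re = t * σ := by simp [dir]
  refine ⟨e1.symm ▸ ht.1, e1.symm ▸ ht.2, ?_, ?_⟩ <;> rw [e1, e2]
  · linarith
  · nlinarith [mul_nonneg hη ht.1.le]

theorem wt_le {Z : Type} {Φ : ℂ → Z} {G : Set ℝ} {y₁ y₂ : ℝ} (h1 : 0 < y₁)
    (h : InjOn Φ (Cone G y₁ y₂)) (q : Z) :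
    wt Φ (Cone G y₁ y₂) rho q ≤ ENNReal.ofReal (1 / y₁) := by
  unfold wt
  by_cases hn : (Cone G y₁ y₂ ∩ Φ ⁻¹' {q}).Nonempty
  · obtain ⟨v, hv⟩ := hn
    rw [tsum_eq_single v fun w hw => indicator_of_notMem
      (fun hw' => hw (h hw'.1 hv.1 (hw'.2.trans hv.2.symm))) _, indicator_of_mem hv]
    exact ENNReal.ofReal_le_ofReal (one_div_le_one_div_of_le h1 hv.1.1.1)
  · rw [not_nonempty_iff_eq_empty.1 hn]
    simp

theorem inj_sum (s : Finset ℕ) (g : ℕ → ℕ) (n : ℕ) (hg : InjOn g s) (hn : ∀ a ∈ s, g a < n) :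
    ∑ a ∈ s, (1 / ((g a : ℝ) + 1)) ≤ 1 + Real.log n := by
  classical
  have h1 : ∑ a ∈ s, (1 / ((g a : ℝ) + 1)) = ∑ k ∈ s.image g, (1 / ((k : ℝ) + 1)) :=
    (Finset.sum_image (f := fun k : ℕ => 1 / ((k : ℝ) + 1)) hg).symm
  have h2 : s.image g ⊆ Finset.range n := fun k hk => by
    obtain ⟨a, ha, rfl⟩ := Finset.mem_image.1 hk
    exact Finset.mem_range.2 (hn a ha)
  have h3 := harmonic_le_one_add_log n
  rw [h1]
  refine (Finset.sum_le_sum_of_subset_of_nonneg h2 fun _ _ _ => by positivity).trans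
    (le_trans (le_of_eq ?_) h3)
  simp [harmonic]

theorem far_sum (s : Finset ℕ) (x : ℝ) (n : ℕ) (h0 : 0 ≤ x) (hx : x < n) (hs : ∀ a ∈ s, a < n)
    (h : ∀ a ∈ s, 2 ≤ |(a : ℝ) - x|) : ∑ a ∈ s, 1 / |(a : ℝ) - x| ≤ 4 * (1 + Real.log n) := by
  have m1 := Nat.floor_le h0
  have m2 := Nat.lt_floor_add_one x
  have m3 : ⌊x⌋₊ < n := (Nat.floor_lt h0).2 hx
  set m := ⌊x⌋₊
  have k : ∀ u w : ℝ, 2 ≤ u → 0 ≤ w → w ≤ u + 1 → 1 / u ≤ 2 * (1 / (w + 1)) := fun u w a b c => by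
    rw [mul_one_div, div_le_div_iff₀ (by linarith) (by linarith)]
    linarith
  rw [← Finset.sum_filter_add_sum_filter_not s fun a => m ≤ a]
  have s1 := inj_sum (s.filter fun a => m ≤ a) (fun a => a - m) n (fun a ha b hb e => by
    have := (Finset.mem_filter.1 ha).2
    have := (Finset.mem_filter.1 hb).2
    simp only at e
    omega) fun a ha => by
      have := hs a (Finset.mem_filter.1 ha).1
      omega
  have s2 := inj_sum (s.filter fun a => ¬ m ≤ a) (fun a => m - a) n (fun a ha b hb e => by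
    have := (Finset.mem_filter.1 ha).2
    have := (Finset.mem_filter.1 hb).2
    simp only at e
    omega) fun a _ => by omega
  have t1 : ∑ a ∈ s.filter fun a => m ≤ a, 1 / |(a : ℝ) - x| ≤
      ∑ a ∈ s.filter fun a => m ≤ a, 2 * (1 / (((a - m : ℕ) : ℝ) + 1)) :=
    Finset.sum_le_sum fun a ha => k _ _ (h a (Finset.mem_filter.1 ha).1) (Nat.cast_nonneg _) (by
      rw [Nat.cast_sub (Finset.mem_filter.1 ha).2]
      linarith [le_abs_self ((a : ℝ) - x)])
  have t2 : ∑ a ∈ s.filter fun a => ¬ m ≤ a, 1 / |(a : ℝ) - x| ≤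
      ∑ a ∈ s.filter fun a => ¬ m ≤ a, 2 * (1 / (((m - a : ℕ) : ℝ) + 1)) :=
    Finset.sum_le_sum fun a ha => k _ _ (h a (Finset.mem_filter.1 ha).1) (Nat.cast_nonneg _) (by
      rw [Nat.cast_sub (not_le.1 (Finset.mem_filter.1 ha).2).le]
      linarith [neg_abs_le ((a : ℝ) - x)])
  rw [← Finset.mul_sum] at t1 t2
  linarith

theorem near_card (s : Finset ℕ) (x : ℝ) (l : ℕ) (h0 : 0 ≤ x) (hl : 1 ≤ l)
    (h : ∀ a ∈ s, |(a : ℝ) - x| < l) : s.card ≤ 3 * l := by
  have m1 := Nat.floor_le h0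
  have m2 := Nat.lt_floor_add_one x
  have h1 : s ⊆ Finset.Icc (⌊x⌋₊ - l) (⌊x⌋₊ + l) := fun a ha => by
    obtain ⟨a1, a2⟩ := abs_lt.1 (h a ha)
    have b1 : ⌊x⌋₊ < a + l := by
      have : (⌊x⌋₊ : ℝ) < a + l := by linarith
      exact_mod_cast this
    have b2 : a < ⌊x⌋₊ + l + 1 := by
      have : (a : ℝ) < ⌊x⌋₊ + l + 1 := by linarith
      exact_mod_cast this
    rw [Finset.mem_Icc]
    omega
  have h2 := Finset.card_le_card h1
  rw [Nat.card_Icc] at h2
  omega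

theorem far_ineq {η u D A δ E L c : ℝ} (hη : 0 < η) (hu : 4 ≤ u) (hA : 0 < A) (hδ : 0 < δ)
    (hE : 0 ≤ E) (hL : 1 ≤ L) (hD : D ≤ L) (h2 : 2 * η * D ^ 2 ≤ 1)
    (hc : c ≤ D ^ 2 * (η * u) / A + (3 * D / δ + 1) * E) :
    η / (η * u - 2 * η) * c ≤ η * D ^ 2 / A + 2 * (1 / A + 3 / δ + 1) * (1 + L * E) * (1 / u) := by
  have u2 : 0 < u - 2 := by linarith
  have e1 : η / (η * u - 2 * η) = 1 / (u - 2) := by
    rw [show η * u - 2 * η = η * (u - 2) by ring]
    field_simp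
  have e2 : 1 / (u - 2) * (D ^ 2 * (η * u) / A + (3 * D / δ + 1) * E) =
      η * D ^ 2 / A + 1 / (u - 2) * (2 * η * D ^ 2 / A + (3 * D / δ + 1) * E) := by
    field_simp
    ring
  have a1 : 1 / (u - 2) ≤ 2 * (1 / u) := by
    rw [mul_one_div, div_le_div_iff₀ u2 (by linarith)]
    linarith
  have a2 : 2 * η * D ^ 2 / A ≤ 1 / A := div_le_div_of_nonneg_right h2 hA.le
  have a3 : 3 * D / δ + 1 ≤ (3 / δ + 1) * L := by
    have : 3 * D / δ ≤ 3 * L / δ := div_le_div_of_nonneg_right (by linarith) hδ.le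
    have e : (3 / δ + 1) * L = 3 * L / δ + L := by ring
    linarith
  have a4 : 2 * η * D ^ 2 / A + (3 * D / δ + 1) * E ≤ (1 / A + 3 / δ + 1) * (1 + L * E) := by
    have b1 := mul_le_mul_of_nonneg_right a3 hE
    have b2 : 0 ≤ 1 / A * (L * E) := by positivity
    have b3 : 0 ≤ 3 / δ := by positivity
    nlinarith
  rw [e1]
  calc _ ≤ 1 / (u - 2) * (D ^ 2 * (η * u) / A + (3 * D / δ + 1) * E) :=
        mul_le_mul_of_nonneg_left hc (by positivity)
    _ ≤ η * D ^ 2 / A + 1 / (u - 2) * ((1 / A + 3 / δ + 1) * (1 + L * E)) := by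
        rw [e2]
        exact add_le_add le_rfl (mul_le_mul_of_nonneg_left a4 (by positivity))
    _ ≤ η * D ^ 2 / A + 2 * (1 / u) * ((1 / A + 3 / δ + 1) * (1 + L * E)) :=
        add_le_add le_rfl (mul_le_mul_of_nonneg_right a1 (by positivity))
    _ = _ := by ring

end V2iX

open V2iX

theorem v2i (hb : RB) (h1 : RV1) (hc : RV1c) : RV2i := by
  intro Y _ T δ hδ hS
  have hA := (hb Y T).area_pos
  refine ⟨232 * (1 / T.area + 3 / δ + 1), by positivity, ?_⟩
  intro N L η E s y₁ y₂ Ω Ω' Φ Φ' J hN hL hη hΩ hΩ' hD hE hs hs' hJ y1 y12 y2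
  have L8 : 8 ≤ L := by
    rw [hL]
    exact le_self_pow₀ (by norm_num) (by omega)
  have N2 : (2 : ℝ) ≤ 2 ^ N := le_self_pow₀ (by norm_num) (by omega)
  have η0 : 0 < η := by rw [hη]; positivity
  have ηL : η * L ^ 3 = 1 := by rw [hη]; field_simp
  set x := s * L ^ 3 with hx
  have x0 : 0 ≤ x := mul_nonneg hs.1 (by positivity)
  have e : ∀ a : ℕ, |a * η - s| = η * |(a : ℝ) - x| := fun a => by
    rw [← abs_of_pos η0, ← abs_mul, abs_of_pos η0]
    congr 1
    linear_combination s * ηL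
  set K := 2 * (1 / T.area + 3 / δ + 1) * (1 + L * E) with hK
  have K0 : 0 ≤ K := by positivity
  set D := y₂ - y₁ + 2 with hD'
  have key : ∀ a ∈ J, ∫⁻ t in Ico y₁ y₂,
      wt Φ (Cone (Ico (a * η) (a * η + η)) y₁ y₂) rho (Φ' (t • dir s)) ≤ ENNReal.ofReal
        (η * D ^ 2 / T.area + if |(a : ℝ) - x| < L then L / 2 ^ N else K * (1 / |(a : ℝ) - x|)) := by
    intro a ha
    obtain ⟨j1, j2, j3⟩ := hJ a ha
    split_ifs with h
    · refine (lintegral_mono fun t => wt_le (by linarith)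
        (j3.mono (cone_sub (by linarith) (by linarith))) _).trans ?_
      rw [lintegral_const, Measure.restrict_apply_univ, Real.volume_Ico,
        ← ENNReal.ofReal_mul (one_div_nonneg.2 (by linarith))]
      refine ENNReal.ofReal_le_ofReal (le_add_of_nonneg_of_le (by positivity) ?_)
      rw [one_div_mul_eq_div]
      exact div_le_div₀ (by linarith) (by linarith) (by positivity) y1
    · rw [not_lt] at h
      have a0 : 0 ≤ (a : ℝ) * η := by positivity
      obtain ⟨c1, c2⟩ := hc Y T Ω Ω' Φ Φ' (a * η) s δ E L y₁ y₂ hΩ hΩ'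
        (fun t ht => j2 (dir_mem η0.le ht)) hs' hδ hS hD hE
        (fun e' => by
          have := e a
          rw [e', sub_self, abs_zero] at this
          nlinarith)
        (abs_le.2 ⟨by linarith [hs.2], by linarith [hs.1]⟩)
        (abs_le.2 ⟨by linarith [hs.1], hs.2.le⟩) (by linarith) y12 y2
      refine (h1 Y T Ω Ω' Φ Φ' (a * η) s η L y₁ y₂ hΩ hΩ' j2 hs' η0
        (by rw [e]; exact mul_le_mul_of_nonneg_left h η0.le) (by linarith) (by linarith) y2
        c1).trans (ENNReal.ofReal_le_ofReal ?_)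
      rw [e] at c2 ⊢
      refine far_ineq η0 (by linarith) hA hδ hE (by linarith) (by linarith) ?_ c2
      have d1 : D ^ 2 ≤ L ^ 2 := pow_le_pow_left₀ (by linarith) (by linarith) 2
      have d2 : 2 * L ^ 2 ≤ L ^ 3 := by nlinarith
      nlinarith
  refine (Finset.sum_le_sum key).trans ?_
  rw [← ENNReal.ofReal_sum_of_nonneg fun a _ => by split_ifs <;> positivity]
  refine ENNReal.ofReal_le_ofReal ?_
  rw [Finset.sum_add_distrib, Finset.sum_const, nsmul_eq_mul, Finset.sum_ite, Finset.sum_const,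
    nsmul_eq_mul, ← Finset.mul_sum]
  have L4 : L ^ 3 < ((8 ^ (4 * N) : ℕ) : ℝ) := by
    have : ((8 ^ (4 * N) : ℕ) : ℝ) = L ^ 4 := by rw [hL, ← pow_mul, mul_comm]; norm_num
    rw [this]
    exact pow_lt_pow_right₀ (by linarith) (by norm_num)
  have f1 := far_sum (J.filter fun a : ℕ => ¬ |(a : ℝ) - x| < L) x (8 ^ (4 * N)) x0
    ((mul_le_of_le_one_left (by positivity) hs.2.le).trans_lt L4)
    (fun a ha => by
      have j1 := (hJ a (Finset.mem_filter.1 ha).1).1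
      have j2 : (a : ℝ) ≤ L ^ 3 := by
        have := mul_le_mul_of_nonneg_right j1 (show 0 ≤ L ^ 3 by positivity)
        rwa [mul_assoc, ηL, mul_one, one_mul] at this
      exact_mod_cast j2.trans_lt L4)
    fun a ha => by linarith [not_lt.1 (Finset.mem_filter.1 ha).2]
  have f2 : Real.log ((8 ^ (4 * N) : ℕ) : ℝ) ≤ 28 * N := by
    have := Real.log_le_sub_one_of_pos (show (0 : ℝ) < 8 by norm_num)
    rw [Nat.cast_pow, Real.log_pow]
    push_cast
    nlinarith [Nat.cast_nonneg (α := ℝ) N]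
  have f3 : (1 : ℝ) ≤ N := by exact_mod_cast hN
  have f4 := near_card (J.filter fun a : ℕ => |(a : ℝ) - x| < L) x (8 ^ N) x0
    (Nat.one_le_pow _ _ (by norm_num)) fun a ha => by
      have := (Finset.mem_filter.1 ha).2
      rwa [Nat.cast_pow, Nat.cast_ofNat, ← hL]
  have f5 : ((J.filter fun a : ℕ => |(a : ℝ) - x| < L).card : ℝ) ≤ 3 * L := by
    rw [hL] at f4 ⊢
    exact_mod_cast f4
  have f6 := mul_le_mul_of_nonneg_right f5 (show 0 ≤ L / 2 ^ N by positivity)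
  have f7 := mul_le_mul_of_nonneg_left (f1.trans (show _ ≤ 116 * (N : ℝ) by linarith)) K0
  have g1 : (J.card : ℝ) * (η * D ^ 2 / T.area) = J.card * η * D ^ 2 / T.area := by ring
  have g2 : 3 * L * (L / 2 ^ N) = 3 * L ^ 2 / 2 ^ N := by ring
  have g3 : K * (116 * N) = 232 * (1 / T.area + 3 / δ + 1) * N * (1 + L * E) := by rw [hK]; ring
  linarith

end Pool.Agent.MP_16ecd2_an.H18
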