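import Pool.Agent.MP_16ecd2_an.H18.Kit

/-!
The second moment bound on the good set of slopes.
-/

set_option autoImplicit false

namespace Pool.Agent.MP_16ecd2_an.H18

open MeasureTheory Set Filter Topology Metric
open scoped ENNReal

namespace V2mX

theorem arith {k A g D L w n C₁ C₂ R : ℝ} (hA : 0 < A) (hg : 0 ≤ g) (hg1 : g ≤ 1) (hD : 0 ≤ D)
    (hDL : D + 2 ≤ L) (hn : n ≤ g + C₁ * w) (hw : 1 ≤ w * L) (hw0 : 0 ≤ w) (h1 : 0 ≤ C₁)
    (h2 : 0 ≤ C₂) (hR : R ≤ C₂ * w * L ^ 2) :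
    k * (k * (n * (D + 2) ^ 2 / A + R) * g) ≤
      (k * g * D) ^ 2 / A + k ^ 2 * ((C₁ + 4) / A + C₂) * w * L ^ 2 := by
  have hL : 0 ≤ L := by linarith
  have e1 : g * R ≤ C₂ * w * L ^ 2 :=
    (mul_le_mul_of_nonneg_left hR hg).trans (mul_le_of_le_one_left (by positivity) hg1)
  have e2 : (D + 2) ^ 2 ≤ L ^ 2 := by gcongr
  have e3 : g * (C₁ * w * (D + 2) ^ 2) ≤ C₁ * w * L ^ 2 :=
    (mul_le_of_le_one_left (by positivity) hg1).trans (by gcongr)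
  have e4 : g ^ 2 * (4 * D + 4) ≤ 4 * (w * L ^ 2) := by
    have a1 : g ^ 2 * (4 * D + 4) ≤ 1 * (4 * L) := by
      gcongr
      · exact pow_le_one₀ hg hg1
      · linarith
    have a2 : 1 * L ≤ w * L * L := by gcongr
    nlinarith
  have e5 : g * (n * (D + 2) ^ 2) ≤ g * ((g + C₁ * w) * (D + 2) ^ 2) := by gcongr
  have e6 : g * (n * (D + 2) ^ 2) ≤ (g * D) ^ 2 + (C₁ + 4) * w * L ^ 2 := by nlinarith
  have e7 : g * (n * (D + 2) ^ 2) / A ≤ ((g * D) ^ 2 + (C₁ + 4) * w * L ^ 2) / A := by gcongr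
  have e8 : k ^ 2 * (g * (n * (D + 2) ^ 2) / A + g * R) ≤
      k ^ 2 * (((g * D) ^ 2 + (C₁ + 4) * w * L ^ 2) / A + C₂ * w * L ^ 2) := by gcongr
  calc _ = k ^ 2 * (g * (n * (D + 2) ^ 2) / A + g * R) := by ring
    _ ≤ _ := e8
    _ = _ := by ring

theorem geo {r : ℝ} (h0 : 0 < r) (h1 : r < 1) :
    ∃ C γ : ℝ, 0 < C ∧ 0 < γ ∧ γ < 1 ∧ ∀ N : ℕ, N * r ^ N ≤ C * γ ^ N := by
  have hγ : 0 < (1 + r) / 2 := by positivity
  obtain ⟨C, hC⟩ := (tendsto_self_mul_const_pow_of_lt_one (r := r / ((1 + r) / 2))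
    (by positivity) ((div_lt_one hγ).2 (by linarith))).bddAbove_range
  refine ⟨max C 1, (1 + r) / 2, by positivity, hγ, by linarith, fun N => ?_⟩
  have h := (hC ⟨N, rfl⟩).trans (le_max_left C 1)
  simp only [div_pow r] at h
  rwa [← mul_div_assoc, div_le_iff₀ (by positivity)] at h

theorem wt_le {Z ι : Type} (Φ : ℂ → Z) (D : Set ℂ) (J : Finset ι) (E : ι → Set ℂ)
    (h : ∀ v ∈ D, ∃ a ∈ J, v ∈ E a) (ρ : ℂ → ℝ≥0∞) (q : Z) :
    wt Φ D ρ q ≤ ∑ a ∈ J, wt Φ (E a) ρ q := by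
  unfold wt
  rw [← Summable.tsum_finsetSum fun _ _ => ENNReal.summable]
  refine ENNReal.tsum_le_tsum fun v => ?_
  by_cases hv : v ∈ D ∩ Φ ⁻¹' {q}
  · obtain ⟨a, ha, hE⟩ := h v hv.1
    rw [indicator_of_mem hv, ← indicator_of_mem (show v ∈ E a ∩ Φ ⁻¹' {q} from ⟨hE, hv.2⟩) ρ]
    exact Finset.single_le_sum (f := fun a => (E a ∩ Φ ⁻¹' {q}).indicator ρ v)
      (fun _ _ => zero_le) ha
  · rw [indicator_of_notMem hv]
    exact zero_le

theorem floor_mem {s η : ℝ} (hs : 0 ≤ s) (hη : 0 < η) :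
    s ∈ Ico (⌊s / η⌋₊ * η) (⌊s / η⌋₊ * η + η) := by
  have h1 := Nat.floor_le (div_nonneg hs hη.le)
  have h2 := Nat.lt_floor_add_one (s / η)
  rw [le_div_iff₀ hη] at h1
  rw [div_lt_iff₀ hη] at h2
  exact ⟨h1, by linarith⟩

theorem card_le {s₁ s₂ η : ℝ} (h1 : 0 ≤ s₁) (h2 : s₁ ≤ s₂) (hη : 0 < η) (J : Finset ℕ)
    (h : ∀ a ∈ J, a * η < s₂ ∧ s₁ < a * η + η) : J.card * η ≤ s₂ - s₁ + 2 * η := by
  have h3 : J ⊆ Finset.Ico ⌊s₁ / η⌋₊ ⌈s₂ / η⌉₊ := fun a ha => by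
    obtain ⟨h4, h5⟩ := h a ha
    refine Finset.mem_Ico.2 ⟨Nat.lt_succ_iff.1 ((Nat.floor_lt (by positivity)).2 ?_),
      Nat.lt_ceil.2 ((lt_div_iff₀ hη).2 h4)⟩
    rw [div_lt_iff₀ hη]
    push_cast
    linarith
  have h4 := Finset.card_le_card h3
  have h5 : ⌊s₁ / η⌋₊ ≤ ⌈s₂ / η⌉₊ :=
    (Nat.floor_le_ceil _).trans (Nat.ceil_mono (by gcongr))
  rw [Nat.card_Ico] at h4
  have h6 : (J.card : ℝ) ≤ ⌈s₂ / η⌉₊ - ⌊s₁ / η⌋₊ := by exact_mod_cast h4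
  have h7 := Nat.ceil_lt_add_one (show 0 ≤ s₂ / η from div_nonneg (h1.trans h2) hη.le)
  have h8 := Nat.lt_floor_add_one (s₁ / η)
  have h9 : (J.card : ℝ) ≤ (s₂ - s₁ + 2 * η) / η := by
    rw [add_div, sub_div, mul_div_cancel_right₀ _ hη.ne']
    linarith
  rwa [le_div_iff₀ hη] at h9

theorem ray_mem {σ η L s t : ℝ} (hs : s ∈ Ico σ (σ + η)) (ht : t ∈ Ioc 0 L) :
    t • dir s ∈ Th σ η L := by
  have e1 : (t • dir s).re = t * s := by simp [dir]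
  have e2 : (t • dir s).im = t := by simp [dir]
  refine ⟨e2.symm ▸ ht.1, e2.symm ▸ ht.2, ?_, ?_⟩ <;> rw [e1, e2] <;> nlinarith [hs.1, hs.2, ht.1]

theorem cone_sub {σ η L y₁ y₂ : ℝ} (h1 : 0 < y₁) (h2 : y₂ ≤ L) :
    Cone (Ico σ (σ + η)) y₁ y₂ ⊆ Th σ η L := by
  rintro v ⟨h3, h4, h5⟩
  have h0 : 0 < v.im := h1.trans_le h3.1
  rw [le_div_iff₀ h0] at h4
  rw [div_lt_iff₀ h0] at h5
  exact ⟨h0, h3.2.le.trans h2, by linarith, by linarith⟩

theorem meas_rho : Measurable rho := by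
  unfold rho
  fun_prop

/-- The second moment in terms of a bound for the integrals along the rays. -/
theorem second (ha : RAF) (hp : RPol) (hm : RMom) {Y : Type} [MeasurableSpace Y] {T : TS Y}
    {S' : Y → Set ℂ} {k : ℕ} {Ω : Fin k → Set ℂ} {Φ : Fin k → ℂ → Y} (hF : Fam T S' k Ω Φ)
    {G : Set ℝ} (hG : MeasurableSet G) {y₁ y₂ : ℝ} (hy : 0 < y₁) (J : Finset ℕ) (I : ℕ → Set ℝ)
    (hI : ∀ a, MeasurableSet (I a)) (hJ : ∀ a ∈ J, ∀ i, Cone (I a) y₁ y₂ ⊆ Ω i)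
    (hGJ : ∀ s ∈ G, ∃ a ∈ J, s ∈ I a) (B : ℝ≥0∞)
    (hB : ∀ i j, ∀ s ∈ G, ∑ a ∈ J, ∫⁻ t in Ico y₁ y₂,
      wt (Φ i) (Cone (I a) y₁ y₂) rho (Φ j (t • dir s)) ≤ B) :
    (∀ i, Cone G y₁ y₂ ⊆ Ω i) ∧
      ∫⁻ q, ws (nS S' q) (Cone G y₁ y₂) ^ 2 ∂T.μ ≤ k * (k * B * volume G) := by
  have h1 : ∀ v ∈ Cone G y₁ y₂, ∃ a ∈ J, v ∈ Cone (I a) y₁ y₂ := fun v hv => by
    obtain ⟨a, h2, h3⟩ := hGJ _ hv.2
    exact ⟨a, h2, hv.1, h3⟩
  have h2 : ∀ i, Cone G y₁ y₂ ⊆ Ω i := fun i v hv => by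
    obtain ⟨a, h3, h4⟩ := h1 v hv
    exact hJ a h3 i h4
  refine ⟨h2, ?_⟩
  obtain ⟨m1, -, -, m4⟩ := hm Y T S' k Ω Φ hF G y₁ y₂ hG hy
  have h3 : ∀ i, ∀ a ∈ J, Measurable (wt (Φ i) (Cone (I a) y₁ y₂) rho) := fun i a h =>
    (ha Y T _ (Φ i) ((hF.dev i).mono (hJ a h i)) (hp _ y₁ y₂ (hI a) hy).1).1 rho meas_rho
  set f : Y → ℝ≥0∞ := fun q => ∑ i, ∑ a ∈ J, wt (Φ i) (Cone (I a) y₁ y₂) rho q with hf
  have h4 : Measurable f :=
    Finset.measurable_fun_sum _ fun i _ => Finset.measurable_fun_sum _ fun a h => h3 i a h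
  have h5 : ∀ q, ws (nS S' q) (Cone G y₁ y₂) ≤ f q := fun q => by
    rw [m1]
    exact Finset.sum_le_sum fun i _ => wt_le _ _ _ _ (fun v hv => h1 v hv.1) _ _
  have h6 : ∀ j, ∀ s ∈ G, ∫⁻ t in Ico y₁ y₂, f (Φ j (t • dir s)) ≤ k * B := fun j s hs => by
    have h7 : ∀ i, ∀ a ∈ J, AEMeasurable
        (fun t : ℝ => wt (Φ i) (Cone (I a) y₁ y₂) rho (Φ j (t • dir s)))
        (volume.restrict (Ico y₁ y₂)) := fun i a h => by
      have h8 := ((ha Y T _ (Φ j) (hF.dev j) (hF.meas j)).2.1 _ (h3 i a h)).comp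
        (show Measurable fun t : ℝ => t • dir s by fun_prop)
      refine h8.aemeasurable.congr (ae_restrict_of_forall_mem measurableSet_Ico fun t ht => ?_)
      have h0 : t ≠ 0 := (hy.trans_le ht.1).ne'
      refine indicator_of_mem (h2 j ⟨by simpa [dir] using ht, ?_⟩) _
      simpa [dir, mul_div_cancel_left₀ s h0] using hs
    simp only [hf]
    rw [lintegral_finsetSum' _ fun i _ => Finset.aemeasurable_fun_sum _ fun a h => h7 i a h]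
    refine (Finset.sum_le_card_nsmul _ _ B fun i _ => ?_).trans (by simp)
    rw [lintegral_finsetSum' _ fun a h => h7 i a h]
    exact hB i j s hs
  calc _ ≤ ∫⁻ q, f q * ws (nS S' q) (Cone G y₁ y₂) ∂T.μ :=
        lintegral_mono fun q => by rw [sq]; gcongr; exact h5 q
    _ = _ := (m4 h2).2 f h4
    _ ≤ _ := by
      refine (Finset.sum_le_card_nsmul _ _ (k * B * volume G) fun j _ => ?_).trans (by simp)
      rw [← setLIntegral_const]
      exact setLIntegral_mono' hG (h6 j)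

end V2mX

open V2mX in
theorem v2m (hb : RB) (ha : RAF) (hp : RPol) (hm : RMom) (hd : RDisc) (hc : RCut) (hi : RV2i) :
    RV2m := by
  classical
  intro Y _ T S' k Ω Φ hF
  have hA := (hb Y T).area_pos
  obtain ⟨δ, Cd, γd, hδ, hCd, hγ0, hγ1, hS, hd⟩ := hd Y T
  obtain ⟨⟨Cc, hCc, hc1⟩, hc2⟩ := hc Y T
  obtain ⟨Ci, hCi, hi⟩ := hi Y T δ hδ hS
  obtain ⟨C', γ, hC', hg0, hg1, hgeo⟩ := geo (r := max γd (1 / 2)) (by positivity)
    (max_lt hγ1 (by norm_num))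
  set C₀ : ℝ := k ^ 2 * ((Cd + Cc + 2 + 4) / T.area + (Ci * (1 + Cd) + 3)) with hC₀
  have hC0 : 0 ≤ C₀ := by positivity
  refine ⟨(C₀ + (Cd + Cc)) * C', γ, by positivity, hg0, hg1, ?_⟩
  intro N s₁ s₂ y₁ y₂ hN h1 h2 h3 h4 h5 h6
  obtain ⟨Bad, hBm, hBv, hBd⟩ := hd N
  have hgN := hgeo N
  set w : ℝ := N * max γd (1 / 2) ^ N with hw
  set L : ℝ := 8 ^ N with hL
  set η : ℝ := 1 / L ^ 3 with hη
  have hN1 : (1 : ℝ) ≤ N := by exact_mod_cast hN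
  have hP2 : (2 : ℝ) ≤ 2 ^ N := by
    simpa using pow_le_pow_right₀ (one_le_two (α := ℝ)) hN
  have hPL : (2 : ℝ) ^ N ≤ L := by rw [hL]; gcongr; norm_num
  have hL1 : 1 ≤ L := by linarith
  have hL0 : 0 < L := by linarith
  have hη0 : 0 < η := by positivity
  have hηL : η ≤ 1 / L := by
    rw [hη]; gcongr; simpa using pow_le_pow_right₀ hL1 (show 1 ≤ 3 by norm_num)
  have hη1 : η ≤ 1 := hηL.trans ((div_le_one hL0).2 hL1)
  have w1 : N * γd ^ N ≤ w := by rw [hw]; gcongr; exact le_max_left _ _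
  have w2 : N * (1 / 2 ^ N) ≤ w := by
    rw [hw, ← one_div_pow]; gcongr; exact le_max_right _ _
  have w3 : γd ^ N ≤ w := (le_mul_of_one_le_left (by positivity) hN1).trans w1
  have w4 : 1 / 2 ^ N ≤ w := (le_mul_of_one_le_left (by positivity) hN1).trans w2
  have w5 : 1 / L ≤ w := le_trans (by gcongr) w4
  have w0 : 0 ≤ w := le_trans (by positivity) w5
  have hy : 0 < y₁ := by linarith
  let M : ℕ := (8 ^ N) ^ 3
  have hM : (M : ℝ) * η = 1 := by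
    simp only [M, hη, hL]; push_cast; field_simp
  have hMa : ∀ a ∈ Finset.range (M + 1), (a : ℝ) * η ≤ 1 := fun a h => by
    rw [← hM]; gcongr; exact Nat.lt_succ_iff.1 (Finset.mem_range.1 h)
  let I : ℕ → Set ℝ := fun a => Ico (a * η) (a * η + η)
  let Jc := (Finset.range (M + 1)).filter fun a : ℕ => T.Cut (a * η) η L
  let J := (Finset.range (M + 1)).filter fun a : ℕ =>
    ¬ T.Cut (a * η) η L ∧ a * η < s₂ ∧ s₁ < a * η + η
  have c1 : (Jc.card : ℝ) ≤ Cc * L ^ 2 := by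
    rw [← Finset.card_image_of_injective Jc (Nat.cast_injective (R := ℤ))]
    refine hc1 L η _ hL1 hη0 hη1 fun b hb => ?_
    obtain ⟨a, h, rfl⟩ := Finset.mem_image.1 hb
    obtain ⟨h7, h8⟩ := Finset.mem_filter.1 h
    rw [Int.cast_natCast, abs_of_nonneg (by positivity)]
    exact ⟨(hMa a h7).trans (by norm_num), h8⟩
  have c2 : volume (⋃ a ∈ Jc, I a) ≤ ENNReal.ofReal (Cc * w) := by
    refine (measure_biUnion_finset_le _ _).trans ?_
    simp only [I, Real.volume_Ico, add_sub_cancel_left, Finset.sum_const, nsmul_eq_mul]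
    rw [← ENNReal.ofReal_natCast, ← ENNReal.ofReal_mul (by positivity)]
    refine ENNReal.ofReal_le_ofReal ?_
    calc _ ≤ Cc * L ^ 2 * η := by gcongr
      _ = Cc * (1 / L) := by rw [hη]; field_simp
      _ ≤ _ := by gcongr
  set G := Ico s₁ s₂ \ (Bad ∪ ⋃ a ∈ Jc, I a) with hG
  have hGm : MeasurableSet G := measurableSet_Ico.diff
    (hBm.union (Finset.measurableSet_biUnion _ fun _ _ => measurableSet_Ico))
  have hG1 : ∀ s ∈ G, s ∈ Ico (0 : ℝ) 1 := fun s hs => ⟨h1.trans hs.1.1, hs.1.2.trans_le h3⟩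
  have c3 : volume (Ico s₁ s₂ \ G) ≤ ENNReal.ofReal ((Cd + Cc) * w) := by
    refine (measure_mono (t := Bad ∪ ⋃ a ∈ Jc, I a) fun s hs => ?_).trans
      ((measure_union_le _ _).trans ?_)
    · by_contra h
      exact hs.2 ⟨hs.1, h⟩
    · rw [add_mul, ENNReal.ofReal_add (by positivity) (by positivity)]
      exact add_le_add (hBv.trans (ENNReal.ofReal_le_ofReal (by gcongr))) c2
  have hGJ : ∀ s ∈ G, ∃ a ∈ J, s ∈ I a := fun s hs => by
    have h7 := floor_mem (hG1 s hs).1 hη0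
    have h8 : ⌊s / η⌋₊ ∈ Finset.range (M + 1) := by
      refine Finset.mem_range.2 (Nat.lt_succ_of_le (Nat.floor_le_of_le ?_))
      rw [div_le_iff₀ hη0, hM]
      exact (hG1 s hs).2.le
    exact ⟨_, Finset.mem_filter.2 ⟨h8, fun h => hs.2 (Or.inr (mem_biUnion
      (Finset.mem_filter.2 ⟨h8, h⟩) h7)), h7.1.trans_lt hs.1.2, hs.1.1.trans_lt h7.2⟩, h7⟩
  have hTh : ∀ a ∈ J, ∀ i, Th (a * η) η L ⊆ Ω i ∧ InjOn (Φ i) (Th (a * η) η L) := fun a h =>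
    hc2 S' k Ω Φ hF _ η L hη0 (Finset.mem_filter.1 h).2.1
  obtain ⟨r1, r2⟩ := second ha hp hm hF hGm (y₂ := y₂) hy J I (fun _ => measurableSet_Ico)
    (fun a h i => (cone_sub hy (by linarith)).trans (hTh a h i).1) hGJ _
    fun i j s hs => hi N L η (Cd * γd ^ N * L) s y₁ y₂ (Ω i) (Ω j) (Φ i) (Φ j) J hN hL hη
      (hF.dev i) (hF.dev j) (hBd s (hG1 s hs) fun h => hs.2 (Or.inl h)) (by positivity) (hG1 s hs)
      (fun t ht => by
        obtain ⟨a, h7, h8⟩ := hGJ s hs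
        exact (hTh a h7 j).1 (ray_mem h8 ht))
      (fun a h => ⟨hMa a (Finset.mem_filter.1 h).1, hTh a h i⟩) h4 h5 h6
  refine ⟨G, hGm, diff_subset, c3.trans (ENNReal.ofReal_le_ofReal ?_), r1, r2.trans ?_⟩
  · calc _ ≤ (C₀ + (Cd + Cc)) * (C' * γ ^ N) :=
          mul_le_mul (le_add_of_nonneg_left hC0) hgN w0 (by positivity)
      _ = _ := by ring
  have v1 : volume G ≤ ENNReal.ofReal 1 :=
    (measure_mono (t := Ico (0 : ℝ) 1) hG1).trans (by simp)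
  have v2 : volume G ≠ ∞ := ne_top_of_le_ne_top ENNReal.ofReal_ne_top v1
  set g := (volume G).toReal with hg
  have g0 : 0 ≤ g := ENNReal.toReal_nonneg
  have g1 : g ≤ 1 := ENNReal.toReal_le_of_le_ofReal zero_le_one v1
  have g2 : volume G = ENNReal.ofReal g := (ENNReal.ofReal_toReal v2).symm
  have g3 : s₂ - s₁ ≤ g + (Cd + Cc) * w := by
    rw [← ENNReal.ofReal_le_ofReal_iff (by positivity), ← Real.volume_Ico,
      ENNReal.ofReal_add g0 (by positivity), ← g2]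
    exact (measure_mono fun s hs => (em (s ∈ G)).imp_right fun h => ⟨hs, h⟩).trans
      ((measure_union_le G (Ico s₁ s₂ \ G)).trans (by gcongr))
  have g4 := card_le h1 h2 hη0 J fun a h => (Finset.mem_filter.1 h).2.2
  have hD : 0 ≤ y₂ - y₁ := by linarith
  rw [g2, ← ENNReal.ofReal_natCast, ← ENNReal.ofReal_mul (Nat.cast_nonneg k),
    ← ENNReal.ofReal_mul' g0, ← ENNReal.ofReal_mul (Nat.cast_nonneg k)]
  refine ENNReal.ofReal_le_ofReal ?_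
  have b1 : (N : ℝ) ≤ w * L ^ 2 := by
    rw [mul_one_div, div_le_iff₀ (by positivity)] at w2
    refine w2.trans ?_
    gcongr
    nlinarith
  have b2 : N * γd ^ N * L ^ 2 ≤ w * L ^ 2 := by gcongr
  have b3 : 1 / 2 ^ N * L ^ 2 ≤ w * L ^ 2 := by gcongr
  have b4 : Ci * N * (1 + L * (Cd * γd ^ N * L)) + 3 * L ^ 2 / 2 ^ N ≤
      (Ci * (1 + Cd) + 3) * w * L ^ 2 := by
    calc _ = Ci * N + Ci * Cd * (N * γd ^ N * L ^ 2) + 3 * (1 / 2 ^ N * L ^ 2) := by ring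
      _ ≤ Ci * (w * L ^ 2) + Ci * Cd * (w * L ^ 2) + 3 * (w * L ^ 2) := by gcongr
      _ = _ := by ring
  have b5 := arith (k := k) (n := J.card * η) (C₁ := Cd + Cc + 2) hA g0 g1 hD
    (show y₂ - y₁ + 2 ≤ L by linarith) (by linarith) (by rwa [div_le_iff₀ hL0] at w5) w0
    (by positivity) (by positivity) b4
  rw [← add_assoc] at b5
  refine b5.trans (add_le_add le_rfl ?_)
  calc _ ≤ (C₀ + (Cd + Cc)) * (C' * γ ^ N) * L ^ 2 := by rw [← hC₀]; gcongr; linarith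
    _ = _ := by ring

end Pool.Agent.MP_16ecd2_an.H18
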