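import Pool.Agent.MP_16ecd2_an.H18.Kit

/-!
Row Var: the variance bound for the weighted count in a cone.
-/

set_option autoImplicit false

namespace Pool.Agent.MP_16ecd2_an.H18

open MeasureTheory Set Filter Topology Metric
open scoped ENNReal

namespace VarX

variable {Y : Type} [MeasurableSpace Y]

/-- the variance from the first two moments -/
theorem var_le (μ : Measure Y) [IsFiniteMeasure μ] (W : Y → ℝ≥0∞) (hW : Measurable W)
    (a ε : ℝ) (ha : 0 ≤ a) (hε : 0 ≤ ε) (hA : 0 < (μ univ).toReal)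
    (h1 : ∫⁻ q, W q ∂μ = ENNReal.ofReal a)
    (h2 : ∫⁻ q, W q ^ 2 ∂μ ≤ ENNReal.ofReal (a ^ 2 / (μ univ).toReal + ε)) :
    ∫⁻ q, ENNReal.ofReal (((W q).toReal - a / (μ univ).toReal) ^ 2) ∂μ ≤ ENNReal.ofReal ε := by
  set A := (μ univ).toReal with hAdef
  set m := a / A with hm
  have hm0 : 0 ≤ m := div_nonneg ha hA.le
  have hfin : ∀ᵐ q ∂μ, W q < ⊤ := ae_lt_top hW (by rw [h1]; exact ENNReal.ofReal_ne_top)
  have e : ∫⁻ q, (ENNReal.ofReal (((W q).toReal - m) ^ 2) + ENNReal.ofReal (2 * m) * W q) ∂μ =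
      ∫⁻ q, (W q ^ 2 + ENNReal.ofReal (m ^ 2)) ∂μ := by
    refine lintegral_congr_ae (hfin.mono fun q hq => ?_)
    have hw := ENNReal.toReal_nonneg (a := W q)
    simp only
    conv_lhs => rw [← ENNReal.ofReal_toReal hq.ne, ENNReal.toReal_ofReal hw]
    conv_rhs => rw [← ENNReal.ofReal_toReal hq.ne]
    rw [← ENNReal.ofReal_mul (by positivity), ← ENNReal.ofReal_add (sq_nonneg _) (by positivity),
      ← ENNReal.ofReal_pow hw, ← ENNReal.ofReal_add (sq_nonneg _) (sq_nonneg _)]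
    congr 1
    ring
  rw [lintegral_add_right _ (hW.const_mul _), lintegral_const_mul _ hW, h1,
    lintegral_add_right _ measurable_const, lintegral_const,
    ← ENNReal.ofReal_toReal (measure_ne_top μ univ), ← hAdef,
    ← ENNReal.ofReal_mul (by positivity), ← ENNReal.ofReal_mul (sq_nonneg _)] at e
  refine (ENNReal.add_le_add_iff_right (a := ENNReal.ofReal (2 * m * a))
    ENNReal.ofReal_ne_top).1 ?_
  rw [e]
  refine (add_le_add_left h2 _).trans (le_of_eq ?_)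
  rw [← ENNReal.ofReal_add (by positivity) (by positivity),
    ← ENNReal.ofReal_add hε (by positivity)]
  congr 1
  rw [hm]
  field_simp
  ring

/-- Chebyshev for the main part and Markov for the rest -/
theorem cheb (μ : Measure Y) [IsFiniteMeasure μ] (W R : Y → ℝ≥0∞) (hW : Measurable W)
    (hR : Measurable R) (a b ε l : ℝ) (ha : 0 ≤ a) (hb : 0 ≤ b) (hε : 0 ≤ ε) (hl : 0 < l)
    (hA : 0 < (μ univ).toReal) (h1 : ∫⁻ q, W q ∂μ = ENNReal.ofReal a)
    (h2 : ∫⁻ q, W q ^ 2 ∂μ ≤ ENNReal.ofReal (a ^ 2 / (μ univ).toReal + ε))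
    (h3 : ∫⁻ q, R q ∂μ ≤ ENNReal.ofReal b) :
    μ {q | l ≤ |(W q + R q).toReal - (a + b) / (μ univ).toReal|} ≤
      ENNReal.ofReal (9 * ε / l ^ 2 + 3 * b / l) := by
  have hv := var_le μ W hW a ε ha hε hA h1 h2
  set A := (μ univ).toReal with hAdef
  by_cases hc : l / 3 < b / A
  · refine (measure_mono (subset_univ _)).trans ?_
    rw [← ENNReal.ofReal_toReal (measure_ne_top μ univ), ← hAdef]
    refine ENNReal.ofReal_le_ofReal ?_
    have : A ≤ 3 * b / l := by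
      rw [lt_div_iff₀ hA] at hc
      rw [le_div_iff₀ hl]
      linarith
    have : 0 ≤ 9 * ε / l ^ 2 := by positivity
    linarith
  have hc' : b / A ≤ l / 3 := not_lt.1 hc
  have hb' : 0 ≤ b / A := div_nonneg hb hA.le
  have hfin : μ {q | ¬ W q < ⊤} = 0 :=
    ae_iff.1 (ae_lt_top hW (by rw [h1]; exact ENNReal.ofReal_ne_top))
  have hsub : {q | l ≤ |(W q + R q).toReal - (a + b) / A|} ⊆ {q | ¬ W q < ⊤} ∪
      ({q | ENNReal.ofReal ((l / 3) ^ 2) ≤ ENNReal.ofReal (((W q).toReal - a / A) ^ 2)} ∪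
        {q | ENNReal.ofReal (l / 3) ≤ R q}) := by
    intro q hq
    by_contra hn
    simp only [mem_union, mem_ofPred_eq, not_or, not_not, not_le] at hn hq
    obtain ⟨g1, g2, g3⟩ := hn
    have g4 : R q ≠ ⊤ := ne_top_of_lt g3
    have g5 : (R q).toReal < l / 3 := ENNReal.toReal_lt_of_lt_ofReal g3
    have g6 : ((W q).toReal - a / A) ^ 2 < (l / 3) ^ 2 :=
      (ENNReal.ofReal_lt_ofReal_iff_of_nonneg (sq_nonneg _)).1 g2
    have g7 := abs_lt.1 (abs_lt_of_sq_lt_sq g6 (by positivity))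
    have g8 := ENNReal.toReal_nonneg (a := R q)
    rw [ENNReal.toReal_add g1.ne g4, add_div] at hq
    refine absurd hq (not_le.2 (abs_lt.2 ⟨?_, ?_⟩)) <;> linarith [g7.1, g7.2]
  refine (measure_mono hsub).trans ((measure_union_le _ _).trans ?_)
  rw [hfin, zero_add]
  refine (measure_union_le _ _).trans ?_
  rw [ENNReal.ofReal_add (by positivity) (by positivity)]
  refine add_le_add ?_ ?_
  · refine (meas_ge_le_lintegral_div
      ((hW.ennreal_toReal.sub_const _).pow_const 2).ennreal_ofReal.aemeasurable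
      (ENNReal.ofReal_pos.2 (by positivity)).ne' ENNReal.ofReal_ne_top).trans ?_
    refine (ENNReal.div_le_div_right hv _).trans (le_of_eq ?_)
    rw [← ENNReal.ofReal_div_of_pos (by positivity)]
    congr 1
    field_simp
    ring
  · refine (meas_ge_le_lintegral_div hR.aemeasurable
      (ENNReal.ofReal_pos.2 (by positivity)).ne' ENNReal.ofReal_ne_top).trans ?_
    refine (ENNReal.div_le_div_right h3 _).trans (le_of_eq ?_)
    rw [← ENNReal.ofReal_div_of_pos (by positivity)]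
    congr 1
    field_simp

theorem ws_add (P : Set ℂ) {G I : Set ℝ} (h : G ⊆ I) (y₁ y₂ : ℝ) :
    ws P (Cone I y₁ y₂) = ws P (Cone G y₁ y₂) + ws P (Cone (I \ G) y₁ y₂) := by
  rw [ws, ws, ws, ← ENNReal.tsum_add]
  refine tsum_congr fun v => ?_
  have e : Cone I y₁ y₂ ∩ P = Cone G y₁ y₂ ∩ P ∪ Cone (I \ G) y₁ y₂ ∩ P := by
    ext w
    constructor
    · rintro ⟨⟨h1, h2⟩, h3⟩
      by_cases hg : w.re / w.im ∈ G
      · exact Or.inl ⟨⟨h1, hg⟩, h3⟩
      · exact Or.inr ⟨⟨h1, h2, hg⟩, h3⟩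
    · rintro (⟨⟨h1, h2⟩, h3⟩ | ⟨⟨h1, h2⟩, h3⟩)
      · exact ⟨⟨h1, h h2⟩, h3⟩
      · exact ⟨⟨h1, h2.1⟩, h3⟩
  rw [e, Set.indicator_union_of_disjoint]
  exact Set.disjoint_left.2 fun w h1 h2 => h2.1.2.2 h1.1.2

theorem mom_eq (k : ℕ) {G : Set ℝ} (hG : volume G ≠ ⊤) (d : ℝ) :
    (k : ℝ≥0∞) * volume G * ENNReal.ofReal d = ENNReal.ofReal (k * (volume G).toReal * d) := by
  rw [ENNReal.ofReal_mul (by positivity), ENNReal.ofReal_mul (by positivity),
    ENNReal.ofReal_toReal hG, ENNReal.ofReal_natCast]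

end VarX

open VarX in
theorem var (hb : RB) (hf : RFam) (hm : RMom) (h2 : RV2m) : RVar := by
  intro Y _ T S' k hk
  obtain ⟨Ω, Φ, F⟩ := hf Y T S' k hk
  obtain ⟨C, γ, hC, hγ, hγ1, H⟩ := h2 Y T S' k Ω Φ F
  refine ⟨9 * C + 3 * k * C, γ, by positivity, hγ, hγ1, ?_⟩
  intro N s₁ s₂ y₁ y₂ l hN h0 h12 h1 hy hy12 hy2 hl
  obtain ⟨G, hG, hGI, hvol, hΩ, hsq⟩ := H N s₁ s₂ y₁ y₂ hN h0 h12 h1 hy hy12 hy2
  have hy0 : 0 < y₁ := lt_of_lt_of_le (by positivity) hy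
  have hd : 0 ≤ y₂ - y₁ := sub_nonneg.2 hy12
  have hIfin : volume (Ico s₁ s₂) ≠ ⊤ := by rw [Real.volume_Ico]; exact ENNReal.ofReal_ne_top
  have hGfin : volume G ≠ ⊤ := ne_top_of_le_ne_top hIfin (measure_mono hGI)
  have hRfin : volume (Ico s₁ s₂ \ G) ≠ ⊤ := ne_top_of_le_ne_top hIfin (measure_mono sdiff_subset)
  obtain ⟨-, m1, -, m2⟩ := hm Y T S' k Ω Φ F G y₁ y₂ hG hy0
  obtain ⟨-, m3, m4, -⟩ := hm Y T S' k Ω Φ F (Ico s₁ s₂ \ G) y₁ y₂ (measurableSet_Ico.diff hG) hy0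
  have m5 := (m2 hΩ).1
  rw [mom_eq k hGfin] at m5
  rw [mom_eq k hRfin] at m4
  have hsum : (volume G).toReal + (volume (Ico s₁ s₂ \ G)).toReal = s₂ - s₁ := by
    rw [← ENNReal.toReal_add hGfin hRfin, ← measure_union disjoint_sdiff_right
      (measurableSet_Ico.diff hG), union_sdiff_cancel hGI, Real.volume_Ico,
      ENNReal.toReal_ofReal (sub_nonneg.2 h12)]
  have hr : (volume (Ico s₁ s₂ \ G)).toReal ≤ C * γ ^ N :=
    ENNReal.toReal_le_of_le_ofReal (by positivity) hvol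
  have := T.fm
  have key := cheb T.μ _ _ m1 m3 _ _ (C * γ ^ N * (8 ^ N) ^ 2) l (by positivity) (by positivity)
    (by positivity) hl (hb Y T).area_pos m5 hsq m4
  have e : (k * (volume G).toReal * (y₂ - y₁) + k * (volume (Ico s₁ s₂ \ G)).toReal * (y₂ - y₁)) =
      k * (s₂ - s₁) * (y₂ - y₁) := by rw [← hsum]; ring
  rw [e] at key
  simp only [ws_add _ hGI]
  refine key.trans (ENNReal.ofReal_le_ofReal ?_)
  have hL : y₂ - y₁ ≤ 8 ^ N := by linarith
  have t1 : k * (volume (Ico s₁ s₂ \ G)).toReal * (y₂ - y₁) ≤ k * (C * γ ^ N) * 8 ^ N := by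
    gcongr
  have t2 : 3 * (k * (volume (Ico s₁ s₂ \ G)).toReal * (y₂ - y₁)) / l ≤
      3 * (k * (C * γ ^ N) * 8 ^ N) / l := by gcongr
  have t3 : 0 ≤ 9 * C * γ ^ N * (8 ^ N / l) + 3 * k * C * γ ^ N * ((8 ^ N) ^ 2 / l ^ 2) := by
    positivity
  calc _ ≤ 9 * (C * γ ^ N * (8 ^ N) ^ 2) / l ^ 2 + 3 * (k * (C * γ ^ N) * 8 ^ N) / l := by
        linarith
    _ ≤ 9 * (C * γ ^ N * (8 ^ N) ^ 2) / l ^ 2 + 3 * (k * (C * γ ^ N) * 8 ^ N) / l +
        (9 * C * γ ^ N * (8 ^ N / l) + 3 * k * C * γ ^ N * ((8 ^ N) ^ 2 / l ^ 2)) := by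
        linarith
    _ = _ := by ring

end Pool.Agent.MP_16ecd2_an.H18
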