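import Pool.Agent.MP_16ecd2_an.H18.Kit

/-!
Row Wit: renormalisation to a position with witnesses for all slopes.
-/

set_option autoImplicit false

namespace Pool.Agent.MP_16ecd2_an.H18

open Set

namespace WitX

variable {Y : Type} [MeasurableSpace Y]

theorem vert {z : ℂ} (hz : z ≠ 0) : ∃ u : ℂ, ‖u‖ = 1 ∧ (u * z).re = 0 := by
  have h : (‖z‖ : ℂ) ≠ 0 := Complex.ofReal_ne_zero.2 (norm_ne_zero_iff.2 hz)
  refine ⟨Complex.I * (‖z‖ / z), ?_, ?_⟩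
  · rw [norm_mul, Complex.norm_I, one_mul, norm_div, Complex.norm_real, norm_norm,
      div_self (norm_ne_zero_iff.2 hz)]
  · rw [mul_assoc, div_mul_cancel₀ _ hz]
    simp

theorem low {L : ℝ} (hL : 1 ≤ L) (z : ℂ) : ‖z‖ / L ≤ ‖ds L 0 z‖ := by
  have h0 : 0 < L := by linarith
  rw [div_le_iff₀ h0]
  refine abs_le_of_sq_le_sq' ?_ (by positivity) |>.2
  rw [mul_pow, Complex.sq_norm, Complex.sq_norm, Complex.normSq_apply, Complex.normSq_apply,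
    ds_re, ds_im, zero_mul, sub_zero]
  have h1 : (L * z.re * (L * z.re) + z.im / L * (z.im / L)) * L ^ 2 =
      L ^ 4 * (z.re * z.re) + z.im * z.im := by
    field_simp
  rw [h1]
  nlinarith [one_le_pow₀ (n := 4) hL, mul_self_nonneg z.re]

theorem pw (T : TS Y) (hb : Base T) {g : ℂ →ₗ[ℝ] ℂ} (hg : SL g) {Γ : Finset (Y × ℂ)}
    (hΓ : ∀ γ ∈ Γ, γ ∈ T.SC ∧ (g γ.2).re = 0) (ε : ℝ) :
    T.PW (Γ.filter fun γ => 0 < ε * (g γ.2).im : Finset (Y × ℂ)) := by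
  refine ⟨fun γ h => (hΓ γ (Finset.mem_filter.1 h).1).1, fun c h c' h' hne => ?_⟩
  obtain ⟨h1, h2⟩ := Finset.mem_filter.1 h
  obtain ⟨h3, h4⟩ := Finset.mem_filter.1 h'
  by_contra hd
  have h5 : det c.2 c'.2 = 0 := by
    rw [← hg.det_map, det, (hΓ c h1).2, (hΓ c' h3).2, zero_mul, mul_zero, sub_zero]
  rcases hb.par c (hΓ c h1).1 c' (hΓ c' h3).1 h5 hd with e | e
  · exact hne e.symm
  · have h6 : c'.2 = -c.2 := congrArg Prod.snd e
    rw [h6, map_neg, Complex.neg_im] at h4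
    linarith

end WitX

open WitX in
theorem wit (hb : RB) (hc : RCard) : RWit := by
  intro Y _ T
  classical
  obtain ⟨M, hM⟩ := hc Y T
  refine ⟨2 * M, fun g B s l Γ hg hs hsys hΓ => ?_⟩
  rcases Γ.eq_empty_or_nonempty with rfl | hne
  · exact Or.inl (Nat.zero_le _)
  obtain ⟨γ₁, h₁⟩ := id hne
  have hnz : ∀ γ ∈ Γ, g γ.2 ≠ 0 := fun γ h => norm_pos_iff.1 (hs.trans_le (hsys γ (hΓ h).1))
  obtain ⟨u, hu, hv⟩ := vert (hnz γ₁ h₁)
  have hg₁ : SL (rot u ∘ₗ g) := (sl_rot hu).comp hg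
  have hn : ∀ v, ‖(rot u ∘ₗ g) v‖ = ‖g v‖ := fun v => by
    rw [LinearMap.comp_apply, rot_apply, norm_mul, hu, one_mul]
  have hv' : ((rot u ∘ₗ g) γ₁.2).re = 0 := hv
  generalize rot u ∘ₗ g = g₁ at hg₁ hn hv'
  obtain ⟨γ₀, h₀, hmax⟩ := Γ.exists_max_image (fun γ => |(g₁ γ.2).re|) hne
  have hR : ∀ γ ∈ Γ, ‖g₁ γ.2‖ ≤ l * s := fun γ h => (hn _).le.trans (hΓ h).2.2
  rcases (abs_nonneg (g₁ γ₀.2).re).eq_or_lt with hW | hW
  · have h1 : ∀ γ ∈ Γ, γ ∈ T.SC ∧ (g₁ γ.2).re = 0 := fun γ h =>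
      ⟨(hΓ h).1, abs_nonpos_iff.1 ((hmax γ h).trans hW.ge)⟩
    have h2 := hM _ (pw T (hb Y T) hg₁ h1 1)
    have h3 := hM _ (pw T (hb Y T) hg₁ h1 (-1))
    have h4 : Γ ⊆ (Γ.filter fun γ => 0 < 1 * (g₁ γ.2).im) ∪
        Γ.filter fun γ => 0 < -1 * (g₁ γ.2).im := fun γ h => by
      have h5 : (g₁ γ.2).im ≠ 0 := fun e => hnz γ h (norm_eq_zero.1 ((hn _).symm.trans
        (norm_eq_zero.2 (Complex.ext (h1 γ h).2 e))))
      rcases h5.lt_or_gt with h6 | h6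
      · exact Finset.mem_union_right _ (Finset.mem_filter.2 ⟨h, by linarith⟩)
      · exact Finset.mem_union_left _ (Finset.mem_filter.2 ⟨h, by linarith⟩)
    exact Or.inl (((Finset.card_le_card h4).trans (Finset.card_union_le _ _)).trans (by omega))
  · generalize hWe : |(g₁ γ₀.2).re| = W at hW hmax
    have h1 : W ≤ l * s := hWe ▸ (Complex.abs_re_le_norm _).trans (hR γ₀ h₀)
    obtain ⟨L, hL, hL2⟩ : ∃ L : ℝ, 1 ≤ L ∧ L * L * W = l * s :=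
      ⟨√(l * s / W), Real.one_le_sqrt.2 ((one_le_div hW).2 h1), by
        rw [Real.mul_self_sqrt (div_nonneg (hW.le.trans h1) hW.le), div_mul_cancel₀ _ hW.ne']⟩
    have hL0 : 0 < L := by linarith
    have ha : l * (s / L) = L * W := by
      rw [← mul_div_assoc, ← hL2, mul_assoc, mul_div_cancel_left₀ _ hL0.ne']
    have hre : ∀ v, |((ds L 0 ∘ₗ g₁) v).re| = L * |(g₁ v).re| := fun v => by
      rw [LinearMap.comp_apply, ds_re, zero_mul, sub_zero, abs_mul, abs_of_pos hL0]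
    have him : ∀ γ ∈ Γ, |((ds L 0 ∘ₗ g₁) γ.2).im| ≤ L * W := fun γ h => by
      rw [LinearMap.comp_apply, ds_im, abs_div, abs_of_pos hL0, div_le_iff₀ hL0]
      linarith [(Complex.abs_im_le_norm _).trans (hR γ h)]
    have hz : ((ds L 0 ∘ₗ g₁) γ₁.2).re = 0 := abs_eq_zero.1 (by rw [hre, hv', abs_zero, mul_zero])
    refine Or.inr ⟨ds L 0 ∘ₗ g₁, s / L, (sl_ds hL0.ne' 0).comp hg₁, div_pos hs hL0,
      div_le_self hs.le hL, fun c h => ?_, fun γ h => ?_, fun σ _ => ?_, fun σ _ => ?_⟩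
    · exact (div_le_div_of_nonneg_right ((hsys c h).trans (hn _).ge) hL0.le).trans (low hL _)
    · have h2 := norm_le_re_im ((ds L 0 ∘ₗ g₁) γ.2)
      have h3 := mul_le_mul_of_nonneg_left (hmax γ h) hL0.le
      rw [hre] at h2
      rw [mul_assoc, ha]
      linarith [him γ h]
    · by_cases hσ : 1 / 10 ≤ |σ|
      · refine ⟨γ₁, (hΓ h₁).1, (hΓ h₁).2.1, (norm_le_re_im _).trans ?_⟩
        rw [hz, zero_sub, abs_neg, abs_mul, abs_zero]
        nlinarith [abs_nonneg ((ds L 0 ∘ₗ g₁) γ₁.2).im]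
      · refine ⟨γ₀, (hΓ h₀).1, (hΓ h₀).2.1, (norm_le_re_im _).trans ?_⟩
        have h2 := abs_sub_abs_le_abs_sub ((ds L 0 ∘ₗ g₁) γ₀.2).re (σ * ((ds L 0 ∘ₗ g₁) γ₀.2).im)
        have h3 := him γ₀ h₀
        rw [abs_mul, hre, hWe] at h2
        rw [hre, hWe]
        nlinarith [abs_nonneg ((ds L 0 ∘ₗ g₁) γ₀.2).im, abs_nonneg σ]
    · refine ⟨γ₁, (hΓ h₁).1, (hΓ h₁).2.1, (norm_le_re_im _).trans ?_⟩
      have h2 : ((rot Complex.I ∘ₗ ds L 0 ∘ₗ g₁) γ₁.2).im = 0 := by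
        rw [LinearMap.comp_apply, rot_apply, Complex.I_mul_im, hz]
      rw [h2, mul_zero, sub_zero, abs_zero]
      linarith [abs_nonneg ((rot Complex.I ∘ₗ ds L 0 ∘ₗ g₁) γ₁.2).re]

end Pool.Agent.MP_16ecd2_an.H18
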