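import Pool.Agent.MP_16ecd2_an.H18.RA1
import Pool.Agent.MP_16ecd2_an.H18.RA2
import Pool.Agent.MP_16ecd2_an.H18.RA3
import Pool.Agent.MP_16ecd2_an.H18.RA4
import Pool.Agent.MP_16ecd2_an.H18.RA5
import Pool.Agent.MP_16ecd2_an.H18.RA6
import Pool.Agent.MP_16ecd2_an.H18.RA7
import Pool.Agent.MP_16ecd2_an.H18.RA8
import Pool.Agent.MP_16ecd2_an.H18.RAF
import Pool.Agent.MP_16ecd2_an.H18.RAri
import Pool.Agent.MP_16ecd2_an.H18.RAtl
import Pool.Agent.MP_16ecd2_an.H18.RB1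
import Pool.Agent.MP_16ecd2_an.H18.RB2
import Pool.Agent.MP_16ecd2_an.H18.RB3
import Pool.Agent.MP_16ecd2_an.H18.RB4
import Pool.Agent.MP_16ecd2_an.H18.RBr
import Pool.Agent.MP_16ecd2_an.H18.RCard
import Pool.Agent.MP_16ecd2_an.H18.RChord
import Pool.Agent.MP_16ecd2_an.H18.RContr
import Pool.Agent.MP_16ecd2_an.H18.RCov
import Pool.Agent.MP_16ecd2_an.H18.RCov0
import Pool.Agent.MP_16ecd2_an.H18.RCut
import Pool.Agent.MP_16ecd2_an.H18.RDisc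
import Pool.Agent.MP_16ecd2_an.H18.RDy
import Pool.Agent.MP_16ecd2_an.H18.RE0
import Pool.Agent.MP_16ecd2_an.H18.RE2
import Pool.Agent.MP_16ecd2_an.H18.RE3
import Pool.Agent.MP_16ecd2_an.H18.RFam
import Pool.Agent.MP_16ecd2_an.H18.RFin
import Pool.Agent.MP_16ecd2_an.H18.RGA
import Pool.Agent.MP_16ecd2_an.H18.RGB
import Pool.Agent.MP_16ecd2_an.H18.RGC1
import Pool.Agent.MP_16ecd2_an.H18.RGC2
import Pool.Agent.MP_16ecd2_an.H18.RGc
import Pool.Agent.MP_16ecd2_an.H18.RGconn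
import Pool.Agent.MP_16ecd2_an.H18.RHG
import Pool.Agent.MP_16ecd2_an.H18.RHV
import Pool.Agent.MP_16ecd2_an.H18.RHit
import Pool.Agent.MP_16ecd2_an.H18.RInd
import Pool.Agent.MP_16ecd2_an.H18.RIter
import Pool.Agent.MP_16ecd2_an.H18.RLX
import Pool.Agent.MP_16ecd2_an.H18.RLd
import Pool.Agent.MP_16ecd2_an.H18.RLocX
import Pool.Agent.MP_16ecd2_an.H18.RLoop
import Pool.Agent.MP_16ecd2_an.H18.RMX
import Pool.Agent.MP_16ecd2_an.H18.RMark
import Pool.Agent.MP_16ecd2_an.H18.RMas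
import Pool.Agent.MP_16ecd2_an.H18.RMom
import Pool.Agent.MP_16ecd2_an.H18.RNd
import Pool.Agent.MP_16ecd2_an.H18.RNew
import Pool.Agent.MP_16ecd2_an.H18.RNull
import Pool.Agent.MP_16ecd2_an.H18.RPQ
import Pool.Agent.MP_16ecd2_an.H18.RPQX
import Pool.Agent.MP_16ecd2_an.H18.RPol
import Pool.Agent.MP_16ecd2_an.H18.RST1
import Pool.Agent.MP_16ecd2_an.H18.RST2
import Pool.Agent.MP_16ecd2_an.H18.RStep
import Pool.Agent.MP_16ecd2_an.H18.RStep0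
import Pool.Agent.MP_16ecd2_an.H18.RStepJ
import Pool.Agent.MP_16ecd2_an.H18.RSumJ
import Pool.Agent.MP_16ecd2_an.H18.RSweep
import Pool.Agent.MP_16ecd2_an.H18.RTK
import Pool.Agent.MP_16ecd2_an.H18.RTK0
import Pool.Agent.MP_16ecd2_an.H18.RTL
import Pool.Agent.MP_16ecd2_an.H18.RTL1
import Pool.Agent.MP_16ecd2_an.H18.RTL2
import Pool.Agent.MP_16ecd2_an.H18.RThk
import Pool.Agent.MP_16ecd2_an.H18.RV1
import Pool.Agent.MP_16ecd2_an.H18.RV1c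
import Pool.Agent.MP_16ecd2_an.H18.RV2i
import Pool.Agent.MP_16ecd2_an.H18.RV2m
import Pool.Agent.MP_16ecd2_an.H18.RVar
import Pool.Agent.MP_16ecd2_an.H18.RWit

/-!
Assembly of the interface statements.
-/

set_option autoImplicit false

namespace Pool.Agent.MP_16ecd2_an.H18

theorem rb : RB := rb_of b1 (b2 b1) (b3 b1 (b2 b1)) (b4 b1 (b2 b1) (b3 b1 (b2 b1)))

theorem raf : RAF := af rb

theorem rnull : RNull := null rb raf

theorem rtk : RTK := tk rb tk0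

theorem rtl : RTL := tl rb (tl1 rb (chord rb) sweep) (tl2 rb rtk (chord rb) sweep)

theorem rcard : RCard := card rb rtk rtl

theorem rNew : RNew := rnew rb raf (st1 rb rtk rtl rcard) (st2 rb rtk)

theorem rgc : RGc := gc rb dy

theorem rsumJ : RSumJ := sumJ rb dy rgc

theorem rcov0 : RCov0 := cov0 rb rNew

theorem rmas : RMas :=
  mas rsumJ rcov0 (iter rcard (stepJ rsumJ (cov rb rcard rNew) rcov0 (wit rb rcard))
    (step0 rsumJ rcov0))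

theorem re0 : RE0 := e0 rb

theorem rdisc : RDisc :=
  disc rb (thk rb (nd rgc rmas) ld) re0 (contr rb re0 (e2 rb raf rnull) (e3 rb re0)
    (hit rnull (gconn rb) (hv rb) (hg rb raf (hv rb))))

theorem rmom : RMom := mom raf pol

theorem rpq : RPQ :=
  pq (ga (var rb (fam rb) rmom (v2m rb raf pol rmom rdisc (cut rb rgc rmas)
    (v2i rb (v1 rb) (v1c rb re0))))) (gc2 (gc1 gb))

theorem ra2 : RA2 := a2 a1

theorem ra3 : RA3 := a3 a1 ra2

theorem ra4 : RA4 := a4 a1 ra2 ra3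

theorem ra6 : RA6 := a6 a1 ra2 ra3 ra4 (a5 a1 ra2)

theorem ratl : RAtl := atl ra2 ra4 ra6 (a7 a1 ra2 ra3) (a8 a1 ra2 ra3 ra6) rfin (locX ra2)

theorem rbr : RBr := br a1 ra2

theorem rpqx : RPQX := pqx rb ratl rbr rpq

theorem rind : RInd :=
  ind mark rpqx (mx rb ra2 ratl rbr rmas rnull) (lx rb ra2 ratl rbr rpq (loop rb)) (step rbr)

open MeasureTheory Set Filter in
theorem marks (X : Type) [TopologicalSpace X] [T2Space X] [CompactSpace X] [ConnectedSpace X]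
    [MeasurableSpace X] [BorelSpace X] (S : TSurf X) (μ : Measure X) (hμ : S.IsArea μ) :
    ∃ C : ℝ, ∀ k : ℕ, 1 ≤ k → AE μ k fun Q => Q.ncard = k ∧ Disjoint Q S.Sig ∧
      (∀ R : ℝ, {c ∈ S.Conn (S.Sig ∪ Q) | ‖c.2‖ ≤ R}.Finite) ∧
      ∀ᶠ R in atTop, 0 < cnt (S.Conn (S.Sig ∪ Q)) 0 (2 * Real.pi) R ∧
        ∀ α β : ℝ, α ≤ β → β ≤ α + 2 * Real.pi →
          |cnt (S.Conn (S.Sig ∪ Q)) α β R / cnt (S.Conn (S.Sig ∪ Q)) 0 (2 * Real.pi) R -
            (β - α) / (2 * Real.pi)| ≤ C / k := by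
  obtain ⟨A, hA, h⟩ := rind X S μ hμ
  have hm : 1 ≤ S.tot := by
    obtain ⟨σ, hσ⟩ := S.ne
    exact (S.cone σ hσ).1.trans_le (Finset.single_le_sum (fun _ _ => Nat.zero_le _) hσ)
  obtain ⟨C, hC⟩ := ari _ A S.tot (rpqx X S μ hμ).1 hA hm
  exact ⟨C, fun k hk => AE.mono μ k (fun Q hQ => ⟨hQ.1, hQ.2.1, hQ.2.2.1,
    hC X _ k hk hQ.2.2.2⟩) (h k)⟩

end Pool.Agent.MP_16ecd2_an.H18
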