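import Pool.Agent.MP_16ecd2_an.H18.SpecC

/-!
Small shared lemmas.
-/

set_option autoImplicit false

namespace Pool.Agent.MP_16ecd2_an.H18

open MeasureTheory Set Filter Topology Metric
open scoped ENNReal

variable {Y : Type} [MeasurableSpace Y]

theorem det_self (u : ℂ) : det u u = 0 := by simp [det, mul_comm]

theorem det_comm (u v : ℂ) : det u v = -det v u := by simp [det]; ring

theorem det_add_right (u v w : ℂ) : det u (v + w) = det u v + det u w := by simp [det]; ring

theorem det_add_left (u v w : ℂ) : det (u + v) w = det u w + det v w := by simp [det]; ring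

theorem det_sub_right (u v w : ℂ) : det u (v - w) = det u v - det u w := by simp [det]; ring

theorem det_sub_left (u v w : ℂ) : det (u - v) w = det u w - det v w := by simp [det]; ring

theorem det_neg_right (u v : ℂ) : det u (-v) = -det u v := by simp [det]; ring

theorem det_neg_left (u v : ℂ) : det (-u) v = -det u v := by simp [det]; ring

theorem det_smul_right (a : ℝ) (u v : ℂ) : det u (a • v) = a * det u v := by simp [det]; ring

theorem det_smul_left (a : ℝ) (u v : ℂ) : det (a • u) v = a * det u v := by simp [det]; ring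

/-- Coordinates in a basis. -/
theorem coord {P Z : ℂ} (h : det P Z ≠ 0) (u : ℂ) :
    u = (det u Z / det P Z) • P + (det P u / det P Z) • Z := by
  apply Complex.ext <;> simp only [Complex.add_re, Complex.add_im, Complex.smul_re,
    Complex.smul_im, smul_eq_mul] <;> field_simp <;> simp only [det] <;> ring

theorem coord_uniq {P Z : ℂ} (h : det P Z ≠ 0) {a b a' b' : ℝ}
    (e : a • P + b • Z = a' • P + b' • Z) : a = a' ∧ b = b' := by
  have h1 := congrArg (fun u => det u Z) e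
  have h2 := congrArg (fun u => det P u) e
  simp only [det_add_left, det_add_right, det_smul_left, det_smul_right, det_self, mul_zero,
    add_zero, zero_add] at h1 h2
  exact ⟨mul_right_cancel₀ h h1, mul_right_cancel₀ h h2⟩

theorem par_of_det {u v : ℂ} (hu : u ≠ 0) (h : det u v = 0) : ∃ t : ℝ, v = t • u := by
  have hn : u.re * u.re + u.im * u.im ≠ 0 := by
    rw [← Complex.normSq_apply]; exact (map_ne_zero _).2 hu
  refine ⟨(u.re * v.re + u.im * v.im) / (u.re * u.re + u.im * u.im), ?_⟩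
  unfold det at h
  apply Complex.ext <;> simp only [Complex.smul_re, Complex.smul_im, smul_eq_mul] <;>
    rw [div_mul_eq_mul_div, eq_div_iff hn]
  · linear_combination (-u.im) * h
  · linear_combination u.re * h

theorem SL.inj {g : ℂ →ₗ[ℝ] ℂ} (hg : SL g) {v : ℂ} (hv : v ≠ 0) : g v ≠ 0 := by
  intro h
  have e := hg.det_map v (Complex.I * v)
  rw [h] at e
  have hn : v.re * v.re + v.im * v.im ≠ 0 := by
    rw [← Complex.normSq_apply]; exact (map_ne_zero _).2 hv
  apply hn
  simp [det] at e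
  linarith

theorem norm_le_re_im (v : ℂ) : ‖v‖ ≤ |v.re| + |v.im| := Complex.norm_le_abs_re_add_abs_im v

theorem ds_ds {L₀ : ℝ} (h : L₀ ≠ 0) (L σ s₀ : ℝ) (v : ℂ) :
    ds L σ (ds L₀ s₀ v) = ds (L * L₀) (s₀ + σ / L₀ ^ 2) v := by
  apply Complex.ext
  · simp only [ds_re, ds_im]; field_simp; ring
  · simp only [ds_im]; rw [div_div, mul_comm]

theorem ds_dir (s : ℝ) (a t : ℝ) : ds 1 (-s) (t • ((a : ℂ) + Complex.I)) = t • dir (s + a) := by
  apply Complex.ext <;> simp [dir]
  ring

theorem ds_I (s t : ℝ) : ds 1 (-s) (t • Complex.I) = t • dir s := by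
  apply Complex.ext <;> simp [dir, mul_comm]

theorem TS.Dis.symm {T : TS Y} {c c' : Y × ℂ} (h : T.Dis c c') : T.Dis c' c := Disjoint.symm h

theorem TS.Dev.mono {T : TS Y} {D D' : Set ℂ} {Φ : ℂ → Y} (h : T.Dev D Φ) (hD : D' ⊆ D) :
    T.Dev D' Φ := fun v hv => by
  obtain ⟨r, hr, h1, h2⟩ := h v (hD hv)
  exact ⟨r, hr, h1, fun w hw hv' => h2 w hw (hD hv')⟩

theorem TS.shear_area (T : TS Y) (s : ℝ) : (T.shear s).area = T.area := rfl

theorem TS.turn_area (T : TS Y) (u : ℂ) (hu : ‖u‖ = 1) : (T.turn u hu).area = T.area := rfl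

theorem TS.shear_reg (T : TS Y) (s : ℝ) (x : Y) (v : ℂ) :
    (T.shear s).Reg x v ↔ T.Reg x (ds 1 (-s) v) := by
  simp only [TS.Reg, TS.shear_S, map_smul]

theorem TS.shear_hol (T : TS Y) (s : ℝ) (h : ℂ) : h ∈ (T.shear s).Hol ↔ ds 1 (-s) h ∈ T.Hol := by
  constructor
  · rintro ⟨c, ⟨h1, h2⟩, rfl⟩
    rw [TS.shear_S] at h1 h2
    exact ⟨(c.1, ds 1 (-s) c.2), ⟨h1, by simpa only [map_neg] using h2⟩, by rw [map_smul]⟩
  · rintro ⟨c, ⟨h1, h2⟩, e⟩
    have e1 : ∀ v, ds 1 (-s) (ds 1 s v) = v := fun v => by apply Complex.ext <;> simp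
    have e2 : ∀ v, ds 1 s (ds 1 (-s) v) = v := fun v => by apply Complex.ext <;> simp
    refine ⟨(c.1, ds 1 s c.2), ⟨?_, ?_⟩, ?_⟩
    · rw [TS.shear_S, e1]; exact h1
    · rw [TS.shear_S, map_neg, e1]; exact h2
    · rw [← map_smul, ← e, e2]

theorem TS.shear_thick {T : TS Y} {s L ε : ℝ} (h : T.Thick s L ε) : (T.shear s).Thick 0 L ε := by
  intro v hv
  have := h _ ((T.shear_hol s v).1 hv)
  simpa using this

theorem TS.shear_sys0 {T : TS Y} {s δ : ℝ} (hs : |s| ≤ 1) (h : T.Sys0 (6 * δ)) :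
    (T.shear s).Sys0 (2 * δ) := by
  intro v hv
  have h1 := (h _ ((T.shear_hol s v).1 hv)).trans (norm_le_re_im _)
  have h2 := Complex.abs_re_le_norm v
  have h3 := Complex.abs_im_le_norm v
  have h4 : |(ds 1 (-s) v).re| ≤ |v.re| + |v.im| := by
    simp only [ds_re, one_mul, neg_mul, sub_neg_eq_add]
    refine (abs_add_le _ _).trans ?_
    rw [abs_mul]
    nlinarith [abs_nonneg v.im]
  simp only [ds_im, div_one] at h1
  linarith

theorem Marked.turn {T : TS Y} {S' : Y → Set ℂ} {k : ℕ} (h : Marked T S' k) (u : ℂ)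
    (hu : ‖u‖ = 1) : Marked (T.turn u hu) (fun x => {v | u⁻¹ * v ∈ S' x}) k where
  sub x v hv := h.sub x hv
  tr x w a ha hf := by
    have := h.tr x (u⁻¹ * w) (u⁻¹ * a) ha fun α β h1 h2 h3 h4 => by
      have := hf α β h1 h2 h3 h4
      rwa [TS.turn_S, mul_add, mul_smul_comm, mul_smul_comm] at this
    simpa only [mem_ofPred_eq, TS.turn_ex, mul_sub] using this
  card := by
    obtain ⟨δ, hδ, hc⟩ := h.card
    have hu0 : u ≠ 0 := by rintro rfl; simp at hu
    exact ⟨δ, hδ, fun v hv hn => hc (u⁻¹ * v) (mul_ne_zero (inv_ne_zero hu0) hv)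
      (by rwa [norm_mul, norm_inv, hu, inv_one, one_mul])⟩

theorem AE.mono {Z : Type} [MeasurableSpace Z] (μ : Measure Z) (k : ℕ) :
    ∀ {P P' : Set Z → Prop}, (∀ Q, P Q → P' Q) → AE μ k P → AE μ k P' := by
  induction k with
  | zero => exact fun h hP => h _ hP
  | succ k ih => exact fun h hP => ih (fun Q hQ => hQ.mono fun q hq => h _ hq) hP

theorem rb_of (h1 : RB1) (h2 : RB2) (h3 : RB3) (h4 : RB4) : RB :=
  fun Y _ T => ⟨h1 Y T, h2 Y T, h3 Y T, h4 Y T⟩

end Pool.Agent.MP_16ecd2_an.H18
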