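import Pool.Agent.MP_16ecd2_an.H18.Kit

/-!
Paths that are straight in the charts: independence of the chart, openness, reparametrisation,
the affine formula in one chart and uniqueness.
-/

set_option autoImplicit false

namespace Pool.Agent.MP_16ecd2_an.H18

open MeasureTheory Set Filter Topology Metric

namespace A1X

variable {X : Type} [TopologicalSpace X] (S : TSurf X)

theorem any (γ : ℝ → X) (v : ℂ) (t : ℝ) (h : S.Lin γ v t) (φ : OpenPartialHomeomorph X ℂ)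
    (hφ : φ ∈ S.atlas) (hx : γ t ∈ φ.source) :
    ∀ᶠ s in 𝓝 t, φ (γ s) - φ (γ t) = (s - t) • v := by
  obtain ⟨hc, ψ, hψ, hy, he⟩ := h
  filter_upwards [he, hc.eventually (S.trans ψ hψ φ hφ _ hy hx)] with s h1 h2
  rw [h2, h1]

theorem congr (γ γ' : ℝ → X) (v : ℂ) (t : ℝ) (h : S.Lin γ v t) (e : γ' =ᶠ[𝓝 t] γ) :
    S.Lin γ' v t := by
  obtain ⟨hc, φ, hφ, hy, he⟩ := h
  have e0 : γ' t = γ t := e.eq_of_nhds
  refine ⟨hc.congr e.symm, φ, hφ, e0 ▸ hy, ?_⟩
  filter_upwards [he, e] with s h1 h2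
  rw [h2, e0, h1]

theorem rep (γ : ℝ → X) (v : ℂ) (a b t : ℝ) (h : S.Lin γ v (a + b * t)) :
    S.Lin (fun s => γ (a + b * s)) (b • v) t := by
  obtain ⟨hc, φ, hφ, hy, he⟩ := h
  have hk : ContinuousAt (fun s : ℝ => a + b * s) t := by fun_prop
  refine ⟨ContinuousAt.comp (f := fun s : ℝ => a + b * s) hc hk, φ, hφ, hy, ?_⟩
  filter_upwards [hk.eventually he] with s h1
  rw [h1, smul_smul]
  congr 1
  ring

theorem chart (φ : OpenPartialHomeomorph X ℂ) (hφ : φ ∈ S.atlas) (w v : ℂ) (t : ℝ)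
    (h : w + t • v ∈ φ.target) : S.Lin (fun s => φ.symm (w + s • v)) v t := by
  have hk : ContinuousAt (fun s : ℝ => w + s • v) t := by fun_prop
  refine ⟨ContinuousAt.comp (f := fun s : ℝ => w + s • v) (φ.continuousAt_symm h) hk, φ, hφ,
    φ.map_target h, ?_⟩
  filter_upwards [hk.eventually (φ.open_target.mem_nhds h)] with s h1
  rw [φ.right_inv h1, φ.right_inv h, sub_smul]
  abel

/-- Near `t` the path is read off from the chart. -/
theorem loc (γ : ℝ → X) (v : ℂ) (t : ℝ) (h : S.Lin γ v t) (φ : OpenPartialHomeomorph X ℂ)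
    (hφ : φ ∈ S.atlas) (hx : γ t ∈ φ.source) :
    ∀ᶠ s in 𝓝 t, φ (γ t) - t • v + s • v ∈ φ.target ∧
      γ s = φ.symm (φ (γ t) - t • v + s • v) := by
  filter_upwards [any S γ v t h φ hφ hx, h.1.eventually (φ.open_source.mem_nhds hx)] with s h1 h2
  have e : φ (γ t) - t • v + s • v = φ (γ s) := by
    rw [eq_add_of_sub_eq h1, sub_smul]
    abel
  rw [e]
  exact ⟨φ.map_source h2, (φ.left_inv h2).symm⟩

theorem nhd (γ : ℝ → X) (v : ℂ) (t : ℝ) (h : S.Lin γ v t) : ∀ᶠ s in 𝓝 t, S.Lin γ v s := by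
  obtain ⟨φ, hφ, hy, -⟩ := h.2
  filter_upwards [(loc S γ v t h φ hφ hy).eventually_nhds] with s hs
  exact congr S _ _ v s (chart S φ hφ _ v s hs.self_of_nhds.1) (hs.mono fun _ h => h.2)

theorem aff (φ : OpenPartialHomeomorph X ℂ) (hφ : φ ∈ S.atlas) (γ : ℝ → X) (v : ℂ) (I : Set ℝ)
    (hI : Convex ℝ I) (h : ∀ t ∈ I, S.Lin γ v t ∧ γ t ∈ φ.source) (s : ℝ) (hs : s ∈ I) (t : ℝ)
    (ht : t ∈ I) : φ (γ s) - φ (γ t) = (s - t) • v := by
  refine hI.isPreconnected.induction₂' (fun s t => φ (γ s) - φ (γ t) = (s - t) • v) ?_ ?_ hs ht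
  · intro x hx
    filter_upwards [nhdsWithin_le_nhds (any S γ v x (h x hx).1 φ hφ (h x hx).2)] with y hy
    refine ⟨?_, hy⟩
    rw [← neg_sub, hy, ← neg_smul, neg_sub]
  · intro a b c _ _ _ h1 h2
    rw [← sub_add_sub_cancel _ (φ (γ b)), h1, h2, ← add_smul, sub_add_sub_cancel]

theorem uniq [T2Space X] (γ γ' : ℝ → X) (v : ℂ) (I : Set ℝ) (hI : Convex ℝ I)
    (h : ∀ t ∈ I, S.Lin γ v t) (h' : ∀ t ∈ I, S.Lin γ' v t) (t₀ : ℝ) (h₀ : t₀ ∈ I)
    (e : γ t₀ = γ' t₀) (t : ℝ) (ht : t ∈ I) : γ t = γ' t := by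
  refine (hI.isPreconnected.induction₂' (fun s t => γ s = γ' s ↔ γ t = γ' t) ?_ ?_ h₀ ht).1 e
  · intro x hx
    refine nhdsWithin_le_nhds ?_
    by_cases ex : γ x = γ' x
    · obtain ⟨φ, hφ, hy, -⟩ := (h x hx).2
      filter_upwards [loc S γ v x (h x hx) φ hφ hy, loc S γ' v x (h' x hx) φ hφ (ex ▸ hy)]
        with y h1 h2
      have ey : γ y = γ' y := by rw [h1.2, h2.2, ex]
      exact ⟨iff_of_true ex ey, iff_of_true ey ex⟩
    · have hc : ContinuousAt (fun s => (γ s, γ' s)) x := (h x hx).1.prodMk (h' x hx).1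
      filter_upwards [hc.eventually (isClosed_diagonal.isOpen_compl.mem_nhds ex)] with y ey
      exact ⟨iff_of_false ex ey, iff_of_false ey ex⟩
  · exact fun _ _ _ _ _ _ h1 h2 => h1.trans h2

end A1X

theorem a1 : RA1 := fun _ _ _ S =>
  { nsig := fun _ _ _ h => by
      obtain ⟨_, φ, hφ, hy, -⟩ := h
      exact S.avoid φ hφ _ hy
    any := A1X.any S
    nhd := A1X.nhd S
    congr := A1X.congr S
    rep := A1X.rep S
    chart := A1X.chart S
    aff := A1X.aff S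
    uniq := A1X.uniq S }

end Pool.Agent.MP_16ecd2_an.H18
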