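import Pool.Agent.MP_16ecd2_an.H18.Kit

/-!
Basic facts on the abstract model.
-/

set_option autoImplicit false

namespace Pool.Agent.MP_16ecd2_an.H18

open MeasureTheory Set Filter Topology Metric

namespace B1X

variable {Y : Type} [MeasurableSpace Y] (T : TS Y)

theorem zero (x : Y) : (0 : ℂ) ∉ T.S x := fun h => by
  have := T.star x 0 h 0 le_rfl one_pos
  rw [smul_zero] at this
  exact this h

theorem area_pos : 0 < T.area := by
  obtain ⟨y⟩ := T.ne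
  obtain ⟨r, hr, -, -, h3⟩ := T.loc y
  have h := (h3 (ball 0 r) Subset.rfl measurableSet_ball).2
  have := T.fm
  refine ENNReal.toReal_pos ?_ (measure_ne_top _ _)
  have h1 : 0 < T.μ (T.ex y '' ball 0 r) := by
    rw [h]
    exact measure_ball_pos _ _ hr
  exact (h1.trans_le (measure_mono (subset_univ _))).ne'

theorem opn (x : Y) : IsOpen (T.S x)ᶜ := by
  rw [isOpen_iff_mem_nhds]
  intro z hz
  have hF : IsOpen (T.S x ∩ closedBall 0 (‖z‖ + 1))ᶜ := (T.fin x _).isClosed.isOpen_compl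
  have h1 : (T.S x ∩ closedBall 0 (‖z‖ + 1))ᶜ ∈ 𝓝 z := hF.mem_nhds fun h => hz h.1
  have h2 : ball (0 : ℂ) (‖z‖ + 1) ∈ 𝓝 z := isOpen_ball.mem_nhds (by simp)
  filter_upwards [h1, h2] with w hw1 hw2 hw
  exact hw1 ⟨hw, ball_subset_closedBall hw2⟩

theorem tube (x : Y) (u : ℂ) (h : T.Reg x u) :
    ∃ r > 0, Disjoint (thickening r (segment ℝ 0 u)) (T.S x) := by
  have hc : IsCompact (segment ℝ 0 u) := by
    rw [segment_eq_image]
    exact isCompact_Icc.image (by fun_prop)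
  obtain ⟨r, hr, hs⟩ := hc.exists_thickening_subset_open (opn T x) (by
    rw [segment_eq_image]
    rintro _ ⟨t, ht, rfl⟩
    simpa using h t ht)
  exact ⟨r, hr, hs.disjoint_compl_right.mono_right (by simp)⟩

theorem reg (x : Y) (C : Set ℂ) (hC : Convex ℝ C) (h0 : 0 ∈ C) (hd : Disjoint C (T.S x))
    (u : ℂ) (hu : u ∈ C) (w : ℂ) (hw : u + w ∈ C) : T.Reg (T.ex x u) w := fun t ht =>
  (T.cons x C hC h0 hd u hu (t • w) (hC.add_smul_mem hu hw ht)).1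

theorem line (x : Y) (u : ℂ) (I : Set ℝ) (hI : Convex ℝ I) (h0 : 0 ∈ I)
    (hf : ∀ t ∈ I, t • u ∉ T.S x) (s : ℝ) (hs : s ∈ I) (t : ℝ) (ht : t ∈ I) :
    T.Reg (T.ex x (s • u)) ((t - s) • u) ∧
      T.ex (T.ex x (s • u)) ((t - s) • u) = T.ex x (t • u) := by
  have hC : Convex ℝ ((fun t : ℝ => t • u) '' I) :=
    hI.linear_image (LinearMap.toSpanSingleton ℝ ℂ u)
  have h0' : (0 : ℂ) ∈ (fun t : ℝ => t • u) '' I := ⟨0, h0, zero_smul _ _⟩
  have hd : Disjoint ((fun t : ℝ => t • u) '' I) (T.S x) := by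
    rw [Set.disjoint_left]
    rintro _ ⟨t, ht, rfl⟩
    exact hf t ht
  have e : s • u + (t - s) • u = t • u := by rw [← add_smul, add_sub_cancel]
  have hw : s • u + (t - s) • u ∈ (fun t : ℝ => t • u) '' I := ⟨t, ht, e.symm⟩
  refine ⟨reg T x _ hC h0' hd _ ⟨s, hs, rfl⟩ _ hw, ?_⟩
  rw [(T.cons x _ hC h0' hd _ ⟨s, hs, rfl⟩ _ hw).2, e]

theorem back (x : Y) (u : ℂ) (h : T.Reg x u) :
    T.Reg (T.ex x u) (-u) ∧ T.ex (T.ex x u) (-u) = x := by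
  have := line T x u (Icc 0 1) (convex_Icc 0 1) ⟨le_rfl, zero_le_one⟩ h 1 ⟨zero_le_one, le_rfl⟩
    0 ⟨le_rfl, zero_le_one⟩
  rwa [one_smul, zero_sub, neg_smul, one_smul, zero_smul, T.ex0] at this

theorem tr (x : Y) (u a : ℂ) (ha : a ∈ T.S x)
    (hf : ∀ α β : ℝ, 0 ≤ α → 0 ≤ β → α + β ≤ 1 → β < 1 → α • u + β • a ∉ T.S x) :
    a - u ∈ T.S (T.ex x u) := by
  by_contra hn
  set C : Set ℂ := {z | ∃ α β : ℝ, 0 ≤ α ∧ 0 ≤ β ∧ α + β ≤ 1 ∧ β < 1 ∧ z = α • u + β • a} with hCd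
  set K : Set ℂ := {z | ∃ α β : ℝ, 0 ≤ α ∧ 0 ≤ β ∧ α + β ≤ 1 ∧ z = α • u + β • a - u} with hKd
  have hC : Convex ℝ C := by
    rintro _ ⟨α, β, h1, h2, h3, h4, rfl⟩ _ ⟨α', β', h1', h2', h3', h4', rfl⟩ p q hp hq hpq
    refine ⟨p * α + q * α', p * β + q * β', by positivity, by positivity, by nlinarith, ?_, by module⟩
    rcases hp.eq_or_lt with rfl | hp'
    · nlinarith
    · nlinarith [mul_pos hp' (sub_pos.2 h4), mul_nonneg hq (sub_pos.2 h4').le]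
  have hK : Convex ℝ K := by
    rintro _ ⟨α, β, h1, h2, h3, rfl⟩ _ ⟨α', β', h1', h2', h3', rfl⟩ p q hp hq hpq
    refine ⟨p * α + q * α', p * β + q * β', by positivity, by positivity, by nlinarith, ?_⟩
    obtain rfl : q = 1 - p := by linarith
    module
  have h0 : (0 : ℂ) ∈ C := ⟨0, 0, le_rfl, le_rfl, by norm_num, one_pos, by simp⟩
  have hu : u ∈ C := ⟨1, 0, zero_le_one, le_rfl, by norm_num, one_pos, by simp⟩
  have hd : Disjoint C (T.S x) := by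
    rw [Set.disjoint_left]
    rintro _ ⟨α, β, h1, h2, h3, h4, rfl⟩
    exact hf α β h1 h2 h3 h4
  have hd' : Disjoint K (T.S (T.ex x u)) := by
    rw [Set.disjoint_left]
    rintro _ ⟨α, β, h1, h2, h3, rfl⟩
    rcases lt_or_ge β 1 with h4 | h4
    · exact (T.cons x C hC h0 hd u hu _ ⟨α, β, h1, h2, h3, h4, by abel⟩).1
    · obtain rfl : β = 1 := by linarith
      obtain rfl : α = 0 := by linarith
      simpa using hn
  have hb := (T.cons x C hC h0 hd u hu (-u) (by simpa using h0)).2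
  rw [add_neg_cancel, T.ex0] at hb
  have := (T.cons (T.ex x u) K hK ⟨1, 0, zero_le_one, le_rfl, by norm_num, by simp⟩ hd' (-u)
    ⟨0, 0, le_rfl, le_rfl, by norm_num, by simp⟩ a
    ⟨0, 1, le_rfl, zero_le_one, by norm_num, by simp [sub_eq_neg_add]⟩).1
  rw [hb] at this
  exact this ha

theorem trC (x : Y) (C : Set ℂ) (u a : ℂ) (hC : Convex ℝ C) (h0 : 0 ∈ C) (hu : u ∈ C)
    (haC : a ∈ C) (ha : a ∈ T.S x) (ho : ∀ z ∈ C, z ∈ T.S x → z = a) (hr : T.Reg x u) :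
    a - u ∈ T.S (T.ex x u) := by
  refine tr T x u a ha fun α β h1 h2 h3 h4 hz => ?_
  have hb : 0 < 1 - β := sub_pos.2 h4
  have ht : α / (1 - β) ∈ Icc (0 : ℝ) 1 := ⟨by positivity, by rw [div_le_one hb]; linarith⟩
  have e : α • u = (1 - β) • (α / (1 - β)) • u := by
    rw [smul_smul, mul_div_cancel₀ _ hb.ne']
  have hm : α • u + β • a ∈ C := by
    rw [e]
    exact hC (hC.smul_mem_of_zero_mem h0 hu ht) haC hb.le h2 (by ring)
  have e2 := ho _ hm hz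
  have e3 : (α / (1 - β)) • u = a := by
    refine smul_right_injective ℂ hb.ne' ?_
    show (1 - β) • (α / (1 - β)) • u = (1 - β) • a
    rw [← e, sub_smul, one_smul]
    exact eq_sub_of_add_eq e2
  exact hr _ ht (e3 ▸ ha)

theorem dev (x : Y) (C : Set ℂ) (hC : Convex ℝ C) (h0 : 0 ∈ C) (hd : Disjoint C (T.S x)) :
    T.Dev C (T.ex x) := by
  intro v hv
  obtain ⟨r, hr, hs⟩ := Metric.isOpen_iff.1 (opn T (T.ex x v)) 0 (zero T _)
  exact ⟨r, hr, hs.disjoint_compl_right.mono_right (by simp), fun h _ hh =>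
    (T.cons x C hC h0 hd v hv h hh).2.symm⟩

theorem cind (Q : ℝ → Prop) (h0 : Q 0)
    (hl : ∀ t ∈ Ioc (0 : ℝ) 1, (∀ s ∈ Ico 0 t, Q s) → Q t)
    (hf : ∀ t ∈ Ico (0 : ℝ) 1, (∀ s ∈ Icc 0 t, Q s) → ∃ ε > 0, ∀ s ∈ Ioo t (t + ε), s ≤ 1 → Q s) :
    ∀ t ∈ Icc (0 : ℝ) 1, Q t := by
  by_contra hn
  push Not at hn
  obtain ⟨b, hb, hbq⟩ := hn
  set B : Set ℝ := {t | t ∈ Icc (0 : ℝ) 1 ∧ ¬ Q t} with hB
  have hne : B.Nonempty := ⟨b, hb, hbq⟩
  have hbd : BddBelow B := ⟨0, fun t ht => ht.1.1⟩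
  have h1 : 0 ≤ sInf B := le_csInf hne fun t ht => ht.1.1
  have h2 : sInf B ≤ b := csInf_le hbd ⟨hb, hbq⟩
  have h3 : ∀ s ∈ Ico 0 (sInf B), Q s := fun s hs => by
    by_contra hq
    exact absurd (csInf_le hbd ⟨⟨hs.1, hs.2.le.trans (h2.trans hb.2)⟩, hq⟩) (not_le.2 hs.2)
  have h4 : Q (sInf B) := by
    rcases h1.eq_or_lt with e | e
    · exact e ▸ h0
    · exact hl _ ⟨e, h2.trans hb.2⟩ h3
  have h5 : ∀ s ∈ Icc 0 (sInf B), Q s := fun s hs => by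
    rcases hs.2.eq_or_lt with e | e
    · exact e ▸ h4
    · exact h3 s ⟨hs.1, e⟩
  have h6 : sInf B < b := lt_of_le_of_ne h2 fun e => hbq (e ▸ h4)
  obtain ⟨ε, hε, h7⟩ := hf _ ⟨h1, h6.trans_le hb.2⟩ h5
  have : sInf B + ε ≤ sInf B := le_csInf hne fun t ht => by
    by_contra hlt
    have h8 : sInf B ≤ t := csInf_le hbd ht
    have h9 : sInf B < t := lt_of_le_of_ne h8 fun e => ht.2 (e ▸ h4)
    exact ht.2 (h7 t ⟨h9, not_le.1 hlt⟩ ht.1.2)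
  linarith

theorem small (h : ℂ) {r : ℝ} (hr : 0 < r) : ∃ ε > 0, ∀ s : ℝ, |s| < ε → ‖s • h‖ < r := by
  refine ⟨r / (‖h‖ + 1), by positivity, fun s hs => ?_⟩
  rw [lt_div_iff₀ (by positivity)] at hs
  rw [norm_smul, Real.norm_eq_abs]
  nlinarith [abs_nonneg s]

theorem devc (D C : Set ℂ) (Φ : ℂ → Y) (hΦ : T.Dev D Φ) (hC : Convex ℝ C) (hCD : C ⊆ D)
    (v : ℂ) (hv : v ∈ C) (h : ℂ) (hh : v + h ∈ C) :
    T.Reg (Φ v) h ∧ Φ (v + h) = T.ex (Φ v) h := by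
  have hm : ∀ t ∈ Icc (0 : ℝ) 1, v + t • h ∈ D := fun t ht => hCD (hC.add_smul_mem hv hh ht)
  have e : ∀ s t : ℝ, v + t • h + (s - t) • h = v + s • h := fun s t => by module
  have key := cind (fun t => t • h ∉ T.S (Φ v) ∧ Φ (v + t • h) = T.ex (Φ v) (t • h))
    (by simpa [T.ex0] using zero T _) ?_ ?_
  · exact ⟨fun t ht => (key t ht).1, by simpa using (key 1 ⟨zero_le_one, le_rfl⟩).2⟩
  · intro t ht hq
    obtain ⟨r, hr, hd, hr'⟩ := hΦ _ (hm t ⟨ht.1.le, ht.2⟩)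
    obtain ⟨ε, hε, hs⟩ := small h hr
    obtain ⟨s, hs0, hst, hsε⟩ : ∃ s : ℝ, 0 ≤ s ∧ s < t ∧ t - s < ε :=
      ⟨max 0 (t - ε / 2), le_max_left _ _, max_lt ht.1 (by linarith),
        by linarith [le_max_right 0 (t - ε / 2)]⟩
    have hn : ‖(s - t) • h‖ < r := hs _ (by rw [abs_sub_comm, abs_of_pos (by linarith)]; exact hsε)
    have h1 := hr' _ hn (by rw [e]; exact hm s ⟨hs0, hst.le.trans ht.2⟩)
    rw [e, (hq s ⟨hs0, hst⟩).2] at h1
    have h2 : T.Reg (Φ (v + t • h)) ((s - t) • h) := fun p hp => by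
      refine Set.disjoint_left.1 hd ?_
      rw [mem_ball_zero_iff, norm_smul, Real.norm_eq_abs, abs_of_nonneg hp.1]
      exact (mul_le_of_le_one_left (norm_nonneg _) hp.2).trans_lt hn
    obtain ⟨h3, h4⟩ := back T _ _ h2
    rw [← h1, ← neg_smul, neg_sub] at h3 h4
    have h5 : t • h ∉ T.S (Φ v) := fun ha => by
      have := tr T (Φ v) (s • h) (t • h) ha fun α β a1 a2 a3 a4 => by
        rw [smul_smul, smul_smul, ← add_smul]
        refine (hq _ ⟨by have := ht.1; positivity, ?_⟩).1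
        nlinarith [mul_pos (sub_pos.2 a4) (sub_pos.2 hst), mul_nonneg (sub_nonneg.2 a3) hs0]
      rw [← sub_smul] at this
      exact h3 1 ⟨zero_le_one, le_rfl⟩ (by rwa [one_smul])
    refine ⟨h5, ?_⟩
    rw [← h4]
    refine (line T (Φ v) h (Icc 0 t) (convex_Icc _ _) ⟨le_rfl, ht.1.le⟩ (fun p hp => ?_) s
      ⟨hs0, hst.le⟩ t ⟨ht.1.le, le_rfl⟩).2
    rcases hp.2.eq_or_lt with rfl | hp'
    · exact h5
    · exact (hq p ⟨hp.1, hp'⟩).1
  · intro t ht hq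
    obtain ⟨r, hr, -, hr'⟩ := hΦ _ (hm t ⟨ht.1, ht.2.le⟩)
    obtain ⟨r₁, hr₁, hb⟩ := Metric.isOpen_iff.1 (opn T (Φ v)) _ (hq t ⟨ht.1, le_rfl⟩).1
    obtain ⟨ε, hε, hs⟩ := small h (lt_min hr hr₁)
    have hfree : ∀ p ∈ Ico 0 (t + ε), p • h ∉ T.S (Φ v) := fun p hp => by
      rcases le_or_gt p t with hp' | hp'
      · exact (hq p ⟨hp.1, hp'⟩).1
      · refine hb ?_
        rw [mem_ball_iff_norm, ← sub_smul]
        exact (hs _ (by rw [abs_of_pos (by linarith)]; linarith [hp.2])).trans_le (min_le_right _ _)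
    refine ⟨ε, hε, fun s hs' hs1 => ?_⟩
    have hs0 : 0 ≤ s := ht.1.trans hs'.1.le
    refine ⟨hfree s ⟨hs0, hs'.2⟩, ?_⟩
    have h1 := hr' ((s - t) • h)
      ((hs _ (by rw [abs_of_pos (by linarith [hs'.1])]; linarith [hs'.2])).trans_le (min_le_left _ _))
      (by rw [e]; exact hm s ⟨hs0, hs1⟩)
    rw [e, (hq t ⟨ht.1, le_rfl⟩).2] at h1
    rw [h1]
    exact (line T (Φ v) h (Ico 0 (t + ε)) (convex_Ico _ _) ⟨le_rfl, by linarith [ht.1]⟩ hfree t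
      ⟨ht.1, by linarith⟩ s ⟨hs0, hs'.2⟩).2

end B1X

theorem b1 : RB1 := fun _ _ T =>
  ⟨B1X.zero T, B1X.area_pos T, B1X.tube T, B1X.reg T, B1X.line T, B1X.back T, B1X.tr T, B1X.trC T,
    B1X.dev T, B1X.devc T⟩

end Pool.Agent.MP_16ecd2_an.H18
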