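import Pool.Agent.MP_16ecd2_an.H18.Kit

/-!
Row Disc: the discrepancy of the linear flow in most directions.
-/

set_option autoImplicit false

namespace Pool.Agent.MP_16ecd2_an.H18

open MeasureTheory Set Filter Topology Metric
open scoped ENNReal

namespace DiscX

/-- The number of levels below `M` that are not thick. -/
noncomputable def cnt (th : ℕ → Prop) (M : ℕ) : ℕ := {j : ℕ | j < M ∧ ¬ th j}.ncard

theorem fin (p : ℕ → Prop) (M : ℕ) : {j : ℕ | j < M ∧ p j}.Finite :=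
  (finite_lt_nat M).subset fun _ h => h.1

theorem cnt_mono (th : ℕ → Prop) {a b : ℕ} (h : a ≤ b) : cnt th a ≤ cnt th b :=
  ncard_le_ncard (fun _ hj => ⟨hj.1.trans_le h, hj.2⟩) (fin _ _)

theorem cnt_win (th : ℕ → Prop) (i g w : ℕ) :
    cnt th i + w ≤ cnt th (i + w) + g + {j : ℕ | i + g ≤ j ∧ j < i + w ∧ th j}.ncard := by
  have hf : {j : ℕ | i + g ≤ j ∧ j < i + w ∧ th j}.Finite :=
    (finite_lt_nat (i + w)).subset fun _ h => h.2.1
  have h1 : ({j : ℕ | j < i ∧ ¬ th j} ∪ Ico (i + g) (i + w)).ncard = cnt th i + (w - g) := by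
    rw [ncard_union_eq (disjoint_left.2 fun j a b => by have := a.1; have := b.1; omega) (fin _ _)
      (finite_Ico _ _), ← Finset.coe_Ico, ncard_coe_finset, Nat.card_Ico, cnt]
    omega
  have h2 : ({j : ℕ | j < i ∧ ¬ th j} ∪ Ico (i + g) (i + w)).ncard ≤
      ({j : ℕ | j < i + w ∧ ¬ th j} ∪ {j : ℕ | i + g ≤ j ∧ j < i + w ∧ th j}).ncard := by
    refine ncard_le_ncard ?_ ((fin _ _).union hf)
    rintro j (hj | hj)
    · exact Or.inl ⟨hj.1.trans_le (Nat.le_add_right _ _), hj.2⟩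
    · by_cases h : th j
      exacts [Or.inr ⟨hj.1, hj.2, h⟩, Or.inl ⟨hj.2, h⟩]
  have h3 := ncard_union_le {j : ℕ | j < i + w ∧ ¬ th j} {j : ℕ | i + g ≤ j ∧ j < i + w ∧ th j}
  unfold cnt at h1 ⊢
  omega

section
variable {D : ℝ → ℝ → Prop} {th : ℕ → Prop} {E₀ θ : ℝ} {g m w : ℕ}

theorem ind (hw : w = 2 * (g + m)) (hm : 0 < m) (hθ : θ * 8 ^ w = 8 ^ w - 1) (hE : 0 ≤ E₀)
    (h1 : D 1 E₀) (hmul : ∀ (L E : ℝ) (k : ℕ), 0 < L → 0 ≤ E → D L E → D (k * L) (k * E))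
    (hc : ∀ (i : ℕ) (E : ℝ), m ≤ {j : ℕ | i + g ≤ j ∧ j < i + w ∧ th j}.ncard → 0 ≤ E →
      D (8 ^ i) E → D (8 ^ (i + w)) ((8 ^ w - 1) * E + 4 * m)) (n : ℕ) :
    ∃ (G : ℕ) (E : ℝ), 0 ≤ E ∧ D (8 ^ (w * n)) E ∧
      E + 4 * m ≤ 8 ^ (w * n) * θ ^ G * (E₀ + 4 * m) ∧
      (g + m) * n ≤ (g + m) * G + cnt th (w * n) := by
  have hK : (8 : ℝ) ≤ 8 ^ w := le_self_pow₀ (by norm_num) (by omega)
  have hm' : (0 : ℝ) ≤ 4 * m := by positivity
  induction n with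
  | zero => exact ⟨0, E₀, hE, by simpa using h1, by simp, by simp⟩
  | succ n ih =>
    obtain ⟨G, E, a1, a2, a3, a4⟩ := ih
    rw [Nat.mul_succ w n]
    by_cases h : m ≤ {j : ℕ | w * n + g ≤ j ∧ j < w * n + w ∧ th j}.ncard
    · refine ⟨G + 1, _, by nlinarith, hc _ E h a1 a2, ?_, ?_⟩
      · have e : (8 : ℝ) ^ (w * n + w) * θ ^ (G + 1) * (E₀ + 4 * m) =
            (8 ^ w - 1) * (8 ^ (w * n) * θ ^ G * (E₀ + 4 * m)) := by
          rw [← hθ]; ring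
        rw [e]
        refine le_trans ?_ (mul_le_mul_of_nonneg_left a3 (by linarith))
        nlinarith
      · have := cnt_mono th (Nat.le_add_right (w * n) w)
        rw [Nat.mul_succ, Nat.mul_succ]
        omega
    · have h2 := hmul _ E (8 ^ w) (by positivity) a1 a2
      push_cast at h2
      rw [← pow_add, add_comm] at h2
      refine ⟨G, _, by positivity, h2, ?_, ?_⟩
      · have e : (8 : ℝ) ^ (w * n + w) * θ ^ G * (E₀ + 4 * m) =
            8 ^ w * (8 ^ (w * n) * θ ^ G * (E₀ + 4 * m)) := by ring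
        rw [e]
        refine le_trans ?_ (mul_le_mul_of_nonneg_left a3 (by linarith))
        nlinarith
      · have := cnt_win th (w * n) g w
        rw [Nat.mul_succ]
        omega

theorem core {γ : ℝ} (hw : w = 2 * (g + m)) (hm : 0 < m) (hθ : θ * 8 ^ w = 8 ^ w - 1)
    (hθ0 : 0 < θ) (hγ0 : 0 < γ) (hγ1 : γ ≤ 1) (hγ : θ ≤ γ ^ (2 * w)) (hE : 0 ≤ E₀) (h1 : D 1 E₀)
    (hmul : ∀ (L E : ℝ) (k : ℕ), 0 < L → 0 ≤ E → D L E → D (k * L) (k * E))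
    (hc : ∀ (i : ℕ) (E : ℝ), m ≤ {j : ℕ | i + g ≤ j ∧ j < i + w ∧ th j}.ncard → 0 ≤ E →
      D (8 ^ i) E → D (8 ^ (i + w)) ((8 ^ w - 1) * E + 4 * m)) (N : ℕ) (hN : 4 * cnt th N ≤ N) :
    ∃ E, D (8 ^ N) E ∧ E ≤ (E₀ + 4 * m) / θ * γ ^ N * 8 ^ N := by
  obtain ⟨G, E, a1, a2, a3, a4⟩ := ind hw hm hθ hE h1 hmul hc (N / w)
  have hw0 : 0 < w := by omega
  have e := Nat.mod_add_div N w
  have hr := Nat.mod_lt N hw0
  have h2 := hmul _ E (8 ^ (N % w)) (by positivity) a1 a2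
  push_cast at h2
  rw [← pow_add, e] at h2
  refine ⟨_, h2, ?_⟩
  have h3 := cnt_mono th (show w * (N / w) ≤ N by omega)
  have h4 : N / w ≤ 2 * G + 1 := by
    by_contra hn
    have h5 : (g + m) * (2 * G + 2) ≤ (g + m) * (N / w) := Nat.mul_le_mul_left _ (by omega)
    have h6 : w * (N / w) = 2 * ((g + m) * (N / w)) := by rw [← mul_assoc, ← hw]
    have h7 : (g + m) * (2 * G + 2) = 2 * ((g + m) * G) + w := by rw [hw]; ring
    omega
  have h5 : N ≤ 2 * w * (G + 1) := by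
    have := Nat.mul_le_mul_left w h4
    have h7 : 2 * w * (G + 1) = w * (2 * G + 1) + w := by ring
    omega
  have h6 : θ ^ G * θ ≤ γ ^ N := by
    rw [← pow_succ]
    refine (pow_le_pow_left₀ hθ0.le hγ _).trans ?_
    rw [← pow_mul]
    exact pow_le_pow_of_le_one hγ0.le hγ1 h5
  have hm' : (0 : ℝ) ≤ 4 * m := by positivity
  calc (8 : ℝ) ^ (N % w) * E ≤ 8 ^ (N % w) * (8 ^ (w * (N / w)) * θ ^ G * (E₀ + 4 * m)) :=
        mul_le_mul_of_nonneg_left (by linarith) (by positivity)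
    _ = (E₀ + 4 * m) / θ * (θ ^ G * θ) * 8 ^ (N % w + w * (N / w)) := by
        field_simp
        ring
    _ ≤ _ := by
        rw [e]
        gcongr

end

end DiscX

open DiscX in
theorem disc (hb : RB) (ht : RThk) (h0 : RE0) (hc : RContr) : RDisc := by
  intro Y _ T
  obtain ⟨δ₀, hδ₀, hs⟩ := (hb Y T).hol_sys
  obtain ⟨ε, C, γ₀, hε, hε', hC, hγ₀, hγ₀', hB⟩ := ht Y T
  obtain ⟨g, hg⟩ := pow_unbounded_of_one_lt (24 / ε) (show (1 : ℝ) < 8 by norm_num)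
  obtain ⟨m, hm⟩ := exists_nat_gt (144 * T.area / ε ^ 2 + 1)
  have hA := (hb Y T).area_pos
  have hm0 : 0 < m := Nat.cast_pos.1 (lt_trans (by positivity) hm : (0 : ℝ) < m)
  obtain ⟨w, hw⟩ : ∃ w, w = 2 * (g + m) := ⟨_, rfl⟩
  have hK : (8 : ℝ) ≤ 8 ^ w := le_self_pow₀ (by norm_num) (by omega)
  obtain ⟨θ, hθ, hθ0, hθ1⟩ : ∃ θ : ℝ, θ * 8 ^ w = 8 ^ w - 1 ∧ 0 < θ ∧ θ < 1 :=
    ⟨(8 ^ w - 1) / 8 ^ w, div_mul_cancel₀ _ (by positivity), div_pos (by linarith) (by positivity),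
      (div_lt_one (by positivity)).2 (by linarith)⟩
  have hw0 : 2 * w ≠ 0 := by omega
  obtain ⟨γ, h1, h2, h3⟩ : ∃ γ : ℝ, γ₀ ≤ γ ∧ γ < 1 ∧ θ ≤ γ ^ (2 * w) := by
    refine ⟨max γ₀ (θ ^ (((2 * w : ℕ) : ℝ)⁻¹)), le_max_left _ _,
      max_lt hγ₀' (Real.rpow_lt_one hθ0.le hθ1 (by positivity)), ?_⟩
    exact (Real.rpow_inv_natCast_pow hθ0.le hw0).symm.le.trans
      (pow_le_pow_left₀ (by positivity) (le_max_right _ _) _)
  have hγ := hγ₀.trans_le h1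
  have hδ : 0 < δ₀ / 6 := by positivity
  have hS : T.Sys0 (6 * (δ₀ / 6)) := fun h hh => by linarith [hs h hh]
  have hC' : 0 < (1 / (δ₀ / 6) + 1 + 4 * m) / θ := by positivity
  refine ⟨δ₀ / 6, C + (1 / (δ₀ / 6) + 1 + 4 * m) / θ, γ, hδ, by positivity, hγ, h2, hS, fun N => ?_⟩
  obtain ⟨Bad, b1, b2, b3⟩ := hB N
  refine ⟨Bad, b1, b2.trans (ENNReal.ofReal_le_ofReal ?_), fun s hs1 hs2 => ?_⟩
  · gcongr
    linarith
  · have hS' := TS.shear_sys0 (abs_le.2 ⟨by linarith [hs1.1], hs1.2.le⟩) hS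
    have e0 := h0 Y (T.shear s) _ hδ hS'
    obtain ⟨E, a1, a2⟩ := core (D := (T.shear s).Disc (δ₀ / 6))
      (th := fun j => (T.shear s).Thick 0 (8 ^ j) ε) hw hm0 hθ hθ0 hγ h2.le h3 (by positivity)
      e0.one e0.mul
      (fun i E => hc Y (T.shear s) _ ε E g m i w hδ hS' hε hε'
        (by rw [div_lt_iff₀ hε] at hg; linarith) hm) N
      (le_trans (Nat.mul_le_mul_left 4 (ncard_le_ncard
        (fun j hj => And.intro hj.1 fun h => hj.2 (TS.shear_thick h)) (fin _ _))) (b3 s hs1 hs2))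
    intro y v x t c1 c2 c3 c4 c5 c6
    refine (a1 y v x t c1 c2 c3 c4 c5 c6).trans (add_le_add le_rfl (a2.trans ?_))
    gcongr
    linarith

end Pool.Agent.MP_16ecd2_an.H18
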