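import Pool.Agent.MP_16ecd2_an.H18.Kit

/-! The complement of a null set is connected by short steps. -/

set_option autoImplicit false

namespace Pool.Agent.MP_16ecd2_an.H18

open MeasureTheory Set Filter Topology Metric

namespace GconnX

variable {Y : Type} [MeasurableSpace Y] {T : TS Y} {Z U : Set Y} {η : ℝ}

theorem freq (hZ : T.μ Z = 0) (y : Y) : ∃ᶠ u in 𝓝 (0 : ℂ), T.ex y u ∉ Z := by
  intro h
  obtain ⟨ε, hε, h1⟩ := Metric.eventually_nhds_iff_ball.1 h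
  obtain ⟨r, hr, -, -, h2⟩ := T.loc y
  have h3 := (h2 (ball 0 (min ε r)) (ball_subset_ball (min_le_right _ _)) measurableSet_ball).2
  have h4 : T.μ (T.ex y '' ball 0 (min ε r)) = 0 := measure_mono_null (by
    rintro _ ⟨u, hu, rfl⟩
    exact not_not.1 (h1 u (ball_subset_ball (min_le_left _ _) hu))) hZ
  exact (measure_ball_pos volume (0 : ℂ) (lt_min hε hr)).ne' (h3.symm.trans h4)

theorem shift {x : Y} {C : Set ℂ} (hC : Convex ℝ C) (h0 : 0 ∈ C) (hS : Disjoint C (T.S x))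
    (hO : IsOpen C) {u : ℂ} (hu : u ∈ C) :
    ∀ᶠ w in 𝓝 (0 : ℂ), T.ex (T.ex x u) w = T.ex x (u + w) := by
  have : Tendsto (fun w : ℂ => u + w) (𝓝 0) (𝓝 u) := by
    simpa using (continuous_const_add u).tendsto 0
  exact (this.eventually (hO.mem_nhds hu)).mono fun w hw => (T.cons x C hC h0 hS u hu w hw).2

theorem step (hZ : T.μ Z = 0) (hη : 0 < η)
    (hs : ∀ z ∈ U, z ∉ Z → ∀ (u : ℂ) (r : ℝ), ‖u‖ < r → r ≤ η →
      Disjoint (ball (0 : ℂ) r) (T.S z) → T.ex z u ∉ Z → T.ex z u ∈ U)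
    {x : Y} {C : Set ℂ} (hC : Convex ℝ C) (h0 : 0 ∈ C) (hS : Disjoint C (T.S x)) (hO : IsOpen C)
    (hx : ∀ᶠ w in 𝓝 (0 : ℂ), T.ex x w ∉ Z → T.ex x w ∈ U) {u : ℂ} (hu : u ∈ C) :
    ∀ᶠ w in 𝓝 (0 : ℂ), T.ex (T.ex x u) w ∉ Z → T.ex (T.ex x u) w ∈ U := by
  have ht : ∀ v : ℂ, Tendsto (fun w : ℂ => v + w) (𝓝 0) (𝓝 v) := fun v => by
    simpa using (continuous_const_add v).tendsto 0
  have key : C ⊆ {v | ∀ᶠ w in 𝓝 v, T.ex x w ∉ Z → T.ex x w ∈ U} := by
    refine hC.isPreconnected.subset_of_closure_inter_subset isOpen_setOfPred_eventually_nhds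
      ⟨0, h0, hx⟩ ?_
    rintro v ⟨hv, hvC⟩
    obtain ⟨ρ, hρ, h1⟩ := Metric.isOpen_iff.1 hO v hvC
    obtain ⟨r, hr, hrρ, hrη⟩ : ∃ r, 0 < r ∧ 4 * r ≤ ρ ∧ 2 * r ≤ η :=
      ⟨min (ρ / 4) (η / 2), by positivity, by linarith [min_le_left (ρ / 4) (η / 2)],
        by linarith [min_le_right (ρ / 4) (η / 2)]⟩
    obtain ⟨v', hv', h2⟩ := mem_closure_iff.1 hv _ isOpen_ball (mem_ball_self hr)
    have hv'C : v' ∈ C := h1 (ball_subset_ball (by linarith) hv')
    obtain ⟨w, h3, h4, h5, h6⟩ := ((freq hZ (T.ex x v')).and_eventually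
      ((shift hC h0 hS hO hv'C).and (((ht v').eventually h2).and
        ((ht v').eventually (isOpen_ball.mem_nhds hv'))))).exists
    rw [h4] at h3
    have hwC : v' + w ∈ C := h1 (ball_subset_ball (by linarith) h6)
    have h7 : ∀ a : ℂ, ‖a‖ < 2 * r → v' + w + a ∈ C := fun a ha => h1 (by
      rw [mem_ball, dist_eq_norm, add_sub_right_comm]
      rw [dist_eq_norm] at h6
      linarith [norm_add_le (v' + w - v) a])
    refine Metric.eventually_nhds_iff_ball.2 ⟨r, hr, fun a ha => ?_⟩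
    have h8 : ‖a - (v' + w)‖ < 2 * r := by
      rw [← dist_eq_norm]
      linarith [dist_triangle_right a (v' + w) v, mem_ball.1 ha, h6]
    have h9 := hs _ (h5 h3) h3 _ _ h8 hrη (Set.disjoint_left.2 fun b hb =>
      (T.cons x C hC h0 hS _ hwC b (h7 b (mem_ball_zero_iff.1 hb))).1)
    rwa [(T.cons x C hC h0 hS _ hwC _ (h7 _ h8)).2, add_sub_cancel] at h9
  filter_upwards [shift hC h0 hS hO hu, (ht u).eventually (key hu)] with w h1 h2
  rwa [h1]

end GconnX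

open GconnX in
theorem gconn (hb : RB) : RGconn := by
  intro Y _ T Z U η z₀ z₁ hZ hη h0 h0' h1 h1'
  by_contra hn
  have hs : ∀ z ∈ U, z ∉ Z → ∀ (u : ℂ) (r : ℝ), ‖u‖ < r → r ≤ η →
      Disjoint (ball (0 : ℂ) r) (T.S z) → T.ex z u ∉ Z → T.ex z u ∈ U :=
    fun z hz hz' u r a b c d => by_contra fun e => hn ⟨z, hz, hz', u, r, a, b, c, e, d⟩
  have key : ∀ y, Relation.ReflTransGen
      (fun a b => ∃ u : ℂ, (∀ t ∈ Icc (0 : ℝ) 1, t • u ∉ T.S a) ∧ b = T.ex a u) z₀ y →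
      ∀ᶠ w in 𝓝 (0 : ℂ), T.ex y w ∉ Z → T.ex y w ∈ U := by
    intro y hy
    induction hy with
    | refl =>
      obtain ⟨r, hr, h2⟩ := (hb Y T).tube z₀ 0 fun t _ => by simpa using (hb Y T).zero z₀
      rw [segment_same, thickening_singleton] at h2
      exact Metric.eventually_nhds_iff_ball.2 ⟨min r η, lt_min hr hη, fun u hu =>
        hs z₀ h0 h0' u _ (mem_ball_zero_iff.1 hu) (min_le_right _ _)
          (h2.mono_left (ball_subset_ball (min_le_left _ _)))⟩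
    | tail _ h2 ih =>
      obtain ⟨u, hu, rfl⟩ := h2
      obtain ⟨r, hr, h3⟩ := (hb Y T).tube _ u hu
      exact step hZ hη hs ((convex_segment 0 u).thickening r)
        (self_subset_thickening hr _ (left_mem_segment ℝ 0 u)) h3 isOpen_thickening ih
        (self_subset_thickening hr _ (right_mem_segment ℝ 0 u))
  have := (key z₁ (T.conn z₀ z₁)).self_of_nhds
  rw [T.ex0] at this
  exact h1 (this h1')

end Pool.Agent.MP_16ecd2_an.H18
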