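import Pool.Agent.MP_16ecd2_an.H18.Kit

/-!
The uniform quadratic bound.
-/

set_option autoImplicit false

namespace Pool.Agent.MP_16ecd2_an.H18

open MeasureTheory Set Filter Topology Metric

namespace MasX

theorem small (D δ a : ℝ) (hD : 0 ≤ D) (hδ : 0 < δ) (ha : 0 < a) :
    ∃ ε : ℝ, 0 < ε ∧ ε ≤ a ∧ D * ε ^ δ ≤ 1 / 4 := by
  have h0 : 0 < 1 / (4 * (D + 1)) := by positivity
  have h1 : 0 < (1 / (4 * (D + 1))) ^ δ⁻¹ := Real.rpow_pos_of_pos h0 _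
  refine ⟨min a ((1 / (4 * (D + 1))) ^ δ⁻¹), lt_min ha h1, min_le_left _ _, ?_⟩
  have h2 := Real.rpow_le_rpow (lt_min ha h1).le (min_le_right a _) hδ.le
  rw [Real.rpow_inv_rpow h0.le hδ.ne'] at h2
  refine (mul_le_mul_of_nonneg_left h2 hD).trans ?_
  rw [mul_one_div, div_le_div_iff₀ (by positivity) (by positivity)]
  linarith

theorem ari {A' C b β ε R s n A : ℝ} (hA' : 0 ≤ A') (hC : 0 ≤ C) (hβ : β ≤ 2) (hε : 0 < ε)
    (hε1 : ε ≤ 1) (hR : 0 < R) (hs : 0 < s) (hA : 0 ≤ A)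
    (h : A' * 2 ^ b * C * ε ^ (β - b) ≤ 1 / 4) :
    2 * n + A' * (2 * R) ^ b * (n * (ε * R) ^ (-b) +
      C * (A * (ε * R) ^ (2 - b) + A * s ^ (-β) * (ε * R) ^ (β - b))) ≤
      n * (2 + A' * (2 ^ b * ε ^ (-b))) + A / 4 * (R ^ 2 + (R / s) ^ β) := by
  have e1 : R ^ b * R ^ (-b) = 1 := by rw [← Real.rpow_add hR]; simp
  have e2 : R ^ b * R ^ (2 - b) = R ^ 2 := by rw [← Real.rpow_add hR]; simp
  have e3 : R ^ b * R ^ (β - b) * s ^ (-β) = (R / s) ^ β := by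
    rw [← Real.rpow_add hR, Real.div_rpow hR.le hs.le, Real.rpow_neg hs.le, div_eq_mul_inv]
    simp
  have h1 : ε ^ (2 - b) ≤ ε ^ (β - b) := Real.rpow_le_rpow_of_exponent_ge hε hε1 (by linarith)
  have h2 : A' * 2 ^ b * C * ε ^ (2 - b) ≤ 1 / 4 :=
    (mul_le_mul_of_nonneg_left h1 (by positivity)).trans h
  have h3 := mul_le_mul_of_nonneg_right h2 (show 0 ≤ A * R ^ 2 by positivity)
  have h4 := mul_le_mul_of_nonneg_right h (show 0 ≤ A * (R / s) ^ β by positivity)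
  simp only [Real.mul_rpow hε.le hR.le, Real.mul_rpow zero_le_two hR.le]
  have e : 2 * n + A' * (2 ^ b * R ^ b) * (n * (ε ^ (-b) * R ^ (-b)) +
      C * (A * (ε ^ (2 - b) * R ^ (2 - b)) + A * s ^ (-β) * (ε ^ (β - b) * R ^ (β - b)))) =
      n * (2 + A' * (2 ^ b * ε ^ (-b)) * (R ^ b * R ^ (-b))) +
        A' * 2 ^ b * C * ε ^ (2 - b) * (A * (R ^ b * R ^ (2 - b))) +
        A' * 2 ^ b * C * ε ^ (β - b) * (A * (R ^ b * R ^ (β - b) * s ^ (-β))) := by ring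
  rw [e, e1, e2, e3]
  linarith

variable {Y : Type} [MeasurableSpace Y]

theorem base {T : TS Y} {g : ℂ →ₗ[ℝ] ℂ} {s R Q : ℝ} (hg : T.Sys g s) (h : R < s) (hQ : 0 ≤ Q) :
    T.Bd g ∅ R Q := fun Γ hΓ => by
  rcases Γ.eq_empty_or_nonempty with rfl | ⟨γ, hγ⟩
  · simpa using hQ
  · have h1 := hΓ hγ
    exact absurd ((hg γ h1.1).trans h1.2.2) (not_le.2 h)

theorem sl_rot : SL (rot Complex.I) := by
  rw [SL, det_eq]
  simp [det]

end MasX

theorem mas (hs : RSumJ) (h0 : RCov0) (hi : RIter) : RMas := by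
  intro Y _ T
  obtain ⟨b, hb0, hb2, A', hA', hP⟩ := hi Y T
  obtain ⟨⟨r₀, hr, hc⟩, hsum⟩ := h0 Y T
  obtain ⟨β, h1, h2, h3⟩ : ∃ β : ℝ, 1 < β ∧ β < 2 ∧ b < β :=
    ⟨(max b 1 + 2) / 2, by linarith [le_max_right b 1], by linarith [max_lt hb2 one_lt_two],
      by linarith [le_max_left b 1]⟩
  obtain ⟨C, hC, hS⟩ := hs b 2 β hb0 hb2 h3 one_lt_two h1
  obtain ⟨ε, hε, hε1, hε2⟩ := MasX.small (A' * 2 ^ b * C) (β - b) (min (1 / 20) (2 / r₀))
    (by positivity) (by linarith) (by positivity)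
  have hε3 : ε ≤ 1 / 20 := hε1.trans (min_le_left _ _)
  have hε4 : ε ≤ 2 / r₀ := hε1.trans (min_le_right _ _)
  obtain ⟨K, hK⟩ : ∃ K, K = 2 + A' * (2 ^ b * ε ^ (-b)) := ⟨_, rfl⟩
  have hK0 : 0 ≤ K := by rw [hK]; positivity
  obtain ⟨A, hA⟩ : ∃ A, A = 4 * ((5 + 20 / r₀ ^ 2) * K) := ⟨_, rfl⟩
  have hA0 : 0 ≤ A := by rw [hA]; positivity
  refine ⟨A, β, hA0, h1, h2, fun g hg s hs0 _ hgs R hR => ?_⟩
  obtain ⟨m, hm⟩ := pow_unbounded_of_one_lt (R / s) (one_lt_two (α := ℝ))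
  rw [div_lt_iff₀ hs0] at hm
  induction m generalizing g R with
  | zero => exact MasX.base hgs (by simpa using hm) (by positivity)
  | succ m ih =>
    rcases lt_or_ge R s with hRs | hRs
    · exact MasX.base hgs hRs (by positivity)
    obtain ⟨L, hL⟩ : ∃ L, L = max 1 (2 * R / r₀) := ⟨_, rfl⟩
    have hL1 : 1 ≤ L := hL ▸ le_max_left _ _
    have hL2 : 2 * R / r₀ ≤ L := hL ▸ le_max_right _ _
    have hL3 : 5 * L ^ 2 ≤ 5 + 20 / r₀ ^ 2 * R ^ 2 := by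
      have e : 20 / r₀ ^ 2 * R ^ 2 = 5 * (2 * R / r₀) ^ 2 := by ring
      rw [e, hL]
      rcases max_choice 1 (2 * R / r₀) with h | h <;> rw [h] <;> nlinarith [sq_nonneg (2 * R / r₀)]
    have hone : 1 ≤ (R / s) ^ β :=
      Real.one_le_rpow ((one_le_div hs0).2 hRs) (by linarith)
    have key : ∀ g', SL g' → T.Sys g' s → T.HB g' ∅ R (A / 2 * (R ^ 2 + (R / s) ^ β)) := by
      intro g' hg' hgs' Γ hΓ
      have hJ := hS Y T g' ∅ A' s R L (5 * L ^ 2) (ε * R) A (A * s ^ (-β)) hg'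
        ⟨by simp, by simp⟩ hA' hP hs0 hgs' hL1 (by positivity)
        (le_trans (by rw [mul_div_right_comm]; exact mul_le_mul_of_nonneg_right hε4 hR.le) hL2)
        (by nlinarith) hA0 (by positivity) fun y hy hy' => by
          have := ih g' hg' hgs' y hy (by rw [pow_succ] at hm; nlinarith)
          rwa [Real.div_rpow hy.le hs0.le, ← Real.rpow_two, div_eq_mul_inv, ← Real.rpow_neg hs0.le,
            mul_comm (y ^ β), ← mul_assoc] at this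
      rw [Finset.coe_empty] at hJ
      refine (hc g' R L _ hg' hR hL1 (by rwa [div_le_iff₀ hr, mul_comm L] at hL2) hJ Γ hΓ).trans
        ((MasX.ari hA' hC.le h2.le hε (by linarith) hR hs0 hA0 hε2).trans ?_)
      rw [← hK]
      have h5 : 5 * L ^ 2 ≤ (5 + 20 / r₀ ^ 2) * (R ^ 2 + (R / s) ^ β) := by
        have : 0 ≤ 20 / r₀ ^ 2 * (R / s) ^ β := by positivity
        nlinarith [sq_nonneg R]
      have h6 := mul_le_mul_of_nonneg_right h5 hK0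
      have e : (5 + 20 / r₀ ^ 2) * (R ^ 2 + (R / s) ^ β) * K = A / 4 * (R ^ 2 + (R / s) ^ β) := by
        rw [hA]; ring
      linarith
    intro Γ hΓ
    have := hsum g ∅ R _ _ (key g hg hgs)
      (key _ (MasX.sl_rot.comp hg) fun c hc => by simpa using hgs c hc) Γ hΓ
    linarith

end Pool.Agent.MP_16ecd2_an.H18
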