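import Pool.Agent.MP_16ecd2_an.H18.Kit

/-! The step from complexes with one edge to the empty complex. -/

set_option autoImplicit false

namespace Pool.Agent.MP_16ecd2_an.H18

open MeasureTheory Set Filter Topology Metric

namespace Step0X

variable {Y : Type} [MeasurableSpace Y] {T : TS Y}

theorem bd_small {g : ℂ →ₗ[ℝ] ℂ} {s y n : ℝ} (h : T.Sys g s) (hy : y < s) (hn : 0 ≤ n) :
    T.Bd g ∅ y n := fun Γ hΓ => by
  rw [Finset.eq_empty_of_forall_notMem (s := Γ) fun c hc =>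
    absurd ((h c (hΓ hc).1).trans (hΓ hc).2.2) (not_le.2 hy)]
  simpa using hn

theorem key (hs : RSumJ) (h0 : RCov0) {β p θ A₀ : ℝ} (hβ : 0 ≤ β) (hp : 2 ≤ p) (hβp : β < p)
    (θ1 : θ ≤ 1) (θp : θ * p ≤ 2) (hA₀ : 0 ≤ A₀) (h1 : T.PP 1 β)
    (H : ∀ g, SL g → ∀ s : ℝ, 0 < s → s ≤ 1 → T.Sys g s → ∀ l : ℝ, 1 ≤ l → ∀ y : ℝ, 0 < y →
      y ≤ l ^ θ * s / 2 → T.Bd g ∅ y (A₀ * (y / s) ^ p)) : T.PP 0 (2 + β * (1 - θ)) := by
  obtain ⟨A, hA, h1⟩ := h1
  obtain ⟨C, hC, hs⟩ := hs β p p hβ hβp hβp (by linarith) (by linarith)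
  obtain ⟨⟨r, r0, h0⟩, h0'⟩ := h0 Y T
  obtain ⟨c, c0, c1, c2⟩ : ∃ c : ℝ, 0 < c ∧ c ≤ 1 / 20 ∧ c ≤ 2 / r :=
    ⟨min (1 / 20) (2 / r), by positivity, min_le_left _ _, min_le_right _ _⟩
  obtain ⟨K, K1, K2⟩ : ∃ K : ℝ, 1 ≤ K ∧ 2 / r ≤ K := ⟨_, le_max_left _ _, le_max_right _ _⟩
  obtain ⟨D, hD⟩ : ∃ D, D = 10 * K ^ 2 + A * 2 ^ β * (5 * K ^ 2 * c ^ (-β)
    + C * (A₀ * c ^ (p - β))) := ⟨_, rfl⟩
  have D0 : 0 ≤ D := by rw [hD]; positivity
  refine ⟨D + D, by positivity, fun g hg s s0 s1 hS B _ hB l l1 => ?_⟩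
  obtain rfl := Finset.card_eq_zero.1 hB
  have l0 : 0 < l := by linarith
  have lθ : l ^ θ ≤ l := by
    simpa only [Real.rpow_one] using Real.rpow_le_rpow_of_exponent_le l1 θ1
  have lθ0 : 0 < l ^ θ := Real.rpow_pos_of_pos l0 θ
  obtain ⟨L, L1, L2, L3⟩ : ∃ L : ℝ, 1 ≤ L ∧ 2 / r * (l * s) ≤ L ∧ L ≤ K * l :=
    ⟨max 1 (2 / r * (l * s)), le_max_left _ _, le_max_right _ _,
      max_le (one_le_mul_of_one_le_of_one_le K1 l1)
        (mul_le_mul K2 (mul_le_of_le_one_right l0.le s1) (by positivity) (by linarith))⟩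
  have u1 : c * (l ^ θ * s) ≤ c * (l * s) := by gcongr
  have k : ∀ g, SL g → T.Sys g s → T.HB g ∅ (l * s) (D * l ^ (2 + β * (1 - θ))) := by
    intro g hg hS
    refine h0 g _ L _ hg (by positivity) L1 (by
      rw [div_mul_eq_mul_div, div_le_iff₀ r0] at L2; linarith) ?_
    have J := hs Y T g ∅ A s (l * s) L (5 * L ^ 2) (c * (l ^ θ * s)) (A₀ * s ^ (-p)) 0 hg
      (by simp [TS.PW]) hA h1 s0 hS L1 (by positivity)
      (u1.trans ((mul_le_mul_of_nonneg_right c2 (by positivity)).trans L2))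
      (u1.trans (mul_le_mul_of_nonneg_right (by linarith) (by positivity))) (by positivity) le_rfl
      fun y y0 hy => by
        have := H g hg s s0 s1 hS l l1 y y0 (by nlinarith [mul_pos lθ0 s0])
        rwa [zero_mul, add_zero, Real.rpow_neg s0.le, mul_assoc, inv_mul_eq_div,
          ← Real.div_rpow y0.le s0.le]
    rw [Finset.coe_empty] at J
    intro L' a J' b d Γ e
    refine (J L' a J' b d Γ e).trans ?_
    have e1 : (2 * (l * s)) ^ β * (c * (l ^ θ * s)) ^ (-β) =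
        2 ^ β * c ^ (-β) * l ^ (β * (1 - θ)) := by
      rw [Real.mul_rpow (by positivity) (by positivity), Real.mul_rpow l0.le s0.le,
        Real.mul_rpow c0.le (by positivity), Real.mul_rpow lθ0.le s0.le, ← Real.rpow_mul l0.le,
        show β * (1 - θ) = β + θ * -β by ring, Real.rpow_add l0, Real.rpow_neg s0.le]
      have := (Real.rpow_pos_of_pos s0 β).ne'
      field_simp
    have e2 : (2 * (l * s)) ^ β * (s ^ (-p) * (c * (l ^ θ * s)) ^ (p - β)) =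
        2 ^ β * c ^ (p - β) * l ^ (β + θ * (p - β)) := by
      rw [Real.mul_rpow (by positivity) (by positivity), Real.mul_rpow l0.le s0.le,
        Real.mul_rpow c0.le (by positivity), Real.mul_rpow lθ0.le s0.le, ← Real.rpow_mul l0.le,
        Real.rpow_add l0, Real.rpow_neg s0.le, Real.rpow_sub s0]
      have := (Real.rpow_pos_of_pos s0 β).ne'
      have := (Real.rpow_pos_of_pos s0 p).ne'
      field_simp
    have e3 : l ^ (β + θ * (p - β)) ≤ l ^ (2 + β * (1 - θ)) :=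
      Real.rpow_le_rpow_of_exponent_le l1 (by linarith)
    have e4 : l ^ (2 + β * (1 - θ)) = l ^ 2 * l ^ (β * (1 - θ)) := by
      rw [Real.rpow_add l0, Real.rpow_two]
    have e5 : 1 ≤ l ^ (β * (1 - θ)) := Real.one_le_rpow l1 (mul_nonneg hβ (by linarith))
    have e6 : L ^ 2 ≤ K ^ 2 * l ^ 2 := by rw [← mul_pow]; gcongr
    calc _ = 10 * (L ^ 2 * 1) + A * (5 * L ^ 2) * ((2 * (l * s)) ^ β * (c * (l ^ θ * s)) ^ (-β))
          + A * C * A₀ * ((2 * (l * s)) ^ β * (s ^ (-p) * (c * (l ^ θ * s)) ^ (p - β))) := by ring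
      _ ≤ 10 * (K ^ 2 * l ^ 2 * l ^ (β * (1 - θ)))
          + A * (5 * (K ^ 2 * l ^ 2)) * (2 ^ β * c ^ (-β) * l ^ (β * (1 - θ)))
          + A * C * A₀ * (2 ^ β * c ^ (p - β) * l ^ (2 + β * (1 - θ))) := by
        rw [e1, e2]; gcongr
      _ = _ := by rw [hD, e4]; ring
  rw [Finset.coe_empty, add_mul]
  exact h0' g _ _ _ _ (k g hg hS) (k _ ((sl_rot Complex.norm_I).comp hg) fun c hc => by
    simpa using hS c hc)

end Step0X

open Step0X in
theorem step0 (hs : RSumJ) (h0 : RCov0) : RStep0 := by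
  intro Y _ T β hβ h1
  refine ⟨?_, fun p hp hβp ⟨A, hA, h2⟩ => ?_⟩
  · have := key hs h0 (p := β + 2) (θ := 0) (A₀ := 0) hβ (by linarith) (by linarith) zero_le_one
      (by simp) le_rfl h1 fun g _ s s0 _ hS l _ y _ hy => bd_small hS
        (by rw [Real.rpow_zero] at hy; linarith) (by simp)
    rwa [sub_zero, mul_one, add_comm] at this
  · have p0 : 0 < p := by linarith
    refine key hs h0 hβ hp hβp ((div_le_one p0).2 hp) (div_mul_cancel₀ _ p0.ne').le hA h1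
      fun g hg s s0 s1 hS l _ y y0 _ => ?_
    rcases lt_or_ge y s with a | a
    · exact bd_small hS a (by positivity)
    · have := h2 g hg s s0 s1 hS ∅ (by simp [TS.PW]) rfl (y / s) ((one_le_div s0).2 a)
      rwa [Finset.coe_empty, div_mul_cancel₀ _ s0.ne'] at this

end Pool.Agent.MP_16ecd2_an.H18
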