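import Pool.Agent.MP_16ecd2_an.H18.Kit

/-!
The number of crossings of two separatrices.
-/

set_option autoImplicit false

namespace Pool.Agent.MP_16ecd2_an.H18

open MeasureTheory Set Filter Topology Metric

namespace V1cX

variable {Y : Type} [MeasurableSpace Y]

theorem ray {T : TS Y} (hb : Base T) {Ω : Set ℂ} {Φ : ℂ → Y} (hΦ : T.Dev Ω Φ) {d : ℂ} {L : ℝ}
    (h : ∀ t ∈ Ioc (0 : ℝ) L, t • d ∈ Ω) {b a : ℝ} (h1 : b ∈ Ioc (0 : ℝ) L)
    (h2 : b + a ∈ Ioc (0 : ℝ) L) :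
    T.Reg (Φ (b • d)) (a • d) ∧ Φ ((b + a) • d) = T.ex (Φ (b • d)) (a • d) := by
  have hc : Convex ℝ ((fun t : ℝ => t • d) '' Ioc 0 L) :=
    (convex_Ioc 0 L).linear_image (LinearMap.toSpanSingleton ℝ ℂ d)
  rw [add_smul]
  exact hb.devc Ω _ Φ hΦ hc (by rintro _ ⟨t, ht, rfl⟩; exact h t ht) _ ⟨b, h1, rfl⟩ _
    ⟨b + a, h2, add_smul b a d⟩

end V1cX

open V1cX in
theorem v1c (hb : RB) (h0 : RE0) : RV1c := by
  intro Y _ T Ω Ω' Φ Φ' σ s δ E L y₁ y₂ hΦ hΦ' hΩ hΩ' hδ hS hD hE hne h2 hs hy₁ hy hL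
  have e0 := h0 Y (T.shear s) δ hδ (TS.shear_sys0 hs hS)
  have B := hb Y T
  set D := y₂ - y₁ + 2 with hDd
  have D0 : 0 < D := by linarith
  set P := ⌈3 * D / δ⌉₊ with hP
  have P0 : (0 : ℝ) < P := Nat.cast_pos.2 (Nat.ceil_pos.2 (by positivity))
  have P1 : 3 * D / δ ≤ P := Nat.le_ceil _
  have P2 : (P : ℝ) ≤ 3 * D / δ + 1 := (Nat.ceil_lt_add_one (by positivity)).le
  set l := D / P with hl
  have l0 : 0 < l := div_pos D0 P0
  have lP : P * l = D := by rw [hl]; field_simp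
  have l3 : 3 * l ≤ δ := by
    rw [div_le_iff₀ hδ] at P1
    nlinarith
  set w : ℂ := l • (((σ - s : ℝ) : ℂ) + Complex.I) with hw
  have wre : w.re = l * (σ - s) := by simp [hw]
  have wim : w.im = l := by simp [hw]
  have wn : ‖w‖ ≤ δ := by
    refine (norm_le_re_im w).trans ?_
    rw [wre, wim, abs_mul, abs_of_pos l0]
    nlinarith
  have w0 : w.re ≠ 0 := by rw [wre]; exact mul_ne_zero l0.ne' (sub_ne_zero.2 hne)
  have w1 : w ≠ 0 := fun e => w0 (by rw [e]; rfl)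
  have dw : ∀ τ : ℝ, ds 1 (-s) (τ • w) = (τ * l) • dir σ := fun τ => by
    rw [hw, smul_smul, ds_dir, add_sub_cancel]
  have jl : ∀ j : ℕ, j < P → 0 ≤ j * l ∧ j * l + l ≤ D := fun j hj => by
    have : (j : ℝ) + 1 ≤ P := by exact_mod_cast hj
    exact ⟨by positivity, by nlinarith⟩
  set y : ℕ → Y := fun j => Φ ((y₁ - 1 + j * l) • dir σ) with hyd
  set x := Φ' ((y₁ - 1) • dir s) with hx
  have ry : ∀ j : ℕ, j < P → ∀ τ ∈ Icc (0 : ℝ) 1, (T.shear s).Reg (y j) (τ • w) ∧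
      Φ ((y₁ - 1 + j * l + τ * l) • dir σ) = (T.shear s).ex (y j) (τ • w) := fun j hj τ hτ => by
    obtain ⟨a, b⟩ := jl j hj
    have c : 0 ≤ τ * l := mul_nonneg hτ.1 l0.le
    have d : τ * l ≤ l := mul_le_of_le_one_left l0.le hτ.2
    rw [TS.shear_reg, TS.shear_ex, dw]
    exact ray B hΦ hΩ ⟨by linarith, by linarith⟩ ⟨by linarith, by linarith⟩
  have rx : ∀ a ∈ Icc (0 : ℝ) D, (T.shear s).Reg x (a • Complex.I) ∧
      Φ' ((y₁ - 1 + a) • dir s) = (T.shear s).ex x (a • Complex.I) := fun a ha => by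
    rw [TS.shear_reg, TS.shear_ex, ds_I]
    exact ray B hΦ' hΩ' ⟨by linarith, by linarith⟩ ⟨by linarith [ha.1], by linarith [ha.2]⟩
  have rw' : ∀ j : ℕ, j < P → (T.shear s).Reg (y j) w := fun j hj => by
    simpa using (ry j hj 1 ⟨zero_le_one, le_rfl⟩).1
  have rD := (rx D ⟨D0.le, le_rfl⟩).1
  set A : ℕ → Set (ℝ × ℝ) := fun j => {p ∈ crs Φ Φ' σ s y₁ y₂ |
    (p.2 - (y₁ - 1 + j * l)) / l ∈ Ico (0 : ℝ) 1} with hA
  have ev : ∀ j : ℕ, j < P → ∀ p ∈ A j,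
      Φ (p.2 • dir σ) = (T.shear s).ex (y j) (((p.2 - (y₁ - 1 + j * l)) / l) • w) :=
    fun j hj p hp => by
      rw [← (ry j hj _ (Ico_subset_Icc_self hp.2)).2, div_mul_cancel₀ _ l0.ne', add_sub_cancel]
  have mp : ∀ j : ℕ, j < P →
      MapsTo (fun p : ℝ × ℝ => p.1 - (y₁ - 1)) (A j) ((T.shear s).cr (y j) w x D) :=
    fun j hj p hp => by
      obtain ⟨⟨a, b⟩, -, e⟩ := hp.1
      refine ⟨⟨by simp only; linarith, by simp only; linarith⟩, _, hp.2, ?_⟩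
      rw [← ev j hj p hp, ← e, ← (rx _ ⟨by linarith, by linarith⟩).2, add_sub_cancel]
  have ij : ∀ j : ℕ, j < P → InjOn (fun p : ℝ × ℝ => p.1 - (y₁ - 1)) (A j) :=
    fun j hj p hp q hq e => by
      have e1 : p.1 = q.1 := sub_left_injective e
      have e2 := e0.inj _ w (rw' j hj) wn w1 (Ico_subset_Icc_self hp.2) (Ico_subset_Icc_self hq.2)
        (by simp only; rw [← ev j hj p hp, ← ev j hj q hq, ← hp.1.2.2, ← hq.1.2.2, e1])
      exact Prod.ext e1 (sub_left_injective ((div_left_inj' l0.ne').1 e2))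
  have fin : ∀ j : ℕ, j < P → ((T.shear s).cr (y j) w x D).Finite := fun j hj =>
    e0.fin _ w x D (rw' j hj) wn w0 rD
  have cov : crs Φ Φ' σ s y₁ y₂ = ⋃ j ∈ Finset.range P, A j := by
    refine Subset.antisymm (fun p hp => ?_) (iUnion₂_subset fun j _ p hp => hp.1)
    obtain ⟨a, b⟩ := hp.2.1
    have c : 0 ≤ (p.2 - (y₁ - 1)) / l := div_nonneg (by linarith) l0.le
    have d : (p.2 - (y₁ - 1)) / l < P := by
      rw [div_lt_iff₀ l0]
      linarith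
    have f1 := Nat.floor_le c
    have f2 := Nat.lt_floor_add_one ((p.2 - (y₁ - 1)) / l)
    refine mem_iUnion₂.2 ⟨⌊(p.2 - (y₁ - 1)) / l⌋₊, Finset.mem_range.2 ((Nat.floor_lt c).2 d),
      hp, ?_⟩
    have g : (p.2 - (y₁ - 1 + ⌊(p.2 - (y₁ - 1)) / l⌋₊ * l)) / l
        = (p.2 - (y₁ - 1)) / l - ⌊(p.2 - (y₁ - 1)) / l⌋₊ := by
      field_simp
      ring
    rw [g]
    exact ⟨by linarith, by linarith⟩
  rw [cov]
  refine ⟨(Finset.range P).finite_toSet.biUnion fun j hj =>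
    Finite.of_injOn (mp j (Finset.mem_range.1 hj)) (ij j (Finset.mem_range.1 hj))
      (fin j (Finset.mem_range.1 hj)), ?_⟩
  have s1 : ((⋃ j ∈ Finset.range P, A j).ncard : ℝ) ≤ ∑ j ∈ Finset.range P, ((A j).ncard : ℝ) := by
    exact_mod_cast Finset.set_ncard_biUnion_le (Finset.range P) A
  have s2 : ∑ j ∈ Finset.range P, ((A j).ncard : ℝ)
      ≤ ∑ _j ∈ Finset.range P, (D * (l * |σ - s|) / T.area + E) :=
    Finset.sum_le_sum fun j hj => by
      have hj := Finset.mem_range.1 hj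
      have t1 := ncard_le_ncard_of_injOn _ (mp j hj) (ij j hj) (fin j hj)
      have t2 := hD (y j) w x D (rw' j hj) wn w0 D0.le (by linarith) rD
      rw [wre, abs_mul, abs_of_pos l0, TS.shear_area] at t2
      exact (Nat.cast_le.2 t1).trans t2
  rw [Finset.sum_const, Finset.card_range, nsmul_eq_mul] at s2
  have s3 : P * (D * (l * |σ - s|) / T.area + E) = D ^ 2 * |σ - s| / T.area + P * E := by
    rw [sq]
    nth_rewrite 3 [← lP]
    ring
  have s4 := mul_le_mul_of_nonneg_right P2 hE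
  linarith

end Pool.Agent.MP_16ecd2_an.H18
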