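import Pool.Agent.MP_16ecd2_an.H18.TS

/-!
Interface statements, part A: basic facts, area formula, complexes, the quadratic upper bound.
-/

set_option autoImplicit false

namespace Pool.Agent.MP_16ecd2_an.H18

open MeasureTheory Set Filter Topology Metric
open scoped ENNReal

variable {Y : Type} [MeasurableSpace Y]

/-- The closed segment from `x` with holonomy `u` has no singular point. -/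
def TS.Reg (T : TS Y) (x : Y) (u : ℂ) : Prop := ∀ t ∈ Icc (0 : ℝ) 1, t • u ∉ T.S x

/-- Saddle connections, given by the midpoint and half the holonomy. -/
def TS.SC (T : TS Y) : Set (Y × ℂ) := {c | c.2 ∈ T.S c.1 ∧ -c.2 ∈ T.S c.1}

/-- Holonomies of saddle connections. -/
def TS.Hol (T : TS Y) : Set ℂ := {h | ∃ c ∈ T.SC, h = (2 : ℝ) • c.2}

/-- Interior points of a saddle connection. -/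
def TS.pts (T : TS Y) (c : Y × ℂ) : Set Y := {z | ∃ t : ℝ, |t| < 1 ∧ z = T.ex c.1 (t • c.2)}

def TS.Dis (T : TS Y) (c c' : Y × ℂ) : Prop := Disjoint (T.pts c) (T.pts c')

/-- The opposite orientation. -/
def opp {Z : Type} (c : Z × ℂ) : Z × ℂ := (c.1, -c.2)

noncomputable def TS.area (T : TS Y) : ℝ := (T.μ univ).toReal

/-- `Φ` is a developing map on `D`. -/
def TS.Dev (T : TS Y) (D : Set ℂ) (Φ : ℂ → Y) : Prop :=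
  ∀ v ∈ D, ∃ r > 0, Disjoint (ball (0 : ℂ) r) (T.S (Φ v)) ∧
    ∀ h : ℂ, ‖h‖ < r → v + h ∈ D → Φ (v + h) = T.ex (Φ v) h

structure B1 (T : TS Y) : Prop where
  zero : ∀ x, (0 : ℂ) ∉ T.S x
  area_pos : 0 < T.area
  tube : ∀ x u, T.Reg x u → ∃ r > 0, Disjoint (thickening r (segment ℝ 0 u)) (T.S x)
  reg : ∀ (x : Y) (C : Set ℂ), Convex ℝ C → 0 ∈ C → Disjoint C (T.S x) → ∀ u ∈ C, ∀ w,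
    u + w ∈ C → T.Reg (T.ex x u) w
  line : ∀ (x : Y) (u : ℂ) (I : Set ℝ), Convex ℝ I → 0 ∈ I → (∀ t ∈ I, t • u ∉ T.S x) →
    ∀ s ∈ I, ∀ t ∈ I, T.Reg (T.ex x (s • u)) ((t - s) • u) ∧
      T.ex (T.ex x (s • u)) ((t - s) • u) = T.ex x (t • u)
  back : ∀ x u, T.Reg x u → T.Reg (T.ex x u) (-u) ∧ T.ex (T.ex x u) (-u) = x
  tr : ∀ x u a, a ∈ T.S x →
    (∀ α β : ℝ, 0 ≤ α → 0 ≤ β → α + β ≤ 1 → β < 1 → α • u + β • a ∉ T.S x) →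
    a - u ∈ T.S (T.ex x u)
  trC : ∀ (x : Y) (C : Set ℂ) (u a : ℂ), Convex ℝ C → 0 ∈ C → u ∈ C → a ∈ C → a ∈ T.S x →
    (∀ z ∈ C, z ∈ T.S x → z = a) → T.Reg x u → a - u ∈ T.S (T.ex x u)
  dev : ∀ (x : Y) (C : Set ℂ), Convex ℝ C → 0 ∈ C → Disjoint C (T.S x) → T.Dev C (T.ex x)
  devc : ∀ (D C : Set ℂ) (Φ : ℂ → Y), T.Dev D Φ → Convex ℝ C → C ⊆ D → ∀ v ∈ C, ∀ h, v + h ∈ C →
    T.Reg (Φ v) h ∧ Φ (v + h) = T.ex (Φ v) h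

structure B2 (T : TS Y) : Prop where
  sc_ne : ∀ c ∈ T.SC, c.2 ≠ 0
  sc_free : ∀ c ∈ T.SC, ∀ t : ℝ, |t| < 1 → t • c.2 ∉ T.S c.1
  sc_end : ∀ c ∈ T.SC, ∀ t : ℝ, |t| < 1 → (1 - t) • c.2 ∈ T.S (T.ex c.1 (t • c.2)) ∧
    (-1 - t) • c.2 ∈ T.S (T.ex c.1 (t • c.2))
  sc_line : ∀ c ∈ T.SC, ∀ s t : ℝ, |s| < 1 → |t| < 1 →
    T.Reg (T.ex c.1 (s • c.2)) ((t - s) • c.2) ∧
      T.ex (T.ex c.1 (s • c.2)) ((t - s) • c.2) = T.ex c.1 (t • c.2)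
  sc_run : ∀ c ∈ T.SC, ∀ z ∈ T.pts c, ∀ t : ℝ, T.Reg z (t • c.2) → T.ex z (t • c.2) ∈ T.pts c
  sc_opp : ∀ c ∈ T.SC, opp c ∈ T.SC
  pts_opp : ∀ c, T.pts (opp c) = T.pts c
  mid_mem : ∀ c, c.1 ∈ T.pts c
  hol_neg : ∀ h ∈ T.Hol, -h ∈ T.Hol
  hol_sys : ∃ δ > 0, ∀ h ∈ T.Hol, δ ≤ ‖h‖
  mk_sc : ∀ y p c, p ∈ T.S y → c ∈ T.S y →
    (∀ α β : ℝ, 0 ≤ α → 0 ≤ β → α + β ≤ 1 → α < 1 → β < 1 → α • p + β • c ∉ T.S y) →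
    (T.ex y ((1 / 2 : ℝ) • (p + c)), (1 / 2 : ℝ) • (c - p)) ∈ T.SC ∧ ∀ t : ℝ, |t| < 1 →
      T.ex (T.ex y ((1 / 2 : ℝ) • (p + c))) (t • (1 / 2 : ℝ) • (c - p)) =
        T.ex y ((1 / 2 : ℝ) • (p + c) + t • (1 / 2 : ℝ) • (c - p))
  par : ∀ c ∈ T.SC, ∀ c' ∈ T.SC, det c.2 c'.2 = 0 → ¬ T.Dis c c' → c' = c ∨ c' = opp c

structure B3 (T : TS Y) : Prop where
  pair : ∀ x a a', a ∈ T.S x → a' ∈ T.S x → a ≠ a' → ∃ c ∈ T.S x, ∃ c' ∈ T.S x,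
    c ∈ convexHull ℝ {0, a, a'} ∧ c' ∈ convexHull ℝ {0, a, a'} ∧ c ≠ c' ∧ c - c' ∈ T.Hol
  half : ∃ R > 0, ∀ (x : Y) (C : Set ℂ) (u : ℂ), Convex ℝ C → 0 ∈ C → Disjoint C (T.S x) →
    ¬ closedBall u R ⊆ C
  strip : ∀ x l, T.Reg x l → T.ex x l = x → l ≠ 0 → ∃ a ∈ T.S x, 0 < det l a ∧
    (∀ u, 0 ≤ det l u → det l u < det l a → u ∉ T.S x) ∧ ∀ j : ℤ, a + (j : ℝ) • l ∈ T.S x
  per : ∀ x l, T.Reg x l → T.ex x l = x → l ≠ 0 → ∃ t ∈ Ioc (0 : ℝ) 1, t • l ∈ T.Hol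

structure B4 (T : TS Y) : Prop where
  inj : ∀ (x : Y) (C : Set ℂ), Convex ℝ C → 0 ∈ C → Disjoint C (T.S x) → ∀ u ∈ C, ∀ u' ∈ C,
    u ≠ u' → T.ex x u = T.ex x u' → ∃ t ∈ Ioc (0 : ℝ) 1, t • (u - u') ∈ T.Hol
  two : ∀ (N : Seminorm ℝ ℂ) (x : Y) (u u' : ℂ), T.Reg x u → T.Reg x u' → u ≠ u' →
    T.ex x u = T.ex x u' → ∃ h ∈ T.Hol, N h ≤ N u + N u'
  cross : ∀ (x : Y) (u : ℂ), (∀ t ∈ Ico (0 : ℝ) 1, t • u ∉ T.S x) → ∀ c ∈ T.SC, det u c.2 ≠ 0 →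
    {t ∈ Ico (0 : ℝ) 1 | T.ex x (t • u) ∈ T.pts c}.Finite

structure Base (T : TS Y) : Prop extends B1 T, B2 T, B3 T, B4 T

def RB1 : Prop := ∀ (Y : Type) [MeasurableSpace Y] (T : TS Y), B1 T
def RB2 : Prop := ∀ (Y : Type) [MeasurableSpace Y] (T : TS Y), B2 T
def RB3 : Prop := ∀ (Y : Type) [MeasurableSpace Y] (T : TS Y), B3 T
def RB4 : Prop := ∀ (Y : Type) [MeasurableSpace Y] (T : TS Y), B4 T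
def RB : Prop := ∀ (Y : Type) [MeasurableSpace Y] (T : TS Y), Base T

/-! ### The area formula -/

/-- The weighted number of preimages. -/
noncomputable def wt {Z : Type} (Φ : ℂ → Z) (D : Set ℂ) (ρ : ℂ → ℝ≥0∞) (q : Z) : ℝ≥0∞ :=
  ∑' v : ℂ, (D ∩ Φ ⁻¹' {q}).indicator ρ v

def RAF : Prop :=
  ∀ (Y : Type) [MeasurableSpace Y] (T : TS Y) (D : Set ℂ) (Φ : ℂ → Y), T.Dev D Φ →
    MeasurableSet D →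
    (∀ ρ, Measurable ρ → Measurable (wt Φ D ρ)) ∧
    (∀ f : Y → ℝ≥0∞, Measurable f → Measurable (D.indicator fun v => f (Φ v))) ∧
    (∀ (ρ : ℂ → ℝ≥0∞) (f : Y → ℝ≥0∞), Measurable ρ → Measurable f →
      ∫⁻ q, f q * wt Φ D ρ q ∂T.μ = ∫⁻ v in D, f (Φ v) * ρ v) ∧
    MeasurableSet (Φ '' D) ∧ T.μ (Φ '' D) ≤ volume D ∧ (InjOn Φ D → T.μ (Φ '' D) = volume D)

def RNull : Prop :=
  ∀ (Y : Type) [MeasurableSpace Y] (T : TS Y),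
    (∀ d : ℂ, T.μ {z | ∃ t : ℝ, t • d ∈ T.S z} = 0) ∧ ∀ c ∈ T.SC, T.μ (T.pts c) = 0

/-! ### Triangles and complexes -/

/-- Pairwise disjoint saddle connections. -/
def TS.PW (T : TS Y) (W : Set (Y × ℂ)) : Prop := W ⊆ T.SC ∧ W.Pairwise T.Dis

/-- The closed triangle with vertices `v`, `-v`, `c`, without its vertices. -/
def tri (v c : ℂ) : Set ℂ :=
  {u | ∃ a γ : ℝ, 0 ≤ γ ∧ |a| + γ ≤ 1 ∧ |a| < 1 ∧ γ < 1 ∧ u = a • v + γ • c}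

/-- The open triangle. -/
def itri (v c : ℂ) : Set ℂ := {u | ∃ a γ : ℝ, 0 < γ ∧ |a| + γ < 1 ∧ u = a • v + γ • c}

def TS.Tri (T : TS Y) (x : Y) (v c : ℂ) : Prop :=
  c ∈ T.S x ∧ det v c ≠ 0 ∧ Disjoint (tri v c) (T.S x)

/-- The side from `v` to `c`. -/
noncomputable def TS.sd (T : TS Y) (x : Y) (v c : ℂ) : Y × ℂ :=
  (T.ex x ((1 / 2 : ℝ) • (v + c)), (1 / 2 : ℝ) • (c - v))

def TS.WFree (T : TS Y) (W : Set (Y × ℂ)) (x : Y) (v c : ℂ) : Prop :=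
  ∀ u ∈ itri v c, ∀ f ∈ W, T.ex x u ∉ T.pts f

/-- Planar facts on triangles. -/
structure TK0 : Prop where
  conv : ∀ v c, Convex ℝ (tri v c)
  zero : ∀ v c, (0 : ℂ) ∈ tri v c
  neg : ∀ v c, tri (-v) c = tri v c
  ineg : ∀ v c, itri (-v) c = itri v c
  sub : ∀ v c, itri v c ⊆ tri v c
  meas : ∀ v c, det v c ≠ 0 → MeasurableSet (tri v c)
  opn : ∀ v c, det v c ≠ 0 → IsOpen (itri v c)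

structure TK (T : TS Y) : Prop where
  neg : ∀ x v c, T.Tri x v c → T.Tri x (-v) c
  sc : ∀ x v c, (x, v) ∈ T.SC → T.Tri x v c → T.sd x v c ∈ T.SC ∧
    T.pts (T.sd x v c) = {z | ∃ γ ∈ Ioo (0 : ℝ) 1, z = T.ex x ((1 - γ) • v + γ • c)}
  side : ∀ x v c, (x, v) ∈ T.SC → T.Tri x v c → ∀ f ∈ T.SC,
    (∀ u ∈ itri v c, T.ex x u ∉ T.pts f) →
    T.Dis (T.sd x v c) f ∨ f = T.sd x v c ∨ f = opp (T.sd x v c)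
  bdry : ∀ x v c, (x, v) ∈ T.SC → T.Tri x v c → ∀ u ∈ tri v c, u ∈ itri v c ∨
    ∃ f ∈ ({(x, v), T.sd x v c, T.sd x (-v) c} : Set (Y × ℂ)), T.ex x u ∈ T.pts f
  exit : ∀ x v c, (x, v) ∈ T.SC → T.Tri x v c → ∀ u ∈ tri v c, ∀ w, T.Reg (T.ex x u) w →
    u + w ∈ tri v c ∨ ∃ t ∈ Ico (0 : ℝ) 1, u + t • w ∈ tri v c ∧
      (∀ t', t < t' → u + t' • w ∉ tri v c) ∧
      ∃ f ∈ ({(x, v), T.sd x v c, T.sd x (-v) c} : Set (Y × ℂ)),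
        T.ex x (u + t • w) ∈ T.pts f ∧ det w f.2 ≠ 0

def RTK : Prop := TK0 ∧ ∀ (Y : Type) [MeasurableSpace Y] (T : TS Y), TK T

/-- A saddle connection that cannot cross two sides of a free triangle misses its interior. -/
def RChord : Prop :=
  ∀ (Y : Type) [MeasurableSpace Y] (T : TS Y) (y : Y) (P Z : ℂ), det P Z ≠ 0 → ∀ f ∈ T.SC,
    (∀ β γ : ℝ, 0 ≤ β → 0 ≤ γ → β + γ < 1 → β • P + γ • Z ∉ T.S y) →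
    (∀ β ∈ Ico (0 : ℝ) 1, T.ex y (β • P) ∈ T.pts f → det P f.2 = 0 ∨ (β = 0 ∧ det Z f.2 = 0)) →
    (∀ γ ∈ Ioo (0 : ℝ) 1, T.ex y (γ • Z) ∈ T.pts f → det Z f.2 = 0) →
    ∀ β γ : ℝ, 0 < β → 0 < γ → β + γ < 1 → T.ex y (β • P + γ • Z) ∉ T.pts f

/-- The first time a growing triangle meets a locally finite set. -/
def RSweep : Prop :=
  ∀ (F : Set ℂ) (P d : ℂ), (∀ R : ℝ, (F ∩ closedBall 0 R).Finite) → det P d ≠ 0 →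
    (∀ β ∈ Ico (0 : ℝ) 1, β • P ∉ F) → ∃ τ ∈ Ioc (0 : ℝ) 1,
    (∀ β γ : ℝ, 0 ≤ β → 0 ≤ γ → β + γ < 1 → β • P + γ • τ • d ∉ F) ∧
    (τ = 1 ∨ ∃ β γ : ℝ, 0 ≤ β ∧ 0 < γ ∧ β + γ = 1 ∧ β • P + γ • τ • d ∈ F)

/-- A triangle on the base `[-v, v]` with free interior. -/
def TS.Good (T : TS Y) (W : Set (Y × ℂ)) (x : Y) (v z : ℂ) : Prop :=
  det v z ≠ 0 ∧ (∀ a γ : ℝ, 0 ≤ γ → |a| + γ < 1 → a • v + γ • z ∉ T.S x) ∧ T.WFree W x v z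

/-- There is a singular point on one of the two upper sides. -/
def TS.Term (T : TS Y) (x : Y) (v z : ℂ) : Prop :=
  ∃ a γ : ℝ, 0 < γ ∧ |a| + γ = 1 ∧ a • v + γ • z ∈ T.S x

def RTL1 : Prop :=
  ∀ (Y : Type) [MeasurableSpace Y] (T : TS Y) (W : Set (Y × ℂ)), W.Finite → T.PW W →
    ∀ x v, (x, v) ∈ W → ∀ t₀ : ℝ, |t₀| < 1 → ∀ d ∈ T.S (T.ex x (t₀ • v)), det v d ≠ 0 →
    ∃ τ ∈ Ioc (0 : ℝ) 1, T.Good W x v (t₀ • v + τ • d) ∧ (T.Term x v (t₀ • v + τ • d) ∨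
      (τ < 1 ∧ T.ex x (t₀ • v + τ • d) = T.ex (T.ex x (t₀ • v)) (τ • d) ∧
        ∃ f ∈ W, T.ex x (t₀ • v + τ • d) ∈ T.pts f))

def RTL2 : Prop :=
  ∀ (Y : Type) [MeasurableSpace Y] (T : TS Y) (W : Set (Y × ℂ)), T.PW W →
    ∀ x v z, (x, v) ∈ W → T.Good W x v z → ¬ T.Term x v z → ∀ f ∈ W, T.ex x z ∈ T.pts f →
    ∃ l : ℝ, |l| ≤ 2 ∧ T.Good W x v (z + l • f.2) ∧ T.Term x v (z + l • f.2) ∧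
      0 < det v (z + l • f.2) * det v z

/-- The triangle lemma. -/
def RTL : Prop :=
  ∀ (Y : Type) [MeasurableSpace Y] (T : TS Y) (W : Set (Y × ℂ)), W.Finite → T.PW W →
    ∀ x v, (x, v) ∈ W → ∀ t₀ : ℝ, |t₀| < 1 → ∀ d ∈ T.S (T.ex x (t₀ • v)), det v d ≠ 0 →
    ∃ c, T.Tri x v c ∧ T.WFree W x v c ∧ 0 < det v c * det v d ∧
      ∃ (a γ τ : ℝ) (z : ℂ), c = a • v + γ • z ∧ 0 < γ ∧ |a| + γ ≤ 1 ∧ τ ∈ Ioc (0 : ℝ) 1 ∧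
        (z = t₀ • v + τ • d ∨ (τ < 1 ∧ ∃ f ∈ W, T.ex (T.ex x (t₀ • v)) (τ • d) ∈ T.pts f ∧
          ∃ l : ℝ, |l| ≤ 2 ∧ z = t₀ • v + τ • d + l • f.2))

def RCard : Prop :=
  ∀ (Y : Type) [MeasurableSpace Y] (T : TS Y), ∃ M : ℕ, ∀ W : Finset (Y × ℂ), T.PW W → W.card ≤ M

/-- Saddle connections disjoint from `B` of size at most `r`. -/
def TS.Gam (T : TS Y) (N : Seminorm ℝ ℂ) (B : Set (Y × ℂ)) (r : ℝ) : Set (Y × ℂ) :=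
  {γ | γ ∈ T.SC ∧ (∀ b ∈ B, T.Dis γ b) ∧ N γ.2 ≤ r}

/-- All short saddle connections avoid one more saddle connection. -/
def TS.Out (T : TS Y) (N : Seminorm ℝ ℂ) (B : Set (Y × ℂ)) (r : ℝ) : Prop :=
  T.Gam N B r = ∅ ∨ ∃ β ∈ T.SC, (∀ b ∈ B, T.Dis β b) ∧
    ∀ γ ∈ T.Gam N B r, T.Dis γ β ∨ γ = β ∨ γ = opp β

/-- Both sides of every edge of `E` carry a small triangle with sides in `E ∪ B`. -/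
def TS.Closed (T : TS Y) (N : Seminorm ℝ ℂ) (E B : Set (Y × ℂ)) (a : ℝ) : Prop :=
  ∀ e ∈ E, ∀ s : ℝ, s ≠ 0 → ∃ c, T.Tri e.1 e.2 c ∧ 0 < s * det e.2 c ∧
    ∀ v ∈ ({e.2, -e.2} : Set ℂ), N (T.sd e.1 v c).2 ≤ a ∧
      (T.sd e.1 v c ∈ E ∪ B ∨ opp (T.sd e.1 v c) ∈ E ∪ B)

def RST1 : Prop :=
  ∀ (Y : Type) [MeasurableSpace Y] (T : TS Y), ∃ (K : ℝ) (M : ℕ), 1 ≤ K ∧
    ∀ (N : Seminorm ℝ ℂ) (B : Set (Y × ℂ)) (r : ℝ), B.Finite → T.PW B → 0 ≤ r →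
    T.Out N B r ∨ ∃ E : Finset (Y × ℂ), E.Nonempty ∧ E.card ≤ M ∧ T.PW (B ∪ E) ∧ Disjoint B E ∧
      (∀ e ∈ E, N e.2 ≤ K * r) ∧ T.Closed N E B (K * r) ∧ ∀ γ ∈ T.Gam N B r, ∃ e ∈ E, ¬ T.Dis γ e

/-- The region covered by a family of developed pieces. -/
def TS.cov (T : TS Y) (𝒯 : Finset (Y × Set ℂ)) : Set Y := {z | ∃ p ∈ 𝒯, ∃ u ∈ p.2, z = T.ex p.1 u}

def RST2 : Prop :=
  ∀ (Y : Type) [MeasurableSpace Y] (T : TS Y) (N : Seminorm ℝ ℂ) (B : Set (Y × ℂ))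
    (E : Finset (Y × ℂ)) (a : ℝ), T.PW (B ∪ E) → Disjoint B E → (∀ e ∈ E, N e.2 ≤ a) →
    T.Closed N E B a → ∃ 𝒯 : Finset (Y × Set ℂ), 𝒯.card ≤ 2 * E.card ∧
      (∀ p ∈ 𝒯, Convex ℝ p.2 ∧ 0 ∈ p.2 ∧ Disjoint p.2 (T.S p.1) ∧ MeasurableSet p.2 ∧
        ∀ u ∈ p.2, N u ≤ 2 * a) ∧
      (∀ e ∈ E, T.pts e ⊆ T.cov 𝒯) ∧
      (∀ z ∈ T.cov 𝒯, ∀ u, T.Reg z u →
        (∀ t ∈ Icc (0 : ℝ) 1, ∀ b ∈ B, N b.2 ≤ a → T.ex z (t • u) ∉ T.pts b) →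
        T.ex z u ∈ T.cov 𝒯) ∧
      ∀ b ∈ B, b.1 ∈ T.cov 𝒯 → N b.2 ≤ 2 * a

/-- A lower bound for the sizes of saddle connections after applying `g`. -/
def TS.Sys (T : TS Y) (g : ℂ →ₗ[ℝ] ℂ) (s : ℝ) : Prop := ∀ c ∈ T.SC, s ≤ ‖g c.2‖

def RNew : Prop :=
  ∀ (Y : Type) [MeasurableSpace Y] (T : TS Y), ∃ K r₀ c₀ : ℝ, 1 ≤ K ∧ 0 < r₀ ∧ 0 < c₀ ∧ c₀ ≤ 1 ∧
    ∀ (g : ℂ →ₗ[ℝ] ℂ) (B : Set (Y × ℂ)) (r : ℝ), SL g → B.Finite → T.PW B → 0 < r →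
    (B = ∅ → r ≤ r₀ → T.Out (ng g) B r) ∧
    (B.Nonempty → (∀ b ∈ B, K * r < ‖g b.2‖) → T.Out (ng g) B r) ∧
    ∀ s L σ : ℝ, 0 < s → T.Sys g s → 1 ≤ L → |σ| ≤ 3 →
      (∃ γ ∈ T.SC, (∀ b ∈ B, T.Dis γ b) ∧ ‖g γ.2‖ ≤ 10 * |(g γ.2).re - σ * (g γ.2).im|) →
      r ^ 2 + r * s / L ≤ c₀ * s ^ 2 → T.Out (ng (ds L σ ∘ₗ g)) B r

/-! ### The quadratic upper bound -/

def TS.Bd (T : TS Y) (g : ℂ →ₗ[ℝ] ℂ) (B : Set (Y × ℂ)) (R n : ℝ) : Prop :=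
  ∀ Γ : Finset (Y × ℂ), (Γ : Set (Y × ℂ)) ⊆ T.Gam (ng g) B R → (Γ.card : ℝ) ≤ n

def TS.PPc (T : TS Y) (j : ℕ) (β A : ℝ) : Prop :=
  ∀ g, SL g → ∀ s : ℝ, 0 < s → s ≤ 1 → T.Sys g s → ∀ B : Finset (Y × ℂ), T.PW B → B.card = j →
    ∀ l : ℝ, 1 ≤ l → T.Bd g B (l * s) (A * l ^ β)

def TS.PP (T : TS Y) (j : ℕ) (β : ℝ) : Prop := ∃ A, 0 ≤ A ∧ T.PPc j β A

def RDy : Prop :=
  ∀ β p₁ p₂ : ℝ, 0 ≤ β → β < p₁ → β < p₂ → ∃ C > 0, ∀ (ι : Type) (J : Finset ι) (u : ι → ℝ)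
    (x A₁ A₂ : ℝ), 0 < x → 0 ≤ A₁ → 0 ≤ A₂ → (∀ a ∈ J, 0 < u a ∧ u a ≤ x) →
    (∀ y, 0 < y → y ≤ x → ((J.filter fun a => u a ≤ y).card : ℝ) ≤ A₁ * y ^ p₁ + A₂ * y ^ p₂) →
    ∑ a ∈ J, u a ^ (-β) ≤ C * (A₁ * x ^ (p₁ - β) + A₂ * x ^ (p₂ - β))

def RGc : Prop :=
  ∀ p₁ p₂ : ℝ, 1 < p₁ → 1 < p₂ → ∃ C > 0, ∀ (Y : Type) [MeasurableSpace Y] (T : TS Y)
    (g : ℂ →ₗ[ℝ] ℂ) (A₁ A₂ u η : ℝ) (J : Finset ℤ), SL g → 0 ≤ A₁ → 0 ≤ A₂ → 0 < u → 0 < η →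
    η ≤ 1 → (∀ y, 0 < y → y ≤ 5 * u → T.Bd g ∅ y (A₁ * y ^ p₁ + A₂ * y ^ p₂)) →
    (∀ a ∈ J, |a * η| ≤ 3 ∧ ∃ c ∈ T.SC, |(g c.2).im| ≤ u ∧
      |(g c.2).re - a * η * (g c.2).im| ≤ u * η) →
    (J.card : ℝ) ≤ C * (A₁ * u ^ p₁ + A₂ * u ^ p₂)

/-- A bound for the saddle connections with slope in a family of short intervals. -/
def TS.JB (T : TS Y) (g : ℂ →ₗ[ℝ] ℂ) (B : Set (Y × ℂ)) (R L₀ n Q : ℝ) : Prop :=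
  ∀ L : ℝ, L₀ ≤ L → ∀ J : Finset ℤ, (J.card : ℝ) ≤ n →
    (∀ a ∈ J, |a / L ^ 2| ≤ 3 ∧ T.Out (ng (ds L (a / L ^ 2) ∘ₗ g)) B (2 * R / L)) →
    ∀ Γ : Finset (Y × ℂ), (∀ γ ∈ Γ, γ ∈ T.SC ∧ (∀ b ∈ B, T.Dis γ b) ∧ |(g γ.2).im| ≤ R ∧
      ∃ a ∈ J, |(g γ.2).re - a / L ^ 2 * (g γ.2).im| ≤ |(g γ.2).im| / L ^ 2) →
    (Γ.card : ℝ) ≤ Q

def RSumJ : Prop :=
  ∀ β p₁ p₂ : ℝ, 0 ≤ β → β < p₁ → β < p₂ → 1 < p₁ → 1 < p₂ → ∃ C > 0,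
    ∀ (Y : Type) [MeasurableSpace Y] (T : TS Y) (g : ℂ →ₗ[ℝ] ℂ) (B : Finset (Y × ℂ))
    (A s R L₀ n u₀ A₁ A₂ : ℝ), SL g → T.PW B → 0 ≤ A → T.PPc (B.card + 1) β A → 0 < s →
    T.Sys g s → 1 ≤ L₀ → 0 < u₀ → u₀ ≤ L₀ → u₀ ≤ 2 * R → 0 ≤ A₁ → 0 ≤ A₂ →
    (∀ y, 0 < y → y ≤ 10 * u₀ → T.Bd g ∅ y (A₁ * y ^ p₁ + A₂ * y ^ p₂)) →
    T.JB g B R L₀ n (2 * n + A * (2 * R) ^ β *
      (n * u₀ ^ (-β) + C * (A₁ * u₀ ^ (p₁ - β) + A₂ * u₀ ^ (p₂ - β))))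

/-- Every slope is transverse to some saddle connection disjoint from `B`. -/
def TS.Wit (T : TS Y) (g : ℂ →ₗ[ℝ] ℂ) (B : Set (Y × ℂ)) : Prop :=
  ∀ σ : ℝ, |σ| ≤ 3 → ∃ γ ∈ T.SC, (∀ b ∈ B, T.Dis γ b) ∧
    ‖g γ.2‖ ≤ 10 * |(g γ.2).re - σ * (g γ.2).im|

/-- A bound for the steep saddle connections. -/
def TS.HB (T : TS Y) (g : ℂ →ₗ[ℝ] ℂ) (B : Set (Y × ℂ)) (R Q : ℝ) : Prop :=
  ∀ Γ : Finset (Y × ℂ), (∀ γ ∈ Γ, γ ∈ T.SC ∧ (∀ b ∈ B, T.Dis γ b) ∧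
    |(g γ.2).re| ≤ |(g γ.2).im| ∧ |(g γ.2).im| ≤ R) → (Γ.card : ℝ) ≤ Q

def RCov : Prop :=
  ∀ (Y : Type) [MeasurableSpace Y] (T : TS Y), ∃ C > 0, ∀ (g : ℂ →ₗ[ℝ] ℂ) (B : Finset (Y × ℂ))
    (s l Q : ℝ), SL g → T.PW B → B.Nonempty → 0 < s → T.Sys g s → 1 ≤ l → 0 ≤ Q → T.Wit g B →
    T.JB g B (l * s) (√l) (C * l) Q → T.HB g B (l * s) (C * (1 + Real.log l) * Q)

def RCov0 : Prop :=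
  ∀ (Y : Type) [MeasurableSpace Y] (T : TS Y),
    (∃ r₀ > 0, ∀ (g : ℂ →ₗ[ℝ] ℂ) (R L Q : ℝ), SL g → 0 < R → 1 ≤ L → 2 * R ≤ r₀ * L →
      T.JB g ∅ R L (5 * L ^ 2) Q → T.HB g ∅ R Q) ∧
    ∀ (g : ℂ →ₗ[ℝ] ℂ) (B : Set (Y × ℂ)) (R Q Q' : ℝ), T.HB g B R Q →
      T.HB (rot Complex.I ∘ₗ g) B R Q' → T.Bd g B R (Q + Q')

def RWit : Prop :=
  ∀ (Y : Type) [MeasurableSpace Y] (T : TS Y), ∃ M : ℕ, ∀ (g : ℂ →ₗ[ℝ] ℂ) (B : Set (Y × ℂ))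
    (s l : ℝ) (Γ : Finset (Y × ℂ)), SL g → 0 < s → T.Sys g s →
    (Γ : Set (Y × ℂ)) ⊆ T.Gam (ng g) B (l * s) → Γ.card ≤ M ∨ ∃ (g' : ℂ →ₗ[ℝ] ℂ) (s' : ℝ),
      SL g' ∧ 0 < s' ∧ s' ≤ s ∧ T.Sys g' s' ∧ (∀ γ ∈ Γ, ‖g' γ.2‖ ≤ 2 * l * s') ∧ T.Wit g' B ∧
      T.Wit (rot Complex.I ∘ₗ g') B

def RStepJ : Prop :=
  ∀ (Y : Type) [MeasurableSpace Y] (T : TS Y) (j : ℕ) (β : ℝ), 1 ≤ j → 0 ≤ β → T.PP (j + 1) β →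
    T.PP j (β + 2) ∧ ∀ p β' : ℝ, 2 ≤ p → β < p → 1 + β * (1 - 1 / p) < β' → T.PP 0 p → T.PP j β'

def RStep0 : Prop :=
  ∀ (Y : Type) [MeasurableSpace Y] (T : TS Y) (β : ℝ), 0 ≤ β → T.PP 1 β →
    T.PP 0 (β + 2) ∧ ∀ p : ℝ, 2 ≤ p → β < p → T.PP 0 p → T.PP 0 (2 + β * (1 - 2 / p))

def RIter : Prop :=
  ∀ (Y : Type) [MeasurableSpace Y] (T : TS Y), ∃ β : ℝ, 0 ≤ β ∧ β < 2 ∧ T.PP 1 β

/-- The uniform quadratic bound. -/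
def RMas : Prop :=
  ∀ (Y : Type) [MeasurableSpace Y] (T : TS Y), ∃ A β : ℝ, 0 ≤ A ∧ 1 < β ∧ β < 2 ∧
    ∀ g, SL g → ∀ s : ℝ, 0 < s → s ≤ 1 → T.Sys g s → ∀ R : ℝ, 0 < R →
      T.Bd g ∅ R (A * R ^ 2 + A * (R / s) ^ β)

end Pool.Agent.MP_16ecd2_an.H18
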