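import Pool.Agent.MP_16ecd2_an.H18.SpecA

/-!
Interface statements, part B: non-divergence, discrepancy of the linear flow, the variance bound
and the count of visible singular points.
-/

set_option autoImplicit false

namespace Pool.Agent.MP_16ecd2_an.H18

open MeasureTheory Set Filter Topology Metric
open scoped ENNReal

variable {Y : Type} [MeasurableSpace Y]

/-- No short saddle connection at scale `L` in the direction of slope `s`. -/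
def TS.Thick (T : TS Y) (s L ε : ℝ) : Prop :=
  ∀ h ∈ T.Hol, ε ≤ max (L * |h.re - s * h.im|) (|h.im| / L)

def RNd : Prop :=
  ∀ (Y : Type) [MeasurableSpace Y] (T : TS Y), ∃ (C : ℝ) (D : ℕ), 0 < C ∧ 1 ≤ D ∧
    ∀ (i t : ℕ) (s₀ ρ ε : ℝ), 0 < ρ → ρ ≤ 1 → T.Thick s₀ (8 ^ i) ρ → 1 ≤ ρ ^ D * 8 ^ t →
    0 < ε → ε ≤ 1 →
    ({a : ℕ | a < 64 ^ t ∧ ¬ T.Thick (s₀ + a / 64 ^ (i + t)) (8 ^ (i + t)) ε}.ncard : ℝ) ≤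
      C * ε * 64 ^ t

/-- Large deviations on the `64`-ary tree. -/
def RLd : Prop :=
  ∀ (D : ℕ) (C : ℝ), 1 ≤ D → ∃ (e : ℕ) (γ : ℝ), 1 ≤ e ∧ 0 < γ ∧ γ < 1 ∧ ∀ x₀ : ℕ, ∃ C' > 0,
    ∀ (dep : ℕ → ℕ → ℕ) (bad : ℕ → ℕ → Prop), dep 0 0 ≤ x₀ →
    (∀ i a t b, dep i a = 0 → t < D * e → b < 64 ^ t → ¬ bad (i + t) (a * 64 ^ t + b)) →
    (∀ i a t y, t = D * (e + dep i a) → 1 ≤ y →
      ({b : ℕ | b < 64 ^ t ∧ y ≤ dep (i + t) (a * 64 ^ t + b)}.ncard : ℝ) ≤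
        C / 8 ^ (e + y) * 64 ^ t) →
    ∀ N : ℕ, ({a : ℕ | a < 64 ^ N ∧
      N ≤ 4 * {j : ℕ | j < N ∧ bad j (a / 64 ^ (N - j))}.ncard}.ncard : ℝ) ≤ C' * γ ^ N * 64 ^ N

def RThk : Prop :=
  ∀ (Y : Type) [MeasurableSpace Y] (T : TS Y), ∃ ε C γ : ℝ, 0 < ε ∧ ε ≤ 3 / 4 ∧ 0 < C ∧ 0 < γ ∧
    γ < 1 ∧ ∀ N : ℕ, ∃ Bad : Set ℝ, MeasurableSet Bad ∧ volume Bad ≤ ENNReal.ofReal (C * γ ^ N) ∧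
      ∀ s ∈ Ico (0 : ℝ) 1, s ∉ Bad → 4 * {j : ℕ | j < N ∧ ¬ T.Thick s (8 ^ j) ε}.ncard ≤ N

/-! ### The vertical flow -/

def TS.Sys0 (T : TS Y) (δ : ℝ) : Prop := ∀ h ∈ T.Hol, δ ≤ ‖h‖

/-- The times at which the vertical orbit of `x` meets the segment from `y` with holonomy `w`. -/
def TS.cr (T : TS Y) (y : Y) (w : ℂ) (x : Y) (t : ℝ) : Set ℝ :=
  {a | a ∈ Ico (0 : ℝ) t ∧ ∃ τ ∈ Ico (0 : ℝ) 1, T.ex x (a • Complex.I) = T.ex y (τ • w)}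

/-- An upper discrepancy bound for orbits of length at most `L`. -/
def TS.Disc (T : TS Y) (δ L E : ℝ) : Prop :=
  ∀ (y : Y) (w : ℂ) (x : Y) (t : ℝ), T.Reg y w → ‖w‖ ≤ δ → w.re ≠ 0 → 0 ≤ t → t ≤ L →
    T.Reg x (t • Complex.I) → ((T.cr y w x t).ncard : ℝ) ≤ t * |w.re| / T.area + E

structure E0 (T : TS Y) (δ : ℝ) : Prop where
  inj : ∀ y w, T.Reg y w → ‖w‖ ≤ δ → w ≠ 0 → InjOn (fun τ : ℝ => T.ex y (τ • w)) (Icc 0 1)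
  sep : ∀ y w x (t : ℝ), T.Reg y w → ‖w‖ ≤ δ → w.re ≠ 0 → T.Reg x (t • Complex.I) →
    ∀ a ∈ T.cr y w x t, ∀ b ∈ T.cr y w x t, a ≠ b → δ ≤ |a - b|
  fin : ∀ y w x (t : ℝ), T.Reg y w → ‖w‖ ≤ δ → w.re ≠ 0 → T.Reg x (t • Complex.I) →
    (T.cr y w x t).Finite
  add : ∀ y w x (a b : ℝ), T.Reg y w → ‖w‖ ≤ δ → w.re ≠ 0 → 0 ≤ a → 0 ≤ b →
    T.Reg x ((a + b) • Complex.I) → (T.cr y w x (a + b)).ncard ≤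
      (T.cr y w x a).ncard + (T.cr y w (T.ex x (a • Complex.I)) b).ncard
  one : T.Disc δ 1 (1 / δ + 1)
  mul : ∀ (L E : ℝ) (k : ℕ), 0 < L → 0 ≤ E → T.Disc δ L E → T.Disc δ (k * L) (k * E)

def RE0 : Prop :=
  ∀ (Y : Type) [MeasurableSpace Y] (T : TS Y) (δ : ℝ), 0 < δ → T.Sys0 (2 * δ) → E0 T δ

/-- A point whose orbit meets the segment at most as often as the mean. -/
def RE2 : Prop :=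
  ∀ (Y : Type) [MeasurableSpace Y] (T : TS Y) (y : Y) (w : ℂ) (H : ℝ) (Z : Set Y), T.Reg y w →
    w.re ≠ 0 → 0 < H → T.μ Z = 0 → ∃ z, z ∉ Z ∧ T.Reg z (H • Complex.I) ∧
      ((T.cr y w z H).ncard : ℝ) ≤ H * |w.re| / T.area

def Rect (a H : ℝ) : Set ℂ := {u | u.re ∈ uIcc 0 a ∧ u.im ∈ Icc 0 H}

/-- A horizontal move below an embedded rectangle. -/
def TS.Sl (T : TS Y) (H : ℝ) (z' z : Y) : Prop :=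
  ∃ a : ℝ, z = T.ex z' a ∧ Disjoint (Rect a H) (T.S z') ∧ InjOn (T.ex z') (Rect a H)

def TS.SlN (T : TS Y) (H : ℝ) : ℕ → Y → Y → Prop
  | 0, z', z => z = z'
  | k + 1, z', z => ∃ z'', T.SlN H k z' z'' ∧ T.Sl H z'' z

def RE3 : Prop :=
  ∀ (Y : Type) [MeasurableSpace Y] (T : TS Y) (δ : ℝ), 0 < δ → T.Sys0 (2 * δ) →
    ∀ (y : Y) (w : ℂ) (H : ℝ) (z' z : Y), T.Reg y w → ‖w‖ ≤ δ → w.re ≠ 0 → 0 ≤ H → T.Sl H z' z →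
      (T.cr y w z' H).ncard ≤ (T.cr y w z H).ncard + 4

/-- The complement of a null set is connected by short steps. -/
def RGconn : Prop :=
  ∀ (Y : Type) [MeasurableSpace Y] (T : TS Y) (Z U : Set Y) (η : ℝ) (z₀ z₁ : Y), T.μ Z = 0 →
    0 < η → z₀ ∈ U → z₀ ∉ Z → z₁ ∉ U → z₁ ∉ Z → ∃ z ∈ U, z ∉ Z ∧ ∃ (u : ℂ) (r : ℝ), ‖u‖ < r ∧
      r ≤ η ∧ Disjoint (ball (0 : ℂ) r) (T.S z) ∧ T.ex z u ∉ U ∧ T.ex z u ∉ Z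

def Bx (a H : ℝ) : Set ℂ := {u | u.re ∈ uIcc 0 a ∧ |u.im| ≤ H}

/-- Successive horizontal thickenings of an orbit segment. -/
def TS.VV (T : TS Y) (x : Y) (h ω : ℕ → ℝ) : ℕ → ℝ → Set Y
  | 0, s => {z | ∃ t : ℝ, |t| ≤ s ∧ z = T.ex x ((h 0 + t) • Complex.I)}
  | k + 1, s => {z | ∃ z' ∈ T.VV x h ω k (s + h k / 2), ∃ a : ℝ, |a| ≤ ω (k + 1) ∧
      Disjoint (Bx a (h (k + 1) - s)) (T.S z') ∧ z = T.ex z' a}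

/-- A decreasing sequence of thick scales. -/
structure HS (T : TS Y) (x : Y) (h ω : ℕ → ℝ) (m : ℕ) : Prop where
  hpos : ∀ k, k ≤ m → 0 < h k
  wpos : ∀ k, 1 ≤ k → k ≤ m → 0 < ω k
  hgap : ∀ k, k < m → 8 * h (k + 1) ≤ h k
  wgap : ∀ k, 1 ≤ k → k < m → 8 * ω k ≤ ω (k + 1)
  box : ∀ k, 1 ≤ k → k ≤ m → ∀ v ∈ T.Hol, ¬ (|v.re| ≤ 2 * ω k ∧ |v.im| ≤ 2 * h k)
  reg : T.Reg x ((2 * h 0) • Complex.I)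

structure HV (T : TS Y) (x : Y) (h ω : ℕ → ℝ) (m : ℕ) : Prop where
  mono : ∀ k s s', s ≤ s' → T.VV x h ω k s ⊆ T.VV x h ω k s'
  vert : ∀ k, k ≤ m → ∀ s, ∀ z ∈ T.VV x h ω k s, ∀ t : ℝ, s + |t| ≤ h k →
    T.Reg z (t • Complex.I) ∧ T.ex z (t • Complex.I) ∈ T.VV x h ω k (s + |t|)
  incl : ∀ k k', k ≤ k' → k' ≤ m → T.VV x h ω k 0 ⊆ T.VV x h ω k' 0
  base : (∀ k, k ≤ m → T.ex x (h 0 • Complex.I) ∈ T.VV x h ω k 0) ∧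
    ∀ t : ℝ, |t| ≤ h 0 → t • Complex.I ∉ T.S (T.ex x (h 0 • Complex.I))
  unw : ∀ k, k ≤ m → ∀ s H : ℝ, s ≤ 3 * h k / 4 → 0 ≤ H → H ≤ h k / 4 →
    ∀ z ∈ T.VV x h ω k s, ∃ t ∈ Icc (h 0 / 4) (7 * h 0 / 4),
      T.SlN H k (T.ex x (t • Complex.I)) z

def RHV : Prop :=
  ∀ (Y : Type) [MeasurableSpace Y] (T : TS Y) (x : Y) (h ω : ℕ → ℝ) (m : ℕ),
    HS T x h ω m → HV T x h ω m

def RHG : Prop :=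
  ∀ (Y : Type) [MeasurableSpace Y] (T : TS Y) (x : Y) (h ω : ℕ → ℝ) (m k : ℕ), HS T x h ω m →
    k + 1 < m → ∀ z ∈ T.VV x h ω (k + 1) 0, ∀ (u : ℂ) (r : ℝ), ‖u‖ < r → r ≤ h (k + 1) / 4 →
    r ≤ ω (k + 1) → Disjoint (ball (0 : ℂ) r) (T.S z) → T.ex z u ∉ T.VV x h ω (k + 1) 0 →
    (∀ t : ℝ, |t| ≤ h (k + 1) → t • Complex.I ∉ T.S (T.ex z u)) →
    ∃ Q : Set Y, MeasurableSet Q ∧ ENNReal.ofReal (ω (k + 1) * h (k + 1) / 8) ≤ T.μ Q ∧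
      Q ⊆ T.VV x h ω (k + 2) 0 ∧ Disjoint Q (T.VV x h ω k 0)

def RHit : Prop :=
  ∀ (Y : Type) [MeasurableSpace Y] (T : TS Y) (x : Y) (h ω : ℕ → ℝ) (m : ℕ) (c H : ℝ),
    HS T x h ω m → 0 < c → (∀ k, 1 ≤ k → k ≤ m → c ≤ ω k * h k) → 16 * T.area / c + 1 < m →
    0 ≤ H → H ≤ h m / 4 → ∃ Z : Set Y, T.μ Z = 0 ∧ ∀ z, z ∉ Z →
      ∃ t ∈ Icc (h 0 / 4) (7 * h 0 / 4), T.SlN H m (T.ex x (t • Complex.I)) z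

def RContr : Prop :=
  ∀ (Y : Type) [MeasurableSpace Y] (T : TS Y) (δ ε E : ℝ) (g m i w : ℕ), 0 < δ → T.Sys0 (2 * δ) →
    0 < ε → ε ≤ 3 / 4 → 24 ≤ ε * 8 ^ g → 144 * T.area / ε ^ 2 + 1 < m →
    m ≤ {j : ℕ | i + g ≤ j ∧ j < i + w ∧ T.Thick 0 (8 ^ j) ε}.ncard → 0 ≤ E →
    T.Disc δ (8 ^ i) E → T.Disc δ (8 ^ (i + w)) ((8 ^ w - 1) * E + 4 * m)

def RDisc : Prop :=
  ∀ (Y : Type) [MeasurableSpace Y] (T : TS Y), ∃ δ C γ : ℝ, 0 < δ ∧ 0 < C ∧ 0 < γ ∧ γ < 1 ∧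
    T.Sys0 (6 * δ) ∧ ∀ N : ℕ, ∃ Bad : Set ℝ, MeasurableSet Bad ∧
      volume Bad ≤ ENNReal.ofReal (C * γ ^ N) ∧
      ∀ s ∈ Ico (0 : ℝ) 1, s ∉ Bad → (T.shear s).Disc δ (8 ^ N) (C * γ ^ N * 8 ^ N)

/-! ### Marked singular points -/

structure Marked (T : TS Y) (S' : Y → Set ℂ) (k : ℕ) : Prop where
  sub : ∀ x, S' x ⊆ T.S x
  tr : ∀ x u a, a ∈ S' x →
    (∀ α β : ℝ, 0 ≤ α → 0 ≤ β → α + β ≤ 1 → β < 1 → α • u + β • a ∉ T.S x) →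
    a - u ∈ S' (T.ex x u)
  card : ∃ δ > 0, ∀ v : ℂ, v ≠ 0 → ‖v‖ ≤ δ → {y | v ∈ S' y}.ncard = k

/-- Developing maps along the separatrices that leave the marked points upwards. -/
structure Fam (T : TS Y) (S' : Y → Set ℂ) (k : ℕ) (Ω : Fin k → Set ℂ) (Φ : Fin k → ℂ → Y) :
    Prop where
  meas : ∀ i, MeasurableSet (Ω i)
  dev : ∀ i, T.Dev (Ω i) (Φ i)
  vis : ∀ i, ∀ v ∈ Ω i, -v ∈ S' (Φ i v)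
  sur : ∀ q v, 0 < v.im → -v ∈ S' q → ∃ i, v ∈ Ω i ∧ Φ i v = q
  inj : ∀ i j v, v ∈ Ω i → v ∈ Ω j → Φ i v = Φ j v → i = j
  cut : ∀ i v, 0 < v.im → v ∉ Ω i → ∃ t ∈ Ioc (0 : ℝ) 1, t • v ∈ T.Hol

def RFam : Prop :=
  ∀ (Y : Type) [MeasurableSpace Y] (T : TS Y) (S' : Y → Set ℂ) (k : ℕ), Marked T S' k →
    ∃ Ω Φ, Fam T S' k Ω Φ

/-- The vector of slope `s` and height one. -/
noncomputable def dir (s : ℝ) : ℂ := s + Complex.I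

def Cone (G : Set ℝ) (y₁ y₂ : ℝ) : Set ℂ := {v | v.im ∈ Ico y₁ y₂ ∧ v.re / v.im ∈ G}

noncomputable def rho (v : ℂ) : ℝ≥0∞ := ENNReal.ofReal (1 / v.im)

/-- The weighted number of points of `P` in `D`. -/
noncomputable def ws (P D : Set ℂ) : ℝ≥0∞ := ∑' v : ℂ, (D ∩ P).indicator rho v

def nS {Z : Type} (S' : Z → Set ℂ) (q : Z) : Set ℂ := {v | -v ∈ S' q}

def RPol : Prop :=
  ∀ (G : Set ℝ) (y₁ y₂ : ℝ), MeasurableSet G → 0 < y₁ → MeasurableSet (Cone G y₁ y₂) ∧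
    ∀ F : ℂ → ℝ≥0∞, Measurable F → ∫⁻ v in Cone G y₁ y₂, F v * rho v =
      ∫⁻ s in G, ∫⁻ t in Ico y₁ y₂, F (t • dir s)

def RMom : Prop :=
  ∀ (Y : Type) [MeasurableSpace Y] (T : TS Y) (S' : Y → Set ℂ) (k : ℕ) (Ω : Fin k → Set ℂ)
    (Φ : Fin k → ℂ → Y), Fam T S' k Ω Φ → ∀ (G : Set ℝ) (y₁ y₂ : ℝ), MeasurableSet G → 0 < y₁ →
    (∀ q, ws (nS S' q) (Cone G y₁ y₂) = ∑ i, wt (Φ i) (Cone G y₁ y₂ ∩ Ω i) rho q) ∧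
    (Measurable fun q => ws (nS S' q) (Cone G y₁ y₂)) ∧
    ∫⁻ q, ws (nS S' q) (Cone G y₁ y₂) ∂T.μ ≤ k * volume G * ENNReal.ofReal (y₂ - y₁) ∧
    ((∀ i, Cone G y₁ y₂ ⊆ Ω i) →
      ∫⁻ q, ws (nS S' q) (Cone G y₁ y₂) ∂T.μ = k * volume G * ENNReal.ofReal (y₂ - y₁) ∧
      ∀ f : Y → ℝ≥0∞, Measurable f → ∫⁻ q, f q * ws (nS S' q) (Cone G y₁ y₂) ∂T.μ =
        ∑ i, ∫⁻ s in G, ∫⁻ t in Ico y₁ y₂, f (Φ i (t • dir s)))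

/-- A thin triangle. -/
def Th (σ η L : ℝ) : Set ℂ :=
  {v | 0 < v.im ∧ v.im ≤ L ∧ 0 ≤ v.re - σ * v.im ∧ v.re - σ * v.im ≤ η * v.im}

/-- Crossings of two separatrices. -/
def crs {Z : Type} (Φ Φ' : ℂ → Z) (σ s y₁ y₂ : ℝ) : Set (ℝ × ℝ) :=
  {p | p.1 ∈ Ico (y₁ - 1) (y₂ + 1) ∧ p.2 ∈ Ico (y₁ - 1) (y₂ + 1) ∧
    Φ' (p.1 • dir s) = Φ (p.2 • dir σ)}

def RV1 : Prop :=
  ∀ (Y : Type) [MeasurableSpace Y] (T : TS Y) (Ω Ω' : Set ℂ) (Φ Φ' : ℂ → Y)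
    (σ s η L y₁ y₂ : ℝ), T.Dev Ω Φ → T.Dev Ω' Φ' → Th σ η L ⊆ Ω →
    (∀ t ∈ Ioc (0 : ℝ) L, t • dir s ∈ Ω') → 0 < η → η * L ≤ |σ - s| → 4 ≤ L → 2 ≤ y₁ →
    y₂ + 1 ≤ L → (crs Φ Φ' σ s y₁ y₂).Finite →
    ∫⁻ t in Ico y₁ y₂, wt Φ (Cone (Ico σ (σ + η)) y₁ y₂) rho (Φ' (t • dir s)) ≤
      ENNReal.ofReal (η / (|σ - s| - 2 * η) * (crs Φ Φ' σ s y₁ y₂).ncard)

def RV1c : Prop :=
  ∀ (Y : Type) [MeasurableSpace Y] (T : TS Y) (Ω Ω' : Set ℂ) (Φ Φ' : ℂ → Y)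
    (σ s δ E L y₁ y₂ : ℝ), T.Dev Ω Φ → T.Dev Ω' Φ' → (∀ t ∈ Ioc (0 : ℝ) L, t • dir σ ∈ Ω) →
    (∀ t ∈ Ioc (0 : ℝ) L, t • dir s ∈ Ω') → 0 < δ → T.Sys0 (6 * δ) → (T.shear s).Disc δ L E →
    0 ≤ E → σ ≠ s → |σ - s| ≤ 2 → |s| ≤ 1 → 2 ≤ y₁ → y₁ ≤ y₂ → y₂ + 1 ≤ L →
    (crs Φ Φ' σ s y₁ y₂).Finite ∧ ((crs Φ Φ' σ s y₁ y₂).ncard : ℝ) ≤
      (y₂ - y₁ + 2) ^ 2 * |σ - s| / T.area + (3 * (y₂ - y₁ + 2) / δ + 1) * E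

/-- The thin box of slope `σ` contains a saddle connection. -/
def TS.Cut (T : TS Y) (σ η L : ℝ) : Prop :=
  ∃ c ∈ T.SC, |c.2.im| ≤ L ∧ |c.2.re - σ * c.2.im| ≤ L * η

def RCut : Prop :=
  ∀ (Y : Type) [MeasurableSpace Y] (T : TS Y),
    (∃ C > 0, ∀ (L η : ℝ) (J : Finset ℤ), 1 ≤ L → 0 < η → η ≤ 1 →
      (∀ a ∈ J, |a * η| ≤ 3 ∧ T.Cut (a * η) η L) → (J.card : ℝ) ≤ C * L ^ 2) ∧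
    ∀ (S' : Y → Set ℂ) (k : ℕ) (Ω : Fin k → Set ℂ) (Φ : Fin k → ℂ → Y), Fam T S' k Ω Φ →
      ∀ σ η L : ℝ, 0 < η → ¬ T.Cut σ η L → ∀ i, Th σ η L ⊆ Ω i ∧ InjOn (Φ i) (Th σ η L)

def RV2i : Prop :=
  ∀ (Y : Type) [MeasurableSpace Y] (T : TS Y) (δ : ℝ), 0 < δ → T.Sys0 (6 * δ) → ∃ C > 0,
    ∀ (N : ℕ) (L η E s y₁ y₂ : ℝ) (Ω Ω' : Set ℂ) (Φ Φ' : ℂ → Y) (J : Finset ℕ), 1 ≤ N →
    L = 8 ^ N → η = 1 / L ^ 3 → T.Dev Ω Φ → T.Dev Ω' Φ' → (T.shear s).Disc δ L E → 0 ≤ E →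
    s ∈ Ico (0 : ℝ) 1 → (∀ t ∈ Ioc (0 : ℝ) L, t • dir s ∈ Ω') →
    (∀ a ∈ J, a * η ≤ 1 ∧ Th (a * η) η L ⊆ Ω ∧ InjOn Φ (Th (a * η) η L)) →
    2 ^ N ≤ y₁ → y₁ ≤ y₂ → y₂ + 1 ≤ L →
    ∑ a ∈ J, ∫⁻ t in Ico y₁ y₂, wt Φ (Cone (Ico (a * η) (a * η + η)) y₁ y₂) rho (Φ' (t • dir s)) ≤
      ENNReal.ofReal (J.card * η * (y₂ - y₁ + 2) ^ 2 / T.area + C * N * (1 + L * E) +
        3 * L ^ 2 / 2 ^ N)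

def RV2m : Prop :=
  ∀ (Y : Type) [MeasurableSpace Y] (T : TS Y) (S' : Y → Set ℂ) (k : ℕ) (Ω : Fin k → Set ℂ)
    (Φ : Fin k → ℂ → Y), Fam T S' k Ω Φ → ∃ C γ : ℝ, 0 < C ∧ 0 < γ ∧ γ < 1 ∧
    ∀ (N : ℕ) (s₁ s₂ y₁ y₂ : ℝ), 1 ≤ N → 0 ≤ s₁ → s₁ ≤ s₂ → s₂ ≤ 1 → 2 ^ N ≤ y₁ → y₁ ≤ y₂ →
    y₂ + 1 ≤ 8 ^ N → ∃ G : Set ℝ, MeasurableSet G ∧ G ⊆ Ico s₁ s₂ ∧
      volume (Ico s₁ s₂ \ G) ≤ ENNReal.ofReal (C * γ ^ N) ∧ (∀ i, Cone G y₁ y₂ ⊆ Ω i) ∧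
      ∫⁻ q, ws (nS S' q) (Cone G y₁ y₂) ^ 2 ∂T.μ ≤ ENNReal.ofReal
        ((k * (volume G).toReal * (y₂ - y₁)) ^ 2 / T.area + C * γ ^ N * (8 ^ N) ^ 2)

def RVar : Prop :=
  ∀ (Y : Type) [MeasurableSpace Y] (T : TS Y) (S' : Y → Set ℂ) (k : ℕ), Marked T S' k →
    ∃ C γ : ℝ, 0 < C ∧ 0 < γ ∧ γ < 1 ∧ ∀ (N : ℕ) (s₁ s₂ y₁ y₂ l : ℝ), 1 ≤ N → 0 ≤ s₁ → s₁ ≤ s₂ →
    s₂ ≤ 1 → 2 ^ N ≤ y₁ → y₁ ≤ y₂ → y₂ + 1 ≤ 8 ^ N → 0 < l →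
    T.μ {q | l ≤ |(ws (nS S' q) (Cone (Ico s₁ s₂) y₁ y₂)).toReal -
      k * (s₂ - s₁) * (y₂ - y₁) / T.area|} ≤
      ENNReal.ofReal (C * γ ^ N * ((8 ^ N) ^ 2 / l ^ 2 + 8 ^ N / l))

/-! ### From cells to sectors -/

def Cells (P : Set ℂ) (c L : ℝ) (n : ℕ) : Prop :=
  ∀ a b : ℕ, a < n → 1 ≤ b → b + 2 ≤ n →
    |(ws P (Cone (Ico ((a : ℝ) / n) ((a + 1) / n)) (b * L / n) ((b + 1) * L / n))).toReal -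
      c * L / n ^ 2| ≤ L / n ^ 3

def GG (P : Set ℂ) (c : ℝ) (D : ℕ) : Prop := ∃ N₀, ∀ N, N₀ ≤ N → Cells P c (8 ^ N) (2 ^ (N / D))

def LocFin (P : Set ℂ) : Prop := ∀ R : ℝ, (P ∩ closedBall 0 R).Finite

/-- The set `P` turned by `-j π / 4`. -/
def turnSet (j : ℕ) (P : Set ℂ) : Set ℂ :=
  {v | Complex.exp ((j * (Real.pi / 4) : ℝ) * Complex.I) * v ∈ P}

def RGA : Prop :=
  ∀ (Y : Type) [MeasurableSpace Y] (T : TS Y) (S' : Y → Set ℂ) (k : ℕ), Marked T S' k →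
    ∃ D₀ : ℕ, ∀ D, D₀ ≤ D → 1 ≤ D → ∀ᵐ q ∂T.μ, GG (nS S' q) (k / T.area) D

def RGB : Prop :=
  ∀ c : ℝ, 0 ≤ c → ∃ C > 0, ∀ (P : Set ℂ) (L R s₁ s₂ : ℝ) (n : ℕ) (G : Set ℝ), LocFin P → 0 < L →
    8 ≤ n → Cells P c L n → 0 < R → R ≤ L / 2 → 0 ≤ s₁ → s₁ ≤ s₂ → s₂ ≤ 1 → Ioo s₁ s₂ ⊆ G →
    G ⊆ Icc s₁ s₂ → G ⊆ Ico 0 1 →
    |({v ∈ P | L / n ≤ v.im ∧ v.re / v.im ∈ G ∧ ‖v‖ ≤ R}.ncard : ℝ) -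
      c * (Real.arctan s₂ - Real.arctan s₁) * R ^ 2 / 2| ≤ C * L ^ 2 / n

def RGC1 : Prop :=
  ∀ c : ℝ, 0 ≤ c → ∃ C > 0, ∀ (P : Set ℂ) (L R α β : ℝ) (n : ℕ), LocFin P → 0 < L → 8 ≤ n →
    (∀ j, j < 8 → Cells (turnSet j P) c L n) → 0 < R → R ≤ L / 2 → α ≤ β → β ≤ α + 2 * Real.pi →
    |((P ∩ Sect α β R).ncard : ℝ) - c * (β - α) * R ^ 2 / 2| ≤
      C * L ^ 2 / n + C * (P ∩ closedBall 0 (2 * L / n)).ncard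

def RGC2 : Prop :=
  ∀ (c : ℝ) (D : ℕ), 0 ≤ c → 1 ≤ D → ∃ κ > (0 : ℝ), ∀ P : Set ℂ, LocFin P →
    (∀ j, j < 8 → GG (turnSet j P) c D) → ∃ C : ℝ, ∀ R α β : ℝ, 1 ≤ R → α ≤ β →
      β ≤ α + 2 * Real.pi →
      |((P ∩ Sect α β R).ncard : ℝ) - c * (β - α) * R ^ 2 / 2| ≤ C * R ^ (2 - κ)

def RPQ : Prop :=
  ∀ (Y : Type) [MeasurableSpace Y] (T : TS Y) (S' : Y → Set ℂ) (k : ℕ), Marked T S' k →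
    ∃ κ > (0 : ℝ), ∀ᵐ q ∂T.μ, ∃ C : ℝ, ∀ R α β : ℝ, 1 ≤ R → α ≤ β → β ≤ α + 2 * Real.pi →
      |((S' q ∩ Sect α β R).ncard : ℝ) - k * (β - α) * R ^ 2 / (2 * T.area)| ≤ C * R ^ (2 - κ)

/-- Primitive closed segments through `q`. -/
def TS.Loops (T : TS Y) (q : Y) (R : ℝ) : Set ℂ :=
  {v | v ≠ 0 ∧ T.Reg q v ∧ T.ex q v = q ∧ (∀ t ∈ Ioo (0 : ℝ) 1, T.ex q (t • v) ≠ q) ∧ ‖v‖ ≤ R}

def RLoop : Prop :=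
  ∀ (Y : Type) [MeasurableSpace Y] (T : TS Y), ∃ C : ℝ, 0 ≤ C ∧ ∀ (q : Y) (R : ℝ),
    (T.Loops q R).Finite ∧ (T.Loops q R).ncard ≤ (T.S q ∩ closedBall 0 (2 * R + C)).ncard

end Pool.Agent.MP_16ecd2_an.H18
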