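import Pool.Agent.MP_16ecd2_an.H18.SpecB

/-!
Interface statements, part C: from the atlas to the abstract model and back.
-/

set_option autoImplicit false

namespace Pool.Agent.MP_16ecd2_an.H18

open MeasureTheory Set Filter Topology Metric
open scoped ENNReal

section

variable {X : Type} [TopologicalSpace X]

/-- At time `t` the path `γ` moves with velocity `v` in a chart. -/
def TSurf.Lin (S : TSurf X) (γ : ℝ → X) (v : ℂ) (t : ℝ) : Prop :=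
  ContinuousAt γ t ∧ ∃ φ ∈ S.atlas, γ t ∈ φ.source ∧
    ∀ᶠ s in 𝓝 t, φ (γ s) - φ (γ t) = (s - t) • v

/-- A segment without singular point from `x` to `z`. -/
def TSurf.RegX (S : TSurf X) (x : X) (v : ℂ) (z : X) : Prop :=
  ∃ γ : ℝ → X, γ 0 = x ∧ γ 1 = z ∧ ∀ t ∈ Icc (0 : ℝ) 1, S.Lin γ v t

/-- A segment from `x` to the singular point `σ`. -/
def TSurf.Vis (S : TSurf X) (x : X) (v : ℂ) (σ : X) : Prop :=
  σ ∈ S.Sig ∧ ∃ γ : ℝ → X, γ 0 = x ∧ (∀ t ∈ Ico (0 : ℝ) 1, S.Lin γ v t) ∧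
    Tendsto γ (𝓝[<] 1) (𝓝 σ)

open Classical in
noncomputable def TSurf.exX (S : TSurf X) (x : X) (v : ℂ) : X :=
  if h : ∃ z, S.RegX x v z then h.choose else x

structure A1 (S : TSurf X) : Prop where
  nsig : ∀ γ v t, S.Lin γ v t → γ t ∉ S.Sig
  any : ∀ γ v t, S.Lin γ v t → ∀ φ ∈ S.atlas, γ t ∈ φ.source →
    ∀ᶠ s in 𝓝 t, φ (γ s) - φ (γ t) = (s - t) • v
  nhd : ∀ γ v t, S.Lin γ v t → ∀ᶠ s in 𝓝 t, S.Lin γ v s
  congr : ∀ γ γ' v t, S.Lin γ v t → γ' =ᶠ[𝓝 t] γ → S.Lin γ' v t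
  rep : ∀ γ v (a b t : ℝ), S.Lin γ v (a + b * t) → S.Lin (fun s => γ (a + b * s)) (b • v) t
  chart : ∀ φ ∈ S.atlas, ∀ (w v : ℂ) (t : ℝ), w + t • v ∈ φ.target →
    S.Lin (fun s => φ.symm (w + s • v)) v t
  aff : ∀ φ ∈ S.atlas, ∀ γ v (I : Set ℝ), Convex ℝ I → (∀ t ∈ I, S.Lin γ v t ∧ γ t ∈ φ.source) →
    ∀ s ∈ I, ∀ t ∈ I, φ (γ s) - φ (γ t) = (s - t) • v
  uniq : ∀ γ γ' v (I : Set ℝ), Convex ℝ I → (∀ t ∈ I, S.Lin γ v t) → (∀ t ∈ I, S.Lin γ' v t) →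
    ∀ t₀ ∈ I, γ t₀ = γ' t₀ → ∀ t ∈ I, γ t = γ' t

structure A2 (S : TSurf X) : Prop where
  reg_nsig : ∀ x v z, S.RegX x v z → x ∉ S.Sig ∧ z ∉ S.Sig
  vis_nsig : ∀ x v σ, S.Vis x v σ → x ∉ S.Sig ∧ v ≠ 0
  ex_nsig : ∀ x v, x ∉ S.Sig → S.exX x v ∉ S.Sig
  exq : ∀ x v z, S.RegX x v z → S.exX x v = z
  zero : ∀ x, x ∉ S.Sig → S.RegX x 0 x
  inch : ∀ φ ∈ S.atlas, ∀ x ∈ φ.source, ∀ v : ℂ, (∀ t ∈ Icc (0 : ℝ) 1, φ x + t • v ∈ φ.target) →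
    S.RegX x v (φ.symm (φ x + v))
  back : ∀ x v z, S.RegX x v z → S.RegX z (-v) x
  vis_reg : ∀ x v σ z, S.Vis x v σ → ¬ S.RegX x v z
  vis_uniq : ∀ x v σ σ', S.Vis x v σ → S.Vis x v σ' → σ = σ'
  sub : ∀ γ v (a b : ℝ), (∀ t ∈ uIcc a b, S.Lin γ v t) → S.RegX (γ a) ((b - a) • v) (γ b)
  split : ∀ x v z, S.RegX x v z → ∀ t ∈ Icc (0 : ℝ) 1,
    ∃ y, S.RegX x (t • v) y ∧ S.RegX y ((1 - t) • v) z
  vsplit : ∀ x v σ, S.Vis x v σ → ∀ t ∈ Ico (0 : ℝ) 1,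
    ∃ y, S.RegX x (t • v) y ∧ S.Vis y ((1 - t) • v) σ
  glue : ∀ x v y z, ∀ t ∈ Icc (0 : ℝ) 1, S.RegX x (t • v) y → S.RegX y ((1 - t) • v) z →
    S.RegX x v z
  vglue : ∀ x v y σ, ∀ t ∈ Ico (0 : ℝ) 1, S.RegX x (t • v) y → S.Vis y ((1 - t) • v) σ →
    S.Vis x v σ
  path : ∀ x v, (∀ t ∈ Ico (0 : ℝ) 1, ∃ z, S.RegX x (t • v) z) →
    ∀ t ∈ Ioo (0 : ℝ) 1, S.Lin (fun s => S.exX x (s • v)) v t

/-- A cone chart with a closed disc in its target that contains no other singular point. -/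
structure ConeAt (S : TSurf X) (σ : X) (χ : OpenPartialHomeomorph X ℂ) (r : ℝ) : Prop where
  sig : σ ∈ S.Sig
  ord : 0 < S.ord σ
  mem : σ ∈ χ.source
  zero : χ σ = 0
  pos : 0 < r
  ball : closedBall (0 : ℂ) r ⊆ χ.target
  only : ∀ y ∈ χ.source, ‖χ y‖ ≤ r → y ∈ S.Sig → y = σ
  trans : ∀ φ ∈ S.atlas, ∀ x ∈ φ.source, x ∈ χ.source →
    ∀ᶠ y in 𝓝 x, φ y - φ x = χ y ^ S.ord σ - χ x ^ S.ord σ

structure A3 (S : TSurf X) : Prop where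
  ex : ∀ σ ∈ S.Sig, ∃ χ r, ConeAt S σ χ r
  stay : ∀ σ χ r, ConeAt S σ χ r → ∀ γ v (a b : ℝ), a ≤ b → (∀ t ∈ Icc a b, S.Lin γ v t) →
    γ a ∈ χ.source → ‖χ (γ a)‖ ^ S.ord σ + (b - a) * ‖v‖ < r ^ S.ord σ →
    γ b ∈ χ.source ∧ ‖χ (γ b)‖ < r ∧ χ (γ b) ^ S.ord σ = χ (γ a) ^ S.ord σ + (b - a) • v
  prong : ∀ σ χ r, ConeAt S σ χ r → ∀ y ∈ χ.source, ‖χ y‖ ≤ r → y ≠ σ →
    S.Vis y (-(χ y ^ S.ord σ)) σ
  near : ∀ σ χ r, ConeAt S σ χ r → ∀ y v, S.Vis y v σ → ‖v‖ < r ^ S.ord σ →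
    y ∈ χ.source ∧ ‖χ y‖ < r ∧ χ y ^ S.ord σ = -v
  into : ∀ σ χ r, ConeAt S σ χ r → ∀ y ∈ χ.source, ∀ v σ', S.Vis y v σ' →
    ‖χ y‖ ^ S.ord σ + ‖v‖ < r ^ S.ord σ → σ' = σ

/-- Completeness. -/
def A4 (S : TSurf X) : Prop :=
  ∀ x v, x ∉ S.Sig → (∃ z, S.RegX x v z) ∨ ∃ t ∈ Ioc (0 : ℝ) 1, ∃ σ, S.Vis x (t • v) σ

/-- The exponential map is a translation in the charts. -/
def A5 (S : TSurf X) : Prop :=
  ∀ x v z, S.RegX x v z → ∀ φ ∈ S.atlas, z ∈ φ.source →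
    ∀ᶠ u in 𝓝 v, ∃ z', S.RegX x u z' ∧ z' ∈ φ.source ∧ φ z' - φ z = u - v

structure A6 (S : TSurf X) : Prop where
  cons : ∀ (x : X) (C : Set ℂ), x ∉ S.Sig → Convex ℝ C → 0 ∈ C → (∀ u ∈ C, ∀ σ, ¬ S.Vis x u σ) →
    ∀ u ∈ C, ∀ w, u + w ∈ C → S.RegX x u (S.exX x u) ∧ S.RegX (S.exX x u) w (S.exX x (u + w))
  tr : ∀ x u a σ, S.Vis x a σ → (∀ α β : ℝ, 0 ≤ α → 0 ≤ β → α + β ≤ 1 → β < 1 →
    ∀ σ', ¬ S.Vis x (α • u + β • a) σ') → S.Vis (S.exX x u) (a - u) σ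

structure A7 (S : TSurf X) : Prop where
  one : ∃ r > 0, ∀ x v v' σ σ', S.Vis x v σ → S.Vis x v' σ' → ‖v‖ < r → ‖v'‖ < r → v = v'
  card : ∃ δ > 0, ∀ v : ℂ, v ≠ 0 → ‖v‖ ≤ δ → ∀ σ ∈ S.Sig,
    {y | S.Vis y v σ}.Finite ∧ {y | S.Vis y v σ}.ncard = S.ord σ

structure A8 (S : TSurf X) : Prop where
  conn : ∀ x y, x ∉ S.Sig → y ∉ S.Sig →
    Relation.ReflTransGen (fun a b => ∃ u, S.RegX a u b) x y
  dens : ∃ R : ℝ, ∀ x, x ∉ S.Sig → ∃ a σ, S.Vis x a σ ∧ ‖a‖ ≤ R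
  ne : ∃ x, x ∉ S.Sig

/-- The sum of the cone angles divided by `2π`. -/
def TSurf.tot (S : TSurf X) : ℕ := ∑ σ ∈ S.Sig, S.ord σ

/-- The abstract model of a surface. -/
structure IsModel [MeasurableSpace X] (S : TSurf X) (μ : Measure X) (T : TS {x // x ∉ S.Sig}) :
    Prop where
  vis : ∀ x v, v ∈ T.S x ↔ ∃ σ, S.Vis x v σ
  ex : ∀ x v, (T.ex x v : X) = S.exX x v
  reg : ∀ x v, T.Reg x v ↔ ∃ z, S.RegX x v z
  area : T.area = (μ univ).toReal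
  ae : ∀ P : X → Prop, (∀ᵐ y : {x // x ∉ S.Sig} ∂T.μ, P y.1) → ∀ᵐ x ∂μ, P x
  mark : ∀ σ ∈ S.Sig, Marked T (fun x => {v | S.Vis x v σ}) (S.ord σ)
  all : Marked T T.S S.tot

/-- Closed segments through `q` that meet `q` only at the ends. -/
def TSurf.Lp (S : TSurf X) (q : X) : Set (C(unitInterval, X) × ℂ) :=
  {c | c ∈ S.Seg q q ∧ c.2 ≠ 0 ∧ ∀ t : unitInterval, 0 < t → t < 1 → c.1 t ≠ q}

/-- Only finitely many segments of bounded length. -/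
def Fin' (Γ : Set (C(unitInterval, X) × ℂ)) : Prop := ∀ R : ℝ, {c ∈ Γ | ‖c.2‖ ≤ R}.Finite

structure Br (S : TSurf X) : Prop where
  int : ∀ q (γ : C(unitInterval, X)) v, q ∉ S.Sig → S.Straight γ v → γ 0 = q →
    ∀ t : unitInterval, t < 1 → S.RegX q ((t : ℝ) • v) (γ t)
  inj : ∀ q p, q ∉ S.Sig → InjOn Prod.snd (S.Seg q p)
  vis : ∀ q σ, q ∉ S.Sig → σ ∈ S.Sig → Prod.snd '' S.Seg q σ = {v | S.Vis q v σ}
  reg : ∀ q p, q ∉ S.Sig → p ∉ S.Sig → ∀ c ∈ S.Seg q p, S.RegX q c.2 p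
  once : ∀ q σ, q ∉ S.Sig → σ ∈ S.Sig → ∀ c ∈ S.Seg q σ,
    c.2 ≠ 0 ∧ ∀ t : unitInterval, 0 < t → t < 1 → c.1 t ≠ q
  mid : ∀ c ∈ S.Conn S.Sig, ∀ m : unitInterval, (m : ℝ) = 1 / 2 →
    S.Vis (c.1 m) ((1 / 2 : ℝ) • c.2) (c.1 1) ∧ S.Vis (c.1 m) (-((1 / 2 : ℝ) • c.2)) (c.1 0) ∧
    ∀ t : unitInterval, 0 < t → t < 1 → S.RegX (c.1 m) (((t : ℝ) - 1 / 2) • c.2) (c.1 t)

/-- The estimate for `k` marked points. -/
def Est (Γ : Set (C(unitInterval, X) × ℂ)) (a b : ℝ) : Prop :=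
  ∃ κ > (0 : ℝ), ∃ C : ℝ, ∀ R α β : ℝ, 1 ≤ R → α ≤ β → β ≤ α + 2 * Real.pi →
    a * (β - α) * R ^ 2 - C * R ^ (2 - κ) ≤ cnt Γ α β R ∧
      cnt Γ α β R ≤ a * (β - α) * R ^ 2 + b * R ^ 2 + C * R ^ (2 - κ)

end

def RA1 : Prop := ∀ (X : Type) [TopologicalSpace X] [T2Space X] (S : TSurf X), A1 S
def RA2 : Prop := ∀ (X : Type) [TopologicalSpace X] [T2Space X] (S : TSurf X), A2 S
def RA3 : Prop := ∀ (X : Type) [TopologicalSpace X] [T2Space X] (S : TSurf X), A3 S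
def RA4 : Prop :=
  ∀ (X : Type) [TopologicalSpace X] [T2Space X] [CompactSpace X] (S : TSurf X), A4 S
def RA5 : Prop := ∀ (X : Type) [TopologicalSpace X] [T2Space X] (S : TSurf X), A5 S
def RA6 : Prop :=
  ∀ (X : Type) [TopologicalSpace X] [T2Space X] [CompactSpace X] (S : TSurf X), A6 S
def RA7 : Prop :=
  ∀ (X : Type) [TopologicalSpace X] [T2Space X] [CompactSpace X] (S : TSurf X), A7 S
def RA8 : Prop :=
  ∀ (X : Type) [TopologicalSpace X] [T2Space X] [CompactSpace X] [ConnectedSpace X]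
    (S : TSurf X), A8 S

/-- Finiteness from the local structure. -/
def RFin : Prop :=
  ∀ (Y : Type) (S : Y → Set ℂ) (ex : Y → ℂ → Y), (∀ x, ex x 0 = x) →
    (∀ x, ∀ a ∈ S x, ∀ t : ℝ, 0 ≤ t → t < 1 → t • a ∉ S x) →
    (∀ (x : Y) (C : Set ℂ), Convex ℝ C → 0 ∈ C → Disjoint C (S x) → ∀ u ∈ C, ∀ w, u + w ∈ C →
      w ∉ S (ex x u) ∧ ex (ex x u) w = ex x (u + w)) →
    ((∃ r > 0, ∀ x, ∀ v ∈ S x, ∀ v' ∈ S x, ‖v‖ < r → ‖v'‖ < r → v = v') →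
      ∀ (x : Y) (R : ℝ), (S x ∩ closedBall 0 R).Finite) ∧
    ∀ n : ℕ, (∃ δ > 0, ∀ v : ℂ, v ≠ 0 → ‖v‖ ≤ δ →
      {y | v ∈ S y}.Finite ∧ {y | v ∈ S y}.ncard ≤ n) →
      ∀ v : ℂ, {y | v ∈ S y}.Finite ∧ {y | v ∈ S y}.ncard ≤ n

/-- The exponential map preserves the area near the origin. -/
def RLocX : Prop :=
  ∀ (X : Type) [TopologicalSpace X] [T2Space X] [MeasurableSpace X] [BorelSpace X] (S : TSurf X)
    (μ : Measure X), S.IsArea μ → ∀ y, y ∉ S.Sig → ∃ r > 0, InjOn (S.exX y) (ball 0 r) ∧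
      (∀ A, MeasurableSet A → MeasurableSet (ball 0 r ∩ S.exX y ⁻¹' A)) ∧
      ∀ B ⊆ ball (0 : ℂ) r, MeasurableSet B →
        MeasurableSet (S.exX y '' B) ∧ μ (S.exX y '' B) = volume B

def RAtl : Prop :=
  ∀ (X : Type) [TopologicalSpace X] [T2Space X] [CompactSpace X] [ConnectedSpace X]
    [MeasurableSpace X] [BorelSpace X] (S : TSurf X) (μ : Measure X), S.IsArea μ →
    ∃ T : TS {x // x ∉ S.Sig}, IsModel S μ T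

def RBr : Prop := ∀ (X : Type) [TopologicalSpace X] [T2Space X] (S : TSurf X), Br S

/-- Adding a marked point. -/
def RMark : Prop :=
  ∀ (X : Type) [TopologicalSpace X] [T2Space X] [MeasurableSpace X] [BorelSpace X] (S : TSurf X)
    (μ : Measure X) (q : X), S.IsArea μ → q ∉ S.Sig → ∃ S' : TSurf X,
      (S'.Sig : Set X) = insert q (S.Sig : Set X) ∧ S'.tot = S.tot + 1 ∧ S'.IsArea μ ∧
      ∀ γ v, S'.Straight γ v ↔ S.Straight γ v ∧ ∀ t : unitInterval, 0 < t → t < 1 → γ t ≠ q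

/-- Segments from a generic point to a singular point. -/
def RPQX : Prop :=
  ∀ (X : Type) [TopologicalSpace X] [T2Space X] [CompactSpace X] [ConnectedSpace X]
    [MeasurableSpace X] [BorelSpace X] (S : TSurf X) (μ : Measure X), S.IsArea μ →
    0 < (μ univ).toReal ∧ ∀ σ ∈ S.Sig, ∃ κ > (0 : ℝ), ∀ᵐ q ∂μ,
      (∀ R : ℝ, {c ∈ S.Seg q σ | ‖c.2‖ ≤ R}.Finite) ∧ ∃ C : ℝ, ∀ R α β : ℝ, 1 ≤ R → α ≤ β →
        β ≤ α + 2 * Real.pi → |cnt (S.Seg q σ) α β R -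
          S.ord σ * (β - α) * R ^ 2 / (2 * (μ univ).toReal)| ≤ C * R ^ (2 - κ)

/-- The quadratic bound on the surface, and generic points lie on no saddle connection. -/
def RMX : Prop :=
  ∀ (X : Type) [TopologicalSpace X] [T2Space X] [CompactSpace X] [ConnectedSpace X]
    [MeasurableSpace X] [BorelSpace X] (S : TSurf X) (μ : Measure X), S.IsArea μ →
    Fin' (S.Conn S.Sig) ∧ (∃ A : ℝ, 0 ≤ A ∧ Est (S.Conn S.Sig) 0 A) ∧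
      ∀ᵐ q ∂μ, q ∉ S.Sig ∧ ∀ c ∈ S.Conn S.Sig, ∀ t, c.1 t ≠ q

/-- Closed segments through a generic point. -/
def RLX : Prop :=
  ∀ (X : Type) [TopologicalSpace X] [T2Space X] [CompactSpace X] [ConnectedSpace X]
    [MeasurableSpace X] [BorelSpace X] (S : TSurf X) (μ : Measure X), S.IsArea μ →
    ∀ᵐ q ∂μ, Fin' (S.Lp q) ∧ Est (S.Lp q) 0 (4 * Real.pi * S.tot / (μ univ).toReal)

/-- The saddle connections after marking one more point. -/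
def RStep : Prop :=
  ∀ (X : Type) [TopologicalSpace X] [T2Space X] (S : TSurf X) (q : X), q ∉ S.Sig →
    (∀ c ∈ S.Conn S.Sig, ∀ t, c.1 t ≠ q) → Fin' (S.Conn S.Sig) → (∀ σ ∈ S.Sig, Fin' (S.Seg q σ)) →
    Fin' (S.Lp q) → Fin' (S.Conn (insert q (S.Sig : Set X))) ∧ ∀ α β R : ℝ,
      cnt (S.Conn (insert q (S.Sig : Set X))) α β R = cnt (S.Conn S.Sig) α β R +
        ∑ σ ∈ S.Sig, (cnt (S.Seg q σ) α β R + cnt (S.Seg q σ) (α + Real.pi) (β + Real.pi) R) +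
        cnt (S.Lp q) α β R

def RInd : Prop :=
  ∀ (X : Type) [TopologicalSpace X] [T2Space X] [CompactSpace X] [ConnectedSpace X]
    [MeasurableSpace X] [BorelSpace X] (S : TSurf X) (μ : Measure X), S.IsArea μ →
    ∃ A : ℝ, 0 ≤ A ∧ ∀ k : ℕ, AE μ k fun Q => Q.ncard = k ∧ Disjoint Q S.Sig ∧
      Fin' (S.Conn (S.Sig ∪ Q)) ∧ Est (S.Conn (S.Sig ∪ Q))
        ((2 * k * S.tot + k * (k - 1)) / (2 * (μ univ).toReal))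
        (A + k * (4 * Real.pi * S.tot / (μ univ).toReal))

/-- From the two-sided estimate to the normalised counting measures. -/
def RAri : Prop :=
  ∀ (a A : ℝ) (m : ℕ), 0 < a → 0 ≤ A → 1 ≤ m → ∃ C : ℝ, ∀ (X : Type) [TopologicalSpace X]
    (Γ : Set (C(unitInterval, X) × ℂ)) (k : ℕ), 1 ≤ k →
    Est Γ ((2 * k * m + k * (k - 1)) / (2 * a)) (A + k * (4 * Real.pi * m / a)) →
    ∀ᶠ R in atTop, 0 < cnt Γ 0 (2 * Real.pi) R ∧ ∀ α β : ℝ, α ≤ β → β ≤ α + 2 * Real.pi →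
      |cnt Γ α β R / cnt Γ 0 (2 * Real.pi) R - (β - α) / (2 * Real.pi)| ≤ C / k

end Pool.Agent.MP_16ecd2_an.H18
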