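import Pool.Agent.MP_16ecd2_an.H18.Defs

/-!
An abstract model of the regular part of a translation surface: visible singular points and the
exponential map.
-/

set_option autoImplicit false

namespace Pool.Agent.MP_16ecd2_an.H18

open MeasureTheory Set Filter Topology Metric

/-- `S x` is the set of vectors from `x` to the singular points visible from `x`, and `ex x u` is
the end of the segment from `x` with holonomy `u` when that segment has no singular point. -/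
structure TS (Y : Type) [MeasurableSpace Y] where
  S : Y → Set ℂ
  ex : Y → ℂ → Y
  μ : Measure Y
  n : ℕ
  ne : Nonempty Y
  ex0 : ∀ x, ex x 0 = x
  star : ∀ x, ∀ a ∈ S x, ∀ t : ℝ, 0 ≤ t → t < 1 → t • a ∉ S x
  cons : ∀ (x : Y) (C : Set ℂ), Convex ℝ C → 0 ∈ C → Disjoint C (S x) → ∀ u ∈ C, ∀ w, u + w ∈ C →
    w ∉ S (ex x u) ∧ ex (ex x u) w = ex x (u + w)
  fin : ∀ (x : Y) (R : ℝ), (S x ∩ closedBall 0 R).Finite
  sys : ∃ δ > 0, ∀ x v, v ∈ S x → -v ∈ S x → δ ≤ ‖v‖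
  dens : ∃ R : ℝ, ∀ x, ∃ a ∈ S x, ‖a‖ ≤ R
  conn : ∀ x y, Relation.ReflTransGen
    (fun a b => ∃ u : ℂ, (∀ t ∈ Icc (0 : ℝ) 1, t • u ∉ S a) ∧ b = ex a u) x y
  prong : ∀ v : ℂ, {y | v ∈ S y}.Finite ∧ {y | v ∈ S y}.ncard ≤ n
  fm : IsFiniteMeasure μ
  loc : ∀ y, ∃ r > 0, InjOn (ex y) (ball 0 r) ∧
    (∀ A, MeasurableSet A → MeasurableSet (ball 0 r ∩ ex y ⁻¹' A)) ∧
    ∀ B ⊆ ball (0 : ℂ) r, MeasurableSet B → MeasurableSet (ex y '' B) ∧ μ (ex y '' B) = volume B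

/-- The area form. -/
def det (u v : ℂ) : ℝ := u.re * v.im - u.im * v.re

/-- Linear maps of determinant one. -/
def SL (g : ℂ →ₗ[ℝ] ℂ) : Prop := LinearMap.det g = 1

/-- Shear the slope `s` to the vertical, then stretch. -/
noncomputable def ds (L s : ℝ) : ℂ →ₗ[ℝ] ℂ where
  toFun v := ⟨L * (v.re - s * v.im), v.im / L⟩
  map_add' u v := by apply Complex.ext <;> simp <;> ring
  map_smul' a v := by apply Complex.ext <;> simp <;> ring

@[simp] theorem ds_re (L s : ℝ) (v : ℂ) : (ds L s v).re = L * (v.re - s * v.im) := rfl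

@[simp] theorem ds_im (L s : ℝ) (v : ℂ) : (ds L s v).im = v.im / L := rfl

/-- Multiplication by a complex number. -/
noncomputable def rot (u : ℂ) : ℂ →ₗ[ℝ] ℂ := LinearMap.mulLeft ℝ u

@[simp] theorem rot_apply (u v : ℂ) : rot u v = u * v := rfl

theorem det_eq (g : ℂ →ₗ[ℝ] ℂ) : LinearMap.det g = det (g 1) (g Complex.I) := by
  rw [← LinearMap.det_toMatrix Complex.basisOneI, Matrix.det_fin_two]
  simp [LinearMap.toMatrix_apply, det]
  ring

theorem sl_ds {L : ℝ} (hL : L ≠ 0) (s : ℝ) : SL (ds L s) := by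
  unfold SL
  rw [det_eq]
  simp [det]
  field_simp

theorem sl_rot {u : ℂ} (hu : ‖u‖ = 1) : SL (rot u) := by
  unfold SL
  rw [det_eq]
  have h : u.re * u.re + u.im * u.im = 1 := by
    rw [← Complex.normSq_apply, Complex.normSq_eq_norm_sq, hu]; norm_num
  simp [det]
  linarith

theorem sl_id : SL LinearMap.id := LinearMap.det_id

theorem SL.comp {g h : ℂ →ₗ[ℝ] ℂ} (hg : SL g) (hh : SL h) : SL (g ∘ₗ h) := by
  unfold SL at *
  rw [LinearMap.det_comp, hg, hh, one_mul]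

theorem SL.det_map {g : ℂ →ₗ[ℝ] ℂ} (hg : SL g) (u v : ℂ) : det (g u) (g v) = det u v := by
  have h := det_eq g
  rw [hg] at h
  have e : ∀ w : ℂ, g w = w.re • g 1 + w.im • g Complex.I := fun w => by
    rw [← map_smul, ← map_smul, ← map_add]
    congr 1
    apply Complex.ext <;> simp
  rw [e u, e v]
  simp only [det] at h ⊢
  simp
  linear_combination (u.im * v.re - u.re * v.im) * h

/-- The seminorm `‖g ·‖`. -/
noncomputable def ng (g : ℂ →ₗ[ℝ] ℂ) : Seminorm ℝ ℂ := (normSeminorm ℝ ℂ).comp g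

@[simp] theorem ng_apply (g : ℂ →ₗ[ℝ] ℂ) (v : ℂ) : ng g v = ‖g v‖ := rfl

/-- The shear as an equivalence. -/
noncomputable def sh (s : ℝ) : ℂ ≃ₗ[ℝ] ℂ :=
  LinearEquiv.ofLinearMap (ds 1 s) (ds 1 (-s))
    (by ext1 v; apply Complex.ext <;> simp) (by ext1 v; apply Complex.ext <;> simp)

theorem sh_apply (s : ℝ) (v : ℂ) : sh s v = ds 1 s v := rfl

theorem sh_symm_apply (s : ℝ) (v : ℂ) : (sh s).symm v = ds 1 (-s) v := rfl

theorem sl_sh (s : ℝ) : SL (sh s : ℂ →ₗ[ℝ] ℂ) := sl_ds one_ne_zero s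

/-- A rotation as an equivalence. -/
noncomputable def rt (u : ℂ) (hu : ‖u‖ = 1) : ℂ ≃ₗ[ℝ] ℂ :=
  LinearEquiv.ofLinearMap (rot u) (rot u⁻¹)
    (by
      have : u ≠ 0 := by rintro rfl; simp at hu
      ext1 v; simp [this])
    (by
      have : u ≠ 0 := by rintro rfl; simp at hu
      ext1 v; simp [this])

theorem rt_apply (u : ℂ) (hu : ‖u‖ = 1) (v : ℂ) : rt u hu v = u * v := rfl

theorem rt_symm_apply (u : ℂ) (hu : ‖u‖ = 1) (v : ℂ) : (rt u hu).symm v = u⁻¹ * v := rfl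

theorem sl_rt (u : ℂ) (hu : ‖u‖ = 1) : SL (rt u hu : ℂ →ₗ[ℝ] ℂ) := sl_rot hu

theorem lin_bound (g : ℂ →ₗ[ℝ] ℂ) : ∃ K > 0, ∀ v, ‖g v‖ ≤ K * ‖v‖ := by
  obtain ⟨K, hK, h⟩ := (LinearMap.toContinuousLinearMap g).bound
  exact ⟨K, hK, h⟩

variable {Y : Type} [MeasurableSpace Y]

/-- The surface `g · T`. -/
noncomputable def TS.map (T : TS Y) (g : ℂ ≃ₗ[ℝ] ℂ) (hg : SL (g : ℂ →ₗ[ℝ] ℂ)) : TS Y where
  S x := {v | g.symm v ∈ T.S x}
  ex x u := T.ex x (g.symm u)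
  μ := T.μ
  n := T.n
  ne := T.ne
  ex0 x := by simp [T.ex0]
  star x a ha t h0 h1 := by
    simpa only [mem_ofPred_eq, map_smul] using T.star x _ ha t h0 h1
  cons x C hC h0 hd u hu w hw := by
    have := T.cons x (g ⁻¹' C) (hC.linear_preimage (g : ℂ →ₗ[ℝ] ℂ)) (by simpa using h0)
      (by
        rw [Set.disjoint_left] at hd ⊢
        intro a ha hb
        exact hd ha (by simpa using hb)) (g.symm u) (by simpa using hu) (g.symm w)
      (by simpa using hw)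
    simpa using this
  fin x R := by
    obtain ⟨K, hK, h⟩ := lin_bound (g.symm : ℂ →ₗ[ℝ] ℂ)
    refine ((T.fin x (K * R)).image g).subset ?_
    rintro v ⟨hv, hR⟩
    refine ⟨g.symm v, ⟨hv, ?_⟩, by simp⟩
    rw [mem_closedBall_zero_iff] at hR ⊢
    exact (h v).trans (mul_le_mul_of_nonneg_left hR hK.le)
  sys := by
    obtain ⟨K, hK, h⟩ := lin_bound (g.symm : ℂ →ₗ[ℝ] ℂ)
    obtain ⟨δ, hδ, hs⟩ := T.sys
    refine ⟨δ / K, by positivity, fun x v h1 h2 => ?_⟩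
    rw [div_le_iff₀' hK]
    exact (hs x _ h1 (by simpa using h2)).trans (h v)
  dens := by
    obtain ⟨K, hK, h⟩ := lin_bound (g : ℂ →ₗ[ℝ] ℂ)
    obtain ⟨R, hR⟩ := T.dens
    refine ⟨K * R, fun x => ?_⟩
    obtain ⟨a, ha, hb⟩ := hR x
    exact ⟨g a, by simpa using ha, (h a).trans (mul_le_mul_of_nonneg_left hb hK.le)⟩
  conn x y := by
    refine Relation.ReflTransGen.mono ?_ x y (T.conn x y)
    rintro a b ⟨u, hu, rfl⟩
    exact ⟨g u, fun t ht => by
      simpa only [mem_ofPred_eq, map_smul, g.symm_apply_apply] using hu t ht, by simp⟩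
  prong v := T.prong _
  fm := T.fm
  loc y := by
    obtain ⟨K, hK, h⟩ := lin_bound (g.symm : ℂ →ₗ[ℝ] ℂ)
    obtain ⟨r, hr, h1, h2, h3⟩ := T.loc y
    have hb : ∀ v ∈ ball (0 : ℂ) (r / K), g.symm v ∈ ball (0 : ℂ) r := fun v hv => by
      rw [mem_ball_zero_iff] at hv ⊢
      rw [lt_div_iff₀' hK] at hv
      exact (h v).trans_lt hv
    have hc : Continuous g := (g : ℂ →ₗ[ℝ] ℂ).continuous_of_finiteDimensional
    have hc' : Continuous g.symm := (g.symm : ℂ →ₗ[ℝ] ℂ).continuous_of_finiteDimensional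
    refine ⟨r / K, by positivity, fun u hu v hv e => ?_, fun A hA => ?_, fun B hB hm => ?_⟩
    · exact g.symm.injective (h1 (hb u hu) (hb v hv) e)
    · have : ball (0 : ℂ) (r / K) ∩ (fun u => T.ex y (g.symm u)) ⁻¹' A =
          ball 0 (r / K) ∩ g.symm ⁻¹' (ball 0 r ∩ T.ex y ⁻¹' A) := by
        ext v
        exact ⟨fun hv => ⟨hv.1, hb v hv.1, hv.2⟩, fun hv => ⟨hv.1, hv.2.2⟩⟩
      rw [this]
      exact measurableSet_ball.inter (hc'.measurable (h2 A hA))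
    · have e : (fun u => T.ex y (g.symm u)) '' B = T.ex y '' (g ⁻¹' B) := by
        ext z
        constructor
        · rintro ⟨u, hu, rfl⟩
          exact ⟨g.symm u, by simpa using hu, rfl⟩
        · rintro ⟨u, hu, rfl⟩
          exact ⟨g u, hu, by simp⟩
      have := h3 (g ⁻¹' B) (fun u hu => by simpa using hb _ (hB hu)) (hc.measurable hm)
      rw [e]
      refine ⟨this.1, this.2.trans ?_⟩
      have h4 := Measure.addHaar_preimage_linearMap (volume : Measure ℂ)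
        (f := (g : ℂ →ₗ[ℝ] ℂ)) (by rw [hg]; exact one_ne_zero) B
      rw [hg] at h4
      simpa using h4

/-- The surface on which the slope `s` is vertical. -/
noncomputable def TS.shear (T : TS Y) (s : ℝ) : TS Y := T.map (sh s) (sl_sh s)

/-- The rotated surface. -/
noncomputable def TS.turn (T : TS Y) (u : ℂ) (hu : ‖u‖ = 1) : TS Y := T.map (rt u hu) (sl_rt u hu)

theorem TS.shear_S (T : TS Y) (s : ℝ) (x : Y) (v : ℂ) :
    v ∈ (T.shear s).S x ↔ ds 1 (-s) v ∈ T.S x := Iff.rfl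

theorem TS.shear_ex (T : TS Y) (s : ℝ) (x : Y) (v : ℂ) :
    (T.shear s).ex x v = T.ex x (ds 1 (-s) v) := rfl

theorem TS.shear_μ (T : TS Y) (s : ℝ) : (T.shear s).μ = T.μ := rfl

theorem TS.turn_S (T : TS Y) (u : ℂ) (hu : ‖u‖ = 1) (x : Y) (v : ℂ) :
    v ∈ (T.turn u hu).S x ↔ u⁻¹ * v ∈ T.S x := Iff.rfl

theorem TS.turn_ex (T : TS Y) (u : ℂ) (hu : ‖u‖ = 1) (x : Y) (v : ℂ) :
    (T.turn u hu).ex x v = T.ex x (u⁻¹ * v) := rfl

theorem TS.turn_μ (T : TS Y) (u : ℂ) (hu : ‖u‖ = 1) : (T.turn u hu).μ = T.μ := rfl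

end Pool.Agent.MP_16ecd2_an.H18
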